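import Mathlib

set_option autoImplicit false

noncomputable section

open MeasureTheory Set Filter Topology
open scoped ContDiff ComplexConjugate

namespace Pool.Agent.Helper459.SK

/-! ## Problem definitions (general dimension) -/

abbrev E (n : ℕ) := EuclideanSpace ℝ (Fin n)
abbrev L2 (n : ℕ) := Lp ℂ 2 (volume : Measure (E n))

/-- smooth compactly supported functions -/
structure IsTest {n : ℕ} (u : E n → ℂ) : Prop where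
  smooth : ContDiff ℝ ∞ u
  cpt : HasCompactSupport u

open Classical in
/-- the class of `u` in `L²` (junk value `0` if `u` is not square integrable) -/
def toL2 {n : ℕ} (u : E n → ℂ) : L2 n :=
  if h : MemLp u 2 (volume : Measure (E n)) then h.toLp u else 0

/-- the derivative `∂_j u` in the `j`-th coordinate direction -/
def pd {n : ℕ} {F : Type} [NormedAddCommGroup F] [NormedSpace ℝ F] (j : Fin n) (u : E n → F) (x : E n) : F :=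
  fderiv ℝ u x (EuclideanSpace.single j 1)

/-- `P u = -½ Σ ∂_j (a^{jl} ∂_l u)` -/
def Pop {n : ℕ} (A : E n → Matrix (Fin n) (Fin n) ℝ) (u : E n → ℂ) (x : E n) : ℂ :=
  -(1 / 2) * ∑ j, ∑ l, pd j (fun y => (A y j l : ℂ) * pd l u y) x

/-- the hypotheses on the coefficients -/
structure Admissible {n : ℕ} (A : E n → Matrix (Fin n) (Fin n) ℝ) : Prop where
  smooth : ∀ j l, ContDiff ℝ ∞ (fun x => A x j l)
  symm : ∀ x, (A x).IsSymm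
  pos : ∃ c : ℝ, 0 < c ∧ ∀ x ξ : E n, c * ‖ξ‖ ^ 2 ≤ ∑ j, ∑ l, A x j l * ξ j * ξ l
  decay : ∃ ε : ℝ, 0 < ε ∧ ∀ k : ℕ, ∃ C : ℝ, ∀ x j l,
    ‖iteratedFDeriv ℝ k (fun y => A y j l - if j = l then 1 else 0) x‖ ≤
      C * (1 + ‖x‖) ^ (-1 - ε - (k : ℝ))

/-- `U` is the propagator `e^{-itP}` of `i ∂_t ψ = P ψ` -/
structure IsPropagator {n : ℕ} (A : E n → Matrix (Fin n) (Fin n) ℝ) (U : ℝ → (L2 n →L[ℂ] L2 n)) : Prop where
  zero : ∀ f, U 0 f = f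
  add : ∀ s t f, U (s + t) f = U s (U t f)
  isom : ∀ t f, ‖U t f‖ = ‖f‖
  cont : ∀ f, Continuous (fun t => U t f)
  gen : ∀ u : E n → ℂ, IsTest u →
    HasDerivAt (fun t => U t (toL2 u)) (-Complex.I • toL2 (Pop A u)) 0

/-- `φ(x) e^{i ξ·x}` -/
def wpk {n : ℕ} (φ : E n → ℂ) (ξ : E n) (x : E n) : ℂ :=
  φ x * Complex.exp (Complex.I * ((inner ℝ ξ x : ℝ) : ℂ))

/-- `((x₀,ξ₀),(y₀,η₀))` is not in the wave front relation of the Schwartz kernel of `S` -/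
def RegPt {n : ℕ} (S : L2 n →L[ℂ] L2 n) (x₀ ξ₀ y₀ η₀ : E n) : Prop :=
  ∃ φ₁ φ₂ : E n → ℂ, IsTest φ₁ ∧ IsTest φ₂ ∧ φ₁ x₀ ≠ 0 ∧ φ₂ y₀ ≠ 0 ∧
    ∃ Γ : Set (E n × E n), IsOpen Γ ∧ (∀ p ∈ Γ, ∀ r : ℝ, 0 < r → r • p ∈ Γ) ∧ (ξ₀, η₀) ∈ Γ ∧
      ∀ N : ℕ, ∃ C : ℝ, ∀ p ∈ Γ,
        ‖inner ℂ (toL2 (wpk φ₁ p.1)) (S (toL2 (wpk φ₂ p.2)))‖ * (1 + ‖p.1‖ + ‖p.2‖) ^ N ≤ C

/-- Hamilton's equations of `a(x,ξ) = ½ ⟨A(x)ξ,ξ⟩` at the times in `I` -/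
def IsBichar {n : ℕ} (A : E n → Matrix (Fin n) (Fin n) ℝ) (x ξ : ℝ → E n) (I : Set ℝ) : Prop :=
  ∀ s ∈ I, (∀ i, HasDerivAt (fun τ => x τ i) (∑ l, A (x s) i l * ξ s l) s) ∧
    (∀ i, HasDerivAt (fun τ => ξ τ i)
      (-(1 / 2) * ∑ j, ∑ l, pd i (fun y => A y j l) (x s) * ξ s j * ξ s l) s)

end Pool.Agent.Helper459.SK
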