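import Mathlib
import Pool.Agent.Helper459.SK.PDefs

set_option autoImplicit false

noncomputable section

open MeasureTheory Set Filter Topology
open scoped ContDiff ComplexConjugate

namespace Pool.Agent.Helper459.SK

/-- `T s = exp (-1/s)` for `s > 0`, `0` for `s ≤ 0`. -/
def T (s : ℝ) : ℝ := expNegInvGlue s
/-- `Om s = s⁻⁴ exp (-2/s)` for `s > 0`, `0` for `s ≤ 0`. -/
def Om (s : ℝ) : ℝ := (s⁻¹) ^ 4 * (T s) ^ 2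
def el : ℝ := 1 / 16

def wN (z : ℝ) : ℝ := (1 / (2 * z) - 1 / 8) * Real.smoothTransition (2 - z)
def wM (z : ℝ) : ℝ :=
  Om (z - 3) * Real.smoothTransition (8 * (51 / 16 - z)) +
    Om (13 / 4 - z) * (1 - Real.smoothTransition (8 * (51 / 16 - z)))
def wR (z : ℝ) : ℝ :=
  Om (z - 17 / 4) * Real.smoothTransition ((9 / 2 - z) * (16 / 3)) +
    (1 / 8 - 1 / (2 * z)) * (1 - Real.smoothTransition ((9 / 2 - z) * (16 / 3)))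
/-- the profile -/
def w0 (z : ℝ) : ℝ := - wN z + wM z + wR z

/-- The properties of the profile used in the one-dimensional part. -/
structure WP (w : ℝ → ℝ) : Prop where
  smooth : ∀ z, 0 < z → ContDiffAt ℝ ∞ w z
  flat1 : ∀ z ∈ Icc (2 : ℝ) 3, w z = 0
  flat2 : ∀ z ∈ Icc (13 / 4 : ℝ) (17 / 4), w z = 0
  neg : ∀ z ∈ Ioo (0 : ℝ) 2, w z < 0
  posM : ∀ z ∈ Ioo (3 : ℝ) (13 / 4), 0 < w z
  posR : ∀ z, (17 / 4 : ℝ) < z → 0 < w z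
  e1 : ∀ s ∈ Icc (0 : ℝ) el, w (3 + s) = Om s
  e2 : ∀ s ∈ Icc (0 : ℝ) el, w (13 / 4 - s) = Om s
  e3 : ∀ s ∈ Icc (0 : ℝ) el, w (17 / 4 + s) = Om s
  lt : ∀ z, 0 < z → w z < 1 / 8

/-- Bessel-type functions: `J1 = X J'`, `R1 = X R'`, `(X J')' = -J`, `(X R')' = J' - R`. -/
structure Bes (J J1 R R1 : ℝ → ℝ) (C : ℝ) : Prop where
  dJ : ∀ X, 0 < X → HasDerivAt J (J1 X / X) X
  dJ1 : ∀ X, 0 < X → HasDerivAt J1 (-J X) X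
  dR : ∀ X, 0 < X → HasDerivAt R (R1 X / X) X
  dR1 : ∀ X, 0 < X → HasDerivAt R1 (J1 X / X - R X) X
  bJ : ∀ X, 0 < X → X ≤ 1 → |J X - 1| ≤ C * X
  bJ1 : ∀ X, 0 < X → X ≤ 1 → |J1 X| ≤ C * X
  bR : ∀ X, 0 < X → X ≤ 1 → |R X| ≤ C * X
  bR1 : ∀ X, 0 < X → X ≤ 1 → |R1 X| ≤ C * X

/-- `p` solves `p'' = -m² Om p` on `(0,∞)` with one sided values `a`, `b` of `p`, `p'` at `0`. -/
structure Phi (m : ℕ) (p p1 : ℝ → ℝ) (a b : ℝ) : Prop where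
  d0 : ∀ s, 0 < s → HasDerivAt p (p1 s) s
  d1 : ∀ s, 0 < s → HasDerivAt p1 (-((m : ℝ) ^ 2 * Om s) * p s) s
  l0 : Tendsto p (𝓝[>] 0) (𝓝 a)
  l1 : Tendsto p1 (𝓝[>] 0) (𝓝 b)

def XX (m : ℕ) (s : ℝ) : ℝ := (m : ℝ) ^ 2 * Real.exp (-2 / s) / 4
def pS (J : ℝ → ℝ) (m : ℕ) (s : ℝ) : ℝ := s * J (XX m s)
def pS1 (J J1 : ℝ → ℝ) (m : ℕ) (s : ℝ) : ℝ := J (XX m s) + (2 / s) * J1 (XX m s)
def pC (J R : ℝ → ℝ) (m : ℕ) (s : ℝ) : ℝ := J (XX m s) + s * R (XX m s)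
def pC1 (J1 R R1 : ℝ → ℝ) (m : ℕ) (s : ℝ) : ℝ :=
  (2 / s ^ 2) * J1 (XX m s) + R (XX m s) + (2 / s) * R1 (XX m s)

/-- WKB function `s x^{-1/2} e^{ix}`, `x = m T s`. -/
def EP (m : ℕ) (s : ℝ) : ℂ :=
  ((s * Real.exp (1 / (2 * s)) / Real.sqrt m : ℝ) : ℂ) * Complex.exp (Complex.I * ((m * T s : ℝ) : ℂ))
/-- its derivative -/
def EP1 (m : ℕ) (s : ℝ) : ℂ :=
  EP m s * (((1 / s - 1 / (2 * s ^ 2) : ℝ) : ℂ) + Complex.I * ((m * T s / s ^ 2 : ℝ) : ℂ))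
/-- coefficient of the outgoing WKB wave -/
def cA (m : ℕ) (s : ℝ) (g g1 : ℂ) : ℂ := (Complex.I / 2) * (g * conj (EP1 m s) - g1 * conj (EP m s))
/-- coefficient of the incoming WKB wave -/
def cB (m : ℕ) (s : ℝ) (g g1 : ℂ) : ℂ := -(Complex.I / 2) * (g * EP1 m s - g1 * EP m s)

structure Chi (χ : ℝ → ℝ) : Prop where
  smooth : ContDiff ℝ ∞ χ
  nonneg : ∀ s, 0 ≤ χ s
  supp : tsupport χ ⊆ Ioo (el / 2) el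
  pos : 0 < ∫ s in (0 : ℝ)..el, χ s

/-- ODE hypotheses on the edge interval `[0, el]`. -/
structure EdgeODE (m : ℕ) (G G1 K : ℝ → ℂ) : Prop where
  d0 : ∀ s ∈ Icc (0 : ℝ) el, HasDerivAt G (G1 s) s
  d1 : ∀ s ∈ Icc (0 : ℝ) el, HasDerivAt G1 (-((m : ℂ) ^ 2 * (Om s : ℂ)) * G s - 2 * K s) s
  kc : ContinuousOn K (Icc (0 : ℝ) el)

structure EdgeHyp (χ : ℝ → ℝ) (m : ℕ) (C : ℝ) (G G1 K : ℝ → ℂ) : Prop where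
  ode : EdgeODE m G G1 K
  g0 : ‖G 0‖ ≤ C
  g1 : ‖G1 0‖ ≤ C
  k2 : ∫ s in (0 : ℝ)..el, ‖K s‖ ^ 2 ≤ C ^ 2
  osc : ‖∫ s in (0 : ℝ)..el, (χ s : ℂ) * Complex.exp (Complex.I * ((m * T s : ℝ) : ℂ)) * G s‖ ≤ C / m

/-- `G'' = -m² w G - 2 K` on `(3/2, 9/2)`. -/
structure Sol (w : ℝ → ℝ) (m : ℕ) (G G1 K : ℝ → ℂ) : Prop where
  d0 : ∀ z ∈ Ioo (3 / 2 : ℝ) (9 / 2), HasDerivAt G (G1 z) z
  d1 : ∀ z ∈ Ioo (3 / 2 : ℝ) (9 / 2), HasDerivAt G1 (-((m : ℂ) ^ 2 * (w z : ℂ)) * G z - 2 * K z) z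
  kc : ContinuousOn K (Ioo (3 / 2 : ℝ) (9 / 2))

/-- square-integrable on `(3/2, 9/2)` with norm at most `C` -/
def L2b (C : ℝ) (G : ℝ → ℂ) : Prop :=
  IntegrableOn (fun z => ‖G z‖ ^ 2) (Ioo (3 / 2 : ℝ) (9 / 2)) ∧
    ∫ z in Ioo (3 / 2 : ℝ) (9 / 2), ‖G z‖ ^ 2 ≤ C ^ 2

abbrev L2z := Lp ℂ 2 (volume.restrict (Ioi (0 : ℝ)))

/-- `f_j = (-½ ∂²)^j f` -/
def fj (f : ℝ → ℝ) : ℕ → ℝ → ℝ
  | 0 => f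
  | (j + 1) => fun z => -(1 / 2) * deriv (deriv (fj f j)) z

/-- the mode system -/
structure Sys (w f : ℝ → ℝ) (g : ℕ → ℕ → ℝ → L2z) (Kc : ℕ → ℝ) : Prop where
  bd : ∀ m j t, ‖g m j t‖ ≤ Kc j
  init : ∀ m j, (g m j 0 : ℝ → ℂ) =ᵐ[volume.restrict (Ioi (0 : ℝ))] fun z => ((fj f j z : ℝ) : ℂ)
  der : ∀ m j t, HasDerivAt (g m j) (-Complex.I • g m (j + 1) t) t
  weak : ∀ m j t, ∀ χ : ℝ → ℝ, ContDiff ℝ ∞ χ → HasCompactSupport χ →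
    tsupport χ ⊆ Ioo (3 / 2 : ℝ) (9 / 2) →
    ∫ z in Ioo (3 / 2 : ℝ) (9 / 2), (g m j t : ℝ → ℂ) z * ((deriv (deriv χ) z : ℝ) : ℂ) =
      ∫ z in Ioo (3 / 2 : ℝ) (9 / 2),
        (-((m : ℂ) ^ 2 * (w z : ℂ)) * (g m j t : ℝ → ℂ) z - 2 * (g m (j + 1) t : ℝ → ℂ) z) * (χ z : ℂ)

/-- the absence of incoming oscillations (from the wave front set hypothesis) -/
structure Osc (χ : ℝ → ℝ) (g : ℕ → ℕ → ℝ → L2z) : Prop where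
  o1 : ∀ t, 0 < t → ∀ j, ∃ C : ℝ, ∀ m : ℕ, 1 ≤ m →
    ‖∫ z in (3 : ℝ)..(3 + el), (χ (z - 3) : ℂ) *
      Complex.exp (Complex.I * ((m * T (z - 3) : ℝ) : ℂ)) * (g m j t : ℝ → ℂ) z‖ ≤ C / m
  o2 : ∀ t, 0 < t → ∀ j, ∃ C : ℝ, ∀ m : ℕ, 1 ≤ m →
    ‖∫ z in (13 / 4 - el : ℝ)..(13 / 4), (χ (13 / 4 - z) : ℂ) *
      Complex.exp (-(Complex.I * ((m * T (13 / 4 - z) : ℝ) : ℂ))) * (g m j t : ℝ → ℂ) z‖ ≤ C / m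
  o3 : ∀ t, 0 < t → ∀ j, ∃ C : ℝ, ∀ m : ℕ, 1 ≤ m →
    ‖∫ z in (17 / 4 : ℝ)..(17 / 4 + el), (χ (z - 17 / 4) : ℂ) *
      Complex.exp (Complex.I * ((m * T (z - 17 / 4) : ℝ) : ℂ)) * (g m j t : ℝ → ℂ) z‖ ≤ C / m

structure FP (f : ℝ → ℝ) : Prop where
  smooth : ContDiff ℝ ∞ f
  supp : tsupport f ⊆ Ioo (2 : ℝ) 3
  nonneg : ∀ z, 0 ≤ f z
  pos : ∃ z, 0 < f z

/-- classical representatives of the mode system -/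
structure Rep (w f : ℝ → ℝ) (g : ℕ → ℕ → ℝ → L2z) (G G1 : ℕ → ℕ → ℝ → ℝ → ℂ) (Kc : ℕ → ℝ) : Prop where
  ae : ∀ m j t, (g m j t : ℝ → ℂ) =ᵐ[volume.restrict (Ioo (3 / 2 : ℝ) (9 / 2))] G m j t
  sol : ∀ m j t, Sol w m (G m j t) (G1 m j t) (G m (j + 1) t)
  bd : ∀ m j t, L2b (Kc j) (G m j t)


/-! ## The metric -/
def v0 (z : ℝ) : ℝ := 1 / 8 - w0 z
def S2 (z : ℝ) : ℝ := Real.smoothTransition (2 * (z - 1)) * Real.smoothTransition (2 * (5 - z))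
def al (z : ℝ) : ℝ := S2 z + (1 - S2 z) * (2 * z)
def Dz (z : ℝ) : ℝ := (al z - 4 * z ^ 2 * v0 z) / (4 * z ^ 2)
/-- the coefficient matrix -/
def A0 (x : E 2) : Matrix (Fin 2) (Fin 2) ℝ := fun i j =>
  if ‖x‖ ^ 2 / 2 < 1 then (if i = j then 1 else 0)
  else (if i = j then 2 * (‖x‖ ^ 2 / 2) * v0 (‖x‖ ^ 2 / 2) else 0) + Dz (‖x‖ ^ 2 / 2) * x i * x j

/-- `x/|x|` as a complex number -/
def ze (x : E 2) : ℂ := ((x 0 : ℂ) + Complex.I * (x 1 : ℂ)) / ((‖x‖ : ℝ) : ℂ)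
/-- the mode `(x/|x|)^m h(|x|²/2)` -/
def md (m : ℕ) (h : ℝ → ℂ) (x : E 2) : ℂ := ze x ^ m * h (‖x‖ ^ 2 / 2)

def VV : Set (E 2 × E 2) := {p | 3 < ‖p.1‖ ^ 2 / 2 ∧ inner ℝ p.1 p.2 < (0 : ℝ)}
def WW : Set (E 2 × E 2) := {p | 2 < ‖p.1‖ ^ 2 / 2 ∧ ‖p.1‖ ^ 2 / 2 < 3 ∧ p.1 0 * p.2 1 - p.1 1 * p.2 0 ≠ 0}


/-- the reduced functions: `g m j t = e^{itm²/16} T_m† U_t T_m f_j` -/
structure Red (U : ℝ → (L2 2 →L[ℂ] L2 2)) (f : ℝ → ℝ) (g : ℕ → ℕ → ℝ → L2z) : Prop where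
  /-- pairing with a mode: `∫ conj(χ) g = (2π)^{-1} e^{itm²/16} ⟨md m χ, U_t (md m f_j)⟩` -/
  pair : ∀ m j t, ∀ χ : ℝ → ℂ, Continuous χ → HasCompactSupport χ → tsupport χ ⊆ Ioi 0 →
    ∫ z in Ioi (0 : ℝ), conj (χ z) * (g m j t : ℝ → ℂ) z =
      ((1 / (2 * Real.pi) : ℝ) : ℂ) * Complex.exp (Complex.I * ((t * (m : ℝ) ^ 2 / 16 : ℝ) : ℂ)) *
        inner ℂ (toL2 (md m χ)) (U t (toL2 (md m (fun z => (fj f j z : ℂ)))))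
  bd : ∃ Kc : ℕ → ℝ, ∀ m j t, ‖g m j t‖ ≤ Kc j
  init : ∀ m j, (g m j 0 : ℝ → ℂ) =ᵐ[volume.restrict (Ioi (0 : ℝ))] fun z => ((fj f j z : ℝ) : ℂ)
  der : ∀ m j t, HasDerivAt (g m j) (-Complex.I • g m (j + 1) t) t

end Pool.Agent.Helper459.SK
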