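import Mathlib

set_option autoImplicit false

noncomputable section

open MeasureTheory Filter Topology
open scoped ContDiff ComplexConjugate

namespace Pool.Agent.Helper459.Schr

/-- Euclidean space of dimension `n`. -/
abbrev E (n : ℕ) := EuclideanSpace ℝ (Fin n)

/-- Smooth compactly supported functions. -/
def Test {n : ℕ} (u : E n → ℂ) : Prop := ContDiff ℝ ∞ u ∧ HasCompactSupport u

/-- Square integrable functions. -/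
def InL2 {n : ℕ} (u : E n → ℂ) : Prop := MemLp u 2 (volume : Measure (E n))

/-- The `L²` norm (with values in `[0,∞]`). -/
def nrm {n : ℕ} (u : E n → ℂ) : ENNReal := eLpNorm u 2 (volume : Measure (E n))

/-- Equality almost everywhere. -/
def AEq {n : ℕ} (u v : E n → ℂ) : Prop := u =ᵐ[(volume : Measure (E n))] v

/-- The integral over `ℝⁿ` of `conj u * v`. -/
def pairing {n : ℕ} (u v : E n → ℂ) : ℂ := ∫ x : E n, conj (u x) * v x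

/-- The derivative in the `j`-th coordinate direction. -/
def pdR {n : ℕ} (j : Fin n) (u : E n → ℝ) (x : E n) : ℝ :=
  fderiv ℝ u x (EuclideanSpace.single j 1)

/-- The derivative in the `j`-th coordinate direction. -/
def pdC {n : ℕ} (j : Fin n) (u : E n → ℂ) (x : E n) : ℂ :=
  fderiv ℝ u x (EuclideanSpace.single j 1)

/-- `P u = -½ Σ_{j,l} ∂_j (a^{jl} ∂_l u)`. -/
def Pop {n : ℕ} (A : E n → Matrix (Fin n) (Fin n) ℝ) (u : E n → ℂ) (x : E n) : ℂ :=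
  -(1 / 2) * ∑ j, ∑ l, pdC j (fun y => (A y j l : ℂ) * pdC l u y) x

/-- The norm of the `k`-th derivative of a scalar function. -/
def dnorm {n : ℕ} (k : ℕ) (u : E n → ℝ) (x : E n) : ℝ := ‖iteratedFDeriv ℝ k u x‖

/-- The hypotheses on the coefficients. -/
structure Admissible {n : ℕ} (A : E n → Matrix (Fin n) (Fin n) ℝ) : Prop where
  smooth : ∀ j l, ContDiff ℝ ∞ (fun x => A x j l)
  symm : ∀ x j l, A x j l = A x l j
  pos : ∃ c : ℝ, 0 < c ∧ ∀ x ξ : E n, c * ‖ξ‖ ^ 2 ≤ ∑ j, ∑ l, A x j l * ξ j * ξ l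
  decay : ∃ ε : ℝ, 0 < ε ∧ ∀ k : ℕ, ∃ C : ℝ, ∀ (x : E n) (j l : Fin n),
    dnorm k (fun y => A y j l - if j = l then 1 else 0) x ≤ C * (1 + ‖x‖) ^ (-1 - ε - (k : ℝ))

/-- `U` is (on `L²` functions, up to null sets) the propagator `ψ(0) ↦ ψ(t)` of `i ∂_t ψ = P ψ`:
a strongly continuous one-parameter group of linear isometries of `L²` whose derivative at
`t = 0` on smooth compactly supported functions is `-iP`. -/
structure IsPropagator {n : ℕ} (A : E n → Matrix (Fin n) (Fin n) ℝ)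
    (U : ℝ → (E n → ℂ) → (E n → ℂ)) : Prop where
  mem : ∀ t f, InL2 f → InL2 (U t f)
  lin : ∀ t (c : ℂ) f g, InL2 f → InL2 g →
    AEq (U t (fun x => c * f x + g x)) (fun x => c * U t f x + U t g x)
  isom : ∀ t f, InL2 f → nrm (U t f) = nrm f
  zero : ∀ f, InL2 f → AEq (U 0 f) f
  add : ∀ s t f, InL2 f → AEq (U (s + t) f) (U s (U t f))
  cont : ∀ f, InL2 f → Tendsto (fun t : ℝ => nrm (fun x => U t f x - f x)) (𝓝 0) (𝓝 0)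
  gen : ∀ u, Test u →
    Tendsto (fun t : ℝ => nrm (fun x => (U t u x - u x) / (t : ℂ) + Complex.I * Pop A u x))
      (𝓝[≠] 0) (𝓝 0)

/-- The localised plane wave `φ(x) e^{i ξ·x}`. -/
def wpk {n : ℕ} (φ : E n → ℂ) (ξ : E n) (x : E n) : ℂ :=
  φ x * Complex.exp (Complex.I * ((∑ j, ξ j * x j : ℝ) : ℂ))

/-- `Γ` is an open cone containing `(ξ₀, η₀)`. -/
def ConeAt {n : ℕ} (Γ : Set (E n × E n)) (ξ₀ η₀ : E n) : Prop :=
  IsOpen Γ ∧ (ξ₀, η₀) ∈ Γ ∧ ∀ ξ η : E n, (ξ, η) ∈ Γ → ∀ r : ℝ, 0 < r → (r • ξ, r • η) ∈ Γ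

/-- The Fourier transform of `(conj φ₁ ⊗ φ₂) K`, `K` the Schwartz kernel of `S`, evaluated at
`(ξ, -η)`, is rapidly decreasing in `Γ`. -/
def RapidDecay {n : ℕ} (S : (E n → ℂ) → (E n → ℂ)) (φ₁ φ₂ : E n → ℂ) (Γ : Set (E n × E n)) : Prop :=
  ∀ N : ℕ, ∃ C : ℝ, ∀ ξ η : E n, (ξ, η) ∈ Γ →
    ‖pairing (wpk φ₁ ξ) (S (wpk φ₂ η))‖ * (1 + ‖ξ‖ + ‖η‖) ^ N ≤ C

/-- `((x₀,ξ₀),(y₀,η₀))` is in the wave front relation of the Schwartz kernel of `S`: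
`(x₀,y₀;ξ₀,-η₀)` is in the wave front set of the kernel. -/
def InWF {n : ℕ} (S : (E n → ℂ) → (E n → ℂ)) (x₀ ξ₀ y₀ η₀ : E n) : Prop :=
  (ξ₀ ≠ 0 ∨ η₀ ≠ 0) ∧
    ¬ ∃ φ₁ φ₂ : E n → ℂ, Test φ₁ ∧ Test φ₂ ∧ φ₁ x₀ ≠ 0 ∧ φ₂ y₀ ≠ 0 ∧
      ∃ Γ : Set (E n × E n), ConeAt Γ ξ₀ η₀ ∧ RapidDecay S φ₁ φ₂ Γ

/-- `(x(s), ξ(s))` solves Hamilton's equations of `a(x,ξ) = ½ ⟨A(x)ξ,ξ⟩` for `0 ≤ s ≤ s₁`. -/
def IsBichar {n : ℕ} (A : E n → Matrix (Fin n) (Fin n) ℝ) (s₁ : ℝ) (x ξ : ℝ → E n) : Prop :=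
  ∀ s : ℝ, 0 ≤ s → s ≤ s₁ → ∀ i : Fin n,
    HasDerivAt (fun τ => x τ i) (∑ l, A (x s) i l * ξ s l) s ∧
    HasDerivAt (fun τ => ξ τ i)
      (-(1 / 2) * ∑ j, ∑ l, pdR i (fun y => A y j l) (x s) * ξ s j * ξ s l) s

/-- `V` is a conic neighbourhood of the covector `(x₀, ξ₀)`. -/
def ConicNhd {n : ℕ} (V : Set (E n × E n)) (x₀ ξ₀ : E n) : Prop :=
  (x₀, ξ₀) ∈ V ∧ IsOpen V ∧ (∀ x ξ : E n, (x, ξ) ∈ V → ξ ≠ 0) ∧
    ∀ x ξ : E n, (x, ξ) ∈ V → ∀ r : ℝ, 0 < r → (x, r • ξ) ∈ V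

end Pool.Agent.Helper459.Schr
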