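import Mathlib
import Pool.Agent.Helper459.SK.Defs

set_option autoImplicit false

noncomputable section

open MeasureTheory Set Filter Topology
open scoped ContDiff ComplexConjugate

namespace Pool.Agent.Helper459.SK

namespace N_om_facts

theorem om_facts : ContDiff ℝ ∞ Om ∧ (∀ s, s ≤ 0 → Om s = 0) ∧ (∀ s, 0 < s → 0 < Om s) ∧
    (∀ s, 0 < s → Om s = Real.exp (-2 / s) / s ^ 4) ∧ (∀ s, s ≤ 1 / 4 → Om s < 1 / 8) := by
  have hneg : ∀ s, s ≤ 0 → Om s = 0 := by
    intro s hs
    rw [Om, T, expNegInvGlue.zero_of_nonpos hs]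
    ring
  have hform : ∀ s, 0 < s → Om s = Real.exp (-2 / s) / s ^ 4 := by
    intro s hs
    rw [Om, T, expNegInvGlue, if_neg (not_le.2 hs), ← Real.exp_nat_mul, inv_pow, div_eq_mul_inv,
      mul_comm]
    congr 2
    push_cast
    field_simp
  refine ⟨?_, hneg, ?_, hform, ?_⟩
  · have h1 : ContDiff ℝ ((⊤ : ℕ∞) : WithTop ℕ∞)
        (fun x : ℝ => (Polynomial.X ^ 4 : Polynomial ℝ).eval x⁻¹ * expNegInvGlue x) :=
      expNegInvGlue.contDiff_polynomial_eval_inv_mul _
    have h2 : ContDiff ℝ ((⊤ : ℕ∞) : WithTop ℕ∞) expNegInvGlue := expNegInvGlue.contDiff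
    have h3 := h1.mul h2
    have h4 : Om = fun x : ℝ => ((Polynomial.X ^ 4 : Polynomial ℝ).eval x⁻¹ * expNegInvGlue x) *
        expNegInvGlue x := by
      funext x
      rw [Om, T, Polynomial.eval_pow, Polynomial.eval_X]
      ring
    rw [h4]
    exact h3
  · intro s hs
    rw [Om, T]
    have := expNegInvGlue.pos_of_pos hs
    positivity
  · intro s hs
    rcases le_or_gt s 0 with h0 | h0
    · rw [hneg s h0]; norm_num
    · rw [hform s h0]
      obtain ⟨u, hu⟩ : ∃ u : ℝ, u = s⁻¹ := ⟨_, rfl⟩
      have hu4 : 4 ≤ u := by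
        rw [hu, le_inv_comm₀ (by norm_num) h0]
        norm_num at hs ⊢
        exact hs
      have e1 : Real.exp (-2 / s) = (Real.exp (2 * u))⁻¹ := by
        rw [← Real.exp_neg, hu]
        congr 1
        field_simp
      have e2 : s ^ 4 = (u ^ 4)⁻¹ := by
        rw [hu, inv_pow, inv_inv]
      rw [e1, e2]
      have h5 : Real.exp 2 > 7.29 := by
        have h6 := Real.exp_one_gt_d9
        have h7 : Real.exp 2 = Real.exp 1 * Real.exp 1 := by
          rw [← Real.exp_add]; norm_num
        rw [h7]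
        nlinarith
      have h8 : Real.exp (u / 2) = Real.exp 2 * Real.exp (u / 2 - 2) := by
        rw [← Real.exp_add]; congr 1; ring
      have h9 := Real.add_one_le_exp (u / 2 - 2)
      have h10 : 1.7 * u < Real.exp (u / 2) := by
        rw [h8]
        have : Real.exp 2 * (u / 2 - 1) ≤ Real.exp 2 * Real.exp (u / 2 - 2) := by
          apply mul_le_mul_of_nonneg_left _ (Real.exp_pos _).le
          linarith
        nlinarith
      have h11 : Real.exp (2 * u) = Real.exp (u / 2) ^ 4 := by
        rw [← Real.exp_nat_mul]; congr 1; push_cast; ring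
      have h12 : (1.7 * u) ^ 4 < Real.exp (u / 2) ^ 4 :=
        pow_lt_pow_left₀ h10 (by positivity) (by norm_num)
      have h13 : 8 * u ^ 4 < Real.exp (2 * u) := by
        rw [h11]
        have : 8 * u ^ 4 ≤ (1.7 * u) ^ 4 := by
          rw [mul_pow]
          apply mul_le_mul_of_nonneg_right _ (by positivity)
          norm_num
        linarith
      rw [div_inv_eq_mul, inv_mul_eq_div, div_lt_div_iff₀ (Real.exp_pos _) (by norm_num)]
      linarith

end N_om_facts

end Pool.Agent.Helper459.SK
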