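import Mathlib
import Pool.Agent.Helper459.SK.Defs
import Pool.Agent.Helper459.SK.L_om_facts

set_option autoImplicit false

noncomputable section

open MeasureTheory Set Filter Topology
open scoped ContDiff ComplexConjugate

namespace Pool.Agent.Helper459.SK
open N_om_facts

namespace N_w_facts


lemma sT0 {x : ℝ} (h : x ≤ 0) : Real.smoothTransition x = 0 := Real.smoothTransition.zero_of_nonpos h
lemma sT1 {x : ℝ} (h : 1 ≤ x) : Real.smoothTransition x = 1 := Real.smoothTransition.one_of_one_le h

lemma wN_zero {z : ℝ} (h : 2 ≤ z) : wN z = 0 := by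
  unfold wN; rw [sT0 (by linarith)]; ring

lemma wM_low {z : ℝ} (h : z ≤ 3 + 1 / 16) : wM z = Om (z - 3) := by
  unfold wM; rw [sT1 (by linarith)]; ring

lemma wM_high {z : ℝ} (h : 13 / 4 - 1 / 16 ≤ z) : wM z = Om (13 / 4 - z) := by
  unfold wM; rw [sT0 (by linarith)]; ring

lemma wR_low {z : ℝ} (h : z ≤ 17 / 4 + 1 / 16) : wR z = Om (z - 17 / 4) := by
  unfold wR; rw [sT1 (by linarith)]; ring

lemma wM_zero_low {z : ℝ} (h : z ≤ 3) : wM z = 0 := by
  rw [wM_low (by linarith)]; exact om_facts.2.1 _ (by linarith)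

lemma wM_zero_high {z : ℝ} (h : 13 / 4 ≤ z) : wM z = 0 := by
  rw [wM_high (by linarith)]; exact om_facts.2.1 _ (by linarith)

lemma wR_zero {z : ℝ} (h : z ≤ 17 / 4) : wR z = 0 := by
  rw [wR_low (by linarith)]; exact om_facts.2.1 _ (by linarith)

lemma conv_pos {a b t : ℝ} (ha : 0 < a) (hb : 0 < b) (h0 : 0 ≤ t) (h1 : t ≤ 1) :
    0 < a * t + b * (1 - t) := by
  rcases eq_or_lt_of_le h0 with h | h
  · rw [← h]; linarith
  · have h2 : 0 < a * t := mul_pos ha h
    have h3 : 0 ≤ b * (1 - t) := mul_nonneg hb.le (by linarith)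
    linarith

lemma conv_lt {a b c t : ℝ} (ha : a < c) (hb : b < c) (h0 : 0 ≤ t) (h1 : t ≤ 1) :
    a * t + b * (1 - t) < c := by
  have h := conv_pos (a := c - a) (b := c - b) (sub_pos.2 ha) (sub_pos.2 hb) h0 h1
  nlinarith

lemma wM_pos {z : ℝ} (h3 : 3 < z) (h4 : z < 13 / 4) : 0 < wM z := by
  unfold wM
  exact conv_pos (om_facts.2.2.1 _ (by linarith)) (om_facts.2.2.1 _ (by linarith))
    (Real.smoothTransition.nonneg _) (Real.smoothTransition.le_one _)

lemma wM_lt {z : ℝ} (h3 : 3 < z) (h4 : z < 13 / 4) : wM z < 1 / 8 := by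
  unfold wM
  exact conv_lt (om_facts.2.2.2.2 _ (by linarith)) (om_facts.2.2.2.2 _ (by linarith))
    (Real.smoothTransition.nonneg _) (Real.smoothTransition.le_one _)

lemma inv_small {z : ℝ} (h : 17 / 4 < z) : 0 < 1 / 8 - 1 / (2 * z) := by
  have : 1 / (2 * z) < 1 / 8 := by
    apply one_div_lt_one_div_of_lt <;> linarith
  linarith

lemma wR_pos {z : ℝ} (h3 : 17 / 4 < z) : 0 < wR z := by
  unfold wR
  exact conv_pos (om_facts.2.2.1 _ (by linarith)) (inv_small h3)
    (Real.smoothTransition.nonneg _) (Real.smoothTransition.le_one _)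

lemma wR_lt {z : ℝ} (h3 : 17 / 4 < z) : wR z < 1 / 8 := by
  have hz : 0 < 1 / (2 * z) := by positivity
  rcases le_or_gt z (9 / 2) with h | h
  · unfold wR
    exact conv_lt (om_facts.2.2.2.2 _ (by linarith)) (by linarith)
      (Real.smoothTransition.nonneg _) (Real.smoothTransition.le_one _)
  · unfold wR
    rw [sT0 (x := (9 / 2 - z) * (16 / 3)) (by nlinarith)]
    linarith

lemma smooth_w0 (z : ℝ) (hz : 0 < z) : ContDiffAt ℝ ∞ w0 z := by
  have hO : ContDiff ℝ ∞ Om := om_facts.1
  have hS : ContDiff ℝ ∞ Real.smoothTransition := Real.smoothTransition.contDiff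
  have hi : ContDiffAt ℝ ∞ (fun z : ℝ => 1 / (2 * z)) z := by
    apply ContDiffAt.div contDiffAt_const (contDiffAt_const.mul contDiffAt_id)
    simp; exact hz.ne'
  have h1 : ContDiffAt ℝ ∞ wN z := by
    unfold wN
    exact (hi.sub contDiffAt_const).mul
      ((hS.comp (contDiff_const.sub contDiff_id)).contDiffAt)
  have h2 : ContDiffAt ℝ ∞ wM z := by
    unfold wM
    have a1 : ContDiff ℝ ∞ (fun z : ℝ => Om (z - 3)) := hO.comp (contDiff_id.sub contDiff_const)
    have a2 : ContDiff ℝ ∞ (fun z : ℝ => Om (13 / 4 - z)) :=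
      hO.comp (contDiff_const.sub contDiff_id)
    have a3 : ContDiff ℝ ∞ (fun z : ℝ => Real.smoothTransition (8 * (51 / 16 - z))) :=
      hS.comp (contDiff_const.mul (contDiff_const.sub contDiff_id))
    exact ((a1.mul a3).add (a2.mul (contDiff_const.sub a3))).contDiffAt
  have h3 : ContDiffAt ℝ ∞ wR z := by
    unfold wR
    have a1 : ContDiff ℝ ∞ (fun z : ℝ => Om (z - 17 / 4)) :=
      hO.comp (contDiff_id.sub contDiff_const)
    have a3 : ContDiff ℝ ∞ (fun z : ℝ => Real.smoothTransition ((9 / 2 - z) * (16 / 3))) :=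
      hS.comp ((contDiff_const.sub contDiff_id).mul contDiff_const)
    exact (a1.mul a3).contDiffAt.add
      ((contDiffAt_const.sub hi).mul (contDiff_const.sub a3).contDiffAt)
  exact (h1.neg.add h2).add h3

theorem w_facts : WP w0 := by
  refine ⟨smooth_w0, ?_, ?_, ?_, ?_, ?_, ?_, ?_, ?_, ?_⟩
  · rintro z ⟨h2, h3⟩
    unfold w0
    rw [wN_zero h2, wM_zero_low h3, wR_zero (by linarith)]; ring
  · rintro z ⟨h2, h3⟩
    unfold w0
    rw [wN_zero (by linarith), wM_zero_high h2, wR_zero h3]; ring
  · rintro z ⟨h2, h3⟩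
    unfold w0
    rw [wM_zero_low (by linarith), wR_zero (by linarith)]
    have h4 : 0 < Real.smoothTransition (2 - z) := Real.smoothTransition.pos_of_pos (by linarith)
    have h5 : 1 / 4 < 1 / (2 * z) := by
      apply one_div_lt_one_div_of_lt <;> linarith
    have h6 : 0 < wN z := by
      unfold wN
      exact mul_pos (by linarith) h4
    linarith
  · rintro z ⟨h2, h3⟩
    unfold w0
    rw [wN_zero (by linarith), wR_zero (by linarith)]
    have := wM_pos h2 h3
    linarith
  · intro z h
    unfold w0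
    rw [wN_zero (by linarith), wM_zero_high (by linarith)]
    have := wR_pos h
    linarith
  · rintro s ⟨h0, h1⟩
    unfold el at h1
    unfold w0
    rw [wN_zero (by linarith), wM_low (by linarith), wR_zero (by linarith)]
    rw [show 3 + s - 3 = s by ring]; ring
  · rintro s ⟨h0, h1⟩
    unfold el at h1
    unfold w0
    rw [wN_zero (by linarith), wM_high (by linarith), wR_zero (by linarith)]
    rw [show 13 / 4 - (13 / 4 - s) = s by ring]; ring
  · rintro s ⟨h0, h1⟩
    unfold el at h1
    unfold w0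
    rw [wN_zero (by linarith), wM_zero_high (by linarith), wR_low (by linarith)]
    rw [show 17 / 4 + s - 17 / 4 = s by ring]; ring
  · intro z hz
    rcases lt_or_ge z 2 with h | h
    · unfold w0
      rw [wM_zero_low (by linarith), wR_zero (by linarith)]
      have h4 : 0 ≤ Real.smoothTransition (2 - z) := Real.smoothTransition.nonneg _
      have h5 : 1 / 4 < 1 / (2 * z) := by
        apply one_div_lt_one_div_of_lt <;> linarith
      have h6 : 0 ≤ wN z := by
        unfold wN
        exact mul_nonneg (by linarith) h4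
      linarith
    · rcases le_or_gt z 3 with h3 | h3
      · unfold w0
        rw [wN_zero h, wM_zero_low h3, wR_zero (by linarith)]; norm_num
      · rcases lt_or_ge z (13 / 4) with h4 | h4
        · unfold w0
          rw [wN_zero h, wR_zero (by linarith)]
          have := wM_lt h3 h4
          linarith
        · rcases le_or_gt z (17 / 4) with h5 | h5
          · unfold w0
            rw [wN_zero h, wM_zero_high h4, wR_zero h5]; norm_num
          · unfold w0
            rw [wN_zero h, wM_zero_high h4]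
            have := wR_lt h5
            linarith

end N_w_facts

end Pool.Agent.Helper459.SK
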