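import Mathlib
import Pool.Agent.Helper459.SK.Defs
import Pool.Agent.Helper459.SK.L_w_facts

set_option autoImplicit false

noncomputable section

open MeasureTheory Set Filter Topology
open scoped ContDiff ComplexConjugate

namespace Pool.Agent.Helper459.SK
open N_w_facts

namespace N_w_pos

theorem w_pos_Om {s : ℝ} (hs : s ≤ 0) : Om s = 0 := by
  have h : T s = 0 := expNegInvGlue.zero_of_nonpos hs
  unfold Om
  rw [h]
  ring

theorem w_pos_v0_small {z : ℝ} (hz1 : z ≤ 1) : v0 z = 1 / (2 * z) := by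
  have h1 : Real.smoothTransition (2 - z) = 1 :=
    Real.smoothTransition.one_of_one_le (by linarith)
  have h2 : Real.smoothTransition (8 * (51 / 16 - z)) = 1 :=
    Real.smoothTransition.one_of_one_le (by linarith)
  have h3 : Real.smoothTransition ((9 / 2 - z) * (16 / 3)) = 1 :=
    Real.smoothTransition.one_of_one_le (by linarith)
  unfold v0 w0 wN wM wR
  rw [h1, h2, h3, w_pos_Om (s := z - 3) (by linarith), w_pos_Om (s := z - 17 / 4) (by linarith)]
  ring

theorem w_pos_v0_large {z : ℝ} (hz1 : 9 / 2 ≤ z) : v0 z = 1 / (2 * z) := by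
  have h1 : Real.smoothTransition (2 - z) = 0 :=
    Real.smoothTransition.zero_of_nonpos (by linarith)
  have h2 : Real.smoothTransition (8 * (51 / 16 - z)) = 0 :=
    Real.smoothTransition.zero_of_nonpos (by linarith)
  have h3 : Real.smoothTransition ((9 / 2 - z) * (16 / 3)) = 0 :=
    Real.smoothTransition.zero_of_nonpos (by linarith)
  unfold v0 w0 wN wM wR
  rw [h1, h2, h3, w_pos_Om (s := 13 / 4 - z) (by linarith)]
  ring

theorem w_pos_S2_one {z : ℝ} (hz : z ∈ Icc (3 / 2 : ℝ) (9 / 2)) : S2 z = 1 := by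
  unfold S2
  rw [Real.smoothTransition.one_of_one_le (by linarith [hz.1]),
    Real.smoothTransition.one_of_one_le (by linarith [hz.2]), one_mul]

theorem w_pos_S2_small {z : ℝ} (hz : z ≤ 1) : S2 z = 0 := by
  unfold S2
  rw [Real.smoothTransition.zero_of_nonpos (by linarith), zero_mul]

theorem w_pos_S2_large {z : ℝ} (hz : 5 ≤ z) : S2 z = 0 := by
  unfold S2
  rw [Real.smoothTransition.zero_of_nonpos (x := 2 * (5 - z)) (by linarith), mul_zero]

theorem w_pos_S2_mem (z : ℝ) : 0 ≤ S2 z ∧ S2 z ≤ 1 := by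
  unfold S2
  have h1 := Real.smoothTransition.nonneg (2 * (z - 1))
  have h2 := Real.smoothTransition.nonneg (2 * (5 - z))
  have h3 := Real.smoothTransition.le_one (2 * (z - 1))
  have h4 := Real.smoothTransition.le_one (2 * (5 - z))
  exact ⟨mul_nonneg h1 h2, mul_le_one₀ h3 h2 h4⟩

theorem w_pos_S2_smooth : ContDiff ℝ ∞ S2 := by
  have hs : ContDiff ℝ ∞ Real.smoothTransition := Real.smoothTransition.contDiff
  unfold S2
  exact (hs.comp (contDiff_const.mul (contDiff_id.sub contDiff_const))).mul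
    (hs.comp (contDiff_const.mul (contDiff_const.sub contDiff_id)))

theorem w_pos_al_smooth : ContDiff ℝ ∞ al := by
  unfold al
  exact w_pos_S2_smooth.add ((contDiff_const.sub w_pos_S2_smooth).mul
    (contDiff_const.mul contDiff_id))

theorem w_pos_al_pos {z : ℝ} (hz : 0 < z) : 0 < al z := by
  obtain ⟨h0, h1⟩ := w_pos_S2_mem z
  unfold al
  rcases h0.eq_or_lt with h | h
  · rw [← h]; linarith
  · have : 0 ≤ (1 - S2 z) * (2 * z) := mul_nonneg (by linarith) (by linarith)
    linarith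

theorem w_pos_Dz {z : ℝ} (hz : 0 < z) (ha : al z = 2 * z) (hv : v0 z = 1 / (2 * z)) :
    Dz z = 0 := by
  unfold Dz
  rw [ha, hv]
  have : (2 * z - 4 * z ^ 2 * (1 / (2 * z))) = 0 := by
    field_simp
    ring
  rw [this, zero_div]

theorem w_pos : (∀ z, 0 < z → 0 < v0 z) ∧ (∀ z, 0 < z → z ≤ 1 → v0 z = 1 / (2 * z)) ∧
    (∀ z, 9 / 2 ≤ z → v0 z = 1 / (2 * z)) ∧ (∀ z ∈ Icc (3 / 2 : ℝ) (9 / 2), al z = 1) ∧
    (∀ z, 0 < z → z ≤ 1 → al z = 2 * z) ∧ (∀ z, 5 ≤ z → al z = 2 * z) ∧ (∀ z, 0 < z → 0 < al z) ∧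
    (∀ z, 0 < z → ContDiffAt ℝ ∞ v0 z) ∧ (∀ z, 0 < z → ContDiffAt ℝ ∞ al z) ∧
    (∀ z, 0 < z → z ≤ 1 → Dz z = 0) ∧ (∀ z, 5 ≤ z → Dz z = 0) := by
  have hsm : ∀ z, z ≤ 1 → al z = 2 * z := by
    intro z hz
    unfold al
    rw [w_pos_S2_small hz]; ring
  have hla : ∀ z, 5 ≤ z → al z = 2 * z := by
    intro z hz
    unfold al
    rw [w_pos_S2_large hz]; ring
  refine ⟨?_, ?_, ?_, ?_, ?_, ?_, ?_, ?_, ?_, ?_, ?_⟩
  · intro z hz
    have := w_facts.lt z hz
    unfold v0
    linarith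
  · intro z _ hz1
    exact w_pos_v0_small hz1
  · intro z hz
    exact w_pos_v0_large hz
  · intro z hz
    unfold al
    rw [w_pos_S2_one hz]; ring
  · intro z _ hz
    exact hsm z hz
  · exact hla
  · intro z hz
    exact w_pos_al_pos hz
  · intro z hz
    exact contDiffAt_const.sub (w_facts.smooth z hz)
  · intro z _
    exact w_pos_al_smooth.contDiffAt
  · intro z hz hz1
    exact w_pos_Dz hz (hsm z hz1) (w_pos_v0_small hz1)
  · intro z hz
    exact w_pos_Dz (by linarith) (hla z hz) (w_pos_v0_large (by linarith))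

end N_w_pos

end Pool.Agent.Helper459.SK
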