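import Mathlib
import Pool.Agent.Helper459.SK.Defs
import Pool.Agent.Helper459.SK.L_w_pos

set_option autoImplicit false

noncomputable section

open MeasureTheory Set Filter Topology
open scoped ContDiff ComplexConjugate

namespace Pool.Agent.Helper459.SK
open N_w_pos

namespace N_a0_formula

theorem a0_formula (x : E 2) (hx : x ≠ 0) (i j : Fin 2) :
    A0 x i j = (if i = j then 2 * (‖x‖ ^ 2 / 2) * v0 (‖x‖ ^ 2 / 2) else 0) + Dz (‖x‖ ^ 2 / 2) * x i * x j := by
  have hxn : 0 < ‖x‖ := norm_pos_iff.mpr hx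
  have hz : 0 < ‖x‖ ^ 2 / 2 := by positivity
  unfold A0
  by_cases hz1 : ‖x‖ ^ 2 / 2 < 1
  · rw [if_pos hz1]
    have hv := w_pos.2.1 (‖x‖ ^ 2 / 2) hz hz1.le
    have hD := w_pos.2.2.2.2.2.2.2.2.2.1 (‖x‖ ^ 2 / 2) hz hz1.le
    rw [hv, hD]
    by_cases hij : i = j
    · rw [if_pos hij, if_pos hij]
      field_simp
      ring
    · rw [if_neg hij, if_neg hij]
      ring
  · rw [if_neg hz1]

end N_a0_formula

end Pool.Agent.Helper459.SK
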