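import Mathlib
import Pool.Agent.Helper459.SK.Defs
import Pool.Agent.Helper459.SK.L_w_pos
import Pool.Agent.Helper459.SK.L_a0_formula

set_option autoImplicit false

noncomputable section

open MeasureTheory Set Filter Topology
open scoped ContDiff ComplexConjugate

namespace Pool.Agent.Helper459.SK
open N_w_pos
open N_a0_formula

namespace N_a0_smooth

theorem aux_at (z : ℝ) (hz : 0 < z) : ContDiffAt ℝ ∞ v0 z ∧ ContDiffAt ℝ ∞ Dz z := by
  obtain ⟨h1, h2, h3, h4, h5, h6, h7, h8, h9, h10, h11⟩ := w_pos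
  refine ⟨h8 z hz, ?_⟩
  unfold Dz
  have e1 : ContDiffAt ℝ ∞ (fun z : ℝ => 4 * z ^ 2) z := by fun_prop
  have hne : (4 * z ^ 2 : ℝ) ≠ 0 := by positivity
  exact ((h9 z hz).sub (e1.mul (h8 z hz))).div e1 hne

theorem a0_smooth : (∀ j l, ContDiff ℝ ∞ (fun x => A0 x j l)) ∧ (∀ x, (A0 x).IsSymm) ∧
    (∀ j l, HasCompactSupport (fun x => A0 x j l - if j = l then 1 else 0)) := by
  obtain ⟨h1, h2, h3, h4, h5, h6, h7, h8, h9, h10, h11⟩ := w_pos
  refine ⟨?_, ?_, ?_⟩
  · intro j l
    rw [contDiff_iff_contDiffAt]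
    intro x
    by_cases hx : x = 0
    · subst hx
      have h : (fun x : E 2 => A0 x j l) =ᶠ[𝓝 0] fun _ => (if j = l then (1 : ℝ) else 0) := by
        have hb : Metric.ball (0 : E 2) 1 ∈ 𝓝 (0 : E 2) := Metric.ball_mem_nhds _ one_pos
        filter_upwards [hb] with y hy
        rw [mem_ball_zero_iff] at hy
        have hlt : ‖y‖ ^ 2 / 2 < 1 := by nlinarith [norm_nonneg y]
        unfold A0
        rw [if_pos hlt]
      exact contDiffAt_const.congr_of_eventuallyEq h
    · have hz : 0 < ‖x‖ ^ 2 / 2 := by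
        have := norm_pos_iff.2 hx
        positivity
      obtain ⟨hv, hD⟩ := aux_at _ hz
      have hsq : ContDiffAt ℝ ∞ (fun y : E 2 => ‖y‖ ^ 2 / 2) x :=
        ((contDiff_norm_sq ℝ).div_const 2).contDiffAt
      have hv' : ContDiffAt ℝ ∞ (fun y : E 2 => v0 (‖y‖ ^ 2 / 2)) x :=
        ContDiffAt.comp x (g := v0) (f := fun y : E 2 => ‖y‖ ^ 2 / 2) hv hsq
      have hD' : ContDiffAt ℝ ∞ (fun y : E 2 => Dz (‖y‖ ^ 2 / 2)) x :=
        ContDiffAt.comp x (g := Dz) (f := fun y : E 2 => ‖y‖ ^ 2 / 2) hD hsq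
      have hj : ∀ k : Fin 2, ContDiffAt ℝ ∞ (fun y : E 2 => y k) x := by
        intro k
        exact (EuclideanSpace.proj (𝕜 := ℝ) k : E 2 →L[ℝ] ℝ).contDiff.contDiffAt
      have h : (fun x : E 2 => A0 x j l) =ᶠ[𝓝 x] fun y =>
          (if j = l then 2 * (‖y‖ ^ 2 / 2) * v0 (‖y‖ ^ 2 / 2) else 0) +
            Dz (‖y‖ ^ 2 / 2) * y j * y l := by
        have hb : {y : E 2 | y ≠ 0} ∈ 𝓝 x := isOpen_ne.mem_nhds hx
        filter_upwards [hb] with y hy
        exact a0_formula y hy j l
      refine ContDiffAt.congr_of_eventuallyEq ?_ h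
      refine ContDiffAt.add ?_ ((hD'.mul (hj j)).mul (hj l))
      by_cases hjl : j = l
      · simp only [if_pos hjl]
        exact (contDiffAt_const.mul hsq).mul hv'
      · simp only [if_neg hjl]
        exact contDiffAt_const
  · intro x
    apply Matrix.IsSymm.ext
    intro i j
    unfold A0
    by_cases h : ‖x‖ ^ 2 / 2 < 1
    · rw [if_pos h, if_pos h]
      by_cases hij : i = j
      · rw [if_pos hij, if_pos hij.symm]
      · rw [if_neg hij, if_neg (Ne.symm hij)]
    · rw [if_neg h, if_neg h]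
      by_cases hij : i = j
      · rw [if_pos hij, if_pos hij.symm, hij]
      · rw [if_neg hij, if_neg (Ne.symm hij)]
        ring
  · intro j l
    apply HasCompactSupport.of_support_subset_isCompact (isCompact_closedBall (0 : E 2) 4)
    intro x hx
    by_contra hcon
    rw [mem_closedBall_zero_iff, not_le] at hcon
    apply hx
    have hx0 : x ≠ 0 := by
      intro h
      rw [h, norm_zero] at hcon
      linarith
    have hz : 8 < ‖x‖ ^ 2 / 2 := by nlinarith
    show A0 x j l - (if j = l then 1 else 0) = 0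
    rw [a0_formula x hx0 j l, h11 _ (by linarith), h3 _ (by linarith)]
    by_cases hjl : j = l
    · rw [if_pos hjl, if_pos hjl]
      field_simp
      ring
    · rw [if_neg hjl, if_neg hjl]
      ring

end N_a0_smooth

end Pool.Agent.Helper459.SK
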