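import Mathlib
import Pool.Agent.Helper459.SK.Defs
import Pool.Agent.Helper459.SK.L_w_pos
import Pool.Agent.Helper459.SK.L_a0_formula
import Pool.Agent.Helper459.SK.L_a0_smooth

set_option autoImplicit false

noncomputable section

open MeasureTheory Set Filter Topology
open scoped ContDiff ComplexConjugate

namespace Pool.Agent.Helper459.SK
open N_w_pos
open N_a0_formula
open N_a0_smooth

namespace N_a0_pos

theorem mu_pos_aux : ∃ c : ℝ, 0 < c ∧ c ≤ 1 ∧ ∀ z : ℝ, 1 ≤ z →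
    c ≤ 2 * z * v0 z ∧ c ≤ al z / (2 * z) := by
  obtain ⟨h1, h2, h3, h4, h5, h6, h7, h8, h9, h10, h11⟩ := w_pos
  have hc : ContinuousOn (fun z : ℝ => min (2 * z * v0 z) (al z / (2 * z))) (Icc (1:ℝ) 5) := by
    intro z hz
    have hz0 : 0 < z := by linarith [hz.1]
    apply ContinuousAt.continuousWithinAt
    apply Filter.Tendsto.min
    · exact (continuousAt_const.mul continuousAt_id).mul (h8 z hz0).continuousAt
    · exact (h9 z hz0).continuousAt.div (continuousAt_const.mul continuousAt_id)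
        (mul_ne_zero two_ne_zero hz0.ne')
  obtain ⟨z0, hz0, hmin⟩ := isCompact_Icc.exists_isMinOn (nonempty_Icc.2 (by norm_num : (1:ℝ) ≤ 5)) hc
  have hz0p : 0 < z0 := by linarith [hz0.1]
  have hm0 : 0 < min (2 * z0 * v0 z0) (al z0 / (2 * z0)) :=
    lt_min (mul_pos (by linarith) (h1 z0 hz0p)) (div_pos (h7 z0 hz0p) (by linarith))
  refine ⟨min 1 (min (2 * z0 * v0 z0) (al z0 / (2 * z0))), lt_min one_pos hm0, min_le_left _ _, ?_⟩
  intro z hz
  have hzp : 0 < z := by linarith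
  rcases le_or_gt z 5 with h | h
  · have h12 : min (2 * z0 * v0 z0) (al z0 / (2 * z0)) ≤ min (2 * z * v0 z) (al z / (2 * z)) :=
      hmin ⟨hz, h⟩
    have h13 := (min_le_right (1:ℝ) (min (2 * z0 * v0 z0) (al z0 / (2 * z0)))).trans h12
    exact ⟨h13.trans (min_le_left _ _), h13.trans (min_le_right _ _)⟩
  · have e1 : 2 * z * v0 z = 1 := by
      rw [h3 z (by linarith)]
      field_simp
    have e2 : al z / (2 * z) = 1 := by
      rw [h6 z h.le]
      field_simp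
    rw [e1, e2]
    exact ⟨min_le_left _ _, min_le_left _ _⟩

theorem a0_pos : ∃ c : ℝ, 0 < c ∧ ∀ x ξ : E 2, c * ‖ξ‖ ^ 2 ≤ ∑ j, ∑ l, A0 x j l * ξ j * ξ l := by
  obtain ⟨c, hc0, hc1, hc⟩ := mu_pos_aux
  refine ⟨c, hc0, fun x ξ => ?_⟩
  have hξ : ‖ξ‖ ^ 2 = ξ 0 ^ 2 + ξ 1 ^ 2 := by
    rw [EuclideanSpace.real_norm_sq_eq, Fin.sum_univ_two]
  have hx : ‖x‖ ^ 2 = x 0 ^ 2 + x 1 ^ 2 := by
    rw [EuclideanSpace.real_norm_sq_eq, Fin.sum_univ_two]
  by_cases h : ‖x‖ ^ 2 / 2 < 1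
  · have e : ∑ j, ∑ l, A0 x j l * ξ j * ξ l = ξ 0 ^ 2 + ξ 1 ^ 2 := by
      simp only [Fin.sum_univ_two, A0, if_pos h]
      simp
      ring
    rw [e, hξ]
    have : 0 ≤ ξ 0 ^ 2 + ξ 1 ^ 2 := by positivity
    nlinarith
  · have hz1 : 1 ≤ ‖x‖ ^ 2 / 2 := not_lt.1 h
    obtain ⟨g1, g2⟩ := hc _ hz1
    have e : ∑ j, ∑ l, A0 x j l * ξ j * ξ l =
        2 * (‖x‖ ^ 2 / 2) * v0 (‖x‖ ^ 2 / 2) * (ξ 0 ^ 2 + ξ 1 ^ 2) +
          Dz (‖x‖ ^ 2 / 2) * (x 0 * ξ 0 + x 1 * ξ 1) ^ 2 := by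
      simp only [Fin.sum_univ_two, A0, if_neg h]
      simp
      ring
    rw [e, hξ]
    have hzx : 2 * (‖x‖ ^ 2 / 2) = x 0 ^ 2 + x 1 ^ 2 := by rw [hx]; ring
    unfold Dz
    generalize ‖x‖ ^ 2 / 2 = z at *
    have hzp : 0 < z := by linarith
    generalize v0 z = V at *
    generalize al z = B at *
    generalize x 0 = p at *
    generalize x 1 = q at *
    generalize ξ 0 = a at *
    generalize ξ 1 = b at *
    have k1 : c / (2 * z) ≤ V := by
      rw [div_le_iff₀ (by linarith)]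
      linarith
    have k2 : c / (2 * z) ≤ B / (4 * z ^ 2) := by
      rw [le_div_iff₀ (by linarith)] at g2
      rw [div_le_div_iff₀ (by linarith) (by positivity)]
      nlinarith
    have k3 : 2 * z * V * (a ^ 2 + b ^ 2) + (B - 4 * z ^ 2 * V) / (4 * z ^ 2) * (p * a + q * b) ^ 2 =
        V * (p * b - q * a) ^ 2 + B / (4 * z ^ 2) * (p * a + q * b) ^ 2 := by
      have : (B - 4 * z ^ 2 * V) / (4 * z ^ 2) = B / (4 * z ^ 2) - V := by
        field_simp
      rw [this, hzx]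
      ring
    rw [k3]
    have k4 : c / (2 * z) * (p * b - q * a) ^ 2 ≤ V * (p * b - q * a) ^ 2 :=
      mul_le_mul_of_nonneg_right k1 (sq_nonneg _)
    have k5 : c / (2 * z) * (p * a + q * b) ^ 2 ≤ B / (4 * z ^ 2) * (p * a + q * b) ^ 2 :=
      mul_le_mul_of_nonneg_right k2 (sq_nonneg _)
    have k6 : c * (a ^ 2 + b ^ 2) = c / (2 * z) * (p * b - q * a) ^ 2 +
        c / (2 * z) * (p * a + q * b) ^ 2 := by
      have : c / (2 * z) * (p * b - q * a) ^ 2 + c / (2 * z) * (p * a + q * b) ^ 2 =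
          c / (2 * z) * ((p ^ 2 + q ^ 2) * (a ^ 2 + b ^ 2)) := by ring
      rw [this, ← hzx]
      field_simp
    rw [k6]
    linarith

end N_a0_pos

end Pool.Agent.Helper459.SK
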