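import Mathlib
import Pool.Agent.Helper459.SK.Defs
import Pool.Agent.Helper459.SK.L_om_facts

set_option autoImplicit false

noncomputable section

open MeasureTheory Set Filter Topology
open scoped ContDiff ComplexConjugate

namespace Pool.Agent.Helper459.SK
open N_om_facts

namespace N_ep_ode

theorem T_pos_eq (y : ℝ) (hy : 0 < y) : T y = Real.exp (-y⁻¹) := by
  unfold T expNegInvGlue
  rw [if_neg (not_le.2 hy)]

theorem T_deriv (s : ℝ) (hs : 0 < s) : HasDerivAt T (T s / s ^ 2) s := by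
  have h1 : HasDerivAt (fun y : ℝ => Real.exp (-y⁻¹)) (Real.exp (-s⁻¹) * (-(-(s ^ 2)⁻¹))) s :=
    ((hasDerivAt_inv hs.ne').neg).exp
  have h2 : T =ᶠ[𝓝 s] fun y : ℝ => Real.exp (-y⁻¹) := by
    filter_upwards [isOpen_Ioi.mem_nhds hs] with y hy
    exact T_pos_eq y hy
  refine (h1.congr_of_eventuallyEq h2).congr_deriv ?_
  rw [T_pos_eq s hs]
  ring

theorem amp_deriv (c s : ℝ) (hs : 0 < s) :
    HasDerivAt (fun y : ℝ => y * Real.exp (1 / (2 * y)) / c)
      (s * Real.exp (1 / (2 * s)) / c * (1 / s - 1 / (2 * s ^ 2))) s := by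
  have h1 : HasDerivAt (fun y : ℝ => 1 / (2 * y)) (-(1 / (2 * s ^ 2))) s := by
    have := ((hasDerivAt_inv hs.ne').const_mul (1 / 2 : ℝ))
    have e : (fun y : ℝ => 1 / (2 * y)) = fun y : ℝ => (1 / 2 : ℝ) * y⁻¹ := by
      funext y
      rw [one_div, mul_inv]
      ring
    rw [e]
    refine this.congr_deriv ?_
    field_simp
  refine (((hasDerivAt_id s).mul h1.exp).div_const c).congr_deriv ?_
  have : s * (1 / s) = 1 := by field_simp
  simp only [id]
  by_cases hc : c = 0
  · simp [hc]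
  field_simp
  ring

theorem EP_deriv (m : ℕ) (s : ℝ) (hs : 0 < s) : HasDerivAt (EP m) (EP1 m s) s := by
  have h1 := (amp_deriv (Real.sqrt m) s hs).ofReal_comp
  have h2 : HasDerivAt (fun y : ℝ => Complex.I * ((m * T y : ℝ) : ℂ))
      (Complex.I * ((m * (T s / s ^ 2) : ℝ) : ℂ)) s :=
    (((T_deriv s hs).const_mul (m : ℝ)).ofReal_comp).const_mul Complex.I
  have h3 := h1.mul h2.cexp
  have h4 : HasDerivAt (EP m) _ s := h3
  refine h4.congr_deriv ?_
  unfold EP1 EP
  push_cast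
  ring

theorem ep_ode (m : ℕ) (hm : 1 ≤ m) (s : ℝ) (hs : 0 < s) :
    HasDerivAt (EP m) (EP1 m s) s ∧
    HasDerivAt (EP1 m) ((((1 / (4 * s ^ 4) : ℝ) : ℂ) - (m : ℂ) ^ 2 * (Om s : ℂ)) * EP m s) s ∧
    EP m s * conj (EP1 m s) - EP1 m s * conj (EP m s) = -2 * Complex.I := by
  have hsC : (s : ℂ) ≠ 0 := by exact_mod_cast hs.ne'
  refine ⟨EP_deriv m s hs, ?_, ?_⟩
  · have h1 : HasDerivAt (fun y : ℝ => 1 / y - 1 / (2 * y ^ 2)) (-(1 / s ^ 2) + 1 / s ^ 3) s := by
      have a1 := hasDerivAt_inv hs.ne'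
      have a2 := ((a1.pow 2).const_mul (1 / 2 : ℝ))
      have a3 := a1.sub a2
      have e : (fun y : ℝ => 1 / y - 1 / (2 * y ^ 2)) =
          fun y : ℝ => y⁻¹ - (1 / 2 : ℝ) * (y⁻¹) ^ 2 := by
        funext y
        rw [one_div, one_div, mul_inv, inv_pow]
        ring
      rw [e]
      refine a3.congr_deriv ?_
      norm_num
      field_simp
      try ring
    have h2 : HasDerivAt (fun y : ℝ => m * T y / y ^ 2) (m * T s / s ^ 4 - 2 * m * T s / s ^ 3) s := by
      have a1 := hasDerivAt_inv hs.ne'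
      have a2 := ((T_deriv s hs).const_mul (m : ℝ)).mul (a1.pow 2)
      have e : (fun y : ℝ => m * T y / y ^ 2) = fun y : ℝ => (m * T y) * (y⁻¹) ^ 2 := by
        funext y
        rw [inv_pow, div_eq_mul_inv]
      rw [e]
      refine a2.congr_deriv ?_
      norm_num
      field_simp
      try ring
    have h3 := (EP_deriv m s hs).mul (h1.ofReal_comp.add (h2.ofReal_comp.const_mul Complex.I))
    have h4 : HasDerivAt (EP1 m) _ s := h3
    refine h4.congr_deriv ?_
    have hI : Complex.I ^ 2 = -1 := Complex.I_sq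
    simp only [Pi.add_apply]
    unfold EP1 Om
    push_cast
    linear_combination ((m : ℂ) ^ 2 * (T s : ℂ) ^ 2 * ((s : ℂ)⁻¹) ^ 4 * EP m s) * hI
  · have h1 : EP m s * conj (EP m s) = ((s ^ 2 * Real.exp (1 / s) / m : ℝ) : ℂ) := by
      rw [Complex.mul_conj, Complex.normSq_eq_norm_sq]
      congr 1
      unfold EP
      rw [norm_mul, mul_comm Complex.I, Complex.norm_exp_ofReal_mul_I, mul_one, Complex.norm_real,
        Real.norm_eq_abs, sq_abs, div_pow, mul_pow, Real.sq_sqrt (Nat.cast_nonneg m),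
        ← Real.exp_nat_mul]
      congr 3
      push_cast
      field_simp
    have h2 : EP m s * conj (EP1 m s) - EP1 m s * conj (EP m s) =
        (EP m s * conj (EP m s)) * (-2 * Complex.I * ((m * T s / s ^ 2 : ℝ) : ℂ)) := by
      unfold EP1
      rw [map_mul, map_add, map_mul, Complex.conj_ofReal, Complex.conj_ofReal, Complex.conj_I]
      ring
    rw [h2, h1]
    have h3 : (s ^ 2 * Real.exp (1 / s) / m) * (m * T s / s ^ 2) = 1 := by
      have hm0 : (m : ℝ) ≠ 0 := by
        have : (0:ℝ) < m := by exact_mod_cast hm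
        exact this.ne'
      rw [T_pos_eq s hs]
      have h5 : Real.exp (1 / s) * Real.exp (-s⁻¹) = 1 := by
        rw [← Real.exp_add, one_div, add_neg_cancel, Real.exp_zero]
      calc (s ^ 2 * Real.exp (1 / s) / m) * (m * Real.exp (-s⁻¹) / s ^ 2)
          = (Real.exp (1 / s) * Real.exp (-s⁻¹)) * ((m / m) * (s ^ 2 / s ^ 2)) := by ring
        _ = 1 := by
          rw [h5, div_self hm0, div_self (pow_ne_zero 2 hs.ne'), one_mul, one_mul]
    have h4 : ((s ^ 2 * Real.exp (1 / s) / m : ℝ) : ℂ) * (-2 * Complex.I * ((m * T s / s ^ 2 : ℝ) : ℂ))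
        = -2 * Complex.I * (((s ^ 2 * Real.exp (1 / s) / m) * (m * T s / s ^ 2) : ℝ) : ℂ) := by
      push_cast
      ring
    rw [h4, h3]
    simp

end N_ep_ode

end Pool.Agent.Helper459.SK
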