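import Mathlib
import Pool.Agent.Helper459.SK.Defs
import Pool.Agent.Helper459.SK.L_ep_ode

set_option autoImplicit false

noncomputable section

open MeasureTheory Set Filter Topology
open scoped ContDiff ComplexConjugate

namespace Pool.Agent.Helper459.SK
open N_ep_ode

namespace N_ab_deriv

theorem ab_deriv (m : ℕ) (hm : 1 ≤ m) (G G1 K : ℝ → ℂ) (h : EdgeODE m G G1 K) (s : ℝ) (hs : 0 < s) (hs' : s ≤ el) :
    HasDerivAt (fun s => cA m s (G s) (G1 s))
      ((Complex.I / 2) * conj (EP m s) * (G s * ((1 / (4 * s ^ 4) : ℝ) : ℂ) + 2 * K s)) s ∧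
    HasDerivAt (fun s => cB m s (G s) (G1 s))
      (-(Complex.I / 2) * EP m s * (G s * ((1 / (4 * s ^ 4) : ℝ) : ℂ) + 2 * K s)) s := by
  obtain ⟨e0, e1, -⟩ := ep_ode m hm s hs
  have d0 := h.d0 s ⟨hs.le, hs'⟩
  have d1 := h.d1 s ⟨hs.le, hs'⟩
  have c0 : HasDerivAt (fun s => conj (EP m s)) (conj (EP1 m s)) s := e0.star
  have c1 : HasDerivAt (fun s => conj (EP1 m s))
      (conj ((((1 / (4 * s ^ 4) : ℝ) : ℂ) - (m : ℂ) ^ 2 * (Om s : ℂ)) * EP m s)) s := e1.star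
  have e2 : conj ((((1 / (4 * s ^ 4) : ℝ) : ℂ) - (m : ℂ) ^ 2 * (Om s : ℂ)) * EP m s) =
      (((1 / (4 * s ^ 4) : ℝ) : ℂ) - (m : ℂ) ^ 2 * (Om s : ℂ)) * conj (EP m s) := by
    rw [map_mul, map_sub, map_mul, map_pow, Complex.conj_ofReal, Complex.conj_ofReal,
      Complex.conj_natCast]
  rw [e2] at c1
  constructor
  · have h1 := ((d0.mul c1).sub (d1.mul c0)).const_mul (Complex.I / 2)
    refine h1.congr_deriv ?_
    ring
  · have h1 := ((d0.mul e1).sub (d1.mul e0)).const_mul (-(Complex.I / 2))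
    refine h1.congr_deriv ?_
    ring

end N_ab_deriv

end Pool.Agent.Helper459.SK
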