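import Mathlib
import Pool.Agent.Helper459.SK.Defs
import Pool.Agent.Helper459.SK.L_ep_ode

set_option autoImplicit false

noncomputable section

open MeasureTheory Set Filter Topology
open scoped ContDiff ComplexConjugate

namespace Pool.Agent.Helper459.SK
open N_ep_ode

namespace N_ep_alg

theorem ep_alg (m : ℕ) (hm : 1 ≤ m) (s : ℝ) (hs : 0 < s) (g g1 : ℂ) (p p1 : ℝ) :
    g = cA m s g g1 * EP m s + cB m s g g1 * conj (EP m s) ∧
    g1 = cA m s g g1 * EP1 m s + cB m s g g1 * conj (EP1 m s) ∧
    g * p1 - g1 * p = -2 * Complex.I * cA m s g g1 * conj (cA m s p p1)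
      + 2 * Complex.I * cB m s g g1 * cA m s p p1 ∧
    (conj g * g1).im = ‖cA m s g g1‖ ^ 2 - ‖cB m s g g1‖ ^ 2 := by
  have hW := (ep_ode m hm s hs).2.2
  unfold cA cB
  generalize EP m s = E at hW ⊢
  generalize EP1 m s = E1 at hW ⊢
  have hI : Complex.I * Complex.I = -1 := Complex.I_mul_I
  refine ⟨?_, ?_, ?_, ?_⟩
  · linear_combination (-(Complex.I / 2) * g) * hW + g * hI
  · linear_combination (-(Complex.I / 2) * g1) * hW + g1 * hI
  · simp only [map_mul, map_sub, map_div₀, Complex.conj_I, Complex.conj_conj, Complex.conj_ofReal,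
      map_ofNat]
    linear_combination (-(Complex.I / 2) * (g * p1 - g1 * p)) * hW + (g * p1 - g1 * p) * hI -
      (Complex.I / 2 * ((g * conj E1 - g1 * conj E) * (p * E1 - p1 * E) -
        (g * E1 - g1 * E) * (p * conj E1 - p1 * conj E))) * hI
  · have h1 : (((conj g * g1).im : ℝ) : ℂ) =
        -(Complex.I / 2) * (conj g * g1 - conj (conj g * g1)) := by
      rw [Complex.sub_conj]
      push_cast
      linear_combination (((conj g * g1).im : ℂ)) * hI
    have h2 : ∀ z : ℂ, ((‖z‖ ^ 2 : ℝ) : ℂ) = z * conj z := by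
      intro z
      rw [Complex.mul_conj']
      push_cast
      rfl
    have h3 : (((conj g * g1).im : ℝ) : ℂ) =
        ((‖Complex.I / 2 * (g * conj E1 - g1 * conj E)‖ ^ 2 -
          ‖-(Complex.I / 2) * (g * E1 - g1 * E)‖ ^ 2 : ℝ) : ℂ) := by
      rw [Complex.ofReal_sub, h2, h2, h1]
      simp only [map_mul, map_sub, map_div₀, map_neg, Complex.conj_I, Complex.conj_conj, map_ofNat]
      linear_combination (-(1 / 4) * (g1 * conj g - g * conj g1)) * hW +
        (1 / 4 * ((g * conj E1 - g1 * conj E) * (conj g * E1 - conj g1 * E) -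
          (g * E1 - g1 * E) * (conj g * conj E1 - conj g1 * conj E))) * hI
    exact_mod_cast h3

end N_ep_alg

end Pool.Agent.Helper459.SK
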