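import Mathlib
import Pool.Agent.Helper459.SK.Defs
import Pool.Agent.Helper459.SK.L_ab_deriv
import Pool.Agent.Helper459.SK.L_ep_alg

set_option autoImplicit false

noncomputable section

open MeasureTheory Set Filter Topology
open scoped ContDiff ComplexConjugate

namespace Pool.Agent.Helper459.SK
open N_ab_deriv
open N_ep_alg

namespace N_ab_sup

lemma EP_norm_le (m : ℕ) (hm : 1 ≤ m) (s : ℝ) (hs : s ∈ Icc (el / 2) el) :
    ‖EP m s‖ ≤ (1 / 16 * Real.exp 16) / Real.sqrt m := by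
  have h1 : (1 / 32 : ℝ) ≤ s := by have := hs.1; simp only [el] at this; linarith
  have h2 : s ≤ 1 / 16 := by have := hs.2; simp only [el] at this; linarith
  have hm0 : 0 < Real.sqrt m := Real.sqrt_pos.mpr (by exact_mod_cast hm)
  have hn : ‖Complex.exp (Complex.I * ((m * T s : ℝ) : ℂ))‖ = 1 := by
    rw [mul_comm]; exact Complex.norm_exp_ofReal_mul_I _
  rw [EP, norm_mul, hn, mul_one, Complex.norm_real, Real.norm_eq_abs,
    abs_of_nonneg (by positivity)]
  have h3 : 1 / (2 * s) ≤ 16 := by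
    rw [div_le_iff₀ (by linarith)]; linarith
  have h4 : Real.exp (1 / (2 * s)) ≤ Real.exp 16 := Real.exp_le_exp.mpr h3
  have h5 : 0 < Real.exp (1 / (2 * s)) := Real.exp_pos _
  refine div_le_div_of_nonneg_right ?_ hm0.le
  exact mul_le_mul h2 h4 h5.le (by norm_num)

lemma conj_norm' (z : ℂ) : ‖conj z‖ = ‖z‖ := Complex.norm_conj z

set_option maxHeartbeats 4000000 in
theorem ab_sup : ∃ C' : ℝ, 0 < C' ∧ ∀ m : ℕ, 1 ≤ m → ∀ G G1 K : ℝ → ℂ, EdgeODE m G G1 K →
    ∀ s ∈ Icc (el / 2) el,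
      ‖cA m s (G s) (G1 s)‖ + ‖cB m s (G s) (G1 s)‖ ≤
        C' * (‖cA m el (G el) (G1 el)‖ + ‖cB m el (G el) (G1 el)‖
          + Real.sqrt (∫ s in (0 : ℝ)..el, ‖K s‖ ^ 2) / Real.sqrt m) := by
  obtain ⟨E, hE⟩ : ∃ E : ℝ, E = 1 / 16 * Real.exp 16 := ⟨_, rfl⟩
  have hE0 : 0 < E := by rw [hE]; positivity
  obtain ⟨C1, hC1⟩ : ∃ C1 : ℝ, C1 = 131072 * E ^ 2 := ⟨_, rfl⟩
  have hC10 : 0 < C1 := by rw [hC1]; positivity
  obtain ⟨L, hL⟩ : ∃ L : ℝ, L = 2 * (2 * C1 + 1) := ⟨_, rfl⟩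
  have hL0 : 0 < L := by rw [hL]; positivity
  refine ⟨Real.sqrt (2 * Real.exp (L * el)) * (1 + E), by positivity, ?_⟩
  intro m hm G G1 K h s hs
  have hel : (0 : ℝ) < el := by norm_num [el]
  have hm1 : (1 : ℝ) ≤ m := by exact_mod_cast hm
  have hsm : 0 < Real.sqrt m := Real.sqrt_pos.mpr (by linarith)
  have hsm1 : 1 ≤ Real.sqrt m := Real.one_le_sqrt.mpr hm1
  have hsq : Real.sqrt m ^ 2 = m := Real.sq_sqrt (by linarith)
  -- abbreviations
  set a : ℝ → ℂ := fun s => cA m s (G s) (G1 s) with ha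
  set b : ℝ → ℂ := fun s => cB m s (G s) (G1 s) with hb
  set Q : ℝ → ℝ := fun s => ‖a s‖ ^ 2 + ‖b s‖ ^ 2 with hQ
  set F : ℝ → ℝ := fun s => ∫ t in (0 : ℝ)..s, ‖K t‖ ^ 2 with hF
  have hKc : ContinuousOn (fun t => ‖K t‖ ^ 2) (Icc (0 : ℝ) el) := (h.kc.norm).pow 2
  have hKi : IntervalIntegrable (fun t => ‖K t‖ ^ 2) volume 0 el :=
    ContinuousOn.intervalIntegrable (by rwa [uIcc_of_le hel.le])
  -- derivative bounds
  have key : ∀ t ∈ Icc (el / 2) el, ∃ q : ℝ, HasDerivAt Q q t ∧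
      -(L * Q t) - E ^ 2 / m * ‖K t‖ ^ 2 ≤ q := by
    intro t ht
    have ht0 : 0 < t := by have := ht.1; linarith
    obtain ⟨hda, hdb⟩ := ab_deriv m hm G G1 K h t ht0 ht.2
    have hG := (ep_alg m hm t ht0 (G t) (G1 t) 0 0).1
    have hqa := hda.norm_sq
    have hqb := hdb.norm_sq
    refine ⟨_, hqa.add hqb, ?_⟩
    obtain ⟨e, he⟩ : ∃ e : ℝ, e = ‖EP m t‖ := ⟨_, rfl⟩
    have he0 : 0 ≤ e := by rw [he]; positivity
    have heE : e ≤ E / Real.sqrt m := by rw [he, hE]; exact EP_norm_le m hm t ht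
    obtain ⟨N, hN⟩ : ∃ N : ℝ, N = ‖a t‖ + ‖b t‖ := ⟨_, rfl⟩
    have hN0 : 0 ≤ N := by rw [hN]; positivity
    have hGn : ‖G t‖ ≤ e * N := by
      rw [hG]
      refine (norm_add_le _ _).trans ?_
      rw [norm_mul, norm_mul, conj_norm', ← he, hN]
      apply le_of_eq; ring
    have hs4 : ‖((1 / (4 * t ^ 4) : ℝ) : ℂ)‖ ≤ 262144 := by
      rw [Complex.norm_real, Real.norm_eq_abs, abs_of_nonneg (by positivity)]
      have h1 : (1 / 32 : ℝ) ≤ t := by have := ht.1; simp only [el] at this; linarith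
      have h2 : (1 / 32 : ℝ) ^ 4 ≤ t ^ 4 := pow_le_pow_left₀ (by norm_num) h1 4
      rw [div_le_iff₀ (by positivity)]
      nlinarith
    have hin : ‖G t * ((1 / (4 * t ^ 4) : ℝ) : ℂ) + 2 * K t‖ ≤ 262144 * (e * N) + 2 * ‖K t‖ := by
      refine (norm_add_le _ _).trans ?_
      rw [norm_mul, norm_mul]
      have : ‖(2 : ℂ)‖ = 2 := by simp
      rw [this]
      have h1 : ‖G t‖ * ‖((1 / (4 * t ^ 4) : ℝ) : ℂ)‖ ≤ (e * N) * 262144 :=
        mul_le_mul hGn hs4 (norm_nonneg _) (by positivity)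
      linarith
    obtain ⟨k, hk⟩ : ∃ k : ℝ, k = E / Real.sqrt m * ‖K t‖ := ⟨_, rfl⟩
    have hk0 : 0 ≤ k := by rw [hk]; positivity
    have hhalf : ‖(Complex.I / 2 : ℂ)‖ = 1 / 2 := by simp
    have hD : 1 / 2 * e * (262144 * (e * N) + 2 * ‖K t‖) ≤ C1 * N + k := by
      have h1 : e ^ 2 ≤ E ^ 2 := by
        have : e ≤ E := heE.trans (div_le_self hE0.le hsm1)
        exact pow_le_pow_left₀ he0 this 2
      have h2 : e * ‖K t‖ ≤ k := by
        rw [hk]; exact mul_le_mul_of_nonneg_right heE (norm_nonneg _)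
      have h3 : e ^ 2 * N ≤ E ^ 2 * N := mul_le_mul_of_nonneg_right h1 hN0
      rw [hC1]; nlinarith
    have hda' : ‖(Complex.I / 2) * conj (EP m t) * (G t * ((1 / (4 * t ^ 4) : ℝ) : ℂ) + 2 * K t)‖
        ≤ C1 * N + k := by
      rw [norm_mul, norm_mul, hhalf, conj_norm', ← he]
      exact (mul_le_mul_of_nonneg_left hin (by positivity)).trans hD
    have hdb' : ‖-(Complex.I / 2) * EP m t * (G t * ((1 / (4 * t ^ 4) : ℝ) : ℂ) + 2 * K t)‖
        ≤ C1 * N + k := by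
      rw [norm_mul, norm_mul, norm_neg, hhalf, ← he]
      exact (mul_le_mul_of_nonneg_left hin (by positivity)).trans hD
    have i1 : -(‖a t‖ * (C1 * N + k)) ≤ inner ℝ (a t)
        ((Complex.I / 2) * conj (EP m t) * (G t * ((1 / (4 * t ^ 4) : ℝ) : ℂ) + 2 * K t)) := by
      have h1 := (abs_le.mp (abs_real_inner_le_norm (a t)
        ((Complex.I / 2) * conj (EP m t) * (G t * ((1 / (4 * t ^ 4) : ℝ) : ℂ) + 2 * K t)))).1
      have h2 := mul_le_mul_of_nonneg_left hda' (norm_nonneg (a t))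
      linarith
    have i2 : -(‖b t‖ * (C1 * N + k)) ≤ inner ℝ (b t)
        (-(Complex.I / 2) * EP m t * (G t * ((1 / (4 * t ^ 4) : ℝ) : ℂ) + 2 * K t)) := by
      have h1 := (abs_le.mp (abs_real_inner_le_norm (b t)
        (-(Complex.I / 2) * EP m t * (G t * ((1 / (4 * t ^ 4) : ℝ) : ℂ) + 2 * K t)))).1
      have h2 := mul_le_mul_of_nonneg_left hdb' (norm_nonneg (b t))
      linarith
    have hk2 : k ^ 2 = E ^ 2 / m * ‖K t‖ ^ 2 := by
      rw [hk, mul_pow, div_pow, hsq]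
    have hNQ : N ^ 2 ≤ 2 * Q t := by
      rw [hN, hQ]; nlinarith [sq_nonneg (‖a t‖ - ‖b t‖)]
    have hfin : 2 * (N * (C1 * N + k)) ≤ L * Q t + k ^ 2 := by
      have h1 : 2 * (N * k) ≤ N ^ 2 + k ^ 2 := by nlinarith [sq_nonneg (N - k)]
      have h2 : (2 * C1 + 1) * N ^ 2 ≤ (2 * C1 + 1) * (2 * Q t) :=
        mul_le_mul_of_nonneg_left hNQ (by positivity)
      calc 2 * (N * (C1 * N + k)) = 2 * C1 * N ^ 2 + 2 * (N * k) := by ring
        _ ≤ 2 * C1 * N ^ 2 + (N ^ 2 + k ^ 2) := by linarith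
        _ = (2 * C1 + 1) * N ^ 2 + k ^ 2 := by ring
        _ ≤ (2 * C1 + 1) * (2 * Q t) + k ^ 2 := by linarith
        _ = L * Q t + k ^ 2 := by rw [hL]; ring
    rw [← hk2]
    have hNs : N * (C1 * N + k) = ‖a t‖ * (C1 * N + k) + ‖b t‖ * (C1 * N + k) := by
      rw [hN]; ring
    linarith
  -- the monotone function
  set Φ : ℝ → ℝ := fun t => Real.exp (L * t) * Q t + Real.exp (L * el) * (E ^ 2 / m) * F t with hΦ
  have hQd : ∀ t ∈ Icc (el / 2) el, DifferentiableAt ℝ Q t := fun t ht => by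
    obtain ⟨q, hq, _⟩ := key t ht
    exact hq.differentiableAt
  have hFd : ∀ t ∈ Ioo (el / 2) el, HasDerivAt F (‖K t‖ ^ 2) t := by
    intro t ht
    have htm : Icc (0 : ℝ) el ∈ 𝓝 t := Icc_mem_nhds (by have := ht.1; linarith) ht.2
    have hca : ContinuousAt (fun t => ‖K t‖ ^ 2) t := hKc.continuousAt htm
    have hint : IntervalIntegrable (fun t => ‖K t‖ ^ 2) volume 0 t := by
      refine hKi.mono_set ?_
      rw [uIcc_of_le hel.le, uIcc_of_le (by have := ht.1; linarith)]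
      exact Icc_subset_Icc le_rfl ht.2.le
    exact intervalIntegral.integral_hasDerivAt_right hint
      (hKc.stronglyMeasurableAtFilter_nhdsWithin measurableSet_Icc t |>.filter_mono
        (by rw [nhdsWithin_eq_nhds.mpr htm])) hca
  have hFc : ContinuousOn F (Icc (el / 2) el) := by
    have h1 : ContinuousOn F (uIcc 0 el) :=
      intervalIntegral.continuousOn_primitive_interval (by
        rw [uIcc_of_le hel.le]; exact hKc.integrableOn_Icc)
    rw [uIcc_of_le hel.le] at h1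
    exact h1.mono (Icc_subset_Icc (by linarith) le_rfl)
  have hmono : MonotoneOn Φ (Icc (el / 2) el) := by
    refine monotoneOn_of_deriv_nonneg (convex_Icc _ _) ?_ ?_ ?_
    · refine ContinuousOn.add ?_ (hFc.const_smul (Real.exp (L * el) * (E ^ 2 / m)))
      refine ContinuousOn.mul (by fun_prop) ?_
      exact fun t ht => (hQd t ht).continuousAt.continuousWithinAt
    · rw [interior_Icc]
      intro t ht
      have h1 := hQd t (Ioo_subset_Icc_self ht)
      have h2 := (hFd t ht).differentiableAt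
      exact (((by fun_prop : DifferentiableAt ℝ (fun t => Real.exp (L * t)) t).mul h1).add
        (h2.const_mul _)).differentiableWithinAt
    · rw [interior_Icc]
      intro t ht
      obtain ⟨q, hq, hqb⟩ := key t (Ioo_subset_Icc_self ht)
      have he : HasDerivAt (fun t => Real.exp (L * t)) (Real.exp (L * t) * L) t := by
        have := ((hasDerivAt_id t).const_mul L).exp
        simpa using this
      have hd : HasDerivAt Φ (Real.exp (L * t) * L * Q t + Real.exp (L * t) * q +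
          Real.exp (L * el) * (E ^ 2 / m) * ‖K t‖ ^ 2) t :=
        (he.mul hq).add ((hFd t ht).const_mul _)
      rw [hd.deriv]
      have h1 : Real.exp (L * t) ≤ Real.exp (L * el) :=
        Real.exp_le_exp.mpr (mul_le_mul_of_nonneg_left ht.2.le hL0.le)
      have h2 : 0 < Real.exp (L * t) := Real.exp_pos _
      have h3 : 0 ≤ E ^ 2 / m * ‖K t‖ ^ 2 := by positivity
      have h4 : Real.exp (L * t) * (-(L * Q t) - E ^ 2 / m * ‖K t‖ ^ 2) ≤ Real.exp (L * t) * q :=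
        mul_le_mul_of_nonneg_left hqb h2.le
      have h5 : Real.exp (L * t) * (E ^ 2 / m * ‖K t‖ ^ 2) ≤
          Real.exp (L * el) * (E ^ 2 / m * ‖K t‖ ^ 2) := mul_le_mul_of_nonneg_right h1 h3
      nlinarith
  have hle := hmono hs (right_mem_Icc.mpr (by linarith)) hs.2
  simp only [hΦ] at hle
  have hQs : 0 ≤ Q s := by simp only [hQ]; positivity
  have hI : 0 ≤ F el := intervalIntegral.integral_nonneg hel.le (fun t _ => by positivity)
  have hFs : 0 ≤ F s := intervalIntegral.integral_nonneg (by have := hs.1; linarith)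
    (fun t _ => by positivity)
  have hes : 1 ≤ Real.exp (L * s) := by
    apply Real.one_le_exp
    have := hs.1
    have : 0 ≤ s := by linarith
    positivity
  have hQle : Q s ≤ Real.exp (L * el) * (Q el + E ^ 2 / m * F el) := by
    have h1 : Q s ≤ Real.exp (L * s) * Q s := by nlinarith
    have h2 : 0 ≤ Real.exp (L * el) * (E ^ 2 / m) * F s := by positivity
    linarith
  obtain ⟨Y, hY⟩ : ∃ Y : ℝ, Y = Real.sqrt (F el) / Real.sqrt m := ⟨_, rfl⟩
  have hY0 : 0 ≤ Y := by rw [hY]; positivity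
  have hY2 : Y ^ 2 = F el / m := by rw [hY, div_pow, Real.sq_sqrt hI, hsq]
  obtain ⟨N0, hN0⟩ : ∃ N0 : ℝ, N0 = ‖a el‖ + ‖b el‖ := ⟨_, rfl⟩
  have hN00 : 0 ≤ N0 := by rw [hN0]; positivity
  have hQN : Q el ≤ N0 ^ 2 := by
    rw [hN0, hQ]
    nlinarith [norm_nonneg (a el), norm_nonneg (b el),
      mul_nonneg (norm_nonneg (a el)) (norm_nonneg (b el))]
  have hfin : (‖a s‖ + ‖b s‖) ^ 2 ≤ (Real.sqrt (2 * Real.exp (L * el)) * (1 + E) * (N0 + Y)) ^ 2 := by
    have h1 : (‖a s‖ + ‖b s‖) ^ 2 ≤ 2 * Q s := by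
      rw [hQ]; nlinarith [sq_nonneg (‖a s‖ - ‖b s‖)]
    have h2 : Q el + E ^ 2 / m * F el ≤ ((1 + E) * (N0 + Y)) ^ 2 := by
      have h3 : E ^ 2 / m * F el = E ^ 2 * Y ^ 2 := by rw [hY2]; ring
      rw [h3]
      have h4 : 0 ≤ N0 * Y := mul_nonneg hN00 hY0
      have h5 : N0 ^ 2 + E ^ 2 * Y ^ 2 ≤ (1 + E) ^ 2 * (N0 ^ 2 + Y ^ 2) := by
        nlinarith [sq_nonneg N0, sq_nonneg Y, mul_nonneg hE0.le (sq_nonneg N0),
          mul_nonneg hE0.le (sq_nonneg Y), mul_nonneg (sq_nonneg E) (sq_nonneg N0)]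
      have h6 : (1 + E) ^ 2 * (N0 ^ 2 + Y ^ 2) ≤ (1 + E) ^ 2 * (N0 + Y) ^ 2 :=
        mul_le_mul_of_nonneg_left (by nlinarith) (by positivity)
      calc Q el + E ^ 2 * Y ^ 2 ≤ N0 ^ 2 + E ^ 2 * Y ^ 2 := by linarith
        _ ≤ _ := h5
        _ ≤ _ := h6
        _ = _ := by ring
    calc (‖a s‖ + ‖b s‖) ^ 2 ≤ 2 * Q s := h1
      _ ≤ 2 * (Real.exp (L * el) * (Q el + E ^ 2 / m * F el)) := by linarith
      _ ≤ 2 * (Real.exp (L * el) * ((1 + E) * (N0 + Y)) ^ 2) := by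
          have := mul_le_mul_of_nonneg_left h2 (Real.exp_pos (L * el)).le
          linarith
      _ = (Real.sqrt (2 * Real.exp (L * el)) * (1 + E) * (N0 + Y)) ^ 2 := by
          rw [mul_assoc (Real.sqrt _), mul_pow (Real.sqrt _), Real.sq_sqrt (by positivity)]
          ring
  have := (pow_le_pow_iff_left₀ (by positivity) (by positivity) two_ne_zero).mp hfin
  rw [hN0, hY] at this
  exact this

end N_ab_sup

end Pool.Agent.Helper459.SK
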