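import Mathlib
import Pool.Agent.Helper459.SK.Defs

set_option autoImplicit false

noncomputable section

open MeasureTheory Set Filter Topology
open scoped ContDiff ComplexConjugate

namespace Pool.Agent.Helper459.SK

/-! ## General dimension `n = k + 2` -/

/-- free angular profile `|x|⁻²` in terms of `z = |x|ⁿ/n` -/
def un (n : ℕ) (z : ℝ) : ℝ := ((n : ℝ) * z) ^ (-(2 : ℝ) / n)
def Zn (n : ℕ) : ℝ := (8 : ℝ) ^ ((n : ℝ) / 2) / n + 5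
def wNn (n : ℕ) (z : ℝ) : ℝ := (un n z - 1 / 8) / 4 * Real.smoothTransition (2 - z)
def wRn (n : ℕ) (z : ℝ) : ℝ :=
  Om (z - 17 / 4) * Real.smoothTransition (8 * (71 / 16 - z)) +
    (1 / 100 * Real.smoothTransition (Zn n + 1 - z) +
      (1 / 8 - un n z) / 4 * (1 - Real.smoothTransition (Zn n + 1 - z))) *
      (1 - Real.smoothTransition (8 * (71 / 16 - z)))
def wn (n : ℕ) (z : ℝ) : ℝ := - wNn n z + wM z + wRn n z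
def vn (n : ℕ) (z : ℝ) : ℝ := 1 / 8 - 4 * wn n z
/-- free radial coefficient `|x|^{2n-2}` -/
def fn (n : ℕ) (z : ℝ) : ℝ := ((n : ℝ) * z) ^ (2 - (2 : ℝ) / n)
def S2n (n : ℕ) (z : ℝ) : ℝ :=
  Real.smoothTransition (2 * (z - 1)) * Real.smoothTransition (Zn n + 2 - z)
def aln (n : ℕ) (z : ℝ) : ℝ := S2n n z + (1 - S2n n z) * fn n z
def zf {n : ℕ} (x : E n) : ℝ := ‖x‖ ^ n / n
def Bn {n : ℕ} (x : E n) : ℝ := ‖x‖ ^ 2 * vn n (zf x)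
def Dn {n : ℕ} (x : E n) : ℝ := (aln n (zf x) / ‖x‖ ^ (2 * n - 2) - ‖x‖ ^ 2 * vn n (zf x)) / ‖x‖ ^ 2
/-- the coefficient matrix in dimension `n` -/
def An (n : ℕ) (x : E n) : Matrix (Fin n) (Fin n) ℝ := fun i j =>
  if zf x < 1 then (if i = j then 1 else 0) else (if i = j then Bn x else 0) + Dn x * x i * x j
def zen {k : ℕ} (x : E (k + 2)) : ℂ := ((x 0 : ℂ) + Complex.I * (x 1 : ℂ)) / ((‖x‖ : ℝ) : ℂ)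
def mdn {k : ℕ} (l : ℕ) (h : ℝ → ℂ) (x : E (k + 2)) : ℂ := zen x ^ l * h (zf x)
def VVn (n : ℕ) : Set (E n × E n) := {p | 3 < zf p.1 ∧ inner ℝ p.1 p.2 < (0 : ℝ)}
def WWn (n : ℕ) : Set (E n × E n) :=
  {p | 2 < zf p.1 ∧ zf p.1 < 3 ∧ 0 < ‖p.1‖ ^ 2 * ‖p.2‖ ^ 2 - (inner ℝ p.1 p.2 : ℝ) ^ 2}

/-- the mode system with frequencies `ν l` and the additional bounded term `q w g` -/
structure Sys2 (w f : ℝ → ℝ) (ν : ℕ → ℕ) (q : ℝ) (g : ℕ → ℕ → ℝ → L2z) (Kc : ℕ → ℝ) : Prop where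
  bd : ∀ l j t, ‖g l j t‖ ≤ Kc j
  init : ∀ l j, (g l j 0 : ℝ → ℂ) =ᵐ[volume.restrict (Ioi (0 : ℝ))] fun z => ((fj f j z : ℝ) : ℂ)
  der : ∀ l j t, HasDerivAt (g l j) (-Complex.I • g l (j + 1) t) t
  weak : ∀ l j t, ∀ χ : ℝ → ℝ, ContDiff ℝ ∞ χ → HasCompactSupport χ →
    tsupport χ ⊆ Ioo (3 / 2 : ℝ) (9 / 2) →
    ∫ z in Ioo (3 / 2 : ℝ) (9 / 2), (g l j t : ℝ → ℂ) z * ((deriv (deriv χ) z : ℝ) : ℂ) =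
      ∫ z in Ioo (3 / 2 : ℝ) (9 / 2),
        (-(((ν l : ℕ) : ℂ) ^ 2 * (w z : ℂ)) * (g l j t : ℝ → ℂ) z -
          2 * ((g l (j + 1) t : ℝ → ℂ) z - (q : ℂ) * (w z : ℂ) * (g l j t : ℝ → ℂ) z)) * (χ z : ℂ)

structure Osc2 (χ : ℝ → ℝ) (ν : ℕ → ℕ) (g : ℕ → ℕ → ℝ → L2z) : Prop where
  o1 : ∀ t, 0 < t → ∀ j, ∃ C : ℝ, ∀ l : ℕ, 1 ≤ l →
    ‖∫ z in (3 : ℝ)..(3 + el), (χ (z - 3) : ℂ) *
      Complex.exp (Complex.I * (((ν l : ℕ) * T (z - 3) : ℝ) : ℂ)) * (g l j t : ℝ → ℂ) z‖ ≤ C / (ν l : ℕ)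
  o2 : ∀ t, 0 < t → ∀ j, ∃ C : ℝ, ∀ l : ℕ, 1 ≤ l →
    ‖∫ z in (13 / 4 - el : ℝ)..(13 / 4), (χ (13 / 4 - z) : ℂ) *
      Complex.exp (-(Complex.I * (((ν l : ℕ) * T (13 / 4 - z) : ℝ) : ℂ))) * (g l j t : ℝ → ℂ) z‖ ≤ C / (ν l : ℕ)
  o3 : ∀ t, 0 < t → ∀ j, ∃ C : ℝ, ∀ l : ℕ, 1 ≤ l →
    ‖∫ z in (17 / 4 : ℝ)..(17 / 4 + el), (χ (z - 17 / 4) : ℂ) *
      Complex.exp (Complex.I * (((ν l : ℕ) * T (z - 17 / 4) : ℝ) : ℂ)) * (g l j t : ℝ → ℂ) z‖ ≤ C / (ν l : ℕ)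

/-- classical representatives -/
structure Rep2 (w : ℝ → ℝ) (ν : ℕ → ℕ) (q : ℝ) (g : ℕ → ℕ → ℝ → L2z) (G G1 : ℕ → ℕ → ℝ → ℝ → ℂ) (Kc : ℕ → ℝ) : Prop where
  ae : ∀ l j t, (g l j t : ℝ → ℂ) =ᵐ[volume.restrict (Ioo (3 / 2 : ℝ) (9 / 2))] G l j t
  sol : ∀ l j t, Sol w (ν l) (G l j t) (G1 l j t)
    (fun z => G l (j + 1) t z - (q : ℂ) * (w z : ℂ) * G l j t z)
  bd : ∀ l j t, L2b (Kc j) (G l j t)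

/-- the reduced functions `g l j t = e^{it l(l+k)/16} T_l† U_t T_l f_j` in dimension `k + 2` -/
structure Redn (k : ℕ) (U : ℝ → (L2 (k + 2) →L[ℂ] L2 (k + 2))) (f : ℝ → ℝ) (g : ℕ → ℕ → ℝ → L2z)
    (s : ℕ → ℝ) : Prop where
  s_pos : ∀ l, 0 < s l
  s_low : ∃ (c : ℝ) (p : ℕ), 0 < c ∧ ∀ l : ℕ, c / (1 + (l : ℝ)) ^ p ≤ s l
  pair : ∀ l j t, ∀ χ : ℝ → ℂ, Continuous χ → HasCompactSupport χ → tsupport χ ⊆ Ioi 0 →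
    ∫ z in Ioi (0 : ℝ), conj (χ z) * (g l j t : ℝ → ℂ) z =
      ((1 / s l : ℝ) : ℂ) * Complex.exp (Complex.I * ((t * ((l : ℝ) * (l + k)) / 16 : ℝ) : ℂ)) *
        inner ℂ (toL2 (mdn (k := k) l χ)) (U t (toL2 (mdn (k := k) l (fun z => (fj f j z : ℂ)))))
  bd : ∃ Kc : ℕ → ℝ, ∀ l j t, ‖g l j t‖ ≤ Kc j
  init : ∀ l j, (g l j 0 : ℝ → ℂ) =ᵐ[volume.restrict (Ioi (0 : ℝ))] fun z => ((fj f j z : ℝ) : ℂ)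
  der : ∀ l j t, HasDerivAt (g l j) (-Complex.I • g l (j + 1) t) t

end Pool.Agent.Helper459.SK
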