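import Mathlib
import Pool.Agent.Helper459.SK.NDefs
import Pool.Agent.Helper459.SK.L_om_facts
import Pool.Agent.Helper459.SK.L_w_facts

set_option autoImplicit false

noncomputable section

open MeasureTheory Set Filter Topology
open scoped ContDiff ComplexConjugate

namespace Pool.Agent.Helper459.SK
open N_om_facts
open N_w_facts

namespace N_wn_facts


lemma sT0 {x : ℝ} (h : x ≤ 0) : Real.smoothTransition x = 0 := Real.smoothTransition.zero_of_nonpos h
lemma sT1 {x : ℝ} (h : 1 ≤ x) : Real.smoothTransition x = 1 := Real.smoothTransition.one_of_one_le h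

lemma wNn_zero {n : ℕ} {z : ℝ} (h : 2 ≤ z) : wNn n z = 0 := by
  unfold wNn; rw [sT0 (by linarith)]; ring

lemma wM_low {z : ℝ} (h : z ≤ 3 + 1 / 16) : wM z = Om (z - 3) := by
  unfold wM; rw [sT1 (by linarith)]; ring

lemma wM_high {z : ℝ} (h : 13 / 4 - 1 / 16 ≤ z) : wM z = Om (13 / 4 - z) := by
  unfold wM; rw [sT0 (by linarith)]; ring

lemma wRn_low {n : ℕ} {z : ℝ} (h : z ≤ 17 / 4 + 1 / 16) : wRn n z = Om (z - 17 / 4) := by
  unfold wRn; rw [sT1 (x := 8 * (71 / 16 - z)) (by linarith)]; ring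

lemma wM_zero_low {z : ℝ} (h : z ≤ 3) : wM z = 0 := by
  rw [wM_low (by linarith)]; exact om_facts.2.1 _ (by linarith)

lemma wM_zero_high {z : ℝ} (h : 13 / 4 ≤ z) : wM z = 0 := by
  rw [wM_high (by linarith)]; exact om_facts.2.1 _ (by linarith)

lemma wRn_zero {n : ℕ} {z : ℝ} (h : z ≤ 17 / 4) : wRn n z = 0 := by
  rw [wRn_low (by linarith)]; exact om_facts.2.1 _ (by linarith)

lemma conv_pos {a b t : ℝ} (ha : 0 < a) (hb : 0 < b) (h0 : 0 ≤ t) (h1 : t ≤ 1) :
    0 < a * t + b * (1 - t) := by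
  rcases eq_or_lt_of_le h0 with h | h
  · rw [← h]; linarith
  · have h2 : 0 < a * t := mul_pos ha h
    have h3 : 0 ≤ b * (1 - t) := mul_nonneg hb.le (by linarith)
    linarith

lemma conv_lt {a b c t : ℝ} (ha : a < c) (hb : b < c) (h0 : 0 ≤ t) (h1 : t ≤ 1) :
    a * t + b * (1 - t) < c := by
  have h := conv_pos (a := c - a) (b := c - b) (sub_pos.2 ha) (sub_pos.2 hb) h0 h1
  nlinarith

lemma exp83 : (14 : ℝ) < Real.exp (8 / 3) := by
  have h1 : (2.7 : ℝ) < Real.exp 1 := by
    have := Real.exp_one_gt_d9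
    linarith
  have h2 : Real.exp (8 / 3) ^ 3 = Real.exp 1 ^ 8 := by
    rw [← Real.exp_nat_mul, ← Real.exp_nat_mul]; congr 1; norm_num
  have h3 : (2.7 : ℝ) ^ 8 < Real.exp 1 ^ 8 := pow_lt_pow_left₀ h1 (by norm_num) (by norm_num)
  have h4 : (14 : ℝ) ^ 3 < Real.exp (8 / 3) ^ 3 := by
    rw [h2]; refine lt_trans ?_ h3; norm_num
  exact lt_of_pow_lt_pow_left₀ 3 (Real.exp_pos _).le h4

lemma Om_small {s : ℝ} (h : s ≤ 3 / 16) : Om s < 1 / 32 := by
  rcases le_or_gt s 0 with h0 | h0
  · rw [om_facts.2.1 _ h0]; norm_num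
  · rw [om_facts.2.2.2.1 _ h0]
    set y : ℝ := 1 / s with hy
    have hs : s = 1 / y := by rw [hy]; simp
    have hy1 : 16 / 3 ≤ y := by
      rw [hy, le_div_iff₀ h0]; linarith
    have hy0 : 0 < y := by linarith
    have e1 : Real.exp (y / 2) ≥ 2.4 * y := by
      have h1 : Real.exp (y / 2) = Real.exp (8 / 3) * Real.exp (y / 2 - 8 / 3) := by
        rw [← Real.exp_add]; congr 1; ring
      have h2 : y / 2 - 8 / 3 + 1 ≤ Real.exp (y / 2 - 8 / 3) := Real.add_one_le_exp _
      have h3 : 0 < y / 2 - 8 / 3 + 1 := by linarith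
      rw [h1]
      have h4 := exp83
      calc 2.4 * y ≤ 14 * (y / 2 - 8 / 3 + 1) := by linarith
        _ ≤ Real.exp (8 / 3) * (y / 2 - 8 / 3 + 1) := by
            apply mul_le_mul_of_nonneg_right h4.le h3.le
        _ ≤ Real.exp (8 / 3) * Real.exp (y / 2 - 8 / 3) := by
            apply mul_le_mul_of_nonneg_left h2 (Real.exp_pos _).le
    have e2 : Real.exp (2 * y) = Real.exp (y / 2) ^ 4 := by
      rw [← Real.exp_nat_mul]; congr 1; push_cast; ring
    have e3 : (2.4 * y) ^ 4 ≤ Real.exp (2 * y) := by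
      rw [e2]; exact pow_le_pow_left₀ (by positivity) e1 4
    have e4 : Real.exp (-2 / s) / s ^ 4 = y ^ 4 / Real.exp (2 * y) := by
      rw [hs]
      have : (-2 : ℝ) / (1 / y) = -(2 * y) := by field_simp
      rw [this, Real.exp_neg]
      field_simp
    rw [e4, div_lt_iff₀ (Real.exp_pos _)]
    have : 0 < y ^ 4 := by positivity
    nlinarith

lemma wM_pos {z : ℝ} (h3 : 3 < z) (h4 : z < 13 / 4) : 0 < wM z := by
  unfold wM
  exact conv_pos (om_facts.2.2.1 _ (by linarith)) (om_facts.2.2.1 _ (by linarith))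
    (Real.smoothTransition.nonneg _) (Real.smoothTransition.le_one _)

lemma wM_lt {z : ℝ} (h3 : 3 < z) (h4 : z < 13 / 4) : wM z < 1 / 32 := by
  rcases le_or_gt z (49 / 16) with h | h
  · rw [wM_low (by linarith)]; exact Om_small (by linarith)
  · rcases le_or_gt z (51 / 16) with h' | h'
    · unfold wM
      exact conv_lt (Om_small (by linarith)) (Om_small (by linarith))
        (Real.smoothTransition.nonneg _) (Real.smoothTransition.le_one _)
    · rw [wM_high (by linarith)]; exact Om_small (by linarith)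

lemma four_n {n : ℕ} (hn : 2 ≤ n) : 4 * (n : ℝ) ≤ (8 : ℝ) ^ ((n : ℝ) / 2) := by
  have h1 : (4 * (n : ℝ)) ^ 2 ≤ (8 : ℝ) ^ n := by
    induction n, hn using Nat.le_induction with
    | base => norm_num
    | succ k hk ih =>
      have hk' : (2 : ℝ) ≤ k := by exact_mod_cast hk
      rw [pow_succ (8 : ℝ) k]
      push_cast
      nlinarith
  have h2 : ((8 : ℝ) ^ ((n : ℝ) / 2)) ^ 2 = (8 : ℝ) ^ n := by
    rw [← Real.rpow_natCast, ← Real.rpow_mul (by norm_num)]
    rw [← Real.rpow_natCast]
    congr 1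
    push_cast; ring
  rw [← h2] at h1
  exact (pow_le_pow_iff_left₀ (by positivity) (by positivity) (by norm_num)).1 h1

lemma un_pos {n : ℕ} (hn : 2 ≤ n) {z : ℝ} (hz : 0 < z) : 0 < un n z := by
  unfold un
  have : (0 : ℝ) < n := by exact_mod_cast (by omega : 0 < n)
  positivity

lemma un_eighth {n : ℕ} (hn : 2 ≤ n) :
    ((8 : ℝ) ^ ((n : ℝ) / 2)) ^ (-(2 : ℝ) / n) = 1 / 8 := by
  have : (0 : ℝ) < n := by exact_mod_cast (by omega : 0 < n)
  rw [← Real.rpow_mul (by norm_num)]
  have : (n : ℝ) / 2 * (-(2 : ℝ) / n) = -1 := by field_simp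
  rw [this, Real.rpow_neg_one]; norm_num

lemma un_gt {n : ℕ} (hn : 2 ≤ n) {z : ℝ} (hz : 0 < z) (h2 : z < 2) : 1 / 8 < un n z := by
  have hn0 : (0 : ℝ) < n := by exact_mod_cast (by omega : 0 < n)
  rw [← un_eighth hn]
  unfold un
  apply Real.rpow_lt_rpow_of_neg (by positivity)
  · have := four_n hn
    nlinarith
  · rw [neg_div]; have : 0 < (2 : ℝ) / n := by positivity
    linarith

lemma un_lt {n : ℕ} (hn : 2 ≤ n) {z : ℝ} (hz : Zn n < z) : un n z < 1 / 8 := by
  have hn0 : (0 : ℝ) < n := by exact_mod_cast (by omega : 0 < n)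
  rw [← un_eighth hn]
  unfold un
  apply Real.rpow_lt_rpow_of_neg (by positivity)
  · unfold Zn at hz
    have h1 : (8 : ℝ) ^ ((n : ℝ) / 2) / n < z := by linarith
    rw [div_lt_iff₀ hn0] at h1
    linarith
  · rw [neg_div]; have : 0 < (2 : ℝ) / n := by positivity
    linarith

lemma B_pos {n : ℕ} (hn : 2 ≤ n) {z : ℝ} :
    0 < 1 / 100 * Real.smoothTransition (Zn n + 1 - z) +
      (1 / 8 - un n z) / 4 * (1 - Real.smoothTransition (Zn n + 1 - z)) := by
  rcases le_or_gt z (Zn n) with h | h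
  · rw [sT1 (by linarith)]; norm_num
  · have := un_lt hn h
    exact conv_pos (by norm_num) (by linarith)
      (Real.smoothTransition.nonneg _) (Real.smoothTransition.le_one _)

lemma B_lt {n : ℕ} (hn : 2 ≤ n) {z : ℝ} (hz : 0 < z) :
    1 / 100 * Real.smoothTransition (Zn n + 1 - z) +
      (1 / 8 - un n z) / 4 * (1 - Real.smoothTransition (Zn n + 1 - z)) < 1 / 32 := by
  have := un_pos hn hz
  exact conv_lt (by norm_num) (by linarith)
      (Real.smoothTransition.nonneg _) (Real.smoothTransition.le_one _)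

lemma wRn_pos {n : ℕ} (hn : 2 ≤ n) {z : ℝ} (h3 : 17 / 4 < z) : 0 < wRn n z := by
  unfold wRn
  exact conv_pos (om_facts.2.2.1 _ (by linarith)) (B_pos hn)
    (Real.smoothTransition.nonneg _) (Real.smoothTransition.le_one _)

lemma wRn_lt {n : ℕ} (hn : 2 ≤ n) {z : ℝ} (h3 : 17 / 4 < z) : wRn n z < 1 / 32 := by
  rcases le_or_gt z (71 / 16) with h | h
  · unfold wRn
    exact conv_lt (Om_small (by linarith)) (B_lt hn (by linarith))
      (Real.smoothTransition.nonneg _) (Real.smoothTransition.le_one _)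
  · unfold wRn
    rw [sT0 (x := 8 * (71 / 16 - z)) (by linarith)]
    have := B_lt hn (z := z) (by linarith)
    linarith

lemma smooth_wn {n : ℕ} (hn : 2 ≤ n) (z : ℝ) (hz : 0 < z) : ContDiffAt ℝ ∞ (wn n) z := by
  have hO : ContDiff ℝ ∞ Om := om_facts.1
  have hn0 : (0 : ℝ) < n := by exact_mod_cast (by omega : 0 < n)
  have hS : ContDiff ℝ ∞ Real.smoothTransition := Real.smoothTransition.contDiff
  have hi : ContDiffAt ℝ ∞ (un n) z := by
    unfold un
    apply ContDiffAt.rpow_const_of_ne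
    · exact contDiffAt_const.mul contDiffAt_id
    · have : 0 < (n : ℝ) * z := by positivity
      exact this.ne'
  have h1 : ContDiffAt ℝ ∞ (wNn n) z := by
    unfold wNn
    exact ((hi.sub contDiffAt_const).div_const _).mul
      ((hS.comp (contDiff_const.sub contDiff_id)).contDiffAt)
  have h2 : ContDiffAt ℝ ∞ wM z := by
    unfold wM
    have a1 : ContDiff ℝ ∞ (fun z : ℝ => Om (z - 3)) := hO.comp (contDiff_id.sub contDiff_const)
    have a2 : ContDiff ℝ ∞ (fun z : ℝ => Om (13 / 4 - z)) :=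
      hO.comp (contDiff_const.sub contDiff_id)
    have a3 : ContDiff ℝ ∞ (fun z : ℝ => Real.smoothTransition (8 * (51 / 16 - z))) :=
      hS.comp (contDiff_const.mul (contDiff_const.sub contDiff_id))
    exact ((a1.mul a3).add (a2.mul (contDiff_const.sub a3))).contDiffAt
  have h3 : ContDiffAt ℝ ∞ (wRn n) z := by
    unfold wRn
    have a1 : ContDiff ℝ ∞ (fun z : ℝ => Om (z - 17 / 4)) :=
      hO.comp (contDiff_id.sub contDiff_const)
    have a3 : ContDiff ℝ ∞ (fun z : ℝ => Real.smoothTransition (8 * (71 / 16 - z))) :=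
      hS.comp (contDiff_const.mul (contDiff_const.sub contDiff_id))
    have a4 : ContDiff ℝ ∞ (fun z : ℝ => Real.smoothTransition (Zn n + 1 - z)) :=
      hS.comp (contDiff_const.sub contDiff_id)
    exact (a1.mul a3).contDiffAt.add
      (((contDiffAt_const.mul a4.contDiffAt).add
        (((contDiffAt_const.sub hi).div_const _).mul (contDiff_const.sub a4).contDiffAt)).mul
        (contDiff_const.sub a3).contDiffAt)
  exact (h1.neg.add h2).add h3

lemma wn_lt {n : ℕ} (hn : 2 ≤ n) {z : ℝ} (hz : 0 < z) : wn n z < 1 / 32 := by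
  rcases lt_or_ge z 2 with h | h
  · unfold wn
    rw [wM_zero_low (by linarith), wRn_zero (by linarith)]
    have h4 : 0 ≤ Real.smoothTransition (2 - z) := Real.smoothTransition.nonneg _
    have h5 := un_gt hn hz h
    have h6 : 0 ≤ wNn n z := by
      unfold wNn
      exact mul_nonneg (by linarith) h4
    linarith
  · rcases le_or_gt z 3 with h3 | h3
    · unfold wn
      rw [wNn_zero h, wM_zero_low h3, wRn_zero (by linarith)]; norm_num
    · rcases lt_or_ge z (13 / 4) with h4 | h4
      · unfold wn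
        rw [wNn_zero h, wRn_zero (by linarith)]
        have := wM_lt h3 h4
        linarith
      · rcases le_or_gt z (17 / 4) with h5 | h5
        · unfold wn
          rw [wNn_zero h, wM_zero_high h4, wRn_zero h5]; norm_num
        · unfold wn
          rw [wNn_zero h, wM_zero_high h4]
          have := wRn_lt hn h5
          linarith

theorem wn_facts (n : ℕ) (hn : 2 ≤ n) : WP (wn n) ∧ ∀ z, 0 < z → wn n z < 1 / 32 := by
  refine ⟨⟨smooth_wn hn, ?_, ?_, ?_, ?_, ?_, ?_, ?_, ?_, ?_⟩, fun z hz => wn_lt hn hz⟩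
  · rintro z ⟨h2, h3⟩
    unfold wn
    rw [wNn_zero h2, wM_zero_low h3, wRn_zero (by linarith)]; ring
  · rintro z ⟨h2, h3⟩
    unfold wn
    rw [wNn_zero (by linarith), wM_zero_high h2, wRn_zero h3]; ring
  · rintro z ⟨h2, h3⟩
    unfold wn
    rw [wM_zero_low (by linarith), wRn_zero (by linarith)]
    have h4 : 0 < Real.smoothTransition (2 - z) := Real.smoothTransition.pos_of_pos (by linarith)
    have h5 := un_gt hn h2 h3
    have h6 : 0 < wNn n z := by
      unfold wNn
      exact mul_pos (by linarith) h4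
    linarith
  · rintro z ⟨h2, h3⟩
    unfold wn
    rw [wNn_zero (by linarith), wRn_zero (by linarith)]
    have := wM_pos h2 h3
    linarith
  · intro z h
    unfold wn
    rw [wNn_zero (by linarith), wM_zero_high (by linarith)]
    have := wRn_pos hn h
    linarith
  · rintro s ⟨h0, h1⟩
    unfold el at h1
    unfold wn
    rw [wNn_zero (by linarith), wM_low (by linarith), wRn_zero (by linarith)]
    rw [show 3 + s - 3 = s by ring]; ring
  · rintro s ⟨h0, h1⟩
    unfold el at h1
    unfold wn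
    rw [wNn_zero (by linarith), wM_high (by linarith), wRn_zero (by linarith)]
    rw [show 13 / 4 - (13 / 4 - s) = s by ring]; ring
  · rintro s ⟨h0, h1⟩
    unfold el at h1
    unfold wn
    rw [wNn_zero (by linarith), wM_zero_high (by linarith), wRn_low (by linarith)]
    rw [show 17 / 4 + s - 17 / 4 = s by ring]; ring
  · intro z hz
    have := wn_lt hn hz
    linarith

end N_wn_facts

end Pool.Agent.Helper459.SK
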