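import Mathlib
import Pool.Agent.Helper459.SK.NDefs
import Pool.Agent.Helper459.SK.L_wn_facts

set_option autoImplicit false

noncomputable section

open MeasureTheory Set Filter Topology
open scoped ContDiff ComplexConjugate

namespace Pool.Agent.Helper459.SK
open N_wn_facts

namespace N_wn_pos

theorem wn_pos (n : ℕ) (hn : 2 ≤ n) : (∀ z, 0 < z → 0 < vn n z) ∧ (∀ z, 0 < z → z ≤ 1 → vn n z = un n z) ∧
    (∀ z, Zn n + 1 ≤ z → vn n z = un n z) ∧ (∀ z ∈ Icc (3 / 2 : ℝ) (9 / 2), aln n z = 1) ∧
    (∀ z, 0 < z → z ≤ 1 → aln n z = fn n z) ∧ (∀ z, Zn n + 2 ≤ z → aln n z = fn n z) ∧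
    (∀ z, 0 < z → 0 < aln n z) ∧
    (∀ z, 0 < z → ContDiffAt ℝ ∞ (vn n) z) ∧ (∀ z, 0 < z → ContDiffAt ℝ ∞ (aln n) z) ∧
    (∀ x : E n, x ≠ 0 → 0 < zf x ∧ un n (zf x) = 1 / ‖x‖ ^ 2 ∧ fn n (zf x) = ‖x‖ ^ (2 * n - 2)) := by
  have hnpos : (0 : ℝ) < n := by
    have : (0 : ℕ) < n := by omega
    exact_mod_cast this
  have hZ : (5 : ℝ) ≤ Zn n := by
    have h1 : (0 : ℝ) ≤ (8 : ℝ) ^ ((n : ℝ) / 2) / n := by positivity
    unfold Zn
    linarith
  have hOm : ∀ s : ℝ, s ≤ 0 → Om s = 0 := by
    intro s hs
    unfold Om T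
    rw [expNegInvGlue.zero_of_nonpos hs]
    simp
  have hfpos : ∀ z : ℝ, 0 < z → 0 < fn n z := by
    intro z hz
    unfold fn
    positivity
  refine ⟨?_, ?_, ?_, ?_, ?_, ?_, ?_, ?_, ?_, ?_⟩
  · intro z hz
    have := (wn_facts n hn).2 z hz
    unfold vn
    linarith
  · intro z hz hz1
    have e1 : Real.smoothTransition (2 - z) = 1 :=
      Real.smoothTransition.one_of_one_le (by linarith)
    have e2 : Real.smoothTransition (8 * (51 / 16 - z)) = 1 :=
      Real.smoothTransition.one_of_one_le (by linarith)
    have e3 : Real.smoothTransition (8 * (71 / 16 - z)) = 1 :=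
      Real.smoothTransition.one_of_one_le (by linarith)
    have e4 : Om (z - 3) = 0 := hOm _ (by linarith)
    have e5 : Om (z - 17 / 4) = 0 := hOm _ (by linarith)
    unfold vn wn wNn wM wRn
    rw [e1, e2, e3, e4, e5]
    ring
  · intro z hz
    have e1 : Real.smoothTransition (2 - z) = 0 :=
      Real.smoothTransition.zero_of_nonpos (by linarith)
    have e2 : Real.smoothTransition (8 * (51 / 16 - z)) = 0 :=
      Real.smoothTransition.zero_of_nonpos (by linarith)
    have e3 : Real.smoothTransition (8 * (71 / 16 - z)) = 0 :=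
      Real.smoothTransition.zero_of_nonpos (by linarith)
    have e4 : Om (13 / 4 - z) = 0 := hOm _ (by linarith)
    have e5 : Real.smoothTransition (Zn n + 1 - z) = 0 :=
      Real.smoothTransition.zero_of_nonpos (by linarith)
    unfold vn wn wNn wM wRn
    rw [e1, e2, e3, e4, e5]
    ring
  · intro z hz
    obtain ⟨h1, h2⟩ := hz
    have e1 : Real.smoothTransition (2 * (z - 1)) = 1 :=
      Real.smoothTransition.one_of_one_le (by linarith)
    have e2 : Real.smoothTransition (Zn n + 2 - z) = 1 :=
      Real.smoothTransition.one_of_one_le (by linarith)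
    unfold aln S2n
    rw [e1, e2]
    ring
  · intro z hz hz1
    have e1 : Real.smoothTransition (2 * (z - 1)) = 0 :=
      Real.smoothTransition.zero_of_nonpos (by linarith)
    unfold aln S2n
    rw [e1]
    ring
  · intro z hz
    have e1 : Real.smoothTransition (Zn n + 2 - z) = 0 :=
      Real.smoothTransition.zero_of_nonpos (by linarith)
    unfold aln S2n
    rw [e1]
    ring
  · intro z hz
    have h0 : 0 ≤ S2n n z := by
      unfold S2n
      exact mul_nonneg (Real.smoothTransition.nonneg _) (Real.smoothTransition.nonneg _)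
    have h1 : S2n n z ≤ 1 := by
      unfold S2n
      exact mul_le_one₀ (Real.smoothTransition.le_one _) (Real.smoothTransition.nonneg _)
        (Real.smoothTransition.le_one _)
    have hf := hfpos z hz
    unfold aln
    rcases eq_or_lt_of_le h0 with h | h
    · rw [← h]; linarith
    · have : 0 ≤ (1 - S2n n z) * fn n z := mul_nonneg (by linarith) hf.le
      linarith
  · intro z hz
    have h := (wn_facts n hn).1.smooth z hz
    have : vn n = fun z => 1 / 8 - 4 * wn n z := by
      funext z; rfl
    rw [this]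
    exact contDiffAt_const.sub (contDiffAt_const.mul h)
  · intro z hz
    have hS : ContDiffAt ℝ ∞ (S2n n) z := by
      have : S2n n = fun z => Real.smoothTransition (2 * (z - 1)) *
          Real.smoothTransition (Zn n + 2 - z) := by
        funext z; rfl
      rw [this]
      apply ContDiffAt.mul
      · exact (Real.smoothTransition.contDiff (n := ⊤)).contDiffAt.comp z
          (contDiffAt_const.mul (contDiffAt_id.sub contDiffAt_const))
      · exact (Real.smoothTransition.contDiff (n := ⊤)).contDiffAt.comp z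
          (contDiffAt_const.sub contDiffAt_id)
    have hf : ContDiffAt ℝ ∞ (fn n) z := by
      have : fn n = fun z => ((n : ℝ) * z) ^ (2 - (2 : ℝ) / n) := by
        funext z; rfl
      rw [this]
      apply ContDiffAt.rpow_const_of_ne
      · exact contDiffAt_const.mul contDiffAt_id
      · positivity
    have : aln n = fun z => S2n n z + (1 - S2n n z) * fn n z := by
      funext z; rfl
    rw [this]
    exact hS.add ((contDiffAt_const.sub hS).mul hf)
  · intro x hx
    have hxn : 0 < ‖x‖ := norm_pos_iff.mpr hx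
    have hz : (n : ℝ) * zf x = ‖x‖ ^ n := by
      unfold zf
      field_simp
    refine ⟨?_, ?_, ?_⟩
    · unfold zf
      positivity
    · unfold un
      rw [hz, ← Real.rpow_natCast, ← Real.rpow_mul hxn.le]
      have : (n : ℝ) * (-(2 : ℝ) / n) = -2 := by field_simp
      rw [this, Real.rpow_neg hxn.le]
      norm_num
    · unfold fn
      rw [hz, ← Real.rpow_natCast, ← Real.rpow_mul hxn.le]
      have : (n : ℝ) * (2 - (2 : ℝ) / n) = ((2 * n - 2 : ℕ) : ℝ) := by
        have h2 : 2 ≤ 2 * n := by omega
        push_cast [Nat.cast_sub h2]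
        field_simp
      rw [this, Real.rpow_natCast]

end N_wn_pos

end Pool.Agent.Helper459.SK
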