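import Mathlib
import Pool.Agent.Helper459.SK.NDefs
import Pool.Agent.Helper459.SK.L_wn_pos

set_option autoImplicit false

noncomputable section

open MeasureTheory Set Filter Topology
open scoped ContDiff ComplexConjugate

namespace Pool.Agent.Helper459.SK
open N_wn_pos

namespace N_an_formula

theorem an_formula_aux (n : ℕ) (hn : 2 ≤ n) (x : E n) (hx : x ≠ 0)
    (h : zf x ≤ 1 ∨ Zn n + 2 ≤ zf x) : Bn x = 1 ∧ Dn x = 0 := by
  obtain ⟨-, hv1, hv2, -, ha1, ha2, -, -, -, hf⟩ := wn_pos n hn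
  obtain ⟨hz, hu, hfn⟩ := hf x hx
  have hxn : 0 < ‖x‖ := norm_pos_iff.mpr hx
  have hv : vn n (zf x) = un n (zf x) := by
    rcases h with h | h
    · exact hv1 _ hz h
    · exact hv2 _ (by linarith)
  have ha : aln n (zf x) = fn n (zf x) := by
    rcases h with h | h
    · exact ha1 _ hz h
    · exact ha2 _ h
  constructor
  · unfold Bn
    rw [hv, hu]
    field_simp
  · unfold Dn
    rw [hv, hu, ha, hfn]
    have h1 : ‖x‖ ^ (2 * n - 2) / ‖x‖ ^ (2 * n - 2) = 1 := div_self (by positivity)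
    have h2 : ‖x‖ ^ 2 * (1 / ‖x‖ ^ 2) = 1 := by field_simp
    rw [h1, h2]
    simp

theorem an_formula (n : ℕ) (hn : 2 ≤ n) (x : E n) (hx : x ≠ 0) (i j : Fin n) :
    An n x i j = (if i = j then Bn x else 0) + Dn x * x i * x j ∧
    (zf x ≤ 1 ∨ Zn n + 2 ≤ zf x → An n x i j = if i = j then 1 else 0) := by
  have h1 : An n x i j = (if i = j then Bn x else 0) + Dn x * x i * x j := by
    by_cases hz1 : zf x < 1
    · obtain ⟨hB, hD⟩ := an_formula_aux n hn x hx (Or.inl hz1.le)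
      rw [hB, hD]
      simp [An, hz1]
    · simp [An, hz1]
  refine ⟨h1, fun h => ?_⟩
  obtain ⟨hB, hD⟩ := an_formula_aux n hn x hx h
  rw [h1, hB, hD]
  simp

end N_an_formula

end Pool.Agent.Helper459.SK
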