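import Mathlib
import Pool.Agent.Helper459.SK.NDefs
import Pool.Agent.Helper459.SK.L_wn_pos
import Pool.Agent.Helper459.SK.L_an_formula

set_option autoImplicit false

noncomputable section

open MeasureTheory Set Filter Topology
open scoped ContDiff ComplexConjugate

namespace Pool.Agent.Helper459.SK
open N_wn_pos
open N_an_formula

namespace N_an_smooth

theorem an_smooth (n : ℕ) (hn : 2 ≤ n) : (∀ j l, ContDiff ℝ ∞ (fun x => An n x j l)) ∧ (∀ x, (An n x).IsSymm) ∧
    (∀ j l, HasCompactSupport (fun x => An n x j l - if j = l then 1 else 0)) := by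
  obtain ⟨h1, h2, h3, h4, h5, h6, h7, h8, h9, h10⟩ := wn_pos n hn
  have hn0 : n ≠ 0 := by omega
  have hnr : (2 : ℝ) ≤ (n : ℝ) := by exact_mod_cast hn
  refine ⟨?_, ?_, ?_⟩
  · intro j l
    rw [contDiff_iff_contDiffAt]
    intro x
    by_cases hx : x = 0
    · subst hx
      have h : (fun x : E n => An n x j l) =ᶠ[𝓝 0] fun _ => (if j = l then (1 : ℝ) else 0) := by
        have hb : Metric.ball (0 : E n) 1 ∈ 𝓝 (0 : E n) := Metric.ball_mem_nhds _ one_pos
        filter_upwards [hb] with y hy
        rw [mem_ball_zero_iff] at hy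
        have hlt : zf y < 1 := by
          unfold zf
          have hp : ‖y‖ ^ n ≤ 1 := pow_le_one₀ (norm_nonneg y) hy.le
          rw [div_lt_one (by linarith)]
          linarith
        unfold An
        rw [if_pos hlt]
      exact contDiffAt_const.congr_of_eventuallyEq h
    · have hz : 0 < zf x := (h10 x hx).1
      have hv := h8 _ hz
      have ha := h9 _ hz
      have hnm : ContDiffAt ℝ ∞ (fun y : E n => ‖y‖) x := contDiffAt_norm ℝ hx
      have hnx : ‖x‖ ≠ 0 := norm_ne_zero_iff.2 hx
      have hsq : ContDiffAt ℝ ∞ (fun y : E n => zf y) x := by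
        unfold zf
        exact (hnm.pow n).div_const _
      have hv' : ContDiffAt ℝ ∞ (fun y : E n => vn n (zf y)) x :=
        ContDiffAt.comp x (g := vn n) (f := fun y : E n => zf y) hv hsq
      have ha' : ContDiffAt ℝ ∞ (fun y : E n => aln n (zf y)) x :=
        ContDiffAt.comp x (g := aln n) (f := fun y : E n => zf y) ha hsq
      have hB : ContDiffAt ℝ ∞ (fun y : E n => Bn y) x := by
        unfold Bn
        exact (hnm.pow 2).mul hv'
      have hD' : ContDiffAt ℝ ∞ (fun y : E n => Dn y) x := by
        unfold Dn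
        exact ((ha'.div (hnm.pow (2 * n - 2)) (pow_ne_zero _ hnx)).sub ((hnm.pow 2).mul hv')).div
          (hnm.pow 2) (pow_ne_zero _ hnx)
      have hj : ∀ k : Fin n, ContDiffAt ℝ ∞ (fun y : E n => y k) x := by
        intro k
        exact (EuclideanSpace.proj (𝕜 := ℝ) k : E n →L[ℝ] ℝ).contDiff.contDiffAt
      have h : (fun x : E n => An n x j l) =ᶠ[𝓝 x] fun y =>
          (if j = l then Bn y else 0) + Dn y * y j * y l := by
        have hb : {y : E n | y ≠ 0} ∈ 𝓝 x := isOpen_ne.mem_nhds hx
        filter_upwards [hb] with y hy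
        exact (an_formula n hn y hy j l).1
      refine ContDiffAt.congr_of_eventuallyEq ?_ h
      refine ContDiffAt.add ?_ ((hD'.mul (hj j)).mul (hj l))
      by_cases hjl : j = l
      · simp only [if_pos hjl]
        exact hB
      · simp only [if_neg hjl]
        exact contDiffAt_const
  · intro x
    apply Matrix.IsSymm.ext
    intro i j
    unfold An
    by_cases h : zf x < 1
    · rw [if_pos h, if_pos h]
      by_cases hij : i = j
      · rw [if_pos hij, if_pos hij.symm]
      · rw [if_neg hij, if_neg (Ne.symm hij)]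
    · rw [if_neg h, if_neg h]
      by_cases hij : i = j
      · rw [if_pos hij, if_pos hij.symm, hij]
      · rw [if_neg hij, if_neg (Ne.symm hij)]
        ring
  · intro j l
    apply HasCompactSupport.of_support_subset_isCompact
      (isCompact_closedBall (0 : E n) (max 1 ((n : ℝ) * (Zn n + 2))))
    intro x hx
    by_contra hcon
    rw [mem_closedBall_zero_iff, not_le] at hcon
    apply hx
    have hc1 : 1 < ‖x‖ := lt_of_le_of_lt (le_max_left _ _) hcon
    have hc2 : (n : ℝ) * (Zn n + 2) < ‖x‖ := lt_of_le_of_lt (le_max_right _ _) hcon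
    have hx0 : x ≠ 0 := by
      intro h
      rw [h, norm_zero] at hc1
      linarith
    have hz : Zn n + 2 ≤ zf x := by
      unfold zf
      rw [le_div_iff₀ (by linarith)]
      have hp : ‖x‖ ≤ ‖x‖ ^ n := le_self_pow₀ hc1.le hn0
      nlinarith
    show An n x j l - (if j = l then 1 else 0) = 0
    rw [(an_formula n hn x hx0 j l).2 (Or.inr hz)]
    ring

end N_an_smooth

end Pool.Agent.Helper459.SK
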