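import Mathlib
import Pool.Agent.Helper459.SK.NDefs
import Pool.Agent.Helper459.SK.L_wn_pos
import Pool.Agent.Helper459.SK.L_an_formula
import Pool.Agent.Helper459.SK.L_an_smooth

set_option autoImplicit false

noncomputable section

open MeasureTheory Set Filter Topology
open scoped ContDiff ComplexConjugate

namespace Pool.Agent.Helper459.SK
open N_wn_pos
open N_an_formula
open N_an_smooth

namespace N_an_pos

theorem mu_pos_aux (n : ℕ) (hn : 2 ≤ n) : ∃ c : ℝ, 0 < c ∧ c ≤ 1 ∧ ∀ z : ℝ, 1 ≤ z →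
    c ≤ vn n z / un n z ∧ c ≤ aln n z / fn n z := by
  obtain ⟨h1, h2, h3, h4, h5, h6, h7, h8, h9, h10⟩ := wn_pos n hn
  have hn0 : (0 : ℝ) < n := by exact_mod_cast (by omega : 0 < n)
  have hu : ∀ z : ℝ, 0 < z → 0 < un n z := by
    intro z hz
    unfold un
    exact Real.rpow_pos_of_pos (by positivity) _
  have hf : ∀ z : ℝ, 0 < z → 0 < fn n z := by
    intro z hz
    unfold fn
    exact Real.rpow_pos_of_pos (by positivity) _
  have huc : ∀ z : ℝ, 0 < z → ContinuousAt (un n) z := by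
    intro z hz
    unfold un
    apply ContinuousAt.rpow_const (continuousAt_const.mul continuousAt_id)
    left
    have : (0 : ℝ) < (n : ℝ) * z := by positivity
    exact this.ne'
  have hfc : ∀ z : ℝ, 0 < z → ContinuousAt (fn n) z := by
    intro z hz
    unfold fn
    apply ContinuousAt.rpow_const (continuousAt_const.mul continuousAt_id)
    left
    have : (0 : ℝ) < (n : ℝ) * z := by positivity
    exact this.ne'
  have hZ : 0 < Zn n := by
    unfold Zn
    have : 0 < (8 : ℝ) ^ ((n : ℝ) / 2) := Real.rpow_pos_of_pos (by norm_num) _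
    positivity
  have hc : ContinuousOn (fun z : ℝ => min (vn n z / un n z) (aln n z / fn n z))
      (Icc (1:ℝ) (Zn n + 2)) := by
    intro z hz
    have hz0 : 0 < z := by linarith [hz.1]
    apply ContinuousAt.continuousWithinAt
    apply Filter.Tendsto.min
    · exact (h8 z hz0).continuousAt.div (huc z hz0) (hu z hz0).ne'
    · exact (h9 z hz0).continuousAt.div (hfc z hz0) (hf z hz0).ne'
  obtain ⟨z0, hz0, hmin⟩ := isCompact_Icc.exists_isMinOn
    (nonempty_Icc.2 (by linarith : (1:ℝ) ≤ Zn n + 2)) hc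
  have hz0p : 0 < z0 := by linarith [hz0.1]
  have hm0 : 0 < min (vn n z0 / un n z0) (aln n z0 / fn n z0) :=
    lt_min (div_pos (h1 z0 hz0p) (hu z0 hz0p)) (div_pos (h7 z0 hz0p) (hf z0 hz0p))
  refine ⟨min 1 (min (vn n z0 / un n z0) (aln n z0 / fn n z0)), lt_min one_pos hm0,
    min_le_left _ _, ?_⟩
  intro z hz
  have hzp : 0 < z := by linarith
  rcases le_or_gt z (Zn n + 2) with h | h
  · have h12 : min (vn n z0 / un n z0) (aln n z0 / fn n z0) ≤
        min (vn n z / un n z) (aln n z / fn n z) := hmin ⟨hz, h⟩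
    have h13 := (min_le_right (1:ℝ) (min (vn n z0 / un n z0) (aln n z0 / fn n z0))).trans h12
    exact ⟨h13.trans (min_le_left _ _), h13.trans (min_le_right _ _)⟩
  · have e1 : vn n z / un n z = 1 := by
      rw [h3 z (by linarith)]
      exact div_self (hu z hzp).ne'
    have e2 : aln n z / fn n z = 1 := by
      rw [h6 z h.le]
      exact div_self (hf z hzp).ne'
    rw [e1, e2]
    exact ⟨min_le_left _ _, min_le_left _ _⟩

theorem form_aux (n : ℕ) (B D : ℝ) (x ξ : Fin n → ℝ) :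
    ∑ j, ∑ l, ((if j = l then B else 0) + D * x j * x l) * ξ j * ξ l =
      B * ∑ j, ξ j ^ 2 + D * (∑ j, x j * ξ j) ^ 2 := by
  have e1 : ∀ j : Fin n, ∑ l, ((if j = l then B else 0) + D * x j * x l) * ξ j * ξ l =
      B * ξ j ^ 2 + D * (x j * ξ j) * ∑ l, x l * ξ l := by
    intro j
    have : ∀ l : Fin n, ((if j = l then B else 0) + D * x j * x l) * ξ j * ξ l =
        (if j = l then B * ξ j ^ 2 else 0) + D * (x j * ξ j) * (x l * ξ l) := by
      intro l
      split_ifs with h
      · subst h; ring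
      · ring
    rw [Finset.sum_congr rfl (fun l _ => this l), Finset.sum_add_distrib, Finset.sum_ite_eq,
      Finset.mul_sum]
    simp
  rw [Finset.sum_congr rfl (fun j _ => e1 j), Finset.sum_add_distrib, ← Finset.mul_sum,
    ← Finset.sum_mul, ← Finset.mul_sum]
  ring

theorem an_pos (n : ℕ) (hn : 2 ≤ n) : ∃ c : ℝ, 0 < c ∧ ∀ x ξ : E n, c * ‖ξ‖ ^ 2 ≤ ∑ j, ∑ l, An n x j l * ξ j * ξ l := by
  obtain ⟨c, hc0, hc1, hc⟩ := mu_pos_aux n hn
  obtain ⟨h1, h2, h3, h4, h5, h6, h7, h8, h9, h10⟩ := wn_pos n hn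
  refine ⟨c, hc0, fun x ξ => ?_⟩
  have hξ : ‖ξ‖ ^ 2 = ∑ i, ξ i ^ 2 := EuclideanSpace.real_norm_sq_eq ξ
  have hx : ‖x‖ ^ 2 = ∑ i, x i ^ 2 := EuclideanSpace.real_norm_sq_eq x
  by_cases h : zf x < 1
  · have e : ∑ j, ∑ l, An n x j l * ξ j * ξ l = ∑ i, ξ i ^ 2 := by
      have := form_aux n 1 0 (fun i => x i) (fun i => ξ i)
      simp only [zero_mul, add_zero, one_mul] at this
      rw [← this]
      apply Finset.sum_congr rfl
      intro j _
      apply Finset.sum_congr rfl
      intro l _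
      unfold An
      rw [if_pos h]
    rw [e, hξ]
    have : 0 ≤ ∑ i, ξ i ^ 2 := Finset.sum_nonneg (fun i _ => sq_nonneg _)
    nlinarith
  · have hz1 : 1 ≤ zf x := not_lt.1 h
    have hx0 : x ≠ 0 := by
      rintro rfl
      apply h
      unfold zf
      rw [norm_zero, zero_pow (by omega), zero_div]
      norm_num
    obtain ⟨hzp, hu, hf⟩ := h10 x hx0
    obtain ⟨g1, g2⟩ := hc _ hz1
    have e : ∑ j, ∑ l, An n x j l * ξ j * ξ l =
        Bn x * ∑ i, ξ i ^ 2 + Dn x * (∑ i, x i * ξ i) ^ 2 := by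
      rw [← form_aux n (Bn x) (Dn x) (fun i => x i) (fun i => ξ i)]
      apply Finset.sum_congr rfl
      intro j _
      apply Finset.sum_congr rfl
      intro l _
      unfold An
      rw [if_neg h]
    have hr : 0 < ‖x‖ ^ 2 := by
      have := norm_pos_iff.2 hx0
      positivity
    have hCS : (∑ i, x i * ξ i) ^ 2 ≤ ‖x‖ ^ 2 * ‖ξ‖ ^ 2 := by
      rw [hx, hξ]
      exact Finset.sum_mul_sq_le_sq_mul_sq _ _ _
    rw [e, ← hξ]
    unfold Bn Dn
    rw [hu, div_div_eq_mul_div, div_one] at g1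
    rw [hf] at g2
    generalize ‖x‖ ^ 2 = r at *
    generalize vn n (zf x) = v at *
    generalize aln n (zf x) / ‖x‖ ^ (2 * n - 2) = a at *
    generalize (∑ i, x i * ξ i) = p at *
    generalize ‖ξ‖ ^ 2 = k at *
    have k3 : r * v * k + (a - r * v) / r * p ^ 2 =
        (v * r) * (k - p ^ 2 / r) + a * (p ^ 2 / r) := by
      field_simp
      ring
    rw [show r * v = v * r by ring] at *
    rw [show v * r * k + (a - v * r) / r * p ^ 2 =
        (v * r) * (k - p ^ 2 / r) + a * (p ^ 2 / r) by field_simp; ring]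
    have k1 : 0 ≤ k - p ^ 2 / r := by
      rw [sub_nonneg, div_le_iff₀ hr]
      linarith
    have k2 : 0 ≤ p ^ 2 / r := by positivity
    nlinarith [mul_le_mul_of_nonneg_right g1 k1, mul_le_mul_of_nonneg_right g2 k2]

end N_an_pos

end Pool.Agent.Helper459.SK
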