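import Mathlib
import Pool.Agent.Helper459.SK.NDefs
import Pool.Agent.Helper459.SK.L_an_smooth
import Pool.Agent.Helper459.SK.L_an_pos

set_option autoImplicit false

noncomputable section

open MeasureTheory Set Filter Topology
open scoped ContDiff ComplexConjugate

namespace Pool.Agent.Helper459.SK
open N_an_smooth
open N_an_pos

namespace N_an_adm

theorem bd_gen {n : ℕ} (f : E n → ℝ) (hsm : ContDiff ℝ ∞ f) (hs : HasCompactSupport f) (k : ℕ) :
    ∃ C : ℝ, 0 ≤ C ∧ ∀ x : E n,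
    ‖iteratedFDeriv ℝ k f x‖ ≤ C * (1 + ‖x‖) ^ (-1 - 1 - (k : ℝ)) := by
  have hc : HasCompactSupport (iteratedFDeriv ℝ k f) := hs.iteratedFDeriv k
  have hcont : Continuous (iteratedFDeriv ℝ k f) :=
    hsm.continuous_iteratedFDeriv (by exact_mod_cast le_top)
  have hp : Continuous (fun x : E n => (1 + ‖x‖) ^ (1 + 1 + (k : ℝ))) := by
    apply Continuous.rpow_const (continuous_const.add continuous_norm)
    intro x
    left
    have h0 := norm_nonneg x
    have h1 : (0 : ℝ) < 1 + ‖x‖ := by linarith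
    exact ne_of_gt h1
  have hg : Continuous (fun x : E n => (1 + ‖x‖) ^ (1 + 1 + (k : ℝ)) * ‖iteratedFDeriv ℝ k f x‖) :=
    hp.mul hcont.norm
  have hgc : HasCompactSupport
      (fun x : E n => (1 + ‖x‖) ^ (1 + 1 + (k : ℝ)) * ‖iteratedFDeriv ℝ k f x‖) :=
    hc.norm.mul_left
  obtain ⟨C, hC⟩ := hgc.exists_bound_of_continuous hg
  have hC0 : 0 ≤ C := le_trans (norm_nonneg _) (hC 0)
  refine ⟨C, hC0, fun x => ?_⟩
  have h1 := hC x
  have hpos : (0 : ℝ) < 1 + ‖x‖ := by positivity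
  rw [norm_mul, norm_norm, Real.norm_of_nonneg (Real.rpow_nonneg hpos.le _)] at h1
  have h2 : (1 + ‖x‖) ^ (-1 - 1 - (k : ℝ)) = ((1 + ‖x‖) ^ (1 + 1 + (k : ℝ)))⁻¹ := by
    rw [← Real.rpow_neg hpos.le]
    congr 1
    ring
  rw [h2, ← div_eq_mul_inv, le_div_iff₀ (Real.rpow_pos_of_pos hpos _), mul_comm]
  exact h1

theorem an_bd (n : ℕ) (hn : 2 ≤ n) (k : ℕ) (j l : Fin n) : ∃ C : ℝ, 0 ≤ C ∧ ∀ x : E n,
    ‖iteratedFDeriv ℝ k (fun y : E n => An n y j l - if j = l then 1 else 0) x‖ ≤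
      C * (1 + ‖x‖) ^ (-1 - 1 - (k : ℝ)) :=
  bd_gen _ (((an_smooth n hn).1 j l).sub contDiff_const) ((an_smooth n hn).2.2 j l) k

theorem an_adm (n : ℕ) (hn : 2 ≤ n) : Admissible (An n) := by
  refine ⟨(an_smooth n hn).1, (an_smooth n hn).2.1, an_pos n hn, 1, one_pos, fun k => ?_⟩
  choose C hC0 hC using an_bd n hn k
  refine ⟨∑ j, ∑ l, C j l, fun x j l => ?_⟩
  refine (hC j l x).trans ?_
  apply mul_le_mul_of_nonneg_right _ (by positivity)
  calc C j l ≤ ∑ l, C j l :=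
        Finset.single_le_sum (f := fun l => C j l) (fun i _ => hC0 j i) (Finset.mem_univ l)
    _ ≤ ∑ j, ∑ l, C j l :=
        Finset.single_le_sum (f := fun j => ∑ l, C j l)
          (fun i _ => Finset.sum_nonneg fun l _ => hC0 i l) (Finset.mem_univ j)


end N_an_adm

end Pool.Agent.Helper459.SK
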