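import Mathlib
import Pool.Agent.Helper459.SK.Defs
import Pool.Agent.Helper459.SK.L_ab_deriv
import Pool.Agent.Helper459.SK.L_ab_sup
import Pool.Agent.Helper459.SK.L_ep_alg

set_option autoImplicit false

noncomputable section

open MeasureTheory Set Filter Topology
open scoped ContDiff ComplexConjugate

namespace Pool.Agent.Helper459.SK
open N_ab_deriv
open N_ab_sup
open N_ep_alg

namespace N_b_est

theorem b_T (s : ℝ) (hs : 0 < s) : T s = Real.exp (-s⁻¹) := by
  unfold T expNegInvGlue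
  rw [if_neg (not_le.mpr hs)]

theorem b_Td (s : ℝ) (hs : 0 < s) : HasDerivAt T (T s / s ^ 2) s := by
  have h1 : HasDerivAt (fun s : ℝ => Real.exp (-s⁻¹)) (Real.exp (-s⁻¹) * (-(-(s ^ 2)⁻¹))) s :=
    ((hasDerivAt_inv hs.ne').neg).exp
  have h2 : T =ᶠ[𝓝 s] fun s => Real.exp (-s⁻¹) := by
    filter_upwards [lt_mem_nhds hs] with t ht using b_T t ht
  refine (h1.congr_of_eventuallyEq h2).congr_deriv ?_
  rw [b_T s hs]
  ring

theorem b_Tc : Continuous T := by
  have : ContDiff ℝ 1 T := expNegInvGlue.contDiff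
  exact this.continuous

theorem b_cs (f : ℝ → ℝ) (hf : ContinuousOn f (Icc 0 el)) (hf0 : ∀ s ∈ Icc (0:ℝ) el, 0 ≤ f s) :
    ∫ s in (0:ℝ)..el, f s ≤ Real.sqrt (∫ s in (0:ℝ)..el, f s ^ 2) := by
  have hel : (0:ℝ) ≤ el := by unfold el; norm_num
  have hi : IntervalIntegrable f volume 0 el := hf.intervalIntegrable_of_Icc hel
  have hi2 : IntervalIntegrable (fun s => f s ^ 2) volume 0 el :=
    (hf.pow 2).intervalIntegrable_of_Icc hel
  have key : ∀ l : ℝ, 2 * l * (∫ s in (0:ℝ)..el, f s) ≤ (∫ s in (0:ℝ)..el, f s ^ 2) + l ^ 2 := by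
    intro l
    have h1 : ∫ s in (0:ℝ)..el, (2 * l * f s) ≤ ∫ s in (0:ℝ)..el, (f s ^ 2 + l ^ 2) := by
      apply intervalIntegral.integral_mono_on hel (hi.const_mul _)
        (hi2.add intervalIntegrable_const)
      intro s _
      nlinarith [sq_nonneg (f s - l)]
    rw [intervalIntegral.integral_const_mul,
      intervalIntegral.integral_add hi2 intervalIntegrable_const,
      intervalIntegral.integral_const] at h1
    have h2 : (el - 0) • l ^ 2 ≤ l ^ 2 := by
      unfold el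
      rw [smul_eq_mul]
      nlinarith [sq_nonneg l]
    linarith
  apply Real.le_sqrt_of_sq_le
  have := key (∫ s in (0:ℝ)..el, f s)
  nlinarith

theorem b_var (a b : ℝ) (f f' : ℝ → ℂ) (hf : ∀ s ∈ Icc a b, HasDerivAt f (f' s) s)
    (hc : ContinuousOn f' (Icc a b)) (g : ℝ → ℝ) (hg : ContinuousOn g (Icc a b))
    (hfg : ∀ s ∈ Icc a b, ‖f' s‖ ≤ g s) (s : ℝ) (hs : s ∈ Icc a b) :
    ‖f b - f s‖ ≤ ∫ u in a..b, g u := by
  have hsub : Icc s b ⊆ Icc a b := Icc_subset_Icc_left hs.1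
  have hab : a ≤ b := hs.1.trans hs.2
  have h1 : ∫ u in s..b, f' u = f b - f s := by
    apply intervalIntegral.integral_eq_sub_of_hasDerivAt
    · intro u hu
      rw [uIcc_of_le hs.2] at hu
      exact hf u (hsub hu)
    · exact (hc.mono hsub).intervalIntegrable_of_Icc hs.2
  have hgi1 : IntervalIntegrable g volume s b := (hg.mono hsub).intervalIntegrable_of_Icc hs.2
  have hgi2 : IntervalIntegrable g volume a s :=
    (hg.mono (Icc_subset_Icc_right hs.2)).intervalIntegrable_of_Icc hs.1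
  rw [← h1]
  calc ‖∫ u in s..b, f' u‖ ≤ ∫ u in s..b, ‖f' u‖ :=
        intervalIntegral.norm_integral_le_integral_norm hs.2
    _ ≤ ∫ u in s..b, g u := by
        apply intervalIntegral.integral_mono_on hs.2
        · exact (hc.mono hsub).norm.intervalIntegrable_of_Icc hs.2
        · exact hgi1
        · intro u hu
          exact hfg u (hsub hu)
    _ ≤ (∫ u in a..s, g u) + ∫ u in s..b, g u := by
        have : 0 ≤ ∫ u in a..s, g u := by
          apply intervalIntegral.integral_nonneg hs.1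
          intro u hu
          exact (norm_nonneg _).trans (hfg u ⟨hu.1, hu.2.trans hs.2⟩)
        linarith
    _ = ∫ u in a..b, g u := intervalIntegral.integral_add_adjacent_intervals hgi2 hgi1

theorem b_EPc (m : ℕ) (hm : 1 ≤ m) : ContinuousOn (fun s => EP m s) (Icc (el / 2) el) := by
  have hp : ∀ s ∈ Icc (el / 2) el, (0:ℝ) < s := fun s hs => by
    have := hs.1
    unfold el at this
    linarith
  have hm0 : (0:ℝ) < m := by exact_mod_cast hm
  have h1 : ContinuousOn (fun s : ℝ => 1 / (2 * s)) (Icc (el / 2) el) :=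
    continuousOn_const.div (by fun_prop) (fun s hs => by have := hp s hs; positivity)
  have h2 : ContinuousOn (fun s : ℝ => s * Real.exp (1 / (2 * s)) / Real.sqrt m)
      (Icc (el / 2) el) :=
    (continuousOn_id.mul (Real.continuous_exp.comp_continuousOn h1)).div_const _
  have h3 : Continuous (fun s : ℝ => Complex.exp (Complex.I * ((m * T s : ℝ) : ℂ))) := by
    have := b_Tc
    fun_prop
  exact (Complex.continuous_ofReal.comp_continuousOn h2).mul h3.continuousOn

theorem b_EPn (m : ℕ) (hm : 1 ≤ m) (s : ℝ) (hs : s ∈ Icc (el / 2) el) :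
    ‖EP m s‖ ≤ Real.exp 16 / Real.sqrt m := by
  have hm0 : (0:ℝ) < m := by exact_mod_cast hm
  have hq : 0 < Real.sqrt m := Real.sqrt_pos.mpr hm0
  have hs1 : (1:ℝ) / 32 ≤ s := by have := hs.1; unfold el at this; linarith
  have hs2 : s ≤ 1 / 16 := by have := hs.2; unfold el at this; linarith
  have hsp : 0 < s := by linarith
  unfold EP
  have hexp : ‖Complex.exp (Complex.I * ((m * T s : ℝ) : ℂ))‖ = 1 := by
    rw [mul_comm]
    exact Complex.norm_exp_ofReal_mul_I _
  rw [norm_mul, hexp, mul_one, Complex.norm_real, Real.norm_of_nonneg (by positivity)]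
  apply div_le_div_of_nonneg_right _ hq.le
  have h1 : Real.exp (1 / (2 * s)) ≤ Real.exp 16 := by
    apply Real.exp_le_exp.mpr
    rw [div_le_iff₀ (by positivity)]
    linarith
  have h2 := Real.exp_pos (1 / (2 * s))
  nlinarith

theorem b_est (χ : ℝ → ℝ) (hχ : Chi χ) : ∃ C' : ℝ, 0 < C' ∧ ∀ m : ℕ, 1 ≤ m → ∀ G G1 K : ℝ → ℂ,
    EdgeODE m G G1 K →
    ‖cB m el (G el) (G1 el)‖ ≤ C' * (Real.sqrt m *
        ‖∫ s in (0 : ℝ)..el, (χ s : ℂ) * Complex.exp (Complex.I * ((m * T s : ℝ) : ℂ)) * G s‖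
      + (‖cA m el (G el) (G1 el)‖ + ‖cB m el (G el) (G1 el)‖) / m
      + Real.sqrt (∫ s in (0 : ℝ)..el, ‖K s‖ ^ 2) / Real.sqrt m) := by
  have hel : (el:ℝ) = 1 / 16 := rfl
  obtain ⟨a, ha⟩ : ∃ a : ℝ, a = el / 2 := ⟨_, rfl⟩
  have ha32 : a = 1 / 32 := by rw [ha, hel]; norm_num
  have hab : a ≤ el := by rw [ha32, hel]; norm_num
  have hap : 0 < a := by rw [ha32]; norm_num
  have hpos : ∀ s ∈ Icc a el, 0 < s := fun s hs => hap.trans_le hs.1
  have hsub0 : Icc a el ⊆ Icc 0 el := Icc_subset_Icc_left hap.le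
  have hχ0 : ∀ s, s ∉ Ioo a el → χ s = 0 := by
    intro s hs
    by_contra h
    rw [ha] at hs
    exact hs (hχ.supp (subset_tsupport χ h))
  have hχc : Continuous χ := hχ.smooth.continuous
  have hχd : ∀ s, HasDerivAt χ (deriv χ s) s := fun s =>
    (hχ.smooth.differentiable (by simp) s).hasDerivAt
  have hχdc : Continuous (deriv χ) := hχ.smooth.continuous_deriv (by simp)
  have hψd : ∀ s, 0 < s → HasDerivAt (fun s => χ s * (s ^ 3 * Real.exp (3 / (2 * s))))
      (deriv χ s * (s ^ 3 * Real.exp (3 / (2 * s))) +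
        χ s * ((3 * s ^ 2 - 3 / 2 * s) * Real.exp (3 / (2 * s)))) s := by
    intro s hs
    have h1 : HasDerivAt (fun s : ℝ => 3 / (2 * s)) (-(3 / (2 * s ^ 2))) s := by
      have h2 := (hasDerivAt_inv hs.ne').const_mul (3 / 2 : ℝ)
      refine (h2.congr_of_eventuallyEq (Eventually.of_forall fun t => ?_)).congr_deriv ?_
      · show 3 / (2 * t) = 3 / 2 * t⁻¹
        rw [← div_eq_mul_inv, div_div]
      · field_simp
    have h3 := (hχd s).mul ((hasDerivAt_pow 3 s).mul h1.exp)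
    refine h3.congr_deriv ?_
    simp only [Pi.mul_apply]
    push_cast
    field_simp
    ring
  have hexpc : ∀ c : ℝ, ContinuousOn (fun s : ℝ => Real.exp (c / (2 * s))) (Icc a el) := by
    intro c
    have h1 : ContinuousOn (fun s : ℝ => c / (2 * s)) (Icc a el) :=
      continuousOn_const.div (by fun_prop) (fun s hs => by have := hpos s hs; positivity)
    exact Real.continuous_exp.comp_continuousOn h1
  have hψ'c : ContinuousOn (fun s => deriv χ s * (s ^ 3 * Real.exp (3 / (2 * s))) +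
        χ s * ((3 * s ^ 2 - 3 / 2 * s) * Real.exp (3 / (2 * s)))) (Icc a el) := by
    have h1 := hexpc 3
    have h2 : ContinuousOn (fun s : ℝ => s ^ 3) (Icc a el) := by fun_prop
    have h3 : ContinuousOn (fun s : ℝ => 3 * s ^ 2 - 3 / 2 * s) (Icc a el) := by fun_prop
    exact (hχdc.continuousOn.mul (h2.mul h1)).add (hχc.continuousOn.mul (h3.mul h1))
  have hψc : ContinuousOn (fun s => χ s * (s ^ 3 * Real.exp (3 / (2 * s)))) (Icc a el) := by
    have h1 := hexpc 3
    have h2 : ContinuousOn (fun s : ℝ => s ^ 3) (Icc a el) := by fun_prop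
    exact hχc.continuousOn.mul (h2.mul h1)
  have hhc : ContinuousOn (fun s => χ s * (s * Real.exp (1 / (2 * s)))) (Icc a el) := by
    have h1 := hexpc 1
    exact hχc.continuousOn.mul (continuousOn_id.mul h1)
  obtain ⟨ψ, hψ⟩ : ∃ ψ : ℝ → ℝ, ψ = fun s => χ s * (s ^ 3 * Real.exp (3 / (2 * s))) := ⟨_, rfl⟩
  obtain ⟨ψ', hψ'⟩ : ∃ ψ' : ℝ → ℝ, ψ' = fun s => deriv χ s * (s ^ 3 * Real.exp (3 / (2 * s))) +
        χ s * ((3 * s ^ 2 - 3 / 2 * s) * Real.exp (3 / (2 * s))) := ⟨_, rfl⟩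
  obtain ⟨h, hh⟩ : ∃ h : ℝ → ℝ, h = fun s => χ s * (s * Real.exp (1 / (2 * s))) := ⟨_, rfl⟩
  rw [← hψ'] at hψ'c
  rw [← hψ] at hψc
  rw [← hh] at hhc
  have hψd' : ∀ s, 0 < s → HasDerivAt ψ (ψ' s) s := by
    intro s hs
    rw [hψ, hψ']
    exact hψd s hs
  obtain ⟨P0, hP0⟩ := isCompact_Icc.exists_bound_of_continuousOn hψc
  obtain ⟨P1, hP1⟩ := isCompact_Icc.exists_bound_of_continuousOn hψ'c
  have hP00 : 0 ≤ P0 := (norm_nonneg _).trans (hP0 el (right_mem_Icc.mpr hab))
  have hP10 : 0 ≤ P1 := (norm_nonneg _).trans (hP1 el (right_mem_Icc.mpr hab))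
  have hh0 : ∀ s ∈ Icc a el, 0 ≤ h s := by
    intro s hs
    have h1 := hpos s hs
    rw [hh]
    exact mul_nonneg (hχ.nonneg s) (by positivity)
  have hhi : IntervalIntegrable h volume a el := hhc.intervalIntegrable_of_Icc hab
  obtain ⟨H, hH⟩ : ∃ H, H = ∫ s in a..el, h s := ⟨_, rfl⟩
  have hzero : ∀ s ∈ uIcc 0 a, χ s = 0 := by
    intro s hs
    rw [uIcc_of_le hap.le] at hs
    exact hχ0 s (fun h' => absurd h'.1 (not_lt.mpr hs.2))
  have hHpos : 0 < H := by
    have h1 : (∫ s in (0:ℝ)..a, χ s) + ∫ s in a..el, χ s = ∫ s in (0:ℝ)..el, χ s :=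
      intervalIntegral.integral_add_adjacent_intervals (hχc.intervalIntegrable _ _)
        (hχc.intervalIntegrable _ _)
    have h2 : ∫ s in (0:ℝ)..a, χ s = 0 := by
      rw [intervalIntegral.integral_congr (g := fun _ => (0:ℝ)) hzero]
      simp
    have h3 : ∫ s in a..el, a * χ s ≤ ∫ s in a..el, h s := by
      apply intervalIntegral.integral_mono_on hab ((hχc.intervalIntegrable _ _).const_mul _) hhi
      intro s hs
      have h4 := hpos s hs
      rw [hh]
      show a * χ s ≤ χ s * (s * Real.exp (1 / (2 * s)))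
      rw [mul_comm]
      apply mul_le_mul_of_nonneg_left _ (hχ.nonneg s)
      have h5 : 1 ≤ Real.exp (1 / (2 * s)) := Real.one_le_exp (by positivity)
      nlinarith [hs.1]
    rw [intervalIntegral.integral_const_mul] at h3
    have h6 : 0 < ∫ s in a..el, χ s := by
      have := hχ.pos
      linarith
    rw [hH]
    exact lt_of_lt_of_le (mul_pos hap h6) h3
  obtain ⟨C1, hC1, hsup⟩ := ab_sup
  obtain ⟨e, he⟩ : ∃ e, e = Real.exp 16 := ⟨_, rfl⟩
  have hepos : 0 < e := by rw [he]; exact Real.exp_pos _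
  obtain ⟨CD, hCD⟩ : ∃ CD, CD = e ^ 2 * C1 / (8 * a ^ 4) + e := ⟨_, rfl⟩
  have hCDpos : 0 < CD := by rw [hCD]; positivity
  refine ⟨1 / H + (1 / H) * (1 / 2) * (P1 * C1 + P0 * CD) + CD, by positivity, ?_⟩
  intro m hm G G1 K hODE
  have hm1 : (1:ℝ) ≤ m := by exact_mod_cast hm
  have hm0 : (0:ℝ) < m := by linarith
  obtain ⟨q, hq⟩ : ∃ q, q = Real.sqrt m := ⟨_, rfl⟩
  have hq0 : 0 < q := by rw [hq]; exact Real.sqrt_pos.mpr hm0
  have hqq : q * q = m := by rw [hq]; exact Real.mul_self_sqrt hm0.le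
  obtain ⟨k, hk⟩ : ∃ k, k = Real.sqrt (∫ s in (0 : ℝ)..el, ‖K s‖ ^ 2) := ⟨_, rfl⟩
  have hk0 : 0 ≤ k := by rw [hk]; exact Real.sqrt_nonneg _
  obtain ⟨A, hA⟩ : ∃ A : ℝ → ℂ, A = fun s => cA m s (G s) (G1 s) := ⟨_, rfl⟩
  obtain ⟨B, hB⟩ : ∃ B : ℝ → ℂ, B = fun s => cB m s (G s) (G1 s) := ⟨_, rfl⟩
  obtain ⟨A', hA'⟩ : ∃ A' : ℝ → ℂ, A' = fun s =>
    (Complex.I / 2) * conj (EP m s) * (G s * ((1 / (4 * s ^ 4) : ℝ) : ℂ) + 2 * K s) := ⟨_, rfl⟩
  obtain ⟨B', hB'⟩ : ∃ B' : ℝ → ℂ, B' = fun s =>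
    -(Complex.I / 2) * EP m s * (G s * ((1 / (4 * s ^ 4) : ℝ) : ℂ) + 2 * K s) := ⟨_, rfl⟩
  have hAd : ∀ s ∈ Icc a el, HasDerivAt A (A' s) s := by
    intro s hs
    rw [hA, hA']
    exact (ab_deriv m hm G G1 K hODE s (hpos s hs) hs.2).1
  have hBd : ∀ s ∈ Icc a el, HasDerivAt B (B' s) s := by
    intro s hs
    rw [hB, hB']
    exact (ab_deriv m hm G G1 K hODE s (hpos s hs) hs.2).2
  have hAc : ContinuousOn A (Icc a el) := fun s hs => (hAd s hs).continuousAt.continuousWithinAt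
  have hBc : ContinuousOn B (Icc a el) := fun s hs => (hBd s hs).continuousAt.continuousWithinAt
  have hGc0 : ContinuousOn G (Icc 0 el) := fun s hs =>
    (hODE.d0 s hs).continuousAt.continuousWithinAt
  have hGc : ContinuousOn G (Icc a el) := hGc0.mono hsub0
  have hKc : ContinuousOn K (Icc a el) := hODE.kc.mono hsub0
  have hEc : ContinuousOn (fun s => EP m s) (Icc a el) := by
    rw [ha]
    exact b_EPc m hm
  have hqc : ContinuousOn (fun s : ℝ => ((1 / (4 * s ^ 4) : ℝ) : ℂ)) (Icc a el) := by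
    have h1 : ContinuousOn (fun s : ℝ => 1 / (4 * s ^ 4)) (Icc a el) :=
      continuousOn_const.div (by fun_prop) (fun s hs => by have := hpos s hs; positivity)
    exact Complex.continuous_ofReal.comp_continuousOn h1
  have hlc : ContinuousOn (fun s => G s * ((1 / (4 * s ^ 4) : ℝ) : ℂ) + 2 * K s) (Icc a el) :=
    (hGc.mul hqc).add (continuousOn_const.mul hKc)
  have hA'c : ContinuousOn A' (Icc a el) := by
    rw [hA']
    exact (continuousOn_const.mul (Complex.continuous_conj.comp_continuousOn hEc)).mul hlc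
  have hB'c : ContinuousOn B' (Icc a el) := by
    rw [hB']
    exact (continuousOn_const.mul hEc).mul hlc
  obtain ⟨M, hM⟩ : ∃ M, M = ‖cA m el (G el) (G1 el)‖ + ‖cB m el (G el) (G1 el)‖ := ⟨_, rfl⟩
  have hM0 : 0 ≤ M := by rw [hM]; positivity
  obtain ⟨Sb, hSb⟩ : ∃ Sb, Sb = C1 * (M + k / q) := ⟨_, rfl⟩
  have hSb0 : 0 ≤ Sb := by rw [hSb]; positivity
  have hAB : ∀ s ∈ Icc a el, ‖A s‖ + ‖B s‖ ≤ Sb := by
    intro s hs
    have h1 := hsup m hm G G1 K hODE s (by rw [← ha]; exact hs)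
    rw [← hM, ← hk, ← hq, ← hSb] at h1
    rw [hA, hB]
    exact h1
  have hEn : ∀ s ∈ Icc a el, ‖EP m s‖ ≤ e / q := by
    intro s hs
    rw [he, hq]
    exact b_EPn m hm s (by rw [← ha]; exact hs)
  have hGdec : ∀ s ∈ Icc a el, G s = A s * EP m s + B s * conj (EP m s) := by
    intro s hs
    rw [hA, hB]
    exact (ep_alg m hm s (hpos s hs) (G s) (G1 s) 0 0).1
  have hGn : ∀ s ∈ Icc a el, ‖G s‖ ≤ Sb * (e / q) := by
    intro s hs
    rw [hGdec s hs]
    have h1 : ‖A s * EP m s + B s * conj (EP m s)‖ ≤ (‖A s‖ + ‖B s‖) * ‖EP m s‖ := by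
      refine (norm_add_le _ _).trans ?_
      rw [norm_mul, norm_mul, RCLike.norm_conj, add_mul]
    exact h1.trans (mul_le_mul (hAB s hs) (hEn s hs) (norm_nonneg _) hSb0)
  have hlin : ∀ s ∈ Icc a el, (1 / 2) * (e / q) *
      ‖G s * ((1 / (4 * s ^ 4) : ℝ) : ℂ) + 2 * K s‖ ≤
      e ^ 2 * Sb / (8 * a ^ 4 * m) + e / q * ‖K s‖ := by
    intro s hs
    have h1 : ‖G s * ((1 / (4 * s ^ 4) : ℝ) : ℂ) + 2 * K s‖ ≤
        Sb * (e / q) * (1 / (4 * a ^ 4)) + 2 * ‖K s‖ := by
      refine (norm_add_le _ _).trans ?_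
      rw [norm_mul, norm_mul, Complex.norm_real, Complex.norm_ofNat]
      have h2 : ‖1 / (4 * s ^ 4)‖ ≤ 1 / (4 * a ^ 4) := by
        have h3 := hpos s hs
        rw [Real.norm_of_nonneg (by positivity)]
        apply div_le_div_of_nonneg_left zero_le_one (by positivity)
        have h4 : a ^ 4 ≤ s ^ 4 := pow_le_pow_left₀ hap.le hs.1 4
        linarith
      have h5 : ‖G s‖ * ‖1 / (4 * s ^ 4)‖ ≤ Sb * (e / q) * (1 / (4 * a ^ 4)) :=
        mul_le_mul (hGn s hs) h2 (norm_nonneg _) (by positivity)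
      linarith
    have h6 : (1 / 2) * (e / q) * ‖G s * ((1 / (4 * s ^ 4) : ℝ) : ℂ) + 2 * K s‖ ≤
        (1 / 2) * (e / q) * (Sb * (e / q) * (1 / (4 * a ^ 4)) + 2 * ‖K s‖) :=
      mul_le_mul_of_nonneg_left h1 (by positivity)
    refine h6.trans (le_of_eq ?_)
    rw [← hqq]
    field_simp
    ring
  have hA'n : ∀ s ∈ Icc a el, ‖A' s‖ ≤ e ^ 2 * Sb / (8 * a ^ 4 * m) + e / q * ‖K s‖ := by
    intro s hs
    refine le_trans ?_ (hlin s hs)
    rw [hA']
    show ‖(Complex.I / 2) * conj (EP m s) * (G s * ((1 / (4 * s ^ 4) : ℝ) : ℂ) + 2 * K s)‖ ≤ _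
    rw [norm_mul, norm_mul, RCLike.norm_conj, norm_div, Complex.norm_I, Complex.norm_ofNat]
    exact mul_le_mul_of_nonneg_right
      (mul_le_mul_of_nonneg_left (hEn s hs) (by norm_num)) (norm_nonneg _)
  have hB'n : ∀ s ∈ Icc a el, ‖B' s‖ ≤ e ^ 2 * Sb / (8 * a ^ 4 * m) + e / q * ‖K s‖ := by
    intro s hs
    refine le_trans ?_ (hlin s hs)
    rw [hB']
    show ‖-(Complex.I / 2) * EP m s * (G s * ((1 / (4 * s ^ 4) : ℝ) : ℂ) + 2 * K s)‖ ≤ _
    rw [norm_mul, norm_mul, norm_neg, norm_div, Complex.norm_I, Complex.norm_ofNat]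
    exact mul_le_mul_of_nonneg_right
      (mul_le_mul_of_nonneg_left (hEn s hs) (by norm_num)) (norm_nonneg _)
  have hgc : ContinuousOn (fun s => e ^ 2 * Sb / (8 * a ^ 4 * m) + e / q * ‖K s‖) (Icc a el) :=
    continuousOn_const.add (continuousOn_const.mul hKc.norm)
  obtain ⟨D, hD⟩ : ∃ D, D = e ^ 2 * Sb / (8 * a ^ 4 * m) + e / q * k := ⟨_, rfl⟩
  have hD0 : 0 ≤ D := by rw [hD]; positivity
  have hKn0 : IntervalIntegrable (fun s => ‖K s‖) volume 0 a :=
    (hODE.kc.norm.mono (Icc_subset_Icc_right hab)).intervalIntegrable_of_Icc hap.le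
  have hKn1 : IntervalIntegrable (fun s => ‖K s‖) volume a el :=
    hKc.norm.intervalIntegrable_of_Icc hab
  have hgD : ∫ s in a..el, (e ^ 2 * Sb / (8 * a ^ 4 * m) + e / q * ‖K s‖) ≤ D := by
    rw [intervalIntegral.integral_add intervalIntegrable_const (hKn1.const_mul _),
      intervalIntegral.integral_const_mul, intervalIntegral.integral_const, smul_eq_mul]
    have h1 : (el - a) * (e ^ 2 * Sb / (8 * a ^ 4 * m)) ≤ e ^ 2 * Sb / (8 * a ^ 4 * m) := by
      have h2 : el - a ≤ 1 := by rw [ha32, hel]; norm_num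
      have h3 : 0 ≤ e ^ 2 * Sb / (8 * a ^ 4 * m) := by positivity
      nlinarith
    have h4 : ∫ s in a..el, ‖K s‖ ≤ k := by
      have h5 := intervalIntegral.integral_add_adjacent_intervals hKn0 hKn1
      have h6 : 0 ≤ ∫ s in (0:ℝ)..a, ‖K s‖ :=
        intervalIntegral.integral_nonneg hap.le (fun s _ => norm_nonneg _)
      have h7 := b_cs (fun s => ‖K s‖) hODE.kc.norm (fun s _ => norm_nonneg _)
      rw [← hk] at h7
      linarith
    have h8 : e / q * ∫ s in a..el, ‖K s‖ ≤ e / q * k :=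
      mul_le_mul_of_nonneg_left h4 (by positivity)
    rw [hD]
    linarith
  have hBvar : ∀ s ∈ Icc a el, ‖B el - B s‖ ≤ D := fun s hs =>
    (b_var a el B B' hBd hB'c _ hgc hB'n s hs).trans hgD
  -- the oscillating factor
  obtain ⟨e2, he2⟩ : ∃ e2 : ℝ → ℂ, e2 = fun s =>
    Complex.exp (2 * Complex.I * ((m * T s : ℝ) : ℂ)) := ⟨_, rfl⟩
  have he2n : ∀ s, ‖e2 s‖ = 1 := by
    intro s
    rw [he2]
    have : 2 * Complex.I * ((m * T s : ℝ) : ℂ) = ((2 * (m * T s) : ℝ) : ℂ) * Complex.I := by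
      push_cast
      ring
    show ‖Complex.exp (2 * Complex.I * ((m * T s : ℝ) : ℂ))‖ = 1
    rw [this]
    exact Complex.norm_exp_ofReal_mul_I _
  have he2c : Continuous e2 := by
    rw [he2]
    have := b_Tc
    fun_prop
  have he2d : ∀ s, 0 < s → HasDerivAt e2
      (e2 s * (2 * Complex.I * ((m * (T s / s ^ 2) : ℝ) : ℂ))) s := by
    intro s hs
    rw [he2]
    exact (((b_Td s hs).const_mul (m : ℝ)).ofReal_comp.const_mul (2 * Complex.I)).cexp
  have hψT : ∀ s ∈ Icc a el, ψ s * (T s / s ^ 2) = h s := by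
    intro s hs
    have h1 := hpos s hs
    rw [hψ, hh, b_T s h1]
    show χ s * (s ^ 3 * Real.exp (3 / (2 * s))) * (Real.exp (-s⁻¹) / s ^ 2) =
      χ s * (s * Real.exp (1 / (2 * s)))
    have h2 : Real.exp (1 / (2 * s)) = Real.exp (3 / (2 * s)) * Real.exp (-s⁻¹) := by
      rw [← Real.exp_add]
      congr 1
      field_simp
      ring
    rw [h2]
    field_simp
  -- integration by parts
  have hPd : ∀ s ∈ Icc a el, HasDerivAt (fun s => (ψ s : ℂ) * A s * e2 s)
      ((((ψ' s : ℂ) * A s + (ψ s : ℂ) * A' s) * e2 s) +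
        2 * Complex.I * m * ((h s : ℂ) * (A s * e2 s))) s := by
    intro s hs
    have h1 := (((hψd' s (hpos s hs)).ofReal_comp).mul (hAd s hs)).mul (he2d s (hpos s hs))
    refine h1.congr_deriv ?_
    rw [← hψT s hs]
    simp only [Pi.mul_apply]
    push_cast
    ring
  have hc1 : ContinuousOn (fun s => ((ψ' s : ℂ) * A s + (ψ s : ℂ) * A' s) * e2 s) (Icc a el) :=
    (((Complex.continuous_ofReal.comp_continuousOn hψ'c).mul hAc).add
      ((Complex.continuous_ofReal.comp_continuousOn hψc).mul hA'c)).mul he2c.continuousOn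
  have hc2 : ContinuousOn (fun s => (h s : ℂ) * (A s * e2 s)) (Icc a el) :=
    (Complex.continuous_ofReal.comp_continuousOn hhc).mul (hAc.mul he2c.continuousOn)
  have hc3 : ContinuousOn (fun s => (h s : ℂ) * B s) (Icc a el) :=
    (Complex.continuous_ofReal.comp_continuousOn hhc).mul hBc
  have hi1 := hc1.intervalIntegrable_of_Icc (μ := volume) hab
  have hi2 := hc2.intervalIntegrable_of_Icc (μ := volume) hab
  have hi3 := hc3.intervalIntegrable_of_Icc (μ := volume) hab
  have hψa : ψ a = 0 := by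
    rw [hψ]
    show χ a * _ = 0
    rw [hχ0 a (fun h' => lt_irrefl _ h'.1), zero_mul]
  have hψb : ψ el = 0 := by
    rw [hψ]
    show χ el * _ = 0
    rw [hχ0 el (fun h' => lt_irrefl _ h'.2), zero_mul]
  have hparts : (∫ s in a..el, ((ψ' s : ℂ) * A s + (ψ s : ℂ) * A' s) * e2 s) +
      2 * Complex.I * m * (∫ s in a..el, (h s : ℂ) * (A s * e2 s)) = 0 := by
    have h1 := intervalIntegral.integral_eq_sub_of_hasDerivAt (a := a) (b := el)
      (f := fun s => (ψ s : ℂ) * A s * e2 s)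
      (fun s hs => hPd s (by rwa [uIcc_of_le hab] at hs)) (hi1.add (hi2.const_mul _))
    rw [intervalIntegral.integral_add hi1 (hi2.const_mul _),
      intervalIntegral.integral_const_mul] at h1
    rw [h1, hψa, hψb]
    simp
  have hI2 : ‖∫ s in a..el, (h s : ℂ) * (A s * e2 s)‖ ≤ (1 / (2 * m)) * (P1 * Sb + P0 * D) := by
    have h1 : ‖∫ s in a..el, ((ψ' s : ℂ) * A s + (ψ s : ℂ) * A' s) * e2 s‖ ≤
        P1 * Sb + P0 * D := by
      calc ‖∫ s in a..el, ((ψ' s : ℂ) * A s + (ψ s : ℂ) * A' s) * e2 s‖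
          ≤ ∫ s in a..el, ‖((ψ' s : ℂ) * A s + (ψ s : ℂ) * A' s) * e2 s‖ :=
            intervalIntegral.norm_integral_le_integral_norm hab
        _ ≤ ∫ s in a..el, (P1 * Sb + P0 * (e ^ 2 * Sb / (8 * a ^ 4 * m) + e / q * ‖K s‖)) := by
            apply intervalIntegral.integral_mono_on hab
            · exact hc1.norm.intervalIntegrable_of_Icc hab
            · exact (continuousOn_const.add (continuousOn_const.mul hgc)).intervalIntegrable_of_Icc
                hab
            · intro s hs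
              rw [norm_mul, he2n, mul_one]
              refine (norm_add_le _ _).trans ?_
              rw [norm_mul, norm_mul, Complex.norm_real, Complex.norm_real]
              have h2 : ‖A s‖ ≤ Sb := by
                have := hAB s hs
                have h3 := norm_nonneg (B s)
                linarith
              exact add_le_add (mul_le_mul (hP1 s hs) h2 (norm_nonneg _) hP10)
                (mul_le_mul (hP0 s hs) (hA'n s hs) (norm_nonneg _) hP00)
        _ = (el - a) * (P1 * Sb) +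
            P0 * ∫ s in a..el, (e ^ 2 * Sb / (8 * a ^ 4 * m) + e / q * ‖K s‖) := by
            rw [intervalIntegral.integral_add intervalIntegrable_const
              ((hgc.intervalIntegrable_of_Icc hab).const_mul _),
              intervalIntegral.integral_const, intervalIntegral.integral_const_mul, smul_eq_mul]
        _ ≤ P1 * Sb + P0 * D := by
            have h2 : el - a ≤ 1 := by rw [ha32, hel]; norm_num
            have h3 : 0 ≤ P1 * Sb := mul_nonneg hP10 hSb0
            have h4 := mul_le_mul_of_nonneg_left hgD hP00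
            nlinarith
    have h2 : 2 * Complex.I * m * (∫ s in a..el, (h s : ℂ) * (A s * e2 s)) =
        -(∫ s in a..el, ((ψ' s : ℂ) * A s + (ψ s : ℂ) * A' s) * e2 s) := by
      linear_combination hparts
    have h3 := congrArg norm h2
    rw [norm_neg, norm_mul, norm_mul, norm_mul, Complex.norm_I, Complex.norm_ofNat,
      Complex.norm_natCast] at h3
    have h4 : 2 * 1 * (m:ℝ) * ‖∫ s in a..el, (h s : ℂ) * (A s * e2 s)‖ ≤ P1 * Sb + P0 * D := by
      rw [h3]; exact h1
    rw [one_div, inv_mul_eq_div, le_div_iff₀ (by positivity)]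
    linarith
  -- the decomposition
  have hF : (q : ℂ) * ∫ s in (0 : ℝ)..el,
      (χ s : ℂ) * Complex.exp (Complex.I * ((m * T s : ℝ) : ℂ)) * G s =
      (∫ s in a..el, (h s : ℂ) * (A s * e2 s)) + ∫ s in a..el, (h s : ℂ) * B s := by
    have hcF : ContinuousOn (fun s => (χ s : ℂ) * Complex.exp (Complex.I * ((m * T s : ℝ) : ℂ)) * G s)
        (Icc 0 el) := by
      have h1 : Continuous (fun s => (χ s : ℂ) * Complex.exp (Complex.I * ((m * T s : ℝ) : ℂ))) := by
        have := b_Tc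
        fun_prop
      exact h1.continuousOn.mul hGc0
    have h1 := intervalIntegral.integral_add_adjacent_intervals
      ((hcF.mono (Icc_subset_Icc_right hab)).intervalIntegrable_of_Icc (μ := volume) hap.le)
      ((hcF.mono hsub0).intervalIntegrable_of_Icc (μ := volume) hab)
    have h2 : ∫ s in (0:ℝ)..a, (χ s : ℂ) * Complex.exp (Complex.I * ((m * T s : ℝ) : ℂ)) * G s
        = 0 := by
      rw [intervalIntegral.integral_congr (g := fun _ => (0:ℂ))
        (fun s hs => by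
          show (χ s : ℂ) * Complex.exp (Complex.I * ((m * T s : ℝ) : ℂ)) * G s = 0
          rw [hzero s hs]; simp)]
      simp
    rw [← h1, h2, zero_add, ← intervalIntegral.integral_const_mul,
      ← intervalIntegral.integral_add hi2 hi3]
    apply intervalIntegral.integral_congr
    intro s hs
    rw [uIcc_of_le hab] at hs
    show (q : ℂ) * ((χ s : ℂ) * Complex.exp (Complex.I * ((m * T s : ℝ) : ℂ)) * G s) =
      (h s : ℂ) * (A s * e2 s) + (h s : ℂ) * B s
    rw [hGdec s hs, hh, he2]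
    show (q : ℂ) * ((χ s : ℂ) * Complex.exp (Complex.I * ((m * T s : ℝ) : ℂ)) *
      (A s * EP m s + B s * conj (EP m s))) =
      ((χ s * (s * Real.exp (1 / (2 * s))) : ℝ) : ℂ) *
        (A s * Complex.exp (2 * Complex.I * ((m * T s : ℝ) : ℂ))) +
      ((χ s * (s * Real.exp (1 / (2 * s))) : ℝ) : ℂ) * B s
    have hq' : Real.sqrt m = q := hq.symm
    unfold EP
    rw [hq']
    have e1 : conj (((s * Real.exp (1 / (2 * s)) / q : ℝ) : ℂ) *
        Complex.exp (Complex.I * ((m * T s : ℝ) : ℂ))) =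
        ((s * Real.exp (1 / (2 * s)) / q : ℝ) : ℂ) *
        Complex.exp (-(Complex.I * ((m * T s : ℝ) : ℂ))) := by
      rw [map_mul, Complex.conj_ofReal, ← Complex.exp_conj, map_mul, Complex.conj_I,
        Complex.conj_ofReal, neg_mul]
    rw [e1]
    have e3 : Complex.exp (2 * Complex.I * ((m * T s : ℝ) : ℂ)) =
        Complex.exp (Complex.I * ((m * T s : ℝ) : ℂ)) *
        Complex.exp (Complex.I * ((m * T s : ℝ) : ℂ)) := by
      rw [← Complex.exp_add]
      congr 1
      ring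
    have e4 : Complex.exp (Complex.I * ((m * T s : ℝ) : ℂ)) *
        Complex.exp (-(Complex.I * ((m * T s : ℝ) : ℂ))) = 1 := by
      rw [← Complex.exp_add, add_neg_cancel, Complex.exp_zero]
    rw [e3]
    have hqc0 : (q : ℂ) ≠ 0 := by exact_mod_cast hq0.ne'
    have e5 : (q : ℂ) * ((s * Real.exp (1 / (2 * s)) / q : ℝ) : ℂ) =
        ((s * Real.exp (1 / (2 * s)) : ℝ) : ℂ) := by
      push_cast
      field_simp
    have e6 : ((χ s * (s * Real.exp (1 / (2 * s))) : ℝ) : ℂ) =
        (χ s : ℂ) * ((s * Real.exp (1 / (2 * s)) : ℝ) : ℂ) := by push_cast; ring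
    rw [e6, ← e5]
    linear_combination (q * (χ s : ℂ) * ((s * Real.exp (1 / (2 * s)) / q : ℝ) : ℂ) * B s) * e4
  have hI1 : ‖B el * H - ∫ s in a..el, (h s : ℂ) * B s‖ ≤ D * H := by
    have h1 : B el * H - ∫ s in a..el, (h s : ℂ) * B s =
        ∫ s in a..el, (h s : ℂ) * (B el - B s) := by
      have h2 : (H : ℂ) = ∫ s in a..el, (h s : ℂ) := by
        rw [hH]
        exact (intervalIntegral.integral_ofReal).symm
      have hi4 : IntervalIntegrable (fun s => (h s : ℂ)) volume a el :=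
        (Complex.continuous_ofReal.comp_continuousOn hhc).intervalIntegrable_of_Icc hab
      rw [h2, ← intervalIntegral.integral_const_mul,
        ← intervalIntegral.integral_sub (hi4.const_mul _) hi3]
      apply intervalIntegral.integral_congr
      intro s _
      show B el * (h s : ℂ) - (h s : ℂ) * B s = (h s : ℂ) * (B el - B s)
      ring
    rw [h1]
    calc ‖∫ s in a..el, (h s : ℂ) * (B el - B s)‖
        ≤ ∫ s in a..el, ‖(h s : ℂ) * (B el - B s)‖ :=
          intervalIntegral.norm_integral_le_integral_norm hab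
      _ ≤ ∫ s in a..el, D * h s := by
          apply intervalIntegral.integral_mono_on hab
          · have h3 : ContinuousOn (fun s => (h s : ℂ) * (B el - B s)) (Icc a el) :=
              (Complex.continuous_ofReal.comp_continuousOn hhc).mul (continuousOn_const.sub hBc)
            exact h3.norm.intervalIntegrable_of_Icc hab
          · exact hhi.const_mul _
          · intro s hs
            rw [norm_mul, Complex.norm_real, Real.norm_of_nonneg (hh0 s hs), mul_comm]
            exact mul_le_mul_of_nonneg_right (hBvar s hs) (hh0 s hs)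
      _ = D * H := by rw [intervalIntegral.integral_const_mul, hH]
  obtain ⟨F, hFd⟩ : ∃ F : ℂ, F = ∫ s in (0 : ℝ)..el,
      (χ s : ℂ) * Complex.exp (Complex.I * ((m * T s : ℝ) : ℂ)) * G s := ⟨_, rfl⟩
  rw [← hFd] at hF
  have hmain : ‖B el‖ * H ≤ q * ‖F‖ + (1 / (2 * m)) * (P1 * Sb + P0 * D) + D * H := by
    have h1 : B el * H = (B el * H - ∫ s in a..el, (h s : ℂ) * B s) +
        (q * F - ∫ s in a..el, (h s : ℂ) * (A s * e2 s)) := by
      rw [hF]; ring
    have h2 : ‖B el‖ * H = ‖B el * (H:ℂ)‖ := by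
      rw [norm_mul, Complex.norm_real, Real.norm_of_nonneg hHpos.le]
    rw [h2, h1]
    refine (norm_add_le _ _).trans ?_
    have h3 := norm_sub_le ((q:ℂ) * F) (∫ s in a..el, (h s : ℂ) * (A s * e2 s))
    rw [norm_mul, Complex.norm_real, Real.norm_of_nonneg hq0.le] at h3
    linarith
  obtain ⟨R, hR⟩ : ∃ R, R = M / m + k / q := ⟨_, rfl⟩
  have hR0 : 0 ≤ R := by rw [hR]; positivity
  have hkqm : k / q / m ≤ k / q := div_le_self (by positivity) hm1
  have hSm : Sb / m ≤ C1 * R := by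
    have h1 : Sb / m = C1 * (M / m + k / q / m) := by rw [hSb]; ring
    rw [h1, hR]
    exact mul_le_mul_of_nonneg_left (by linarith) hC1.le
  have hDR : D ≤ CD * R := by
    have h1 : e ^ 2 * Sb / (8 * a ^ 4 * m) = e ^ 2 / (8 * a ^ 4) * (Sb / m) := by
      rw [div_mul_div_comm]
    have h2 : e ^ 2 / (8 * a ^ 4) * (Sb / m) ≤ e ^ 2 / (8 * a ^ 4) * (C1 * R) :=
      mul_le_mul_of_nonneg_left hSm (by positivity)
    have h3 : e / q * k ≤ e * R := by
      have h4 : e / q * k = e * (k / q) := by ring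
      rw [h4]
      apply mul_le_mul_of_nonneg_left _ hepos.le
      rw [hR]
      have : 0 ≤ M / m := by positivity
      linarith
    rw [hD, h1, hCD]
    calc _ ≤ e ^ 2 / (8 * a ^ 4) * (C1 * R) + e * R := by linarith
      _ = _ := by ring
  have hDm : D / m ≤ CD * R := (div_le_self hD0 hm1).trans hDR
  have h2m : (1 / (2 * m)) * (P1 * Sb + P0 * D) ≤ (1 / 2) * (P1 * C1 + P0 * CD) * R := by
    have h1 : (1 / (2 * (m:ℝ))) * (P1 * Sb + P0 * D) = (1 / 2) * (P1 * (Sb / m) + P0 * (D / m)) := by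
      field_simp
    rw [h1]
    have h2 := mul_le_mul_of_nonneg_left hSm hP10
    have h3 := mul_le_mul_of_nonneg_left hDm hP00
    calc _ ≤ (1 / 2) * (P1 * (C1 * R) + P0 * (CD * R)) := by linarith
      _ = _ := by ring
  have hgoal : ‖cB m el (G el) (G1 el)‖ = ‖B el‖ := by rw [hB]
  rw [← hFd, ← hM, ← hk, ← hq, hgoal]
  have hHi : 0 < 1 / H := by positivity
  have hB1 : ‖B el‖ ≤ 1 / H * (q * ‖F‖ + (1 / 2) * (P1 * C1 + P0 * CD) * R) + CD * R := by
    have h1 : ‖B el‖ * H ≤ (q * ‖F‖ + (1 / 2) * (P1 * C1 + P0 * CD) * R) + (CD * R) * H := by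
      have h2 := mul_le_mul_of_nonneg_right hDR hHpos.le
      linarith
    have h3 : ‖B el‖ ≤ ((q * ‖F‖ + (1 / 2) * (P1 * C1 + P0 * CD) * R) + (CD * R) * H) / H := by
      rw [le_div_iff₀ hHpos]
      exact h1
    refine h3.trans (le_of_eq ?_)
    field_simp
  have hqF : 0 ≤ q * ‖F‖ := by positivity
  have hX : 0 ≤ (1 / H) * (1 / 2) * (P1 * C1 + P0 * CD) := by positivity
  have hfinal : q * ‖F‖ + M / m + k / q = q * ‖F‖ + R := by rw [hR]; ring
  rw [hfinal]
  refine hB1.trans ?_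
  have t1 : 0 ≤ 1 / H * R := by positivity
  have t2 : 0 ≤ (1 / H) * (1 / 2) * (P1 * C1 + P0 * CD) * (q * ‖F‖) := mul_nonneg hX hqF
  have t3 : 0 ≤ CD * (q * ‖F‖) := mul_nonneg hCDpos.le hqF
  nlinarith

end N_b_est

end Pool.Agent.Helper459.SK
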