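import Mathlib
import Pool.Agent.Helper459.SK.Defs

set_option autoImplicit false

noncomputable section

open MeasureTheory Set Filter Topology
open scoped ContDiff ComplexConjugate

namespace Pool.Agent.Helper459.SK

namespace N_ps


theorem ps (a : ℕ → ℝ) (C : ℝ) (ha : ∀ k, |a k| ≤ C / (k.factorial : ℝ)) (X : ℝ) :
    HasDerivAt (fun X : ℝ => ∑' k : ℕ, a k * X ^ k) (∑' k : ℕ, ((k : ℝ) + 1) * a (k + 1) * X ^ k) X := by
  have hR : (0 : ℝ) < |X| + 1 := by positivity
  set r : ℝ := |X| + 1 with hr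
  set u : ℕ → ℝ := fun n => C / (n.factorial : ℝ) * ((n : ℝ) * r ^ (n - 1)) with hu
  have hC : 0 ≤ C := by
    have h := (abs_nonneg _).trans (ha 0)
    simpa using h
  have hus : Summable u := by
    rw [← summable_nat_add_iff 1]
    have h1 : Summable fun n : ℕ => C * (r ^ n / (n.factorial : ℝ)) :=
      (Real.summable_pow_div_factorial r).mul_left C
    refine h1.congr fun n => ?_
    simp only [hu, Nat.add_sub_cancel, Nat.factorial_succ]
    have h2 : (n.factorial : ℝ) ≠ 0 := by positivity
    have h3 : ((n : ℝ) + 1) ≠ 0 := by positivity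
    push_cast
    field_simp
  have hball : X ∈ Metric.ball (0 : ℝ) r := by
    rw [Metric.mem_ball, dist_zero_right, Real.norm_eq_abs]
    linarith
  have hbd : ∀ (n : ℕ) (y : ℝ), y ∈ Metric.ball (0 : ℝ) r → ‖a n * ((n : ℝ) * y ^ (n - 1))‖ ≤ u n := by
    intro n y hy
    rw [Metric.mem_ball, dist_zero_right, Real.norm_eq_abs] at hy
    rw [norm_mul, norm_mul, norm_pow, Real.norm_eq_abs, Real.norm_eq_abs, Real.norm_eq_abs,
      abs_of_nonneg (Nat.cast_nonneg n : (0 : ℝ) ≤ (n : ℝ))]
    apply mul_le_mul (ha n) _ (by positivity) (by positivity)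
    apply mul_le_mul_of_nonneg_left _ (Nat.cast_nonneg n)
    exact pow_le_pow_left₀ (abs_nonneg y) hy.le _
  have key := hasDerivAt_tsum_of_isPreconnected (g := fun n y => a n * y ^ n)
    (g' := fun n y => a n * ((n : ℝ) * y ^ (n - 1))) hus (Metric.isOpen_ball (x := (0 : ℝ)) (ε := r))
    (convex_ball (0 : ℝ) r).isPreconnected (fun n y _ => (hasDerivAt_pow n y).const_mul (a n)) hbd
    (Metric.mem_ball_self hR) (by
      apply summable_of_ne_finset_zero (s := {0})
      intro b hb
      have : b ≠ 0 := by simpa using hb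
      simp [this]) hball
  have hsum : Summable fun n => a n * ((n : ℝ) * X ^ (n - 1)) :=
    Summable.of_norm_bounded hus (fun n => hbd n X hball)
  have e : ∑' n, a n * ((n : ℝ) * X ^ (n - 1)) = ∑' k : ℕ, ((k : ℝ) + 1) * a (k + 1) * X ^ k := by
    rw [hsum.tsum_eq_zero_add]
    simp only [Nat.cast_zero, zero_mul, mul_zero, zero_add]
    refine tsum_congr fun k => ?_
    rw [Nat.add_sub_cancel]
    push_cast
    ring
  rw [← e]
  exact key


end N_ps

end Pool.Agent.Helper459.SK
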