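import Mathlib
import Pool.Agent.Helper459.SK.Defs
import Pool.Agent.Helper459.SK.L_ps

set_option autoImplicit false

noncomputable section

open MeasureTheory Set Filter Topology
open scoped ContDiff ComplexConjugate

namespace Pool.Agent.Helper459.SK
open N_ps

namespace N_bessel

theorem bessel_summ (a : ℕ → ℝ) (C : ℝ) (ha : ∀ k, |a k| ≤ C / (k.factorial : ℝ)) (X : ℝ) :
    Summable (fun k : ℕ => a k * X ^ k) := by
  apply Summable.of_norm_bounded (g := fun k : ℕ => C * (|X| ^ k / (k.factorial : ℝ)))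
    ((Real.summable_pow_div_factorial |X|).mul_left C)
  intro k
  rw [norm_mul, norm_pow, Real.norm_eq_abs, Real.norm_eq_abs]
  calc |a k| * |X| ^ k ≤ C / (k.factorial : ℝ) * |X| ^ k :=
        mul_le_mul_of_nonneg_right (ha k) (by positivity)
    _ = C * (|X| ^ k / (k.factorial : ℝ)) := by ring

theorem bessel_shift (a : ℕ → ℝ) (C : ℝ) (ha : ∀ k : ℕ, |(k : ℝ) * a k| ≤ C / (k.factorial : ℝ))
    (X : ℝ) : ∑' k : ℕ, ((k : ℝ) * a k) * X ^ k =
      X * ∑' k : ℕ, ((k : ℝ) + 1) * a (k + 1) * X ^ k := by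
  rw [(bessel_summ _ C ha X).tsum_eq_zero_add, ← tsum_mul_left]
  simp only [Nat.cast_zero, zero_mul, zero_add]
  apply tsum_congr
  intro k
  push_cast
  ring

theorem bessel_bound (b : ℕ → ℝ) (C : ℝ) (hb : ∀ k, |b k| ≤ C / (k.factorial : ℝ)) (X : ℝ)
    (h0 : 0 < X) (h1 : X ≤ 1) : |∑' k : ℕ, b k * X ^ k - b 0| ≤
      C * (∑' k : ℕ, (1 : ℝ) ^ k / (k.factorial : ℝ)) * X := by
  have hC : 0 ≤ C := by
    have := (abs_nonneg _).trans (hb 0)
    simpa using this
  rw [(bessel_summ b C hb X).tsum_eq_zero_add, pow_zero, mul_one, add_sub_cancel_left]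
  have hs : Summable (fun k : ℕ => C * X * ((1 : ℝ) ^ k / (k.factorial : ℝ))) :=
    (Real.summable_pow_div_factorial 1).mul_left _
  have h2 := tsum_of_norm_bounded (f := fun k : ℕ => b (k + 1) * X ^ (k + 1)) hs.hasSum (by
    intro k
    rw [norm_mul, norm_pow, Real.norm_eq_abs, Real.norm_eq_abs, abs_of_pos h0]
    have h3 : X ^ (k + 1) ≤ X := by
      rw [pow_succ]
      have := pow_le_one₀ h0.le h1 (n := k)
      nlinarith
    have h4 : |b (k + 1)| ≤ C / (k.factorial : ℝ) := by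
      refine (hb (k + 1)).trans ?_
      apply div_le_div_of_nonneg_left hC (by positivity)
      exact_mod_cast Nat.factorial_le (Nat.le_succ k)
    calc |b (k + 1)| * X ^ (k + 1) ≤ C / (k.factorial : ℝ) * X :=
          mul_le_mul h4 h3 (by positivity) (by positivity)
      _ = C * X * ((1 : ℝ) ^ k / (k.factorial : ℝ)) := by
          rw [one_pow]
          ring)
  rw [tsum_mul_left, Real.norm_eq_abs] at h2
  calc |∑' k : ℕ, b (k + 1) * X ^ (k + 1)| ≤
        C * X * ∑' k : ℕ, (1 : ℝ) ^ k / (k.factorial : ℝ) := h2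
    _ = C * (∑' k : ℕ, (1 : ℝ) ^ k / (k.factorial : ℝ)) * X := by ring

/-- coefficients -/
def bessel_a (k : ℕ) : ℝ := (-1) ^ k / (k.factorial : ℝ) ^ 2

/-- harmonic numbers -/
def bessel_s (k : ℕ) : ℝ := ∑ i ∈ Finset.range k, 1 / ((i : ℝ) + 1)

theorem bessel_a_bound (k : ℕ) (t : ℝ) (h0 : 0 ≤ t) (h1 : t ≤ 2 * (k.factorial : ℝ)) :
    |t * bessel_a k| ≤ 2 / (k.factorial : ℝ) := by
  have hf : (0 : ℝ) < (k.factorial : ℝ) := by exact_mod_cast Nat.factorial_pos k
  unfold bessel_a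
  rw [abs_mul, abs_div, abs_pow, abs_neg, abs_one, one_pow, abs_of_nonneg h0,
    abs_of_pos (by positivity), mul_one_div, div_le_div_iff₀ (by positivity) hf]
  nlinarith

theorem bessel_sq (k : ℕ) : k ^ 2 ≤ 2 * k.factorial := by
  induction k with
  | zero => simp
  | succ k ih =>
    rw [Nat.factorial_succ]
    have h1 : k + 1 ≤ 2 * k.factorial := by
      have h2 := Nat.self_le_factorial k
      have h3 := Nat.factorial_pos k
      omega
    nlinarith

theorem bessel_s_nonneg (k : ℕ) : 0 ≤ bessel_s k :=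
  Finset.sum_nonneg fun i _ => by positivity

theorem bessel_s_le (k : ℕ) : bessel_s k ≤ k := by
  unfold bessel_s
  calc ∑ i ∈ Finset.range k, 1 / ((i : ℝ) + 1) ≤ ∑ i ∈ Finset.range k, (1 : ℝ) := by
        apply Finset.sum_le_sum
        intro i _
        rw [div_le_one (by positivity)]
        have : (0 : ℝ) ≤ i := Nat.cast_nonneg i
        linarith
    _ = k := by simp

theorem bessel_rec (k : ℕ) : ((k : ℝ) + 1) * (((k : ℝ) + 1) * bessel_a (k + 1)) = -bessel_a k := by
  have hf : (0 : ℝ) < (k.factorial : ℝ) := by exact_mod_cast Nat.factorial_pos k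
  have hk : (0 : ℝ) < (k : ℝ) + 1 := by positivity
  unfold bessel_a
  rw [Nat.factorial_succ, pow_succ]
  push_cast
  field_simp

theorem bessel_s_succ (k : ℕ) : bessel_s (k + 1) = bessel_s k + 1 / ((k : ℝ) + 1) := by
  unfold bessel_s
  rw [Finset.sum_range_succ]

theorem bessel_rec2 (k : ℕ) :
    ((k : ℝ) + 1) * (((k : ℝ) + 1) * (bessel_s (k + 1) * bessel_a (k + 1))) =
      ((k : ℝ) + 1) * bessel_a (k + 1) - bessel_s k * bessel_a k := by
  have hk : ((k : ℝ) + 1) ≠ 0 := by positivity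
  have h1 : bessel_a k = -(((k : ℝ) + 1) * (((k : ℝ) + 1) * bessel_a (k + 1))) := by
    rw [bessel_rec]
    ring
  rw [h1, bessel_s_succ]
  field_simp
  ring

theorem bessel : ∃ (J J1 R R1 : ℝ → ℝ) (C : ℝ), Bes J J1 R R1 C := by
  have ha : ∀ k : ℕ, |bessel_a k| ≤ 2 / (k.factorial : ℝ) := by
    intro k
    have h := bessel_a_bound k 1 zero_le_one (by
      have : (1 : ℝ) ≤ (k.factorial : ℝ) := by exact_mod_cast Nat.factorial_pos k
      linarith)
    rwa [one_mul] at h
  have hself : ∀ k : ℕ, (k : ℝ) ≤ (k.factorial : ℝ) := fun k => by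
    exact_mod_cast Nat.self_le_factorial k
  have hfpos : ∀ k : ℕ, (0 : ℝ) < (k.factorial : ℝ) := fun k => by
    exact_mod_cast Nat.factorial_pos k
  have hka : ∀ k : ℕ, |(k : ℝ) * bessel_a k| ≤ 2 / (k.factorial : ℝ) := by
    intro k
    exact bessel_a_bound k k (Nat.cast_nonneg k) (by linarith [hself k, hfpos k])
  have hr : ∀ k : ℕ, |bessel_s k * bessel_a k| ≤ 2 / (k.factorial : ℝ) := by
    intro k
    exact bessel_a_bound k _ (bessel_s_nonneg k) (by linarith [hself k, hfpos k, bessel_s_le k])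
  have hkr : ∀ k : ℕ, |(k : ℝ) * (bessel_s k * bessel_a k)| ≤ 2 / (k.factorial : ℝ) := by
    intro k
    rw [← mul_assoc]
    apply bessel_a_bound k _ (mul_nonneg (Nat.cast_nonneg k) (bessel_s_nonneg k))
    have h1 : (k : ℝ) ^ 2 ≤ 2 * (k.factorial : ℝ) := by exact_mod_cast bessel_sq k
    have h2 : (k : ℝ) * bessel_s k ≤ k * k :=
      mul_le_mul_of_nonneg_left (bessel_s_le k) (Nat.cast_nonneg k)
    nlinarith
  have hdiv : ∀ (a : ℕ → ℝ), (∀ k : ℕ, |(k : ℝ) * a k| ≤ 2 / (k.factorial : ℝ)) → ∀ X : ℝ, 0 < X →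
      (∑' k : ℕ, ((k : ℝ) * a k) * X ^ k) / X = ∑' k : ℕ, ((k : ℝ) + 1) * a (k + 1) * X ^ k := by
    intro a hab X hX
    rw [bessel_shift a 2 hab X, mul_div_cancel_left₀ _ hX.ne']
  have hsa : ∀ X : ℝ, Summable (fun k : ℕ => bessel_a k * X ^ k) := bessel_summ _ 2 ha
  have hsr : ∀ X : ℝ, Summable (fun k : ℕ => (bessel_s k * bessel_a k) * X ^ k) :=
    bessel_summ _ 2 hr
  have hshift : ∀ X : ℝ, Summable (fun k : ℕ => ((k : ℝ) + 1) * bessel_a (k + 1) * X ^ k) := by
    intro X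
    apply bessel_summ (fun k : ℕ => ((k : ℝ) + 1) * bessel_a (k + 1)) 2
    intro k
    have h1 := hka (k + 1)
    push_cast at h1
    refine h1.trans ?_
    apply div_le_div_of_nonneg_left (by norm_num) (hfpos k)
    exact_mod_cast Nat.factorial_le (Nat.le_succ k)
  refine ⟨fun X => ∑' k : ℕ, bessel_a k * X ^ k, fun X => ∑' k : ℕ, ((k : ℝ) * bessel_a k) * X ^ k,
    fun X => ∑' k : ℕ, (bessel_s k * bessel_a k) * X ^ k,
    fun X => ∑' k : ℕ, ((k : ℝ) * (bessel_s k * bessel_a k)) * X ^ k,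
    2 * (∑' k : ℕ, (1 : ℝ) ^ k / (k.factorial : ℝ)), ?_, ?_, ?_, ?_, ?_, ?_, ?_, ?_⟩
  · intro X hX
    have h := ps bessel_a 2 ha X
    rw [← hdiv bessel_a hka X hX] at h
    exact h
  · intro X _
    have h := ps (fun k : ℕ => (k : ℝ) * bessel_a k) 2 hka X
    have h1 : ∑' k : ℕ, ((k : ℝ) + 1) * (((k + 1 : ℕ) : ℝ) * bessel_a (k + 1)) * X ^ k =
        -∑' k : ℕ, bessel_a k * X ^ k := by
      rw [← tsum_neg]
      apply tsum_congr
      intro k
      push_cast
      rw [bessel_rec]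
      ring
    rw [h1] at h
    exact h
  · intro X hX
    have h := ps (fun k => bessel_s k * bessel_a k) 2 hr X
    have h2 := hdiv (fun k => bessel_s k * bessel_a k) hkr X hX
    rw [← h2] at h
    exact h
  · intro X hX
    have h := ps (fun k : ℕ => (k : ℝ) * (bessel_s k * bessel_a k)) 2 hkr X
    have h1 : ∑' k : ℕ, ((k : ℝ) + 1) * (((k + 1 : ℕ) : ℝ) * (bessel_s (k + 1) * bessel_a (k + 1))) *
        X ^ k = (∑' k : ℕ, ((k : ℝ) * bessel_a k) * X ^ k) / X -
          ∑' k : ℕ, (bessel_s k * bessel_a k) * X ^ k := by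
      rw [hdiv bessel_a hka X hX, ← (hshift X).tsum_sub (hsr X)]
      apply tsum_congr
      intro k
      push_cast
      rw [bessel_rec2]
      ring
    rw [h1] at h
    exact h
  · intro X h0 h1
    have h := bessel_bound bessel_a 2 ha X h0 h1
    have h2 : bessel_a 0 = 1 := by simp [bessel_a]
    rw [h2] at h
    exact h
  · intro X h0 h1
    have h := bessel_bound (fun k : ℕ => (k : ℝ) * bessel_a k) 2 hka X h0 h1
    simp only [Nat.cast_zero, zero_mul, sub_zero] at h
    exact h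
  · intro X h0 h1
    have h := bessel_bound (fun k : ℕ => bessel_s k * bessel_a k) 2 hr X h0 h1
    have h2 : bessel_s 0 = 0 := by simp [bessel_s]
    simp only [h2, zero_mul, sub_zero] at h
    exact h
  · intro X h0 h1
    have h := bessel_bound (fun k : ℕ => (k : ℝ) * (bessel_s k * bessel_a k)) 2 hkr X h0 h1
    simp only [Nat.cast_zero, zero_mul, sub_zero] at h
    exact h

end N_bessel

end Pool.Agent.Helper459.SK
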