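import Mathlib
import Pool.Agent.Helper459.SK.Defs

set_option autoImplicit false

noncomputable section

open MeasureTheory Set Filter Topology
open scoped ContDiff ComplexConjugate

namespace Pool.Agent.Helper459.SK

namespace N_edge_W

theorem edge_W (m : ℕ) (G G1 K : ℝ → ℂ) (h : EdgeODE m G G1 K) (p p1 : ℝ → ℝ) (a b : ℝ)
    (hp : Phi m p p1 a b) :
    G el * (p1 el : ℂ) - G1 el * (p el : ℂ) = G 0 * b - G1 0 * a + 2 * ∫ s in (0 : ℝ)..el, K s * (p s : ℂ) := by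
  have hel : (0:ℝ) < el := by unfold el; norm_num
  have hpca : ∀ s, 0 < s → ContinuousAt (fun s => ((p s : ℝ) : ℂ)) s := fun s hs =>
    Complex.continuous_ofReal.continuousAt.comp (hp.d0 s hs).continuousAt
  have hp1ca : ∀ s, 0 < s → ContinuousAt (fun s => ((p1 s : ℝ) : ℂ)) s := fun s hs =>
    Complex.continuous_ofReal.continuousAt.comp (hp.d1 s hs).continuousAt
  have hpc : ContinuousOn (fun s => ((p s : ℝ) : ℂ)) (Ioo 0 el) := fun s hs =>
    (hpca s hs.1).continuousWithinAt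
  have hl : Tendsto (fun s => ((p s : ℝ) : ℂ)) (𝓝[>] 0) (𝓝 (a:ℂ)) :=
    (Complex.continuous_ofReal.tendsto a).comp hp.l0
  have hl1 : Tendsto (fun s => ((p1 s : ℝ) : ℂ)) (𝓝[>] 0) (𝓝 (b:ℂ)) :=
    (Complex.continuous_ofReal.tendsto b).comp hp.l1
  have hr : Tendsto (fun s => ((p s : ℝ) : ℂ)) (𝓝[<] el) (𝓝 (p el : ℂ)) :=
    (hpca el hel).tendsto.mono_left nhdsWithin_le_nhds
  have hint : IntervalIntegrable (fun s => 2 * (K s * (p s : ℂ))) volume 0 el := by
    rw [intervalIntegrable_iff_integrableOn_Ioo_of_le hel.le]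
    have hc := continuousOn_Icc_extendFrom_Ioo hpc hl hr
    have h1 : IntegrableOn (fun s => 2 * (K s *
        extendFrom (Ioo 0 el) (fun s => ((p s : ℝ) : ℂ)) s)) (Icc 0 el) :=
      (continuousOn_const.mul (h.kc.mul hc)).integrableOn_Icc
    refine (h1.mono_set Ioo_subset_Icc_self).congr_fun ?_ measurableSet_Ioo
    intro s hs
    have h2 : extendFrom (Ioo 0 el) (fun s => ((p s : ℝ) : ℂ)) s = ((p s : ℝ) : ℂ) :=
      extendFrom_eq (subset_closure hs) ((hpca s hs.1).tendsto.mono_left nhdsWithin_le_nhds)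
    simp only [h2]
  have hW : ∀ s ∈ Ioo (0:ℝ) el, HasDerivAt (fun s => G s * (p1 s : ℂ) - G1 s * (p s : ℂ))
      (2 * (K s * (p s : ℂ))) s := by
    intro s hs
    have e1 := (h.d0 s (Ioo_subset_Icc_self hs)).mul (hp.d1 s hs.1).ofReal_comp
    have e2 := (h.d1 s (Ioo_subset_Icc_self hs)).mul (hp.d0 s hs.1).ofReal_comp
    have e3 := e1.sub e2
    refine e3.congr_deriv ?_
    push_cast
    ring
  have h0m : (0:ℝ) ∈ Icc (0:ℝ) el := ⟨le_rfl, hel.le⟩
  have hem : el ∈ Icc (0:ℝ) el := ⟨hel.le, le_rfl⟩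
  have hW0 : Tendsto (fun s => G s * (p1 s : ℂ) - G1 s * (p s : ℂ)) (𝓝[>] 0)
      (𝓝 (G 0 * b - G1 0 * a)) := by
    have g0 : Tendsto G (𝓝[>] 0) (𝓝 (G 0)) :=
      (h.d0 0 h0m).continuousAt.tendsto.mono_left nhdsWithin_le_nhds
    have g1 : Tendsto G1 (𝓝[>] 0) (𝓝 (G1 0)) :=
      (h.d1 0 h0m).continuousAt.tendsto.mono_left nhdsWithin_le_nhds
    exact (g0.mul hl1).sub (g1.mul hl)
  have hWe : Tendsto (fun s => G s * (p1 s : ℂ) - G1 s * (p s : ℂ)) (𝓝[<] el)
      (𝓝 (G el * (p1 el : ℂ) - G1 el * (p el : ℂ))) := by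
    have c : ContinuousAt (fun s => G s * (p1 s : ℂ) - G1 s * (p s : ℂ)) el :=
      ((h.d0 el hem).continuousAt.mul (hp1ca el hel)).sub
        ((h.d1 el hem).continuousAt.mul (hpca el hel))
    exact c.tendsto.mono_left nhdsWithin_le_nhds
  have key := intervalIntegral.integral_eq_sub_of_hasDerivAt_of_tendsto hel hW hint hW0 hWe
  rw [intervalIntegral.integral_const_mul] at key
  rw [key]
  ring

end N_edge_W

end Pool.Agent.Helper459.SK
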