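import Mathlib
import Pool.Agent.Helper459.SK.Defs

set_option autoImplicit false

noncomputable section

open MeasureTheory Set Filter Topology
open scoped ContDiff ComplexConjugate

namespace Pool.Agent.Helper459.SK

namespace N_ep_bd

theorem ep_norm (m : ℕ) (hm : 1 ≤ m) :
    ‖EP m el‖ = (el * Real.exp 8) / Real.sqrt m := by
  have hel : (0 : ℝ) < el := by unfold el; norm_num
  have h8 : (1 : ℝ) / (2 * el) = 8 := by unfold el; norm_num
  unfold EP
  rw [norm_mul, h8]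
  have h1 : ‖Complex.exp (Complex.I * ((m * T el : ℝ) : ℂ))‖ = 1 := by
    rw [mul_comm]
    exact Complex.norm_exp_ofReal_mul_I _
  rw [h1, mul_one, Complex.norm_real, Real.norm_eq_abs, abs_of_nonneg]
  positivity

theorem T_el_bd : |T el| ≤ 1 := by
  have hel : (0 : ℝ) < el := by unfold el; norm_num
  have h0 : 0 ≤ T el := by unfold T; exact expNegInvGlue.nonneg _
  rw [abs_of_nonneg h0]
  unfold T expNegInvGlue
  rw [if_neg (not_le.mpr hel)]
  apply Real.exp_le_one_iff.mpr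
  have : 0 ≤ el⁻¹ := by positivity
  linarith

theorem ep1_norm (m : ℕ) (hm : 1 ≤ m) :
    ‖EP1 m el‖ ≤ (368 * (el * Real.exp 8)) * Real.sqrt m := by
  have hm' : (1 : ℝ) ≤ m := by exact_mod_cast hm
  have hs : (0 : ℝ) < Real.sqrt m := Real.sqrt_pos.mpr (by linarith)
  have hel : (0 : ℝ) < el := by unfold el; norm_num
  unfold EP1
  rw [norm_mul, ep_norm m hm]
  have h1 : ‖(((1 / el - 1 / (2 * el ^ 2) : ℝ) : ℂ) + Complex.I * ((m * T el / el ^ 2 : ℝ) : ℂ))‖
      ≤ 368 * m := by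
    refine (norm_add_le _ _).trans ?_
    rw [norm_mul, Complex.norm_I, one_mul, Complex.norm_real, Complex.norm_real, Real.norm_eq_abs,
      Real.norm_eq_abs]
    have ha : (1 : ℝ) / el - 1 / (2 * el ^ 2) = -112 := by unfold el; norm_num
    have hb : (m : ℝ) * T el / el ^ 2 = 256 * m * T el := by
      unfold el; ring
    rw [ha, hb, abs_mul, abs_of_nonneg (by positivity : (0 : ℝ) ≤ 256 * m)]
    have hT := T_el_bd
    have h2 : 256 * (m : ℝ) * |T el| ≤ 256 * m * 1 :=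
      mul_le_mul_of_nonneg_left hT (by positivity)
    have h3 : |(-112 : ℝ)| = 112 := by norm_num
    rw [h3]
    linarith
  calc (el * Real.exp 8) / Real.sqrt m *
        ‖(((1 / el - 1 / (2 * el ^ 2) : ℝ) : ℂ) + Complex.I * ((m * T el / el ^ 2 : ℝ) : ℂ))‖
      ≤ (el * Real.exp 8) / Real.sqrt m * (368 * m) :=
        mul_le_mul_of_nonneg_left h1 (by positivity)
    _ = (368 * (el * Real.exp 8)) * Real.sqrt m := by
        have hsq : Real.sqrt m * Real.sqrt m = m := Real.mul_self_sqrt (by linarith)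
        field_simp
        nlinarith [hsq]

theorem ep_bd : ∃ C : ℝ, 0 < C ∧ ∀ m : ℕ, 1 ≤ m →
    ‖EP m el‖ ≤ C / Real.sqrt m ∧ ‖EP1 m el‖ ≤ C * Real.sqrt m ∧
    ∀ g g1 : ℂ, ‖cA m el g g1‖ ≤ C * (Real.sqrt m * ‖g‖ + ‖g1‖ / Real.sqrt m) := by
  have hel : (0 : ℝ) < el := by unfold el; norm_num
  refine ⟨368 * (el * Real.exp 8), by positivity, ?_⟩
  intro m hm
  have hm' : (1 : ℝ) ≤ m := by exact_mod_cast hm
  have hs : (0 : ℝ) < Real.sqrt m := Real.sqrt_pos.mpr (by linarith)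
  have hE : 0 < el * Real.exp 8 := by positivity
  have h1 : ‖EP m el‖ ≤ (368 * (el * Real.exp 8)) / Real.sqrt m := by
    rw [ep_norm m hm]
    apply div_le_div_of_nonneg_right _ hs.le
    linarith
  have h2 := ep1_norm m hm
  refine ⟨h1, h2, ?_⟩
  intro g g1
  unfold cA
  rw [norm_mul]
  have hI : ‖(Complex.I / 2 : ℂ)‖ = 1 / 2 := by
    rw [norm_div, Complex.norm_I]; norm_num
  rw [hI]
  have h3 : ‖g * conj (EP1 m el) - g1 * conj (EP m el)‖ ≤
      ‖g‖ * ‖EP1 m el‖ + ‖g1‖ * ‖EP m el‖ := by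
    refine (norm_sub_le _ _).trans ?_
    rw [norm_mul, norm_mul, RCLike.norm_conj, RCLike.norm_conj]
  have h4 : ‖g‖ * ‖EP1 m el‖ ≤ ‖g‖ * ((368 * (el * Real.exp 8)) * Real.sqrt m) :=
    mul_le_mul_of_nonneg_left h2 (norm_nonneg _)
  have h5 : ‖g1‖ * ‖EP m el‖ ≤ ‖g1‖ * ((368 * (el * Real.exp 8)) / Real.sqrt m) :=
    mul_le_mul_of_nonneg_left h1 (norm_nonneg _)
  have h6 : (368 * (el * Real.exp 8)) * (Real.sqrt m * ‖g‖ + ‖g1‖ / Real.sqrt m) =
      ‖g‖ * ((368 * (el * Real.exp 8)) * Real.sqrt m) +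
      ‖g1‖ * ((368 * (el * Real.exp 8)) / Real.sqrt m) := by ring
  rw [h6]
  have h7 : 0 ≤ ‖g * conj (EP1 m el) - g1 * conj (EP m el)‖ := norm_nonneg _
  linarith

end N_ep_bd

end Pool.Agent.Helper459.SK
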