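import Mathlib
import Pool.Agent.Helper459.SK.Defs
import Pool.Agent.Helper459.SK.L_om_facts

set_option autoImplicit false

noncomputable section

open MeasureTheory Set Filter Topology
open scoped ContDiff ComplexConjugate

namespace Pool.Agent.Helper459.SK
open N_om_facts

namespace N_phiC

theorem XX_pos (m : ℕ) (hm : 1 ≤ m) (s : ℝ) : 0 < XX m s := by
  unfold XX
  have : (0 : ℝ) < m := by exact_mod_cast hm
  positivity

theorem XX_der (m : ℕ) (s : ℝ) (hs : 0 < s) : HasDerivAt (XX m) (2 / s ^ 2 * XX m s) s := by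
  unfold XX
  have h1 : HasDerivAt (fun s : ℝ => -2 / s) (2 / s ^ 2) s := by
    have h := (hasDerivAt_inv hs.ne').const_mul (-2 : ℝ)
    have e : (fun s : ℝ => -2 / s) = fun s => (-2 : ℝ) * s⁻¹ := by
      funext s; rw [div_eq_mul_inv]
    rw [e]
    refine h.congr_deriv ?_
    field_simp
  have h2 := (h1.exp.const_mul ((m : ℝ) ^ 2)).div_const 4
  refine h2.congr_deriv ?_
  ring

theorem XX_le (m : ℕ) (s : ℝ) (hs : 0 < s) : XX m s ≤ (m : ℝ) ^ 2 * s ^ 3 := by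
  unfold XX
  have h := Real.pow_div_factorial_le_exp (2 / s) (by positivity) 3
  have hf : ((3 : ℕ).factorial : ℝ) = 6 := by norm_num [Nat.factorial]
  rw [hf] at h
  have e1 : Real.exp (-2 / s) = (Real.exp (2 / s))⁻¹ := by
    rw [← Real.exp_neg]; congr 1; ring
  have h2 : Real.exp (-2 / s) ≤ s ^ 3 := by
    rw [e1]
    have h3 : (s ^ 3)⁻¹ ≤ Real.exp (2 / s) := by
      refine le_trans ?_ h
      rw [div_pow, div_div, inv_eq_one_div, div_le_div_iff₀ (by positivity) (by positivity)]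
      have : 0 < s ^ 3 := by positivity
      nlinarith
    exact inv_le_of_inv_le₀ (by positivity) h3
  have h4 : (0 : ℝ) ≤ (m : ℝ) ^ 2 := by positivity
  have h5 := mul_le_mul_of_nonneg_left h2 h4
  have h6 : 0 ≤ (m : ℝ) ^ 2 * Real.exp (-2 / s) := by positivity
  linarith

theorem phiC (J J1 R R1 : ℝ → ℝ) (C : ℝ) (h : Bes J J1 R R1 C) (m : ℕ) (hm : 1 ≤ m) :
    Phi m (pC J R m) (pC1 J1 R R1 m) 1 0 := by
  have hC : 0 ≤ C := by
    have := h.bR 1 one_pos le_rfl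
    have h2 := abs_nonneg (R 1)
    linarith
  have hXp := XX_pos m hm
  have hJd : ∀ s, 0 < s → HasDerivAt (fun s => J (XX m s)) (2 / s ^ 2 * J1 (XX m s)) s := by
    intro s hs
    have h1 := (h.dJ (XX m s) (hXp s)).comp s (XX_der m s hs)
    refine h1.congr_deriv ?_
    have := (hXp s).ne'
    field_simp
  have hJ1d : ∀ s, 0 < s → HasDerivAt (fun s => J1 (XX m s))
      (-(2 / s ^ 2 * XX m s * J (XX m s))) s := by
    intro s hs
    have h1 := (h.dJ1 (XX m s) (hXp s)).comp s (XX_der m s hs)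
    refine h1.congr_deriv ?_
    ring
  have hRd : ∀ s, 0 < s → HasDerivAt (fun s => R (XX m s)) (2 / s ^ 2 * R1 (XX m s)) s := by
    intro s hs
    have h1 := (h.dR (XX m s) (hXp s)).comp s (XX_der m s hs)
    refine h1.congr_deriv ?_
    have := (hXp s).ne'
    field_simp
  have hR1d : ∀ s, 0 < s → HasDerivAt (fun s => R1 (XX m s))
      (2 / s ^ 2 * (J1 (XX m s) - XX m s * R (XX m s))) s := by
    intro s hs
    have h1 := (h.dR1 (XX m s) (hXp s)).comp s (XX_der m s hs)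
    refine h1.congr_deriv ?_
    have := (hXp s).ne'
    field_simp
  have hsm : ∀ᶠ s : ℝ in 𝓝[>] 0, 0 < s ∧ s ≤ 1 ∧ XX m s ≤ 1 := by
    have h1 : Tendsto (fun s : ℝ => (m : ℝ) ^ 2 * s ^ 3) (𝓝[>] 0) (𝓝 0) := by
      have : Tendsto (fun s : ℝ => (m : ℝ) ^ 2 * s ^ 3) (𝓝 0) (𝓝 ((m : ℝ) ^ 2 * 0 ^ 3)) :=
        (Continuous.tendsto (by fun_prop) 0)
      rw [zero_pow (by norm_num), mul_zero] at this
      exact this.mono_left nhdsWithin_le_nhds
    have h2 : ∀ᶠ s : ℝ in 𝓝[>] 0, (m : ℝ) ^ 2 * s ^ 3 < 1 := h1.eventually (gt_mem_nhds one_pos)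
    have h3 : ∀ᶠ s : ℝ in 𝓝[>] 0, s < 1 :=
      (tendsto_id.mono_left nhdsWithin_le_nhds).eventually (gt_mem_nhds one_pos)
    filter_upwards [h2, h3, self_mem_nhdsWithin] with s a b c
    exact ⟨c, b.le, (XX_le m s c).trans a.le⟩
  refine ⟨?_, ?_, ?_, ?_⟩
  · intro s hs
    have h1 := (hJd s hs).add ((hasDerivAt_id s).mul (hRd s hs))
    refine HasDerivAt.congr_deriv (f' := _) h1 ?_
    unfold pC1
    simp only [id]
    have := hs.ne'
    field_simp
    ring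
  · intro s hs
    have hs' := hs.ne'
    have e2 : HasDerivAt (fun s : ℝ => 2 / s ^ 2) (-(4 / s ^ 3)) s := by
      have h0 := ((hasDerivAt_pow 2 s).inv (by positivity)).const_mul (2 : ℝ)
      have e : (fun s : ℝ => 2 / s ^ 2) = fun s => (2 : ℝ) * (s ^ 2)⁻¹ := by
        funext s; rw [div_eq_mul_inv]
      rw [e]
      refine h0.congr_deriv ?_
      field_simp
      norm_num
      ring
    have e1 : HasDerivAt (fun s : ℝ => 2 / s) (-(2 / s ^ 2)) s := by
      have h0 := (hasDerivAt_inv hs').const_mul (2 : ℝ)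
      have e : (fun s : ℝ => 2 / s) = fun s => (2 : ℝ) * s⁻¹ := by
        funext s; rw [div_eq_mul_inv]
      rw [e]
      refine h0.congr_deriv ?_
      field_simp
    have h1 := ((e2.mul (hJ1d s hs)).add (hRd s hs)).add (e1.mul (hR1d s hs))
    refine HasDerivAt.congr_deriv (f' := _) h1 ?_
    have hOm : (m : ℝ) ^ 2 * Om s = 4 * XX m s / s ^ 4 := by
      rw [om_facts.2.2.2.1 s hs]
      unfold XX
      ring
    rw [hOm]
    unfold pC
    field_simp
    ring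
  · rw [tendsto_iff_norm_sub_tendsto_zero]
    have hb : Tendsto (fun s : ℝ => 2 * C * (m : ℝ) ^ 2 * s) (𝓝[>] 0) (𝓝 0) := by
      have : Tendsto (fun s : ℝ => 2 * C * (m : ℝ) ^ 2 * s) (𝓝 0) (𝓝 (2 * C * (m : ℝ) ^ 2 * 0)) :=
        (Continuous.tendsto (by fun_prop) 0)
      rw [mul_zero] at this
      exact this.mono_left nhdsWithin_le_nhds
    refine squeeze_zero' (Eventually.of_forall fun s => norm_nonneg _) ?_ hb
    filter_upwards [hsm] with s hs
    obtain ⟨h0, h1, h2⟩ := hs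
    have a1 := h.bJ _ (hXp s) h2
    have a2 := h.bR _ (hXp s) h2
    have a3 := XX_le m s h0
    have e : pC J R m s - 1 = (J (XX m s) - 1) + s * R (XX m s) := by
      unfold pC; ring
    rw [e]
    refine (norm_add_le _ _).trans ?_
    rw [Real.norm_eq_abs, Real.norm_eq_abs, abs_mul, abs_of_pos h0]
    have hm0 : (0 : ℝ) ≤ (m : ℝ) ^ 2 := by positivity
    have b1 : C * XX m s ≤ C * ((m : ℝ) ^ 2 * s ^ 3) := mul_le_mul_of_nonneg_left a3 hC
    have b2 : s * |R (XX m s)| ≤ 1 * (C * ((m : ℝ) ^ 2 * s ^ 3)) :=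
      mul_le_mul h1 (a2.trans b1) (abs_nonneg _) zero_le_one
    have b3 : s ^ 3 ≤ s := by
      have : s ^ 2 ≤ 1 := by nlinarith
      nlinarith
    have b4 : C * ((m : ℝ) ^ 2 * s ^ 3) ≤ C * ((m : ℝ) ^ 2 * s) :=
      mul_le_mul_of_nonneg_left (mul_le_mul_of_nonneg_left b3 hm0) hC
    linarith
  · have hb : Tendsto (fun s : ℝ => 5 * C * (m : ℝ) ^ 2 * s) (𝓝[>] 0) (𝓝 0) := by
      have : Tendsto (fun s : ℝ => 5 * C * (m : ℝ) ^ 2 * s) (𝓝 0) (𝓝 (5 * C * (m : ℝ) ^ 2 * 0)) :=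
        (Continuous.tendsto (by fun_prop) 0)
      rw [mul_zero] at this
      exact this.mono_left nhdsWithin_le_nhds
    refine squeeze_zero_norm' ?_ hb
    filter_upwards [hsm] with s hs
    obtain ⟨h0, h1, h2⟩ := hs
    have a1 := h.bJ1 _ (hXp s) h2
    have a2 := h.bR _ (hXp s) h2
    have a4 := h.bR1 _ (hXp s) h2
    have a3 := XX_le m s h0
    unfold pC1
    refine (norm_add_le _ _).trans ?_
    have hn := norm_add_le (2 / s ^ 2 * J1 (XX m s)) (R (XX m s))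
    rw [norm_mul, Real.norm_eq_abs (J1 _), Real.norm_eq_abs (R _)] at hn
    rw [norm_mul, Real.norm_eq_abs (R1 _)]
    have c1 : ‖2 / s ^ 2‖ = 2 / s ^ 2 := by
      rw [Real.norm_eq_abs, abs_of_pos (by positivity)]
    have c2 : ‖2 / s‖ = 2 / s := by
      rw [Real.norm_eq_abs, abs_of_pos (by positivity)]
    rw [c1] at hn
    rw [c2]
    have hm0 : (0 : ℝ) ≤ (m : ℝ) ^ 2 := by positivity
    have b1 : C * XX m s ≤ C * ((m : ℝ) ^ 2 * s ^ 3) := mul_le_mul_of_nonneg_left a3 hC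
    have d1 : 2 / s ^ 2 * |J1 (XX m s)| ≤ 2 / s ^ 2 * (C * ((m : ℝ) ^ 2 * s ^ 3)) :=
      mul_le_mul_of_nonneg_left (a1.trans b1) (by positivity)
    have d2 : 2 / s * |R1 (XX m s)| ≤ 2 / s * (C * ((m : ℝ) ^ 2 * s ^ 3)) :=
      mul_le_mul_of_nonneg_left (a4.trans b1) (by positivity)
    have d3 : 2 / s ^ 2 * (C * ((m : ℝ) ^ 2 * s ^ 3)) = 2 * (C * (m : ℝ) ^ 2 * s) := by
      field_simp
    have d4 : 2 / s * (C * ((m : ℝ) ^ 2 * s ^ 3)) = 2 * (C * (m : ℝ) ^ 2 * s ^ 2) := by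
      field_simp
    have hcm : 0 ≤ C * (m : ℝ) ^ 2 := by positivity
    have b3 : C * (m : ℝ) ^ 2 * s ^ 3 ≤ C * (m : ℝ) ^ 2 * s := by
      apply mul_le_mul_of_nonneg_left _ hcm
      have : s ^ 2 ≤ 1 := by nlinarith
      nlinarith
    have b4 : C * (m : ℝ) ^ 2 * s ^ 2 ≤ C * (m : ℝ) ^ 2 * s := by
      apply mul_le_mul_of_nonneg_left _ hcm
      nlinarith
    linarith

end N_phiC

end Pool.Agent.Helper459.SK
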