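import Mathlib
import Pool.Agent.Helper459.SK.Defs
import Pool.Agent.Helper459.SK.L_om_facts

set_option autoImplicit false

noncomputable section

open MeasureTheory Set Filter Topology
open scoped ContDiff ComplexConjugate

namespace Pool.Agent.Helper459.SK
open N_om_facts

namespace N_phiS

theorem aux_XXpos (m : ℕ) (hm : 1 ≤ m) (s : ℝ) : 0 < XX m s := by
  unfold XX
  have : (0 : ℝ) < m := by exact_mod_cast hm
  positivity

theorem aux_XXder (m : ℕ) (s : ℝ) (hs : 0 < s) : HasDerivAt (XX m) (2 / s ^ 2 * XX m s) s := by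
  have h1 : HasDerivAt (fun s : ℝ => -2 / s) (2 / s ^ 2) s := by
    have := (hasDerivAt_inv hs.ne').const_mul (-2 : ℝ)
    refine this.congr_deriv ?_
    field_simp
  have h2 := ((h1.exp).const_mul ((m : ℝ) ^ 2)).div_const 4
  refine h2.congr_deriv ?_
  unfold XX
  ring

theorem aux_expinv : Tendsto (fun s : ℝ => Real.exp (-2 / s)) (𝓝[>] 0) (𝓝 0) := by
  have hA : Tendsto (fun s : ℝ => 2 * s⁻¹) (𝓝[>] 0) atTop :=
    tendsto_inv_nhdsGT_zero.const_mul_atTop two_pos
  have hB := (Real.tendsto_pow_mul_exp_neg_atTop_nhds_zero 0).comp hA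
  refine hB.congr fun s => ?_
  simp only [Function.comp, pow_zero, one_mul]
  congr 1
  ring

theorem aux_expinv1 : Tendsto (fun s : ℝ => 2 / s * Real.exp (-2 / s)) (𝓝[>] 0) (𝓝 0) := by
  have hA : Tendsto (fun s : ℝ => 2 * s⁻¹) (𝓝[>] 0) atTop :=
    tendsto_inv_nhdsGT_zero.const_mul_atTop two_pos
  have hB := (Real.tendsto_pow_mul_exp_neg_atTop_nhds_zero 1).comp hA
  refine hB.congr fun s => ?_
  simp only [Function.comp, pow_one]
  congr 1
  congr 1
  ring

theorem phiS (J J1 R R1 : ℝ → ℝ) (C : ℝ) (h : Bes J J1 R R1 C) (m : ℕ) (hm : 1 ≤ m) :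
    Phi m (pS J m) (pS1 J J1 m) 0 1 := by
  have hX0 : Tendsto (XX m) (𝓝[>] 0) (𝓝 0) := by
    have := (aux_expinv.const_mul ((m : ℝ) ^ 2)).div_const 4
    rw [mul_zero, zero_div] at this
    exact this
  have hle : ∀ᶠ s in 𝓝[>] (0 : ℝ), XX m s ≤ 1 :=
    (hX0.eventually (Iio_mem_nhds (zero_lt_one))).mono fun s hs => le_of_lt hs
  have hJ : Tendsto (fun s => J (XX m s)) (𝓝[>] 0) (𝓝 1) := by
    have h1 : Tendsto (fun s => J (XX m s) - 1) (𝓝[>] 0) (𝓝 0) := by
      refine squeeze_zero_norm' (a := fun s => C * XX m s) ?_ ?_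
      · filter_upwards [hle] with s hs
        exact h.bJ _ (aux_XXpos m hm s) hs
      · simpa using hX0.const_mul C
    simpa using h1.add_const 1
  have hJ1 : Tendsto (fun s => (2 / s) * J1 (XX m s)) (𝓝[>] 0) (𝓝 0) := by
    refine squeeze_zero_norm' (a := fun s => C * (m : ℝ) ^ 2 / 4 * (2 / s * Real.exp (-2 / s))) ?_ ?_
    · filter_upwards [hle, self_mem_nhdsWithin] with s hs hs0
      have hs0' : (0 : ℝ) < s := hs0
      rw [norm_mul, Real.norm_eq_abs, Real.norm_eq_abs, abs_of_pos (by positivity : (0 : ℝ) < 2 / s)]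
      have h2 := h.bJ1 _ (aux_XXpos m hm s) hs
      calc 2 / s * |J1 (XX m s)| ≤ 2 / s * (C * XX m s) :=
            mul_le_mul_of_nonneg_left h2 (by positivity)
        _ = C * (m : ℝ) ^ 2 / 4 * (2 / s * Real.exp (-2 / s)) := by
            unfold XX; ring
    · simpa using aux_expinv1.const_mul (C * (m : ℝ) ^ 2 / 4)
  have hid : Tendsto (fun s : ℝ => s) (𝓝[>] 0) (𝓝 0) := tendsto_nhdsWithin_of_tendsto_nhds tendsto_id
  refine ⟨?_, ?_, ?_, ?_⟩
  · intro s hs
    have hXp := aux_XXpos m hm s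
    have h1 := (h.dJ _ hXp).comp s (aux_XXder m s hs)
    have h2 := (hasDerivAt_id s).mul h1
    refine h2.congr_deriv ?_
    simp only [id, Function.comp, pS1, one_mul]
    have := hXp.ne'
    field_simp
  · intro s hs
    have hXp := aux_XXpos m hm s
    have h1 := (h.dJ _ hXp).comp s (aux_XXder m s hs)
    have h2 := (h.dJ1 _ hXp).comp s (aux_XXder m s hs)
    have h3 : HasDerivAt (fun s : ℝ => 2 / s) (-2 / s ^ 2) s := by
      have := (hasDerivAt_inv hs.ne').const_mul (2 : ℝ)
      refine this.congr_deriv ?_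
      field_simp
    have h4 := h1.add (h3.mul h2)
    refine h4.congr_deriv ?_
    have hom := om_facts.2.2.2.1 s hs
    have hXe : Real.exp (-2 / s) = 4 * XX m s / (m : ℝ) ^ 2 := by
      unfold XX
      have : (m : ℝ) ≠ 0 := by positivity
      field_simp
    have hm0 : (m : ℝ) ≠ 0 := by positivity
    rw [hom, hXe]
    simp only [Function.comp, pS]
    have := hXp.ne'
    have := hs.ne'
    field_simp
    ring
  · have := hid.mul hJ
    rw [zero_mul] at this
    exact this
  · have := hJ.add hJ1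
    rw [add_zero] at this
    exact this

end N_phiS

end Pool.Agent.Helper459.SK
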