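import Mathlib
import Pool.Agent.Helper459.SK.Defs

set_option autoImplicit false

noncomputable section

open MeasureTheory Set Filter Topology
open scoped ContDiff ComplexConjugate

namespace Pool.Agent.Helper459.SK

namespace N_energy

theorem energy (u u1 : ℝ → ℝ) (h0 : ∀ y, 0 ≤ y → HasDerivAt u (u1 y) y)
    (h1 : ∀ y, 0 ≤ y → HasDerivAt u1 (-(Real.exp (2 * y)) * u y) y) (y : ℝ) (hy : 0 ≤ y) :
    Real.exp (-y) * u1 y ^ 2 + Real.exp y * u y ^ 2 ≤ 9 * (u1 0 ^ 2 + u 0 ^ 2) := by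
  have hF : ∀ x, 0 ≤ x → HasDerivAt (fun x => Real.exp (-x) * u1 x ^ 2 + Real.exp x * u x ^ 2
      + Real.exp (-x) * (u x * u1 x)) (-(Real.exp (-x) * (u x * u1 x))) x := by
    intro x hx
    have e1 : HasDerivAt (fun x : ℝ => Real.exp (-x)) (-Real.exp (-x)) x := by
      have := (hasDerivAt_neg x).exp
      convert this using 1
      ring
    have e2 : HasDerivAt (fun x : ℝ => Real.exp x) (Real.exp x) x := Real.hasDerivAt_exp x
    have a := h0 x hx
    have b := h1 x hx
    have key := ((e1.mul (b.pow 2)).add (e2.mul (a.pow 2))).add (e1.mul (a.mul b))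
    have hE : Real.exp (2 * x) = Real.exp x * Real.exp x := by
      rw [← Real.exp_add]; congr 1; ring
    have hE2 : Real.exp (-x) * Real.exp x = 1 := by
      rw [← Real.exp_add]; simp
    refine key.congr_deriv ?_
    rw [hE]
    simp only [Nat.cast_ofNat, Nat.add_one_sub_one, pow_one]
    simp only [Pi.mul_apply, Pi.pow_apply]
    linear_combination (-2 * Real.exp x * u x * u1 x - Real.exp x * u x ^ 2) * hE2
  have hab : ∀ x, 0 ≤ x → |Real.exp (-x) * (u x * u1 x)| ≤ Real.exp (-x) *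
      ((Real.exp (-x) * u1 x ^ 2 + Real.exp x * u x ^ 2) / 2) := by
    intro x hx
    rw [abs_mul, abs_of_pos (Real.exp_pos _)]
    refine mul_le_mul_of_nonneg_left ?_ (Real.exp_pos _).le
    have hA : Real.exp (-x) = Real.exp (-x/2) ^ 2 := by
      rw [← Real.exp_nat_mul]; congr 1; push_cast; ring
    have hB : Real.exp x = Real.exp (x/2) ^ 2 := by
      rw [← Real.exp_nat_mul]; congr 1; push_cast; ring
    have hC : Real.exp (-x/2) * Real.exp (x/2) = 1 := by
      rw [← Real.exp_add]; rw [show -x/2 + x/2 = 0 by ring]; simp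
    rw [hA, hB]
    have h3 : u x * u1 x = (Real.exp (-x/2) * u1 x) * (Real.exp (x/2) * u x) := by
      linear_combination (- (u x * u1 x)) * hC
    rw [h3, abs_le]
    constructor <;> nlinarith [sq_nonneg (Real.exp (-x/2) * u1 x - Real.exp (x/2) * u x), sq_nonneg (Real.exp (-x/2) * u1 x + Real.exp (x/2) * u x)]
  have hnn : ∀ x, 0 ≤ Real.exp (-x) * u1 x ^ 2 + Real.exp x * u x ^ 2 := by
    intro x; positivity
  have hle : ∀ x, 0 ≤ x → (Real.exp (-x) * u1 x ^ 2 + Real.exp x * u x ^ 2) / 2 ≤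
      Real.exp (-x) * u1 x ^ 2 + Real.exp x * u x ^ 2 + Real.exp (-x) * (u x * u1 x) := by
    intro x hx
    have h3 := (abs_le.1 (hab x hx)).1
    have h4 : Real.exp (-x) ≤ 1 := Real.exp_le_one_iff.2 (by linarith)
    have h5 := mul_le_mul_of_nonneg_right h4 (div_nonneg (hnn x) (by norm_num : (0:ℝ) ≤ 2))
    nlinarith [hnn x]
  have hG : AntitoneOn (fun x => (Real.exp (-x) * u1 x ^ 2 + Real.exp x * u x ^ 2
      + Real.exp (-x) * (u x * u1 x)) * Real.exp (Real.exp (-x))) (Ici 0) := by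
    have hd : ∀ x, 0 ≤ x → HasDerivAt (fun x => (Real.exp (-x) * u1 x ^ 2 + Real.exp x * u x ^ 2
      + Real.exp (-x) * (u x * u1 x)) * Real.exp (Real.exp (-x)))
      ((-(Real.exp (-x) * (u x * u1 x))) * Real.exp (Real.exp (-x)) +
        (Real.exp (-x) * u1 x ^ 2 + Real.exp x * u x ^ 2
      + Real.exp (-x) * (u x * u1 x)) * (Real.exp (Real.exp (-x)) * (-Real.exp (-x)))) x := by
      intro x hx
      have e1 : HasDerivAt (fun x : ℝ => Real.exp (-x)) (-Real.exp (-x)) x := by
        have := (hasDerivAt_neg x).exp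
        convert this using 1
        ring
      exact (hF x hx).mul e1.exp
    refine antitoneOn_of_deriv_nonpos (convex_Ici 0) ?_ ?_ ?_
    · intro x hx
      exact (hd x hx).continuousAt.continuousWithinAt
    · intro x hx
      rw [interior_Ici] at hx
      exact (hd x (le_of_lt hx)).differentiableAt.differentiableWithinAt
    · intro x hx
      rw [interior_Ici] at hx
      have hx' : (0:ℝ) ≤ x := le_of_lt hx
      rw [(hd x hx').deriv]
      have h3 := (abs_le.1 (hab x hx')).1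
      have h6 := mul_le_mul_of_nonneg_left (hle x hx') (Real.exp_pos (-x)).le
      have h7 : (-(Real.exp (-x) * (u x * u1 x))) - Real.exp (-x) * (Real.exp (-x) * u1 x ^ 2 + Real.exp x * u x ^ 2
      + Real.exp (-x) * (u x * u1 x)) ≤ 0 := by linarith
      have h8 := mul_nonpos_of_nonpos_of_nonneg h7 (Real.exp_pos (Real.exp (-x))).le
      linarith
  have h9 := hG (mem_Ici.2 le_rfl) (mem_Ici.2 hy) hy
  simp only [neg_zero, Real.exp_zero, one_mul] at h9
  have h10 : (1:ℝ) ≤ Real.exp (Real.exp (-y)) := Real.one_le_exp (Real.exp_pos _).le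
  have h11 := hle y hy
  have h12 := hnn y
  have h13 : Real.exp 1 < 2.7182818286 := Real.exp_one_lt_d9
  have h14 : (Real.exp (-y) * u1 y ^ 2 + Real.exp y * u y ^ 2
      + Real.exp (-y) * (u y * u1 y)) ≤ (Real.exp (-y) * u1 y ^ 2 + Real.exp y * u y ^ 2
      + Real.exp (-y) * (u y * u1 y)) * Real.exp (Real.exp (-y)) :=
    le_mul_of_one_le_right (by linarith) h10
  have h15 : u1 0 ^ 2 + u 0 ^ 2 + u 0 * u1 0 ≤ 3 / 2 * (u1 0 ^ 2 + u 0 ^ 2) := by
    nlinarith [sq_nonneg (u1 0 - u 0)]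
  have h16 : (u1 0 ^ 2 + u 0 ^ 2 + u 0 * u1 0) * Real.exp 1 ≤ (3 / 2 * (u1 0 ^ 2 + u 0 ^ 2)) * 3 := by
    refine mul_le_mul h15 (by linarith) (Real.exp_pos _).le (by positivity)
  linarith


end N_energy

end Pool.Agent.Helper459.SK
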