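import Mathlib
import Pool.Agent.Helper459.SK.Defs
import Pool.Agent.Helper459.SK.L_energy

set_option autoImplicit false

noncomputable section

open MeasureTheory Set Filter Topology
open scoped ContDiff ComplexConjugate

namespace Pool.Agent.Helper459.SK
open N_energy

namespace N_bes_bound

theorem bes_bound (J J1 R R1 : ℝ → ℝ) (C : ℝ) (h : Bes J J1 R R1 C) :
    ∃ C' : ℝ, ∀ y : ℝ, 0 ≤ y →
      Real.exp y * J (Real.exp (2 * y) / 4) ^ 2 + Real.exp (-y) * (2 * J1 (Real.exp (2 * y) / 4)) ^ 2 ≤ C' ∧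
      Real.exp y * (y * J (Real.exp (2 * y) / 4) - R (Real.exp (2 * y) / 4)) ^ 2 +
        Real.exp (-y) * (J (Real.exp (2 * y) / 4) + 2 * y * J1 (Real.exp (2 * y) / 4)
          - 2 * R1 (Real.exp (2 * y) / 4)) ^ 2 ≤ C' := by
  have hX : ∀ y : ℝ, HasDerivAt (fun y : ℝ => Real.exp (2 * y) / 4) (2 * (Real.exp (2 * y) / 4)) y := by
    intro y
    have h1 : HasDerivAt (fun y : ℝ => 2 * y) (2 * 1) y := (hasDerivAt_id y).const_mul 2
    have h2 := (h1.exp).div_const 4
    refine h2.congr_deriv ?_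
    ring
  have hXpos : ∀ y : ℝ, 0 < Real.exp (2 * y) / 4 := fun y => by positivity
  have dJ : ∀ y : ℝ, HasDerivAt (fun y : ℝ => J (Real.exp (2 * y) / 4))
      (2 * J1 (Real.exp (2 * y) / 4)) y := by
    intro y
    have h1 := (h.dJ _ (hXpos y)).comp y (hX y)
    refine h1.congr_deriv ?_
    have := (hXpos y).ne'
    field_simp
  have dJ1 : ∀ y : ℝ, HasDerivAt (fun y : ℝ => J1 (Real.exp (2 * y) / 4))
      (-J (Real.exp (2 * y) / 4) * (2 * (Real.exp (2 * y) / 4))) y := by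
    intro y
    exact (h.dJ1 _ (hXpos y)).comp y (hX y)
  have dR : ∀ y : ℝ, HasDerivAt (fun y : ℝ => R (Real.exp (2 * y) / 4))
      (2 * R1 (Real.exp (2 * y) / 4)) y := by
    intro y
    have h1 := (h.dR _ (hXpos y)).comp y (hX y)
    refine h1.congr_deriv ?_
    have := (hXpos y).ne'
    field_simp
  have dR1 : ∀ y : ℝ, HasDerivAt (fun y : ℝ => R1 (Real.exp (2 * y) / 4))
      (2 * J1 (Real.exp (2 * y) / 4) - R (Real.exp (2 * y) / 4) * (2 * (Real.exp (2 * y) / 4))) y := by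
    intro y
    have h1 := (h.dR1 _ (hXpos y)).comp y (hX y)
    refine h1.congr_deriv ?_
    have := (hXpos y).ne'
    field_simp
  obtain ⟨A1, hA1⟩ : ∃ A1 : ℝ, ∀ y : ℝ, 0 ≤ y →
      Real.exp (-y) * (2 * J1 (Real.exp (2 * y) / 4)) ^ 2 +
        Real.exp y * J (Real.exp (2 * y) / 4) ^ 2 ≤ A1 := by
    refine ⟨_, fun y hy => energy (fun y => J (Real.exp (2 * y) / 4))
      (fun y => 2 * J1 (Real.exp (2 * y) / 4)) (fun y _ => dJ y) (fun y _ => ?_) y hy⟩
    refine ((dJ1 y).const_mul 2).congr_deriv ?_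
    ring
  obtain ⟨A2, hA2⟩ : ∃ A2 : ℝ, ∀ y : ℝ, 0 ≤ y →
      Real.exp (-y) * (J (Real.exp (2 * y) / 4) + 2 * y * J1 (Real.exp (2 * y) / 4)
          - 2 * R1 (Real.exp (2 * y) / 4)) ^ 2 +
        Real.exp y * (y * J (Real.exp (2 * y) / 4) - R (Real.exp (2 * y) / 4)) ^ 2 ≤ A2 := by
    refine ⟨_, fun y hy => energy (fun y => y * J (Real.exp (2 * y) / 4) - R (Real.exp (2 * y) / 4))
      (fun y => J (Real.exp (2 * y) / 4) + 2 * y * J1 (Real.exp (2 * y) / 4)
          - 2 * R1 (Real.exp (2 * y) / 4)) (fun y _ => ?_) (fun y _ => ?_) y hy⟩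
    · have h1 := ((hasDerivAt_id y).mul (dJ y)).sub (dR y)
      refine h1.congr_deriv ?_
      simp only [id_eq]
      ring
    · have h1 := ((dJ y).add (((hasDerivAt_id y).const_mul 2).mul (dJ1 y))).sub ((dR1 y).const_mul 2)
      refine h1.congr_deriv ?_
      simp only [id_eq]
      ring
  refine ⟨max A1 A2, fun y hy => ⟨?_, ?_⟩⟩
  · have := hA1 y hy
    have := le_max_left A1 A2
    linarith
  · have := hA2 y hy
    have := le_max_right A1 A2
    linarith

end N_bes_bound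

end Pool.Agent.Helper459.SK
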