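import Mathlib
import Pool.Agent.Helper459.SK.Defs
import Pool.Agent.Helper459.SK.L_bes_bound

set_option autoImplicit false

noncomputable section

open MeasureTheory Set Filter Topology
open scoped ContDiff ComplexConjugate

namespace Pool.Agent.Helper459.SK
open N_bes_bound

namespace N_phi_el

theorem phi_el_aux (m E a b C : ℝ) (hm : 1 ≤ m) (hE : 1 ≤ E)
    (h : m / E * a ^ 2 + E / m * b ^ 2 ≤ C) :
    m ^ 2 * (el * a) ^ 2 + (a + 16 * b) ^ 2 ≤ C * (E / 256 + 2 * E + 512) * m := by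
  have hm0 : 0 < m := by linarith
  have hE0 : 0 < E := by linarith
  have h1 : 0 ≤ m / E * a ^ 2 := by positivity
  have h2 : 0 ≤ E / m * b ^ 2 := by positivity
  have hC : 0 ≤ C := by linarith
  have h3 : m * a ^ 2 ≤ C * E := by
    have h4 : m / E * a ^ 2 ≤ C := by linarith
    have h5 := mul_le_mul_of_nonneg_right h4 hE0.le
    have h6 : m / E * a ^ 2 * E = m * a ^ 2 := by field_simp
    linarith
  have h7 : b ^ 2 ≤ C * m := by
    have h4 : E / m * b ^ 2 ≤ C := by linarith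
    have h5 := mul_le_mul_of_nonneg_right h4 hm0.le
    have h6 : E / m * b ^ 2 * m = E * b ^ 2 := by field_simp
    have h8 : b ^ 2 ≤ E * b ^ 2 := by nlinarith [sq_nonneg b]
    linarith
  have h8 : m ^ 2 * a ^ 2 ≤ C * E * m := by
    have := mul_le_mul_of_nonneg_right h3 hm0.le
    nlinarith
  have h9 : a ^ 2 ≤ C * E * m := by
    have e1 : a ^ 2 ≤ m * a ^ 2 := by nlinarith [sq_nonneg a]
    have e2 : 0 ≤ C * E := by positivity
    have e3 : C * E ≤ C * E * m := by nlinarith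
    linarith
  have h10 : (a + 16 * b) ^ 2 ≤ 2 * a ^ 2 + 512 * b ^ 2 := by nlinarith [sq_nonneg (a - 16 * b)]
  have h11 : m ^ 2 * (el * a) ^ 2 = (m ^ 2 * a ^ 2) / 256 := by unfold el; ring
  rw [h11]
  nlinarith

theorem phi_el (J J1 R R1 : ℝ → ℝ) (C : ℝ) (h : Bes J J1 R R1 C) :
    ∃ (C' : ℝ) (m0 : ℕ), ∀ m : ℕ, m0 ≤ m →
      (m : ℝ) ^ 2 * pS J m el ^ 2 + pS1 J J1 m el ^ 2 ≤ C' * m ∧
      (m : ℝ) ^ 2 * (pC J R m el - Real.log m * pS J m el) ^ 2 +
        (pC1 J1 R R1 m el - Real.log m * pS1 J J1 m el) ^ 2 ≤ C' * m := by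
  obtain ⟨C'', hC⟩ := bes_bound J J1 R R1 C h
  refine ⟨C'' * (Real.exp 16 / 256 + 2 * Real.exp 16 + 512), ⌈Real.exp 16⌉₊, fun m hm => ?_⟩
  have hmE : Real.exp 16 ≤ (m : ℝ) := (Nat.le_ceil _).trans (Nat.cast_le.2 hm)
  have hE : 1 ≤ Real.exp 16 := Real.one_le_exp (by norm_num)
  have hm1 : (1 : ℝ) ≤ m := hE.trans hmE
  have hm0 : (0 : ℝ) < m := by linarith
  set y : ℝ := Real.log m - 16 with hy
  have hy0 : 0 ≤ y := by
    have := Real.log_le_log (Real.exp_pos 16) hmE
    rw [Real.log_exp] at this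
    linarith
  have hey : Real.exp y = m / Real.exp 16 := by
    rw [hy, Real.exp_sub, Real.exp_log hm0]
  have heny : Real.exp (-y) = Real.exp 16 / m := by
    rw [Real.exp_neg, hey, inv_div]
  have hX : XX m el = Real.exp (2 * y) / 4 := by
    unfold XX el
    have e1 : Real.exp (2 * y) = Real.exp y * Real.exp y := by rw [← Real.exp_add]; congr 1; ring
    have e2 : Real.exp (-2 / (1 / 16)) = (Real.exp 16)⁻¹ * (Real.exp 16)⁻¹ := by
      rw [← Real.exp_neg, ← Real.exp_add]; congr 1; norm_num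
    rw [e1, hey, e2]
    field_simp
  obtain ⟨h1, h2⟩ := hC y hy0
  rw [← hX, hey, heny] at h1 h2
  have k1 := phi_el_aux m (Real.exp 16) _ _ C'' hm1 hE h1
  have k2 := phi_el_aux m (Real.exp 16) _ _ C'' hm1 hE h2
  constructor
  · refine le_trans (le_of_eq ?_) k1
    unfold pS pS1 el
    ring
  · refine le_trans (le_of_eq ?_) k2
    unfold pC pC1 pS pS1
    rw [hy]
    generalize J (XX m el) = j0
    generalize J1 (XX m el) = j1
    generalize R (XX m el) = r0
    generalize R1 (XX m el) = r1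
    unfold el
    ring

end N_phi_el

end Pool.Agent.Helper459.SK
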