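import Mathlib
import Pool.Agent.Helper459.SK.Defs

set_option autoImplicit false

noncomputable section

open MeasureTheory Set Filter Topology
open scoped ContDiff ComplexConjugate

namespace Pool.Agent.Helper459.SK

namespace N_phi_wr

theorem phi_wr (m : ℕ) (p p1 q q1 : ℝ → ℝ) (a b c d : ℝ) (hp : Phi m p p1 a b) (hq : Phi m q q1 c d)
    (s : ℝ) (hs : 0 < s) : p s * q1 s - p1 s * q s = a * d - b * c := by
  have hder : ∀ x : ℝ, 0 < x → HasDerivAt (fun x => p x * q1 x - p1 x * q x) 0 x := by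
    intro x hx
    have h := ((hp.d0 x hx).mul (hq.d1 x hx)).sub ((hp.d1 x hx).mul (hq.d0 x hx))
    refine h.congr_deriv ?_
    ring
  have hconst : ∀ x : ℝ, 0 < x → p x * q1 x - p1 x * q x = p s * q1 s - p1 s * q s := by
    intro x hx
    exact IsOpen.is_const_of_deriv_eq_zero (f := fun x => p x * q1 x - p1 x * q x) isOpen_Ioi
      isPreconnected_Ioi
      (fun y hy => ((hder y hy).differentiableAt).differentiableWithinAt)
      (fun y hy => (hder y hy).deriv) (show x ∈ Ioi (0 : ℝ) from hx) (show s ∈ Ioi (0 : ℝ) from hs)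
  have hlim : Tendsto (fun x => p x * q1 x - p1 x * q x) (𝓝[>] 0) (𝓝 (a * d - b * c)) :=
    (hp.l0.mul hq.l1).sub (hp.l1.mul hq.l0)
  have hlim2 : Tendsto (fun x => p x * q1 x - p1 x * q x) (𝓝[>] 0)
      (𝓝 (p s * q1 s - p1 s * q s)) := by
    refine tendsto_const_nhds.congr' ?_
    filter_upwards [self_mem_nhdsWithin] with x hx
    exact (hconst x hx).symm
  exact tendsto_nhds_unique hlim2 hlim

end N_phi_wr

end Pool.Agent.Helper459.SK
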