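import Mathlib
import Pool.Agent.Helper459.SK.Defs
import Pool.Agent.Helper459.SK.L_phiS
import Pool.Agent.Helper459.SK.L_phiC
import Pool.Agent.Helper459.SK.L_phi_wr
import Pool.Agent.Helper459.SK.L_phi_el
import Pool.Agent.Helper459.SK.L_ep_bd
import Pool.Agent.Helper459.SK.L_ep_alg

set_option autoImplicit false

noncomputable section

open MeasureTheory Set Filter Topology
open scoped ContDiff ComplexConjugate

namespace Pool.Agent.Helper459.SK
open N_phiS
open N_phiC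
open N_phi_wr
open N_phi_el
open N_ep_bd
open N_ep_alg

namespace N_edge_num

theorem bdA (m : ℕ) (hm : 1 ≤ m) (p p1 K S : ℝ) (hS : 0 < S) (hK : K ≤ S ^ 2)
    (h : (m : ℝ) ^ 2 * p ^ 2 + p1 ^ 2 ≤ K * m) :
    Real.sqrt m * ‖(p : ℂ)‖ + ‖(p1 : ℂ)‖ / Real.sqrt m ≤ 2 * S := by
  have hm' : (0 : ℝ) < m := by exact_mod_cast hm
  have hs : 0 < Real.sqrt m := Real.sqrt_pos.mpr hm'
  have hsq : Real.sqrt m ^ 2 = m := Real.sq_sqrt hm'.le
  rw [Complex.norm_real, Complex.norm_real, Real.norm_eq_abs, Real.norm_eq_abs]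
  have h1 : Real.sqrt m * |p| ≤ S := by
    apply le_of_sq_le_sq _ hS.le |>.trans le_rfl
    rw [mul_pow, hsq, sq_abs]
    have h2 : (m : ℝ) * (m * p ^ 2) ≤ m * S ^ 2 := by nlinarith [sq_nonneg p1]
    exact le_of_mul_le_mul_left h2 hm'
  have h2 : |p1| / Real.sqrt m ≤ S := by
    rw [div_le_iff₀ hs]
    apply le_of_sq_le_sq _ (by positivity) |>.trans le_rfl
    rw [mul_pow, hsq, sq_abs]
    nlinarith [sq_nonneg p, sq_nonneg ((m : ℝ) * p)]
  linarith

theorem cB_real (m : ℕ) (s g g1 : ℝ) : cB m s g g1 = conj (cA m s g g1) := by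
  unfold cB cA
  simp only [map_mul, map_sub, map_div₀, Complex.conj_I, Complex.conj_ofReal, Complex.conj_conj,
    map_ofNat]
  ring

theorem edge_num (J J1 R R1 : ℝ → ℝ) (C : ℝ) (h : Bes J J1 R R1 C) :
    (∃ (C' : ℝ) (m0 : ℕ), ∀ m : ℕ, m0 ≤ m →
      ‖cA m el (pS J m el) (pS1 J J1 m el)‖ ≤ C' ∧
      ‖cA m el (pC J R m el) (pC1 J1 R R1 m el)‖ ≤ C' * (1 + Real.log m)) ∧
    Tendsto (fun m : ℕ => ‖cA m el (pC J R m el) (pC1 J1 R R1 m el)‖) atTop atTop ∧
    Tendsto (fun m : ℕ => ‖cA m el (pS J m el) (pS1 J J1 m el)‖ /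
      ‖cA m el (pC J R m el) (pC1 J1 R R1 m el)‖) atTop (𝓝 0) := by
  obtain ⟨C1, hC1, hb⟩ := ep_bd
  obtain ⟨C2, m0, hel⟩ := phi_el J J1 R R1 C h
  set S : ℝ := Real.sqrt (|C2| + 1) with hSdef
  have hS : 0 < S := Real.sqrt_pos.mpr (by positivity)
  have hS2 : S ^ 2 = |C2| + 1 := Real.sq_sqrt (by positivity)
  have hK : C2 ≤ S ^ 2 := by
    rw [hS2]
    linarith [le_abs_self C2]
  set D : ℝ := C1 * (2 * S) with hD
  have hDpos : 0 < D := by positivity
  have key : ∀ m : ℕ, max m0 1 ≤ m → ∃ δ : ℂ, ‖δ‖ ≤ D ∧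
      ‖cA m el (pS J m el) (pS1 J J1 m el)‖ ≤ D ∧
      cA m el (pC J R m el) (pC1 J1 R R1 m el) =
        δ + (Real.log m : ℂ) * cA m el (pS J m el) (pS1 J J1 m el) ∧
      1 ≤ 4 * (‖δ‖ * ‖cA m el (pS J m el) (pS1 J J1 m el)‖) := by
    intro m hm
    have hm0 : m0 ≤ m := (le_max_left _ _).trans hm
    have hm1 : 1 ≤ m := (le_max_right _ _).trans hm
    obtain ⟨hp, hq⟩ := hel m hm0
    have hel0 : (0 : ℝ) < el := by unfold el; norm_num
    have hw := phi_wr m _ _ _ _ 1 0 0 1 (phiC J J1 R R1 C h m hm1) (phiS J J1 R R1 C h m hm1) el hel0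
    have hbb := (hb m hm1).2.2
    refine ⟨cA m el ((pC J R m el - Real.log m * pS J m el : ℝ) : ℂ)
      ((pC1 J1 R R1 m el - Real.log m * pS1 J J1 m el : ℝ) : ℂ), ?_, ?_, ?_, ?_⟩
    · refine (hbb _ _).trans ?_
      rw [hD]
      exact mul_le_mul_of_nonneg_left (bdA m hm1 _ _ C2 S hS hK hq) hC1.le
    · refine (hbb _ _).trans ?_
      rw [hD]
      exact mul_le_mul_of_nonneg_left (bdA m hm1 _ _ C2 S hS hK hp) hC1.le
    · unfold cA
      push_cast
      ring
    · have h3 := (ep_alg m hm1 el hel0 ((pC J R m el - Real.log m * pS J m el : ℝ) : ℂ)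
        ((pC1 J1 R R1 m el - Real.log m * pS1 J J1 m el : ℝ) : ℂ) (pS J m el)
        (pS1 J J1 m el)).2.2.1
      rw [cB_real] at h3
      have h4 : (((pC J R m el - Real.log m * pS J m el : ℝ) : ℂ)) * (pS1 J J1 m el : ℂ) -
          ((pC1 J1 R R1 m el - Real.log m * pS1 J J1 m el : ℝ) : ℂ) * (pS J m el : ℂ) = 1 := by
        have h5 : (pC J R m el - Real.log m * pS J m el) * pS1 J J1 m el -
          (pC1 J1 R R1 m el - Real.log m * pS1 J J1 m el) * pS J m el = 1 := by linarith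
        exact_mod_cast h5
      rw [h4] at h3
      have h5 : ‖(1 : ℂ)‖ ≤ 4 * (‖cA m el ((pC J R m el - Real.log m * pS J m el : ℝ) : ℂ)
          ((pC1 J1 R R1 m el - Real.log m * pS1 J J1 m el : ℝ) : ℂ)‖ *
          ‖cA m el (pS J m el) (pS1 J J1 m el)‖) := by
        rw [h3]
        refine (norm_add_le _ _).trans ?_
        simp only [norm_mul, norm_neg, Complex.norm_I, RCLike.norm_conj, Complex.norm_ofNat]
        apply le_of_eq
        ring
      simpa using h5
  have hlog : ∀ m : ℕ, 1 ≤ m → 0 ≤ Real.log m := fun m hm => Real.log_natCast_nonneg m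
  have hlow : ∀ m : ℕ, max m0 1 ≤ m →
      Real.log m / (4 * D) - D ≤ ‖cA m el (pC J R m el) (pC1 J1 R R1 m el)‖ := by
    intro m hm
    obtain ⟨δ, h1, h2, h3, h4⟩ := key m hm
    have hm1 : 1 ≤ m := (le_max_right _ _).trans hm
    have hl := hlog m hm1
    have h5 : 1 / (4 * D) ≤ ‖cA m el (pS J m el) (pS1 J J1 m el)‖ := by
      rw [div_le_iff₀ (by positivity)]
      have h6 : ‖δ‖ * ‖cA m el (pS J m el) (pS1 J J1 m el)‖ ≤
          D * ‖cA m el (pS J m el) (pS1 J J1 m el)‖ :=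
        mul_le_mul_of_nonneg_right h1 (norm_nonneg _)
      linarith
    have h6 : ‖(Real.log m : ℂ) * cA m el (pS J m el) (pS1 J J1 m el)‖ =
        Real.log m * ‖cA m el (pS J m el) (pS1 J J1 m el)‖ := by
      rw [norm_mul, Complex.norm_real, Real.norm_eq_abs, abs_of_nonneg hl]
    have h7 : Real.log m / (4 * D) ≤ Real.log m * ‖cA m el (pS J m el) (pS1 J J1 m el)‖ := by
      have := mul_le_mul_of_nonneg_left h5 hl
      calc Real.log m / (4 * D) = Real.log m * (1 / (4 * D)) := by ring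
        _ ≤ _ := this
    have h8 : ‖(Real.log m : ℂ) * cA m el (pS J m el) (pS1 J J1 m el)‖ ≤
        ‖cA m el (pC J R m el) (pC1 J1 R R1 m el)‖ + ‖δ‖ := by
      have e : (Real.log m : ℂ) * cA m el (pS J m el) (pS1 J J1 m el) =
          cA m el (pC J R m el) (pC1 J1 R R1 m el) - δ := by
        rw [h3]
        ring
      rw [e]
      exact norm_sub_le _ _
    rw [h6] at h8
    linarith
  have hT : Tendsto (fun m : ℕ => ‖cA m el (pC J R m el) (pC1 J1 R R1 m el)‖) atTop atTop := by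
    have h1 : Tendsto (fun m : ℕ => Real.log m / (4 * D) - D) atTop atTop := by
      apply tendsto_atTop_add_const_right
      apply Tendsto.atTop_div_const (by positivity)
      exact Real.tendsto_log_atTop.comp tendsto_natCast_atTop_atTop
    refine tendsto_atTop_mono' atTop ?_ h1
    filter_upwards [eventually_ge_atTop (max m0 1)] with m hm
    exact hlow m hm
  refine ⟨⟨D, max m0 1, fun m hm => ?_⟩, hT, ?_⟩
  · obtain ⟨δ, h1, h2, h3, h4⟩ := key m hm
    refine ⟨h2, ?_⟩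
    have hm1 : 1 ≤ m := (le_max_right _ _).trans hm
    have hl := hlog m hm1
    rw [h3]
    refine (norm_add_le _ _).trans ?_
    rw [norm_mul, Complex.norm_real, Real.norm_eq_abs, abs_of_nonneg hl]
    have := mul_le_mul_of_nonneg_left h2 hl
    linarith
  · have h1 : Tendsto (fun m : ℕ => D / ‖cA m el (pC J R m el) (pC1 J1 R R1 m el)‖) atTop (𝓝 0) :=
      tendsto_const_nhds.div_atTop hT
    refine squeeze_zero' ?_ ?_ h1
    · exact Eventually.of_forall fun m => by positivity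
    · filter_upwards [eventually_ge_atTop (max m0 1)] with m hm
      obtain ⟨δ, h1, h2, h3, h4⟩ := key m hm
      exact div_le_div_of_nonneg_right h2 (norm_nonneg _)

end N_edge_num

end Pool.Agent.Helper459.SK
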