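import Mathlib
import Pool.Agent.Helper459.SK.Defs
import Pool.Agent.Helper459.SK.L_bes_bound

set_option autoImplicit false

noncomputable section

open MeasureTheory Set Filter Topology
open scoped ContDiff ComplexConjugate

namespace Pool.Agent.Helper459.SK
open N_bes_bound

namespace N_phi_bd


theorem aux_sqsum (A B D : ℝ) (hA : A ^ 2 ≤ 4 * D) (hB : B ^ 2 ≤ D) : (A - B) ^ 2 ≤ 10 * D := by
  nlinarith [sq_nonneg (A + B)]

theorem aux_su (s u D : ℝ) (hs : 0 < s) (hs1 : s ≤ 1) (hu : u ^ 2 ≤ D) : (s * u) ^ 2 ≤ D := by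
  have h1 : s ^ 2 ≤ 1 := by nlinarith
  have h2 : s ^ 2 * u ^ 2 ≤ 1 * u ^ 2 := mul_le_mul_of_nonneg_right h1 (sq_nonneg u)
  calc (s * u) ^ 2 = s ^ 2 * u ^ 2 := by ring
    _ ≤ 1 * u ^ 2 := h2
    _ = u ^ 2 := one_mul _
    _ ≤ D := hu

theorem aux_Eu (E u D : ℝ) (hE : 1 ≤ E) (hu : E * u ^ 2 ≤ D) : u ^ 2 ≤ D := by
  have h2 : 1 * u ^ 2 ≤ E * u ^ 2 := mul_le_mul_of_nonneg_right hE (sq_nonneg u)
  linarith

theorem aux_sy (s y : ℝ) (hs : 0 < s) (hs1 : s ≤ 1) (hy : 0 ≤ y) : (1 + s * y) ^ 2 ≤ (1 + y) ^ 2 := by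
  have h1 : s * y ≤ y := by nlinarith
  have h2 : 0 ≤ s * y := by positivity
  exact pow_le_pow_left₀ (by linarith) (by linarith) 2

theorem aux_exp (y : ℝ) (hy0 : 0 ≤ y) : (1 + y) ^ 2 ≤ 4 * Real.exp y := by
  have h7 : 1 + y ≤ 2 * Real.exp (y / 2) := by
    have := Real.add_one_le_exp (y / 2)
    linarith
  have h8 : Real.exp y = Real.exp (y / 2) ^ 2 := by
    rw [← Real.exp_nat_mul]
    congr 1
    push_cast
    ring
  rw [h8]
  have h9 := pow_le_pow_left₀ (by linarith : 0 ≤ 1 + y) h7 2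
  linarith

theorem aux_abs (x : ℝ) : |x| ≤ 1 + x ^ 2 := by
  have h1 := sq_abs x
  nlinarith [sq_nonneg (|x| - 1), abs_nonneg x]

theorem phi_bd (J J1 R R1 : ℝ → ℝ) (C : ℝ) (h : Bes J J1 R R1 C) :
    ∃ C' : ℝ, ∀ m : ℕ, 1 ≤ m → ∀ s : ℝ, 0 < s → s ≤ el → |pS J m s| ≤ C' ∧ |pC J R m s| ≤ C' := by
  obtain ⟨D, hD⟩ := bes_bound J J1 R R1 C h
  refine ⟨2 + 2 * |C| + 10 * |D|, ?_⟩
  intro m hm s hs hse
  have hs1 : s ≤ 1 := by
    unfold el at hse
    linarith
  have hm0 : (0 : ℝ) < m := by exact_mod_cast hm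
  obtain ⟨y, hy⟩ : ∃ y : ℝ, y = Real.log m - 1 / s := ⟨_, rfl⟩
  have hX : XX m s = Real.exp (2 * y) / 4 := by
    unfold XX
    congr 1
    have e3 : Real.exp (2 * y) = Real.exp (2 * Real.log m) * Real.exp (-2 / s) := by
      rw [← Real.exp_add]
      congr 1
      rw [hy]
      ring
    have e4 : Real.exp (2 * Real.log m) = (m : ℝ) ^ 2 := by
      have : 2 * Real.log (m : ℝ) = Real.log m + Real.log m := by ring
      rw [this, Real.exp_add, Real.exp_log hm0]
      ring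
    rw [e3, e4]
  have hXpos : 0 < XX m s := by
    rw [hX]
    positivity
  have hCa := le_abs_self C
  have hDa := le_abs_self D
  have hC0 := abs_nonneg C
  have hD0 := abs_nonneg D
  unfold pS pC
  rcases le_total y 0 with hy0 | hy0
  · have hX1 : XX m s ≤ 1 := by
      rw [hX]
      have : Real.exp (2 * y) ≤ 1 := by
        rw [Real.exp_le_one_iff]
        linarith
      linarith
    have hJ := h.bJ _ hXpos hX1
    have hR := h.bR _ hXpos hX1
    have hCX : C * XX m s ≤ |C| := by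
      calc C * XX m s ≤ |C| * XX m s := mul_le_mul_of_nonneg_right hCa hXpos.le
        _ ≤ |C| * 1 := mul_le_mul_of_nonneg_left hX1 hC0
        _ = |C| := mul_one _
    have hJ2 : |J (XX m s)| ≤ 1 + |C| := by
      have e : J (XX m s) = (J (XX m s) - 1) + 1 := by ring
      rw [e]
      refine (abs_add_le _ _).trans ?_
      rw [abs_one]
      linarith
    have hsJ : |s * J (XX m s)| ≤ |J (XX m s)| := by
      rw [abs_mul, abs_of_pos hs]
      exact mul_le_of_le_one_left (abs_nonneg _) hs1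
    have hsR : |s * R (XX m s)| ≤ |R (XX m s)| := by
      rw [abs_mul, abs_of_pos hs]
      exact mul_le_of_le_one_left (abs_nonneg _) hs1
    constructor
    · linarith
    · refine (abs_add_le _ _).trans ?_
      linarith
  · obtain ⟨h1, h2⟩ := hD y hy0
    rw [← hX] at h1 h2
    have hey : 1 ≤ Real.exp y := Real.one_le_exp hy0
    have h3 : Real.exp y * J (XX m s) ^ 2 ≤ D := by
      have : 0 ≤ Real.exp (-y) * (2 * J1 (XX m s)) ^ 2 := by positivity
      linarith
    have h4 : Real.exp y * (y * J (XX m s) - R (XX m s)) ^ 2 ≤ D := by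
      have : 0 ≤ Real.exp (-y) * (J (XX m s) + 2 * y * J1 (XX m s) - 2 * R1 (XX m s)) ^ 2 := by
        positivity
      linarith
    have h5 : J (XX m s) ^ 2 ≤ D := aux_Eu _ _ _ hey h3
    have h6 : (y * J (XX m s) - R (XX m s)) ^ 2 ≤ D := aux_Eu _ _ _ hey h4
    have hexp := aux_exp y hy0
    have hA : ((1 + s * y) * J (XX m s)) ^ 2 ≤ 4 * D := by
      have h9 := aux_sy s y hs hs1 hy0
      calc ((1 + s * y) * J (XX m s)) ^ 2 = (1 + s * y) ^ 2 * J (XX m s) ^ 2 := by ring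
        _ ≤ (4 * Real.exp y) * J (XX m s) ^ 2 :=
            mul_le_mul_of_nonneg_right (h9.trans hexp) (sq_nonneg _)
        _ = 4 * (Real.exp y * J (XX m s) ^ 2) := by ring
        _ ≤ 4 * D := by linarith
    have hB := aux_su s _ D hs hs1 h6
    constructor
    · refine (aux_abs _).trans ?_
      have := aux_su s _ D hs hs1 h5
      linarith
    · refine (aux_abs _).trans ?_
      have e : J (XX m s) + s * R (XX m s) = (1 + s * y) * J (XX m s) -
          s * (y * J (XX m s) - R (XX m s)) := by ring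
      rw [e]
      have := aux_sqsum _ _ D hA hB
      linarith

end N_phi_bd

end Pool.Agent.Helper459.SK
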