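import Mathlib
import Pool.Agent.Helper459.SK.Defs
import Pool.Agent.Helper459.SK.L_bes_bound

set_option autoImplicit false

noncomputable section

open MeasureTheory Set Filter Topology
open scoped ContDiff ComplexConjugate

namespace Pool.Agent.Helper459.SK
open N_bes_bound

namespace N_phi_lim

lemma sq_lim {l : Filter ℝ} {f : ℝ → ℝ} (h : Tendsto (fun y => f y ^ 2) l (𝓝 0)) :
    Tendsto f l (𝓝 0) := by
  have h1 := h.sqrt
  rw [Real.sqrt_zero] at h1
  simp only [Real.sqrt_sq_eq_abs] at h1
  exact (tendsto_zero_iff_abs_tendsto_zero f).2 h1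

lemma exp_sq {C y x z : ℝ} (h : Real.exp y * x ^ 2 + Real.exp (-y) * z ^ 2 ≤ C) :
    x ^ 2 ≤ C * Real.exp (-y) := by
  have h1 : 0 ≤ Real.exp (-y) * z ^ 2 := by positivity
  have h2 : Real.exp y * x ^ 2 ≤ C := by linarith
  have h3 : x ^ 2 = (Real.exp y * x ^ 2) * Real.exp (-y) := by
    rw [Real.exp_neg]
    have := Real.exp_ne_zero y
    field_simp
  rw [h3]
  exact mul_le_mul_of_nonneg_right h2 (Real.exp_pos _).le

theorem phi_lim (J J1 R R1 : ℝ → ℝ) (C : ℝ) (h : Bes J J1 R R1 C) (s : ℝ) (hs : 0 < s) :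
    Tendsto (fun m : ℕ => pS J m s) atTop (𝓝 0) ∧ Tendsto (fun m : ℕ => pC J R m s) atTop (𝓝 0) := by
  obtain ⟨C', hC⟩ := bes_bound J J1 R R1 C h
  have e1 : Tendsto (fun y : ℝ => C' * Real.exp (-y)) atTop (𝓝 0) := by
    have := Real.tendsto_exp_neg_atTop_nhds_zero.const_mul C'
    simpa using this
  have e2 : Tendsto (fun y : ℝ => C' * (y ^ 2 * Real.exp (-y))) atTop (𝓝 0) := by
    have := (Real.tendsto_pow_mul_exp_neg_atTop_nhds_zero 2).const_mul C'
    simpa using this
  have hJ : Tendsto (fun y : ℝ => J (Real.exp (2 * y) / 4)) atTop (𝓝 0) := by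
    apply sq_lim
    refine tendsto_of_tendsto_of_tendsto_of_le_of_le' tendsto_const_nhds e1 ?_ ?_
    · exact Eventually.of_forall fun y => by positivity
    · filter_upwards [eventually_ge_atTop 0] with y hy
      exact exp_sq (hC y hy).1
  have hyJ : Tendsto (fun y : ℝ => y * J (Real.exp (2 * y) / 4)) atTop (𝓝 0) := by
    apply sq_lim
    refine tendsto_of_tendsto_of_tendsto_of_le_of_le' tendsto_const_nhds e2 ?_ ?_
    · exact Eventually.of_forall fun y => by positivity
    · filter_upwards [eventually_ge_atTop 0] with y hy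
      have := exp_sq (hC y hy).1
      rw [mul_pow]
      nlinarith [mul_le_mul_of_nonneg_left this (sq_nonneg y)]
  have hD : Tendsto (fun y : ℝ => y * J (Real.exp (2 * y) / 4) - R (Real.exp (2 * y) / 4)) atTop (𝓝 0) := by
    apply sq_lim
    refine tendsto_of_tendsto_of_tendsto_of_le_of_le' tendsto_const_nhds e1 ?_ ?_
    · exact Eventually.of_forall fun y => by positivity
    · filter_upwards [eventually_ge_atTop 0] with y hy
      exact exp_sq (hC y hy).2
  have hR : Tendsto (fun y : ℝ => R (Real.exp (2 * y) / 4)) atTop (𝓝 0) := by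
    have := hyJ.sub hD
    simpa using this
  have hY : Tendsto (fun m : ℕ => Real.log m - 1 / s) atTop atTop := by
    have h1 : Tendsto (fun m : ℕ => Real.log m) atTop atTop :=
      Real.tendsto_log_atTop.comp tendsto_natCast_atTop_atTop
    have := tendsto_atTop_add_const_right atTop (-(1 / s)) h1
    simpa [sub_eq_add_neg] using this
  have hX : ∀ᶠ m : ℕ in atTop, Real.exp (2 * (Real.log m - 1 / s)) / 4 = XX m s := by
    filter_upwards [eventually_ge_atTop 1] with m hm
    have hm0 : (0 : ℝ) < m := by exact_mod_cast hm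
    unfold XX
    have e3 : 2 * (Real.log m - 1 / s) = Real.log m + Real.log m + (-2 / s) := by ring
    rw [e3, Real.exp_add, Real.exp_add, Real.exp_log hm0]
    ring
  have hJ' : Tendsto (fun m : ℕ => J (XX m s)) atTop (𝓝 0) := by
    refine (hJ.comp hY).congr' ?_
    filter_upwards [hX] with m hm
    simp only [Function.comp, hm]
  have hR' : Tendsto (fun m : ℕ => R (XX m s)) atTop (𝓝 0) := by
    refine (hR.comp hY).congr' ?_
    filter_upwards [hX] with m hm
    simp only [Function.comp, hm]
  constructor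
  · have := hJ'.const_mul s
    simpa [pS] using this
  · have := hJ'.add (hR'.const_mul s)
    simpa [pC] using this

end N_phi_lim

end Pool.Agent.Helper459.SK
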