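import Mathlib
import Pool.Agent.Helper459.SK.Defs
import Pool.Agent.Helper459.SK.L_phi_bd
import Pool.Agent.Helper459.SK.L_phi_lim
import Pool.Agent.Helper459.SK.L_phiS
import Pool.Agent.Helper459.SK.L_phiC

set_option autoImplicit false

noncomputable section

open MeasureTheory Set Filter Topology
open scoped ContDiff ComplexConjugate

namespace Pool.Agent.Helper459.SK
open N_phi_bd
open N_phi_lim
open N_phiS
open N_phiC

namespace N_phi_l2

private theorem aux (p : ℕ → ℝ → ℝ) (C' : ℝ) (hb : ∀ m : ℕ, 1 ≤ m → ∀ s : ℝ, 0 < s → s ≤ el → |p m s| ≤ C')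
    (hl : ∀ s : ℝ, 0 < s → Tendsto (fun m : ℕ => p m s) atTop (𝓝 0))
    (hc : ∀ m : ℕ, 1 ≤ m → ∀ s : ℝ, 0 < s → ContinuousAt (p m) s) :
    Tendsto (fun m : ℕ => ∫ s in (0 : ℝ)..el, p m s ^ 2) atTop (𝓝 0) := by
  have hel : (0 : ℝ) ≤ el := by unfold el; norm_num
  have key := intervalIntegral.tendsto_integral_filter_of_dominated_convergence (μ := volume) (a := 0) (b := el)
    (l := (atTop : Filter ℕ)) (F := fun m s => p m s ^ 2) (f := fun _ => (0 : ℝ)) (fun _ => C' ^ 2) ?_ ?_ ?_ ?_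
  · simpa using key
  · filter_upwards [eventually_ge_atTop 1] with m hm
    rw [uIoc_of_le hel]
    refine ContinuousOn.aestronglyMeasurable ?_ measurableSet_Ioc
    intro s hs
    exact ((hc m hm s hs.1).pow 2).continuousWithinAt
  · filter_upwards [eventually_ge_atTop 1] with m hm
    refine Eventually.of_forall fun s hs => ?_
    rw [uIoc_of_le hel] at hs
    have h1 := hb m hm s hs.1 hs.2
    rw [Real.norm_eq_abs, abs_of_nonneg (sq_nonneg _), ← sq_abs]
    exact pow_le_pow_left₀ (abs_nonneg _) h1 2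
  · exact intervalIntegrable_const
  · refine Eventually.of_forall fun s hs => ?_
    rw [uIoc_of_le hel] at hs
    have h1 := (hl s hs.1).pow 2
    simpa using h1

theorem phi_l2 (J J1 R R1 : ℝ → ℝ) (C : ℝ) (h : Bes J J1 R R1 C) :
    Tendsto (fun m : ℕ => ∫ s in (0 : ℝ)..el, pS J m s ^ 2) atTop (𝓝 0) ∧
    Tendsto (fun m : ℕ => ∫ s in (0 : ℝ)..el, pC J R m s ^ 2) atTop (𝓝 0) := by
  obtain ⟨C', hC'⟩ := phi_bd J J1 R R1 C h
  constructor
  · exact aux (pS J) C' (fun m hm s hs hs' => (hC' m hm s hs hs').1) (fun s hs => (phi_lim J J1 R R1 C h s hs).1)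
      (fun m hm s hs => ((phiS J J1 R R1 C h m hm).d0 s hs).continuousAt)
  · exact aux (pC J R) C' (fun m hm s hs hs' => (hC' m hm s hs hs').2) (fun s hs => (phi_lim J J1 R R1 C h s hs).2)
      (fun m hm s hs => ((phiC J J1 R R1 C h m hm).d0 s hs).continuousAt)

end N_phi_l2

end Pool.Agent.Helper459.SK
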