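import Mathlib
import Pool.Agent.Helper459.SK.Defs
import Pool.Agent.Helper459.SK.L_bessel
import Pool.Agent.Helper459.SK.L_phiS
import Pool.Agent.Helper459.SK.L_phiC
import Pool.Agent.Helper459.SK.L_phi_bd
import Pool.Agent.Helper459.SK.L_phi_l2
import Pool.Agent.Helper459.SK.L_ep_alg
import Pool.Agent.Helper459.SK.L_ep_bd
import Pool.Agent.Helper459.SK.L_b_est
import Pool.Agent.Helper459.SK.L_edge_W
import Pool.Agent.Helper459.SK.L_edge_num

set_option autoImplicit false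

noncomputable section

open MeasureTheory Set Filter Topology
open scoped ContDiff ComplexConjugate

namespace Pool.Agent.Helper459.SK
open N_bessel
open N_phiS
open N_phiC
open N_phi_bd
open N_phi_l2
open N_ep_alg
open N_ep_bd
open N_b_est
open N_edge_W
open N_edge_num

namespace N_edge

theorem cs_aux (f : ℝ → ℂ) (g : ℝ → ℝ) (a : ℝ) (ha : 0 < a) (M : ℝ) (hf : ContinuousOn f (Icc 0 a))
    (hg : ContinuousOn g (Ioc 0 a)) (hM : ∀ s ∈ Ioc 0 a, |g s| ≤ M) :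
    ‖∫ s in (0:ℝ)..a, f s * (g s : ℂ)‖ ≤
      Real.sqrt (∫ s in (0:ℝ)..a, ‖f s‖ ^ 2) * Real.sqrt (∫ s in (0:ℝ)..a, g s ^ 2) := by
  rw [intervalIntegral.integral_of_le ha.le, intervalIntegral.integral_of_le ha.le,
    intervalIntegral.integral_of_le ha.le]
  obtain ⟨M', hM'⟩ := isCompact_Icc.exists_bound_of_continuousOn hf
  have hfm : MemLp f (ENNReal.ofReal 2) (volume.restrict (Ioc 0 a)) := by
    refine MemLp.of_bound ((hf.mono Ioc_subset_Icc_self).aestronglyMeasurable measurableSet_Ioc) M' ?_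
    filter_upwards [ae_restrict_mem measurableSet_Ioc] with s hs
    exact hM' s (Ioc_subset_Icc_self hs)
  have hgm : MemLp (fun s => (g s : ℂ)) (ENNReal.ofReal 2) (volume.restrict (Ioc 0 a)) := by
    refine MemLp.of_bound ((Complex.continuous_ofReal.comp_continuousOn hg).aestronglyMeasurable
      measurableSet_Ioc) M ?_
    filter_upwards [ae_restrict_mem measurableSet_Ioc] with s hs
    rw [Complex.norm_real]
    exact hM s hs
  have h1 := MeasureTheory.integral_mul_norm_le_Lp_mul_Lq (p := 2) (q := 2)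
    (Real.HolderConjugate.two_two) hfm hgm
  refine (norm_integral_le_integral_norm _).trans ?_
  simp only [norm_mul]
  refine h1.trans (le_of_eq ?_)
  rw [← Real.sqrt_eq_rpow, ← Real.sqrt_eq_rpow]
  congr 2
  · refine integral_congr_ae (Filter.Eventually.of_forall fun s => ?_)
    simp
  · refine integral_congr_ae (Filter.Eventually.of_forall fun s => ?_)
    simp

theorem alg_aux {A B c Cb r i g e : ℝ} (hA : 0 ≤ A) (hB : 0 ≤ B) (hc : 0 ≤ c) (hCb : 0 < Cb)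
    (hr : 0 ≤ r) (hi : 0 ≤ i) (hg : 1 ≤ g) (he : 0 ≤ e) (h4 : 4 * (Cb * i) ≤ 1)
    (hb : B ≤ Cb * (2 * (c * r) + (A + B) * i))
    (hC : 2 * A * g ≤ 2 * B * g + c + 2 * (c * e)) :
    A ≤ 2 * (4 * c * Cb * r + c * (1 / 2 + e) * g⁻¹) ∧
    B ≤ 2 * Cb * (2 * c * r + 2 * (4 * c * Cb * r + c * (1 / 2 + e) * g⁻¹) * i) := by
  have hg0 : 0 < g := by linarith
  have h1 : B ≤ 2 * Cb * (2 * c * r + A * i) := by
    have : 4 * (Cb * i) * B ≤ B := by nlinarith
    nlinarith [mul_nonneg hCb.le (mul_nonneg hc hr), mul_nonneg (mul_nonneg hCb.le hA) hi]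
  have h2 : A ≤ B + c * (1 / 2 + e) * g⁻¹ := by
    have h3 : A * g ≤ (B + c * (1 / 2 + e) * g⁻¹) * g := by
      have : (B + c * (1 / 2 + e) * g⁻¹) * g = B * g + c * (1 / 2 + e) := by field_simp
      rw [this]; nlinarith
    exact le_of_mul_le_mul_right h3 hg0
  have h3 : 2 * Cb * (A * i) ≤ A / 2 := by nlinarith
  have h5 : A ≤ 2 * (4 * c * Cb * r + c * (1 / 2 + e) * g⁻¹) := by
    nlinarith
  refine ⟨h5, h1.trans ?_⟩
  have h6 : A * i ≤ 2 * (4 * c * Cb * r + c * (1 / 2 + e) * g⁻¹) * i := mul_le_mul_of_nonneg_right h5 hi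
  have h7 : 2 * c * r + A * i ≤ 2 * c * r + 2 * (4 * c * Cb * r + c * (1 / 2 + e) * g⁻¹) * i := by linarith
  exact mul_le_mul_of_nonneg_left h7 (by positivity)

theorem edge (χ : ℝ → ℝ) (hχ : Chi χ) : ∃ (Rm : ℕ → ℝ) (C0 : ℝ), (∀ m, 0 ≤ Rm m) ∧
    (∃ m0 : ℕ, ∀ m : ℕ, m0 ≤ m → Rm m ≤ C0 * (1 + Real.log m) ^ 2) ∧
    ∀ C : ℝ, ∃ (C1 : ℝ) (δ : ℕ → ℝ), Tendsto δ atTop (𝓝 0) ∧
      ∀ (m : ℕ) (G G1 K : ℝ → ℂ), EdgeHyp χ m C G G1 K → 1 ≤ m →
        (C1 ≤ m → ‖G 0‖ ≤ δ m ∧ |‖G1 0‖ ^ 2 - Rm m * (conj (G el) * G1 el).im| ≤ δ m ∧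
        (m : ℝ) ^ 2 * ‖G el‖ ^ 2 + ‖G1 el‖ ^ 2 ≤ C1 * m) := by
  obtain ⟨J, J1, R, R1, Cb0, hBes⟩ := bessel
  obtain ⟨⟨Cn, m0, hn⟩, hgt, hrat⟩ := edge_num J J1 R R1 Cb0 hBes
  obtain ⟨Cb, hCb, hb⟩ := b_est χ hχ
  obtain ⟨Cp, hCp, hp⟩ := ep_bd
  obtain ⟨Mb, hMb⟩ := phi_bd J J1 R R1 Cb0 hBes
  obtain ⟨hlS, hlC⟩ := phi_l2 J J1 R R1 Cb0 hBes
  have hel : (0 : ℝ) < el := by norm_num [el]
  set gm : ℕ → ℝ := fun m => ‖cA m el (pC J R m el) (pC1 J1 R R1 m el)‖ with hgm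
  set em : ℕ → ℝ := fun m => ‖cA m el (pS J m el) (pS1 J J1 m el)‖ with hem
  have hgm0 : ∀ m, 0 ≤ gm m := fun m => norm_nonneg _
  have hem0 : ∀ m, 0 ≤ em m := fun m => norm_nonneg _
  refine ⟨fun m => 4 * gm m ^ 2, 4 * Cn ^ 2, fun m => by positivity, ⟨m0, fun m hm => ?_⟩, ?_⟩
  · have h1 := pow_le_pow_left₀ (hgm0 m) (hn m hm).2 2
    simp only
    nlinarith
  intro C
  set c : ℝ := |C| with hc
  have hc0 : 0 ≤ c := abs_nonneg C
  set eS : ℕ → ℝ := fun m => Real.sqrt (∫ s in (0 : ℝ)..el, pS J m s ^ 2) with heS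
  set eC : ℕ → ℝ := fun m => Real.sqrt (∫ s in (0 : ℝ)..el, pC J R m s ^ 2) with heC
  have heS0 : ∀ m, 0 ≤ eS m := fun m => Real.sqrt_nonneg _
  have heC0 : ∀ m, 0 ≤ eC m := fun m => Real.sqrt_nonneg _
  have teS : Tendsto eS atTop (𝓝 0) := by
    have := (Real.continuous_sqrt.tendsto 0).comp hlS
    rw [Real.sqrt_zero] at this
    exact this
  have teC : Tendsto eC atTop (𝓝 0) := by
    have := (Real.continuous_sqrt.tendsto 0).comp hlC
    rw [Real.sqrt_zero] at this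
    exact this
  set r : ℕ → ℝ := fun m => (Real.sqrt m)⁻¹ with hr
  set i : ℕ → ℝ := fun m => ((m : ℝ))⁻¹ with hi
  have hr0 : ∀ m, 0 ≤ r m := fun m => inv_nonneg.2 (Real.sqrt_nonneg _)
  have hi0 : ∀ m, 0 ≤ i m := fun m => inv_nonneg.2 (Nat.cast_nonneg _)
  have ti : Tendsto i atTop (𝓝 0) := tendsto_inv_atTop_zero.comp tendsto_natCast_atTop_atTop
  have tr : Tendsto r atTop (𝓝 0) := by
    have h1 : Tendsto (fun m : ℕ => Real.sqrt (i m)) atTop (𝓝 0) := by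
      have := (Real.continuous_sqrt.tendsto 0).comp ti
      rw [Real.sqrt_zero] at this
      exact this
    refine h1.congr fun m => ?_
    simp only [hr, hi, Real.sqrt_inv]
  have tlog : Tendsto (fun m : ℕ => Real.log m * r m) atTop (𝓝 0) := by
    have h1 := (isLittleO_log_rpow_atTop (r := 1 / 2) (by norm_num)).tendsto_div_nhds_zero
    have h2 := h1.comp (tendsto_natCast_atTop_atTop (R := ℝ))
    refine h2.congr fun m => ?_
    simp only [Function.comp, hr]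
    rw [← Real.sqrt_eq_rpow, div_eq_mul_inv]
  have tgr : Tendsto (fun m => gm m * r m) atTop (𝓝 0) := by
    have h1 : Tendsto (fun m : ℕ => Cn * (r m + Real.log m * r m)) atTop (𝓝 0) := by
      have := (tr.add tlog).const_mul Cn
      simpa using this
    refine squeeze_zero' (Filter.Eventually.of_forall fun m => mul_nonneg (hgm0 m) (hr0 m)) ?_ h1
    filter_upwards [eventually_ge_atTop m0] with m hm
    have h2 := mul_le_mul_of_nonneg_right (hn m hm).2 (hr0 m)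
    calc gm m * r m ≤ Cn * (1 + Real.log m) * r m := h2
      _ = _ := by ring
  have ter : Tendsto (fun m => em m * r m) atTop (𝓝 0) := by
    have h1 : Tendsto (fun m : ℕ => Cn * r m) atTop (𝓝 0) := by
      have := tr.const_mul Cn
      simpa using this
    refine squeeze_zero' (Filter.Eventually.of_forall fun m => mul_nonneg (hem0 m) (hr0 m)) ?_ h1
    filter_upwards [eventually_ge_atTop m0] with m hm
    exact mul_le_mul_of_nonneg_right (hn m hm).1 (hr0 m)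
  have tgi : Tendsto (fun m => (gm m)⁻¹) atTop (𝓝 0) := tendsto_inv_atTop_zero.comp hgt
  have teg : Tendsto (fun m => em m * (gm m)⁻¹) atTop (𝓝 0) := by
    refine hrat.congr fun m => ?_
    rw [div_eq_mul_inv]
  set bA : ℕ → ℝ := fun m => 2 * (4 * c * Cb * r m + c * (1 / 2 + eC m) * (gm m)⁻¹) with hbA
  set bB : ℕ → ℝ := fun m => 2 * Cb * (2 * c * r m + bA m * i m) with hbB
  have tbA : Tendsto bA atTop (𝓝 0) := by
    have h1 := ((tr.const_mul (4 * c * Cb)).add (((teC.const_add (1 / 2)).const_mul c).mul tgi)).const_mul 2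
    have h2 : 2 * (4 * c * Cb * 0 + c * (1 / 2 + 0) * 0) = 0 := by ring
    rw [h2] at h1
    exact h1
  have tbB : Tendsto bB atTop (𝓝 0) := by
    have h1 := ((tr.const_mul (2 * c)).add (tbA.mul ti)).const_mul (2 * Cb)
    have h2 : 2 * Cb * (2 * c * 0 + 0 * 0) = 0 := by ring
    rw [h2] at h1
    exact h1
  have hgev : ∀ᶠ m : ℕ in atTop, 1 ≤ gm m := hgt.eventually_ge_atTop 1
  have tbAg : Tendsto (fun m => bA m * gm m) atTop (𝓝 c) := by
    have h1 := ((tgr.const_mul (4 * c * Cb)).add ((teC.const_add (1 / 2)).const_mul c)).const_mul 2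
    have h2 : 2 * (4 * c * Cb * 0 + c * (1 / 2 + 0)) = c := by ring
    rw [h2] at h1
    refine h1.congr' ?_
    filter_upwards [hgev] with m hm
    have hne : gm m ≠ 0 := by linarith
    simp only [hbA]
    field_simp
  have tbBg : Tendsto (fun m => bB m * gm m) atTop (𝓝 0) := by
    have h1 := ((tgr.const_mul (2 * c)).add (tbAg.mul ti)).const_mul (2 * Cb)
    have h2 : 2 * Cb * (2 * c * 0 + c * 0) = 0 := by ring
    rw [h2] at h1
    refine h1.congr fun m => ?_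
    simp only [hbB]
    ring
  have tbAe : Tendsto (fun m => bA m * em m) atTop (𝓝 0) := by
    have h1 := ((ter.const_mul (4 * c * Cb)).add (((teC.const_add (1 / 2)).const_mul c).mul teg)).const_mul 2
    have h2 : 2 * (4 * c * Cb * 0 + c * (1 / 2 + 0) * 0) = 0 := by ring
    rw [h2] at h1
    refine h1.congr fun m => ?_
    simp only [hbA]
    ring
  have tbBe : Tendsto (fun m => bB m * em m) atTop (𝓝 0) := by
    have h1 := ((ter.const_mul (2 * c)).add (tbAe.mul ti)).const_mul (2 * Cb)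
    have h2 : 2 * Cb * (2 * c * 0 + 0 * 0) = 0 := by ring
    rw [h2] at h1
    refine h1.congr fun m => ?_
    simp only [hbB]
    ring
  set w : ℕ → ℝ := fun m => 2 * (bB m * gm m) + 2 * (c * eC m) with hw
  have tw : Tendsto w atTop (𝓝 0) := by
    have h1 := (tbBg.const_mul 2).add ((teC.const_mul c).const_mul 2)
    have h2 : 2 * 0 + 2 * (c * 0) = 0 := by ring
    rw [h2] at h1
    exact h1
  set d1 : ℕ → ℝ := fun m => 2 * (bA m * em m) + 2 * (bB m * em m) + 2 * (c * eS m) with hd1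
  set d2 : ℕ → ℝ := fun m => 2 * (2 * (bA m * gm m)) * w m + w m ^ 2 + 4 * (bB m * gm m) ^ 2 with hd2
  have td1 : Tendsto d1 atTop (𝓝 0) := by
    have h1 := ((tbAe.const_mul 2).add (tbBe.const_mul 2)).add ((teS.const_mul c).const_mul 2)
    have h2 : (2 : ℝ) * 0 + 2 * 0 + 2 * (c * 0) = 0 := by ring
    rw [h2] at h1
    exact h1
  have td2 : Tendsto d2 atTop (𝓝 0) := by
    have h1 := ((((tbAg.const_mul 2).const_mul 2).mul tw).add (tw.pow 2)).add ((tbBg.pow 2).const_mul 4)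
    have h2 : 2 * (2 * c) * 0 + (0 : ℝ) ^ 2 + 4 * 0 ^ 2 = 0 := by ring
    rw [h2] at h1
    exact h1
  have hev : ∀ᶠ m : ℕ in atTop, 1 ≤ gm m ∧ bA m ≤ 1 ∧ bB m ≤ 1 := by
    filter_upwards [hgev, tbA.eventually (eventually_le_nhds (by norm_num : (0 : ℝ) < 1)),
      tbB.eventually (eventually_le_nhds (by norm_num : (0 : ℝ) < 1))] with m h1 h2 h3
    exact ⟨h1, h2, h3⟩
  obtain ⟨m1, hm1⟩ := Filter.eventually_atTop.1 hev
  refine ⟨max (max (4 * Cb) m1) (8 * Cp ^ 2), fun m => d1 m + d2 m, ?_, ?_⟩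
  · have := td1.add td2
    rw [add_zero] at this
    exact this
  intro m G G1 K hE hm hC1
  have hm4 : 4 * Cb ≤ m := le_trans (le_trans (le_max_left _ _) (le_max_left _ _)) hC1
  have hmm1 : m1 ≤ m := by
    have : (m1 : ℝ) ≤ m := le_trans (le_trans (le_max_right _ _) (le_max_left _ _)) hC1
    exact_mod_cast this
  have hm8 : 8 * Cp ^ 2 ≤ max (max (4 * Cb) (m1 : ℝ)) (8 * Cp ^ 2) := le_max_right _ _
  obtain ⟨hg1, hbA1, hbB1⟩ := hm1 m hmm1
  have hmR : (1 : ℝ) ≤ m := by exact_mod_cast hm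
  have hmpos : (0 : ℝ) < m := by linarith
  have hsm : 0 < Real.sqrt m := Real.sqrt_pos.2 hmpos
  have hphS := phiS J J1 R R1 Cb0 hBes m hm
  have hphC := phiC J J1 R R1 Cb0 hBes m hm
  have hS := edge_W m G G1 K hE.ode (pS J m) (pS1 J J1 m) 0 1 hphS
  have hC := edge_W m G G1 K hE.ode (pC J R m) (pC1 J1 R R1 m) 1 0 hphC
  obtain ⟨a1, a2, a3, a4⟩ := ep_alg m hm el hel (G el) (G1 el) (pS J m el) (pS1 J J1 m el)
  obtain ⟨-, -, c3, -⟩ := ep_alg m hm el hel (G el) (G1 el) (pC J R m el) (pC1 J1 R R1 m el)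
  have hbm := hb m hm G G1 K hE.ode
  set A := cA m el (G el) (G1 el) with hA
  set B := cB m el (G el) (G1 el) with hB
  set et := cA m el (pS J m el) (pS1 J J1 m el) with het
  set ga := cA m el (pC J R m el) (pC1 J1 R R1 m el) with hga
  set IS := ∫ s in (0 : ℝ)..el, K s * (pS J m s : ℂ) with hIS
  set IC := ∫ s in (0 : ℝ)..el, K s * (pC J R m s : ℂ) with hIC
  have hgam : gm m = ‖ga‖ := rfl
  have heem : em m = ‖et‖ := rfl
  have nI : ∀ x y : ℂ, ‖-2 * Complex.I * x * y‖ = 2 * ‖x‖ * ‖y‖ := by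
    intro x y
    rw [norm_mul, norm_mul, norm_mul]
    simp
  have nI' : ∀ x y : ℂ, ‖2 * Complex.I * x * y‖ = 2 * ‖x‖ * ‖y‖ := by
    intro x y
    rw [norm_mul, norm_mul, norm_mul]
    simp
  have hKs : Real.sqrt (∫ s in (0 : ℝ)..el, ‖K s‖ ^ 2) ≤ c := by
    rw [hc, ← Real.sqrt_sq_eq_abs]
    exact Real.sqrt_le_sqrt hE.k2
  have hISb : ‖IS‖ ≤ c * eS m := by
    refine (cs_aux K (pS J m) el hel Mb hE.ode.kc
      (fun s hs => (hphS.d0 s hs.1).continuousAt.continuousWithinAt)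
      (fun s hs => (hMb m hm s hs.1 hs.2).1)).trans ?_
    exact mul_le_mul_of_nonneg_right hKs (Real.sqrt_nonneg _)
  have hICb : ‖IC‖ ≤ c * eC m := by
    refine (cs_aux K (pC J R m) el hel Mb hE.ode.kc
      (fun s hs => (hphC.d0 s hs.1).continuousAt.continuousWithinAt)
      (fun s hs => (hMb m hm s hs.1 hs.2).2)).trans ?_
    exact mul_le_mul_of_nonneg_right hKs (Real.sqrt_nonneg _)
  have e1 : G 0 = -2 * Complex.I * A * conj et + 2 * Complex.I * B * et - 2 * IS := by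
    have := a3.symm.trans hS
    rw [this]; push_cast; ring
  have e2 : G1 0 = 2 * Complex.I * A * conj ga + (-2 * Complex.I * B * ga + 2 * IC) := by
    have := c3.symm.trans hC
    have h3 : -(-2 * Complex.I * A * conj ga + 2 * Complex.I * B * ga) + 2 * IC = G1 0 := by
      rw [this]; push_cast; ring
    rw [← h3]; ring
  have hG0c : ‖G 0‖ ≤ c := hE.g0.trans (le_abs_self C)
  have hG1c : ‖G1 0‖ ≤ c := hE.g1.trans (le_abs_self C)
  have hb2 : ‖B‖ ≤ Cb * (2 * (c * r m) + (‖A‖ + ‖B‖) * i m) := by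
    refine hbm.trans (mul_le_mul_of_nonneg_left ?_ hCb.le)
    have h1 : Real.sqrt m * ‖∫ s in (0 : ℝ)..el, (χ s : ℂ) *
        Complex.exp (Complex.I * ((m * T s : ℝ) : ℂ)) * G s‖ ≤ c * r m := by
      have h2 : ‖∫ s in (0 : ℝ)..el, (χ s : ℂ) *
        Complex.exp (Complex.I * ((m * T s : ℝ) : ℂ)) * G s‖ ≤ c / m :=
        hE.osc.trans (div_le_div_of_nonneg_right (le_abs_self C) hmpos.le)
      have h3 : Real.sqrt m * (c / m) = c * r m := by
        simp only [hr]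
        have h4 : (m : ℝ) = Real.sqrt m * Real.sqrt m := (Real.mul_self_sqrt hmpos.le).symm
        field_simp
        rw [Real.sq_sqrt hmpos.le]
        ring
      rw [← h3]
      exact mul_le_mul_of_nonneg_left h2 hsm.le
    have h5 : Real.sqrt (∫ s in (0 : ℝ)..el, ‖K s‖ ^ 2) / Real.sqrt m ≤ c * r m := by
      simp only [hr]
      rw [div_eq_mul_inv]
      exact mul_le_mul_of_nonneg_right hKs (inv_nonneg.2 hsm.le)
    have h6 : (‖A‖ + ‖B‖) / m = (‖A‖ + ‖B‖) * i m := by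
      simp only [hi]; rw [div_eq_mul_inv]
    rw [h6]
    linarith
  have hC2 : 2 * ‖A‖ * gm m ≤ 2 * ‖B‖ * gm m + c + 2 * (c * eC m) := by
    have h1 : 2 * Complex.I * A * conj ga = G1 0 - (-2 * Complex.I * B * ga + 2 * IC) := by
      rw [e2]; ring
    have h2 : ‖2 * Complex.I * A * conj ga‖ = 2 * ‖A‖ * gm m := by
      rw [nI', RCLike.norm_conj]
    rw [← h2, h1]
    refine (norm_sub_le _ _).trans ?_
    have h3 : ‖-2 * Complex.I * B * ga + 2 * IC‖ ≤ 2 * ‖B‖ * gm m + 2 * (c * eC m) := by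
      refine (norm_add_le _ _).trans ?_
      rw [nI, norm_mul]
      have : ‖(2 : ℂ)‖ = 2 := by simp
      rw [this]
      linarith
    linarith
  have h4i : 4 * (Cb * i m) ≤ 1 := by
    simp only [hi]
    have : 4 * (Cb * (m : ℝ)⁻¹) = 4 * Cb / m := by ring
    rw [this, div_le_one hmpos]
    exact hm4
  obtain ⟨hAb, hBb⟩ := alg_aux (norm_nonneg A) (norm_nonneg B) hc0 hCb (hr0 m) (hi0 m) hg1 (heC0 m) h4i hb2 hC2
  have hAb' : ‖A‖ ≤ bA m := hAb
  have hBb' : ‖B‖ ≤ bB m := hBb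
  have hA0 := norm_nonneg A
  have hB0 := norm_nonneg B
  have hbA0 : 0 ≤ bA m := hA0.trans hAb'
  have hbB0 : 0 ≤ bB m := hB0.trans hBb'
  have hw0 : 0 ≤ w m := by
    simp only [hw]
    have := mul_nonneg hbB0 (hgm0 m)
    have := mul_nonneg hc0 (heC0 m)
    linarith
  have hd10 : 0 ≤ d1 m := by
    simp only [hd1]
    have := mul_nonneg hbA0 (hem0 m)
    have := mul_nonneg hbB0 (hem0 m)
    have := mul_nonneg hc0 (heS0 m)
    linarith
  have hd20 : 0 ≤ d2 m := by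
    simp only [hd2]
    have := mul_nonneg (mul_nonneg hbA0 (hgm0 m)) hw0
    nlinarith [sq_nonneg (w m), sq_nonneg (bB m * gm m)]
  refine ⟨?_, ?_, ?_⟩
  · have h1 : ‖G 0‖ ≤ d1 m := by
      rw [e1]
      refine (norm_sub_le _ _).trans ?_
      have h2 : ‖-2 * Complex.I * A * conj et + 2 * Complex.I * B * et‖ ≤ 2 * ‖A‖ * em m + 2 * ‖B‖ * em m := by
        refine (norm_add_le _ _).trans ?_
        rw [nI, nI', RCLike.norm_conj]
      have h3 : ‖2 * IS‖ ≤ 2 * (c * eS m) := by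
        rw [norm_mul]
        have : ‖(2 : ℂ)‖ = 2 := by simp
        rw [this]
        linarith
      have h4 := mul_le_mul_of_nonneg_right hAb' (hem0 m)
      have h5 := mul_le_mul_of_nonneg_right hBb' (hem0 m)
      simp only [hd1]
      linarith
    linarith
  · have h1 : (conj (G el) * G1 el).im = ‖A‖ ^ 2 - ‖B‖ ^ 2 := a4
    rw [h1]
    have hu : ‖2 * Complex.I * A * conj ga‖ = 2 * (‖A‖ * gm m) := by
      rw [nI', RCLike.norm_conj, mul_assoc]
    have hwb : ‖-2 * Complex.I * B * ga + 2 * IC‖ ≤ w m := by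
      refine (norm_add_le _ _).trans ?_
      rw [nI, norm_mul]
      have h2 : ‖(2 : ℂ)‖ = 2 := by simp
      rw [h2]
      have h5 := mul_le_mul_of_nonneg_right hBb' (hgm0 m)
      simp only [hw]
      have : ‖ga‖ = gm m := rfl
      rw [this]
      linarith
    have hN1 := norm_add_le (2 * Complex.I * A * conj ga) (-2 * Complex.I * B * ga + 2 * IC)
    have hN2 := norm_sub_norm_le (2 * Complex.I * A * conj ga) (-(-2 * Complex.I * B * ga + 2 * IC))
    rw [norm_neg, sub_neg_eq_add] at hN2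
    rw [← e2, hu] at hN1 hN2
    set N := ‖G1 0‖ with hN
    set W := ‖-2 * Complex.I * B * ga + 2 * IC‖ with hW
    have hW0 : 0 ≤ W := norm_nonneg _
    have hN0 : 0 ≤ N := norm_nonneg _
    set U := ‖A‖ * gm m with hU
    have hU0 : 0 ≤ U := mul_nonneg hA0 (hgm0 m)
    have hUb : U ≤ bA m * gm m := mul_le_mul_of_nonneg_right hAb' (hgm0 m)
    have hBg : ‖B‖ * gm m ≤ bB m * gm m := mul_le_mul_of_nonneg_right hBb' (hgm0 m)
    have hBg0 : 0 ≤ ‖B‖ * gm m := mul_nonneg hB0 (hgm0 m)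
    have e5 : 4 * gm m ^ 2 * (‖A‖ ^ 2 - ‖B‖ ^ 2) = (2 * U) ^ 2 - 4 * (‖B‖ * gm m) ^ 2 := by
      rw [hU]; ring
    rw [e5]
    have h6 : |N ^ 2 - (2 * U) ^ 2| ≤ 2 * (2 * U) * W + W ^ 2 := by
      rw [abs_le]
      constructor
      · nlinarith
      · nlinarith
    have h7 : 2 * (2 * U) * W + W ^ 2 ≤ 2 * (2 * (bA m * gm m)) * w m + w m ^ 2 := by
      have h8 : U * W ≤ (bA m * gm m) * w m := mul_le_mul hUb hwb hW0 (hU0.trans hUb)
      have h9 : W ^ 2 ≤ w m ^ 2 := pow_le_pow_left₀ hW0 hwb 2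
      nlinarith
    have h10 : (‖B‖ * gm m) ^ 2 ≤ (bB m * gm m) ^ 2 := pow_le_pow_left₀ hBg0 hBg 2
    have h11 : |N ^ 2 - ((2 * U) ^ 2 - 4 * (‖B‖ * gm m) ^ 2)| ≤ d2 m := by
      have h12 : N ^ 2 - ((2 * U) ^ 2 - 4 * (‖B‖ * gm m) ^ 2) =
        (N ^ 2 - (2 * U) ^ 2) + 4 * (‖B‖ * gm m) ^ 2 := by ring
      rw [h12]
      refine (abs_add_le _ _).trans ?_
      rw [abs_of_nonneg (by positivity : (0 : ℝ) ≤ 4 * (‖B‖ * gm m) ^ 2)]
      simp only [hd2]
      linarith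
    linarith
  · obtain ⟨p1, p2, -⟩ := hp m hm
    have hAB : ‖A‖ + ‖B‖ ≤ 2 := by linarith
    have hAB0 : 0 ≤ ‖A‖ + ‖B‖ := by linarith
    have h1 : ‖G el‖ ≤ 2 * (Cp / Real.sqrt m) := by
      rw [a1]
      refine (norm_add_le _ _).trans ?_
      rw [norm_mul, norm_mul, RCLike.norm_conj, ← add_mul]
      exact mul_le_mul hAB p1 (norm_nonneg _) (by norm_num)
    have h2 : ‖G1 el‖ ≤ 2 * (Cp * Real.sqrt m) := by
      rw [a2]
      refine (norm_add_le _ _).trans ?_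
      rw [norm_mul, norm_mul, RCLike.norm_conj, ← add_mul]
      exact mul_le_mul hAB p2 (norm_nonneg _) (by norm_num)
    have h3 := pow_le_pow_left₀ (norm_nonneg _) h1 2
    have h4 := pow_le_pow_left₀ (norm_nonneg _) h2 2
    have h5 : (m : ℝ) ^ 2 * (2 * (Cp / Real.sqrt m)) ^ 2 = 4 * Cp ^ 2 * m := by
      have h6 : (2 * (Cp / Real.sqrt m)) ^ 2 = 4 * Cp ^ 2 / (Real.sqrt m) ^ 2 := by ring
      rw [h6, Real.sq_sqrt hmpos.le]
      field_simp
    have h7 : (2 * (Cp * Real.sqrt m)) ^ 2 = 4 * Cp ^ 2 * m := by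
      have h6 : (2 * (Cp * Real.sqrt m)) ^ 2 = 4 * Cp ^ 2 * (Real.sqrt m) ^ 2 := by ring
      rw [h6, Real.sq_sqrt hmpos.le]
    have h8 : (m : ℝ) ^ 2 * ‖G el‖ ^ 2 ≤ 4 * Cp ^ 2 * m := by
      rw [← h5]
      exact mul_le_mul_of_nonneg_left h3 (by positivity)
    rw [h7] at h4
    have h9 : 8 * Cp ^ 2 * m ≤ max (max (4 * Cb) (m1 : ℝ)) (8 * Cp ^ 2) * m :=
      mul_le_mul_of_nonneg_right hm8 hmpos.le
    linarith

end N_edge

end Pool.Agent.Helper459.SK
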