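import Mathlib
import Pool.Agent.Helper459.SK.Defs

set_option autoImplicit false

noncomputable section

open MeasureTheory Set Filter Topology
open scoped ContDiff ComplexConjugate

namespace Pool.Agent.Helper459.SK

namespace N_fb

theorem fb_good (C : ℝ) (G : ℝ → ℂ) (hG : L2b C G) (p : ℝ) (hp : 3 / 2 < p)
    (hq : p + 1 / 3 < 9 / 2) : ∃ z ∈ Icc p (p + 1 / 3), ‖G z‖ ≤ (3 * C ^ 2 + 2) / 2 := by
  by_contra hcon
  push Not at hcon
  have hsub : Icc p (p + 1 / 3) ⊆ Ioo (3 / 2 : ℝ) (9 / 2) := fun x hx =>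
    ⟨lt_of_lt_of_le hp hx.1, lt_of_le_of_lt hx.2 hq⟩
  have hint : IntegrableOn (fun z => ‖G z‖ ^ 2) (Icc p (p + 1 / 3)) := hG.1.mono_set hsub
  have h1 : ∫ z in Icc p (p + 1 / 3), (3 * C ^ 2 + 1 : ℝ) ≤
      ∫ z in Icc p (p + 1 / 3), ‖G z‖ ^ 2 := by
    apply setIntegral_mono_on _ hint measurableSet_Icc
    · intro x hx
      have h2 := hcon x hx
      nlinarith [sq_nonneg (‖G x‖ - 1), sq_nonneg C, norm_nonneg (G x)]
    · exact integrableOn_const (by simp) (by simp)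
  have h3 : ∫ z in Icc p (p + 1 / 3), ‖G z‖ ^ 2 ≤ ∫ z in Ioo (3 / 2 : ℝ) (9 / 2), ‖G z‖ ^ 2 := by
    apply setIntegral_mono_set hG.1
    · exact Filter.Eventually.of_forall (fun x => by positivity)
    · exact hsub.eventuallyLE
  have h4 : ∫ z in Icc p (p + 1 / 3), (3 * C ^ 2 + 1 : ℝ) = (3 * C ^ 2 + 1) * (1 / 3) := by
    rw [setIntegral_const]
    simp [Measure.real, Real.volume_Icc]
    ring
  have h5 := hG.2
  rw [h4] at h1
  linarith

theorem fb_seg (w : ℝ → ℝ) (C : ℝ) (a : ℝ) (ha : 3 / 2 < a) (hb : a + 1 < 9 / 2)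
    (hw0 : ∀ z ∈ Icc a (a + 1), w z = 0) (m : ℕ) (G G1 K : ℝ → ℂ) (hs : Sol w m G G1 K)
    (hG : L2b C G) (hK : L2b C K) :
    ∀ z ∈ Icc a (a + 1), ‖G z‖ ≤ 100 * (C ^ 2 + 1) ∧ ‖G1 z‖ ≤ 100 * (C ^ 2 + 1) := by
  have hsub : Icc a (a + 1) ⊆ Ioo (3 / 2 : ℝ) (9 / 2) := fun x hx =>
    ⟨lt_of_lt_of_le ha hx.1, lt_of_le_of_lt hx.2 hb⟩
  have hd1 : ∀ z ∈ Icc a (a + 1), HasDerivAt G1 (-2 * K z) z := by
    intro z hz
    have h := hs.d1 z (hsub hz)
    rw [hw0 z hz] at h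
    convert h using 1
    push_cast
    ring
  have hB : ∀ z ∈ Icc a (a + 1), ‖G1 z - G1 a‖ ≤ C ^ 2 + 1 := by
    intro z hz
    have hsub2 : uIcc a z ⊆ Icc a (a + 1) := by
      rw [uIcc_of_le hz.1]
      exact Icc_subset_Icc le_rfl hz.2
    have hKc : ContinuousOn K (uIcc a z) := hs.kc.mono (hsub2.trans hsub)
    have hii : IntervalIntegrable (fun x => -2 * K x) volume a z :=
      (continuousOn_const.mul hKc).intervalIntegrable
    have hftc : ∫ x in a..z, -2 * K x = G1 z - G1 a :=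
      intervalIntegral.integral_eq_sub_of_hasDerivAt (fun x hx => hd1 x (hsub2 hx)) hii
    rw [← hftc]
    have h1 : ‖∫ x in a..z, -2 * K x‖ ≤ ∫ x in a..z, (1 + ‖K x‖ ^ 2) := by
      apply intervalIntegral.norm_integral_le_of_norm_le hz.1
      · refine Filter.Eventually.of_forall (fun x _ => ?_)
        rw [norm_mul]
        have : ‖(-2 : ℂ)‖ = 2 := by simp
        rw [this]
        nlinarith [sq_nonneg (‖K x‖ - 1)]
      · exact ((continuousOn_const.add (hKc.norm.pow 2))).intervalIntegrable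
    have h2 : ∫ x in a..z, (1 + ‖K x‖ ^ 2) = (z - a) + ∫ x in a..z, ‖K x‖ ^ 2 := by
      rw [intervalIntegral.integral_add]
      · simp
      · exact intervalIntegrable_const
      · exact (hKc.norm.pow 2).intervalIntegrable
    have h3 : ∫ x in a..z, ‖K x‖ ^ 2 ≤ C ^ 2 := by
      rw [intervalIntegral.integral_of_le hz.1]
      refine le_trans ?_ hK.2
      apply setIntegral_mono_set hK.1
      · exact Filter.Eventually.of_forall (fun x => by positivity)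
      · refine LE.le.eventuallyLE (show _ ≤ _ from ?_)
        intro x hx
        exact hsub ⟨hx.1.le, hx.2.trans hz.2⟩
    have h4 : z - a ≤ 1 := by linarith [hz.2]
    linarith
  have hF : ∀ z ∈ Icc a (a + 1), ‖G z - G a - ((z - a : ℝ) : ℂ) * G1 a‖ ≤ C ^ 2 + 1 := by
    intro z hz
    have h := norm_image_sub_le_of_norm_deriv_le_segment'
      (f := fun x => G x - ((x - a : ℝ) : ℂ) * G1 a) (f' := fun x => G1 x - G1 a)
      (C := C ^ 2 + 1) (a := a) (b := a + 1) (by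
        intro x hx
        apply HasDerivAt.hasDerivWithinAt
        have h1 := hs.d0 x (hsub hx)
        have h2 : HasDerivAt (fun y : ℝ => ((y - a : ℝ) : ℂ)) 1 x := by
          have : HasDerivAt (fun y : ℝ => y - a) 1 x := (hasDerivAt_id x).sub_const a
          simpa using this.ofReal_comp
        have h3 := h1.fun_sub (h2.mul_const (G1 a))
        rw [one_mul] at h3
        exact h3) (fun x hx => hB x ⟨hx.1, hx.2.le⟩) z hz
    simp only [sub_self, Complex.ofReal_zero, zero_mul, sub_zero] at h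
    have h5 : G z - ((z - a : ℝ) : ℂ) * G1 a - G a = G z - G a - ((z - a : ℝ) : ℂ) * G1 a := by ring
    rw [h5] at h
    have h6 : (C ^ 2 + 1) * (z - a) ≤ C ^ 2 + 1 := by
      have : z - a ≤ 1 := by linarith [hz.2]
      nlinarith [sq_nonneg C]
    linarith
  obtain ⟨z1, hz1, hg1⟩ := fb_good C G hG a ha (by linarith)
  obtain ⟨z2, hz2, hg2⟩ := fb_good C G hG (a + 2 / 3) (by linarith) (by linarith)
  have hz1' : z1 ∈ Icc a (a + 1) := ⟨hz1.1, by linarith [hz1.2]⟩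
  have hz2' : z2 ∈ Icc a (a + 1) := ⟨by linarith [hz2.1], by linarith [hz2.2]⟩
  have hf1 := hF z1 hz1'
  have hf2 := hF z2 hz2'
  have hdiff : ((z2 - z1 : ℝ) : ℂ) * G1 a =
      (G z2 - G z1) + ((G z1 - G a - ((z1 - a : ℝ) : ℂ) * G1 a) -
        (G z2 - G a - ((z2 - a : ℝ) : ℂ) * G1 a)) := by
    push_cast
    ring
  have hD : ‖G1 a‖ ≤ 3 * ((3 * C ^ 2 + 2) + 2 * (C ^ 2 + 1)) := by
    have h1 : ‖((z2 - z1 : ℝ) : ℂ) * G1 a‖ ≤ (3 * C ^ 2 + 2) + 2 * (C ^ 2 + 1) := by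
      rw [hdiff]
      refine (norm_add_le _ _).trans ?_
      have h2 := norm_sub_le (G z2) (G z1)
      have h3 := norm_sub_le (G z1 - G a - ((z1 - a : ℝ) : ℂ) * G1 a)
        (G z2 - G a - ((z2 - a : ℝ) : ℂ) * G1 a)
      linarith
    rw [norm_mul, Complex.norm_real, Real.norm_eq_abs] at h1
    have h4 : 1 / 3 ≤ |z2 - z1| := by
      refine le_trans ?_ (le_abs_self _)
      linarith [hz1.2, hz2.1]
    nlinarith [norm_nonneg (G1 a)]
  have hdecomp : ∀ z ∈ Icc a (a + 1), ‖((z - a : ℝ) : ℂ) * G1 a‖ ≤ ‖G1 a‖ := by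
    intro z hz
    rw [norm_mul, Complex.norm_real, Real.norm_eq_abs, abs_of_nonneg (by linarith [hz.1])]
    have : z - a ≤ 1 := by linarith [hz.2]
    nlinarith [norm_nonneg (G1 a)]
  have hGa : ‖G a‖ ≤ (3 * C ^ 2 + 2) / 2 + ‖G1 a‖ + (C ^ 2 + 1) := by
    have h1 : G a = G z1 - ((z1 - a : ℝ) : ℂ) * G1 a -
        (G z1 - G a - ((z1 - a : ℝ) : ℂ) * G1 a) := by ring
    rw [h1]
    refine (norm_sub_le _ _).trans ?_
    have h2 := norm_sub_le (G z1) (((z1 - a : ℝ) : ℂ) * G1 a)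
    have h3 := hdecomp z1 hz1'
    linarith
  intro z hz
  constructor
  · have h1 : G z = G a + ((z - a : ℝ) : ℂ) * G1 a +
        (G z - G a - ((z - a : ℝ) : ℂ) * G1 a) := by ring
    rw [h1]
    refine (norm_add_le _ _).trans ?_
    have h2 := norm_add_le (G a) (((z - a : ℝ) : ℂ) * G1 a)
    have h3 := hdecomp z hz
    have h4 := hF z hz
    nlinarith [sq_nonneg C]
  · have h1 : G1 z = G1 a + (G1 z - G1 a) := by ring
    rw [h1]
    refine (norm_add_le _ _).trans ?_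
    have h4 := hB z hz
    nlinarith [sq_nonneg C]

theorem fb (w : ℝ → ℝ) (hw : WP w) (C : ℝ) : ∃ C' : ℝ, ∀ (m : ℕ) (G G1 K : ℝ → ℂ), Sol w m G G1 K →
    L2b C G → L2b C K → ∀ z ∈ Icc (2 : ℝ) 3 ∪ Icc (13 / 4 : ℝ) (17 / 4), ‖G z‖ ≤ C' ∧ ‖G1 z‖ ≤ C' := by
  refine ⟨100 * (C ^ 2 + 1), ?_⟩
  intro m G G1 K hs hG hK z hz
  rcases hz with hz | hz
  · refine fb_seg w C 2 (by norm_num) (by norm_num) ?_ m G G1 K hs hG hK z ?_
    · intro y hy
      exact hw.flat1 y ⟨hy.1, by linarith [hy.2]⟩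
    · exact ⟨hz.1, by linarith [hz.2]⟩
  · refine fb_seg w C (13 / 4) (by norm_num) (by norm_num) ?_ m G G1 K hs hG hK z ?_
    · intro y hy
      exact hw.flat2 y ⟨hy.1, by linarith [hy.2]⟩
    · exact ⟨hz.1, by linarith [hz.2]⟩

end N_fb

end Pool.Agent.Helper459.SK
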