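import Mathlib
import Pool.Agent.Helper459.SK.Defs

set_option autoImplicit false

noncomputable section

open MeasureTheory Set Filter Topology
open scoped ContDiff ComplexConjugate

namespace Pool.Agent.Helper459.SK

namespace N_lw

theorem lw_wcont (w : ℝ → ℝ) (hw : WP w) : ContinuousOn w (Ioi 0) := fun z hz =>
  ((hw.smooth z hz).continuousAt).continuousWithinAt

theorem lw_wneg (w : ℝ → ℝ) (hw : WP w) (z : ℝ) (h1 : 0 < z) (h2 : z ≤ 3) : w z ≤ 0 := by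
  by_cases h : z < 2
  · exact (hw.neg z ⟨h1, h⟩).le
  · exact (hw.flat1 z ⟨by linarith, h2⟩).le

theorem lw_he (z : ℝ) : HasDerivAt (fun z : ℝ => ((z - 13/8) * (23/8 - z))^2)
    (2 * ((z - 13/8) * (23/8 - z)) * (9/2 - 2*z)) z := by
  have h1 : HasDerivAt (fun z : ℝ => (z - 13/8) * (23/8 - z)) (1 * (23/8 - z) + (z - 13/8) * (-1)) z :=
    ((hasDerivAt_id z).sub_const (13/8)).mul ((hasDerivAt_id z).const_sub (23/8))
  have h2 : HasDerivAt (fun z : ℝ => ((z - 13/8) * (23/8 - z))^2)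
      (((2 : ℕ) : ℝ) * ((z - 13/8) * (23/8 - z)) ^ (2 - 1) * (1 * (23/8 - z) + (z - 13/8) * (-1))) z := h1.pow 2
  have e : (2 * ((z - 13/8) * (23/8 - z)) * (9/2 - 2*z)) =
      (((2 : ℕ) : ℝ) * ((z - 13/8) * (23/8 - z)) ^ (2 - 1) * (1 * (23/8 - z) + (z - 13/8) * (-1))) := by
    push_cast
    ring
  rw [e]
  exact h2

theorem lw_cont (w : ℝ → ℝ) (hw : WP w) (m : ℕ) (G G1 K : ℝ → ℂ) (hS : Sol w m G G1 K) (a b : ℝ)
    (ha : 3 / 2 < a) (hb : b < 9 / 2) :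
    ContinuousOn G (Icc a b) ∧ ContinuousOn G1 (Icc a b) ∧ ContinuousOn K (Icc a b) ∧ ContinuousOn w (Icc a b) := by
  have hsub : Icc a b ⊆ Ioo (3 / 2 : ℝ) (9 / 2) := fun z hz => ⟨by linarith [hz.1], by linarith [hz.2]⟩
  refine ⟨fun z hz => (hS.d0 z (hsub hz)).continuousAt.continuousWithinAt,
    fun z hz => (hS.d1 z (hsub hz)).continuousAt.continuousWithinAt, hS.kc.mono hsub,
    (lw_wcont w hw).mono (fun z hz => ?_)⟩
  have := (hsub hz).1
  show 0 < z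
  linarith

theorem lw_pt (m w e d i1 i2 g g1 k : ℝ) (hw : w ≤ 0) (he : e ^ 2 ≤ 1) (hd : d ^ 2 ≤ 25 / 16)
    (hi1 : |i1| ≤ g * g1) (hi2 : |i2| ≤ g * k) (hg : 0 ≤ g) (hg1 : 0 ≤ g1) (hk : 0 ≤ k) :
    (1/2) * e ^ 2 * g1 ^ 2 + m ^ 2 * e ^ 2 * (-w) * g ^ 2 - 5 * (g ^ 2 + k ^ 2) ≤
      (2 * e * d) * i1 + e ^ 2 * ((-(m ^ 2 * w) * g ^ 2 - 2 * i2) + g1 ^ 2) := by
  have h1 : -(|e| * |d| * (2 * (g * g1))) ≤ (2 * e * d) * i1 := by
    have h3 : |(2 * e * d) * i1| ≤ |e| * |d| * (2 * (g * g1)) := by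
      rw [abs_mul, abs_mul, abs_mul]
      rw [abs_of_pos (show (0 : ℝ) < 2 by norm_num)]
      have := mul_le_mul_of_nonneg_left hi1 (show 0 ≤ 2 * |e| * |d| by positivity)
      linarith
    have := neg_abs_le ((2 * e * d) * i1)
    linarith
  have h2 : |e| * |d| * (2 * (g * g1)) ≤ (1/2) * e ^ 2 * g1 ^ 2 + 2 * d ^ 2 * g ^ 2 := by
    have h4 : 0 ≤ (|e| * g1 - 2 * (|d| * g)) ^ 2 := sq_nonneg _
    have h5 : |e| ^ 2 = e ^ 2 := sq_abs e
    have h6 : |d| ^ 2 = d ^ 2 := sq_abs d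
    nlinarith
  have h3 : 2 * d ^ 2 * g ^ 2 ≤ 4 * g ^ 2 := by nlinarith [sq_nonneg g]
  have h4 : e ^ 2 * (2 * i2) ≤ g ^ 2 + k ^ 2 := by
    have h5 : i2 ≤ g * k := (le_abs_self _).trans hi2
    have h6 : 0 ≤ g * k := mul_nonneg hg hk
    have h7 : e ^ 2 * (2 * i2) ≤ e ^ 2 * (2 * (g * k)) := mul_le_mul_of_nonneg_left (by linarith) (sq_nonneg e)
    have h8 : e ^ 2 * (2 * (g * k)) ≤ 1 * (2 * (g * k)) := mul_le_mul_of_nonneg_right he (by linarith)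
    nlinarith [sq_nonneg (g - k)]
  nlinarith

theorem lw_key (w : ℝ → ℝ) (hw : WP w) (C : ℝ) (m : ℕ) (G G1 K : ℝ → ℂ) (hS : Sol w m G G1 K)
    (hG : L2b C G) (hK : L2b C K) :
    ∫ z in (13/8:ℝ)..(23/8), ((1/2) * ((z - 13/8) * (23/8 - z))^2 * ‖G1 z‖^2
      + (m:ℝ)^2 * ((z - 13/8) * (23/8 - z))^2 * (-(w z)) * ‖G z‖^2) ≤ 10 * C^2 := by
  obtain ⟨cG, cG1, cK, cw⟩ := lw_cont w hw m G G1 K hS (13/8) (23/8) (by norm_num) (by norm_num)
  have hab : (13/8 : ℝ) ≤ 23/8 := by norm_num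
  have hu : Set.uIcc (13/8 : ℝ) (23/8) = Icc (13/8) (23/8) := Set.uIcc_of_le hab
  have hder : ∀ z ∈ Set.uIcc (13/8 : ℝ) (23/8), HasDerivAt (fun z => ((z - 13/8) * (23/8 - z))^2 * inner ℝ (G z) (G1 z))
      ((2 * ((z - 13/8) * (23/8 - z)) * (9/2 - 2*z)) * inner ℝ (G z) (G1 z) +
        ((z - 13/8) * (23/8 - z))^2 * (inner ℝ (G z) (-((m : ℂ) ^ 2 * (w z : ℂ)) * G z - 2 * K z) + inner ℝ (G1 z) (G1 z))) z := by
    intro z hz
    rw [hu] at hz
    have hz' : z ∈ Ioo (3 / 2 : ℝ) (9 / 2) := ⟨by linarith [hz.1], by linarith [hz.2]⟩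
    exact (lw_he z).mul ((hS.d0 z hz').inner ℝ (hS.d1 z hz'))
  have hcF : ContinuousOn (fun z => (2 * ((z - 13/8) * (23/8 - z)) * (9/2 - 2*z)) * inner ℝ (G z) (G1 z) +
        ((z - 13/8) * (23/8 - z))^2 * (inner ℝ (G z) (-((m : ℂ) ^ 2 * (w z : ℂ)) * G z - 2 * K z) + inner ℝ (G1 z) (G1 z)))
        (Icc (13/8 : ℝ) (23/8)) := by
    have c1 : ContinuousOn (fun z => inner ℝ (G z) (G1 z)) (Icc (13/8 : ℝ) (23/8)) := cG.inner cG1
    have c2 : ContinuousOn (fun z => inner ℝ (G1 z) (G1 z)) (Icc (13/8 : ℝ) (23/8)) := cG1.inner cG1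
    have c4 : ContinuousOn (fun z => ((w z : ℝ) : ℂ)) (Icc (13/8 : ℝ) (23/8)) := Complex.continuous_ofReal.comp_continuousOn cw
    have c5 : ContinuousOn (fun z => -((m : ℂ) ^ 2 * (w z : ℂ)) * G z - 2 * K z) (Icc (13/8 : ℝ) (23/8)) :=
      (((continuousOn_const.mul c4).neg).mul cG).sub (continuousOn_const.mul cK)
    have c3 : ContinuousOn (fun z => inner ℝ (G z) (-((m : ℂ) ^ 2 * (w z : ℂ)) * G z - 2 * K z)) (Icc (13/8 : ℝ) (23/8)) :=
      cG.inner c5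
    have p1 : ContinuousOn (fun z : ℝ => 2 * ((z - 13/8) * (23/8 - z)) * (9/2 - 2*z)) (Icc (13/8 : ℝ) (23/8)) := by fun_prop
    have p2 : ContinuousOn (fun z : ℝ => ((z - 13/8) * (23/8 - z))^2) (Icc (13/8 : ℝ) (23/8)) := by fun_prop
    exact (p1.mul c1).add (p2.mul (c3.add c2))
  have hint := intervalIntegral.integral_eq_sub_of_hasDerivAt hder
    (by rw [← hu] at hcF; exact hcF.intervalIntegrable)
  have h0 : ∫ z in (13/8:ℝ)..(23/8), ((2 * ((z - 13/8) * (23/8 - z)) * (9/2 - 2*z)) * inner ℝ (G z) (G1 z) +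
        ((z - 13/8) * (23/8 - z))^2 * (inner ℝ (G z) (-((m : ℂ) ^ 2 * (w z : ℂ)) * G z - 2 * K z) + inner ℝ (G1 z) (G1 z))) = 0 := by
    rw [hint]
    norm_num
  have cN : ContinuousOn (fun z => ‖G z‖ ^ 2 + ‖K z‖ ^ 2) (Icc (13/8 : ℝ) (23/8)) := (cG.norm.pow 2).add (cK.norm.pow 2)
  have cPhi : ContinuousOn (fun z => (1/2) * ((z - 13/8) * (23/8 - z))^2 * ‖G1 z‖^2
      + (m:ℝ)^2 * ((z - 13/8) * (23/8 - z))^2 * (-(w z)) * ‖G z‖^2) (Icc (13/8 : ℝ) (23/8)) := by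
    have p2 : ContinuousOn (fun z : ℝ => (1/2) * ((z - 13/8) * (23/8 - z))^2) (Icc (13/8 : ℝ) (23/8)) := by fun_prop
    have p3 : ContinuousOn (fun z : ℝ => (m:ℝ)^2 * ((z - 13/8) * (23/8 - z))^2) (Icc (13/8 : ℝ) (23/8)) := by fun_prop
    exact (p2.mul (cG1.norm.pow 2)).add ((p3.mul cw.neg).mul (cG.norm.pow 2))
  have hmono : ∫ z in (13/8:ℝ)..(23/8), (((1/2) * ((z - 13/8) * (23/8 - z))^2 * ‖G1 z‖^2
      + (m:ℝ)^2 * ((z - 13/8) * (23/8 - z))^2 * (-(w z)) * ‖G z‖^2) - 5 * (‖G z‖ ^ 2 + ‖K z‖ ^ 2)) ≤ 0 := by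
    rw [← h0]
    apply intervalIntegral.integral_mono_on hab
    · have := cPhi.sub (cN.const_smul (5 : ℝ))
      rw [← hu] at this
      exact this.intervalIntegrable
    · rw [← hu] at hcF; exact hcF.intervalIntegrable
    · intro z hz
      have hwz : w z ≤ 0 := lw_wneg w hw z (by linarith [hz.1]) (by linarith [hz.2])
      have e1 : inner ℝ (G z) (-((m : ℂ) ^ 2 * (w z : ℂ)) * G z - 2 * K z) =
          (-((m : ℝ) ^ 2 * w z) * ‖G z‖ ^ 2 - 2 * inner ℝ (G z) (K z)) := by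
        have e2 : -((m : ℂ) ^ 2 * (w z : ℂ)) * G z = (-((m : ℝ) ^ 2 * w z)) • G z := by
          rw [Complex.real_smul]
          push_cast
          ring
        have e3 : 2 * K z = (2 : ℝ) • K z := by
          rw [Complex.real_smul]
          norm_num
        rw [e2, e3, inner_sub_right, inner_smul_right, inner_smul_right, real_inner_self_eq_norm_sq]
      rw [e1, real_inner_self_eq_norm_sq]
      apply lw_pt
      · exact hwz
      · have h1 := hz.1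
        have h2 := hz.2
        have h3 : 0 ≤ (z - 13/8) * (23/8 - z) := mul_nonneg (by linarith) (by linarith)
        have h4 : (z - 13/8) * (23/8 - z) ≤ 1 := by nlinarith [sq_nonneg (z - 9/4)]
        nlinarith
      · nlinarith [hz.1, hz.2]
      · exact abs_real_inner_le_norm _ _
      · exact abs_real_inner_le_norm _ _
      · exact norm_nonneg _
      · exact norm_nonneg _
      · exact norm_nonneg _
  rw [intervalIntegral.integral_sub] at hmono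
  rotate_left
  · rw [← hu] at cPhi; exact cPhi.intervalIntegrable
  · have := cN.const_smul (5 : ℝ)
    rw [← hu] at this
    exact this.intervalIntegrable
  rw [intervalIntegral.integral_const_mul] at hmono
  have hN : ∫ z in (13/8:ℝ)..(23/8), (‖G z‖ ^ 2 + ‖K z‖ ^ 2) ≤ 2 * C ^ 2 := by
    rw [intervalIntegral.integral_of_le hab]
    have hsub : Ioc (13/8 : ℝ) (23/8) ⊆ Ioo (3 / 2 : ℝ) (9 / 2) := fun z hz => ⟨by linarith [hz.1], by linarith [hz.2]⟩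
    have hI : IntegrableOn (fun z => ‖G z‖ ^ 2 + ‖K z‖ ^ 2) (Ioo (3 / 2 : ℝ) (9 / 2)) := hG.1.add hK.1
    have h1 : ∫ z in Ioc (13/8:ℝ) (23/8), (‖G z‖ ^ 2 + ‖K z‖ ^ 2) ≤ ∫ z in Ioo (3 / 2 : ℝ) (9 / 2), (‖G z‖ ^ 2 + ‖K z‖ ^ 2) := by
      apply setIntegral_mono_set hI
      · exact Filter.Eventually.of_forall (fun z => by positivity)
      · exact hsub.eventuallyLE
    rw [integral_add hG.1 hK.1] at h1
    linarith [hG.2, hK.2]
  linarith

theorem lw_cs (f : ℝ → ℝ) (a b : ℝ) (hab : a < b) (hf : ContinuousOn f (Icc a b)) :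
    (∫ z in a..b, f z) ^ 2 ≤ (b - a) * ∫ z in a..b, f z ^ 2 := by
  have hu : Set.uIcc a b = Icc a b := Set.uIcc_of_le hab.le
  have hL : 0 < b - a := by linarith
  have i1 : IntervalIntegrable f volume a b := by rw [← hu] at hf; exact hf.intervalIntegrable
  have i2 : IntervalIntegrable (fun z => f z ^ 2) volume a b := by
    have := hf.pow 2
    rw [← hu] at this
    exact this.intervalIntegrable
  obtain ⟨c, hc⟩ : ∃ c, c = (∫ z in a..b, f z) / (b - a) := ⟨_, rfl⟩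
  have h0 : 0 ≤ ∫ z in a..b, (f z ^ 2 - (2 * c) * f z + c ^ 2) := by
    apply intervalIntegral.integral_nonneg hab.le
    intro z _
    nlinarith [sq_nonneg (f z - c)]
  rw [intervalIntegral.integral_add (i2.sub (i1.const_mul _)) intervalIntegrable_const,
    intervalIntegral.integral_sub i2 (i1.const_mul _), intervalIntegral.integral_const_mul,
    intervalIntegral.integral_const, smul_eq_mul] at h0
  have h1 : (∫ z in a..b, f z) = c * (b - a) := by rw [hc]; field_simp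
  rw [h1] at h0 ⊢
  nlinarith

theorem lw (w : ℝ → ℝ) (hw : WP w) (C ε : ℝ) (hε : 0 < ε) : ∃ m0 : ℕ, ∀ (m : ℕ) (G G1 K : ℝ → ℂ), m0 ≤ m →
    Sol w m G G1 K → L2b C G → L2b C K → ‖G 2‖ ≤ ε := by
  obtain ⟨h0, hh0⟩ : ∃ h0 : ℝ, h0 = (7 / 64) ^ 2 := ⟨_, rfl⟩
  have h0pos : 0 < h0 := by rw [hh0]; norm_num
  obtain ⟨δ, hδdef⟩ : ∃ δ : ℝ, δ = min (1/8) (h0 * ε ^ 2 / (160 * (C ^ 2 + 1))) := ⟨_, rfl⟩
  have hδ0 : 0 < δ := by rw [hδdef]; positivity
  have hδ1 : δ ≤ 1 / 8 := by rw [hδdef]; exact min_le_left _ _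
  have hδ2 : δ * (160 * (C ^ 2 + 1)) ≤ h0 * ε ^ 2 := by
    have h1 : δ ≤ h0 * ε ^ 2 / (160 * (C ^ 2 + 1)) := by rw [hδdef]; exact min_le_right _ _
    rwa [le_div_iff₀ (by positivity)] at h1
  obtain ⟨c, hc0, hc⟩ : ∃ c : ℝ, 0 < c ∧ ∀ z ∈ Icc (2 - 2 * δ) (2 - δ), c ≤ -(w z) := by
    have hcomp : IsCompact (Icc (2 - 2 * δ) (2 - δ)) := isCompact_Icc
    have hne : (Icc (2 - 2 * δ) (2 - δ)).Nonempty := ⟨2 - δ, by constructor <;> linarith⟩
    have hcont : ContinuousOn (fun z => -(w z)) (Icc (2 - 2 * δ) (2 - δ)) :=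
      ((lw_wcont w hw).mono (fun z hz => by show 0 < z; linarith [hz.1])).neg
    obtain ⟨z0, hz0, hmin⟩ := hcomp.exists_isMinOn hne hcont
    refine ⟨-(w z0), ?_, fun z hz => isMinOn_iff.mp hmin z hz⟩
    have := hw.neg z0 ⟨by linarith [hz0.1], by linarith [hz0.2]⟩
    linarith
  obtain ⟨m0, hm0⟩ := exists_nat_gt (40 * C ^ 2 / (δ * h0 * c * ε ^ 2) + 1)
  refine ⟨m0, ?_⟩
  intro m G G1 K hm hS hG hK
  have hmr : 40 * C ^ 2 / (δ * h0 * c * ε ^ 2) + 1 < (m : ℝ) := by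
    have : (m0 : ℝ) ≤ m := by exact_mod_cast hm
    linarith
  have hq0 : 0 ≤ 40 * C ^ 2 / (δ * h0 * c * ε ^ 2) := by positivity
  have hm1 : 1 ≤ (m : ℝ) := by linarith
  have hmsq : 40 * C ^ 2 / (δ * h0 * c * ε ^ 2) ≤ (m : ℝ) ^ 2 := by nlinarith
  rw [div_le_iff₀ (by positivity)] at hmsq
  have hkey := lw_key w hw C m G G1 K hS hG hK
  obtain ⟨cG, cG1, cK, cw⟩ := lw_cont w hw m G G1 K hS (13/8) (23/8) (by norm_num) (by norm_num)
  have hu : Set.uIcc (13/8 : ℝ) (23/8) = Icc (13/8) (23/8) := Set.uIcc_of_le (by norm_num)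
  have cPhi : ContinuousOn (fun z => (1/2) * ((z - 13/8) * (23/8 - z))^2 * ‖G1 z‖^2
      + (m:ℝ)^2 * ((z - 13/8) * (23/8 - z))^2 * (-(w z)) * ‖G z‖^2) (Icc (13/8 : ℝ) (23/8)) := by
    have p2 : ContinuousOn (fun z : ℝ => (1/2) * ((z - 13/8) * (23/8 - z))^2) (Icc (13/8 : ℝ) (23/8)) := by fun_prop
    have p3 : ContinuousOn (fun z : ℝ => (m:ℝ)^2 * ((z - 13/8) * (23/8 - z))^2) (Icc (13/8 : ℝ) (23/8)) := by fun_prop
    exact (p2.mul (cG1.norm.pow 2)).add ((p3.mul cw.neg).mul (cG.norm.pow 2))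
  have iPhi : IntervalIntegrable (fun z => (1/2) * ((z - 13/8) * (23/8 - z))^2 * ‖G1 z‖^2
      + (m:ℝ)^2 * ((z - 13/8) * (23/8 - z))^2 * (-(w z)) * ‖G z‖^2) volume (13/8) (23/8) := by
    have := cPhi
    rw [← hu] at this
    exact this.intervalIntegrable
  have hPhi0 : ∀ z ∈ Icc (13/8 : ℝ) (23/8), 0 ≤ (1/2) * ((z - 13/8) * (23/8 - z))^2 * ‖G1 z‖^2
      + (m:ℝ)^2 * ((z - 13/8) * (23/8 - z))^2 * (-(w z)) * ‖G z‖^2 := by
    intro z hz
    have hwz : w z ≤ 0 := lw_wneg w hw z (by linarith [hz.1]) (by linarith [hz.2])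
    have : 0 ≤ -(w z) := by linarith
    positivity
  have hsubint : ∀ a b : ℝ, 13/8 ≤ a → a ≤ b → b ≤ 23/8 →
      ∫ z in a..b, ((1/2) * ((z - 13/8) * (23/8 - z))^2 * ‖G1 z‖^2
      + (m:ℝ)^2 * ((z - 13/8) * (23/8 - z))^2 * (-(w z)) * ‖G z‖^2) ≤ 10 * C ^ 2 := by
    intro a b ha hab hb
    refine le_trans ?_ hkey
    apply intervalIntegral.integral_mono_interval ha hab hb _ iPhi
    rw [Filter.EventuallyLE, ae_restrict_iff' measurableSet_Ioc]
    exact Filter.Eventually.of_forall (fun z hz => hPhi0 z ⟨hz.1.le, hz.2⟩)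
  have hsubi : ∀ (F : ℝ → ℝ) (a b : ℝ), ContinuousOn F (Icc (13/8 : ℝ) (23/8)) → 13/8 ≤ a → a ≤ b → b ≤ 23/8 →
      IntervalIntegrable F volume a b := by
    intro F a b hF ha hab hb
    have h1 : ContinuousOn F (Set.uIcc a b) := by
      rw [Set.uIcc_of_le hab]
      exact hF.mono (fun z hz => ⟨by linarith [hz.1], by linarith [hz.2]⟩)
    exact h1.intervalIntegrable
  have heta : ∀ z ∈ Icc (7/4 : ℝ) 2, h0 ≤ ((z - 13/8) * (23/8 - z))^2 := by
    intro z hz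
    rw [hh0]
    apply pow_le_pow_left₀ (by norm_num)
    nlinarith [hz.1, hz.2]
  -- derivative bound
  have hG1int : ∫ z in (7/4 : ℝ)..2, ‖G1 z‖ ^ 2 ≤ 20 * C ^ 2 / h0 := by
    have h1 := hsubint (7/4) 2 (by norm_num) (by norm_num) (by norm_num)
    have h2 : ∫ z in (7/4 : ℝ)..2, (h0 / 2) * ‖G1 z‖ ^ 2 ≤ ∫ z in (7/4 : ℝ)..2, ((1/2) * ((z - 13/8) * (23/8 - z))^2 * ‖G1 z‖^2
      + (m:ℝ)^2 * ((z - 13/8) * (23/8 - z))^2 * (-(w z)) * ‖G z‖^2) := by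
      apply intervalIntegral.integral_mono_on (by norm_num)
      · exact (hsubi _ _ _ (cG1.norm.pow 2) (by norm_num) (by norm_num) (by norm_num)).const_mul _
      · exact hsubi _ _ _ cPhi (by norm_num) (by norm_num) (by norm_num)
      · intro z hz
        have hwz : w z ≤ 0 := lw_wneg w hw z (by linarith [hz.1]) (by linarith [hz.2])
        have h3 : 0 ≤ (m:ℝ)^2 * ((z - 13/8) * (23/8 - z))^2 * (-(w z)) * ‖G z‖^2 := by
          have : 0 ≤ -(w z) := by linarith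
          positivity
        have h4 := mul_le_mul_of_nonneg_right (heta z hz) (sq_nonneg ‖G1 z‖)
        linarith
    rw [intervalIntegral.integral_const_mul] at h2
    rw [le_div_iff₀ h0pos]
    linarith
  -- L2 bound in the wall
  have hGint : ∫ z in (2 - 2 * δ)..(2 - δ), ‖G z‖ ^ 2 ≤ 10 * C ^ 2 / ((m : ℝ) ^ 2 * h0 * c) := by
    have h1 := hsubint (2 - 2 * δ) (2 - δ) (by linarith) (by linarith) (by linarith)
    have h2 : ∫ z in (2 - 2 * δ)..(2 - δ), ((m : ℝ) ^ 2 * h0 * c) * ‖G z‖ ^ 2 ≤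
        ∫ z in (2 - 2 * δ)..(2 - δ), ((1/2) * ((z - 13/8) * (23/8 - z))^2 * ‖G1 z‖^2
      + (m:ℝ)^2 * ((z - 13/8) * (23/8 - z))^2 * (-(w z)) * ‖G z‖^2) := by
      apply intervalIntegral.integral_mono_on (by linarith)
      · exact (hsubi _ _ _ (cG.norm.pow 2) (by linarith) (by linarith) (by linarith)).const_mul _
      · exact hsubi _ _ _ cPhi (by linarith) (by linarith) (by linarith)
      · intro z hz
        have h3 : 0 ≤ (1/2) * ((z - 13/8) * (23/8 - z))^2 * ‖G1 z‖^2 := by positivity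
        have h4 : h0 * c ≤ ((z - 13/8) * (23/8 - z))^2 * (-(w z)) :=
          mul_le_mul (heta z ⟨by linarith [hz.1], by linarith [hz.2]⟩) (hc z hz) hc0.le (by positivity)
        have h5 := mul_le_mul_of_nonneg_left h4 (show 0 ≤ (m : ℝ) ^ 2 * ‖G z‖ ^ 2 by positivity)
        nlinarith
    rw [intervalIntegral.integral_const_mul] at h2
    rw [le_div_iff₀ (by positivity)]
    linarith
  -- pointwise
  have hpt : ∀ z ∈ Icc (2 - 2 * δ) (2 - δ), ‖G 2‖ ^ 2 ≤ 2 * ‖G z‖ ^ 2 + 80 * δ * C ^ 2 / h0 := by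
    intro z hz
    have hz2 : z < 2 := by linarith [hz.2]
    have hz7 : 7/4 ≤ z := by linarith [hz.1]
    have hsub2 : Icc z 2 ⊆ Icc (13/8 : ℝ) (23/8) := fun y hy => ⟨by linarith [hy.1], by linarith [hy.2]⟩
    have hftc : ∫ y in z..2, G1 y = G 2 - G z := by
      apply intervalIntegral.integral_eq_sub_of_hasDerivAt
      · intro y hy
        rw [Set.uIcc_of_le hz2.le] at hy
        exact hS.d0 y ⟨by linarith [hy.1], by linarith [hy.2]⟩
      · have h1 : ContinuousOn G1 (Set.uIcc z 2) := by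
          rw [Set.uIcc_of_le hz2.le]
          exact cG1.mono hsub2
        exact h1.intervalIntegrable
    have h1 : ‖G 2 - G z‖ ≤ ∫ y in z..2, ‖G1 y‖ := by
      rw [← hftc]
      exact intervalIntegral.norm_integral_le_integral_norm hz2.le
    have h2 := lw_cs (fun y => ‖G1 y‖) z 2 hz2 ((cG1.mono hsub2).norm)
    have h3 : ∫ y in z..2, ‖G1 y‖ ^ 2 ≤ 20 * C ^ 2 / h0 := by
      refine le_trans ?_ hG1int
      apply intervalIntegral.integral_mono_interval hz7 hz2.le le_rfl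
      · exact Filter.Eventually.of_forall (fun y => by
          show (0 : ℝ) ≤ ‖G1 y‖ ^ 2
          positivity)
      · exact hsubi _ _ _ (cG1.norm.pow 2) (by norm_num) (by norm_num) (by norm_num)
    have h4 : ‖G 2 - G z‖ ^ 2 ≤ 2 * δ * (20 * C ^ 2 / h0) := by
      have h5 : ‖G 2 - G z‖ ^ 2 ≤ (∫ y in z..2, ‖G1 y‖) ^ 2 := pow_le_pow_left₀ (norm_nonneg _) h1 2
      have h6 : 0 ≤ ∫ y in z..2, ‖G1 y‖ ^ 2 :=
        intervalIntegral.integral_nonneg hz2.le (fun y _ => by positivity)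
      have h7 : (2 - z) * ∫ y in z..2, ‖G1 y‖ ^ 2 ≤ 2 * δ * (20 * C ^ 2 / h0) :=
        mul_le_mul (by linarith [hz.1]) h3 h6 (by positivity)
      linarith
    have h8 : ‖G 2‖ ≤ ‖G z‖ + ‖G 2 - G z‖ := by
      have : G 2 = G z + (G 2 - G z) := by ring
      calc ‖G 2‖ = ‖G z + (G 2 - G z)‖ := by rw [← this]
        _ ≤ _ := norm_add_le _ _
    have h9 : ‖G 2‖ ^ 2 ≤ (‖G z‖ + ‖G 2 - G z‖) ^ 2 := pow_le_pow_left₀ (norm_nonneg _) h8 2
    have h10 : 80 * δ * C ^ 2 / h0 = 2 * (2 * δ * (20 * C ^ 2 / h0)) := by ring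
    rw [h10]
    nlinarith [sq_nonneg (‖G z‖ - ‖G 2 - G z‖)]
  have hint : δ * ‖G 2‖ ^ 2 ≤ 2 * (10 * C ^ 2 / ((m : ℝ) ^ 2 * h0 * c)) + δ * (80 * δ * C ^ 2 / h0) := by
    have h1 : ∫ _z in (2 - 2 * δ)..(2 - δ), ‖G 2‖ ^ 2 ≤ ∫ z in (2 - 2 * δ)..(2 - δ), (2 * ‖G z‖ ^ 2 + 80 * δ * C ^ 2 / h0) := by
      apply intervalIntegral.integral_mono_on (by linarith)
      · exact intervalIntegrable_const
      · exact ((hsubi _ _ _ (cG.norm.pow 2) (by linarith) (by linarith) (by linarith)).const_mul _).add intervalIntegrable_const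
      · exact hpt
    have hI3 : IntervalIntegrable (fun z => 2 * ‖G z‖ ^ 2) volume (2 - 2 * δ) (2 - δ) :=
      (hsubi (fun z => ‖G z‖ ^ 2) _ _ (cG.norm.pow 2) (by linarith) (by linarith) (by linarith)).const_mul 2
    rw [intervalIntegral.integral_add hI3 intervalIntegrable_const,
      intervalIntegral.integral_const_mul, intervalIntegral.integral_const, intervalIntegral.integral_const, smul_eq_mul, smul_eq_mul] at h1
    have e : (2 - δ - (2 - 2 * δ)) = δ := by ring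
    rw [e] at h1
    linarith
  have hfin : ‖G 2‖ ^ 2 ≤ ε ^ 2 := by
    have e1 : 2 * (10 * C ^ 2 / ((m : ℝ) ^ 2 * h0 * c)) ≤ δ * (ε ^ 2 / 2) := by
      rw [← mul_div_assoc, div_le_iff₀ (by positivity)]
      nlinarith
    have e2 : 80 * δ * C ^ 2 / h0 ≤ ε ^ 2 / 2 := by
      rw [div_le_iff₀ h0pos]
      nlinarith
    have e3 : δ * ‖G 2‖ ^ 2 ≤ δ * ε ^ 2 := by
      have := mul_le_mul_of_nonneg_left e2 hδ0.le
      linarith
    exact le_of_mul_le_mul_left e3 hδ0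
  exact (pow_le_pow_iff_left₀ (norm_nonneg _) hε.le (by norm_num)).mp hfin

end N_lw

end Pool.Agent.Helper459.SK
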