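import Mathlib
import Pool.Agent.Helper459.SK.Defs

set_option autoImplicit false

noncomputable section

open MeasureTheory Set Filter Topology
open scoped ContDiff ComplexConjugate

namespace Pool.Agent.Helper459.SK

namespace N_middle

theorem middle (w : ℝ → ℝ) (hw : WP w) (C : ℝ) : ∃ C' : ℝ, ∀ (m : ℕ) (G G1 K : ℝ → ℂ), 1 ≤ m →
    Sol w m G G1 K → L2b C G → L2b C K → ∀ E0 : ℝ, 0 ≤ E0 →
    (m : ℝ) ^ 2 * ‖G (3 + el)‖ ^ 2 + ‖G1 (3 + el)‖ ^ 2 ≤ E0 ^ 2 →
    |(conj (G (3 + el)) * G1 (3 + el)).im - (conj (G (13 / 4 - el)) * G1 (13 / 4 - el)).im| ≤ C' * (E0 + 1) / m := by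
  have hel : el = 1 / 16 := rfl
  set a : ℝ := 3 + el with ha
  set b : ℝ := 13 / 4 - el with hb
  have hab : a ≤ b := by rw [ha, hb, hel]; norm_num
  have hsub : Icc a b ⊆ Ioo (3 / 2 : ℝ) (9 / 2) := by
    intro z hz
    have h1 := hz.1
    have h2 := hz.2
    rw [ha, hel] at h1
    rw [hb, hel] at h2
    constructor <;> linarith
  have hI : Icc a b ⊆ Ioo (3 : ℝ) (13 / 4) := by
    intro z hz
    have h1 := hz.1
    have h2 := hz.2
    rw [ha, hel] at h1
    rw [hb, hel] at h2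
    constructor <;> linarith
  have hIpos : Icc a b ⊆ Ioi (0 : ℝ) := fun z hz => by
    have := (hI hz).1
    show (0:ℝ) < z
    linarith
  have hwpos : ∀ z ∈ Icc a b, 0 < w z := fun z hz => hw.posM z (hI hz)
  have hwCD : ContDiffOn ℝ ∞ w (Ioi (0 : ℝ)) := fun z hz => (hw.smooth z hz).contDiffWithinAt
  have hwd : ∀ z ∈ Icc a b, HasDerivAt w (deriv w z) z := fun z hz =>
    ((hw.smooth z (hIpos hz)).differentiableAt (by simp)).hasDerivAt
  have hwc : ContinuousOn w (Icc a b) := hwCD.continuousOn.mono hIpos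
  have hwc' : ContinuousOn (deriv w) (Icc a b) :=
    (hwCD.continuousOn_deriv_of_isOpen isOpen_Ioi (by norm_cast)).mono hIpos
  obtain ⟨M, hM⟩ := isCompact_Icc.exists_bound_of_continuousOn
    (hwc'.div hwc (fun z hz => (hwpos z hz).ne'))
  obtain ⟨N, hN⟩ := isCompact_Icc.exists_bound_of_continuousOn
    (continuousOn_const (c := (1:ℝ)).div hwc (fun z hz => (hwpos z hz).ne'))
  have haI : a ∈ Icc a b := left_mem_Icc.2 hab
  have hM0 : 0 ≤ M := le_trans (norm_nonneg _) (hM a haI)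
  have hN0 : 0 ≤ N := le_trans (norm_nonneg _) (hN a haI)
  have hM' : ∀ z ∈ Icc a b, |deriv w z| ≤ M * w z := by
    intro z hz
    have h1 := hM z hz
    have h2 := hwpos z hz
    rw [Pi.div_apply, Real.norm_eq_abs, abs_div, abs_of_pos h2, div_le_iff₀ h2] at h1
    exact h1
  have hN' : ∀ z ∈ Icc a b, 1 ≤ N * w z := by
    intro z hz
    have h1 := hN z hz
    have h2 := hwpos z hz
    rw [Pi.div_apply, Real.norm_eq_abs, abs_div, abs_of_pos h2, div_le_iff₀ h2] at h1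
    simpa using h1
  set L : ℝ := Real.exp (M + 2) with hL
  have hLpos : 0 < L := Real.exp_pos _
  set D : ℝ := Real.sqrt (N * L) * (1 + 2 * |C|) with hD
  have hD0 : 0 ≤ D := by positivity
  refine ⟨2 * D * (1 + C ^ 2), ?_⟩
  intro m G G1 K hm hS hG hK E0 hE0 hE
  have hm0 : (0 : ℝ) < m := by exact_mod_cast hm
  -- integrability of K
  have hKc : ContinuousOn (fun z => ‖K z‖ ^ 2) (Ioo (3 / 2 : ℝ) (9 / 2)) := (hS.kc.norm).pow 2
  have hKI : ∀ z ∈ Icc a b, IntervalIntegrable (fun t => ‖K t‖ ^ 2) volume a z := by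
    intro z hz
    apply ContinuousOn.intervalIntegrable
    rw [uIcc_of_le hz.1]
    exact hKc.mono (fun t ht => hsub ⟨ht.1, le_trans ht.2 hz.2⟩)
  have hKle : ∀ z ∈ Icc a b, ∫ t in a..z, ‖K t‖ ^ 2 ≤ C ^ 2 := by
    intro z hz
    rw [intervalIntegral.integral_of_le hz.1]
    refine le_trans (setIntegral_mono_set hK.1 ?_ ?_) hK.2
    · exact Filter.Eventually.of_forall (fun t => by positivity)
    · apply HasSubset.Subset.eventuallyLE
      intro t ht
      exact hsub ⟨ht.1.le, le_trans ht.2 hz.2⟩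
  -- the energy
  set E : ℝ → ℝ := fun z => (m : ℝ) ^ 2 * w z * ‖G z‖ ^ 2 + ‖G1 z‖ ^ 2 with hEdef
  have hnsq : ∀ c : ℂ, ‖c‖ ^ 2 = c.re ^ 2 + c.im ^ 2 := by
    intro c
    rw [← Complex.normSq_eq_norm_sq, Complex.normSq_apply]
    ring
  have hre : ∀ {f : ℝ → ℂ} {f' : ℂ} {z : ℝ}, HasDerivAt f f' z → HasDerivAt (fun t => (f t).re) f'.re z := by
    intro f f' z h
    exact (Complex.reCLM.hasFDerivAt.comp_hasDerivAt z h)
  have him : ∀ {f : ℝ → ℂ} {f' : ℂ} {z : ℝ}, HasDerivAt f f' z → HasDerivAt (fun t => (f t).im) f'.im z := by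
    intro f f' z h
    exact (Complex.imCLM.hasFDerivAt.comp_hasDerivAt z h)
  have hE' : ∀ z ∈ Icc a b, HasDerivAt E
      ((m : ℝ) ^ 2 * deriv w z * ‖G z‖ ^ 2 - 4 * ((G1 z).re * (K z).re + (G1 z).im * (K z).im)) z := by
    intro z hz
    have h1 := hS.d0 z (hsub hz)
    have h2 := hS.d1 z (hsub hz)
    have h3 := hwd z hz
    have hEq : E = fun z => (m : ℝ) ^ 2 * w z * ((G z).re ^ 2 + (G z).im ^ 2) + ((G1 z).re ^ 2 + (G1 z).im ^ 2) := by
      funext t
      simp only [hEdef, hnsq]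
    rw [hEq]
    have h4 := ((h3.const_mul ((m:ℝ) ^ 2)).mul (((hre h1).pow 2).add ((him h1).pow 2))).add
      (((hre h2).pow 2).add ((him h2).pow 2))
    refine (h4.congr_deriv ?_)
    rw [hnsq]
    have e1 : (-((m : ℂ) ^ 2 * (w z : ℂ)) * G z - 2 * K z).re = -((m:ℝ) ^ 2 * w z) * (G z).re - 2 * (K z).re := by
      have : (-((m : ℂ) ^ 2 * (w z : ℂ)) * G z - 2 * K z) = (((-((m:ℝ) ^ 2 * w z) : ℝ) : ℂ)) * G z - ((2 : ℝ) : ℂ) * K z := by
        push_cast; ring
      rw [this, Complex.sub_re, Complex.re_ofReal_mul, Complex.re_ofReal_mul]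
    have e2 : (-((m : ℂ) ^ 2 * (w z : ℂ)) * G z - 2 * K z).im = -((m:ℝ) ^ 2 * w z) * (G z).im - 2 * (K z).im := by
      have : (-((m : ℂ) ^ 2 * (w z : ℂ)) * G z - 2 * K z) = (((-((m:ℝ) ^ 2 * w z) : ℝ) : ℂ)) * G z - ((2 : ℝ) : ℂ) * K z := by
        push_cast; ring
      rw [this, Complex.sub_im, Complex.im_ofReal_mul, Complex.im_ofReal_mul]
    rw [e1, e2]
    simp only [Pi.add_apply, Pi.pow_apply]
    ring
  have hEnn : ∀ z ∈ Icc a b, 0 ≤ E z := by
    intro z hz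
    have := hwpos z hz
    simp only [hEdef]
    positivity
  -- Gronwall
  have hGron : ∀ z ∈ Icc a b, E z ≤ L * (E0 ^ 2 + 2 * C ^ 2) := by
    set H : ℝ → ℝ := fun z => Real.exp (-(M + 2) * (z - a)) * E z - 2 * ∫ t in a..z, ‖K t‖ ^ 2 with hH
    have hHd : ∀ z ∈ Icc a b, ∃ d, HasDerivAt H d z ∧ d ≤ 0 := by
      intro z hz
      have h1 := hE' z hz
      have h2 : HasDerivAt (fun z => ∫ t in a..z, ‖K t‖ ^ 2) (‖K z‖ ^ 2) z := by
        apply intervalIntegral.integral_hasDerivAt_right (hKI z hz)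
        · exact hKc.stronglyMeasurableAtFilter isOpen_Ioo z (hsub hz)
        · exact hKc.continuousAt (isOpen_Ioo.mem_nhds (hsub hz))
      have h3 : HasDerivAt (fun z => Real.exp (-(M + 2) * (z - a))) (Real.exp (-(M + 2) * (z - a)) * (-(M + 2))) z := by
        have h4 : HasDerivAt (fun z : ℝ => -(M + 2) * (z - a)) (-(M + 2)) z := by
          simpa using ((hasDerivAt_id z).sub_const a).const_mul (-(M + 2))
        exact h4.exp
      have h5 := (h3.mul h1).sub (h2.const_mul 2)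
      refine ⟨_, h5, ?_⟩
      set X := Real.exp (-(M + 2) * (z - a)) with hX
      have hX0 : 0 < X := Real.exp_pos _
      have hX1 : X ≤ 1 := by
        rw [hX, Real.exp_le_one_iff]
        have := hz.1
        nlinarith
      have h6 := hM' z hz
      have h7 := hwpos z hz
      have h8 := hEnn z hz
      have h9 : (m : ℝ) ^ 2 * deriv w z * ‖G z‖ ^ 2 ≤ M * E z := by
        have h10 : deriv w z ≤ M * w z := le_trans (le_abs_self _) h6
        have h11 : (0:ℝ) ≤ (m : ℝ) ^ 2 * ‖G z‖ ^ 2 := by positivity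
        have h12 : (0:ℝ) ≤ M * ‖G1 z‖ ^ 2 := by positivity
        simp only [hEdef]
        nlinarith [mul_le_mul_of_nonneg_right h10 h11]
      have h10 : -4 * ((G1 z).re * (K z).re + (G1 z).im * (K z).im) ≤ 2 * ‖G1 z‖ ^ 2 + 2 * ‖K z‖ ^ 2 := by
        rw [hnsq, hnsq]
        nlinarith [sq_nonneg ((G1 z).re + (K z).re), sq_nonneg ((G1 z).im + (K z).im)]
      have h11 : 2 * ‖G1 z‖ ^ 2 ≤ 2 * E z := by
        simp only [hEdef]
        have : (0:ℝ) ≤ (m : ℝ) ^ 2 * w z * ‖G z‖ ^ 2 := by positivity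
        linarith
      have h12 : ((m : ℝ) ^ 2 * deriv w z * ‖G z‖ ^ 2 - 4 * ((G1 z).re * (K z).re + (G1 z).im * (K z).im))
          ≤ (M + 2) * E z + 2 * ‖K z‖ ^ 2 := by linarith
      have h13 := mul_le_mul_of_nonneg_left h12 hX0.le
      have h14 : X * (2 * ‖K z‖ ^ 2) ≤ 1 * (2 * ‖K z‖ ^ 2) :=
        mul_le_mul_of_nonneg_right hX1 (by positivity)
      linarith
    have hHanti : AntitoneOn H (Icc a b) := by
      apply antitoneOn_of_deriv_nonpos (convex_Icc a b)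
      · intro z hz
        obtain ⟨d, hd, _⟩ := hHd z hz
        exact hd.continuousAt.continuousWithinAt
      · intro z hz
        obtain ⟨d, hd, _⟩ := hHd z (interior_subset hz)
        exact hd.differentiableAt.differentiableWithinAt
      · intro z hz
        obtain ⟨d, hd, hd0⟩ := hHd z (interior_subset hz)
        rw [hd.deriv]
        exact hd0
    intro z hz
    have h1 := hHanti haI hz hz.1
    simp only [hH] at h1
    rw [intervalIntegral.integral_same, sub_self, mul_zero, mul_zero, sub_zero, Real.exp_zero, one_mul] at h1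
    have h2 := hKle z hz
    have h3 : E a ≤ E0 ^ 2 := by
      refine le_trans ?_ hE
      simp only [hEdef]
      have h4 : w a ≤ 1 := by
        have := hw.lt a (hIpos haI)
        linarith
      have h5 : (0:ℝ) ≤ (m : ℝ) ^ 2 * ‖G a‖ ^ 2 := by positivity
      nlinarith [mul_le_mul_of_nonneg_left h4 h5]
    have h4 : Real.exp (-(M + 2) * (z - a)) * E z ≤ E0 ^ 2 + 2 * C ^ 2 := by linarith
    have h5 : E z = Real.exp ((M + 2) * (z - a)) * (Real.exp (-(M + 2) * (z - a)) * E z) := by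
      rw [← mul_assoc, ← Real.exp_add]
      rw [show (M + 2) * (z - a) + -(M + 2) * (z - a) = 0 by ring, Real.exp_zero, one_mul]
    rw [h5]
    have h6 : Real.exp ((M + 2) * (z - a)) ≤ L := by
      rw [hL, Real.exp_le_exp]
      have h7 : z - a ≤ 1 := by
        have := hz.2
        rw [hb, hel] at this
        rw [ha, hel]
        linarith
      have h8 : 0 ≤ z - a := by linarith [hz.1]
      nlinarith
    have h7 : 0 ≤ Real.exp (-(M + 2) * (z - a)) * E z := mul_nonneg (Real.exp_pos _).le (hEnn z hz)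
    calc Real.exp ((M + 2) * (z - a)) * (Real.exp (-(M + 2) * (z - a)) * E z)
        ≤ L * (Real.exp (-(M + 2) * (z - a)) * E z) := mul_le_mul_of_nonneg_right h6 h7
      _ ≤ L * (E0 ^ 2 + 2 * C ^ 2) := mul_le_mul_of_nonneg_left h4 hLpos.le
  have hGb : ∀ z ∈ Icc a b, ‖G z‖ ≤ D * (E0 + 1) / m := by
    intro z hz
    rw [le_div_iff₀ hm0]
    have h1 := hGron z hz
    have h2 := hN' z hz
    have h3 := hwpos z hz
    have h4 : (m : ℝ) ^ 2 * ‖G z‖ ^ 2 ≤ N * (L * (E0 ^ 2 + 2 * C ^ 2)) := by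
      have h5 : (m : ℝ) ^ 2 * w z * ‖G z‖ ^ 2 ≤ L * (E0 ^ 2 + 2 * C ^ 2) := by
        refine le_trans ?_ h1
        simp only [hEdef]
        have : (0:ℝ) ≤ ‖G1 z‖ ^ 2 := by positivity
        linarith
      have h6 : (0:ℝ) ≤ (m : ℝ) ^ 2 * ‖G z‖ ^ 2 := by positivity
      calc (m : ℝ) ^ 2 * ‖G z‖ ^ 2 = 1 * ((m : ℝ) ^ 2 * ‖G z‖ ^ 2) := (one_mul _).symm
        _ ≤ (N * w z) * ((m : ℝ) ^ 2 * ‖G z‖ ^ 2) := mul_le_mul_of_nonneg_right h2 h6
        _ = N * ((m : ℝ) ^ 2 * w z * ‖G z‖ ^ 2) := by ring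
        _ ≤ N * (L * (E0 ^ 2 + 2 * C ^ 2)) := mul_le_mul_of_nonneg_left h5 hN0
    have h5 : (‖G z‖ * m) ^ 2 ≤ (D * (E0 + 1)) ^ 2 := by
      have h6 : (D * (E0 + 1)) ^ 2 = (N * L) * ((1 + 2 * |C|) * (E0 + 1)) ^ 2 := by
        rw [hD]
        have : (Real.sqrt (N * L)) ^ 2 = N * L := Real.sq_sqrt (mul_nonneg hN0 hLpos.le)
        calc (Real.sqrt (N * L) * (1 + 2 * |C|) * (E0 + 1)) ^ 2
            = (Real.sqrt (N * L)) ^ 2 * ((1 + 2 * |C|) * (E0 + 1)) ^ 2 := by ring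
          _ = _ := by rw [this]
      rw [h6]
      have h7 : E0 ^ 2 + 2 * C ^ 2 ≤ ((1 + 2 * |C|) * (E0 + 1)) ^ 2 := by
        have h8 : C ^ 2 = |C| ^ 2 := (sq_abs C).symm
        rw [h8]
        have h9 : E0 + 2 * |C| ≤ (1 + 2 * |C|) * (E0 + 1) := by
          have := mul_nonneg (abs_nonneg C) hE0
          linarith
        have h10 : 0 ≤ E0 + 2 * |C| := by
          have := abs_nonneg C
          linarith
        have h11 : (E0 + 2 * |C|) ^ 2 ≤ ((1 + 2 * |C|) * (E0 + 1)) ^ 2 := pow_le_pow_left₀ h10 h9 2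
        have h12 := mul_nonneg (abs_nonneg C) hE0
        nlinarith [sq_nonneg (|C|)]
      have h8 : 0 ≤ N * L := mul_nonneg hN0 hLpos.le
      calc (‖G z‖ * m) ^ 2 = (m : ℝ) ^ 2 * ‖G z‖ ^ 2 := by ring
        _ ≤ N * (L * (E0 ^ 2 + 2 * C ^ 2)) := h4
        _ = (N * L) * (E0 ^ 2 + 2 * C ^ 2) := by ring
        _ ≤ (N * L) * ((1 + 2 * |C|) * (E0 + 1)) ^ 2 := mul_le_mul_of_nonneg_left h7 h8
    have h6 : 0 ≤ D * (E0 + 1) := mul_nonneg hD0 (by linarith)
    exact le_of_sq_le_sq h5 h6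
  -- the flux
  have hFd : ∀ z ∈ uIcc a b, HasDerivAt (fun z => (conj (G z) * G1 z).im) (-2 * (conj (G z) * K z).im) z := by
    intro z hz
    rw [uIcc_of_le hab] at hz
    have h1 := hS.d0 z (hsub hz)
    have h2 := hS.d1 z (hsub hz)
    have hEq : (fun z => (conj (G z) * G1 z).im) = fun z => (G z).re * (G1 z).im - (G z).im * (G1 z).re := by
      funext t
      simp only [Complex.mul_im, Complex.conj_re, Complex.conj_im]
      ring
    rw [hEq]
    have h4 := ((hre h1).mul (him h2)).sub ((him h1).mul (hre h2))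
    refine (h4.congr_deriv ?_)
    have e1 : (-((m : ℂ) ^ 2 * (w z : ℂ)) * G z - 2 * K z).re = -((m:ℝ) ^ 2 * w z) * (G z).re - 2 * (K z).re := by
      have : (-((m : ℂ) ^ 2 * (w z : ℂ)) * G z - 2 * K z) = (((-((m:ℝ) ^ 2 * w z) : ℝ) : ℂ)) * G z - ((2 : ℝ) : ℂ) * K z := by
        push_cast; ring
      rw [this, Complex.sub_re, Complex.re_ofReal_mul, Complex.re_ofReal_mul]
    have e2 : (-((m : ℂ) ^ 2 * (w z : ℂ)) * G z - 2 * K z).im = -((m:ℝ) ^ 2 * w z) * (G z).im - 2 * (K z).im := by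
      have : (-((m : ℂ) ^ 2 * (w z : ℂ)) * G z - 2 * K z) = (((-((m:ℝ) ^ 2 * w z) : ℝ) : ℂ)) * G z - ((2 : ℝ) : ℂ) * K z := by
        push_cast; ring
      rw [this, Complex.sub_im, Complex.im_ofReal_mul, Complex.im_ofReal_mul]
    rw [e1, e2]
    simp only [Complex.mul_im, Complex.conj_re, Complex.conj_im]
    ring
  have hGc : ContinuousOn G (Icc a b) := fun z hz =>
    (hS.d0 z (hsub hz)).continuousAt.continuousWithinAt
  have hKc2 : ContinuousOn K (Icc a b) := hS.kc.mono hsub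
  have hfc : ContinuousOn (fun z => -2 * (conj (G z) * K z).im) (Icc a b) := by
    apply ContinuousOn.mul continuousOn_const
    exact Complex.continuous_im.comp_continuousOn ((Complex.continuous_conj.comp_continuousOn hGc).mul hKc2)
  have hfi : IntervalIntegrable (fun z => -2 * (conj (G z) * K z).im) volume a b := by
    apply ContinuousOn.intervalIntegrable
    rw [uIcc_of_le hab]
    exact hfc
  have hFTC := intervalIntegral.integral_eq_sub_of_hasDerivAt hFd hfi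
  rw [abs_sub_comm, ← hFTC]
  set S : ℝ := D * (E0 + 1) / m with hSdef
  have hS0 : 0 ≤ S := by
    rw [hSdef]
    exact div_nonneg (mul_nonneg hD0 (by linarith)) hm0.le
  have hbound : |∫ z in a..b, -2 * (conj (G z) * K z).im| ≤ ∫ z in a..b, 2 * S * (1 + ‖K z‖ ^ 2) := by
    refine le_trans (intervalIntegral.abs_integral_le_integral_abs hab) ?_
    apply intervalIntegral.integral_mono_on hab hfi.abs
    · apply IntervalIntegrable.const_mul
      exact (intervalIntegrable_const).add (hKI b (right_mem_Icc.2 hab))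
    · intro z hz
      have h1 := hGb z hz
      have h2 : |(conj (G z) * K z).im| ≤ ‖G z‖ * ‖K z‖ := by
        refine le_trans (Complex.abs_im_le_norm _) ?_
        rw [norm_mul, Complex.norm_conj]
      have h3 : ‖G z‖ * ‖K z‖ ≤ S * ‖K z‖ := mul_le_mul_of_nonneg_right h1 (norm_nonneg _)
      have h4 : ‖K z‖ ≤ 1 + ‖K z‖ ^ 2 := by nlinarith [sq_nonneg (‖K z‖ - 1), norm_nonneg (K z)]
      have h5 : S * ‖K z‖ ≤ S * (1 + ‖K z‖ ^ 2) := mul_le_mul_of_nonneg_left h4 hS0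
      rw [abs_mul]
      have h6 : |(-2 : ℝ)| = 2 := by norm_num
      rw [h6]
      linarith
  refine le_trans hbound ?_
  rw [intervalIntegral.integral_const_mul, intervalIntegral.integral_add intervalIntegrable_const (hKI b (right_mem_Icc.2 hab)),
    intervalIntegral.integral_const]
  have h1 := hKle b (right_mem_Icc.2 hab)
  have h2 : (b - a) • (1:ℝ) ≤ 1 := by
    rw [smul_eq_mul, ha, hb, hel]
    norm_num
  have h3 : (b - a) • (1:ℝ) + ∫ t in a..b, ‖K t‖ ^ 2 ≤ 1 + C ^ 2 := by linarith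
  have h4 : 2 * S * ((b - a) • (1:ℝ) + ∫ t in a..b, ‖K t‖ ^ 2) ≤ 2 * S * (1 + C ^ 2) :=
    mul_le_mul_of_nonneg_left h3 (by linarith)
  refine le_trans h4 (le_of_eq ?_)
  rw [hSdef]
  ring

end N_middle

end Pool.Agent.Helper459.SK
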