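import Mathlib
import Pool.Agent.Helper459.SK.Defs

set_option autoImplicit false

noncomputable section

open MeasureTheory Set Filter Topology
open scoped ContDiff ComplexConjugate

namespace Pool.Agent.Helper459.SK

namespace N_mass_deriv

theorem mass_deriv (g : ℝ → L2z) (g' : L2z) (t : ℝ) (h : HasDerivAt g g' t)
    (a b : ℝ) (ha : 0 < a) (hab : a < b) :
    HasDerivAt (fun t => ∫ z in a..b, ‖(g t : ℝ → ℂ) z‖ ^ 2)
      (2 * (∫ z in a..b, conj ((g t : ℝ → ℂ) z) * (g' : ℝ → ℂ) z).re) t := by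
  have hsub : Ioc a b ⊆ Ioi (0 : ℝ) := fun x hx => lt_trans ha hx.1
  have hμ : (volume.restrict (Ioi (0 : ℝ))).restrict (Ioc a b) = volume.restrict (Ioc a b) := by
    rw [Measure.restrict_restrict measurableSet_Ioc, inter_eq_left.2 hsub]
  let R := LpToLpRestrictCLM ℝ ℂ ℝ (volume.restrict (Ioi (0 : ℝ))) 2 (Ioc a b)
  have hR : ∀ u : L2z, (R u : ℝ → ℂ) =ᵐ[(volume.restrict (Ioi (0 : ℝ))).restrict (Ioc a b)] u :=
    fun u => LpToLpRestrictCLM_coeFn (𝕜 := ℝ) (Ioc a b) u
  have hin : ∀ u v : L2z, inner ℝ (R u) (R v) =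
      ∫ z in Ioc a b, (conj ((u : ℝ → ℂ) z) * (v : ℝ → ℂ) z).re := by
    intro u v
    rw [L2.inner_def]
    have h5 : ∫ z, inner ℝ ((R u : ℝ → ℂ) z) ((R v : ℝ → ℂ) z)
        ∂((volume.restrict (Ioi (0 : ℝ))).restrict (Ioc a b)) =
        ∫ z, (conj ((u : ℝ → ℂ) z) * (v : ℝ → ℂ) z).re
        ∂((volume.restrict (Ioi (0 : ℝ))).restrict (Ioc a b)) := by
      apply integral_congr_ae
      filter_upwards [hR u, hR v] with z h1 h2
      rw [h1, h2, Complex.inner, mul_comm]
    rw [h5, hμ]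
  have h1 : HasDerivAt (fun t => R (g t)) (R g') t := R.hasFDerivAt.comp_hasDerivAt t h
  have h2 := h1.norm_sq
  have e1 : (fun t => ∫ z in a..b, ‖(g t : ℝ → ℂ) z‖ ^ 2) = (fun t => ‖R (g t)‖ ^ 2) := by
    funext t
    rw [← real_inner_self_eq_norm_sq, hin, intervalIntegral.integral_of_le hab.le]
    apply integral_congr_ae
    filter_upwards with z
    rw [mul_comm, Complex.mul_conj, Complex.ofReal_re, Complex.normSq_eq_norm_sq]
  have hint : Integrable (fun z => conj ((g t : ℝ → ℂ) z) * (g' : ℝ → ℂ) z)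
      (volume.restrict (Ioc a b)) := by
    have h3 := L2.integrable_inner (𝕜 := ℂ) (g t) g'
    have h4 := (h3.restrict (s := Ioc a b))
    rw [hμ] at h4
    refine h4.congr ?_
    filter_upwards with z
    rw [RCLike.inner_apply, mul_comm]
  have e2 : (∫ z in a..b, conj ((g t : ℝ → ℂ) z) * (g' : ℝ → ℂ) z).re =
      inner ℝ (R (g t)) (R g') := by
    rw [hin, intervalIntegral.integral_of_le hab.le]
    exact (integral_re hint).symm
  rw [e1, e2]
  exact h2

end N_mass_deriv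

end Pool.Agent.Helper459.SK
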