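import Mathlib
import Pool.Agent.Helper459.SK.Defs
import Pool.Agent.Helper459.SK.L_mass
import Pool.Agent.Helper459.SK.L_edges

set_option autoImplicit false

noncomputable section

open MeasureTheory Set Filter Topology
open scoped ContDiff ComplexConjugate

namespace Pool.Agent.Helper459.SK
open N_mass
open N_edges

namespace N_b3

private theorem j28819_cs (F : ℝ → ℝ) (hF : ContinuousOn F (uIcc (13 / 4 : ℝ) (17 / 4))) :
    (∫ z in (13 / 4 : ℝ)..(17 / 4), F z) ^ 2 ≤ ∫ z in (13 / 4 : ℝ)..(17 / 4), F z ^ 2 := by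
  obtain ⟨I, hI⟩ : ∃ I, I = ∫ z in (13 / 4 : ℝ)..(17 / 4), F z := ⟨_, rfl⟩
  have i1 : IntervalIntegrable F volume (13 / 4 : ℝ) (17 / 4) := hF.intervalIntegrable
  have i2 : IntervalIntegrable (fun z => F z ^ 2) volume (13 / 4 : ℝ) (17 / 4) :=
    (hF.pow 2).intervalIntegrable
  have h1 : 0 ≤ ∫ z in (13 / 4 : ℝ)..(17 / 4), (F z - I) ^ 2 :=
    intervalIntegral.integral_nonneg (by norm_num) fun z _ => sq_nonneg _
  have h2 : ∫ z in (13 / 4 : ℝ)..(17 / 4), (F z - I) ^ 2 =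
      (∫ z in (13 / 4 : ℝ)..(17 / 4), F z ^ 2) - 2 * I * I + I ^ 2 := by
    have h3 : ∀ z, (F z - I) ^ 2 = F z ^ 2 - 2 * I * F z + I ^ 2 := fun z => by ring
    simp_rw [h3]
    rw [intervalIntegral.integral_add (i2.sub (i1.const_mul _)) intervalIntegrable_const,
      intervalIntegral.integral_sub i2 (i1.const_mul _), intervalIntegral.integral_const_mul,
      intervalIntegral.integral_const, ← hI]
    norm_num
  rw [h2] at h1
  rw [← hI]
  nlinarith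

private theorem j28819_bd (w : ℝ → ℝ) (hw : WP w) (m : ℕ) (G G1 K : ℝ → ℂ) (hs : Sol w m G G1 K) :
    ‖G1 (13 / 4)‖ ≤ ‖G (17 / 4)‖ + ‖G (13 / 4)‖ +
      2 * Real.sqrt (∫ z in (13 / 4 : ℝ)..(17 / 4), ‖K z‖ ^ 2) := by
  have hsub : ∀ z ∈ uIcc (13 / 4 : ℝ) (17 / 4), z ∈ Ioo (3 / 2 : ℝ) (9 / 2) := by
    intro z hz
    rw [uIcc_of_le (by norm_num)] at hz
    exact ⟨by linarith [hz.1], by linarith [hz.2]⟩
  have hKc : ContinuousOn K (uIcc (13 / 4 : ℝ) (17 / 4)) := hs.kc.mono hsub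
  have hder : ∀ z ∈ uIcc (13 / 4 : ℝ) (17 / 4),
      HasDerivAt (fun z => G1 z * ((17 / 4 - z : ℝ) : ℂ) + G z)
        (-2 * (K z * ((17 / 4 - z : ℝ) : ℂ))) z := by
    intro z hz
    have hz' := hsub z hz
    have h1 := hs.d1 z hz'
    have h0 := hs.d0 z hz'
    have hwz : w z = 0 := by
      rw [uIcc_of_le (by norm_num)] at hz
      exact hw.flat2 z hz
    have hr : HasDerivAt (fun y : ℝ => ((17 / 4 - y : ℝ) : ℂ)) ((-1 : ℝ) : ℂ) z :=
      ((hasDerivAt_id z).const_sub (17 / 4 : ℝ)).ofReal_comp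
    have h2 := (h1.mul hr).add h0
    refine h2.congr_deriv ?_
    rw [hwz]
    push_cast
    ring
  have hint : IntervalIntegrable (fun z => -2 * (K z * ((17 / 4 - z : ℝ) : ℂ))) volume
      (13 / 4 : ℝ) (17 / 4) := by
    apply ContinuousOn.intervalIntegrable
    refine continuousOn_const.mul (hKc.mul ?_)
    exact (Complex.continuous_ofReal.comp (continuous_const.sub continuous_id)).continuousOn
  have hftc := intervalIntegral.integral_eq_sub_of_hasDerivAt hder hint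
  have hG1 : G1 (13 / 4) = G (17 / 4) - G (13 / 4) -
      ∫ z in (13 / 4 : ℝ)..(17 / 4), (-2 * (K z * ((17 / 4 - z : ℝ) : ℂ))) := by
    rw [hftc]
    norm_num
  have hI : ‖∫ z in (13 / 4 : ℝ)..(17 / 4), (-2 * (K z * ((17 / 4 - z : ℝ) : ℂ)))‖ ≤
      2 * ∫ z in (13 / 4 : ℝ)..(17 / 4), ‖K z‖ := by
    rw [intervalIntegral.integral_const_mul, norm_mul]
    have h2 : ‖(-2 : ℂ)‖ = 2 := by norm_num
    rw [h2]
    refine mul_le_mul_of_nonneg_left ?_ (by norm_num)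
    refine intervalIntegral.norm_integral_le_of_norm_le (by norm_num) ?_ hKc.norm.intervalIntegrable
    refine Filter.Eventually.of_forall fun z hz => ?_
    rw [norm_mul, Complex.norm_real, Real.norm_eq_abs]
    have h3 : |17 / 4 - z| ≤ 1 := abs_le.mpr ⟨by linarith [hz.2], by linarith [hz.1]⟩
    calc ‖K z‖ * |17 / 4 - z| ≤ ‖K z‖ * 1 := mul_le_mul_of_nonneg_left h3 (norm_nonneg _)
      _ = ‖K z‖ := mul_one _
  have hcs := j28819_cs (fun z => ‖K z‖) hKc.norm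
  have hsq := Real.le_sqrt_of_sq_le hcs
  rw [hG1]
  calc ‖G (17 / 4) - G (13 / 4) -
      ∫ z in (13 / 4 : ℝ)..(17 / 4), (-2 * (K z * ((17 / 4 - z : ℝ) : ℂ)))‖
      ≤ ‖G (17 / 4) - G (13 / 4)‖ +
        ‖∫ z in (13 / 4 : ℝ)..(17 / 4), (-2 * (K z * ((17 / 4 - z : ℝ) : ℂ)))‖ := norm_sub_le _ _
    _ ≤ (‖G (17 / 4)‖ + ‖G (13 / 4)‖) + 2 * ∫ z in (13 / 4 : ℝ)..(17 / 4), ‖K z‖ :=
        add_le_add (norm_sub_le _ _) hI
    _ ≤ _ := by linarith

theorem b3 (w f : ℝ → ℝ) (hw : WP w) (hf : FP f) (χ : ℝ → ℝ) (hχ : Chi χ) (g : ℕ → ℕ → ℝ → L2z) (Kc : ℕ → ℝ)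
    (hs : Sys w f g Kc) (ho : Osc χ g) (G G1 : ℕ → ℕ → ℝ → ℝ → ℂ) (hr : Rep w f g G G1 Kc)
    (t : ℝ) (ht : 0 < t) :
    Tendsto (fun m : ℕ => G1 m 0 t 3) atTop (𝓝 0) := by
  obtain ⟨-, -, e3, e4, e5⟩ := edges w f hw χ hχ g Kc ho G G1 hr t ht 0
  have hm := mass w f hw hf χ hχ g Kc hs ho G G1 hr t ht 1
  have hsq : Tendsto (fun m : ℕ => Real.sqrt (∫ z in (13 / 4 : ℝ)..(17 / 4), ‖G m 1 t z‖ ^ 2))
      atTop (𝓝 0) := by
    have := (Real.continuous_sqrt.tendsto 0).comp hm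
    rwa [Real.sqrt_zero] at this
  have hb : Tendsto (fun m : ℕ => ‖G m 0 t (17 / 4)‖ + ‖G m 0 t (13 / 4)‖ +
      2 * Real.sqrt (∫ z in (13 / 4 : ℝ)..(17 / 4), ‖G m 1 t z‖ ^ 2)) atTop (𝓝 0) := by
    have h1 := ((e4.norm).add (e3.norm)).add (hsq.const_mul 2)
    simpa using h1
  have ha : Tendsto (fun m : ℕ => G1 m 0 t (13 / 4)) atTop (𝓝 0) :=
    squeeze_zero_norm (fun m => j28819_bd w hw m _ _ _ (hr.sol m 0 t)) hb
  have h3 : Tendsto (fun m : ℕ => ‖G1 m 0 t 3‖ ^ 2) atTop (𝓝 0) := by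
    have h4 := e5.add ((ha.norm).pow 2)
    simpa using h4
  rw [tendsto_zero_iff_norm_tendsto_zero]
  have h5 := (Real.continuous_sqrt.tendsto 0).comp h3
  rw [Real.sqrt_zero] at h5
  refine h5.congr fun m => ?_
  exact Real.sqrt_sq (norm_nonneg _)

end N_b3

end Pool.Agent.Helper459.SK
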