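import Mathlib
import Pool.Agent.Helper459.SK.NDefs
import Pool.Agent.Helper459.SK.L_edge
import Pool.Agent.Helper459.SK.L_fb
import Pool.Agent.Helper459.SK.L_lw
import Pool.Agent.Helper459.SK.L_middle

set_option autoImplicit false

noncomputable section

open MeasureTheory Set Filter Topology
open scoped ContDiff ComplexConjugate

namespace Pool.Agent.Helper459.SK
open N_edge
open N_fb
open N_lw
open N_middle

namespace N_edges2

theorem el_pos : (0 : ℝ) < el := by unfold el; norm_num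

theorem l2b_mono {C C' : ℝ} {G : ℝ → ℂ} (h : L2b C G) (hC : C ^ 2 ≤ C' ^ 2) : L2b C' G :=
  ⟨h.1, h.2.trans hC⟩

theorem k2_aux {C : ℝ} {K : ℝ → ℂ} (hK : L2b C K) {a b : ℝ} (hab : a ≤ b) (ha : 3 / 2 ≤ a)
    (hb : b < 9 / 2) : ∫ s in a..b, ‖K s‖ ^ 2 ≤ C ^ 2 := by
  rw [intervalIntegral.integral_of_le hab]
  refine le_trans ?_ hK.2
  refine setIntegral_mono_set hK.1 (Filter.Eventually.of_forall fun x => by positivity) ?_
  have hsub : Ioc a b ⊆ Ioo (3 / 2 : ℝ) (9 / 2) := fun x hx =>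
    ⟨lt_of_le_of_lt ha hx.1, lt_of_le_of_lt hx.2 hb⟩
  exact hsub.eventuallyLE

theorem edge_plus (w : ℝ → ℝ) (χ : ℝ → ℝ) (m : ℕ) (C : ℝ) (G G1 K : ℝ → ℂ) (z0 : ℝ)
    (h1 : 3 / 2 < z0) (h2 : z0 + el < 9 / 2) (hw : ∀ s ∈ Icc (0 : ℝ) el, w (z0 + s) = Om s)
    (hs : Sol w m G G1 K) (hK : L2b C K) (hg : ‖G z0‖ ≤ C) (hg1 : ‖G1 z0‖ ≤ C)
    (hosc : ‖∫ z in z0..(z0 + el), (χ (z - z0) : ℂ) *
      Complex.exp (Complex.I * ((m * T (z - z0) : ℝ) : ℂ)) * G z‖ ≤ C / m) :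
    EdgeHyp χ m C (fun s => G (z0 + s)) (fun s => G1 (z0 + s)) (fun s => K (z0 + s)) := by
  have hin : ∀ s ∈ Icc (0 : ℝ) el, z0 + s ∈ Ioo (3 / 2 : ℝ) (9 / 2) := by
    intro s hs
    exact ⟨by linarith [hs.1], by linarith [hs.2]⟩
  refine ⟨⟨?_, ?_, ?_⟩, ?_, ?_, ?_, ?_⟩
  · intro s hs'
    exact (hs.d0 (z0 + s) (hin s hs')).comp_const_add z0 s
  · intro s hs'
    have h := (hs.d1 (z0 + s) (hin s hs')).comp_const_add z0 s
    rw [hw s hs'] at h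
    exact h
  · exact hs.kc.comp (by fun_prop) (fun s hs' => hin s hs')
  · simpa using hg
  · simpa using hg1
  · rw [intervalIntegral.integral_comp_add_left (fun x => ‖K x‖ ^ 2) z0]
    exact k2_aux hK (by linarith [el_pos]) (by linarith) h2
  · have := intervalIntegral.integral_comp_add_left (a := 0) (b := el) (fun z => (χ (z - z0) : ℂ) *
      Complex.exp (Complex.I * ((m * T (z - z0) : ℝ) : ℂ)) * G z) z0
    simp only [add_sub_cancel_left, add_zero] at this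
    rw [this]
    exact hosc

theorem edge_minus (w : ℝ → ℝ) (χ : ℝ → ℝ) (m : ℕ) (C : ℝ) (G G1 K : ℝ → ℂ)
    (hw : ∀ s ∈ Icc (0 : ℝ) el, w (13 / 4 - s) = Om s)
    (hs : Sol w m G G1 K) (hK : L2b C K) (hg : ‖G (13 / 4)‖ ≤ C) (hg1 : ‖G1 (13 / 4)‖ ≤ C)
    (hosc : ‖∫ z in (13 / 4 - el : ℝ)..(13 / 4), (χ (13 / 4 - z) : ℂ) *
      Complex.exp (-(Complex.I * ((m * T (13 / 4 - z) : ℝ) : ℂ))) * G z‖ ≤ C / m) :
    EdgeHyp χ m C (fun s => conj (G (13 / 4 - s))) (fun s => - conj (G1 (13 / 4 - s)))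
      (fun s => conj (K (13 / 4 - s))) := by
  have hel : el = 1 / 16 := rfl
  have hin : ∀ s ∈ Icc (0 : ℝ) el, 13 / 4 - s ∈ Ioo (3 / 2 : ℝ) (9 / 2) := by
    intro s hs
    rw [hel] at hs
    exact ⟨by linarith [hs.2], by linarith [hs.1]⟩
  refine ⟨⟨?_, ?_, ?_⟩, ?_, ?_, ?_, ?_⟩
  · intro s hs'
    have h := ((hs.d0 (13 / 4 - s) (hin s hs')).comp_const_sub (13 / 4) s).star
    refine h.congr_deriv ?_
    simp
  · intro s hs'
    have h := (((hs.d1 (13 / 4 - s) (hin s hs')).comp_const_sub (13 / 4) s).star).neg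
    rw [hw s hs'] at h
    refine h.congr_deriv ?_
    simp only [star_neg, star_sub, star_mul', neg_neg, RCLike.star_def, Complex.conj_ofReal,
      map_pow, Complex.conj_natCast, map_ofNat]
  · exact (Complex.continuous_conj.comp_continuousOn
      (hs.kc.comp (by fun_prop) (fun s hs' => hin s hs')))
  · simpa using hg
  · simpa using hg1
  · simp only [RCLike.norm_conj]
    rw [intervalIntegral.integral_comp_sub_left (fun x => ‖K x‖ ^ 2) (13 / 4)]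
    exact k2_aux hK (by rw [hel]; norm_num) (by rw [hel]; norm_num) (by norm_num)
  · have h3 := intervalIntegral.integral_comp_sub_left (a := 0) (b := el)
      (fun z => (χ (13 / 4 - z) : ℂ) *
      Complex.exp (-(Complex.I * ((m * T (13 / 4 - z) : ℝ) : ℂ))) * G z) (13 / 4)
    simp only [sub_sub_cancel, sub_zero] at h3
    have h4 : ∫ s in (0 : ℝ)..el, (χ s : ℂ) * Complex.exp (Complex.I * ((m * T s : ℝ) : ℂ)) *
        conj (G (13 / 4 - s)) = conj (∫ s in (0 : ℝ)..el, (χ s : ℂ) *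
          Complex.exp (-(Complex.I * ((m * T s : ℝ) : ℂ))) * G (13 / 4 - s)) := by
      rw [intervalIntegral.integral_of_le el_pos.le, intervalIntegral.integral_of_le el_pos.le,
        ← integral_conj]
      refine integral_congr_ae (Filter.Eventually.of_forall fun s => ?_)
      simp only [map_mul, Complex.conj_ofReal, ← Complex.exp_conj, map_neg, Complex.conj_I]
      congr 3
      ring
    rw [h4, RCLike.norm_conj, h3]
    exact hosc

theorem osc_congr {F Gt G : ℝ → ℂ} (h : Gt =ᵐ[volume.restrict (Ioo (3 / 2 : ℝ) (9 / 2))] G)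
    {a b : ℝ} (hab : a ≤ b) (ha : 3 / 2 ≤ a) (hb : b < 9 / 2) :
    ∫ z in a..b, F z * Gt z = ∫ z in a..b, F z * G z := by
  have h' := (ae_restrict_iff' measurableSet_Ioo).1 h
  refine intervalIntegral.integral_congr_ae ?_
  filter_upwards [h'] with z hz hzz
  rw [uIoc_of_le hab] at hzz
  rw [hz ⟨lt_of_le_of_lt ha hzz.1, lt_of_le_of_lt hzz.2 hb⟩]

theorem lim_aux (C0 C' C1 : ℝ) :
    Tendsto (fun m : ℕ => |C0| * (1 + Real.log m) ^ 2 * (|C'| * (Real.sqrt (|C1| * m) + 1) / m))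
      atTop (𝓝 0) := by
  have hlim : Tendsto (fun m : ℕ => (|C0| * 81 * (|C'| * (Real.sqrt |C1| + 1))) *
      (m : ℝ) ^ (-(1 / 4) : ℝ)) atTop (𝓝 0) := by
    have h := (tendsto_rpow_neg_atTop (show (0 : ℝ) < 1 / 4 by norm_num)).comp
      (tendsto_natCast_atTop_atTop (R := ℝ))
    have h2 := h.const_mul (|C0| * 81 * (|C'| * (Real.sqrt |C1| + 1)))
    rw [mul_zero] at h2
    exact h2
  refine squeeze_zero' (Filter.Eventually.of_forall fun m => by positivity) ?_ hlim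
  filter_upwards [eventually_ge_atTop 1] with m hm
  have hm1 : (1 : ℝ) ≤ m := by exact_mod_cast hm
  have hm0 : (0 : ℝ) < m := by linarith
  have hlog0 : 0 ≤ Real.log m := Real.log_nonneg hm1
  have hlog : Real.log m ≤ 8 * (m : ℝ) ^ (1 / 8 : ℝ) := by
    have := Real.log_le_rpow_div hm0.le (show (0 : ℝ) < 1 / 8 by norm_num)
    calc Real.log m ≤ (m : ℝ) ^ (1 / 8 : ℝ) / (1 / 8) := this
      _ = 8 * (m : ℝ) ^ (1 / 8 : ℝ) := by ring
  have h18 : 1 ≤ (m : ℝ) ^ (1 / 8 : ℝ) := Real.one_le_rpow hm1 (by norm_num)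
  have e1 : (1 + Real.log m) ^ 2 ≤ 81 * (m : ℝ) ^ (1 / 4 : ℝ) := by
    have h9 : 1 + Real.log m ≤ 9 * (m : ℝ) ^ (1 / 8 : ℝ) := by linarith
    calc (1 + Real.log m) ^ 2 ≤ (9 * (m : ℝ) ^ (1 / 8 : ℝ)) ^ 2 :=
          pow_le_pow_left₀ (by linarith) h9 2
      _ = 81 * ((m : ℝ) ^ (1 / 8 : ℝ) * (m : ℝ) ^ (1 / 8 : ℝ)) := by ring
      _ = 81 * (m : ℝ) ^ (1 / 4 : ℝ) := by
          rw [← Real.rpow_add hm0]; norm_num
  have h12 : 1 ≤ (m : ℝ) ^ (1 / 2 : ℝ) := Real.one_le_rpow hm1 (by norm_num)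
  have e2 : Real.sqrt (|C1| * m) + 1 ≤ (Real.sqrt |C1| + 1) * (m : ℝ) ^ (1 / 2 : ℝ) := by
    rw [Real.sqrt_mul (abs_nonneg _), Real.sqrt_eq_rpow (m : ℝ)]
    have := Real.sqrt_nonneg |C1|
    nlinarith
  have e3 : (m : ℝ) ^ (1 / 4 : ℝ) * (m : ℝ) ^ (1 / 2 : ℝ) / m = (m : ℝ) ^ (-(1 / 4) : ℝ) := by
    rw [← Real.rpow_add hm0, div_eq_iff hm0.ne']
    conv_rhs => rw [show ((m : ℝ) ^ (-(1 / 4) : ℝ) * (m : ℝ)) =
      (m : ℝ) ^ (-(1 / 4) : ℝ) * (m : ℝ) ^ (1 : ℝ) by rw [Real.rpow_one]]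
    rw [← Real.rpow_add hm0]
    norm_num
  calc |C0| * (1 + Real.log m) ^ 2 * (|C'| * (Real.sqrt (|C1| * m) + 1) / m)
      ≤ |C0| * (81 * (m : ℝ) ^ (1 / 4 : ℝ)) *
        (|C'| * ((Real.sqrt |C1| + 1) * (m : ℝ) ^ (1 / 2 : ℝ)) / m) := by gcongr
    _ = (|C0| * 81 * (|C'| * (Real.sqrt |C1| + 1))) *
        ((m : ℝ) ^ (1 / 4 : ℝ) * (m : ℝ) ^ (1 / 2 : ℝ) / m) := by ring
    _ = _ := by rw [e3]

theorem tendsto_of_norm_le {u : ℕ → ℂ} {δ : ℕ → ℝ} (hδ : Tendsto δ atTop (𝓝 0))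
    (h : ∀ᶠ m in atTop, ‖u m‖ ≤ δ m) : Tendsto u atTop (𝓝 0) :=
  squeeze_zero_norm' h hδ



theorem l2b_K (w : ℝ → ℝ) (hw : WP w) (q : ℝ) : ∃ W : ℝ, 0 ≤ W ∧ ∀ (C C' : ℝ) (A B : ℝ → ℂ),
    L2b C A → L2b C' B →
    ContinuousOn (fun z => A z - (q : ℂ) * (w z : ℂ) * B z) (Ioo (3 / 2 : ℝ) (9 / 2)) →
    L2b (Real.sqrt (2 * C ^ 2 + 2 * W ^ 2 * C' ^ 2))
      (fun z => A z - (q : ℂ) * (w z : ℂ) * B z) := by
  have hwc : ContinuousOn w (Icc (3 / 2 : ℝ) (9 / 2)) := fun z hz =>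
    (hw.smooth z (by linarith [hz.1])).continuousAt.continuousWithinAt
  obtain ⟨W, hW⟩ := isCompact_Icc.exists_bound_of_continuousOn hwc
  have hW0 : 0 ≤ W := (norm_nonneg _).trans (hW 2 (by norm_num))
  refine ⟨|q| * W, by positivity, fun C C' A B hA hB hc => ?_⟩
  have hpt : ∀ z ∈ Ioo (3 / 2 : ℝ) (9 / 2), ‖A z - (q : ℂ) * (w z : ℂ) * B z‖ ^ 2 ≤
      2 * ‖A z‖ ^ 2 + 2 * (|q| * W) ^ 2 * ‖B z‖ ^ 2 := by
    intro z hz
    have h1 : ‖A z - (q : ℂ) * (w z : ℂ) * B z‖ ≤ ‖A z‖ + |q| * W * ‖B z‖ := by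
      refine (norm_sub_le _ _).trans ?_
      have h2 : ‖(q : ℂ) * (w z : ℂ) * B z‖ ≤ |q| * W * ‖B z‖ := by
        rw [norm_mul, norm_mul, Complex.norm_real, Complex.norm_real]
        have := hW z ⟨hz.1.le, hz.2.le⟩
        gcongr
        exact le_of_eq (Real.norm_eq_abs q)
      linarith
    have h3 := pow_le_pow_left₀ (norm_nonneg _) h1 2
    nlinarith [sq_nonneg (‖A z‖ - |q| * W * ‖B z‖)]
  have hint : IntegrableOn (fun z => 2 * ‖A z‖ ^ 2 + 2 * (|q| * W) ^ 2 * ‖B z‖ ^ 2)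
      (Ioo (3 / 2 : ℝ) (9 / 2)) := (hA.1.const_mul 2).add (hB.1.const_mul _)
  have hmeas : AEStronglyMeasurable (fun z => ‖A z - (q : ℂ) * (w z : ℂ) * B z‖ ^ 2)
      (volume.restrict (Ioo (3 / 2 : ℝ) (9 / 2))) :=
    (hc.norm.pow 2).aestronglyMeasurable measurableSet_Ioo
  have hi : IntegrableOn (fun z => ‖A z - (q : ℂ) * (w z : ℂ) * B z‖ ^ 2)
      (Ioo (3 / 2 : ℝ) (9 / 2)) := by
    refine Integrable.mono' hint hmeas ?_
    filter_upwards [ae_restrict_mem measurableSet_Ioo] with z hz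
    rw [Real.norm_of_nonneg (by positivity)]
    exact hpt z hz
  refine ⟨hi, ?_⟩
  rw [Real.sq_sqrt (by positivity)]
  calc ∫ z in Ioo (3 / 2 : ℝ) (9 / 2), ‖A z - (q : ℂ) * (w z : ℂ) * B z‖ ^ 2
      ≤ ∫ z in Ioo (3 / 2 : ℝ) (9 / 2), (2 * ‖A z‖ ^ 2 + 2 * (|q| * W) ^ 2 * ‖B z‖ ^ 2) :=
        setIntegral_mono_on hi hint measurableSet_Ioo hpt
    _ = 2 * (∫ z in Ioo (3 / 2 : ℝ) (9 / 2), ‖A z‖ ^ 2) +
        2 * (|q| * W) ^ 2 * ∫ z in Ioo (3 / 2 : ℝ) (9 / 2), ‖B z‖ ^ 2 := by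
        rw [integral_add (hA.1.const_mul 2) (hB.1.const_mul _), integral_const_mul,
          integral_const_mul]
    _ ≤ 2 * C ^ 2 + 2 * (|q| * W) ^ 2 * C' ^ 2 := by
        have := hA.2
        have := hB.2
        gcongr

theorem edges2 (w : ℝ → ℝ) (hw : WP w) (χ : ℝ → ℝ) (hχ : Chi χ) (ν : ℕ → ℕ) (hν : Tendsto ν atTop atTop) (q : ℝ)
    (g : ℕ → ℕ → ℝ → L2z) (Kc : ℕ → ℝ)
    (ho : Osc2 χ ν g) (G G1 : ℕ → ℕ → ℝ → ℝ → ℂ) (hr : Rep2 w ν q g G G1 Kc) (t : ℝ) (ht : 0 < t) (j : ℕ) :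
    Tendsto (fun l : ℕ => G l j t 2) atTop (𝓝 0) ∧ Tendsto (fun l : ℕ => G l j t 3) atTop (𝓝 0) ∧
    Tendsto (fun l : ℕ => G l j t (13 / 4)) atTop (𝓝 0) ∧ Tendsto (fun l : ℕ => G l j t (17 / 4)) atTop (𝓝 0) ∧
    Tendsto (fun l : ℕ => ‖G1 l j t 3‖ ^ 2 - ‖G1 l j t (13 / 4)‖ ^ 2) atTop (𝓝 0) := by
  have hel : el = 1 / 16 := rfl
  obtain ⟨W, hW0, hW⟩ := l2b_K w hw q
  set CK : ℝ := Real.sqrt (2 * Kc (j + 1) ^ 2 + 2 * W ^ 2 * Kc j ^ 2) with hCK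
  have hCK0 : 0 ≤ CK := Real.sqrt_nonneg _
  set Cm : ℝ := |Kc j| + CK with hCm
  have hC1 : Kc j ^ 2 ≤ Cm ^ 2 := by
    rw [← sq_abs (Kc j)]
    exact pow_le_pow_left₀ (abs_nonneg _) (by rw [hCm]; linarith) 2
  have hC2 : CK ^ 2 ≤ Cm ^ 2 :=
    pow_le_pow_left₀ hCK0 (by rw [hCm]; linarith [abs_nonneg (Kc j)]) 2
  set K : ℕ → ℝ → ℂ := fun l z => G l (j + 1) t z - (q : ℂ) * (w z : ℂ) * G l j t z with hKdef
  have hLG : ∀ m, L2b Cm (G m j t) := fun m => l2b_mono (hr.bd m j t) hC1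
  have hLK : ∀ m, L2b Cm (K m) := fun m =>
    l2b_mono (hW _ _ _ _ (hr.bd m (j + 1) t) (hr.bd m j t) (hr.sol m j t).kc) hC2
  have hsol : ∀ m, Sol w (ν m) (G m j t) (G1 m j t) (K m) := fun m => hr.sol m j t
  obtain ⟨Cf, hCf⟩ := fb w hw Cm
  obtain ⟨o1, ho1⟩ := ho.o1 t ht j
  obtain ⟨o2, ho2⟩ := ho.o2 t ht j
  obtain ⟨o3, ho3⟩ := ho.o3 t ht j
  obtain ⟨Rm, C0, hRm, ⟨m0, hRm0⟩, hedge⟩ := edge χ hχ
  set C : ℝ := Cm + |Cf| + |o1| + |o2| + |o3| with hC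
  have hCm0 : 0 ≤ Cm := by rw [hCm]; positivity
  have hCmC : Cm ^ 2 ≤ C ^ 2 := by
    refine pow_le_pow_left₀ hCm0 ?_ 2
    rw [hC]
    linarith [abs_nonneg Cf, abs_nonneg o1, abs_nonneg o2, abs_nonneg o3]
  have hCfC : Cf ≤ C := by
    rw [hC]
    linarith [le_abs_self Cf, abs_nonneg o1, abs_nonneg o2, abs_nonneg o3]
  have ho1C : o1 ≤ C := by
    rw [hC]
    linarith [le_abs_self o1, abs_nonneg Cf, abs_nonneg o2, abs_nonneg o3]
  have ho2C : o2 ≤ C := by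
    rw [hC]
    linarith [le_abs_self o2, abs_nonneg o1, abs_nonneg Cf, abs_nonneg o3]
  have ho3C : o3 ≤ C := by
    rw [hC]
    linarith [le_abs_self o3, abs_nonneg o1, abs_nonneg o2, abs_nonneg Cf]
  have hLKC : ∀ m, L2b C (K m) := fun m => l2b_mono (hLK m) hCmC
  have hfb : ∀ m : ℕ, ∀ z ∈ Icc (2 : ℝ) 3 ∪ Icc (13 / 4 : ℝ) (17 / 4),
      ‖G m j t z‖ ≤ C ∧ ‖G1 m j t z‖ ≤ C := by
    intro m z hz
    have := hCf (ν m) _ _ _ (hsol m) (hLG m) (hLK m) z hz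
    exact ⟨this.1.trans hCfC, this.2.trans hCfC⟩
  have E1 : ∀ m : ℕ, 1 ≤ m → EdgeHyp χ (ν m) C (fun s => G m j t (3 + s))
      (fun s => G1 m j t (3 + s)) (fun s => K m (3 + s)) := by
    intro m hm
    refine edge_plus w χ (ν m) C _ _ _ 3 (by norm_num) (by rw [hel]; norm_num) hw.e1 (hsol m)
      (hLKC m) (hfb m 3 (Or.inl (by norm_num))).1 (hfb m 3 (Or.inl (by norm_num))).2 ?_
    rw [← osc_congr (hr.ae m j t) (by linarith [el_pos]) (by norm_num) (by rw [hel]; norm_num)]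
    exact (ho1 m hm).trans (by gcongr)
  have E3 : ∀ m : ℕ, 1 ≤ m → EdgeHyp χ (ν m) C (fun s => G m j t (17 / 4 + s))
      (fun s => G1 m j t (17 / 4 + s)) (fun s => K m (17 / 4 + s)) := by
    intro m hm
    refine edge_plus w χ (ν m) C _ _ _ (17 / 4) (by norm_num) (by rw [hel]; norm_num) hw.e3
      (hsol m) (hLKC m) (hfb m _ (Or.inr (by norm_num))).1
      (hfb m _ (Or.inr (by norm_num))).2 ?_
    rw [← osc_congr (hr.ae m j t) (by linarith [el_pos]) (by norm_num) (by rw [hel]; norm_num)]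
    exact (ho3 m hm).trans (by gcongr)
  have E2 : ∀ m : ℕ, 1 ≤ m → EdgeHyp χ (ν m) C (fun s => conj (G m j t (13 / 4 - s)))
      (fun s => - conj (G1 m j t (13 / 4 - s))) (fun s => conj (K m (13 / 4 - s))) := by
    intro m hm
    refine edge_minus w χ (ν m) C _ _ _ hw.e2 (hsol m) (hLKC m)
      (hfb m _ (Or.inr (by norm_num))).1 (hfb m _ (Or.inr (by norm_num))).2 ?_
    rw [← osc_congr (hr.ae m j t) (by linarith [el_pos]) (by rw [hel]; norm_num) (by norm_num)]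
    exact (ho2 m hm).trans (by gcongr)
  obtain ⟨C1, δ, hδ, hE⟩ := hedge C
  obtain ⟨Cmid, hmid⟩ := middle w hw Cm
  have hνR : Tendsto (fun l : ℕ => ((ν l : ℕ) : ℝ)) atTop atTop :=
    tendsto_natCast_atTop_atTop.comp hν
  have hevC : ∀ᶠ m : ℕ in atTop, C1 ≤ ((ν m : ℕ) : ℝ) :=
    hνR.eventually (eventually_ge_atTop C1)
  have hev1 : ∀ᶠ m : ℕ in atTop, 1 ≤ m := eventually_ge_atTop 1
  have hevν : ∀ᶠ m : ℕ in atTop, 1 ≤ ν m := hν.eventually (eventually_ge_atTop 1)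
  have hδν : Tendsto (fun l => δ (ν l)) atTop (𝓝 0) := hδ.comp hν
  refine ⟨?_, ?_, ?_, ?_, ?_⟩
  · rw [Metric.tendsto_atTop]
    intro ε hε
    obtain ⟨M0, hM0⟩ := lw w hw Cm (ε / 2) (by linarith)
    obtain ⟨M1, hM1⟩ := eventually_atTop.1 (hν.eventually (eventually_ge_atTop M0))
    refine ⟨M1, fun m hm => ?_⟩
    rw [dist_zero_right]
    have := hM0 (ν m) _ _ _ (hM1 m hm) (hsol m) (hLG m) (hLK m)
    linarith
  · refine tendsto_of_norm_le hδν ?_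
    filter_upwards [hevC, hev1, hevν] with m h1 h2 h2'
    have := (hE (ν m) _ _ _ (E1 m h2) h2' h1).1
    simpa using this
  · refine tendsto_of_norm_le hδν ?_
    filter_upwards [hevC, hev1, hevν] with m h1 h2 h2'
    have := (hE (ν m) _ _ _ (E2 m h2) h2' h1).1
    simpa using this
  · refine tendsto_of_norm_le hδν ?_
    filter_upwards [hevC, hev1, hevν] with m h1 h2 h2'
    have := (hE (ν m) _ _ _ (E3 m h2) h2' h1).1
    simpa using this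
  · have hl := (hδν.add hδν).add ((lim_aux C0 Cmid C1).comp hν)
    rw [add_zero, add_zero] at hl
    refine squeeze_zero_norm' ?_ hl
    filter_upwards [hevC, hev1, hevν, hν.eventually (eventually_ge_atTop m0)] with m h1 h2 h2' h3
    obtain ⟨-, a2, a3⟩ := hE (ν m) _ _ _ (E1 m h2) h2' h1
    obtain ⟨-, b2, -⟩ := hE (ν m) _ _ _ (E2 m h2) h2' h1
    simp only [add_zero] at a2 a3
    simp only [sub_zero, norm_neg, RCLike.norm_conj] at b2
    simp only [Function.comp_apply]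
    set M : ℕ := ν m with hM
    have hm0 : (0 : ℝ) < (M : ℝ) := by exact_mod_cast h2'
    have hpos : 0 ≤ C1 * (M : ℝ) := le_trans (by positivity) a3
    have hmm := hmid M _ _ _ h2' (hsol m) (hLG m) (hLK m) (Real.sqrt (C1 * M))
      (Real.sqrt_nonneg _) (by rw [Real.sq_sqrt hpos]; exact a3)
    have him : (conj (conj (G m j t (13 / 4 - el))) * -conj (G1 m j t (13 / 4 - el))).im =
        (conj (G m j t (13 / 4 - el)) * G1 m j t (13 / 4 - el)).im := by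
      simp only [Complex.mul_im, Complex.neg_im, Complex.neg_re, Complex.conj_im, Complex.conj_re,
        neg_neg]
      ring
    rw [him] at b2
    set f1 := (conj (G m j t (3 + el)) * G1 m j t (3 + el)).im with hf1
    set f2 := (conj (G m j t (13 / 4 - el)) * G1 m j t (13 / 4 - el)).im with hf2
    have hC1' : Real.sqrt (C1 * M) ≤ Real.sqrt (|C1| * M) := by
      apply Real.sqrt_le_sqrt
      gcongr
      exact le_abs_self C1
    have hA : |Rm M * (f1 - f2)| ≤ |C0| * (1 + Real.log M) ^ 2 *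
        (|Cmid| * (Real.sqrt (|C1| * M) + 1) / M) := by
      rw [abs_mul, abs_of_nonneg (hRm M)]
      have g1 : Rm M ≤ |C0| * (1 + Real.log M) ^ 2 := by
        refine (hRm0 M h3).trans ?_
        gcongr
        exact le_abs_self C0
      have g2 : |f1 - f2| ≤ |Cmid| * (Real.sqrt (|C1| * M) + 1) / M := by
        refine hmm.trans ?_
        gcongr
        exact le_abs_self Cmid
      exact mul_le_mul g1 g2 (abs_nonneg _) (by positivity)
    rw [Real.norm_eq_abs]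
    have hd : ‖G1 m j t 3‖ ^ 2 - ‖G1 m j t (13 / 4)‖ ^ 2 =
        (‖G1 m j t 3‖ ^ 2 - Rm M * f1) - (‖G1 m j t (13 / 4)‖ ^ 2 - Rm M * f2) +
          Rm M * (f1 - f2) := by ring
    rw [hd]
    have t1 := abs_add_le ((‖G1 m j t 3‖ ^ 2 - Rm M * f1) -
      (‖G1 m j t (13 / 4)‖ ^ 2 - Rm M * f2)) (Rm M * (f1 - f2))
    have t2 := abs_sub (‖G1 m j t 3‖ ^ 2 - Rm M * f1) (‖G1 m j t (13 / 4)‖ ^ 2 - Rm M * f2)
    linarith

end N_edges2

end Pool.Agent.Helper459.SK
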