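import Mathlib
import Pool.Agent.Helper459.SK.NDefs
import Pool.Agent.Helper459.SK.L_edges2
import Pool.Agent.Helper459.SK.L_mass_deriv
import Pool.Agent.Helper459.SK.L_fb

set_option autoImplicit false

noncomputable section

open MeasureTheory Set Filter Topology
open scoped ContDiff ComplexConjugate

namespace Pool.Agent.Helper459.SK
open N_edges2
open N_mass_deriv
open N_fb

namespace N_mass2

theorem fj_zero (f : ℝ → ℝ) (hf : FP f) : ∀ (j : ℕ) (z : ℝ), 3 < z → fj f j z = 0 := by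
  intro j
  induction j with
  | zero =>
    intro z hz
    have : z ∉ tsupport f := fun h => by
      have := (hf.supp h).2
      linarith
    exact image_eq_zero_of_notMem_tsupport this
  | succ j ih =>
    intro z hz
    have h1 : ∀ y, 3 < y → deriv (fj f j) y = 0 := by
      intro y hy
      have he : fj f j =ᶠ[𝓝 y] fun _ => (0 : ℝ) := by
        filter_upwards [Ioi_mem_nhds hy] with x hx
        exact ih x hx
      rw [he.deriv_eq]
      simp
    have h2 : deriv (deriv (fj f j)) z = 0 := by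
      have he : deriv (fj f j) =ᶠ[𝓝 z] fun _ => (0 : ℝ) := by
        filter_upwards [Ioi_mem_nhds hz] with x hx
        exact h1 x hx
      rw [he.deriv_eq]
      simp
    show -(1 / 2) * deriv (deriv (fj f j)) z = 0
    rw [h2, mul_zero]

theorem flux (w : ℝ → ℝ) (hw : WP w) (m : ℕ) (G G1 K : ℝ → ℂ) (hS : Sol w m G G1 K) :
    2 * (∫ z in (13 / 4 : ℝ)..(17 / 4), conj (G z) * (-Complex.I * K z)).re =
      (conj (G (13 / 4)) * G1 (13 / 4)).im - (conj (G (17 / 4)) * G1 (17 / 4)).im := by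
  have hIn : ∀ z ∈ uIcc (13 / 4 : ℝ) (17 / 4), z ∈ Ioo (3 / 2 : ℝ) (9 / 2) := by
    intro z hz
    rw [uIcc_of_le (by norm_num)] at hz
    exact ⟨by linarith [hz.1], by linarith [hz.2]⟩
  have hcG : ContinuousOn G (uIcc (13 / 4 : ℝ) (17 / 4)) := fun z hz =>
    (hS.d0 z (hIn z hz)).continuousAt.continuousWithinAt
  have hcG1 : ContinuousOn G1 (uIcc (13 / 4 : ℝ) (17 / 4)) := fun z hz =>
    (hS.d1 z (hIn z hz)).continuousAt.continuousWithinAt
  have hcK : ContinuousOn K (uIcc (13 / 4 : ℝ) (17 / 4)) := hS.kc.mono hIn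
  have hcc : ContinuousOn (fun z => conj (G z)) (uIcc (13 / 4 : ℝ) (17 / 4)) :=
    Complex.continuous_conj.comp_continuousOn hcG
  have hcc1 : ContinuousOn (fun z => conj (G1 z)) (uIcc (13 / 4 : ℝ) (17 / 4)) :=
    Complex.continuous_conj.comp_continuousOn hcG1
  have hd : ∀ z ∈ uIcc (13 / 4 : ℝ) (17 / 4),
      HasDerivAt (fun z => conj (G z) * G1 z)
        (conj (G1 z) * G1 z + (-2 : ℂ) * (conj (G z) * K z)) z := by
    intro z hz
    have hz' : z ∈ Icc (13 / 4 : ℝ) (17 / 4) := by rwa [uIcc_of_le (by norm_num)] at hz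
    have h0 := hS.d0 z (hIn z hz)
    have h1 := hS.d1 z (hIn z hz)
    have h2 : HasDerivAt (fun z => conj (G z)) (conj (G1 z)) z := h0.star
    have h3 : HasDerivAt (fun z => conj (G z) * G1 z) (conj (G1 z) * G1 z +
        conj (G z) * (-((m : ℂ) ^ 2 * (w z : ℂ)) * G z - 2 * K z)) z := h2.mul h1
    have e : conj (G1 z) * G1 z + (-2 : ℂ) * (conj (G z) * K z) = conj (G1 z) * G1 z +
        conj (G z) * (-((m : ℂ) ^ 2 * (w z : ℂ)) * G z - 2 * K z) := by
      rw [hw.flat2 z hz']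
      push_cast
      ring
    rw [e]
    exact h3
  have hi1 : IntervalIntegrable (fun z => conj (G1 z) * G1 z) volume (13 / 4) (17 / 4) :=
    (hcc1.mul hcG1).intervalIntegrable
  have hi2 : IntervalIntegrable (fun z => conj (G z) * K z) volume (13 / 4) (17 / 4) :=
    (hcc.mul hcK).intervalIntegrable
  have hint := intervalIntegral.integral_eq_sub_of_hasDerivAt hd
    (hi1.add (hi2.const_mul (-2 : ℂ)))
  rw [intervalIntegral.integral_add hi1 (hi2.const_mul (-2 : ℂ)),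
    intervalIntegral.integral_const_mul] at hint
  have hre : (∫ z in (13 / 4 : ℝ)..(17 / 4), conj (G1 z) * G1 z).im = 0 := by
    have : (fun z => conj (G1 z) * G1 z) = fun z => ((Complex.normSq (G1 z) : ℝ) : ℂ) := by
      funext z
      rw [Complex.normSq_eq_conj_mul_self]
    rw [this, intervalIntegral.integral_ofReal, Complex.ofReal_im]
  have him := congrArg Complex.im hint
  rw [Complex.add_im, hre, zero_add, Complex.sub_im] at him
  have h4 : ∫ z in (13 / 4 : ℝ)..(17 / 4), conj (G z) * (-Complex.I * K z) =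
      -Complex.I * ∫ z in (13 / 4 : ℝ)..(17 / 4), conj (G z) * K z := by
    rw [← intervalIntegral.integral_const_mul]
    refine intervalIntegral.integral_congr fun z _ => ?_
    ring
  rw [h4]
  set J := ∫ z in (13 / 4 : ℝ)..(17 / 4), conj (G z) * K z with hJ
  have h5 : ((-2 : ℂ) * J).im = -2 * J.im := by simp
  have h6 : (-Complex.I * J).re = J.im := by simp
  rw [h6]
  rw [h5] at him
  linarith

theorem L2b_comb (w : ℝ → ℝ) (hw : WP w) (q : ℝ) (C1 C2 : ℝ) : ∃ C3 : ℝ, ∀ (G H : ℝ → ℂ),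
    ContinuousOn (fun z => H z - (q : ℂ) * (w z : ℂ) * G z) (Ioo (3 / 2 : ℝ) (9 / 2)) →
    L2b C1 G → L2b C2 H → L2b C3 (fun z => H z - (q : ℂ) * (w z : ℂ) * G z) := by
  have hwc : ContinuousOn w (Icc (3 / 2 : ℝ) (9 / 2)) := fun z hz =>
    (hw.smooth z (by linarith [hz.1])).continuousAt.continuousWithinAt
  obtain ⟨W, hW⟩ := (isCompact_Icc : IsCompact (Icc (3 / 2 : ℝ) (9 / 2))).exists_bound_of_continuousOn hwc
  refine ⟨Real.sqrt (2 * C2 ^ 2 + 2 * (q * W) ^ 2 * C1 ^ 2), fun G H hK h1 h2 => ?_⟩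
  have hcont : ContinuousOn (fun z => ‖H z - (q : ℂ) * (w z : ℂ) * G z‖ ^ 2) (Ioo (3 / 2 : ℝ) (9 / 2)) :=
    hK.norm.pow 2
  have hmeas := hcont.aestronglyMeasurable (μ := volume) measurableSet_Ioo
  have hint : IntegrableOn (fun z => 2 * ‖H z‖ ^ 2 + 2 * (q * W) ^ 2 * ‖G z‖ ^ 2)
      (Ioo (3 / 2 : ℝ) (9 / 2)) := (h2.1.const_mul 2).add (h1.1.const_mul (2 * (q * W) ^ 2))
  have hle : ∀ z ∈ Ioo (3 / 2 : ℝ) (9 / 2), ‖H z - (q : ℂ) * (w z : ℂ) * G z‖ ^ 2 ≤
      2 * ‖H z‖ ^ 2 + 2 * (q * W) ^ 2 * ‖G z‖ ^ 2 := by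
    intro z hz
    have k1 : ‖H z - (q : ℂ) * (w z : ℂ) * G z‖ ≤ ‖H z‖ + ‖(q : ℂ) * (w z : ℂ) * G z‖ := norm_sub_le _ _
    have k2 : ‖(q : ℂ) * (w z : ℂ) * G z‖ = |q| * |w z| * ‖G z‖ := by
      rw [norm_mul, norm_mul, Complex.norm_real, Complex.norm_real, Real.norm_eq_abs, Real.norm_eq_abs]
    have k3 : |w z| ≤ W := by
      have := hW z ⟨hz.1.le, hz.2.le⟩
      rwa [Real.norm_eq_abs] at this
    have k4 : |q| * |w z| * ‖G z‖ ≤ |q| * W * ‖G z‖ :=
      mul_le_mul_of_nonneg_right (mul_le_mul_of_nonneg_left k3 (abs_nonneg q)) (norm_nonneg _)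
    have k5 : ‖H z - (q : ℂ) * (w z : ℂ) * G z‖ ^ 2 ≤ (‖H z‖ + |q| * W * ‖G z‖) ^ 2 :=
      pow_le_pow_left₀ (norm_nonneg _) (by rw [k2] at k1; linarith) 2
    have k6 : (|q| * W * ‖G z‖) ^ 2 = (q * W) ^ 2 * ‖G z‖ ^ 2 := by
      rw [mul_pow, mul_pow, sq_abs, mul_pow]
    nlinarith [sq_nonneg (‖H z‖ - |q| * W * ‖G z‖)]
  have hI : IntegrableOn (fun z => ‖H z - (q : ℂ) * (w z : ℂ) * G z‖ ^ 2) (Ioo (3 / 2 : ℝ) (9 / 2)) := by
    refine Integrable.mono' hint hmeas ?_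
    refine (ae_restrict_iff' measurableSet_Ioo).mpr (Eventually.of_forall fun z hz => ?_)
    rw [Real.norm_of_nonneg (by positivity)]
    exact hle z hz
  refine ⟨hI, ?_⟩
  rw [Real.sq_sqrt (by positivity)]
  calc ∫ z in Ioo (3 / 2 : ℝ) (9 / 2), ‖H z - (q : ℂ) * (w z : ℂ) * G z‖ ^ 2
      ≤ ∫ z in Ioo (3 / 2 : ℝ) (9 / 2), (2 * ‖H z‖ ^ 2 + 2 * (q * W) ^ 2 * ‖G z‖ ^ 2) :=
        setIntegral_mono_on hI hint measurableSet_Ioo hle
    _ = 2 * (∫ z in Ioo (3 / 2 : ℝ) (9 / 2), ‖H z‖ ^ 2) +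
        2 * (q * W) ^ 2 * ∫ z in Ioo (3 / 2 : ℝ) (9 / 2), ‖G z‖ ^ 2 := by
        rw [integral_add (h2.1.const_mul 2) (h1.1.const_mul (2 * (q * W) ^ 2)),
          integral_const_mul, integral_const_mul]
    _ ≤ 2 * C2 ^ 2 + 2 * (q * W) ^ 2 * C1 ^ 2 := by
        have e1 := h1.2
        have e2 := h2.2
        have e3 : 2 * (q * W) ^ 2 * ∫ z in Ioo (3 / 2 : ℝ) (9 / 2), ‖G z‖ ^ 2 ≤
            2 * (q * W) ^ 2 * C1 ^ 2 := mul_le_mul_of_nonneg_left e1 (by positivity)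
        linarith

theorem mass2 (w f : ℝ → ℝ) (hw : WP w) (hf : FP f) (χ : ℝ → ℝ) (hχ : Chi χ) (ν : ℕ → ℕ) (hν : Tendsto ν atTop atTop) (q : ℝ)
    (g : ℕ → ℕ → ℝ → L2z) (Kc : ℕ → ℝ)
    (hs : Sys2 w f ν q g Kc) (ho : Osc2 χ ν g) (G G1 : ℕ → ℕ → ℝ → ℝ → ℂ) (hr : Rep2 w ν q g G G1 Kc)
    (t : ℝ) (ht : 0 < t) (j : ℕ) :
    Tendsto (fun l : ℕ => ∫ z in (13 / 4 : ℝ)..(17 / 4), ‖G l j t z‖ ^ 2) atTop (𝓝 0) := by
  -- uniform bounds
  obtain ⟨C3, hC3⟩ := L2b_comb w hw q (Kc j) (Kc (j + 1))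
  set C : ℝ := |Kc j| + |C3| with hC
  have hL1 : ∀ m s, L2b C (G m j s) := fun m s => ⟨(hr.bd m j s).1, (hr.bd m j s).2.trans (by
    rw [← sq_abs (Kc j)]
    exact pow_le_pow_left₀ (abs_nonneg _) (by rw [hC]; linarith [abs_nonneg C3]) 2)⟩
  have hL2 : ∀ m s, L2b C (fun z => G m (j + 1) s z - (q : ℂ) * (w z : ℂ) * G m j s z) := by
    intro m s
    have h3 := hC3 (G m j s) (G m (j + 1) s) (hr.sol m j s).kc (hr.bd m j s) (hr.bd m (j + 1) s)
    exact ⟨h3.1, h3.2.trans (by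
      rw [← sq_abs C3]
      exact pow_le_pow_left₀ (abs_nonneg _) (by rw [hC]; linarith [abs_nonneg (Kc j)]) 2)⟩
  obtain ⟨C', hC'⟩ := fb w hw C
  have hb : ∀ m s, ∀ z ∈ Icc (13 / 4 : ℝ) (17 / 4), ‖G m j s z‖ ≤ C' ∧ ‖G1 m j s z‖ ≤ C' :=
    fun m s z hz => hC' (ν m) _ _ _ (hr.sol m j s) (hL1 m s) (hL2 m s) z (Or.inr hz)
  have hC0 : 0 ≤ C' := (norm_nonneg _).trans (hb 0 0 (13 / 4) ⟨le_refl _, by norm_num⟩).1
  -- a.e. equalities
  have hsub1 : Set.uIoc (13 / 4 : ℝ) (17 / 4) ⊆ Ioo (3 / 2 : ℝ) (9 / 2) := by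
    rw [uIoc_of_le (by norm_num)]
    intro z hz
    exact ⟨by linarith [hz.1], by linarith [hz.2]⟩
  have hsub2 : Set.uIoc (13 / 4 : ℝ) (17 / 4) ⊆ Ioi (0 : ℝ) := by
    intro z hz
    have := (hsub1 hz).1
    exact lt_trans (by norm_num) this
  have hae : ∀ m i s, ∀ᵐ z ∂(volume : Measure ℝ), z ∈ Set.uIoc (13 / 4 : ℝ) (17 / 4) →
      (g m i s : ℝ → ℂ) z = G m i s z := by
    intro m i s
    have h1 := ae_restrict_of_ae_restrict_of_subset hsub1 (hr.ae m i s)
    exact (ae_restrict_iff' measurableSet_uIoc).1 h1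
  have hsm : ∀ m s, ∀ᵐ z ∂(volume : Measure ℝ), z ∈ Set.uIoc (13 / 4 : ℝ) (17 / 4) →
      ((-Complex.I • g m (j + 1) s : L2z) : ℝ → ℂ) z = -Complex.I * G m (j + 1) s z := by
    intro m s
    have h1 := ae_restrict_of_ae_restrict_of_subset hsub2
      (Lp.coeFn_smul (-Complex.I) (g m (j + 1) s))
    have h2 := (ae_restrict_iff' measurableSet_uIoc).1 h1
    filter_upwards [h2, hae m (j + 1) s] with z hz1 hz2 hz
    rw [hz1 hz, Pi.smul_apply, hz2 hz, smul_eq_mul]
  -- the mass and its derivative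
  set A : ℕ → ℝ → ℝ := fun m s => ∫ z in (13 / 4 : ℝ)..(17 / 4), ‖(g m j s : ℝ → ℂ) z‖ ^ 2 with hA
  set D : ℕ → ℝ → ℝ := fun m s => (conj (G m j s (13 / 4)) * G1 m j s (13 / 4)).im -
    (conj (G m j s (17 / 4)) * G1 m j s (17 / 4)).im with hD
  have hAD : ∀ m s, HasDerivAt (A m) (D m s) s := by
    intro m s
    have h1 := mass_deriv (g m j) _ s (hs.der m j s) (13 / 4) (17 / 4) (by norm_num) (by norm_num)
    have h2 : 2 * (∫ z in (13 / 4 : ℝ)..(17 / 4), conj ((g m j s : ℝ → ℂ) z) *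
        ((-Complex.I • g m (j + 1) s : L2z) : ℝ → ℂ) z).re = D m s := by
      rw [hD]
      simp only
      rw [← flux w hw (ν m) _ _ _ (hr.sol m j s)]
      congr 2
      refine intervalIntegral.integral_congr_ae ?_
      filter_upwards [hae m j s, hsm m s] with z hz1 hz2 hz
      rw [hz1 hz, hz2 hz]
      have hz' : z ∈ Icc (13 / 4 : ℝ) (17 / 4) := by
        rw [uIoc_of_le (by norm_num)] at hz
        exact ⟨hz.1.le, hz.2⟩
      rw [hw.flat2 z hz']
      push_cast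
      ring
    rw [h2] at h1
    exact h1
  have hA0 : ∀ m, A m 0 = 0 := by
    intro m
    have h1 := ae_restrict_of_ae_restrict_of_subset hsub2 (hs.init m j)
    have h2 := (ae_restrict_iff' measurableSet_uIoc).1 h1
    have h3 : ∫ z in (13 / 4 : ℝ)..(17 / 4), ‖(g m j 0 : ℝ → ℂ) z‖ ^ 2 =
        ∫ z in (13 / 4 : ℝ)..(17 / 4), (0 : ℝ) := by
      refine intervalIntegral.integral_congr_ae ?_
      filter_upwards [h2] with z hz hz'
      rw [hz hz']
      have : 3 < z := by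
        rw [uIoc_of_le (by norm_num)] at hz'
        linarith [hz'.1]
      rw [fj_zero f hf j z this]
      simp
    show ∫ z in (13 / 4 : ℝ)..(17 / 4), ‖(g m j 0 : ℝ → ℂ) z‖ ^ 2 = 0
    rw [h3]
    simp
  have hAt : ∀ m, A m t = ∫ z in (13 / 4 : ℝ)..(17 / 4), ‖G m j t z‖ ^ 2 := by
    intro m
    refine intervalIntegral.integral_congr_ae ?_
    filter_upwards [hae m j t] with z hz hz'
    rw [hz hz']
  have hDb : ∀ m s, ‖D m s‖ ≤ 2 * (C' * C') := by
    intro m s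
    have k1 := hb m s (13 / 4) ⟨le_refl _, by norm_num⟩
    have k2 := hb m s (17 / 4) ⟨by norm_num, le_refl _⟩
    have e1 : |(conj (G m j s (13 / 4)) * G1 m j s (13 / 4)).im| ≤ C' * C' := by
      refine (Complex.abs_im_le_norm _).trans ?_
      rw [norm_mul, RCLike.norm_conj]
      exact mul_le_mul k1.1 k1.2 (norm_nonneg _) hC0
    have e2 : |(conj (G m j s (17 / 4)) * G1 m j s (17 / 4)).im| ≤ C' * C' := by
      refine (Complex.abs_im_le_norm _).trans ?_
      rw [norm_mul, RCLike.norm_conj]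
      exact mul_le_mul k2.1 k2.2 (norm_nonneg _) hC0
    rw [Real.norm_eq_abs]
    refine (abs_sub _ _).trans ?_
    linarith
  have hDm : ∀ m, Measurable (D m) := by
    intro m
    have : D m = deriv (A m) := funext fun s => (hAD m s).deriv.symm
    rw [this]
    exact measurable_deriv _
  have hDi : ∀ m, IntervalIntegrable (D m) volume 0 t := by
    intro m
    refine (intervalIntegrable_const (c := 2 * (C' * C'))).mono_fun
      (hDm m).aestronglyMeasurable ?_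
    filter_upwards with s
    rw [Real.norm_eq_abs (2 * (C' * C')), abs_of_nonneg (by positivity)]
    exact hDb m s
  have hFT : ∀ m, ∫ s in (0 : ℝ)..t, D m s = A m t := by
    intro m
    rw [intervalIntegral.integral_eq_sub_of_hasDerivAt (fun s _ => hAD m s) (hDi m), hA0, sub_zero]
  have hlim : Tendsto (fun m => ∫ s in (0 : ℝ)..t, D m s) atTop (𝓝 (∫ s in (0 : ℝ)..t, (0 : ℝ))) := by
    refine intervalIntegral.tendsto_integral_filter_of_dominated_convergence
      (fun _ => 2 * (C' * C')) ?_ ?_ intervalIntegrable_const ?_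
    · exact Eventually.of_forall fun m => (hDm m).aestronglyMeasurable
    · exact Eventually.of_forall fun m => Eventually.of_forall fun s _ => hDb m s
    · refine Eventually.of_forall fun s hs' => ?_
      rw [uIoc_of_le ht.le] at hs'
      have hE := edges2 w hw χ hχ ν hν q g Kc ho G G1 hr s hs'.1 j
      have l1 : Tendsto (fun m => (conj (G m j s (13 / 4)) * G1 m j s (13 / 4)).im) atTop (𝓝 0) := by
        refine squeeze_zero_norm (a := fun m => ‖G m j s (13 / 4)‖ * C') (fun m => ?_) ?_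
        · rw [Real.norm_eq_abs]
          refine (Complex.abs_im_le_norm _).trans ?_
          rw [norm_mul, RCLike.norm_conj]
          exact mul_le_mul_of_nonneg_left (hb m s (13 / 4) ⟨le_refl _, by norm_num⟩).2 (norm_nonneg _)
        · have := (hE.2.2.1.norm).mul_const C'
          simpa using this
      have l2 : Tendsto (fun m => (conj (G m j s (17 / 4)) * G1 m j s (17 / 4)).im) atTop (𝓝 0) := by
        refine squeeze_zero_norm (a := fun m => ‖G m j s (17 / 4)‖ * C') (fun m => ?_) ?_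
        · rw [Real.norm_eq_abs]
          refine (Complex.abs_im_le_norm _).trans ?_
          rw [norm_mul, RCLike.norm_conj]
          exact mul_le_mul_of_nonneg_left (hb m s (17 / 4) ⟨by norm_num, le_refl _⟩).2 (norm_nonneg _)
        · have := (hE.2.2.2.1.norm).mul_const C'
          simpa using this
      have h9 := l1.sub l2
      rw [sub_zero] at h9
      exact h9
  have hfin : (fun m : ℕ => ∫ z in (13 / 4 : ℝ)..(17 / 4), ‖G m j t z‖ ^ 2) =
      fun m => ∫ s in (0 : ℝ)..t, D m s := funext fun m => by rw [hFT m, hAt m]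
  rw [hfin]
  simpa using hlim

end N_mass2

end Pool.Agent.Helper459.SK
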