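import Mathlib
import Pool.Agent.Helper459.SK.NDefs

set_option autoImplicit false

noncomputable section

open MeasureTheory Set Filter Topology
open scoped ContDiff ComplexConjugate

namespace Pool.Agent.Helper459.SK

namespace N_bin

theorem bin (n N : ℕ) : ∃ C : ℝ, ∀ m : ℝ, 1 ≤ m →
    Integrable (fun p : E n × E n => ((1 + m + ‖(2 * Real.pi) • p.1‖ + ‖(2 * Real.pi) • p.2‖) ^ (2 * n + 1 + N))⁻¹) ∧
    ∫ p : E n × E n, ((1 + m + ‖(2 * Real.pi) • p.1‖ + ‖(2 * Real.pi) • p.2‖) ^ (2 * n + 1 + N))⁻¹ ≤ C / m ^ N := by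
  have hfin : (Module.finrank ℝ (E n × E n) : ℝ) < ((2 * n + 1 : ℕ) : ℝ) := by
    have : Module.finrank ℝ (E n × E n) = n + n := by
      rw [Module.finrank_prod]
      simp
    rw [this]
    push_cast
    linarith
  haveI : (volume : Measure (E n × E n)).IsAddHaarMeasure := by
    rw [Measure.volume_eq_prod]; infer_instance
  have hint : Integrable (fun p : E n × E n => (1 + ‖p‖) ^ (-((2 * n + 1 : ℕ) : ℝ))) :=
    integrable_one_add_norm hfin
  refine ⟨∫ p : E n × E n, (1 + ‖p‖) ^ (-((2 * n + 1 : ℕ) : ℝ)), fun m hm => ?_⟩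
  have hm0 : 0 < m := by linarith
  have hπ : 1 ≤ 2 * Real.pi := by linarith [Real.pi_gt_three]
  have key : ∀ p : E n × E n, ((1 + m + ‖(2 * Real.pi) • p.1‖ + ‖(2 * Real.pi) • p.2‖) ^ (2 * n + 1 + N))⁻¹ ≤
      (m ^ N)⁻¹ * (1 + ‖p‖) ^ (-((2 * n + 1 : ℕ) : ℝ)) := by
    intro p
    have h1 : ‖p.1‖ ≤ ‖(2 * Real.pi) • p.1‖ := by
      rw [norm_smul, Real.norm_of_nonneg (by linarith)]
      nlinarith [norm_nonneg p.1]
    have h2 : ‖p.2‖ ≤ ‖(2 * Real.pi) • p.2‖ := by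
      rw [norm_smul, Real.norm_of_nonneg (by linarith)]
      nlinarith [norm_nonneg p.2]
    have h3 : ‖p‖ ≤ ‖p.1‖ + ‖p.2‖ := by
      rw [Prod.norm_def]
      exact max_le (by linarith [norm_nonneg p.2]) (by linarith [norm_nonneg p.1])
    have h4 := norm_nonneg p
    have h5 : (1 + ‖p‖) ^ (-((2 * n + 1 : ℕ) : ℝ)) = ((1 + ‖p‖) ^ (2 * n + 1))⁻¹ := by
      rw [Real.rpow_neg (by linarith), Real.rpow_natCast]
    rw [h5, ← mul_inv]
    set q := 1 + m + ‖(2 * Real.pi) • p.1‖ + ‖(2 * Real.pi) • p.2‖ with hq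
    have hq1 : 1 + ‖p‖ ≤ q := by linarith
    have hq2 : m ≤ q := by
      linarith [norm_nonneg ((2 * Real.pi) • p.1), norm_nonneg ((2 * Real.pi) • p.2)]
    have h6 : m ^ N * (1 + ‖p‖) ^ (2 * n + 1) ≤ q ^ (2 * n + 1 + N) := by
      have h7 : (1 + ‖p‖) ^ (2 * n + 1) ≤ q ^ (2 * n + 1) := pow_le_pow_left₀ (by linarith) hq1 _
      have h8 : m ^ N ≤ q ^ N := pow_le_pow_left₀ hm0.le hq2 _
      calc m ^ N * (1 + ‖p‖) ^ (2 * n + 1) ≤ q ^ N * q ^ (2 * n + 1) :=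
            mul_le_mul h8 h7 (by positivity) (by positivity)
        _ = q ^ (2 * n + 1 + N) := by ring
    exact inv_anti₀ (by positivity) h6
  have hint2 : Integrable (fun p : E n × E n => (m ^ N)⁻¹ * (1 + ‖p‖) ^ (-((2 * n + 1 : ℕ) : ℝ))) :=
    hint.const_mul _
  have hI : Integrable (fun p : E n × E n =>
      ((1 + m + ‖(2 * Real.pi) • p.1‖ + ‖(2 * Real.pi) • p.2‖) ^ (2 * n + 1 + N))⁻¹) := by
    refine hint2.mono' ?_ (Filter.Eventually.of_forall fun p => ?_)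
    · refine Continuous.aestronglyMeasurable ?_
      refine Continuous.inv₀ (by fun_prop) fun p => ?_
      have := norm_nonneg ((2 * Real.pi) • p.1)
      have := norm_nonneg ((2 * Real.pi) • p.2)
      positivity
    · rw [Real.norm_of_nonneg (by positivity)]
      exact key p
  refine ⟨hI, ?_⟩
  calc ∫ p : E n × E n, ((1 + m + ‖(2 * Real.pi) • p.1‖ + ‖(2 * Real.pi) • p.2‖) ^ (2 * n + 1 + N))⁻¹
      ≤ ∫ p : E n × E n, (m ^ N)⁻¹ * (1 + ‖p‖) ^ (-((2 * n + 1 : ℕ) : ℝ)) := integral_mono hI hint2 key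
    _ = (∫ p : E n × E n, (1 + ‖p‖) ^ (-((2 * n + 1 : ℕ) : ℝ))) / m ^ N := by
        rw [integral_const_mul, div_eq_inv_mul]

end N_bin

end Pool.Agent.Helper459.SK
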