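import Mathlib
import Pool.Agent.Helper459.SK.NDefs

set_option autoImplicit false

noncomputable section

open MeasureTheory Set Filter Topology
open scoped ContDiff ComplexConjugate

namespace Pool.Agent.Helper459.SK

namespace N_cdn

theorem cdn {n : ℕ} (Γ : Set (E n × E n)) (hΓ : IsOpen Γ) (hc : ∀ p ∈ Γ, ∀ r : ℝ, 0 < r → r • p ∈ Γ)
    (K : Set (E n × E n)) (hK : IsCompact K) (hKΓ : K ⊆ Γ) :
    ∃ δ : ℝ, 0 < δ ∧ ∀ p : E n × E n, p ∉ Γ → ∀ τ : ℝ, 0 ≤ τ → ∀ k ∈ K,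
      δ * (‖p.1‖ + ‖p.2‖ + τ) ≤ ‖p.1 - τ • k.1‖ + ‖p.2 - τ • k.2‖ := by
  set A : Set ((E n × E n) × ℝ) := {q | ‖q.1.1‖ + ‖q.1.2‖ + q.2 = 1 ∧ 0 ≤ q.2 ∧ q.1 ∉ Γ} with hA
  have hAc : IsClosed A := by
    have h1 : IsClosed {q : (E n × E n) × ℝ | ‖q.1.1‖ + ‖q.1.2‖ + q.2 = 1} :=
      isClosed_eq (by fun_prop) continuous_const
    have h2 : IsClosed {q : (E n × E n) × ℝ | 0 ≤ q.2} := isClosed_le continuous_const continuous_snd
    have h3 : IsClosed {q : (E n × E n) × ℝ | q.1 ∉ Γ} :=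
      (hΓ.isClosed_compl).preimage continuous_fst
    exact h1.inter (h2.inter h3)
  have hAb : Bornology.IsBounded A := by
    refine Metric.isBounded_closedBall (x := (0 : (E n × E n) × ℝ)) (r := 1) |>.subset ?_
    rintro q ⟨h1, h2, _⟩
    rw [Metric.mem_closedBall, dist_zero_right, Prod.norm_def, Prod.norm_def]
    have e1 := norm_nonneg q.1.1
    have e2 := norm_nonneg q.1.2
    refine max_le (max_le ?_ ?_) ?_
    · linarith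
    · linarith
    · rw [Real.norm_eq_abs, abs_of_nonneg h2]; linarith
  have hAK : IsCompact (A ×ˢ K) := (Metric.isCompact_of_isClosed_isBounded hAc hAb).prod hK
  have hcont : ContinuousOn (fun x : ((E n × E n) × ℝ) × (E n × E n) =>
      ‖x.1.1.1 - x.1.2 • x.2.1‖ + ‖x.1.1.2 - x.1.2 • x.2.2‖) (A ×ˢ K) := by
    apply Continuous.continuousOn
    fun_prop
  have hmin : ∃ δ : ℝ, 0 < δ ∧ ∀ x ∈ A ×ˢ K,
      δ ≤ ‖x.1.1.1 - x.1.2 • x.2.1‖ + ‖x.1.1.2 - x.1.2 • x.2.2‖ := by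
    rcases (A ×ˢ K).eq_empty_or_nonempty with he | hne
    · refine ⟨1, one_pos, ?_⟩
      intro x hx
      rw [he] at hx
      exact absurd hx (Set.notMem_empty x)
    · obtain ⟨x₀, hx₀, hmin⟩ := hAK.exists_isMinOn hne hcont
      refine ⟨‖x₀.1.1.1 - x₀.1.2 • x₀.2.1‖ + ‖x₀.1.1.2 - x₀.1.2 • x₀.2.2‖, ?_, fun x hx => hmin hx⟩
      obtain ⟨⟨h1, h2, h3⟩, h4⟩ := hx₀
      by_contra hcon
      have e1 := norm_nonneg (x₀.1.1.1 - x₀.1.2 • x₀.2.1)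
      have e2 := norm_nonneg (x₀.1.1.2 - x₀.1.2 • x₀.2.2)
      have f1 : ‖x₀.1.1.1 - x₀.1.2 • x₀.2.1‖ = 0 := by linarith
      have f2 : ‖x₀.1.1.2 - x₀.1.2 • x₀.2.2‖ = 0 := by linarith
      rw [norm_eq_zero, sub_eq_zero] at f1 f2
      rcases eq_or_lt_of_le h2 with h5 | h5
      · rw [← h5, zero_smul] at f1 f2
        rw [f1, f2, norm_zero, ← h5] at h1
        norm_num at h1
      · apply h3
        have e : x₀.1.1 = x₀.1.2 • x₀.2 := Prod.ext f1 f2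
        rw [e]
        exact hc _ (hKΓ h4) _ h5
  obtain ⟨δ, hδ, hmin⟩ := hmin
  refine ⟨δ, hδ, ?_⟩
  intro p hp τ hτ k hk
  set s : ℝ := ‖p.1‖ + ‖p.2‖ + τ with hs
  have hs0 : 0 ≤ s := by positivity
  rcases eq_or_lt_of_le hs0 with h5 | h5
  · rw [← h5, mul_zero]; positivity
  have hsi : 0 < s⁻¹ := inv_pos.mpr h5
  have hmem : (((s⁻¹ • p, s⁻¹ * τ) : (E n × E n) × ℝ), k) ∈ A ×ˢ K := by
    refine ⟨⟨?_, ?_, ?_⟩, hk⟩
    · change ‖s⁻¹ • p.1‖ + ‖s⁻¹ • p.2‖ + s⁻¹ * τ = 1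
      rw [norm_smul, norm_smul, Real.norm_eq_abs, abs_of_pos hsi, ← mul_add, ← mul_add, ← hs]
      exact inv_mul_cancel₀ h5.ne'
    · exact mul_nonneg hsi.le hτ
    · intro h
      apply hp
      have := hc _ h s h5
      rwa [smul_smul, mul_inv_cancel₀ h5.ne', one_smul] at this
  have h6 := hmin _ hmem
  change δ ≤ ‖s⁻¹ • p.1 - (s⁻¹ * τ) • k.1‖ + ‖s⁻¹ • p.2 - (s⁻¹ * τ) • k.2‖ at h6
  rw [mul_smul, mul_smul, ← smul_sub, ← smul_sub, norm_smul, norm_smul, Real.norm_eq_abs,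
    abs_of_pos hsi, ← mul_add] at h6
  have h7 : δ * s ≤ s⁻¹ * (‖p.1 - τ • k.1‖ + ‖p.2 - τ • k.2‖) * s :=
    mul_le_mul_of_nonneg_right h6 h5.le
  rwa [mul_comm s⁻¹, mul_assoc, inv_mul_cancel₀ h5.ne', mul_one] at h7

end N_cdn

end Pool.Agent.Helper459.SK
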