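import Mathlib
import Pool.Agent.Helper459.SK.Defs

set_option autoImplicit false

noncomputable section

open MeasureTheory Set Filter Topology
open scoped ContDiff ComplexConjugate

namespace Pool.Agent.Helper459.SK

namespace N_quad

theorem quad (w : ℝ → ℝ) (a b z2 : ℝ) (ha : 0 < a) (h2 : z2 ∈ Icc a b)
    (hw : ∀ z, 0 < z → ContDiffAt ℝ ∞ w z) (hpos : ∀ᶠ z in 𝓝 z2, 0 ≤ w z) (h0 : w z2 = 0) :
    ∃ C : ℝ, ∀ z ∈ Icc a b, w z ≤ C * (z - z2) ^ 2 := by
  have hz2 : 0 < z2 := lt_of_lt_of_le ha h2.1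
  have hon : ContDiffOn ℝ ∞ w (Ioi 0) := fun z hz => (hw z hz).contDiffWithinAt
  have hon' : ContDiffOn ℝ ∞ (deriv w) (Ioi 0) :=
    ((contDiffOn_infty_iff_deriv_of_isOpen isOpen_Ioi).mp hon).2
  have hd1 : ∀ z, 0 < z → DifferentiableAt ℝ w z := fun z hz =>
    (hw z hz).differentiableAt (by simp)
  have hd2 : DifferentiableAt ℝ (deriv w) z2 :=
    (hon'.differentiableOn (by simp)).differentiableAt (Ioi_mem_nhds hz2)
  have hmin : IsLocalMin w z2 := by
    show ∀ᶠ z in 𝓝 z2, w z2 ≤ w z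
    rw [h0]
    exact hpos
  have hder : deriv w z2 = 0 := hmin.deriv_eq_zero
  have hO := hd2.hasDerivAt.isBigO_sub
  obtain ⟨M, hM, hMb⟩ := hO.exists_pos
  have hb := hMb.bound
  have hev : ∀ᶠ y in 𝓝 z2, ‖deriv w y - deriv w z2‖ ≤ M * ‖y - z2‖ ∧ 0 < y :=
    hb.and (lt_mem_nhds hz2)
  obtain ⟨δ, hδ, hball⟩ := Metric.eventually_nhds_iff_ball.mp hev
  have hcont : ContinuousOn w (Icc a b) := fun z hz =>
    ((hd1 z (lt_of_lt_of_le ha hz.1)).continuousAt).continuousWithinAt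
  obtain ⟨B, hB⟩ := isCompact_Icc.bddAbove_image hcont
  have hBz : ∀ z ∈ Icc a b, w z ≤ |B| := fun z hz =>
    (hB (mem_image_of_mem w hz)).trans (le_abs_self B)
  refine ⟨M + |B| / δ ^ 2, fun z hz => ?_⟩
  have hsq : 0 ≤ (z - z2) ^ 2 := sq_nonneg _
  by_cases hnear : |z - z2| < δ
  · have hsub : ∀ y ∈ Metric.closedBall z2 |z - z2|, y ∈ Metric.ball z2 δ := by
      intro y hy
      rw [Metric.mem_closedBall] at hy
      rw [Metric.mem_ball]
      linarith
    have h1 := Convex.norm_image_sub_le_of_norm_deriv_le (f := w) (C := M * |z - z2|)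
      (s := Metric.closedBall z2 |z - z2|) (x := z2) (y := z)
      (fun y hy => hd1 y (hball y (hsub y hy)).2)
      (fun y hy => by
        have h3 := (hball y (hsub y hy)).1
        rw [hder, sub_zero] at h3
        refine h3.trans (mul_le_mul_of_nonneg_left ?_ hM.le)
        rw [Metric.mem_closedBall, Real.dist_eq] at hy
        exact hy)
      (convex_closedBall _ _) (Metric.mem_closedBall_self (abs_nonneg _))
      (by rw [Metric.mem_closedBall, Real.dist_eq])
    rw [h0, sub_zero, Real.norm_eq_abs, Real.norm_eq_abs] at h1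
    have h4 : M * |z - z2| * |z - z2| = M * (z - z2) ^ 2 := by
      rw [mul_assoc, ← pow_two, sq_abs]
    rw [h4] at h1
    have h5 : 0 ≤ |B| / δ ^ 2 * (z - z2) ^ 2 := by positivity
    have h6 := le_abs_self (w z)
    calc w z ≤ M * (z - z2) ^ 2 := h6.trans h1
      _ ≤ (M + |B| / δ ^ 2) * (z - z2) ^ 2 := by rw [add_mul]; linarith
  · push Not at hnear
    have h1 := hBz z hz
    have h2' : δ ^ 2 ≤ (z - z2) ^ 2 := by
      rw [← sq_abs (z - z2)]
      exact pow_le_pow_left₀ hδ.le hnear 2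
    have h3 : |B| ≤ |B| / δ ^ 2 * (z - z2) ^ 2 := by
      rw [div_mul_eq_mul_div, le_div_iff₀ (by positivity)]
      exact mul_le_mul_of_nonneg_left h2' (abs_nonneg _)
    have h4 : 0 ≤ M * (z - z2) ^ 2 := by positivity
    rw [add_mul]
    linarith

end N_quad

end Pool.Agent.Helper459.SK
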