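import Mathlib
import Pool.Agent.Helper459.SK.NDefs
import Pool.Agent.Helper459.SK.L_quad
import Pool.Agent.Helper459.SK.L_wn_facts
import Pool.Agent.Helper459.SK.L_wn_pos

set_option autoImplicit false

noncomputable section

open MeasureTheory Set Filter Topology
open scoped ContDiff ComplexConjugate

namespace Pool.Agent.Helper459.SK
open N_quad
open N_wn_facts
open N_wn_pos

namespace N_class1n

theorem class1n (n : ℕ) (hn : 2 ≤ n) (s μ2 H2 : ℝ) (hs : 0 ≤ s) (hm : 0 < μ2) (z zd : ℝ → ℝ)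
    (hz : ∀ τ ∈ Icc 0 s, HasDerivAt z (zd τ) τ) (hpos : ∀ τ ∈ Icc 0 s, 0 < z τ)
    (hen : ∀ τ ∈ Icc 0 s, zd τ ^ 2 = aln n (z τ) * (H2 - μ2 * vn n (z τ)))
    (h0 : 2 < z 0) (h0' : z 0 < 3) (h1 : 3 < z s) (h1' : zd s < 0) : False := by
  obtain ⟨-, -, -, -, -, -, halpos, -, halsm, -⟩ := wn_pos n hn
  have hW := (wn_facts n hn).1
  have hcont : ContinuousOn z (Icc 0 s) := fun τ hτ => (hz τ hτ).continuousAt.continuousWithinAt
  have hne : (Icc 0 s).Nonempty := ⟨0, by constructor <;> linarith⟩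
  have h0mem : (0:ℝ) ∈ Icc 0 s := ⟨le_refl _, hs⟩
  have hsmem : s ∈ Icc 0 s := ⟨hs, le_refl _⟩
  obtain ⟨s2, hs2, hmax⟩ := isCompact_Icc.exists_isMaxOn hne hcont
  obtain ⟨s1, hs1, hmin⟩ := isCompact_Icc.exists_isMinOn hne hcont
  have hmax' : ∀ τ ∈ Icc 0 s, z τ ≤ z s2 := fun τ hτ => hmax hτ
  have hmin' : ∀ τ ∈ Icc 0 s, z s1 ≤ z τ := fun τ hτ => hmin hτ
  have hz2 : 3 < z s2 := lt_of_lt_of_le h1 (hmax' s hsmem)
  have hspos : 0 < s := by
    rcases hs.lt_or_eq with h | h
    · exact h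
    · rw [← h] at h1; linarith
  -- s2 ≠ 0
  have hs2_0 : 0 < s2 := by
    rcases hs2.1.lt_or_eq with h | h
    · exact h
    · rw [← h] at hz2; linarith
  -- s2 ≠ s
  have hs2_s : s2 < s := by
    rcases hs2.2.lt_or_eq with h | h
    · exact h
    · exfalso
      -- z τ ≤ z s for τ in [0,s], so the derivative at s is ≥ 0
      have hd := hz s hsmem
      have : 0 ≤ zd s := by
        have hlim := hd.hasDerivWithinAt (s := Iio s)
        rw [hasDerivWithinAt_iff_tendsto_slope' (by simp)] at hlim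
        refine ge_of_tendsto hlim ?_
        have hev : ∀ᶠ τ in 𝓝[<] s, 0 < τ :=
          (eventually_gt_nhds hspos).filter_mono nhdsWithin_le_nhds
        filter_upwards [hev, self_mem_nhdsWithin] with τ hτ0 hτs
        have hτs' : τ < s := hτs
        have hle : z τ ≤ z s := by
          have := hmax' τ ⟨hτ0.le, hτs'.le⟩
          rwa [h] at this
        rw [slope_def_field]
        apply div_nonneg_of_nonpos <;> linarith
      linarith
  have hint : Icc 0 s ∈ 𝓝 s2 := Icc_mem_nhds hs2_0 hs2_s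
  have hlocmax : IsLocalMax z s2 := hmax.isLocalMax hint
  have hzd0 : zd s2 = 0 := hlocmax.hasDerivAt_eq_zero (hz s2 hs2)
  have hm2 : 0 < μ2 := hm
  -- energy
  have hen2 := hen s2 hs2
  rw [hzd0] at hen2
  have hal2 := halpos (z s2) (by linarith)
  have hH2 : H2 = μ2 * vn n (z s2) := by
    have : aln n (z s2) * (H2 - μ2 * vn n (z s2)) = 0 := by rw [← hen2]; norm_num
    rcases mul_eq_zero.mp this with h | h
    · linarith
    · linarith
  have hen0 := hen 0 h0mem
  have hw0 : wn n (z 0) = 0 := hW.flat1 _ ⟨h0.le, h0'.le⟩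
  have hal0 := halpos (z 0) (by linarith)
  have hH0 : μ2 * (1/8) ≤ H2 := by
    have h2 : 0 ≤ aln n (z 0) * (H2 - μ2 * vn n (z 0)) := by rw [← hen0]; positivity
    have h3 : 0 ≤ H2 - μ2 * vn n (z 0) := by
      by_contra hc
      push Not at hc
      have := mul_neg_of_pos_of_neg hal0 hc
      linarith
    have h4 : vn n (z 0) = 1/8 := by unfold vn; rw [hw0]; ring
    rw [h4] at h3; linarith
  have hwnn : ∀ y, 3 < y → 0 ≤ wn n y := by
    intro y hy
    rcases lt_or_ge y (13/4) with h | h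
    · exact (hW.posM y ⟨hy, h⟩).le
    · rcases le_or_gt y (17/4) with h' | h'
      · exact (hW.flat2 y ⟨h, h'⟩).ge
      · exact (hW.posR y h').le
  have hw2 : wn n (z s2) = 0 := by
    have h5 := hwnn _ hz2
    have h6 : vn n (z s2) = 1/8 - 4 * wn n (z s2) := rfl
    rw [h6] at hH2
    have : μ2 * wn n (z s2) ≤ 0 := by nlinarith [hH0, hH2]
    have h7 : wn n (z s2) ≤ 0 := by
      by_contra hc
      push Not at hc
      have := mul_pos hm2 hc
      linarith
    linarith
  have hH : H2 = μ2 * (1/8) := by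
    rw [hH2]; unfold vn; rw [hw2]; ring
  -- quadratic bound
  have hapos : 0 < z s1 := hpos s1 hs1
  have hab : z s1 ≤ z s2 := hmin' s2 hs2
  obtain ⟨C, hC⟩ := quad (wn n) (z s1) (z s2) (z s2) hapos ⟨hab, le_refl _⟩ hW.smooth
    (by
      filter_upwards [eventually_gt_nhds hz2] with y hy using hwnn y hy) hw2
  have halcont : ContinuousOn (aln n) (Icc (z s1) (z s2)) := fun y hy =>
    ((halsm y (lt_of_lt_of_le hapos hy.1)).continuousAt).continuousWithinAt
  obtain ⟨A, hA⟩ := (isCompact_Icc.image_of_continuousOn halcont).bddAbove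
  have hA' : ∀ y ∈ Icc (z s1) (z s2), aln n y ≤ A := fun y hy => hA (mem_image_of_mem _ hy)
  have hApos : 0 < A := lt_of_lt_of_le hal2 (hA' _ ⟨hab, le_refl _⟩)
  set L : ℝ := Real.sqrt (A * (4 * μ2) * max C 0) with hL
  have hbound : ∀ τ ∈ Icc 0 s, |zd τ| ≤ L * |z τ - z s2| := by
    intro τ hτ
    have hmem : z τ ∈ Icc (z s1) (z s2) := ⟨hmin' τ hτ, hmax' τ hτ⟩
    have e1 := hen τ hτ
    have e2 : zd τ ^ 2 = aln n (z τ) * (4 * μ2 * wn n (z τ)) := by
      rw [e1, hH]; unfold vn; ring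
    have e3 := hC _ hmem
    have e4 : wn n (z τ) ≤ max C 0 * (z τ - z s2) ^ 2 :=
      e3.trans (mul_le_mul_of_nonneg_right (le_max_left _ _) (sq_nonneg _))
    have e5 : zd τ ^ 2 ≤ (A * (4 * μ2) * max C 0) * (z τ - z s2) ^ 2 := by
      have alp := halpos (z τ) (hpos τ hτ)
      calc zd τ ^ 2 = aln n (z τ) * (4 * μ2 * wn n (z τ)) := e2
        _ ≤ aln n (z τ) * (4 * μ2 * (max C 0 * (z τ - z s2) ^ 2)) := by gcongr
        _ ≤ A * (4 * μ2 * (max C 0 * (z τ - z s2) ^ 2)) := by
            apply mul_le_mul_of_nonneg_right (hA' _ hmem)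
            positivity
        _ = _ := by ring
    have hnn : 0 ≤ A * (4 * μ2) * max C 0 := by positivity
    rw [← Real.sqrt_sq_eq_abs (zd τ), ← Real.sqrt_sq_eq_abs (z τ - z s2), hL,
      ← Real.sqrt_mul hnn]
    exact Real.sqrt_le_sqrt e5
  -- Gronwall backwards
  have hg : ∀ x ∈ Icc (0:ℝ) s2, (fun τ => z (s2 - τ) - z s2) x = 0 := by
    refine eq_zero_of_abs_deriv_le_mul_abs_self_of_eq_zero_right
      (f' := fun τ => - zd (s2 - τ)) (K := L) ?_ ?_ ?_ ?_
    · intro x hx
      have hx' : s2 - x ∈ Icc 0 s := ⟨by linarith [hx.2], by linarith [hx.1]⟩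
      have := (hz _ hx').continuousAt
      apply ContinuousAt.continuousWithinAt
      have h8 : ContinuousAt (fun τ => z (s2 - τ)) x :=
        ContinuousAt.comp (f := fun τ => s2 - τ) this (by fun_prop)
      exact h8.sub continuousAt_const
    · intro x hx
      have hx' : s2 - x ∈ Icc 0 s := ⟨by linarith [hx.2], by linarith [hx.1]⟩
      have h9 := (hz _ hx').comp_const_sub s2 x
      exact (h9.sub_const (z s2)).hasDerivWithinAt
    · simp
    · intro x hx
      have hx' : s2 - x ∈ Icc 0 s := ⟨by linarith [hx.2], by linarith [hx.1]⟩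
      have := hbound _ hx'
      simpa using this
  have := hg s2 ⟨hs2_0.le, le_refl _⟩
  simp at this
  linarith

end N_class1n

end Pool.Agent.Helper459.SK
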