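import Mathlib
import Pool.Agent.Helper459.SK.Defs
import Pool.Agent.Helper459.SK.L_a0_formula
import Pool.Agent.Helper459.SK.L_a0_smooth
import Pool.Agent.Helper459.SK.L_w_pos

set_option autoImplicit false

noncomputable section

open MeasureTheory Set Filter Topology
open scoped ContDiff ComplexConjugate

namespace Pool.Agent.Helper459.SK
open N_a0_formula
open N_a0_smooth
open N_w_pos

namespace N_cons

theorem cons_dec (x : E 2) : x = x 0 • EuclideanSpace.single 0 1 + x 1 • EuclideanSpace.single 1 1 := by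
  ext i; fin_cases i <;> simp

theorem cons_hd (x : ℝ → E 2) (τ : ℝ) (v : E 2) (h0 : HasDerivAt (fun t => x t 0) (v 0) τ)
    (h1 : HasDerivAt (fun t => x t 1) (v 1) τ) : HasDerivAt x v τ := by
  have h := (h0.smul_const (EuclideanSpace.single (0 : Fin 2) (1:ℝ))).add
    (h1.smul_const (EuclideanSpace.single (1 : Fin 2) (1:ℝ)))
  have e : (fun t => x t 0 • (EuclideanSpace.single (0 : Fin 2) (1:ℝ) : E 2)) +
      (fun t => x t 1 • (EuclideanSpace.single (1 : Fin 2) (1:ℝ) : E 2)) = x := by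
    funext t; exact (cons_dec (x t)).symm
  rw [e, ← cons_dec v] at h
  exact h

theorem cons_fd (F : E 2 → ℝ) (x v : E 2) :
    fderiv ℝ F x v = v 0 * pd 0 F x + v 1 * pd 1 F x := by
  conv_lhs => rw [cons_dec v]
  rw [map_add, map_smul, map_smul, smul_eq_mul, smul_eq_mul]
  rfl

theorem cons_diff (j l : Fin 2) (x : E 2) : HasFDerivAt (fun y => A0 y j l)
    (fderiv ℝ (fun y => A0 y j l) x) x :=
  (((a0_smooth.1 j l).differentiable (by simp)) x).hasFDerivAt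

theorem cons_sq (x : E 2) : ‖x‖ ^ 2 = x 0 ^ 2 + x 1 ^ 2 := by
  rw [EuclideanSpace.real_norm_sq_eq, Fin.sum_univ_two]

theorem cons_in (x ξ : E 2) : inner ℝ x ξ = x 0 * ξ 0 + x 1 * ξ 1 := by
  simp [PiLp.inner_apply, Fin.sum_univ_two]; ring

/-- the rotated vector -/
def consJ (x : E 2) : E 2 := !₂[-x 1, x 0]

theorem consJ0 (x : E 2) : consJ x 0 = - x 1 := by simp [consJ]
theorem consJ1 (x : E 2) : consJ x 1 = x 0 := by simp [consJ]

theorem cons_rot (x : E 2) (hx : x ≠ 0) (j l : Fin 2) :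
    x 0 * pd 1 (fun y => A0 y j l) x - x 1 * pd 0 (fun y => A0 y j l) x =
      Dz (‖x‖ ^ 2 / 2) * (consJ x j * x l + x j * consJ x l) := by
  let γ : ℝ → E 2 := fun θ => Real.cos θ • x + Real.sin θ • consJ x
  have hγ0 : ∀ θ, γ θ 0 = Real.cos θ * x 0 - Real.sin θ * x 1 := by
    intro θ
    simp only [γ, PiLp.add_apply, PiLp.smul_apply, smul_eq_mul, consJ0]; ring
  have hγ1 : ∀ θ, γ θ 1 = Real.cos θ * x 1 + Real.sin θ * x 0 := by
    intro θ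
    simp only [γ, PiLp.add_apply, PiLp.smul_apply, smul_eq_mul, consJ1]
  have hnorm : ∀ θ, ‖γ θ‖ ^ 2 = ‖x‖ ^ 2 := by
    intro θ
    rw [cons_sq, cons_sq, hγ0, hγ1]
    have := Real.sin_sq_add_cos_sq θ
    linear_combination (x 0 ^ 2 + x 1 ^ 2) * this
  have hne : ∀ θ, γ θ ≠ 0 := by
    intro θ h
    have h1 := hnorm θ
    rw [h, norm_zero] at h1
    apply hx
    rw [← norm_eq_zero]
    have : ‖x‖ ^ 2 = 0 := by rw [← h1]; norm_num
    exact pow_eq_zero_iff (two_ne_zero) |>.1 this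
  have hd : HasDerivAt γ (consJ x) 0 := by
    have h1 := ((Real.hasDerivAt_cos 0).smul_const x).add ((Real.hasDerivAt_sin 0).smul_const (consJ x))
    rw [Real.sin_zero, Real.cos_zero, neg_zero, zero_smul, one_smul, zero_add] at h1
    exact h1
  have hγz : γ 0 = x := by
    simp only [γ, Real.cos_zero, Real.sin_zero, one_smul, zero_smul, add_zero]
  have h1 : HasDerivAt (fun θ => A0 (γ θ) j l) (fderiv ℝ (fun y => A0 y j l) x (consJ x)) 0 := by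
    have h2 := cons_diff j l x
    rw [← hγz] at h2
    have h3 := h2.comp_hasDerivAt 0 hd
    rw [hγz] at h3
    exact h3
  have hcomp : ∀ k : Fin 2, HasDerivAt (fun θ => γ θ k) (consJ x k) 0 := by
    intro k
    have := (EuclideanSpace.proj (𝕜 := ℝ) k : E 2 →L[ℝ] ℝ).hasFDerivAt.comp_hasDerivAt (0 : ℝ) hd
    exact this
  have h4 : HasDerivAt (fun θ => A0 (γ θ) j l)
      (Dz (‖x‖ ^ 2 / 2) * (consJ x j * x l + x j * consJ x l)) 0 := by
    have h5 : (fun θ => A0 (γ θ) j l) = fun θ => (if j = l then 2 * (‖x‖ ^ 2 / 2) * v0 (‖x‖ ^ 2 / 2) else 0) +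
        Dz (‖x‖ ^ 2 / 2) * (γ θ j * γ θ l) := by
      funext θ
      rw [a0_formula _ (hne θ), hnorm θ]
      ring
    rw [h5]
    have h6 := ((hcomp j).mul (hcomp l)).const_mul (Dz (‖x‖ ^ 2 / 2))
    have h7 := h6.const_add (if j = l then 2 * (‖x‖ ^ 2 / 2) * v0 (‖x‖ ^ 2 / 2) else 0)
    rw [hγz] at h7
    exact h7
  have h8 := h1.unique h4
  rw [cons_fd, consJ0, consJ1] at h8
  linear_combination h8

theorem cons_key (x ξ : E 2) :
    (∑ l, A0 x 0 l * ξ l) * ξ 1 - (∑ l, A0 x 1 l * ξ l) * ξ 0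
      + x 0 * (-(1 / 2) * ∑ j, ∑ l, pd 1 (fun y => A0 y j l) x * ξ j * ξ l)
      - x 1 * (-(1 / 2) * ∑ j, ∑ l, pd 0 (fun y => A0 y j l) x * ξ j * ξ l) = 0 := by
  simp only [Fin.sum_univ_two]
  by_cases hx : x = 0
  · subst hx
    have hA : ∀ i j : Fin 2, A0 0 i j = if i = j then 1 else 0 := by
      intro i j
      simp only [A0, norm_zero]
      rw [if_pos (by norm_num)]
    rw [hA, hA, hA, hA]
    simp
    ring
  · have r00 := cons_rot x hx 0 0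
    have r01 := cons_rot x hx 0 1
    have r10 := cons_rot x hx 1 0
    have r11 := cons_rot x hx 1 1
    rw [a0_formula x hx, a0_formula x hx, a0_formula x hx, a0_formula x hx]
    simp only [consJ0, consJ1] at r00 r01 r10 r11
    simp only [if_true, Fin.isValue, zero_ne_one, one_ne_zero, if_false]
    linear_combination (-(1/2) * ξ 0 * ξ 0) * r00 - (1/2) * ξ 0 * ξ 1 * r01 - (1/2) * ξ 1 * ξ 0 * r10
      - (1/2) * ξ 1 * ξ 1 * r11

theorem cons (s : ℝ) (hs : 0 ≤ s) (x ξ : ℝ → E 2) (h : IsBichar A0 x ξ (Icc 0 s))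
    (hμ : x 0 0 * ξ 0 1 - x 0 1 * ξ 0 0 ≠ 0) :
    ∃ H2 : ℝ, ∀ τ ∈ Icc 0 s, x τ ≠ 0 ∧ x τ 0 * ξ τ 1 - x τ 1 * ξ τ 0 = x 0 0 * ξ 0 1 - x 0 1 * ξ 0 0 ∧
      HasDerivAt (fun τ => ‖x τ‖ ^ 2 / 2)
        (al (‖x τ‖ ^ 2 / 2) / (2 * (‖x τ‖ ^ 2 / 2)) * inner ℝ (x τ) (ξ τ)) τ ∧
      (al (‖x τ‖ ^ 2 / 2) / (2 * (‖x τ‖ ^ 2 / 2)) * inner ℝ (x τ) (ξ τ)) ^ 2 =
        al (‖x τ‖ ^ 2 / 2) * (H2 - (x 0 0 * ξ 0 1 - x 0 1 * ξ 0 0) ^ 2 * v0 (‖x τ‖ ^ 2 / 2)) := by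
  -- angular momentum
  have hμd : ∀ τ ∈ Icc 0 s, HasDerivAt (fun τ => x τ 0 * ξ τ 1 - x τ 1 * ξ τ 0) 0 τ := by
    intro τ hτ
    obtain ⟨h1, h2⟩ := h τ hτ
    have h3 := ((h1 0).mul (h2 1)).sub ((h1 1).mul (h2 0))
    have h4 := cons_key (x τ) (ξ τ)
    refine h3.congr_deriv ?_
    rw [← h4]
    ring
  have hμc : ∀ τ ∈ Icc 0 s, x τ 0 * ξ τ 1 - x τ 1 * ξ τ 0 = x 0 0 * ξ 0 1 - x 0 1 * ξ 0 0 := by
    have := constant_of_has_deriv_right_zero (f := fun τ => x τ 0 * ξ τ 1 - x τ 1 * ξ τ 0)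
      (a := 0) (b := s)
      (fun τ hτ => (hμd τ hτ).continuousAt.continuousWithinAt)
      (fun τ hτ => (hμd τ (Ico_subset_Icc_self hτ)).hasDerivWithinAt)
    exact this
  have hx0 : ∀ τ ∈ Icc 0 s, x τ ≠ 0 := by
    intro τ hτ h0
    apply hμ
    rw [← hμc τ hτ, h0]
    simp
  -- energy
  let q : ℝ → ℝ := fun τ => A0 (x τ) 0 0 * (ξ τ 0 * ξ τ 0) + A0 (x τ) 0 1 * (ξ τ 0 * ξ τ 1)
    + A0 (x τ) 1 0 * (ξ τ 1 * ξ τ 0) + A0 (x τ) 1 1 * (ξ τ 1 * ξ τ 1)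
  have hqd : ∀ τ ∈ Icc 0 s, HasDerivAt q 0 τ := by
    intro τ hτ
    obtain ⟨h1, h2⟩ := h τ hτ
    simp only [Fin.sum_univ_two] at h1 h2
    let X : E 2 := !₂[A0 (x τ) 0 0 * ξ τ 0 + A0 (x τ) 0 1 * ξ τ 1, A0 (x τ) 1 0 * ξ τ 0 + A0 (x τ) 1 1 * ξ τ 1]
    have hX0 : X 0 = A0 (x τ) 0 0 * ξ τ 0 + A0 (x τ) 0 1 * ξ τ 1 := by simp [X]
    have hX1 : X 1 = A0 (x τ) 1 0 * ξ τ 0 + A0 (x τ) 1 1 * ξ τ 1 := by simp [X]
    have hx : HasDerivAt x X τ := cons_hd x τ X (by rw [hX0]; exact h1 0) (by rw [hX1]; exact h1 1)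
    have hA : ∀ j l : Fin 2, HasDerivAt (fun τ => A0 (x τ) j l)
        (X 0 * pd 0 (fun y => A0 y j l) (x τ) + X 1 * pd 1 (fun y => A0 y j l) (x τ)) τ := by
      intro j l
      have h3 := (cons_diff j l (x τ)).comp_hasDerivAt τ hx
      rw [cons_fd] at h3
      exact h3
    have h4 := ((((hA 0 0).mul ((h2 0).mul (h2 0))).add ((hA 0 1).mul ((h2 0).mul (h2 1)))).add
      ((hA 1 0).mul ((h2 1).mul (h2 0)))).add ((hA 1 1).mul ((h2 1).mul (h2 1)))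
    refine h4.congr_deriv ?_
    have hs : A0 (x τ) 1 0 = A0 (x τ) 0 1 := (a0_smooth.2.1 (x τ)).apply 0 1
    simp only [Pi.mul_apply, hX0, hX1, hs]
    ring
  have hqc : ∀ τ ∈ Icc 0 s, q τ = q 0 := by
    have := constant_of_has_deriv_right_zero (f := q)
      (a := 0) (b := s)
      (fun τ hτ => (hqd τ hτ).continuousAt.continuousWithinAt)
      (fun τ hτ => (hqd τ (Ico_subset_Icc_self hτ)).hasDerivWithinAt)
    exact this
  refine ⟨q 0, fun τ hτ => ⟨hx0 τ hτ, hμc τ hτ, ?_, ?_⟩⟩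
  · obtain ⟨h1, h2⟩ := h τ hτ
    simp only [Fin.sum_univ_two] at h1 h2
    have h3 := ((((h1 0).pow 2).add ((h1 1).pow 2)).div_const 2)
    have e : (fun τ => ‖x τ‖ ^ 2 / 2) = fun τ => (x τ 0 ^ 2 + x τ 1 ^ 2) / 2 := by
      funext t; rw [cons_sq]
    rw [e]
    refine h3.congr_deriv ?_
    have hz : 0 < ‖x τ‖ ^ 2 / 2 := by
      have := norm_pos_iff.2 (hx0 τ hτ)
      positivity
    have hzz : x τ 0 ^ 2 + x τ 1 ^ 2 = 2 * (‖x τ‖ ^ 2 / 2) := by rw [cons_sq]; ring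
    rw [a0_formula _ (hx0 τ hτ), a0_formula _ (hx0 τ hτ), a0_formula _ (hx0 τ hτ), a0_formula _ (hx0 τ hτ),
      cons_in]
    simp only [Dz]
    generalize ‖x τ‖ ^ 2 / 2 = z at hz hzz
    simp only [if_true, Fin.isValue, zero_ne_one, one_ne_zero, if_false]
    generalize al z = a
    generalize v0 z = v
    have hD : (a - 4 * z ^ 2 * v) / (4 * z ^ 2) = a / (4 * z ^ 2) - v := by field_simp
    rw [hD]
    have ha : a / (2 * z) = 2 * z * (a / (4 * z ^ 2)) := by field_simp; ring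
    rw [ha]
    generalize a / (4 * z ^ 2) = b
    push_cast
    linear_combination ((b - v) * (x τ 0 * ξ τ 0 + x τ 1 * ξ τ 1)) * hzz
  · have hq := hqc τ hτ
    have hz : 0 < ‖x τ‖ ^ 2 / 2 := by
      have := norm_pos_iff.2 (hx0 τ hτ)
      positivity
    have hzz : x τ 0 ^ 2 + x τ 1 ^ 2 = 2 * (‖x τ‖ ^ 2 / 2) := by rw [cons_sq]; ring
    rw [← hq, ← hμc τ hτ, cons_in]
    simp only [q]
    rw [a0_formula _ (hx0 τ hτ), a0_formula _ (hx0 τ hτ), a0_formula _ (hx0 τ hτ), a0_formula _ (hx0 τ hτ)]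
    simp only [Dz]
    generalize ‖x τ‖ ^ 2 / 2 = z at hz hzz
    simp only [if_true, Fin.isValue, zero_ne_one, one_ne_zero, if_false]
    generalize al z = a
    generalize v0 z = v
    have hD : (a - 4 * z ^ 2 * v) / (4 * z ^ 2) = a / (4 * z ^ 2) - v := by field_simp
    rw [hD]
    have ha : (a / (2 * z) * (x τ 0 * ξ τ 0 + x τ 1 * ξ τ 1)) ^ 2
      = a * (a / (4 * z ^ 2)) * (x τ 0 * ξ τ 0 + x τ 1 * ξ τ 1) ^ 2 := by field_simp; ring
    rw [ha]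
    generalize a / (4 * z ^ 2) = b
    linear_combination (a * v * (ξ τ 0 ^ 2 + ξ τ 1 ^ 2)) * hzz

end N_cons

end Pool.Agent.Helper459.SK
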