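import Mathlib
import Pool.Agent.Helper459.SK.Defs
import Pool.Agent.Helper459.SK.L_class1
import Pool.Agent.Helper459.SK.L_cons
import Pool.Agent.Helper459.SK.L_w_pos

set_option autoImplicit false

noncomputable section

open MeasureTheory Set Filter Topology
open scoped ContDiff ComplexConjugate

namespace Pool.Agent.Helper459.SK
open N_class1
open N_cons
open N_w_pos

namespace N_classical

theorem classical (s : ℝ) (hs : 0 ≤ s) (x ξ : ℝ → E 2) (h : IsBichar A0 x ξ (Icc 0 s))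
    (hW : (x 0, ξ 0) ∈ WW) : (x s, ξ s) ∉ VV := by
  rintro ⟨hv1, hv2⟩
  obtain ⟨hw1, hw2, hw3⟩ := hW
  obtain ⟨H2, hH⟩ := cons s hs x ξ h hw3
  have hs' : s ∈ Icc 0 s := ⟨hs, le_rfl⟩
  refine class1 s (x 0 0 * ξ 0 1 - x 0 1 * ξ 0 0) H2 hs hw3 (fun τ => ‖x τ‖ ^ 2 / 2)
    (fun τ => al (‖x τ‖ ^ 2 / 2) / (2 * (‖x τ‖ ^ 2 / 2)) * inner ℝ (x τ) (ξ τ))
    (fun τ hτ => (hH τ hτ).2.2.1) (fun τ hτ => ?_) (fun τ hτ => (hH τ hτ).2.2.2) hw1 hw2 hv1 ?_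
  · have h1 : 0 < ‖x τ‖ := norm_pos_iff.2 (hH τ hτ).1
    show 0 < ‖x τ‖ ^ 2 / 2
    positivity
  · have h1 : (0:ℝ) < ‖x s‖ ^ 2 / 2 := lt_trans (by norm_num) hv1
    have h2 : 0 < al (‖x s‖ ^ 2 / 2) := w_pos.2.2.2.2.2.2.1 _ h1
    have h3 : 0 < al (‖x s‖ ^ 2 / 2) / (2 * (‖x s‖ ^ 2 / 2)) := by positivity
    exact mul_neg_of_pos_of_neg h3 hv2


end N_classical

end Pool.Agent.Helper459.SK
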