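import Mathlib
import Pool.Agent.Helper459.SK.NDefs
import Pool.Agent.Helper459.SK.L_an_formula
import Pool.Agent.Helper459.SK.L_an_smooth
import Pool.Agent.Helper459.SK.L_wn_pos

set_option autoImplicit false

noncomputable section

open MeasureTheory Set Filter Topology
open scoped ContDiff ComplexConjugate

namespace Pool.Agent.Helper459.SK
open N_an_formula
open N_an_smooth
open N_wn_pos

namespace N_consn

theorem c_dec {n : ℕ} (x : E n) : x = ∑ k, x k • EuclideanSpace.single k (1 : ℝ) := by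
  ext i
  simp [Finset.sum_apply, Pi.single_apply]

theorem c_hd {n : ℕ} (x : ℝ → E n) (τ : ℝ) (v : E n)
    (h : ∀ k, HasDerivAt (fun t => x t k) (v k) τ) : HasDerivAt x v τ := by
  have h1 : HasDerivAt (fun t => ∑ k, x t k • (EuclideanSpace.single k (1 : ℝ) : E n))
      (∑ k, v k • (EuclideanSpace.single k (1 : ℝ) : E n)) τ :=
    HasDerivAt.fun_sum fun k _ => (h k).smul_const _
  rw [← c_dec v] at h1
  have e : (fun t => ∑ k, x t k • (EuclideanSpace.single k (1 : ℝ) : E n)) = x := by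
    funext t; exact (c_dec (x t)).symm
  rwa [e] at h1

theorem c_fd {n : ℕ} (F : E n → ℝ) (x v : E n) :
    fderiv ℝ F x v = ∑ k, v k * pd k F x := by
  conv_lhs => rw [c_dec v]
  rw [map_sum]
  refine Finset.sum_congr rfl fun k _ => ?_
  rw [map_smul, smul_eq_mul]
  rfl

theorem c_diff (n : ℕ) (hn : 2 ≤ n) (j l : Fin n) (x : E n) : HasFDerivAt (fun y => An n y j l)
    (fderiv ℝ (fun y => An n y j l) x) x :=
  ((((an_smooth n hn).1 j l).differentiable (by simp)) x).hasFDerivAt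

theorem c_sq {n : ℕ} (x : E n) : ‖x‖ ^ 2 = ∑ k, x k ^ 2 := EuclideanSpace.real_norm_sq_eq x

theorem c_in {n : ℕ} (x ξ : E n) : inner ℝ x ξ = ∑ k, x k * ξ k := by
  rw [PiLp.inner_apply]
  exact Finset.sum_congr rfl fun k _ => by simp [mul_comm]

theorem c_norm2 {n : ℕ} (x : E n) {i j : Fin n} (hij : i ≠ j) (p r : ℝ) :
    ‖x + p • (EuclideanSpace.single i (1 : ℝ) : E n) + r • (EuclideanSpace.single j (1 : ℝ) : E n)‖ ^ 2
      = ‖x‖ ^ 2 + (2 * p * x i + p ^ 2) + (2 * r * x j + r ^ 2) := by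
  rw [c_sq, c_sq]
  have h : ∀ k, (x + p • (EuclideanSpace.single i (1 : ℝ) : E n)
      + r • (EuclideanSpace.single j (1 : ℝ) : E n)) k ^ 2
      = x k ^ 2 + (if k = i then 2 * p * x i + p ^ 2 else 0)
        + (if k = j then 2 * r * x j + r ^ 2 else 0) := by
    intro k
    simp only [PiLp.add_apply, PiLp.smul_apply, PiLp.single_apply, smul_eq_mul]
    by_cases h1 : k = i
    · subst h1
      simp only [if_true, if_neg hij]
      ring
    · by_cases h2 : k = j
      · subst h2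
        simp only [if_true, if_neg h1]
        ring
      · simp only [if_neg h1, if_neg h2]
        ring
  simp only [h, Finset.sum_add_distrib, Finset.sum_ite_eq', Finset.mem_univ, if_true]

/-- the rotated vector -/
def cJ {n : ℕ} (i j : Fin n) (x : E n) : E n :=
  (-x j) • (EuclideanSpace.single i (1 : ℝ) : E n) + (x i) • (EuclideanSpace.single j (1 : ℝ) : E n)

theorem cJ_sum {n : ℕ} (i j : Fin n) (x : E n) (f : Fin n → ℝ) :
    ∑ k, cJ i j x k * f k = -x j * f i + x i * f j := by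
  have h : ∀ k, cJ i j x k * f k = (if k = i then -x j * f i else 0) + (if k = j then x i * f j else 0) := by
    intro k
    simp only [cJ, PiLp.add_apply, PiLp.smul_apply, PiLp.single_apply, smul_eq_mul]
    by_cases h1 : k = i
    · by_cases h2 : k = j
      · subst h1; subst h2; simp
      · subst h1; simp [h2]
    · by_cases h2 : k = j
      · subst h2; simp [h1]
      · simp [h1, h2]
  simp only [h, Finset.sum_add_distrib, Finset.sum_ite_eq', Finset.mem_univ, if_true]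

theorem norm_cong {n : ℕ} {x y : E n} (h : ‖x‖ = ‖y‖) : Bn x = Bn y ∧ Dn x = Dn y := by
  constructor
  · simp only [Bn, zf, h]
  · simp only [Dn, zf, h]

theorem c_rot (n : ℕ) (hn : 2 ≤ n) (x : E n) (hx : x ≠ 0) {i j : Fin n} (hij : i ≠ j) (k l : Fin n) :
    x i * pd j (fun y => An n y k l) x - x j * pd i (fun y => An n y k l) x =
      Dn x * (cJ i j x k * x l + x k * cJ i j x l) := by
  let p : ℝ → ℝ := fun θ => (Real.cos θ - 1) * x i - Real.sin θ * x j
  let r : ℝ → ℝ := fun θ => (Real.cos θ - 1) * x j + Real.sin θ * x i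
  let γ : ℝ → E n := fun θ => x + p θ • (EuclideanSpace.single i (1 : ℝ) : E n)
    + r θ • (EuclideanSpace.single j (1 : ℝ) : E n)
  have hnorm2 : ∀ θ, ‖γ θ‖ ^ 2 = ‖x‖ ^ 2 := by
    intro θ
    simp only [γ]
    rw [c_norm2 x hij]
    have := Real.sin_sq_add_cos_sq θ
    simp only [p, r]
    linear_combination (x i ^ 2 + x j ^ 2) * this
  have hnorm : ∀ θ, ‖γ θ‖ = ‖x‖ := by
    intro θ
    have h := hnorm2 θ
    exact (sq_eq_sq₀ (norm_nonneg _) (norm_nonneg _)).1 h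
  have hne : ∀ θ, γ θ ≠ 0 := by
    intro θ h
    have h1 := hnorm θ
    rw [h, norm_zero] at h1
    exact hx (norm_eq_zero.1 h1.symm)
  have hp : HasDerivAt p (-x j) 0 := by
    have h1 := (((Real.hasDerivAt_cos 0).sub_const 1).mul_const (x i)).sub
      ((Real.hasDerivAt_sin 0).mul_const (x j))
    refine h1.congr_deriv ?_
    simp
  have hr : HasDerivAt r (x i) 0 := by
    have h1 := (((Real.hasDerivAt_cos 0).sub_const 1).mul_const (x j)).add
      ((Real.hasDerivAt_sin 0).mul_const (x i))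
    refine h1.congr_deriv ?_
    simp
  have hd : HasDerivAt γ (cJ i j x) 0 := by
    have h1 := ((hp.smul_const (EuclideanSpace.single i (1 : ℝ) : E n)).const_add x).add
      (hr.smul_const (EuclideanSpace.single j (1 : ℝ) : E n))
    exact h1
  have hγz : γ 0 = x := by
    simp [γ, p, r]
  have h1 : HasDerivAt (fun θ => An n (γ θ) k l) (fderiv ℝ (fun y => An n y k l) x (cJ i j x)) 0 := by
    have h2 := c_diff n hn k l x
    rw [← hγz] at h2
    have h3 := h2.comp_hasDerivAt 0 hd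
    rw [hγz] at h3
    exact h3
  have hcomp : ∀ m : Fin n, HasDerivAt (fun θ => γ θ m) (cJ i j x m) 0 := by
    intro m
    have := (EuclideanSpace.proj (𝕜 := ℝ) m : E n →L[ℝ] ℝ).hasFDerivAt.comp_hasDerivAt (0 : ℝ) hd
    exact this
  have h4 : HasDerivAt (fun θ => An n (γ θ) k l)
      (Dn x * (cJ i j x k * x l + x k * cJ i j x l)) 0 := by
    have h5 : (fun θ => An n (γ θ) k l) = fun θ => (if k = l then Bn x else 0) +
        Dn x * (γ θ k * γ θ l) := by
      funext θ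
      rw [(an_formula n hn (γ θ) (hne θ) k l).1, (norm_cong (hnorm θ)).1, (norm_cong (hnorm θ)).2]
      ring
    rw [h5]
    have h6 := ((hcomp k).mul (hcomp l)).const_mul (Dn x)
    have h7 := h6.const_add (if k = l then Bn x else 0)
    rw [hγz] at h7
    exact h7
  have h8 := h1.unique h4
  rw [c_fd, cJ_sum] at h8
  linear_combination h8

theorem c_A (n : ℕ) (hn : 2 ≤ n) (x : E n) (hx : x ≠ 0) (ξ : E n) (i : Fin n) :
    ∑ l, An n x i l * ξ l = Bn x * ξ i + Dn x * x i * ∑ l, x l * ξ l := by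
  have h : ∀ l, An n x i l * ξ l = (if i = l then Bn x * ξ i else 0) + Dn x * x i * (x l * ξ l) := by
    intro l
    rw [(an_formula n hn x hx i l).1]
    by_cases h1 : i = l
    · subst h1; simp; ring
    · simp [h1]; ring
  simp only [h, Finset.sum_add_distrib, Finset.sum_ite_eq, Finset.mem_univ, if_true, ← Finset.mul_sum]

theorem c_key (n : ℕ) (hn : 2 ≤ n) (x ξ : E n) (i j : Fin n) :
    (∑ l, An n x i l * ξ l) * ξ j - (∑ l, An n x j l * ξ l) * ξ i
      + x i * (-(1 / 2) * ∑ k, ∑ l, pd j (fun y => An n y k l) x * ξ k * ξ l)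
      - x j * (-(1 / 2) * ∑ k, ∑ l, pd i (fun y => An n y k l) x * ξ k * ξ l) = 0 := by
  by_cases hij : i = j
  · subst hij; ring
  by_cases hx : x = 0
  · subst hx
    have hA : ∀ i j : Fin n, An n 0 i j = if i = j then 1 else 0 := by
      intro i j
      simp only [An, zf, norm_zero]
      rw [if_pos]
      rw [zero_pow (by omega), zero_div]
      norm_num
    simp [hA]
    ring
  · have e : x i * (-(1 / 2) * ∑ k, ∑ l, pd j (fun y => An n y k l) x * ξ k * ξ l)
        - x j * (-(1 / 2) * ∑ k, ∑ l, pd i (fun y => An n y k l) x * ξ k * ξ l)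
        = -(1 / 2) * ∑ k, ∑ l, (x i * pd j (fun y => An n y k l) x
          - x j * pd i (fun y => An n y k l) x) * ξ k * ξ l := by
      simp only [sub_mul, Finset.sum_sub_distrib, mul_assoc, ← Finset.mul_sum]
      ring
    have e2 : ∑ k, ∑ l, (x i * pd j (fun y => An n y k l) x
          - x j * pd i (fun y => An n y k l) x) * ξ k * ξ l
        = 2 * Dn x * (-x j * ξ i + x i * ξ j) * ∑ l, x l * ξ l := by
      have h1 : ∀ k l, (x i * pd j (fun y => An n y k l) x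
          - x j * pd i (fun y => An n y k l) x) * ξ k * ξ l
          = Dn x * ((cJ i j x k * ξ k) * (x l * ξ l)) + Dn x * ((x k * ξ k) * (cJ i j x l * ξ l)) := by
        intro k l
        rw [c_rot n hn x hx hij k l]
        ring
      simp only [h1, Finset.sum_add_distrib, ← Finset.mul_sum, ← Finset.sum_mul, cJ_sum]
      ring
    have e3 := c_A n hn x hx ξ i
    have e4 := c_A n hn x hx ξ j
    rw [add_sub_assoc, e, e2, e3, e4]
    ring

theorem c_lag {n : ℕ} (x ξ : E n) :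
    ‖x‖ ^ 2 * ‖ξ‖ ^ 2 - (inner ℝ x ξ : ℝ) ^ 2
      = (1 / 2) * ∑ i, ∑ j, (x i * ξ j - x j * ξ i) ^ 2 := by
  rw [c_sq, c_sq, c_in]
  have h : ∀ i j, (x i * ξ j - x j * ξ i) ^ 2 =
      x i ^ 2 * ξ j ^ 2 + ξ i ^ 2 * x j ^ 2 - 2 * ((x i * ξ i) * (x j * ξ j)) := by
    intro i j; ring
  simp only [h, Finset.sum_sub_distrib, Finset.sum_add_distrib, ← Finset.mul_sum, ← Finset.sum_mul]
  ring

theorem consn (n : ℕ) (hn : 2 ≤ n) (s : ℝ) (hs : 0 ≤ s) (x ξ : ℝ → E n) (h : IsBichar (An n) x ξ (Icc 0 s))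
    (hμ : 0 < ‖x 0‖ ^ 2 * ‖ξ 0‖ ^ 2 - (inner ℝ (x 0) (ξ 0) : ℝ) ^ 2) :
    ∃ H2 : ℝ, ∀ τ ∈ Icc 0 s, x τ ≠ 0 ∧
      HasDerivAt (fun τ => zf (x τ)) (aln n (zf (x τ)) / ‖x τ‖ ^ n * inner ℝ (x τ) (ξ τ)) τ ∧
      (aln n (zf (x τ)) / ‖x τ‖ ^ n * inner ℝ (x τ) (ξ τ)) ^ 2 =
        aln n (zf (x τ)) * (H2 - (‖x 0‖ ^ 2 * ‖ξ 0‖ ^ 2 - (inner ℝ (x 0) (ξ 0) : ℝ) ^ 2) * vn n (zf (x τ))) := by
  -- angular momentum
  have hmd : ∀ i j, ∀ τ ∈ Icc 0 s, HasDerivAt (fun τ => x τ i * ξ τ j - x τ j * ξ τ i) 0 τ := by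
    intro i j τ hτ
    obtain ⟨h1, h2⟩ := h τ hτ
    have h3 := ((h1 i).mul (h2 j)).sub ((h1 j).mul (h2 i))
    have h4 := c_key n hn (x τ) (ξ τ) i j
    refine h3.congr_deriv ?_
    rw [← h4]
    ring
  have hmc : ∀ i j, ∀ τ ∈ Icc 0 s, x τ i * ξ τ j - x τ j * ξ τ i = x 0 i * ξ 0 j - x 0 j * ξ 0 i := by
    intro i j
    have := constant_of_has_deriv_right_zero (f := fun τ => x τ i * ξ τ j - x τ j * ξ τ i)
      (a := 0) (b := s)
      (fun τ hτ => (hmd i j τ hτ).continuousAt.continuousWithinAt)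
      (fun τ hτ => (hmd i j τ (Ico_subset_Icc_self hτ)).hasDerivWithinAt)
    exact this
  have hμc : ∀ τ ∈ Icc 0 s, ‖x τ‖ ^ 2 * ‖ξ τ‖ ^ 2 - (inner ℝ (x τ) (ξ τ) : ℝ) ^ 2
      = ‖x 0‖ ^ 2 * ‖ξ 0‖ ^ 2 - (inner ℝ (x 0) (ξ 0) : ℝ) ^ 2 := by
    intro τ hτ
    rw [c_lag, c_lag]
    congr 1
    refine Finset.sum_congr rfl fun i _ => Finset.sum_congr rfl fun j _ => ?_
    rw [hmc i j τ hτ]
  have hx0 : ∀ τ ∈ Icc 0 s, x τ ≠ 0 := by
    intro τ hτ h0
    have h1 := hμc τ hτ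
    rw [h0] at h1
    simp at h1
    linarith
  -- energy
  let q : ℝ → ℝ := fun τ => ∑ j, ∑ l, An n (x τ) j l * (ξ τ j * ξ τ l)
  have hqd : ∀ τ ∈ Icc 0 s, HasDerivAt q 0 τ := by
    intro τ hτ
    obtain ⟨h1, h2⟩ := h τ hτ
    let X : E n := WithLp.toLp 2 (fun i => ∑ l, An n (x τ) i l * ξ τ l)
    have hX : ∀ i, X i = ∑ l, An n (x τ) i l * ξ τ l := fun i => rfl
    have hx : HasDerivAt x X τ := c_hd x τ X (fun k => by rw [hX]; exact h1 k)
    have hA : ∀ j l : Fin n, HasDerivAt (fun τ => An n (x τ) j l)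
        (∑ k, X k * pd k (fun y => An n y j l) (x τ)) τ := by
      intro j l
      have h3 := (c_diff n hn j l (x τ)).comp_hasDerivAt τ hx
      rw [c_fd] at h3
      exact h3
    set Ξ : Fin n → ℝ := fun i =>
      -(1 / 2) * ∑ j, ∑ l, pd i (fun y => An n y j l) (x τ) * ξ τ j * ξ τ l with hΞ
    have hξ : ∀ i, HasDerivAt (fun τ => ξ τ i) (Ξ i) τ := fun i => h2 i
    have h4 : HasDerivAt q (∑ j, ∑ l, ((∑ k, X k * pd k (fun y => An n y j l) (x τ)) * (ξ τ j * ξ τ l)
        + An n (x τ) j l * (Ξ j * ξ τ l + ξ τ j * Ξ l))) τ := by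
      refine HasDerivAt.fun_sum fun j _ => HasDerivAt.fun_sum fun l _ => ?_
      exact (hA j l).mul ((hξ j).mul (hξ l))
    refine h4.congr_deriv ?_
    have s1 : ∑ j, ∑ l, (∑ k, X k * pd k (fun y => An n y j l) (x τ)) * (ξ τ j * ξ τ l)
        = -2 * ∑ k, X k * Ξ k := by
      have : ∀ k, X k * Ξ k = -(1 / 2) * ∑ j, ∑ l,
          X k * (pd k (fun y => An n y j l) (x τ) * (ξ τ j * ξ τ l)) := by
        intro k
        simp only [hΞ, ← Finset.mul_sum, mul_assoc]
        ring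
      have t1 : ∑ j, ∑ l, (∑ k, X k * pd k (fun y => An n y j l) (x τ)) * (ξ τ j * ξ τ l)
          = ∑ k, ∑ j, ∑ l, X k * (pd k (fun y => An n y j l) (x τ) * (ξ τ j * ξ τ l)) := by
        have t2 : ∀ j, ∑ l, (∑ k, X k * pd k (fun y => An n y j l) (x τ)) * (ξ τ j * ξ τ l)
            = ∑ k, ∑ l, X k * (pd k (fun y => An n y j l) (x τ) * (ξ τ j * ξ τ l)) := by
          intro j
          rw [Finset.sum_comm]
          refine Finset.sum_congr rfl fun l _ => ?_
          rw [Finset.sum_mul]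
          exact Finset.sum_congr rfl fun k _ => by ring
        simp only [t2]
        exact Finset.sum_comm
      rw [t1, Finset.mul_sum]
      refine Finset.sum_congr rfl fun k _ => ?_
      rw [this k]
      ring
    have s2 : ∑ j, ∑ l, An n (x τ) j l * (Ξ j * ξ τ l) = ∑ k, X k * Ξ k := by
      refine Finset.sum_congr rfl fun j _ => ?_
      rw [hX, Finset.sum_mul]
      exact Finset.sum_congr rfl fun l _ => by ring
    have s3 : ∑ j, ∑ l, An n (x τ) j l * (ξ τ j * Ξ l) = ∑ k, X k * Ξ k := by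
      rw [Finset.sum_comm]
      refine Finset.sum_congr rfl fun l _ => ?_
      rw [hX, Finset.sum_mul]
      refine Finset.sum_congr rfl fun j _ => ?_
      have hsym : An n (x τ) j l = An n (x τ) l j := ((an_smooth n hn).2.1 (x τ)).apply l j
      rw [hsym]
      ring
    simp only [mul_add, Finset.sum_add_distrib, s1, s2, s3]
    ring
  have hqc : ∀ τ ∈ Icc 0 s, q τ = q 0 := by
    have := constant_of_has_deriv_right_zero (f := q)
      (a := 0) (b := s)
      (fun τ hτ => (hqd τ hτ).continuousAt.continuousWithinAt)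
      (fun τ hτ => (hqd τ (Ico_subset_Icc_self hτ)).hasDerivWithinAt)
    exact this
  have hBD : ∀ y : E n, y ≠ 0 → Bn y + Dn y * ‖y‖ ^ 2 = aln n (zf y) / ‖y‖ ^ (2 * n - 2) := by
    intro y hy
    have hy0 : ‖y‖ ≠ 0 := norm_ne_zero_iff.2 hy
    simp only [Bn, Dn]
    field_simp
    ring
  have hpow : ∀ y : E n, ‖y‖ ^ (2 * n - 2) * ‖y‖ ^ 2 = ‖y‖ ^ n * ‖y‖ ^ n := by
    intro y
    rw [← pow_add, ← pow_add]
    congr 1
    omega
  refine ⟨q 0, fun τ hτ => ⟨hx0 τ hτ, ?_, ?_⟩⟩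
  · obtain ⟨h1, h2⟩ := h τ hτ
    let X : E n := WithLp.toLp 2 (fun i => ∑ l, An n (x τ) i l * ξ τ l)
    have hX : ∀ i, X i = ∑ l, An n (x τ) i l * ξ τ l := fun i => rfl
    have hx : HasDerivAt x X τ := c_hd x τ X (fun k => by rw [hX]; exact h1 k)
    have hx1 := hx0 τ hτ
    have hr : 0 < ‖x τ‖ := norm_pos_iff.2 hx1
    have hXin : inner ℝ (x τ) X = aln n (zf (x τ)) / ‖x τ‖ ^ (2 * n - 2) * inner ℝ (x τ) (ξ τ) := by
      rw [← hBD (x τ) hx1, c_in, c_in, c_sq]
      have : ∀ k, x τ k * X k = Bn (x τ) * (x τ k * ξ τ k)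
          + Dn (x τ) * (∑ l, x τ l * ξ τ l) * (x τ k ^ 2) := by
        intro k
        rw [hX, c_A n hn (x τ) hx1 (ξ τ) k]
        ring
      simp only [this, Finset.sum_add_distrib, ← Finset.mul_sum]
      ring
    have hsq : HasDerivAt (fun t => ‖x t‖ ^ 2) (2 * inner ℝ (x τ) X) τ := hx.norm_sq
    have hnm : HasDerivAt (fun t => ‖x t‖) (inner ℝ (x τ) X / ‖x τ‖) τ := by
      have h3 := hsq.sqrt (by positivity)
      have e : (fun t => Real.sqrt (‖x t‖ ^ 2)) = fun t => ‖x t‖ := by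
        funext t; exact Real.sqrt_sq (norm_nonneg _)
      rw [e] at h3
      refine h3.congr_deriv ?_
      rw [Real.sqrt_sq (norm_nonneg _)]
      field_simp
    have h5 := (hnm.pow n).div_const (n : ℝ)
    refine h5.congr_deriv ?_
    have hn0 : (n : ℝ) ≠ 0 := by positivity
    rw [hXin]
    obtain ⟨m, rfl⟩ : ∃ m, n = m + 2 := ⟨n - 2, by omega⟩
    have e1 : 2 * (m + 2) - 2 = 2 * m + 2 := by omega
    have e2 : m + 2 - 1 = m + 1 := by omega
    rw [e1, e2]
    field_simp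
    try ring
  · have hq := hqc τ hτ
    have hx1 := hx0 τ hτ
    have hr : 0 < ‖x τ‖ := norm_pos_iff.2 hx1
    have hqv : q τ = Bn (x τ) * ‖ξ τ‖ ^ 2 + Dn (x τ) * (inner ℝ (x τ) (ξ τ) : ℝ) ^ 2 := by
      have : ∀ j, ∑ l, An n (x τ) j l * (ξ τ j * ξ τ l) = Bn (x τ) * ξ τ j ^ 2
          + Dn (x τ) * (∑ l, x τ l * ξ τ l) * (x τ j * ξ τ j) := by
        intro j
        have h3 := c_A n hn (x τ) hx1 (ξ τ) j
        have h4 : ∑ l, An n (x τ) j l * (ξ τ j * ξ τ l) = ξ τ j * ∑ l, An n (x τ) j l * ξ τ l := by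
          rw [Finset.mul_sum]
          exact Finset.sum_congr rfl fun l _ => by ring
        rw [h4, h3]
        ring
      simp only [q, this, Finset.sum_add_distrib, ← Finset.mul_sum]
      rw [c_sq, c_in]
      ring
    rw [← hq, ← hμc τ hτ, hqv]
    have hb : Bn (x τ) = ‖x τ‖ ^ 2 * vn n (zf (x τ)) := rfl
    have hd : Dn (x τ) = (aln n (zf (x τ)) / ‖x τ‖ ^ (2 * n - 2) - ‖x τ‖ ^ 2 * vn n (zf (x τ))) / ‖x τ‖ ^ 2 := rfl
    rw [hb, hd]
    have hp := hpow (x τ)
    have hr1 : ‖x τ‖ ^ (2 * n - 2) ≠ 0 := by positivity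
    have hr2 : ‖x τ‖ ^ n ≠ 0 := by positivity
    have hr3 : ‖x τ‖ ^ 2 ≠ 0 := by positivity
    generalize inner ℝ (x τ) (ξ τ) = w at *
    generalize aln n (zf (x τ)) = a at *
    generalize vn n (zf (x τ)) = v at *
    generalize ‖ξ τ‖ ^ 2 = e at *
    generalize ‖x τ‖ ^ (2 * n - 2) = A at *
    generalize ‖x τ‖ ^ n = B at *
    generalize ‖x τ‖ ^ 2 = R at *
    have e1 : (a / B * w) ^ 2 = a * (a / (B * B)) * w ^ 2 := by field_simp
    have e2 : (a / A - R * v) / R = a / (A * R) - v := by field_simp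
    rw [e1, e2, hp]
    ring

end N_consn

end Pool.Agent.Helper459.SK
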