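import Mathlib
import Pool.Agent.Helper459.SK.NDefs
import Pool.Agent.Helper459.SK.L_class1n
import Pool.Agent.Helper459.SK.L_consn
import Pool.Agent.Helper459.SK.L_wn_pos

set_option autoImplicit false

noncomputable section

open MeasureTheory Set Filter Topology
open scoped ContDiff ComplexConjugate

namespace Pool.Agent.Helper459.SK
open N_class1n
open N_consn
open N_wn_pos

namespace N_classicaln

theorem classicaln (n : ℕ) (hn : 2 ≤ n) (s : ℝ) (hs : 0 ≤ s) (x ξ : ℝ → E n) (h : IsBichar (An n) x ξ (Icc 0 s))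
    (hW : (x 0, ξ 0) ∈ WWn n) : (x s, ξ s) ∉ VVn n := by
  rintro ⟨hv1, hv2⟩
  obtain ⟨hw1, hw2, hw3⟩ := hW
  obtain ⟨H2, hH⟩ := consn n hn s hs x ξ h hw3
  have hs' : s ∈ Icc 0 s := ⟨hs, le_rfl⟩
  obtain ⟨-, -, -, -, -, -, hal, -, -, hzf⟩ := wn_pos n hn
  refine class1n n hn s (‖x 0‖ ^ 2 * ‖ξ 0‖ ^ 2 - (inner ℝ (x 0) (ξ 0) : ℝ) ^ 2) H2 hs hw3
    (fun τ => zf (x τ))
    (fun τ => aln n (zf (x τ)) / ‖x τ‖ ^ n * inner ℝ (x τ) (ξ τ))
    (fun τ hτ => (hH τ hτ).2.1) (fun τ hτ => (hzf _ (hH τ hτ).1).1)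
    (fun τ hτ => (hH τ hτ).2.2) hw1 hw2 hv1 ?_
  have h1 : 0 < ‖x s‖ := norm_pos_iff.2 (hH s hs').1
  have h2 : 0 < aln n (zf (x s)) := hal _ (hzf _ (hH s hs').1).1
  have h3 : 0 < aln n (zf (x s)) / ‖x s‖ ^ n := by positivity
  exact mul_neg_of_pos_of_neg h3 hv2

end N_classicaln

end Pool.Agent.Helper459.SK
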