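import Mathlib
import Pool.Agent.Helper459.SK.Defs

set_option autoImplicit false

noncomputable section

open MeasureTheory Set Filter Topology
open scoped ContDiff ComplexConjugate

namespace Pool.Agent.Helper459.SK

namespace N_pair_deriv

theorem pd_restrict (a b : ℝ) (ha : 0 < a) :
    (volume.restrict (Ioi (0 : ℝ))).restrict (Ioc a b) = volume.restrict (Ioc a b) := by
  rw [Measure.restrict_restrict measurableSet_Ioc]
  congr 1
  exact inter_eq_left.2 fun z hz => lt_trans ha hz.1

theorem pd_mem (χ : ℝ → ℂ) (hχ : Continuous χ) (a b : ℝ) (ha : 0 < a) :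
    MemLp ((Ioc a b).indicator fun z => conj (χ z)) 2 (volume.restrict (Ioi (0 : ℝ))) := by
  rw [memLp_indicator_iff_restrict measurableSet_Ioc, pd_restrict a b ha]
  have hc : Continuous fun z => conj (χ z) := Complex.continuous_conj.comp hχ
  obtain ⟨C, hC⟩ := (isCompact_Icc (a := a) (b := b)).exists_bound_of_continuousOn hc.continuousOn
  refine MemLp.of_bound hc.aestronglyMeasurable C ?_
  filter_upwards [ae_restrict_mem measurableSet_Ioc] with z hz
  exact hC z (Ioc_subset_Icc_self hz)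

theorem pd_inner (χ : ℝ → ℂ) (hχ : Continuous χ) (a b : ℝ) (ha : 0 < a) (hab : a < b) (f : L2z) :
    inner ℂ ((pd_mem χ hχ a b ha).toLp _) f = ∫ z in a..b, χ z * (f : ℝ → ℂ) z := by
  rw [MeasureTheory.L2.inner_def, intervalIntegral.integral_of_le hab.le]
  have h1 : ∫ z in Ioc a b, χ z * (f : ℝ → ℂ) z =
      ∫ z in Ioi (0 : ℝ), (Ioc a b).indicator (fun z => χ z * (f : ℝ → ℂ) z) z := by
    rw [integral_indicator measurableSet_Ioc, pd_restrict a b ha]
  rw [h1]
  refine integral_congr_ae ?_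
  filter_upwards [(pd_mem χ hχ a b ha).coeFn_toLp] with z hz
  rw [hz]
  by_cases hm : z ∈ Ioc a b
  · rw [indicator_of_mem hm, indicator_of_mem hm, RCLike.inner_apply, Complex.conj_conj]
    ring
  · rw [indicator_of_notMem hm, indicator_of_notMem hm, inner_zero_left]

theorem pair_deriv (g : ℝ → L2z) (g' : L2z) (t : ℝ) (h : HasDerivAt g g' t) (χ : ℝ → ℂ) (hχ : Continuous χ)
    (a b : ℝ) (ha : 0 < a) (hab : a < b) :
    HasDerivAt (fun t => ∫ z in a..b, χ z * (g t : ℝ → ℂ) z) (∫ z in a..b, χ z * (g' : ℝ → ℂ) z) t := by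
  have h1 := ((innerSL ℂ ((pd_mem χ hχ a b ha).toLp _)).restrictScalars ℝ).hasFDerivAt.comp_hasDerivAt
    t h
  have h2 : (fun t => ∫ z in a..b, χ z * (g t : ℝ → ℂ) z) =
      ((innerSL ℂ ((pd_mem χ hχ a b ha).toLp _)).restrictScalars ℝ) ∘ g := by
    funext s
    exact (pd_inner χ hχ a b ha hab (g s)).symm
  rw [h2, ← pd_inner χ hχ a b ha hab g']
  exact h1


end N_pair_deriv

end Pool.Agent.Helper459.SK
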