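import Mathlib
import Pool.Agent.Helper459.SK.Defs
import Pool.Agent.Helper459.SK.L_pair_deriv
import Pool.Agent.Helper459.SK.L_edges
import Pool.Agent.Helper459.SK.L_b3
import Pool.Agent.Helper459.SK.L_fb

set_option autoImplicit false

noncomputable section

open MeasureTheory Set Filter Topology
open scoped ContDiff ComplexConjugate

namespace Pool.Agent.Helper459.SK
open N_pair_deriv
open N_edges
open N_b3
open N_fb

namespace N_cms

theorem cms_d1 (om z : ℝ) : HasDerivAt (fun z : ℝ => ((Real.sin (om * (z - 2)) : ℝ) : ℂ))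
    ((om * Real.cos (om * (z - 2)) : ℝ) : ℂ) z := by
  have h : HasDerivAt (fun z : ℝ => Real.sin (om * (z - 2)))
      (Real.cos (om * (z - 2)) * (om * 1)) z :=
    (((hasDerivAt_id z).sub_const 2).const_mul om).sin
  have h2 := h.ofReal_comp
  convert h2 using 1
  push_cast; ring

theorem cms_d2 (om z : ℝ) : HasDerivAt (fun z : ℝ => ((om * Real.cos (om * (z - 2)) : ℝ) : ℂ))
    (-(om : ℂ) ^ 2 * ((Real.sin (om * (z - 2)) : ℝ) : ℂ)) z := by
  have h : HasDerivAt (fun z : ℝ => om * Real.cos (om * (z - 2)))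
      (om * (-Real.sin (om * (z - 2)) * (om * 1))) z :=
    ((((hasDerivAt_id z).sub_const 2).const_mul om).cos).const_mul om
  have h2 := h.ofReal_comp
  convert h2 using 1
  push_cast; ring

theorem cms_toG (w f : ℝ → ℝ) (g : ℕ → ℕ → ℝ → L2z) (Kc : ℕ → ℝ)
    (G G1 : ℕ → ℕ → ℝ → ℝ → ℂ) (hr : Rep w f g G G1 Kc) (χ : ℝ → ℂ) (m j : ℕ) (t : ℝ) :
    ∫ z in (2 : ℝ)..3, χ z * (g m j t : ℝ → ℂ) z = ∫ z in (2 : ℝ)..3, χ z * G m j t z := by
  apply intervalIntegral.integral_congr_ae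
  have h := (ae_restrict_iff' measurableSet_Ioo).1 (hr.ae m j t)
  filter_upwards [h] with z hz hz2
  rw [uIoc_of_le (by norm_num)] at hz2
  rw [hz ⟨by linarith [hz2.1], by linarith [hz2.2]⟩]

theorem cms_smul (g : L2z) (χ : ℝ → ℂ) (c : ℂ) :
    ∫ z in (2 : ℝ)..3, χ z * ((c • g : L2z) : ℝ → ℂ) z =
      c * ∫ z in (2 : ℝ)..3, χ z * (g : ℝ → ℂ) z := by
  rw [← intervalIntegral.integral_const_mul]
  apply intervalIntegral.integral_congr_ae
  have h := (ae_restrict_iff' measurableSet_Ioi).1 (Lp.coeFn_smul c g)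
  filter_upwards [h] with z hz hz2
  rw [uIoc_of_le (by norm_num)] at hz2
  rw [hz (show (0 : ℝ) < z by linarith [hz2.1])]
  simp only [Pi.smul_apply, smul_eq_mul]
  ring

theorem cms_parts (w f : ℝ → ℝ) (hw : WP w) (g : ℕ → ℕ → ℝ → L2z) (Kc : ℕ → ℝ)
    (G G1 : ℕ → ℕ → ℝ → ℝ → ℂ) (hr : Rep w f g G G1 Kc) (m : ℕ) (t om : ℝ) :
    (om : ℂ) ^ 2 * (∫ z in (2 : ℝ)..3, (Real.sin (om * (z - 2)) : ℂ) * G m 0 t z) -
        2 * (∫ z in (2 : ℝ)..3, (Real.sin (om * (z - 2)) : ℂ) * G m 1 t z) =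
      (Real.sin om : ℂ) * G1 m 0 t 3 - ((om * Real.cos om : ℝ) : ℂ) * G m 0 t 3 +
        (om : ℂ) * G m 0 t 2 := by
  have hsol := hr.sol m 0 t
  have hsol1 := hr.sol m 1 t
  have hmem : ∀ z ∈ Icc (2 : ℝ) 3, z ∈ Ioo (3 / 2 : ℝ) (9 / 2) := fun z hz =>
    ⟨by linarith [hz.1], by linarith [hz.2]⟩
  have hcs : Continuous (fun z : ℝ => ((Real.sin (om * (z - 2)) : ℝ) : ℂ)) := by fun_prop
  have hG0 : ContinuousOn (G m 0 t) (Icc (2 : ℝ) 3) := fun z hz =>
    (hsol.d0 z (hmem z hz)).continuousAt.continuousWithinAt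
  have hG1 : ContinuousOn (G m 1 t) (Icc (2 : ℝ) 3) := fun z hz =>
    (hsol1.d0 z (hmem z hz)).continuousAt.continuousWithinAt
  have hi0 : IntervalIntegrable (fun z => ((Real.sin (om * (z - 2)) : ℝ) : ℂ) * G m 0 t z)
      volume 2 3 := by
    apply ContinuousOn.intervalIntegrable
    rw [uIcc_of_le (by norm_num)]
    exact hcs.continuousOn.mul hG0
  have hi1 : IntervalIntegrable (fun z => ((Real.sin (om * (z - 2)) : ℝ) : ℂ) * G m 1 t z)
      volume 2 3 := by
    apply ContinuousOn.intervalIntegrable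
    rw [uIcc_of_le (by norm_num)]
    exact hcs.continuousOn.mul hG1
  have key := intervalIntegral.integral_eq_sub_of_hasDerivAt (a := (2 : ℝ)) (b := 3)
    (f := fun z : ℝ => ((Real.sin (om * (z - 2)) : ℝ) : ℂ) * G1 m 0 t z -
      ((om * Real.cos (om * (z - 2)) : ℝ) : ℂ) * G m 0 t z)
    (f' := fun z : ℝ => (om : ℂ) ^ 2 * (((Real.sin (om * (z - 2)) : ℝ) : ℂ) * G m 0 t z) -
      2 * (((Real.sin (om * (z - 2)) : ℝ) : ℂ) * G m 1 t z))
    (by
      intro z hz
      rw [uIcc_of_le (by norm_num)] at hz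
      have h1 := hsol.d0 z (hmem z hz)
      have h2 := hsol.d1 z (hmem z hz)
      rw [hw.flat1 z hz] at h2
      have h3 := (cms_d1 om z).mul h2
      have h4 := (cms_d2 om z).mul h1
      refine (h3.sub h4).congr_deriv ?_
      simp only [zero_add]
      push_cast
      ring)
    ((hi0.const_mul _).sub (hi1.const_mul _))
  rw [intervalIntegral.integral_sub (hi0.const_mul _) (hi1.const_mul _),
    intervalIntegral.integral_const_mul, intervalIntegral.integral_const_mul] at key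
  rw [key]
  have e1 : om * ((3 : ℝ) - 2) = om := by ring
  have e2 : om * ((2 : ℝ) - 2) = 0 := by ring
  simp only [e1, e2, Real.sin_zero, Real.cos_zero]
  push_cast
  ring

theorem cms_L2b {C C' : ℝ} {G : ℝ → ℂ} (h : L2b C G) (hC : |C| ≤ C') : L2b C' G := by
  refine ⟨h.1, h.2.trans ?_⟩
  exact sq_le_sq' (by linarith [neg_abs_le C]) ((le_abs_self C).trans hC)

theorem cms (w f : ℝ → ℝ) (hw : WP w) (hf : FP f) (χ : ℝ → ℝ) (hχ : Chi χ) (g : ℕ → ℕ → ℝ → L2z) (Kc : ℕ → ℝ)
    (hs : Sys w f g Kc) (ho : Osc χ g) (G G1 : ℕ → ℕ → ℝ → ℝ → ℂ) (hr : Rep w f g G G1 Kc)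
    (t : ℝ) (ht : 0 < t) (om : ℝ) :
    Tendsto (fun m : ℕ => ∫ z in (2 : ℝ)..3, (Real.sin (om * (z - 2)) : ℂ) * G m 0 t z) atTop
      (𝓝 (Complex.exp (-(Complex.I * ((om ^ 2 * t / 2 : ℝ) : ℂ))) *
        ∫ z in (2 : ℝ)..3, (Real.sin (om * (z - 2)) : ℂ) * (f z : ℂ))) := by
  have hcs : Continuous (fun z : ℝ => ((Real.sin (om * (z - 2)) : ℝ) : ℂ)) := by fun_prop
  set c : ℕ → ℕ → ℝ → ℂ := fun m j s => ∫ z in (2 : ℝ)..3,
    (Real.sin (om * (z - 2)) : ℂ) * G m j s z with hc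
  -- derivative in time
  have hder : ∀ m j s, HasDerivAt (c m j) (-Complex.I * c m (j + 1) s) s := by
    intro m j s
    have h := pair_deriv (g m j) (-Complex.I • g m (j + 1) s) s (hs.der m j s)
      (fun z : ℝ => ((Real.sin (om * (z - 2)) : ℝ) : ℂ)) hcs 2 3 (by norm_num) (by norm_num)
    rw [cms_smul, cms_toG w f g Kc G G1 hr] at h
    have e : (fun s => ∫ z in (2 : ℝ)..3, ((Real.sin (om * (z - 2)) : ℝ) : ℂ) *
        (g m j s : ℝ → ℂ) z) = c m j := by
      funext s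
      exact cms_toG w f g Kc G G1 hr _ m j s
    rw [e] at h
    exact h
  have hcont : ∀ m j, Continuous (c m j) := fun m j =>
    continuous_iff_continuousAt.2 fun s => (hder m j s).continuousAt
  set E : ℝ → ℂ := fun s => Complex.exp (Complex.I * ((om ^ 2 * s / 2 : ℝ) : ℂ)) with hE
  have hEd : ∀ s, HasDerivAt E (E s * (Complex.I * ((om : ℂ) ^ 2 / 2))) s := by
    intro s
    have h1 : HasDerivAt (fun s : ℝ => om ^ 2 * s / 2) (om ^ 2 * 1 / 2) s :=
      ((hasDerivAt_id s).const_mul (om ^ 2)).div_const 2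
    have h2 := (h1.ofReal_comp.const_mul Complex.I).cexp
    refine HasDerivAt.congr_deriv h2 ?_
    show E s * (Complex.I * ((om ^ 2 * 1 / 2 : ℝ) : ℂ)) = E s * (Complex.I * ((om : ℂ) ^ 2 / 2))
    push_cast
    ring
  have hEc : Continuous E := continuous_iff_continuousAt.2 fun s => (hEd s).continuousAt
  set B : ℕ → ℝ → ℂ := fun m s => (om : ℂ) ^ 2 * c m 0 s - 2 * c m 1 s with hB
  have hBc : ∀ m, Continuous (B m) := fun m =>
    (continuous_const.mul (hcont m 0)).sub (continuous_const.mul (hcont m 1))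
  have hftc : ∀ m, E t * c m 0 t - E 0 * c m 0 0 =
      ∫ s in (0 : ℝ)..t, E s * (Complex.I / 2) * B m s := by
    intro m
    symm
    apply intervalIntegral.integral_eq_sub_of_hasDerivAt (f := fun s => E s * c m 0 s)
    · intro s _
      have h := (hEd s).mul (hder m 0 s)
      refine HasDerivAt.congr_deriv h ?_
      simp only [hB, zero_add]
      ring
    · apply Continuous.intervalIntegrable
      exact (hEc.mul continuous_const).mul (hBc m)
  have hBeq : ∀ m s, B m s = (Real.sin om : ℂ) * G1 m 0 s 3 -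
      ((om * Real.cos om : ℝ) : ℂ) * G m 0 s 3 + (om : ℂ) * G m 0 s 2 := by
    intro m s
    exact cms_parts w f hw g Kc G G1 hr m s om
  have hBt : ∀ s, 0 < s → Tendsto (fun m => B m s) atTop (𝓝 0) := by
    intro s hs0
    obtain ⟨h2, h3, -, -, -⟩ := edges w f hw χ hχ g Kc ho G G1 hr s hs0 0
    have h4 := b3 w f hw hf χ hχ g Kc hs ho G G1 hr s hs0
    have h5 := ((h4.const_mul (Real.sin om : ℂ)).sub
      (h3.const_mul ((om * Real.cos om : ℝ) : ℂ))).add (h2.const_mul (om : ℂ))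
    simp only [mul_zero, sub_zero, add_zero] at h5
    exact h5.congr fun m => (hBeq m s).symm
  obtain ⟨C', hC'⟩ := fb w hw (|Kc 0| + |Kc 1|)
  have hbd : ∀ m s, ‖B m s‖ ≤ |Real.sin om| * C' + |om * Real.cos om| * C' + |om| * C' := by
    intro m s
    have hb := hC' m (G m 0 s) (G1 m 0 s) (G m 1 s) (hr.sol m 0 s)
      (cms_L2b (hr.bd m 0 s) (by linarith [abs_nonneg (Kc 1)]))
      (cms_L2b (hr.bd m 1 s) (by linarith [abs_nonneg (Kc 0)]))
    have h3 := hb 3 (Or.inl ⟨by norm_num, le_refl _⟩)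
    have h2 := hb 2 (Or.inl ⟨le_refl _, by norm_num⟩)
    rw [hBeq]
    refine (norm_add_le _ _).trans (add_le_add ((norm_sub_le _ _).trans (add_le_add ?_ ?_)) ?_)
    · rw [norm_mul, Complex.norm_real, Real.norm_eq_abs]
      exact mul_le_mul_of_nonneg_left h3.2 (abs_nonneg _)
    · rw [norm_mul, Complex.norm_real, Real.norm_eq_abs]
      exact mul_le_mul_of_nonneg_left h3.1 (abs_nonneg _)
    · rw [norm_mul, Complex.norm_real, Real.norm_eq_abs]
      exact mul_le_mul_of_nonneg_left h2.1 (abs_nonneg _)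
  have hEn : ∀ s, ‖E s‖ = 1 := by
    intro s
    rw [hE]
    simp only [mul_comm Complex.I, Complex.norm_exp_ofReal_mul_I]
  set M : ℝ := |Real.sin om| * C' + |om * Real.cos om| * C' + |om| * C' with hM
  have hint : Tendsto (fun m => ∫ s in (0 : ℝ)..t, E s * (Complex.I / 2) * B m s) atTop
      (𝓝 (∫ s in (0 : ℝ)..t, (0 : ℂ))) := by
    apply intervalIntegral.tendsto_integral_filter_of_dominated_convergence (fun _ => M)
    · exact Eventually.of_forall fun m =>
        ((hEc.mul continuous_const).mul (hBc m)).aestronglyMeasurable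
    · refine Eventually.of_forall fun m => Eventually.of_forall fun s _ => ?_
      rw [norm_mul, norm_mul, hEn, norm_div, Complex.norm_I, RCLike.norm_two]
      have := hbd m s
      have h0 : 0 ≤ ‖B m s‖ := norm_nonneg _
      linarith
    · exact intervalIntegrable_const
    · refine Eventually.of_forall fun s hs2 => ?_
      rw [uIoc_of_le ht.le] at hs2
      have := (hBt s hs2.1).const_mul (E s * (Complex.I / 2))
      simpa using this
  have hc0 : ∀ m, c m 0 0 = ∫ z in (2 : ℝ)..3, (Real.sin (om * (z - 2)) : ℂ) * (f z : ℂ) := by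
    intro m
    simp only [hc]
    rw [← cms_toG w f g Kc G G1 hr]
    apply intervalIntegral.integral_congr_ae
    have h := (ae_restrict_iff' measurableSet_Ioi).1 (hs.init m 0)
    filter_upwards [h] with z hz hz2
    rw [uIoc_of_le (by norm_num)] at hz2
    rw [hz (show (0 : ℝ) < z by linarith [hz2.1])]
    rfl
  set F : ℂ := ∫ z in (2 : ℝ)..3, (Real.sin (om * (z - 2)) : ℂ) * (f z : ℂ) with hF
  have hE0 : E 0 = 1 := by simp [hE]
  have hfin : Tendsto (fun m => E t * c m 0 t) atTop (𝓝 F) := by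
    have h1 : Tendsto (fun m => (∫ s in (0 : ℝ)..t, E s * (Complex.I / 2) * B m s) + F) atTop
        (𝓝 (0 + F)) := by
      refine Tendsto.add ?_ tendsto_const_nhds
      simpa using hint
    rw [zero_add] at h1
    refine h1.congr fun m => ?_
    rw [← hftc m, hE0, hc0 m]
    ring
  have hfin2 := hfin.const_mul (Complex.exp (-(Complex.I * ((om ^ 2 * t / 2 : ℝ) : ℂ))))
  refine hfin2.congr fun m => ?_
  rw [← mul_assoc]
  simp only [hE]
  rw [← Complex.exp_add, neg_add_cancel, Complex.exp_zero, one_mul]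

end N_cms

end Pool.Agent.Helper459.SK
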