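import Mathlib
import Pool.Agent.Helper459.SK.Defs

set_option autoImplicit false

noncomputable section

open MeasureTheory Set Filter Topology
open scoped ContDiff ComplexConjugate

namespace Pool.Agent.Helper459.SK

namespace N_cones

theorem cones : IsOpen VV ∧ IsOpen WW ∧ (∀ p ∈ VV, ∀ r : ℝ, 0 < r → (p.1, r • p.2) ∈ VV) ∧
    (∀ p ∈ WW, ∀ r : ℝ, 0 < r → (p.1, r • p.2) ∈ WW) := by
  have c1 : Continuous (fun p : E 2 × E 2 => ‖p.1‖ ^ 2 / 2) := by fun_prop
  have c2 : Continuous (fun p : E 2 × E 2 => inner ℝ p.1 p.2) := by fun_prop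
  have c3 : Continuous (fun p : E 2 × E 2 => p.1 0 * p.2 1 - p.1 1 * p.2 0) := by fun_prop
  refine ⟨?_, ?_, ?_, ?_⟩
  · exact (isOpen_lt continuous_const c1).inter (isOpen_lt c2 continuous_const)
  · exact (isOpen_lt continuous_const c1).inter
      ((isOpen_lt c1 continuous_const).inter (isOpen_ne_fun c3 continuous_const))
  · rintro p ⟨h1, h2⟩ r hr
    refine ⟨h1, ?_⟩
    show inner ℝ p.1 (r • p.2) < (0 : ℝ)
    rw [inner_smul_right]
    exact mul_neg_of_pos_of_neg hr h2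
  · rintro p ⟨h1, h2, h3⟩ r hr
    refine ⟨h1, h2, ?_⟩
    show p.1 0 * (r * p.2 1) - p.1 1 * (r * p.2 0) ≠ 0
    have h4 : p.1 0 * (r * p.2 1) - p.1 1 * (r * p.2 0)
        = r * (p.1 0 * p.2 1 - p.1 1 * p.2 0) := by ring
    rw [h4]
    exact mul_ne_zero hr.ne' h3

end N_cones

end Pool.Agent.Helper459.SK
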