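import Mathlib
import Pool.Agent.Helper459.SK.NDefs

set_option autoImplicit false

noncomputable section

open MeasureTheory Set Filter Topology
open scoped ContDiff ComplexConjugate

namespace Pool.Agent.Helper459.SK

namespace N_conesn

theorem conesn (n : ℕ) : IsOpen (VVn n) ∧ IsOpen (WWn n) ∧ (∀ p ∈ VVn n, ∀ r : ℝ, 0 < r → (p.1, r • p.2) ∈ VVn n) ∧
    (∀ p ∈ WWn n, ∀ r : ℝ, 0 < r → (p.1, r • p.2) ∈ WWn n) ∧ (∀ p ∈ VVn n, p.2 ≠ 0) ∧ (∀ p ∈ WWn n, p.2 ≠ 0) := by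
  have hz : Continuous (fun p : E n × E n => zf p.1) := by
    unfold zf
    exact ((continuous_fst.norm).pow n).div_const _
  refine ⟨?_, ?_, ?_, ?_, ?_, ?_⟩
  · have h1 : IsOpen {p : E n × E n | 3 < zf p.1} := isOpen_lt continuous_const hz
    have h2 : IsOpen {p : E n × E n | (inner ℝ p.1 p.2 : ℝ) < 0} :=
      isOpen_lt (continuous_fst.inner continuous_snd) continuous_const
    have e : VVn n = {p : E n × E n | 3 < zf p.1} ∩ {p : E n × E n | (inner ℝ p.1 p.2 : ℝ) < 0} := by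
      ext p
      exact Iff.rfl
    rw [e]
    exact h1.inter h2
  · have h1 : IsOpen {p : E n × E n | 2 < zf p.1} := isOpen_lt continuous_const hz
    have h2 : IsOpen {p : E n × E n | zf p.1 < 3} := isOpen_lt hz continuous_const
    have h3 : IsOpen {p : E n × E n | 0 < ‖p.1‖ ^ 2 * ‖p.2‖ ^ 2 - (inner ℝ p.1 p.2 : ℝ) ^ 2} :=
      isOpen_lt continuous_const ((((continuous_fst.norm).pow 2).mul ((continuous_snd.norm).pow 2)).sub
        ((continuous_fst.inner continuous_snd).pow 2))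
    have e : WWn n = {p : E n × E n | 2 < zf p.1} ∩ ({p : E n × E n | zf p.1 < 3} ∩
        {p : E n × E n | 0 < ‖p.1‖ ^ 2 * ‖p.2‖ ^ 2 - (inner ℝ p.1 p.2 : ℝ) ^ 2}) := by
      ext p
      exact Iff.rfl
    rw [e]
    exact h1.inter (h2.inter h3)
  · rintro p ⟨h1, h2⟩ r hr
    refine ⟨h1, ?_⟩
    change inner ℝ p.1 (r • p.2) < (0 : ℝ)
    rw [real_inner_smul_right]
    exact mul_neg_of_pos_of_neg hr h2
  · rintro p ⟨h1, h2, h3⟩ r hr
    refine ⟨h1, h2, ?_⟩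
    change 0 < ‖p.1‖ ^ 2 * ‖r • p.2‖ ^ 2 - (inner ℝ p.1 (r • p.2) : ℝ) ^ 2
    rw [real_inner_smul_right, norm_smul, Real.norm_of_nonneg hr.le]
    have h4 : ‖p.1‖ ^ 2 * (r * ‖p.2‖) ^ 2 - (r * inner ℝ p.1 p.2) ^ 2 =
        r ^ 2 * (‖p.1‖ ^ 2 * ‖p.2‖ ^ 2 - (inner ℝ p.1 p.2 : ℝ) ^ 2) := by ring
    rw [h4]
    exact mul_pos (by positivity) h3
  · rintro p ⟨h1, h2⟩ h0
    rw [h0, inner_zero_right] at h2
    exact lt_irrefl _ h2
  · rintro p ⟨h1, h2, h3⟩ h0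
    rw [h0, inner_zero_right, norm_zero] at h3
    simp at h3

end N_conesn

end Pool.Agent.Helper459.SK
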