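import Mathlib
import Pool.Agent.Helper459.SK.NDefs

set_option autoImplicit false

noncomputable section

open MeasureTheory Set Filter Topology
open scoped ContDiff ComplexConjugate

namespace Pool.Agent.Helper459.SK

namespace N_dcn

theorem dcn {n : ℕ} (a φ : E n → ℂ) (ha : IsTest a) (hφ : IsTest φ) (h : ∀ x ∈ tsupport a, φ x ≠ 0) :
    ∃ b : E n → ℂ, IsTest b ∧ tsupport b ⊆ tsupport a ∧ ∀ x, φ x * b x = a x := by
  have hsup : Function.support (fun x => a x * (φ x)⁻¹) ⊆ Function.support a := by
    intro x hx h0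
    exact hx (by simp only [h0, zero_mul])
  refine ⟨fun x => a x * (φ x)⁻¹, ⟨?_, ha.cpt.mono hsup⟩, closure_mono hsup, ?_⟩
  · rw [contDiff_iff_contDiffAt]
    intro x
    by_cases hx : x ∈ tsupport a
    · exact ha.smooth.contDiffAt.mul (hφ.smooth.contDiffAt.inv (h x hx))
    · have h1 : (fun x => a x * (φ x)⁻¹) =ᶠ[𝓝 x] fun _ => (0 : ℂ) := by
        have h2 : a =ᶠ[𝓝 x] 0 := notMem_tsupport_iff_eventuallyEq.1 hx
        filter_upwards [h2] with y hy
        rw [hy]
        simp
      exact contDiffAt_const.congr_of_eventuallyEq h1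
  · intro x
    by_cases hx : φ x = 0
    · have h1 : a x = 0 := by
        by_contra h2
        exact h x (subset_tsupport a h2) hx
      simp only [h1, zero_mul, mul_zero]
    · field_simp


end N_dcn

end Pool.Agent.Helper459.SK
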