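import Mathlib
import Pool.Agent.Helper459.SK.Defs

set_option autoImplicit false

noncomputable section

open MeasureTheory Set Filter Topology
open scoped ContDiff ComplexConjugate

namespace Pool.Agent.Helper459.SK

namespace N_ex_bdd

theorem ex_bdd_unit {A : Type} [NormedRing A] [NormedAlgebra ℂ A] [CompleteSpace A] [StarRing A]
    [ContinuousStar A] (x : A) (hx : x ∈ skewAdjoint A) : NormedSpace.exp x ∈ unitary A := by
  letI iQ : NormedAlgebra ℚ A := NormedAlgebra.restrictScalars ℚ ℂ A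
  exact NormedSpace.exp_mem_unitary_of_mem_skewAdjoint hx

theorem ex_bdd_add {A : Type} [NormedRing A] [NormedAlgebra ℂ A] [CompleteSpace A]
    (x y : A) (hx : Commute x y) :
    NormedSpace.exp (x + y) = NormedSpace.exp x * NormedSpace.exp y := by
  letI iQ : NormedAlgebra ℚ A := NormedAlgebra.restrictScalars ℚ ℂ A
  exact NormedSpace.exp_add_of_commute hx

theorem ex_bdd {H : Type} [NormedAddCommGroup H] [InnerProductSpace ℂ H] [CompleteSpace H]
    (B : H →L[ℂ] H) (hB : ∀ x y : H, inner ℂ (B x) y = inner ℂ x (B y)) :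
    ∃ V : ℝ → (H →L[ℂ] H), V 0 = 1 ∧ (∀ s t, V (s + t) = V s * V t) ∧ (∀ t x, ‖V t x‖ = ‖x‖) ∧
      (∀ t x, HasDerivAt (fun t => V t x) (-Complex.I • B (V t x)) t) ∧
      (∀ Q : H →L[ℂ] H, Commute Q B → ∀ t, Commute Q (V t)) := by
  have hBs : IsSelfAdjoint B := by
    rw [ContinuousLinearMap.isSelfAdjoint_iff_isSymmetric]
    exact hB
  set A1 : H →L[ℂ] H := (-Complex.I) • B with hA1
  have hA1s : star A1 = -A1 := by
    rw [hA1, star_smul, hBs.star_eq, ← neg_smul]
    congr 1
    simp
  have hskew : ∀ t : ℝ, t • A1 ∈ skewAdjoint (H →L[ℂ] H) := by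
    intro t
    rw [skewAdjoint.mem_iff]
    have h1 : t • A1 = (t : ℂ) • A1 := (Complex.coe_smul t A1).symm
    rw [h1, star_smul, hA1s, smul_neg]
    congr 2
    simp
  refine ⟨fun t => NormedSpace.exp (t • A1), ?_, ?_, ?_, ?_, ?_⟩
  · simp only [zero_smul]
    exact NormedSpace.exp_zero
  · intro s t
    simp only
    rw [add_smul]
    exact ex_bdd_add _ _ (((Commute.refl A1).smul_left s).smul_right t)
  · intro t x
    have h1 : NormedSpace.exp (t • A1) ∈ unitary (H →L[ℂ] H) := ex_bdd_unit (t • A1) (hskew t)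
    exact ContinuousLinearMap.norm_map_of_mem_unitary h1 x
  · intro t x
    have h1 := hasDerivAt_exp_smul_const' (𝕂 := ℝ) A1 t
    have h2 := ((ContinuousLinearMap.apply ℂ H x).restrictScalars ℝ).hasFDerivAt.comp_hasDerivAt t h1
    exact h2
  · intro Q hQ t
    simp only
    apply Commute.exp_right
    have h1 : Commute Q A1 := hQ.smul_right _
    exact h1.smul_right t

end N_ex_bdd

end Pool.Agent.Helper459.SK
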