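import Mathlib
import Pool.Agent.Helper459.SK.Defs

set_option autoImplicit false

noncomputable section

open MeasureTheory Set Filter Topology
open scoped ContDiff ComplexConjugate

namespace Pool.Agent.Helper459.SK

namespace N_ex_cmp

theorem ex_cmp_prod {H : Type} [NormedAddCommGroup H] [InnerProductSpace ℂ H]
    (W : ℝ → (H →L[ℂ] H)) (hiso : ∀ r z, ‖W r z‖ = ‖z‖) (y : ℝ → H) (y' w' : H) (s : ℝ)
    (hy : HasDerivAt y y' s) (hW : HasDerivAt (fun r => W r (y s)) w' s)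
    (hc : ContinuousAt (fun r => W r y') s) :
    HasDerivAt (fun r => W r (y r)) (w' + W s y') s := by
  rw [hasDerivAt_iff_isLittleO] at hy hW ⊢
  have h1 : (fun r => W r (y r - y s - (r - s) • y')) =o[𝓝 s] fun r => r - s := by
    refine Asymptotics.IsLittleO.of_norm_left ?_
    simp only [hiso]
    exact hy.norm_left
  have h3 : (fun r => (r - s) • (W r y' - W s y')) =o[𝓝 s] fun r => r - s := by
    have h4 : (fun r => W r y' - W s y') =o[𝓝 s] fun _ => (1 : ℝ) := by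
      rw [Asymptotics.isLittleO_one_iff]
      have h5 : Tendsto (fun r => W r y' - W s y') (𝓝 s) (𝓝 (W s y' - W s y')) :=
        Filter.Tendsto.sub hc tendsto_const_nhds
      rwa [sub_self] at h5
    have h7 := (Asymptotics.isBigO_refl (fun r : ℝ => r - s) (𝓝 s)).smul_isLittleO h4
    simpa using h7
  refine ((h1.add hW).add h3).congr_left ?_
  intro r
  have e1 : W r (y r - y s - (r - s) • y') = W r (y r) - W r (y s) - (r - s) • W r y' := by
    rw [map_sub, map_sub]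
    congr 1
    have e2 : (r - s) • y' = ((r - s : ℝ) : ℂ) • y' := (Complex.coe_smul (r - s) y').symm
    rw [e2, map_smul, Complex.coe_smul]
  simp only [e1, smul_add, smul_sub]
  abel

theorem ex_cmp {H : Type} [NormedAddCommGroup H] [InnerProductSpace ℂ H] [CompleteSpace H]
    (B1 B2 : H →L[ℂ] H) (V1 V2 : ℝ → (H →L[ℂ] H))
    (h1 : V1 0 = 1) (h1a : ∀ t x, ‖V1 t x‖ = ‖x‖) (h1b : ∀ t x, HasDerivAt (fun t => V1 t x) (-Complex.I • B1 (V1 t x)) t)
    (h2 : V2 0 = 1) (h2a : ∀ t x, ‖V2 t x‖ = ‖x‖) (h2b : ∀ t x, HasDerivAt (fun t => V2 t x) (-Complex.I • B2 (V2 t x)) t)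
    (c1 : ∀ t, Commute B1 (V1 t)) (c2 : ∀ t, Commute B2 (V1 t)) (c3 : ∀ t, Commute B2 (V2 t)) (c4 : ∀ t, Commute B1 (V2 t))
    (t : ℝ) (x : H) : ‖V1 t x - V2 t x‖ ≤ |t| * ‖B1 x - B2 x‖ := by
  have hder : ∀ s : ℝ, HasDerivAt (fun r => V2 (t - r) (V1 r x))
      (-(-Complex.I • B2 (V2 (t - s) (V1 s x))) + V2 (t - s) (-Complex.I • B1 (V1 s x))) s := by
    intro s
    refine ex_cmp_prod (fun r => V2 (t - r)) (fun r z => h2a _ z) (fun r => V1 r x) _ _ s
      (h1b s x) ?_ ?_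
    · exact (h2b (t - s) (V1 s x)).comp_const_sub t s
    · exact ((h2b (t - s) (-Complex.I • B1 (V1 s x))).comp_const_sub t s).continuousAt
  have hnorm : ∀ s : ℝ, ‖-(-Complex.I • B2 (V2 (t - s) (V1 s x))) +
      V2 (t - s) (-Complex.I • B1 (V1 s x))‖ ≤ ‖B1 x - B2 x‖ := by
    intro s
    have e1 : B1 (V1 s x) = V1 s (B1 x) := congrArg (fun L : H →L[ℂ] H => L x) (c1 s).eq
    have e2 : B2 (V1 s x) = V1 s (B2 x) := congrArg (fun L : H →L[ℂ] H => L x) (c2 s).eq
    have e3 : B2 (V2 (t - s) (V1 s x)) = V2 (t - s) (B2 (V1 s x)) :=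
      congrArg (fun L : H →L[ℂ] H => L (V1 s x)) (c3 (t - s)).eq
    have e4 : -(-Complex.I • B2 (V2 (t - s) (V1 s x))) + V2 (t - s) (-Complex.I • B1 (V1 s x)) =
        -Complex.I • V2 (t - s) (V1 s (B1 x - B2 x)) := by
      rw [e3, e2, e1, map_sub, map_sub, map_smul, smul_sub]
      abel
    rw [e4, norm_smul, h2a, h1a]
    simp
  have hmv := Convex.norm_image_sub_le_of_norm_hasDerivWithin_le (s := (Set.univ : Set ℝ))
    (fun s _ => (hder s).hasDerivWithinAt) (fun s _ => hnorm s) convex_univ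
    (Set.mem_univ (0 : ℝ)) (Set.mem_univ t)
  simp only [sub_self, sub_zero, h1, h2] at hmv
  have e5 : (1 : H →L[ℂ] H) (V1 t x) - V2 t ((1 : H →L[ℂ] H) x) = V1 t x - V2 t x := rfl
  rw [e5, Real.norm_eq_abs, mul_comm] at hmv
  exact hmv

end N_ex_cmp

end Pool.Agent.Helper459.SK
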