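import Mathlib
import Pool.Agent.Helper459.SK.Defs

set_option autoImplicit false

noncomputable section

open MeasureTheory Set Filter Topology
open scoped ContDiff ComplexConjugate

namespace Pool.Agent.Helper459.SK

namespace N_test_l2

theorem test_l2 {n : ℕ} (u : E n → ℂ) (hu : IsTest u) : MemLp u 2 (volume : Measure (E n)) ∧
    (toL2 u : E n → ℂ) =ᵐ[volume] u := by
  have hm : MemLp u 2 (volume : Measure (E n)) :=
    hu.smooth.continuous.memLp_of_hasCompactSupport hu.cpt
  refine ⟨hm, ?_⟩
  unfold toL2
  rw [dif_pos hm]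
  exact hm.coeFn_toLp

end N_test_l2

end Pool.Agent.Helper459.SK
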