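import Mathlib
import Pool.Agent.Helper459.SK.Defs
import Pool.Agent.Helper459.SK.L_test_l2

set_option autoImplicit false

noncomputable section

open MeasureTheory Set Filter Topology
open scoped ContDiff ComplexConjugate

namespace Pool.Agent.Helper459.SK
open N_test_l2

namespace N_ex_dense

theorem ex_dense (n : ℕ) : Dense {f : L2 n | ∃ u : E n → ℂ, IsTest u ∧ toL2 u = f} ∧
    (∀ u v : E n → ℂ, IsTest u → IsTest v → toL2 u = toL2 v → u = v) ∧
    (∀ u v : E n → ℂ, IsTest u → IsTest v → toL2 (u + v) = toL2 u + toL2 v) ∧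
    (∀ (c : ℂ) (u : E n → ℂ), IsTest u → toL2 (c • u) = c • toL2 u) := by
  have hml : ∀ u : E n → ℂ, IsTest u → MemLp u 2 (volume : Measure (E n)) := fun u hu =>
    hu.smooth.continuous.memLp_of_hasCompactSupport hu.cpt
  have hto : ∀ (u : E n → ℂ) (h : MemLp u 2 (volume : Measure (E n))),
      toL2 u = h.toLp u := by
    intro u h
    unfold toL2
    rw [dif_pos h]
  have hadd : ∀ u v : E n → ℂ, IsTest u → IsTest v → toL2 (u + v) = toL2 u + toL2 v := by
    intro u v hu hv
    rw [hto u (hml u hu), hto v (hml v hv), hto (u + v) ((hml u hu).add (hml v hv))]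
    exact MemLp.toLp_add _ _
  have hsmul : ∀ (c : ℂ) (u : E n → ℂ), IsTest u → toL2 (c • u) = c • toL2 u := by
    intro c u hu
    rw [hto u (hml u hu), hto (c • u) ((hml u hu).const_smul c)]
    exact MemLp.toLp_const_smul _ _
  refine ⟨?_, ?_, hadd, hsmul⟩
  · refine (Lp.dense_hasCompactSupport_contDiff (F := ℂ) (E := E n)
      (μ := (volume : Measure (E n))) (p := 2) (by norm_num)).mono ?_
    rintro f ⟨g, hfg, hg1, hg2⟩
    refine ⟨g, ⟨hg2, hg1⟩, ?_⟩
    rw [hto g (hml g ⟨hg2, hg1⟩)]
    apply Lp.ext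
    exact (MemLp.coeFn_toLp _).trans hfg.symm
  · intro u v hu hv h
    rw [hto u (hml u hu), hto v (hml v hv)] at h
    have h1 : u =ᵐ[volume] v := by
      have := (MemLp.toLp_eq_toLp_iff (hml u hu) (hml v hv)).mp h
      exact this
    exact Continuous.ae_eq_iff_eq volume hu.smooth.continuous hv.smooth.continuous |>.mp h1

end N_ex_dense

end Pool.Agent.Helper459.SK
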