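import Mathlib
import Pool.Agent.Helper459.SK.Defs

set_option autoImplicit false

noncomputable section

open MeasureTheory Set Filter Topology
open scoped ContDiff ComplexConjugate

namespace Pool.Agent.Helper459.SK

namespace N_ex_frd

theorem abs_frd {H X V : Type} [NormedAddCommGroup H] [InnerProductSpace ℂ H] [CompleteSpace H]
    [AddCommGroup X] [Module ℂ X] [NormedAddCommGroup V] [InnerProductSpace ℂ V] [CompleteSpace V]
    (e : X →ₗ[ℂ] V) (ι P : X →ₗ[ℂ] H) (he : DenseRange e) (hd : DenseRange ι)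
    (hin : ∀ x y, inner ℂ (e x) (e y) = inner ℂ (ι x) (ι y) + inner ℂ (P x) (ι y))
    (hpos : ∀ x, 0 ≤ (inner ℂ (P x) (ι x)).re) :
    ∃ R : H →L[ℂ] H, (∀ x y : H, inner ℂ (R x) y = inner ℂ x (R y)) ∧ (∀ x : H, 0 ≤ (inner ℂ (R x) x).re) ∧
      ‖R‖ ≤ 1 ∧ Function.Injective R ∧ ∀ x : X, R (P x + ι x) = ι x := by
  have hnorm : ∀ x, ‖ι x‖ ≤ 1 * ‖e x‖ := by
    intro x
    have h1 : ‖e x‖ ^ 2 = ‖ι x‖ ^ 2 + (inner ℂ (P x) (ι x)).re := by
      have h := congrArg Complex.re (hin x x)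
      rw [Complex.add_re] at h
      have a1 : (inner ℂ (e x) (e x)).re = ‖e x‖ ^ 2 := inner_self_eq_norm_sq (𝕜 := ℂ) (e x)
      have a2 : (inner ℂ (ι x) (ι x)).re = ‖ι x‖ ^ 2 := inner_self_eq_norm_sq (𝕜 := ℂ) (ι x)
      rw [a1, a2] at h
      exact h
    rw [one_mul]
    have h2 := hpos x
    exact le_of_sq_le_sq (by linarith) (norm_nonneg _)
  set J : V →L[ℂ] H := ι.extendOfNorm e with hJ
  have hJe : ∀ x, J (e x) = ι x := fun x => LinearMap.extendOfNorm_eq he ⟨1, hnorm⟩ x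
  have hJn : ‖J‖ ≤ 1 := LinearMap.opNorm_extendOfNorm_le he zero_le_one hnorm
  set A : H →L[ℂ] V := ContinuousLinearMap.adjoint J with hA
  have hAn : ‖A‖ ≤ 1 := by rw [hA, LinearIsometryEquiv.norm_map]; exact hJn
  have hRin : ∀ x y : H, inner ℂ ((J ∘L A) x) y = inner ℂ (A x) (A y) := by
    intro x y
    rw [ContinuousLinearMap.comp_apply, ← ContinuousLinearMap.adjoint_inner_right]
  refine ⟨J ∘L A, ?_, ?_, ?_, ?_, ?_⟩
  · intro x y
    rw [hRin, ContinuousLinearMap.comp_apply, hA, ContinuousLinearMap.adjoint_inner_left]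
  · intro x
    rw [hRin]
    exact inner_self_nonneg (𝕜 := ℂ)
  · calc ‖J ∘L A‖ ≤ ‖J‖ * ‖A‖ := ContinuousLinearMap.opNorm_comp_le _ _
      _ ≤ 1 * 1 := by gcongr
      _ = 1 := one_mul 1
  · rw [injective_iff_map_eq_zero]
    intro h hh
    have h1 : inner ℂ (A h) (A h) = (0 : ℂ) := by rw [← hRin, hh, inner_zero_left]
    have h2 : A h = 0 := inner_self_eq_zero.mp h1
    have h3 : ∀ x, inner ℂ (ι x) h = (0 : ℂ) := by
      intro x
      rw [← hJe, ← ContinuousLinearMap.adjoint_inner_right, ← hA, h2, inner_zero_right]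
    exact hd.eq_zero_of_inner_right ℂ h3
  · intro x
    have h1 : A (P x + ι x) = e x := by
      have h2 : ∀ y, inner ℂ (A (P x + ι x) - e x) (e y) = (0 : ℂ) := by
        intro y
        rw [inner_sub_left, hA, ContinuousLinearMap.adjoint_inner_left, hJe, inner_add_left, hin]
        ring
      exact sub_eq_zero.mp (he.eq_zero_of_inner_left ℂ h2)
    rw [ContinuousLinearMap.comp_apply, h1, hJe]

@[reducible] def core {H X : Type} [NormedAddCommGroup H] [InnerProductSpace ℂ H]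
    [AddCommGroup X] [Module ℂ X] (ι P : X →ₗ[ℂ] H) (hinj : Function.Injective ι)
    (hsym : ∀ x y, inner ℂ (P x) (ι y) = inner ℂ (ι x) (P y)) (hpos : ∀ x, 0 ≤ (inner ℂ (P x) (ι x)).re) :
    InnerProductSpace.Core ℂ X where
  inner x y := inner ℂ (ι x) (ι y) + inner ℂ (P x) (ι y)
  conj_inner_symm x y := by
    rw [map_add, inner_conj_symm, inner_conj_symm, hsym]
  re_inner_nonneg x := by
    rw [map_add]
    exact add_nonneg inner_self_nonneg (hpos x)
  add_left x y z := by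
    simp only [map_add, inner_add_left]; ring
  smul_left x y r := by
    simp only [map_smul, inner_smul_left]; ring
  definite x hx := by
    have h := congrArg Complex.re hx
    rw [Complex.add_re] at h
    have a2 : (inner ℂ (ι x) (ι x)).re = ‖ι x‖ ^ 2 := inner_self_eq_norm_sq (𝕜 := ℂ) (ι x)
    have h2 := hpos x
    rw [a2, Complex.zero_re] at h
    have h3 : ‖ι x‖ ^ 2 ≤ 0 := by linarith
    have h4 : ‖ι x‖ = 0 := by
      have := norm_nonneg (ι x)
      nlinarith
    exact hinj (by rw [norm_eq_zero.mp h4, map_zero])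

theorem ex_frd {H X : Type} [NormedAddCommGroup H] [InnerProductSpace ℂ H] [CompleteSpace H]
    [AddCommGroup X] [Module ℂ X] (ι P : X →ₗ[ℂ] H) (hinj : Function.Injective ι) (hd : DenseRange ι)
    (hsym : ∀ x y, inner ℂ (P x) (ι y) = inner ℂ (ι x) (P y)) (hpos : ∀ x, 0 ≤ (inner ℂ (P x) (ι x)).re) :
    ∃ R : H →L[ℂ] H, (∀ x y : H, inner ℂ (R x) y = inner ℂ x (R y)) ∧ (∀ x : H, 0 ≤ (inner ℂ (R x) x).re) ∧
      ‖R‖ ≤ 1 ∧ Function.Injective R ∧ ∀ x : X, R (P x + ι x) = ι x := by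
  letI c : InnerProductSpace.Core ℂ X := core ι P hinj hsym hpos
  letI n : NormedAddCommGroup X := InnerProductSpace.Core.toNormedAddCommGroup (𝕜 := ℂ)
  letI s : InnerProductSpace ℂ X := InnerProductSpace.ofCore c.toCore
  exact abs_frd (V := UniformSpace.Completion X)
    ((UniformSpace.Completion.toComplL : X →L[ℂ] UniformSpace.Completion X) : X →ₗ[ℂ] UniformSpace.Completion X)
    ι P (UniformSpace.Completion.denseRange_coe) hd (fun x y => UniformSpace.Completion.inner_coe x y) hpos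

end N_ex_frd


end Pool.Agent.Helper459.SK
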