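import Mathlib
import Pool.Agent.Helper459.SK.Defs

set_option autoImplicit false

noncomputable section

open MeasureTheory Set Filter Topology
open scoped ContDiff ComplexConjugate

namespace Pool.Agent.Helper459.SK

namespace N_ex_yos

lemma ex_key {H : Type} [NormedAddCommGroup H] [InnerProductSpace ℂ H]
    (R : H →L[ℂ] H) (hR : ∀ x y : H, inner ℂ (R x) y = inner ℂ x (R y))
    (hp : ∀ x : H, 0 ≤ (inner ℂ (R x) x).re) (hn : ‖R‖ ≤ 1) (y : H) :
    ‖y - R y‖ ^ 2 + ‖R y‖ ^ 2 ≤ ‖y‖ ^ 2 := by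
  have h1 := hp (y - R y)
  have e1 : inner ℂ (R (y - R y)) (y - R y) =
      inner ℂ (R y) y - inner ℂ (R y) (R y) - inner ℂ (R y) (R y) + inner ℂ (R (R y)) (R y) := by
    rw [map_sub, inner_sub_left, inner_sub_right, inner_sub_right, hR (R y) y]
    ring
  have e2 : (inner ℂ (R y) (R y) : ℂ).re = ‖R y‖ ^ 2 := by
    have := inner_self_eq_norm_sq (𝕜 := ℂ) (R y)
    simpa using this
  have e3 : (inner ℂ (R (R y)) (R y) : ℂ).re ≤ ‖R y‖ ^ 2 := by
    have h3 : (inner ℂ (R (R y)) (R y) : ℂ).re ≤ ‖R (R y)‖ * ‖R y‖ := by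
      have := re_inner_le_norm (𝕜 := ℂ) (R (R y)) (R y)
      simpa using this
    have h4 : ‖R (R y)‖ ≤ ‖R y‖ := by
      calc ‖R (R y)‖ ≤ ‖R‖ * ‖R y‖ := R.le_opNorm _
        _ ≤ 1 * ‖R y‖ := mul_le_mul_of_nonneg_right hn (norm_nonneg _)
        _ = ‖R y‖ := one_mul _
    nlinarith [norm_nonneg (R y), norm_nonneg (R (R y))]
  rw [e1] at h1
  simp only [Complex.sub_re, Complex.add_re] at h1
  have e4 : ‖y - R y‖ ^ 2 = ‖y‖ ^ 2 - 2 * (inner ℂ (R y) y : ℂ).re + ‖R y‖ ^ 2 := by
    have := norm_sub_sq (𝕜 := ℂ) y (R y)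
    have h5 : RCLike.re (inner ℂ y (R y) : ℂ) = (inner ℂ (R y) y : ℂ).re := by
      rw [hR]; rfl
    rw [this, h5]
  rw [e4]
  linarith

theorem ex_yos {H : Type} [NormedAddCommGroup H] [InnerProductSpace ℂ H] [CompleteSpace H]
    (R : H →L[ℂ] H) (hR : ∀ x y : H, inner ℂ (R x) y = inner ℂ x (R y)) (hp : ∀ x : H, 0 ≤ (inner ℂ (R x) x).re)
    (hn : ‖R‖ ≤ 1) (hi : Function.Injective R) :
    DenseRange R ∧ ∃ P : ℕ → (H →L[ℂ] H), (∀ n, ∀ x y : H, inner ℂ (P n x) y = inner ℂ x (P n y)) ∧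
      (∀ n k, Commute (P n) (P k)) ∧ (∀ n, Commute (P n) R) ∧
      ∀ h : H, Tendsto (fun n => P n (R h)) atTop (𝓝 (h - R h)) := by
  have hdense : DenseRange R := by
    have h1 : (LinearMap.range (R : H →ₗ[ℂ] H))ᗮ = ⊥ := by
      rw [Submodule.eq_bot_iff]
      intro x hx
      have h2 : ∀ y : H, inner ℂ (R y) x = (0 : ℂ) := fun y =>
        (Submodule.mem_orthogonal _ _).1 hx (R y) ⟨y, rfl⟩
      have h3 : R x = 0 := by
        have := h2 (R x)
        rw [hR, inner_self_eq_zero] at this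
        exact this
      exact hi (by rw [h3, map_zero])
    have h2 := (Submodule.topologicalClosure_eq_top_iff).2 h1
    rw [DenseRange, dense_iff_closure_eq]
    have h3 := congrArg (fun K : Submodule ℂ H => (K : Set H)) h2
    have h4 : ((LinearMap.range (R : H →ₗ[ℂ] H) : Submodule ℂ H) : Set H) = Set.range R := by
      ext x; simp [LinearMap.mem_range]
    simp only [Submodule.topologicalClosure_coe, Submodule.top_coe] at h3
    rw [h4] at h3
    exact h3
  set S : H →L[ℂ] H := 1 - R with hS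
  have hSapp : ∀ y, S y = y - R y := fun y => by simp [hS]
  have hRS : ∀ y, R y = y - S y := fun y => by rw [hSapp]; abel
  have hcomm : Commute R S := by
    rw [hS]; exact (Commute.one_right R).sub_right (Commute.refl R)
  have hkey : ∀ y, ‖S y‖ ^ 2 + ‖R y‖ ^ 2 ≤ ‖y‖ ^ 2 := fun y => by
    rw [hSapp]; exact ex_key R hR hp hn y
  have hSc : ∀ y, ‖S y‖ ≤ ‖y‖ := fun y => by
    have := hkey y
    nlinarith [norm_nonneg (S y), norm_nonneg y, sq_nonneg ‖R y‖]
  have hpowS : ∀ (n : ℕ) y, (S ^ (n + 1)) y = S ((S ^ n) y) := fun n y => by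
    rw [pow_succ']; rfl
  have hpowS' : ∀ (n : ℕ) y, (S ^ (n + 1)) y = (S ^ n) (S y) := fun n y => by
    rw [pow_succ]; rfl
  have hpc : ∀ (n : ℕ) y, ‖(S ^ n) y‖ ≤ ‖y‖ := by
    intro n
    induction n with
    | zero => intro y; simp
    | succ n ih => intro y; rw [hpowS]; exact (hSc _).trans (ih y)
  have hSsym : ∀ x y : H, inner ℂ (S x) y = (inner ℂ x (S y) : ℂ) := fun x y => by
    rw [hSapp, hSapp, inner_sub_left, inner_sub_right, hR]
  have hpsym : ∀ (n : ℕ) (x y : H), inner ℂ ((S ^ n) x) y = (inner ℂ x ((S ^ n) y) : ℂ) := by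
    intro n
    induction n with
    | zero => intro x y; simp
    | succ n ih => intro x y; rw [hpowS, hSsym, ih, ← hpowS']
  -- strong convergence on the range of `R`
  have hran : ∀ k : H, Tendsto (fun n : ℕ => (S ^ n) (R k)) atTop (𝓝 0) := by
    intro k
    have hb : Antitone (fun n : ℕ => ‖(S ^ n) k‖ ^ 2) := by
      refine antitone_nat_of_succ_le (fun n => ?_)
      rw [hpowS]
      exact pow_le_pow_left₀ (norm_nonneg _) (hSc _) 2
    have hbb : BddBelow (Set.range (fun n : ℕ => ‖(S ^ n) k‖ ^ 2)) :=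
      ⟨0, by rintro _ ⟨n, rfl⟩; positivity⟩
    have hlim := tendsto_atTop_ciInf hb hbb
    have hlim2 := (tendsto_add_atTop_iff_nat 1).2 hlim
    have hdiff := hlim.sub hlim2
    rw [sub_self] at hdiff
    have hsq : Tendsto (fun n : ℕ => ‖(S ^ n) (R k)‖ ^ 2) atTop (𝓝 0) := by
      refine squeeze_zero (fun n => by positivity) (fun n => ?_) hdiff
      have h1 : (S ^ n) (R k) = R ((S ^ n) k) := by
        have := (hcomm.pow_right n).symm
        exact congrArg (fun T : H →L[ℂ] H => T k) this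
      rw [h1]
      have := hkey ((S ^ n) k)
      show ‖R ((S ^ n) k)‖ ^ 2 ≤ ‖(S ^ n) k‖ ^ 2 - ‖(S ^ (n + 1)) k‖ ^ 2
      rw [hpowS]
      linarith
    rw [tendsto_zero_iff_norm_tendsto_zero]
    have h2 := (Real.continuous_sqrt.tendsto 0).comp hsq
    rw [Real.sqrt_zero] at h2
    refine h2.congr (fun n => ?_)
    simp only [Function.comp_apply]
    exact Real.sqrt_sq (norm_nonneg _)
  have hall : ∀ h : H, Tendsto (fun n : ℕ => (S ^ n) h) atTop (𝓝 0) := by
    intro h
    rw [Metric.tendsto_atTop]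
    intro ε hε
    obtain ⟨k, hk⟩ := hdense.exists_dist_lt h (half_pos hε)
    obtain ⟨M, hM⟩ := Metric.tendsto_atTop.1 (hran k) (ε / 2) (half_pos hε)
    refine ⟨M, fun n hn' => ?_⟩
    have h1 := hM n hn'
    rw [dist_zero_right] at h1 ⊢
    have h2 : (S ^ n) h = (S ^ n) (h - R k) + (S ^ n) (R k) := by
      rw [← map_add]; congr 1; abel
    rw [h2]
    refine lt_of_le_of_lt (norm_add_le _ _) ?_
    have h3 := hpc n (h - R k)
    rw [dist_eq_norm] at hk
    linarith
  refine ⟨hdense, fun n => ∑ k ∈ Finset.range n, S ^ (k + 1), ?_, ?_, ?_, ?_⟩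
  · intro n x y
    simp only [sum_apply, sum_inner, inner_sum]
    exact Finset.sum_congr rfl (fun k _ => hpsym (k + 1) x y)
  · intro n k
    exact Commute.sum_right _ _ _ (fun i _ => Commute.sum_left _ _ _
      (fun j _ => (Commute.refl S).pow_pow _ _))
  · intro n
    exact Commute.sum_left _ _ _ (fun j _ => (hcomm.symm).pow_left _)
  · intro h
    have htel : ∀ n : ℕ, (∑ k ∈ Finset.range n, S ^ (k + 1)) (R h) = S h - (S ^ (n + 1)) h := by
      intro n
      rw [hRS, sum_apply]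
      induction n with
      | zero => simp
      | succ n ih =>
        rw [Finset.sum_range_succ, ih, map_sub, ← hpowS' (n + 1) h]
        abel
    simp only [htel]
    rw [← hSapp]
    have h1 := (tendsto_add_atTop_iff_nat 1).2 (hall h)
    have h2 := (tendsto_const_nhds (x := S h)).sub h1
    rw [sub_zero] at h2
    exact h2

end N_ex_yos

end Pool.Agent.Helper459.SK
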