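import Mathlib
import Pool.Agent.Helper459.SK.Defs
import Pool.Agent.Helper459.SK.L_ex_bdd
import Pool.Agent.Helper459.SK.L_ex_cmp
import Pool.Agent.Helper459.SK.L_ex_yos

set_option autoImplicit false

noncomputable section

open MeasureTheory Set Filter Topology
open scoped ContDiff ComplexConjugate

namespace Pool.Agent.Helper459.SK
open N_ex_bdd
open N_ex_cmp
open N_ex_yos

namespace N_ex_grp

theorem ex_grp {H : Type} [NormedAddCommGroup H] [InnerProductSpace ℂ H] [CompleteSpace H]
    (R : H →L[ℂ] H) (hR : ∀ x y : H, inner ℂ (R x) y = inner ℂ x (R y)) (hp : ∀ x : H, 0 ≤ (inner ℂ (R x) x).re)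
    (hn : ‖R‖ ≤ 1) (hi : Function.Injective R) :
    ∃ U : ℝ → (H →L[ℂ] H), (∀ x, U 0 x = x) ∧ (∀ s t x, U (s + t) x = U s (U t x)) ∧ (∀ t x, ‖U t x‖ = ‖x‖) ∧
      (∀ x, Continuous (fun t => U t x)) ∧
      ∀ h : H, HasDerivAt (fun t => U t (R h)) (-Complex.I • (h - R h)) 0 := by
  obtain ⟨hdense, P, hPs, hPc, hPR, hPlim⟩ := ex_yos R hR hp hn hi
  choose V hV0 hVadd hVn hVd hVc using fun n => ex_bdd (P n) (hPs n)
  have cmp : ∀ n k t x, ‖V n t x - V k t x‖ ≤ |t| * ‖P n x - P k x‖ := by
    intro n k t x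
    exact ex_cmp (P n) (P k) (V n) (V k) (hV0 n) (hVn n) (hVd n) (hV0 k) (hVn k) (hVd k)
      (fun t => hVc n (P n) (Commute.refl _) t) (fun t => hVc n (P k) (hPc k n) t)
      (fun t => hVc k (P k) (Commute.refl _) t) (fun t => hVc k (P n) (hPc n k) t) t x
  have happrox : ∀ (x : H) (ε : ℝ), 0 < ε → ∃ h : H, ‖x - R h‖ < ε := by
    intro x ε hε
    obtain ⟨h, hh⟩ := Metric.denseRange_iff.mp hdense x ε hε
    exact ⟨h, by rw [← dist_eq_norm]; exact hh⟩
  have hcauchy : ∀ t x, CauchySeq (fun n => V n t x) := by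
    intro t x
    rw [Metric.cauchySeq_iff]
    intro ε hε
    obtain ⟨h, hh⟩ := happrox x (ε / 3) (by positivity)
    have hc : CauchySeq (fun n => P n (R h)) := (hPlim h).cauchySeq
    rw [Metric.cauchySeq_iff] at hc
    obtain ⟨N, hN⟩ := hc (ε / (3 * (|t| + 1))) (by positivity)
    refine ⟨N, fun n hn' k hk' => ?_⟩
    rw [dist_eq_norm]
    have h1 : V n t x - V k t x = V n t (x - R h) + (V n t (R h) - V k t (R h)) - V k t (x - R h) := by
      rw [map_sub, map_sub]; abel
    have h2 : ‖V n t (R h) - V k t (R h)‖ ≤ ε / 3 := by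
      refine (cmp n k t (R h)).trans ?_
      have h3 := hN n hn' k hk'
      rw [dist_eq_norm] at h3
      calc |t| * ‖P n (R h) - P k (R h)‖ ≤ (|t| + 1) * (ε / (3 * (|t| + 1))) := by
            apply mul_le_mul _ h3.le (norm_nonneg _) (by positivity)
            linarith
        _ = ε / 3 := by field_simp
    rw [h1]
    have h4 : ‖V n t (x - R h)‖ = ‖x - R h‖ := hVn n t _
    have h5 : ‖V k t (x - R h)‖ = ‖x - R h‖ := hVn k t _
    calc ‖V n t (x - R h) + (V n t (R h) - V k t (R h)) - V k t (x - R h)‖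
        ≤ ‖V n t (x - R h) + (V n t (R h) - V k t (R h))‖ + ‖V k t (x - R h)‖ := norm_sub_le _ _
      _ ≤ ‖V n t (x - R h)‖ + ‖V n t (R h) - V k t (R h)‖ + ‖V k t (x - R h)‖ := by
          gcongr
          exact norm_add_le _ _
      _ < ε := by rw [h4, h5]; linarith
  choose L hL using fun t x => cauchySeq_tendsto_of_complete (hcauchy t x)
  have Ladd : ∀ t x y, L t (x + y) = L t x + L t y := by
    intro t x y
    refine tendsto_nhds_unique (hL t (x + y)) ?_
    simpa only [map_add] using (hL t x).add (hL t y)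
  have Lsmul : ∀ t (c : ℂ) x, L t (c • x) = c • L t x := by
    intro t c x
    refine tendsto_nhds_unique (hL t (c • x)) ?_
    simpa only [map_smul] using (hL t x).const_smul c
  have Lnorm : ∀ t x, ‖L t x‖ = ‖x‖ := by
    intro t x
    refine tendsto_nhds_unique (hL t x).norm ?_
    simp only [hVn]
    exact tendsto_const_nhds
  let U : ℝ → (H →L[ℂ] H) := fun t =>
    LinearMap.mkContinuous
      { toFun := L t
        map_add' := Ladd t
        map_smul' := Lsmul t } 1 (by
        intro x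
        show ‖L t x‖ ≤ 1 * ‖x‖
        rw [Lnorm, one_mul])
  have hU : ∀ t x, U t x = L t x := fun t x => rfl
  have U0 : ∀ x, U 0 x = x := by
    intro x
    rw [hU]
    refine tendsto_nhds_unique (hL 0 x) ?_
    have : ∀ n, V n 0 x = x := by intro n; rw [hV0 n]; rfl
    simp only [this]
    exact tendsto_const_nhds
  have Uadd : ∀ s t x, U (s + t) x = U s (U t x) := by
    intro s t x
    rw [hU, hU, hU]
    refine tendsto_nhds_unique (hL (s + t) x) ?_
    have h1 : ∀ n, V n (s + t) x = V n s (V n t x - L t x) + V n s (L t x) := by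
      intro n
      rw [hVadd n, map_sub]
      show V n s (V n t x) = _
      abel
    simp only [h1]
    have h2 : Tendsto (fun n => V n s (V n t x - L t x)) atTop (𝓝 0) := by
      rw [tendsto_zero_iff_norm_tendsto_zero]
      simp only [hVn]
      rw [← tendsto_zero_iff_norm_tendsto_zero]
      have h3 := (hL t x).sub_const (L t x)
      rwa [sub_self] at h3
    have h4 := h2.add (hL s (L t x))
    rwa [zero_add] at h4
  have Unorm : ∀ t x, ‖U t x‖ = ‖x‖ := fun t x => Lnorm t x
  have Ucmp : ∀ n t h, ‖U t (R h) - V n t (R h)‖ ≤ |t| * ‖(h - R h) - P n (R h)‖ := by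
    intro n t h
    have h1 : Tendsto (fun k => ‖V k t (R h) - V n t (R h)‖) atTop (𝓝 ‖U t (R h) - V n t (R h)‖) :=
      ((hL t (R h)).sub_const _).norm
    have h2 : Tendsto (fun k => |t| * ‖P k (R h) - P n (R h)‖) atTop
        (𝓝 (|t| * ‖(h - R h) - P n (R h)‖)) :=
      (((hPlim h).sub_const _).norm).const_mul _
    exact le_of_tendsto_of_tendsto' h1 h2 (fun k => cmp k n t (R h))
  have Uder : ∀ h : H, HasDerivAt (fun t => U t (R h)) (-Complex.I • (h - R h)) 0 := by
    intro h
    rw [hasDerivAt_iff_isLittleO_nhds_zero, Asymptotics.isLittleO_iff]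
    intro c hc
    obtain ⟨n, hn1⟩ := (Metric.tendsto_atTop.mp (hPlim h)) (c / 4) (by positivity)
    have hn2 := hn1 n le_rfl
    rw [dist_eq_norm] at hn2
    have hd := hVd n 0 (R h)
    have hV0x : V n 0 (R h) = R h := by rw [hV0 n]; rfl
    rw [hV0x, hasDerivAt_iff_isLittleO_nhds_zero, Asymptotics.isLittleO_iff] at hd
    filter_upwards [hd (show 0 < c / 2 by positivity)] with t ht
    simp only [zero_add] at ht ⊢
    rw [hV0x] at ht
    rw [U0]
    have e1 : U t (R h) - R h - t • (-Complex.I • (h - R h)) =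
        (U t (R h) - V n t (R h)) + (V n t (R h) - R h - t • (-Complex.I • P n (R h))) +
          t • (-Complex.I • (P n (R h) - (h - R h))) := by
      simp only [smul_sub]
      abel
    rw [e1]
    have b1 : ‖U t (R h) - V n t (R h)‖ ≤ |t| * (c / 4) := by
      refine (Ucmp n t h).trans (mul_le_mul_of_nonneg_left ?_ (abs_nonneg _))
      rw [norm_sub_rev]
      exact hn2.le
    have b2 : ‖t • (-Complex.I • (P n (R h) - (h - R h)))‖ ≤ |t| * (c / 4) := by
      rw [norm_smul, norm_smul, Real.norm_eq_abs, norm_neg, Complex.norm_I, one_mul]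
      exact mul_le_mul_of_nonneg_left hn2.le (abs_nonneg _)
    rw [Real.norm_eq_abs] at ht ⊢
    calc ‖(U t (R h) - V n t (R h)) + (V n t (R h) - R h - t • (-Complex.I • P n (R h))) +
          t • (-Complex.I • (P n (R h) - (h - R h)))‖
        ≤ ‖U t (R h) - V n t (R h)‖ + ‖V n t (R h) - R h - t • (-Complex.I • P n (R h))‖ +
          ‖t • (-Complex.I • (P n (R h) - (h - R h)))‖ := norm_add₃_le
      _ ≤ |t| * (c / 4) + c / 2 * |t| + |t| * (c / 4) := by gcongr
      _ = c * |t| := by ring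
  refine ⟨U, U0, Uadd, Unorm, ?_, Uder⟩
  intro x
  have c0 : Tendsto (fun t => U t x) (𝓝 0) (𝓝 x) := by
    rw [Metric.tendsto_nhds]
    intro ε hε
    obtain ⟨h, hh⟩ := happrox x (ε / 4) (by positivity)
    have h1 : Tendsto (fun t => U t (R h)) (𝓝 0) (𝓝 (R h)) := by
      have := (Uder h).continuousAt.tendsto
      simpa only [U0] using this
    rw [Metric.tendsto_nhds] at h1
    filter_upwards [h1 (ε / 4) (by positivity)] with t ht
    rw [dist_eq_norm] at ht ⊢
    have e1 : U t x - x = U t (x - R h) + (U t (R h) - R h) - (x - R h) := by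
      rw [map_sub]; abel
    rw [e1]
    calc ‖U t (x - R h) + (U t (R h) - R h) - (x - R h)‖
        ≤ ‖U t (x - R h) + (U t (R h) - R h)‖ + ‖x - R h‖ := norm_sub_le _ _
      _ ≤ ‖U t (x - R h)‖ + ‖U t (R h) - R h‖ + ‖x - R h‖ := by
          gcongr
          exact norm_add_le _ _
      _ < ε := by rw [Unorm]; linarith
  rw [continuous_iff_continuousAt]
  intro s
  have e2 : (fun t => U t x) = fun t => U s (U (t - s) x) := by
    funext t
    rw [← Uadd]
    congr 2
    ring
  unfold ContinuousAt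
  rw [e2]
  have h1 : Tendsto (fun t : ℝ => t - s) (𝓝 s) (𝓝 0) := by
    have : Tendsto (fun t : ℝ => t - s) (𝓝 s) (𝓝 (s - s)) := (continuous_id.sub continuous_const).tendsto s
    rwa [sub_self] at this
  have h2 := ((U s).continuous.tendsto x).comp (c0.comp h1)
  have h3 : U s (U (s - s) x) = U s x := by rw [sub_self, U0]
  show Tendsto (fun t => (U s) ((U (t - s)) x)) (𝓝 s) (𝓝 (U s (U (s - s) x)))
  rw [h3]
  exact h2

end N_ex_grp

end Pool.Agent.Helper459.SK
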