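import Mathlib
import Pool.Agent.Helper459.SK.Defs
import Pool.Agent.Helper459.SK.L_test_l2

set_option autoImplicit false

noncomputable section

open MeasureTheory Set Filter Topology
open scoped ContDiff ComplexConjugate

namespace Pool.Agent.Helper459.SK
open N_test_l2

namespace N_ex_ibp

theorem pd_smooth {n : ℕ} {F : Type} [NormedAddCommGroup F] [NormedSpace ℝ F] (j : Fin n)
    {u : E n → F} (hu : ContDiff ℝ ∞ u) : ContDiff ℝ ∞ (pd j u) :=
  (hu.fderiv_right (m := ∞) (by simp)).clm_apply contDiff_const

theorem pd_cpt {n : ℕ} {F : Type} [NormedAddCommGroup F] [NormedSpace ℝ F] (j : Fin n)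
    {u : E n → F} (hu : HasCompactSupport u) : HasCompactSupport (pd j u) :=
  hu.fderiv_apply (𝕜 := ℝ) _

theorem flux_test {n : ℕ} (A : E n → Matrix (Fin n) (Fin n) ℝ) (hA : Admissible A) (u : E n → ℂ)
    (hu : IsTest u) (j l : Fin n) : IsTest (fun y => (A y j l : ℂ) * pd l u y) where
  smooth := (Complex.ofRealCLM.contDiff.comp (hA.smooth j l)).mul (pd_smooth l hu.smooth)
  cpt := (pd_cpt l hu.cpt).mul_left

theorem Pop_test {n : ℕ} (A : E n → Matrix (Fin n) (Fin n) ℝ) (hA : Admissible A) (u : E n → ℂ)
    (hu : IsTest u) : IsTest (Pop A u) where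
  smooth := contDiff_const.mul (ContDiff.sum fun j _ => ContDiff.sum fun l _ =>
    pd_smooth j (flux_test A hA u hu j l).smooth)
  cpt := by
    refine HasCompactSupport.intro (K := ⋃ j, ⋃ l, tsupport (pd j (fun y => (A y j l : ℂ) * pd l u y)))
      (isCompact_iUnion fun j => isCompact_iUnion fun l => pd_cpt j (flux_test A hA u hu j l).cpt) ?_
    intro x hx
    simp only [Set.mem_iUnion, not_exists] at hx
    unfold Pop
    rw [Finset.sum_eq_zero, mul_zero]
    intro j _
    refine Finset.sum_eq_zero fun l _ => ?_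
    exact image_eq_zero_of_notMem_tsupport (hx j l)

theorem ibp_one {n : ℕ} (F v : E n → ℂ) (hF : IsTest F) (hv : IsTest v) (j : Fin n) :
    ∫ x, conj (pd j F x) * v x = - ∫ x, conj (F x) * pd j v x := by
  have hFd : Differentiable ℝ F := hF.smooth.differentiable (by simp)
  have hvd : Differentiable ℝ v := hv.smooth.differentiable (by simp)
  have hc : ∀ x, HasFDerivAt (fun x => conj (F x))
      ((Complex.conjCLE : ℂ →L[ℝ] ℂ).comp (fderiv ℝ F x)) x := fun x =>
    (Complex.conjCLE : ℂ →L[ℝ] ℂ).hasFDerivAt.comp x (hFd x).hasFDerivAt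
  have hcd : Differentiable ℝ (fun x => conj (F x)) := fun x => (hc x).differentiableAt
  have e : ∀ x, conj (pd j F x) = fderiv ℝ (fun x => conj (F x)) x (EuclideanSpace.single j 1) := by
    intro x
    rw [(hc x).fderiv]
    rfl
  have hcF : Continuous (fun x => conj (F x)) := hcd.continuous
  have hcv : Continuous v := hvd.continuous
  have hcpF : Continuous (fun x => conj (pd j F x)) :=
    Complex.continuous_conj.comp (pd_smooth j hF.smooth).continuous
  have hcpv : Continuous (pd j v) := (pd_smooth j hv.smooth).continuous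
  have i1 : Integrable (fun x => fderiv ℝ (fun x => conj (F x)) x (EuclideanSpace.single j 1) * v x)
      (volume : Measure (E n)) := by
    have : Integrable (fun x => conj (pd j F x) * v x) (volume : Measure (E n)) :=
      (hcpF.mul hcv).integrable_of_hasCompactSupport hv.cpt.mul_left
    simpa only [e] using this
  have i2 : Integrable (fun x => conj (F x) * fderiv ℝ v x (EuclideanSpace.single j 1))
      (volume : Measure (E n)) :=
    (hcF.mul hcpv).integrable_of_hasCompactSupport (pd_cpt j hv.cpt).mul_left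
  have i3 : Integrable (fun x => conj (F x) * v x) (volume : Measure (E n)) :=
    (hcF.mul hcv).integrable_of_hasCompactSupport hv.cpt.mul_left
  have h := integral_mul_fderiv_eq_neg_fderiv_mul_of_integrable i1 i2 i3
    (fun x _ => hcd x) (fun x _ => hvd x)
  simp only [e]
  rw [eq_neg_iff_add_eq_zero, add_comm]
  rw [eq_neg_iff_add_eq_zero] at h
  exact h

theorem ex_ibp {n : ℕ} (A : E n → Matrix (Fin n) (Fin n) ℝ) (hA : Admissible A) (u v : E n → ℂ)
    (hu : IsTest u) (hv : IsTest v) :
    inner ℂ (toL2 (Pop A u)) (toL2 v) =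
      (1 / 2) * ∫ x, ∑ j, ∑ l, (A x j l : ℂ) * conj (pd l u x) * pd j v x := by
  obtain ⟨hm1, he1⟩ := N_test_l2.test_l2 (Pop A u) (Pop_test A hA u hu)
  obtain ⟨hm2, he2⟩ := N_test_l2.test_l2 v hv
  rw [L2.inner_def]
  have e1 : ∫ x, inner ℂ ((toL2 (Pop A u) : E n → ℂ) x) ((toL2 v : E n → ℂ) x) =
      ∫ x, conj (Pop A u x) * v x := by
    refine integral_congr_ae ?_
    filter_upwards [he1, he2] with x h1 h2
    rw [h1, h2, RCLike.inner_apply, mul_comm]
  rw [e1]
  have e2 : ∀ x, conj (Pop A u x) * v x = -(1 / 2) * ∑ j, ∑ l,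
      conj (pd j (fun y => (A y j l : ℂ) * pd l u y) x) * v x := by
    intro x
    unfold Pop
    have h2 : conj (-(1 / 2) : ℂ) = -(1 / 2) := by
      have h3 : (-(1 / 2) : ℂ) = ((-(1 / 2) : ℝ) : ℂ) := by push_cast; ring
      rw [h3, Complex.conj_ofReal]
    rw [map_mul, h2, map_sum, mul_assoc, Finset.sum_mul]
    congr 1
    refine Finset.sum_congr rfl fun j _ => ?_
    rw [map_sum, Finset.sum_mul]
  have hint : ∀ j l, Integrable (fun x =>
      conj (pd j (fun y => (A y j l : ℂ) * pd l u y) x) * v x) (volume : Measure (E n)) := by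
    intro j l
    exact ((Complex.continuous_conj.comp
      (pd_smooth j (flux_test A hA u hu j l).smooth).continuous).mul
      hv.smooth.continuous).integrable_of_hasCompactSupport hv.cpt.mul_left
  have hint2 : ∀ j l, Integrable (fun x =>
      (A x j l : ℂ) * conj (pd l u x) * pd j v x) (volume : Measure (E n)) := by
    intro j l
    exact (((Complex.continuous_ofReal.comp (hA.smooth j l).continuous).mul
      (Complex.continuous_conj.comp (pd_smooth l hu.smooth).continuous)).mul
      (pd_smooth j hv.smooth).continuous).integrable_of_hasCompactSupport (pd_cpt j hv.cpt).mul_left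
  simp_rw [e2]
  rw [integral_const_mul, integral_finsetSum _ (fun j _ => integrable_finsetSum _ fun l _ => hint j l),
    integral_finsetSum _ (fun j _ => integrable_finsetSum _ fun l _ => hint2 j l),
    neg_mul, ← mul_neg, ← Finset.sum_neg_distrib]
  congr 1
  refine Finset.sum_congr rfl fun j _ => ?_
  rw [integral_finsetSum _ (fun l _ => hint j l), integral_finsetSum _ (fun l _ => hint2 j l),
    ← Finset.sum_neg_distrib]
  refine Finset.sum_congr rfl fun l _ => ?_
  rw [ibp_one _ v (flux_test A hA u hu j l) hv j, neg_neg]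
  refine integral_congr_ae (Filter.Eventually.of_forall fun x => ?_)
  show conj ((A x j l : ℂ) * pd l u x) * pd j v x = _
  rw [map_mul, Complex.conj_ofReal]

end N_ex_ibp

end Pool.Agent.Helper459.SK
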