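import Mathlib
import Pool.Agent.Helper459.SK.Defs

set_option autoImplicit false

noncomputable section

open MeasureTheory Set Filter Topology
open scoped ContDiff ComplexConjugate

namespace Pool.Agent.Helper459.SK

namespace N_ex_pop

theorem ep_pd_test {n : ℕ} {u : E n → ℂ} (hu : IsTest u) (j : Fin n) : IsTest (pd j u) := by
  refine ⟨?_, ?_⟩
  · have h1 : ContDiff ℝ ∞ (fderiv ℝ u) := hu.smooth.fderiv_right (m := ∞) le_rfl
    exact h1.clm_apply contDiff_const
  · exact hu.cpt.fderiv_apply (𝕜 := ℝ) (EuclideanSpace.single j 1)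

theorem ep_mul_test {n : ℕ} {u : E n → ℂ} (hu : IsTest u) {a : E n → ℂ} (ha : ContDiff ℝ ∞ a) :
    IsTest (fun y => a y * u y) := by
  refine ⟨ha.mul hu.smooth, ?_⟩
  exact hu.cpt.mul_left

theorem ep_sum_test {n : ℕ} {ι : Type} (s : Finset ι) (F : ι → E n → ℂ)
    (h : ∀ i ∈ s, IsTest (F i)) : IsTest (fun x => ∑ i ∈ s, F i x) := by
  classical
  induction s using Finset.induction_on with
  | empty =>
    simp only [Finset.sum_empty]
    exact ⟨contDiff_const, HasCompactSupport.zero⟩
  | insert i s hi ih =>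
    have h1 := h i (Finset.mem_insert_self i s)
    have h2 := ih (fun k hk => h k (Finset.mem_insert_of_mem hk))
    have h3 : (fun x => ∑ k ∈ insert i s, F k x) = fun x => F i x + ∑ k ∈ s, F k x := by
      funext x; rw [Finset.sum_insert hi]
    rw [h3]
    exact ⟨h1.smooth.add h2.smooth, h1.cpt.add h2.cpt⟩

theorem ep_diff {n : ℕ} {u : E n → ℂ} (hu : IsTest u) : Differentiable ℝ u :=
  hu.smooth.differentiable (by simp)

theorem ep_pd_add {n : ℕ} {u v : E n → ℂ} (hu : Differentiable ℝ u) (hv : Differentiable ℝ v)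
    (j : Fin n) (x : E n) : pd j (fun y => u y + v y) x = pd j u x + pd j v x := by
  unfold pd
  rw [fderiv_fun_add (hu x) (hv x)]
  rfl

theorem ep_pd_smul {n : ℕ} {u : E n → ℂ} (hu : Differentiable ℝ u) (c : ℂ)
    (j : Fin n) (x : E n) : pd j (fun y => c * u y) x = c * pd j u x := by
  unfold pd
  have h : (fun y => c * u y) = c • u := rfl
  rw [h, fderiv_const_smul (hu x)]
  rfl

theorem ep_coef {n : ℕ} {A : E n → Matrix (Fin n) (Fin n) ℝ} (hA : Admissible A) (j l : Fin n) :
    ContDiff ℝ ∞ (fun y => ((A y j l : ℝ) : ℂ)) :=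
  Complex.ofRealCLM.contDiff.comp (hA.smooth j l)

theorem ex_pop {n : ℕ} (A : E n → Matrix (Fin n) (Fin n) ℝ) (hA : Admissible A) :
    (∀ u : E n → ℂ, IsTest u → IsTest (Pop A u)) ∧
    (∀ u v : E n → ℂ, IsTest u → IsTest v → Pop A (u + v) = Pop A u + Pop A v) ∧
    (∀ (c : ℂ) (u : E n → ℂ), IsTest u → Pop A (c • u) = c • Pop A u) := by
  refine ⟨?_, ?_, ?_⟩
  · intro u hu
    have h1 : IsTest (fun x => ∑ j, ∑ l, pd j (fun y => (A y j l : ℂ) * pd l u y) x) := by
      refine ep_sum_test _ (fun j x => ∑ l, pd j (fun y => (A y j l : ℂ) * pd l u y) x) ?_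
      intro j _
      refine ep_sum_test _ (fun l x => pd j (fun y => (A y j l : ℂ) * pd l u y) x) ?_
      intro l _
      exact ep_pd_test (ep_mul_test (ep_pd_test hu l) (ep_coef hA j l)) j
    exact ep_mul_test h1 (a := fun _ => -(1 / 2)) contDiff_const
  · intro u v hu hv
    funext x
    simp only [Pop, Pi.add_apply]
    rw [← mul_add, ← Finset.sum_add_distrib]
    congr 1
    refine Finset.sum_congr rfl fun j _ => ?_
    rw [← Finset.sum_add_distrib]
    refine Finset.sum_congr rfl fun l _ => ?_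
    have e : (fun y => (A y j l : ℂ) * pd l (u + v) y) =
        fun y => (A y j l : ℂ) * pd l u y + (A y j l : ℂ) * pd l v y := by
      funext y
      have h1 : pd l (u + v) y = pd l u y + pd l v y := ep_pd_add (ep_diff hu) (ep_diff hv) l y
      rw [h1, mul_add]
    rw [e]
    exact ep_pd_add (ep_diff (ep_mul_test (ep_pd_test hu l) (ep_coef hA j l)))
      (ep_diff (ep_mul_test (ep_pd_test hv l) (ep_coef hA j l))) j x
  · intro c u hu
    funext x
    simp only [Pop, Pi.smul_apply, smul_eq_mul]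
    rw [mul_left_comm c]
    congr 1
    rw [Finset.mul_sum]
    refine Finset.sum_congr rfl fun j _ => ?_
    rw [Finset.mul_sum]
    refine Finset.sum_congr rfl fun l _ => ?_
    have e : (fun y => (A y j l : ℂ) * pd l (c • u) y) =
        fun y => c * ((A y j l : ℂ) * pd l u y) := by
      funext y
      have h1 : pd l (c • u) y = c * pd l u y := ep_pd_smul (ep_diff hu) c l y
      rw [h1, mul_left_comm]
    rw [e]
    exact ep_pd_smul (ep_diff (ep_mul_test (ep_pd_test hu l) (ep_coef hA j l))) c j x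

end N_ex_pop

end Pool.Agent.Helper459.SK
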