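import Mathlib
import Pool.Agent.Helper459.SK.Defs
import Pool.Agent.Helper459.SK.L_ex_grp
import Pool.Agent.Helper459.SK.L_ex_frd
import Pool.Agent.Helper459.SK.L_ex_ibp
import Pool.Agent.Helper459.SK.L_ex_dense
import Pool.Agent.Helper459.SK.L_ex_pop

set_option autoImplicit false

noncomputable section

open MeasureTheory Set Filter Topology
open scoped ContDiff ComplexConjugate

namespace Pool.Agent.Helper459.SK
open N_ex_grp
open N_ex_frd
open N_ex_ibp
open N_ex_dense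
open N_ex_pop

namespace N_ex_main

theorem ex_main_zero {n : ℕ} : IsTest (0 : E n → ℂ) :=
  ⟨contDiff_const, HasCompactSupport.zero⟩

theorem ex_main_add {n : ℕ} {u v : E n → ℂ} (hu : IsTest u) (hv : IsTest v) : IsTest (u + v) :=
  ⟨hu.smooth.add hv.smooth, hu.cpt.add hv.cpt⟩

theorem ex_main_smul {n : ℕ} (c : ℂ) {u : E n → ℂ} (hu : IsTest u) : IsTest (c • u) :=
  ⟨contDiff_const.smul hu.smooth, hu.cpt.smul_left⟩

/-- the space of test functions -/
def ex_mainX (n : ℕ) : Submodule ℂ (E n → ℂ) where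
  carrier := {u | IsTest u}
  add_mem' := fun hu hv => ex_main_add hu hv
  zero_mem' := ex_main_zero
  smul_mem' := fun c _ hu => ex_main_smul c hu

theorem ex_main_real {n : ℕ} (M : Matrix (Fin n) (Fin n) ℝ) (hM : M.IsSymm) (p : Fin n → ℂ) :
    (∑ j, ∑ l, (M j l : ℂ) * conj (p l) * p j) =
      ((∑ j, ∑ l, M j l * ((p j).re * (p l).re) + ∑ j, ∑ l, M j l * ((p j).im * (p l).im) : ℝ) : ℂ) := by
  have hs : ∀ j l, M j l = M l j := fun j l => hM.apply l j
  have him : ∑ j, ∑ l, M j l * ((p l).re * (p j).im - (p l).im * (p j).re) = 0 := by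
    have h1 : ∑ j, ∑ l, M j l * ((p l).re * (p j).im) = ∑ j, ∑ l, M j l * ((p l).im * (p j).re) := by
      rw [Finset.sum_comm]
      refine Finset.sum_congr rfl fun j _ => Finset.sum_congr rfl fun l _ => ?_
      rw [hs l j]
      ring
    simp only [mul_sub, Finset.sum_sub_distrib]
    rw [h1, sub_self]
  apply Complex.ext
  · rw [Complex.ofReal_re, Complex.re_sum, ← Finset.sum_add_distrib]
    refine Finset.sum_congr rfl fun j _ => ?_
    rw [Complex.re_sum, ← Finset.sum_add_distrib]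
    refine Finset.sum_congr rfl fun l _ => ?_
    simp only [Complex.mul_re, Complex.ofReal_re, Complex.ofReal_im, Complex.conj_re,
      Complex.conj_im, Complex.mul_im]
    ring
  · rw [Complex.ofReal_im, Complex.im_sum, ← him]
    refine Finset.sum_congr rfl fun j _ => ?_
    rw [Complex.im_sum]
    refine Finset.sum_congr rfl fun l _ => ?_
    simp only [Complex.mul_re, Complex.ofReal_re, Complex.ofReal_im, Complex.conj_re,
      Complex.conj_im, Complex.mul_im]
    ring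

theorem ex_main_nonneg {n : ℕ} (A : E n → Matrix (Fin n) (Fin n) ℝ) (hA : Admissible A) (x : E n)
    (a : Fin n → ℝ) : 0 ≤ ∑ j, ∑ l, A x j l * (a j * a l) := by
  obtain ⟨c, hc, h⟩ := hA.pos
  have h1 := h x (WithLp.toLp 2 a)
  have h2 : 0 ≤ c * ‖(WithLp.toLp 2 a : E n)‖ ^ 2 := by positivity
  refine (h2.trans h1).trans (le_of_eq ?_)
  refine Finset.sum_congr rfl fun j _ => Finset.sum_congr rfl fun l _ => ?_
  change A x j l * a j * a l = _
  ring

theorem ex_main_pos {n : ℕ} (A : E n → Matrix (Fin n) (Fin n) ℝ) (hA : Admissible A) (u : E n → ℂ)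
    (hu : IsTest u) : 0 ≤ (inner ℂ (toL2 (Pop A u)) (toL2 u)).re := by
  rw [ex_ibp A hA u u hu hu]
  have h1 : ∀ x : E n, (∑ j, ∑ l, (A x j l : ℂ) * conj (pd l u x) * pd j u x) =
      ((∑ j, ∑ l, A x j l * ((pd j u x).re * (pd l u x).re) +
        ∑ j, ∑ l, A x j l * ((pd j u x).im * (pd l u x).im) : ℝ) : ℂ) := fun x =>
    ex_main_real (A x) (hA.symm x) (fun j => pd j u x)
  have h2 : (∫ x, ∑ j, ∑ l, (A x j l : ℂ) * conj (pd l u x) * pd j u x) =
      ((∫ x, (∑ j, ∑ l, A x j l * ((pd j u x).re * (pd l u x).re) +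
        ∑ j, ∑ l, A x j l * ((pd j u x).im * (pd l u x).im)) : ℝ) : ℂ) := by
    rw [← integral_complex_ofReal]
    exact integral_congr_ae (Filter.Eventually.of_forall h1)
  rw [h2]
  have h3 : 0 ≤ ∫ x, (∑ j, ∑ l, A x j l * ((pd j u x).re * (pd l u x).re) +
        ∑ j, ∑ l, A x j l * ((pd j u x).im * (pd l u x).im)) := by
    refine integral_nonneg fun x => ?_
    exact add_nonneg (ex_main_nonneg A hA x fun j => (pd j u x).re)
      (ex_main_nonneg A hA x fun j => (pd j u x).im)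
  have h4 : ((1 / 2 : ℂ) * ((∫ x, (∑ j, ∑ l, A x j l * ((pd j u x).re * (pd l u x).re) +
        ∑ j, ∑ l, A x j l * ((pd j u x).im * (pd l u x).im)) : ℝ) : ℂ)).re =
      (1 / 2) * ∫ x, (∑ j, ∑ l, A x j l * ((pd j u x).re * (pd l u x).re) +
        ∑ j, ∑ l, A x j l * ((pd j u x).im * (pd l u x).im)) := by
    rw [Complex.re_mul_ofReal]
    norm_num
  rw [h4]
  positivity

theorem ex_main_sym {n : ℕ} (A : E n → Matrix (Fin n) (Fin n) ℝ) (hA : Admissible A) (u v : E n → ℂ)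
    (hu : IsTest u) (hv : IsTest v) :
    inner ℂ (toL2 (Pop A u)) (toL2 v) = inner ℂ (toL2 u) (toL2 (Pop A v)) := by
  rw [← inner_conj_symm (toL2 u) (toL2 (Pop A v)), ex_ibp A hA u v hu hv, ex_ibp A hA v u hv hu,
    map_mul, ← integral_conj]
  have h1 : (conj (1 / 2 : ℂ)) = 1 / 2 := by
    rw [map_div₀, map_one, map_ofNat]
  rw [h1]
  congr 1
  refine integral_congr_ae (Filter.Eventually.of_forall fun x => ?_)
  have hs : ∀ j l, A x j l = A x l j := fun j l => (hA.symm x).apply l j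
  simp only [map_sum, map_mul, Complex.conj_conj, Complex.conj_ofReal]
  rw [Finset.sum_comm]
  refine Finset.sum_congr rfl fun j _ => Finset.sum_congr rfl fun l _ => ?_
  rw [hs l j]
  ring

theorem ex_main {n : ℕ} (A : E n → Matrix (Fin n) (Fin n) ℝ) (hA : Admissible A) :
    ∃ U : ℝ → (L2 n →L[ℂ] L2 n), IsPropagator A U := by
  obtain ⟨hd1, hd2, hd3, hd4⟩ := ex_dense n
  obtain ⟨hp1, hp2, hp3⟩ := ex_pop A hA
  let ι : ex_mainX n →ₗ[ℂ] L2 n :=
    { toFun := fun u => toL2 (u : E n → ℂ)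
      map_add' := fun u v => hd3 _ _ u.2 v.2
      map_smul' := fun c u => hd4 c _ u.2 }
  let P : ex_mainX n →ₗ[ℂ] L2 n :=
    { toFun := fun u => toL2 (Pop A (u : E n → ℂ))
      map_add' := fun u v => by
        have h1 : Pop A ((u + v : ex_mainX n) : E n → ℂ) = Pop A (u : E n → ℂ) + Pop A (v : E n → ℂ) :=
          hp2 _ _ u.2 v.2
        rw [h1]
        exact hd3 _ _ (hp1 _ u.2) (hp1 _ v.2)
      map_smul' := fun c u => by
        have h1 : Pop A ((c • u : ex_mainX n) : E n → ℂ) = c • Pop A (u : E n → ℂ) :=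
          hp3 c _ u.2
        rw [h1]
        exact hd4 c _ (hp1 _ u.2) }
  have hinj : Function.Injective ι := fun u v h => Subtype.ext (hd2 _ _ u.2 v.2 h)
  have hdr : DenseRange ι := by
    refine hd1.mono ?_
    rintro f ⟨u, hu, rfl⟩
    exact ⟨⟨u, hu⟩, rfl⟩
  obtain ⟨R, hR1, hR2, hR3, hR4, hR5⟩ := ex_frd ι P hinj hdr
    (fun x y => ex_main_sym A hA _ _ x.2 y.2) (fun x => ex_main_pos A hA _ x.2)
  obtain ⟨U, hU1, hU2, hU3, hU4, hU5⟩ := ex_grp R hR1 hR2 hR3 hR4
  refine ⟨U, ⟨hU1, hU2, hU3, hU4, ?_⟩⟩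
  intro u hu
  have h1 : R (P ⟨u, hu⟩ + ι ⟨u, hu⟩) = ι ⟨u, hu⟩ := hR5 ⟨u, hu⟩
  have h2 := hU5 (P ⟨u, hu⟩ + ι ⟨u, hu⟩)
  rw [h1, add_sub_cancel_right] at h2
  exact h2

end N_ex_main

end Pool.Agent.Helper459.SK
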