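import Mathlib
import Pool.Agent.Helper459.SK.Defs

set_option autoImplicit false

noncomputable section

open MeasureTheory Set Filter Topology
open scoped ContDiff ComplexConjugate

namespace Pool.Agent.Helper459.SK

namespace N_fj_facts

theorem bump (a b : ℝ) (hab : a < b) : ∃ f : ℝ → ℝ, ContDiff ℝ ∞ f ∧ tsupport f ⊆ Ioo a b ∧
    (∀ z, 0 ≤ f z) ∧ ∃ z, 0 < f z := by
  let φ : ContDiffBump ((a + b) / 2 : ℝ) := ⟨(b - a) / 8, (b - a) / 4, by linarith, by linarith⟩
  refine ⟨φ, φ.contDiff, ?_, fun z => φ.nonneg, (a + b) / 2, ?_⟩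
  · rw [φ.tsupport_eq]
    intro z hz
    rw [Metric.mem_closedBall, Real.dist_eq, abs_le] at hz
    have hr : φ.rOut = (b - a) / 4 := rfl
    rw [hr] at hz
    exact ⟨by linarith [hz.1], by linarith [hz.2]⟩
  · apply φ.pos_of_mem_ball
    exact Metric.mem_ball_self (by
      show 0 < (b - a) / 4
      linarith)

theorem tsupport_deriv (g : ℝ → ℝ) : tsupport (deriv g) ⊆ tsupport g :=
  closure_minimal support_deriv_subset isClosed_closure

theorem fj_facts : (∃ f : ℝ → ℝ, FP f) ∧ (∃ χ : ℝ → ℝ, Chi χ) ∧
    ∀ f : ℝ → ℝ, FP f → ∀ j, ContDiff ℝ ∞ (fj f j) ∧ HasCompactSupport (fj f j) ∧ tsupport (fj f j) ⊆ Ioo 2 3 := by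
  refine ⟨?_, ?_, ?_⟩
  · obtain ⟨f, h1, h2, h3, h4⟩ := bump 2 3 (by norm_num)
    exact ⟨f, h1, h2, h3, h4⟩
  · have hel : el / 2 < el := by unfold el; norm_num
    have hel0 : 0 < el := by unfold el; norm_num
    obtain ⟨f, h1, h2, h3, h4⟩ := bump (el / 2) el hel
    refine ⟨f, h1, h3, h2, ?_⟩
    have hsupp : Function.support f ⊆ Ioc 0 el := by
      intro z hz
      have := h2 (subset_tsupport f hz)
      exact ⟨by linarith [this.1], this.2.le⟩
    rw [intervalIntegral.integral_eq_integral_of_support_subset hsupp]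
    obtain ⟨z, hz⟩ := h4
    have hc : HasCompactSupport f :=
      HasCompactSupport.of_support_subset_isCompact (isCompact_Icc (a := 0) (b := el))
        (hsupp.trans Ioc_subset_Icc_self)
    exact h1.continuous.integral_pos_of_hasCompactSupport_nonneg_nonzero hc h3 hz.ne'
  · intro f hf j
    induction j with
    | zero =>
      refine ⟨hf.smooth, ?_, hf.supp⟩
      exact HasCompactSupport.of_support_subset_isCompact (isCompact_Icc (a := (2:ℝ)) (b := 3))
        (((subset_tsupport f).trans hf.supp).trans Ioo_subset_Icc_self)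
    | succ j ih =>
      obtain ⟨h1, h2, h3⟩ := ih
      have d1 : ContDiff ℝ ∞ (deriv (fj f j)) := (contDiff_infty_iff_deriv.mp h1).2
      have d2 : ContDiff ℝ ∞ (deriv (deriv (fj f j))) := (contDiff_infty_iff_deriv.mp d1).2
      have e : fj f (j + 1) = fun z => -(1 / 2) * deriv (deriv (fj f j)) z := rfl
      have s1 : tsupport (fj f (j + 1)) ⊆ Ioo 2 3 := by
        rw [e]
        refine (closure_minimal ?_ isClosed_closure :
          tsupport (fun z => -(1 / 2) * deriv (deriv (fj f j)) z) ⊆
            tsupport (deriv (deriv (fj f j)))).trans ?_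
        · intro z hz
          apply subset_tsupport
          intro h0
          apply hz
          show -(1 / 2) * deriv (deriv (fj f j)) z = 0
          rw [h0, mul_zero]
        · exact ((tsupport_deriv _).trans (tsupport_deriv _)).trans h3
      refine ⟨?_, ?_, s1⟩
      · rw [e]
        exact contDiff_const.mul d2
      · exact HasCompactSupport.of_support_subset_isCompact (isCompact_Icc (a := (2:ℝ)) (b := 3))
          (((subset_tsupport _).trans s1).trans Ioo_subset_Icc_self)

end N_fj_facts

end Pool.Agent.Helper459.SK
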