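import Mathlib
import Pool.Agent.Helper459.SK.Defs
import Pool.Agent.Helper459.SK.L_test_l2

set_option autoImplicit false

noncomputable section

open MeasureTheory Set Filter Topology
open scoped ContDiff ComplexConjugate

namespace Pool.Agent.Helper459.SK
open N_test_l2

namespace N_four_rep

theorem fr_ae {n : ℕ} {u : E n → ℂ} (h : MemLp u 2 (volume : Measure (E n))) :
    (toL2 u : E n → ℂ) =ᵐ[volume] u := by
  unfold toL2
  rw [dif_pos h]
  exact h.coeFn_toLp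

theorem fr_mem {n : ℕ} {u : E n → ℂ} (hc : Continuous u) (hs : HasCompactSupport u) :
    MemLp u 2 (volume : Measure (E n)) :=
  hc.memLp_of_hasCompactSupport hs

theorem fr_norm (φ : E 2 → ℂ) (ξ x : E 2) : ‖wpk φ ξ x‖ = ‖φ x‖ := by
  unfold wpk
  rw [norm_mul, Complex.norm_exp_I_mul_ofReal, mul_one]

theorem fr_wc {φ : E 2 → ℂ} (hφ : IsTest φ) (ξ : E 2) : Continuous (wpk φ ξ) := by
  have h1 : Continuous φ := hφ.smooth.continuous
  unfold wpk
  fun_prop

theorem fr_ws {φ : E 2 → ℂ} (hφ : IsTest φ) (ξ : E 2) : HasCompactSupport (wpk φ ξ) := by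
  unfold wpk
  exact hφ.cpt.mul_right

theorem fr_wm {φ : E 2 → ℂ} (hφ : IsTest φ) (ξ : E 2) :
    MemLp (wpk φ ξ) 2 (volume : Measure (E 2)) := fr_mem (fr_wc hφ ξ) (fr_ws hφ ξ)

theorem fr_bd {φ : E 2 → ℂ} (hφ : IsTest φ) (ξ : E 2) : ‖toL2 (wpk φ ξ)‖ ≤ ‖toL2 φ‖ := by
  apply Lp.norm_le_norm_of_ae_le
  filter_upwards [fr_ae (fr_wm hφ ξ), fr_ae (fr_mem hφ.smooth.continuous hφ.cpt)] with x h1 h2
  rw [h1, h2, fr_norm]

theorem fr_exp (a b : ℝ) : ‖Complex.exp (Complex.I * (a : ℂ)) - Complex.exp (Complex.I * (b : ℂ))‖ ≤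
    |a - b| := by
  have e : Complex.exp (Complex.I * (a : ℂ)) - Complex.exp (Complex.I * (b : ℂ)) =
      Complex.exp (Complex.I * (b : ℂ)) * (Complex.exp (Complex.I * ((a - b : ℝ) : ℂ)) - 1) := by
    rw [mul_sub, ← Complex.exp_add, mul_one]
    congr 2
    push_cast
    ring
  rw [e, norm_mul, Complex.norm_exp_I_mul_ofReal, one_mul]
  exact Real.norm_exp_I_mul_ofReal_sub_one_le

theorem fr_cont {φ : E 2 → ℂ} (hφ : IsTest φ) : Continuous (fun ξ : E 2 => toL2 (wpk φ ξ)) := by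
  have hc : Continuous (fun x : E 2 => ((‖x‖ : ℝ) : ℂ) * φ x) := by
    have h1 : Continuous φ := hφ.smooth.continuous
    fun_prop
  have hs : HasCompactSupport (fun x : E 2 => ((‖x‖ : ℝ) : ℂ) * φ x) := hφ.cpt.mul_left
  have hm := fr_mem hc hs
  refine (LipschitzWith.of_dist_le' (K := ‖toL2 (fun x : E 2 => ((‖x‖ : ℝ) : ℂ) * φ x)‖)
    fun ξ ζ => ?_).continuous
  rw [dist_eq_norm, dist_eq_norm, mul_comm]
  apply Lp.norm_le_mul_norm_of_ae_le_mul
  filter_upwards [Lp.coeFn_sub (toL2 (wpk φ ξ)) (toL2 (wpk φ ζ)), fr_ae (fr_wm hφ ξ),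
    fr_ae (fr_wm hφ ζ), fr_ae hm] with x h1 h2 h3 h4
  rw [h1, Pi.sub_apply, h2, h3, h4]
  unfold wpk
  rw [← mul_sub, norm_mul, norm_mul, Complex.norm_real, norm_norm]
  have h5 := fr_exp (inner ℝ ξ x) (inner ℝ ζ x)
  have h6 : |inner ℝ ξ x - inner ℝ ζ x| ≤ ‖ξ - ζ‖ * ‖x‖ := by
    rw [← inner_sub_left]
    exact abs_real_inner_le_norm _ _
  calc ‖φ x‖ * _ ≤ ‖φ x‖ * (‖ξ - ζ‖ * ‖x‖) :=
        mul_le_mul_of_nonneg_left (h5.trans h6) (norm_nonneg _)
    _ = ‖ξ - ζ‖ * (‖x‖ * ‖φ x‖) := by ring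

/-- the Fourier transform in the form of the statement -/
def fG (g : E 2 → ℂ) (ξ : E 2) : ℂ :=
  ∫ x, g x * Complex.exp (-(Complex.I * ((inner ℝ ((2 * Real.pi) • ξ) x : ℝ) : ℂ)))

open scoped FourierTransform in
theorem fr_G (g : E 2 → ℂ) : fG g = 𝓕 g := by
  ext ξ
  rw [Real.fourier_eq']
  unfold fG
  refine integral_congr_ae (Eventually.of_forall fun x => ?_)
  simp only [smul_eq_mul]
  rw [mul_comm]
  congr 2
  rw [real_inner_smul_left, real_inner_comm]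
  push_cast
  ring

open scoped FourierTransform in
theorem fr_int {g : E 2 → ℂ} (hg : IsTest g) : Integrable (fG g) := by
  rw [fr_G]
  have := (𝓕 (hg.cpt.toSchwartzMap hg.smooth)).integrable (μ := volume)
  exact this

open scoped FourierTransform in
theorem fr_inv {g : E 2 → ℂ} (hg : IsTest g) (x : E 2) :
    ∫ ξ, fG g ξ * Complex.exp (Complex.I * ((inner ℝ ((2 * Real.pi) • ξ) x : ℝ) : ℂ)) = g x := by
  have hi : Integrable g := hg.smooth.continuous.integrable_of_hasCompactSupport hg.cpt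
  have h1 : 𝓕⁻ (𝓕 g) = g := hg.smooth.continuous.fourierInv_fourier_eq hi (by
    rw [← fr_G]; exact fr_int hg)
  have h2 := congrFun h1 x
  rw [Real.fourierInv_eq'] at h2
  rw [← h2, fr_G]
  refine integral_congr_ae (Eventually.of_forall fun ξ => ?_)
  simp only [smul_eq_mul]
  rw [mul_comm]
  congr 2
  rw [real_inner_smul_left]
  push_cast
  ring

theorem four_rep (φ g : E 2 → ℂ) (hφ : IsTest φ) (hg : IsTest g) :
    Integrable (fun ξ : E 2 => ∫ x, g x * Complex.exp (-(Complex.I * ((inner ℝ ((2 * Real.pi) • ξ) x : ℝ) : ℂ)))) ∧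
    Continuous (fun ξ : E 2 => toL2 (wpk φ ξ)) ∧ (∃ C : ℝ, ∀ ξ : E 2, ‖toL2 (wpk φ ξ)‖ ≤ C) ∧
    toL2 (fun x => φ x * g x) = ∫ ξ : E 2, (∫ x, g x * Complex.exp (-(Complex.I * ((inner ℝ ((2 * Real.pi) • ξ) x : ℝ) : ℂ)))) •
      toL2 (wpk φ ((2 * Real.pi) • ξ)) := by
  have hV := fr_cont hφ
  have hVb : ∀ ξ : E 2, ‖toL2 (wpk φ ξ)‖ ≤ ‖toL2 φ‖ := fr_bd hφ
  have hGi := fr_int hg
  refine ⟨hGi, hV, ⟨_, hVb⟩, ?_⟩
  change toL2 (fun x => φ x * g x) = ∫ ξ : E 2, fG g ξ • toL2 (wpk φ ((2 * Real.pi) • ξ))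
  have hV2 : Continuous (fun ξ : E 2 => toL2 (wpk φ ((2 * Real.pi) • ξ))) :=
    hV.comp (continuous_const_smul _)
  have hint : Integrable (fun ξ : E 2 => fG g ξ • toL2 (wpk φ ((2 * Real.pi) • ξ))) :=
    hGi.smul_bdd _ hV2.aestronglyMeasurable (Eventually.of_forall fun ξ => hVb _)
  refine ext_inner_left ℂ fun h => ?_
  rw [← integral_inner hint h]
  simp_rw [inner_smul_right]
  have cφ : Continuous φ := hφ.smooth.continuous
  have cg : Continuous g := hg.smooth.continuous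
  have hk : Integrable (fun x => conj ((h : E 2 → ℂ) x) * φ x) := by
    have h1 := L2.integrable_inner (𝕜 := ℂ) h (toL2 φ)
    refine h1.congr ?_
    filter_upwards [fr_ae (fr_mem cφ hφ.cpt)] with x hx
    rw [hx, RCLike.inner_apply]
    ring
  have hin : ∀ ξ : E 2, inner ℂ h (toL2 (wpk φ ((2 * Real.pi) • ξ))) =
      ∫ x, (conj ((h : E 2 → ℂ) x) * φ x) *
        Complex.exp (Complex.I * ((inner ℝ ((2 * Real.pi) • ξ) x : ℝ) : ℂ)) := by
    intro ξ
    rw [L2.inner_def]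
    refine integral_congr_ae ?_
    filter_upwards [fr_ae (fr_wm hφ ((2 * Real.pi) • ξ))] with x hx
    rw [hx, RCLike.inner_apply]
    unfold wpk
    ring
  have hfg : inner ℂ h (toL2 (fun x => φ x * g x)) =
      ∫ x, (conj ((h : E 2 → ℂ) x) * φ x) * g x := by
    rw [L2.inner_def]
    refine integral_congr_ae ?_
    filter_upwards [fr_ae (fr_mem (u := fun x => φ x * g x) (cφ.mul cg) (hφ.cpt.mul_right))] with x hx
    rw [hx, RCLike.inner_apply]
    ring
  rw [hfg]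
  simp_rw [hin]
  have hprod : Integrable (Function.uncurry fun (ξ x : E 2) => fG g ξ *
      ((conj ((h : E 2 → ℂ) x) * φ x) *
        Complex.exp (Complex.I * ((inner ℝ ((2 * Real.pi) • ξ) x : ℝ) : ℂ))))
      ((volume : Measure (E 2)).prod (volume : Measure (E 2))) := by
    have h1 := hGi.mul_prod hk
    have hc : Continuous (fun p : E 2 × E 2 =>
        Complex.exp (Complex.I * ((inner ℝ ((2 * Real.pi) • p.1) p.2 : ℝ) : ℂ))) := by
      fun_prop
    have h2 := h1.mul_bdd (c := 1) hc.aestronglyMeasurable (Eventually.of_forall fun p => by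
      rw [Complex.norm_exp_I_mul_ofReal])
    refine h2.congr (Eventually.of_forall fun p => ?_)
    simp only [Function.uncurry]
    ring
  have e1 : ∀ ξ : E 2, fG g ξ * ∫ x, (conj ((h : E 2 → ℂ) x) * φ x) *
        Complex.exp (Complex.I * ((inner ℝ ((2 * Real.pi) • ξ) x : ℝ) : ℂ)) =
      ∫ x, fG g ξ * ((conj ((h : E 2 → ℂ) x) * φ x) *
        Complex.exp (Complex.I * ((inner ℝ ((2 * Real.pi) • ξ) x : ℝ) : ℂ))) := by
    intro ξ
    rw [integral_const_mul]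
  simp_rw [e1]
  rw [integral_integral_swap hprod]
  refine integral_congr_ae (Eventually.of_forall fun x => ?_)
  simp only
  have e2 : ∀ ξ : E 2, fG g ξ * ((conj ((h : E 2 → ℂ) x) * φ x) *
        Complex.exp (Complex.I * ((inner ℝ ((2 * Real.pi) • ξ) x : ℝ) : ℂ))) =
      (conj ((h : E 2 → ℂ) x) * φ x) * (fG g ξ *
        Complex.exp (Complex.I * ((inner ℝ ((2 * Real.pi) • ξ) x : ℝ) : ℂ))) := by
    intro ξ
    ring
  simp_rw [e2]
  rw [integral_const_mul, fr_inv hg]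

end N_four_rep

end Pool.Agent.Helper459.SK
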