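import Mathlib
import Pool.Agent.Helper459.SK.Defs

set_option autoImplicit false

noncomputable section

open MeasureTheory Set Filter Topology
open scoped ContDiff ComplexConjugate

namespace Pool.Agent.Helper459.SK

namespace N_np_step

def np_step_F (φ : E 2 → ℝ) (j : Fin 2) (p : E 2 × (ℝ × E 2)) : ℝ :=
  p.2.1 * fderiv ℝ φ p.1 (EuclideanSpace.single j 1) - p.2.2 j

def np_step_h (δ r : ℝ) : ℝ := Real.smoothTransition (2 * r / δ ^ 2 - 1) * r⁻¹

def np_step_S (φ : E 2 → ℝ) (p : E 2 × (ℝ × E 2)) : ℝ := ∑ j, np_step_F φ j p ^ 2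

def np_step_b (φ : E 2 → ℝ) (δ : ℝ) (a : E 2 × (ℝ × E 2) → ℂ) (j : Fin 2)
    (p : E 2 × (ℝ × E 2)) : ℂ :=
  a p * ((np_step_F φ j p * np_step_h δ (np_step_S φ p) : ℝ) : ℂ)

def np_step_a (φ : E 2 → ℝ) (δ : ℝ) (a : E 2 × (ℝ × E 2) → ℂ) (p : E 2 × (ℝ × E 2)) : ℂ :=
  Complex.I * ∑ j, fderiv ℝ (np_step_b φ δ a j) p (EuclideanSpace.single j 1, 0)

theorem np_step_h_eq (δ : ℝ) (hδ : 0 < δ) (r : ℝ) (hr : δ ^ 2 ≤ r) : np_step_h δ r = r⁻¹ := by
  unfold np_step_h
  rw [Real.smoothTransition.one_of_one_le, one_mul]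
  have : 0 < δ ^ 2 := by positivity
  have h2 : 2 ≤ 2 * r / δ ^ 2 := by
    rw [le_div_iff₀ this]; linarith
  linarith

theorem np_step_h_smooth (δ : ℝ) (hδ : 0 < δ) : ContDiff ℝ ∞ (np_step_h δ) := by
  have hd : 0 < δ ^ 2 := by positivity
  rw [contDiff_iff_contDiffAt]
  intro r
  rcases lt_or_ge r (δ ^ 2 / 2) with h | h
  · have : np_step_h δ =ᶠ[𝓝 r] fun _ => 0 := by
      filter_upwards [Iio_mem_nhds h] with s hs
      unfold np_step_h
      rw [Real.smoothTransition.zero_of_nonpos, zero_mul]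
      have hs' : s < δ ^ 2 / 2 := hs
      have : 2 * s / δ ^ 2 ≤ 1 := by
        rw [div_le_one hd]; linarith
      linarith
    exact contDiffAt_const.congr_of_eventuallyEq this
  · have hr : r ≠ 0 := by
      have : 0 < r := lt_of_lt_of_le (by positivity) h
      exact this.ne'
    have h1 : ContDiff ℝ ∞ (fun s : ℝ => Real.smoothTransition (2 * s / δ ^ 2 - 1)) :=
      Real.smoothTransition.contDiff.comp (by fun_prop)
    exact h1.contDiffAt.mul (contDiffAt_inv ℝ hr)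

theorem np_step_F_smooth (φ : E 2 → ℝ) (hφ : ContDiff ℝ ∞ φ) (j : Fin 2) :
    ContDiff ℝ ∞ (np_step_F φ j) := by
  have h1 : ContDiff ℝ ∞ (fun p : E 2 × (ℝ × E 2) => fderiv ℝ φ p.1 (EuclideanSpace.single j 1)) :=
    ((hφ.fderiv_right (m := ∞) (by simp)).comp contDiff_fst).clm_apply contDiff_const
  have h2 : ContDiff ℝ ∞ (fun p : E 2 × (ℝ × E 2) => p.2.1) := contDiff_fst.comp contDiff_snd
  have h3 : ContDiff ℝ ∞ (fun p : E 2 × (ℝ × E 2) => p.2.2 j) :=
    (EuclideanSpace.proj (𝕜 := ℝ) j).contDiff.comp (contDiff_snd.comp contDiff_snd)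
  exact (h2.mul h1).sub h3

theorem np_step_S_smooth (φ : E 2 → ℝ) (hφ : ContDiff ℝ ∞ φ) : ContDiff ℝ ∞ (np_step_S φ) := by
  unfold np_step_S
  exact ContDiff.sum fun j _ => (np_step_F_smooth φ hφ j).pow 2

theorem np_step_b_smooth (φ : E 2 → ℝ) (hφ : ContDiff ℝ ∞ φ) (δ : ℝ) (hδ : 0 < δ)
    (a : E 2 × (ℝ × E 2) → ℂ) (ha : ContDiff ℝ ∞ a) (j : Fin 2) :
    ContDiff ℝ ∞ (np_step_b φ δ a j) :=
  ha.mul (Complex.ofRealCLM.contDiff.comp ((np_step_F_smooth φ hφ j).mul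
    ((np_step_h_smooth δ hδ).comp (np_step_S_smooth φ hφ))))

theorem np_step_a_smooth (φ : E 2 → ℝ) (hφ : ContDiff ℝ ∞ φ) (δ : ℝ) (hδ : 0 < δ)
    (a : E 2 × (ℝ × E 2) → ℂ) (ha : ContDiff ℝ ∞ a) :
    ContDiff ℝ ∞ (np_step_a φ δ a) :=
  contDiff_const.mul (ContDiff.sum fun j _ =>
    ((np_step_b_smooth φ hφ δ hδ a ha j).fderiv_right (m := ∞) (by simp)).clm_apply contDiff_const)

theorem np_step_b_zero (K : Set (E 2)) (φ : E 2 → ℝ) (δ : ℝ)
    (a : E 2 × (ℝ × E 2) → ℂ) (ha' : ∀ x q, x ∉ K → a (x, q) = 0) (j : Fin 2) (x : E 2)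
    (q : ℝ × E 2) (hx : x ∉ K) : np_step_b φ δ a j (x, q) = 0 := by
  unfold np_step_b
  rw [ha' x q hx, zero_mul]

theorem np_step_db_zero (K : Set (E 2)) (hK : IsCompact K) (φ : E 2 → ℝ) (δ : ℝ)
    (a : E 2 × (ℝ × E 2) → ℂ) (ha' : ∀ x q, x ∉ K → a (x, q) = 0) (j : Fin 2) (x : E 2)
    (q : ℝ × E 2) (hx : x ∉ K) : fderiv ℝ (np_step_b φ δ a j) (x, q) = 0 := by
  have h : np_step_b φ δ a j =ᶠ[𝓝 (x, q)] fun _ => 0 := by
    have ho : IsOpen ((Prod.fst : E 2 × (ℝ × E 2) → E 2) ⁻¹' Kᶜ) :=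
      hK.isClosed.isOpen_compl.preimage continuous_fst
    filter_upwards [ho.mem_nhds (show (x, q) ∈ Prod.fst ⁻¹' Kᶜ from hx)] with p hp
    exact np_step_b_zero K φ δ a ha' j p.1 p.2 hp
  rw [h.fderiv_eq]
  simp

theorem np_step_db (φ : E 2 → ℝ) (hφ : ContDiff ℝ ∞ φ) (δ : ℝ) (hδ : 0 < δ)
    (a : E 2 × (ℝ × E 2) → ℂ) (ha : ContDiff ℝ ∞ a) (j : Fin 2) (q : ℝ × E 2) (x v : E 2) :
    fderiv ℝ (fun y => np_step_b φ δ a j (y, q)) x v
      = fderiv ℝ (np_step_b φ δ a j) (x, q) (v, 0) := by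
  have h1 : HasFDerivAt (np_step_b φ δ a j) (fderiv ℝ (np_step_b φ δ a j) (x, q)) (x, q) :=
    (((np_step_b_smooth φ hφ δ hδ a ha j).differentiable (by simp)) (x, q)).hasFDerivAt
  have h2 : HasFDerivAt (fun y : E 2 => (y, q)) (ContinuousLinearMap.inl ℝ (E 2) (ℝ × E 2)) x :=
    hasFDerivAt_prodMk_left x q
  have h3 := h1.comp x h2
  have h4 : fderiv ℝ (fun y => np_step_b φ δ a j (y, q)) x
      = (fderiv ℝ (np_step_b φ δ a j) (x, q)).comp (ContinuousLinearMap.inl ℝ (E 2) (ℝ × E 2)) :=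
    h3.fderiv
  rw [h4]
  simp

theorem np_step_u (φ : E 2 → ℝ) (hφ : ContDiff ℝ ∞ φ) (q : ℝ × E 2) (L : ℝ) (x : E 2)
    (j : Fin 2) :
    fderiv ℝ (fun x => Complex.exp (Complex.I * ((L * (q.1 * φ x - inner ℝ q.2 x) : ℝ) : ℂ))) x
      (EuclideanSpace.single j 1)
      = Complex.exp (Complex.I * ((L * (q.1 * φ x - inner ℝ q.2 x) : ℝ) : ℂ)) *
        (Complex.I * ((L * np_step_F φ j (x, q) : ℝ) : ℂ)) := by
  have h1 : HasFDerivAt φ (fderiv ℝ φ x) x := ((hφ.differentiable (by simp)) x).hasFDerivAt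
  have h2 : HasFDerivAt (fun x : E 2 => inner ℝ q.2 x) (innerSL ℝ q.2) x :=
    (innerSL ℝ q.2).hasFDerivAt
  have h3 : HasFDerivAt (fun x : E 2 => L * (q.1 * φ x - inner ℝ q.2 x))
      (L • (q.1 • fderiv ℝ φ x - innerSL ℝ q.2)) x := by
    have := ((h1.const_mul q.1).sub h2).const_mul L
    exact this
  have h3' : HasFDerivAt (fun x : E 2 => ((L * (q.1 * φ x - inner ℝ q.2 x) : ℝ) : ℂ))
      (Complex.ofRealCLM.comp (L • (q.1 • fderiv ℝ φ x - innerSL ℝ q.2))) x :=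
    (Complex.ofRealCLM.hasFDerivAt (x := L * (q.1 * φ x - inner ℝ q.2 x))).comp x h3
  have h4 := (h3'.const_mul Complex.I).cexp
  rw [h4.fderiv]
  simp only [ContinuousLinearMap.smul_apply, ContinuousLinearMap.comp_apply, smul_eq_mul,
    ContinuousLinearMap.sub_apply, Complex.ofRealCLM_apply, innerSL_apply_apply]
  unfold np_step_F
  rw [EuclideanSpace.inner_single_right]
  simp

theorem np_step_S_eq (φ : E 2 → ℝ) (q : ℝ × E 2) (x : E 2) :
    np_step_S φ (x, q) = ‖q.2 - q.1 • gradient φ x‖ ^ 2 := by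
  rw [EuclideanSpace.real_norm_sq_eq]
  unfold np_step_S np_step_F
  apply Finset.sum_congr rfl
  intro j _
  have h : (gradient φ x) j = fderiv ℝ φ x (EuclideanSpace.single j 1) := by
    rw [← inner_gradient_left, EuclideanSpace.inner_single_right]
    simp
  simp only [PiLp.sub_apply, PiLp.smul_apply, smul_eq_mul]
  rw [h]
  ring

theorem np_step (K : Set (E 2)) (hK : IsCompact K) (φ : E 2 → ℝ) (hφ : ContDiff ℝ ∞ φ) (δ : ℝ) (hδ : 0 < δ)
    (a : E 2 × (ℝ × E 2) → ℂ) (ha : ContDiff ℝ ∞ a) (ha' : ∀ x q, x ∉ K → a (x, q) = 0) :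
    ∃ a' : E 2 × (ℝ × E 2) → ℂ, ContDiff ℝ ∞ a' ∧ (∀ x q, x ∉ K → a' (x, q) = 0) ∧
      ∀ (q : ℝ × E 2) (L : ℝ), 0 < L → (∀ x ∈ K, δ ≤ ‖q.2 - q.1 • gradient φ x‖) →
        ∫ x, a (x, q) * Complex.exp (Complex.I * ((L * (q.1 * φ x - inner ℝ q.2 x) : ℝ) : ℂ)) =
        (L : ℂ)⁻¹ * ∫ x, a' (x, q) * Complex.exp (Complex.I * ((L * (q.1 * φ x - inner ℝ q.2 x) : ℝ) : ℂ)) := by
  refine ⟨np_step_a φ δ a, np_step_a_smooth φ hφ δ hδ a ha, ?_, ?_⟩
  · intro x q hx
    unfold np_step_a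
    simp [np_step_db_zero K hK φ δ a ha' _ x q hx]
  intro q L hL H
  set u : E 2 → ℂ := fun x =>
    Complex.exp (Complex.I * ((L * (q.1 * φ x - inner ℝ q.2 x) : ℝ) : ℂ)) with hu
  have hus : ContDiff ℝ ∞ u := by
    have h1 : ContDiff ℝ ∞ (fun x : E 2 => inner ℝ q.2 x) := (innerSL ℝ q.2).contDiff
    have h2 : ContDiff ℝ ∞ (fun x : E 2 => L * (q.1 * φ x - inner ℝ q.2 x)) :=
      contDiff_const.mul ((contDiff_const.mul hφ).sub h1)
    exact (contDiff_const.mul (Complex.ofRealCLM.contDiff.comp h2)).cexp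
  have hbs : ∀ j, ContDiff ℝ ∞ (fun y => np_step_b φ δ a j (y, q)) := fun j =>
    (np_step_b_smooth φ hφ δ hδ a ha j).comp (contDiff_id.prodMk contDiff_const)
  have hbz : ∀ j x, x ∉ K → np_step_b φ δ a j (x, q) = 0 := fun j x hx =>
    np_step_b_zero K φ δ a ha' j x q hx
  have hdz : ∀ j x, x ∉ K → fderiv ℝ (fun y => np_step_b φ δ a j (y, q)) x
      (EuclideanSpace.single j 1) = 0 := fun j x hx => by
    rw [np_step_db φ hφ δ hδ a ha, np_step_db_zero K hK φ δ a ha' j x q hx]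
    simp
  have hdu : Continuous (fun x => fderiv ℝ u x) := hus.continuous_fderiv (by simp)
  have hdb : ∀ j, Continuous (fun x => fderiv ℝ (fun y => np_step_b φ δ a j (y, q)) x) :=
    fun j => (hbs j).continuous_fderiv (by simp)
  have hcu : Continuous u := hus.continuous
  have i1 : ∀ j, Integrable (fun x => fderiv ℝ (fun y => np_step_b φ δ a j (y, q)) x
      (EuclideanSpace.single j 1) * u x) := fun j => by
    apply Continuous.integrable_of_hasCompactSupport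
    · exact ((hdb j).clm_apply continuous_const).mul hcu
    · exact HasCompactSupport.intro hK (fun x hx => by rw [hdz j x hx, zero_mul])
  have i2 : ∀ j, Integrable (fun x => np_step_b φ δ a j (x, q) *
      fderiv ℝ u x (EuclideanSpace.single j 1)) := fun j => by
    apply Continuous.integrable_of_hasCompactSupport
    · exact (hbs j).continuous.mul (hdu.clm_apply continuous_const)
    · exact HasCompactSupport.intro hK (fun x hx => by rw [hbz j x hx, zero_mul])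
  have i3 : ∀ j, Integrable (fun x => np_step_b φ δ a j (x, q) * u x) := fun j => by
    apply Continuous.integrable_of_hasCompactSupport
    · exact (hbs j).continuous.mul hcu
    · exact HasCompactSupport.intro hK (fun x hx => by rw [hbz j x hx, zero_mul])
  have hparts : ∀ j, ∫ x, np_step_b φ δ a j (x, q) * fderiv ℝ u x (EuclideanSpace.single j 1)
      = - ∫ x, fderiv ℝ (fun y => np_step_b φ δ a j (y, q)) x (EuclideanSpace.single j 1) * u x :=
    fun j => integral_mul_fderiv_eq_neg_fderiv_mul_of_integrable (i1 j) (i2 j) (i3 j)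
      (fun x _ => ((hbs j).differentiable (by simp)) x)
      (fun x _ => (hus.differentiable (by simp)) x)
  have hpt : ∀ x, ∑ j, np_step_b φ δ a j (x, q) * fderiv ℝ u x (EuclideanSpace.single j 1)
      = Complex.I * (L : ℂ) * (a (x, q) * u x) := by
    intro x
    by_cases hx : x ∈ K
    · have h1 : δ ^ 2 ≤ np_step_S φ (x, q) := by
        rw [np_step_S_eq]
        exact pow_le_pow_left₀ hδ.le (H x hx) 2
      have h2 : np_step_h δ (np_step_S φ (x, q)) = (np_step_S φ (x, q))⁻¹ :=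
        np_step_h_eq δ hδ _ h1
      have h3 : np_step_S φ (x, q) ≠ 0 := by
        have : 0 < δ ^ 2 := by positivity
        exact (lt_of_lt_of_le this h1).ne'
      have h4 : ∀ j : Fin 2, np_step_b φ δ a j (x, q) * fderiv ℝ u x (EuclideanSpace.single j 1)
          = Complex.I * (L : ℂ) * (a (x, q) * u x) *
            ((np_step_F φ j (x, q) ^ 2 * (np_step_S φ (x, q))⁻¹ : ℝ) : ℂ) := by
        intro j
        rw [hu, np_step_u φ hφ q L x j]
        unfold np_step_b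
        rw [h2]
        push_cast
        ring
      rw [Finset.sum_congr rfl (fun j _ => h4 j), ← Finset.mul_sum, ← Complex.ofReal_sum,
        ← Finset.sum_mul]
      have h5 : (∑ i, np_step_F φ i (x, q) ^ 2) * (np_step_S φ (x, q))⁻¹ = 1 := by
        change np_step_S φ (x, q) * (np_step_S φ (x, q))⁻¹ = 1
        exact mul_inv_cancel₀ h3
      rw [h5]
      simp
    · simp [hbz _ x hx, ha' x q hx]
  have hL' : (L : ℂ) ≠ 0 := by exact_mod_cast hL.ne'
  have hmain : ∫ x, np_step_a φ δ a (x, q) * u x = (L : ℂ) * ∫ x, a (x, q) * u x := by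
    have e1 : ∀ x, np_step_a φ δ a (x, q) * u x = Complex.I *
        ∑ j, fderiv ℝ (fun y => np_step_b φ δ a j (y, q)) x (EuclideanSpace.single j 1) * u x := by
      intro x
      unfold np_step_a
      rw [mul_assoc, Finset.sum_mul]
      congr 1
      apply Finset.sum_congr rfl
      intro j _
      rw [np_step_db φ hφ δ hδ a ha]
    simp_rw [e1]
    rw [integral_const_mul, integral_finsetSum _ (fun j _ => i1 j)]
    have e2 : ∀ j, ∫ x, fderiv ℝ (fun y => np_step_b φ δ a j (y, q)) x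
        (EuclideanSpace.single j 1) * u x
        = - ∫ x, np_step_b φ δ a j (x, q) * fderiv ℝ u x (EuclideanSpace.single j 1) := fun j => by
      rw [hparts j, neg_neg]
    simp_rw [e2]
    rw [Finset.sum_neg_distrib, ← integral_finsetSum _ (fun j _ => i2 j)]
    simp_rw [hpt]
    rw [integral_const_mul]
    linear_combination (-(L : ℂ) * ∫ x, a (x, q) * u x) * Complex.I_mul_I
  rw [hmain, ← mul_assoc, inv_mul_cancel₀ hL', one_mul]

end N_np_step

end Pool.Agent.Helper459.SK
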