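import Mathlib
import Pool.Agent.Helper459.SK.Defs
import Pool.Agent.Helper459.SK.L_np_step

set_option autoImplicit false

noncomputable section

open MeasureTheory Set Filter Topology
open scoped ContDiff ComplexConjugate

namespace Pool.Agent.Helper459.SK
open N_np_step

namespace N_np

theorem np_bd (K : Set (E 2)) (hK : IsCompact K) (f : E 2 → ℂ) (B : ℝ) (hB : ∀ x ∈ K, ‖f x‖ ≤ B)
    (hf : ∀ x, x ∉ K → f x = 0) (θ : E 2 → ℝ) :
    ‖∫ x, f x * Complex.exp (Complex.I * ((θ x : ℝ) : ℂ))‖ ≤ B * (volume K).toReal := by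
  have h1 : ∀ x, ‖f x * Complex.exp (Complex.I * ((θ x : ℝ) : ℂ))‖ ≤ K.indicator (fun _ => B) x := by
    intro x
    have he : ‖Complex.exp (Complex.I * ((θ x : ℝ) : ℂ))‖ = 1 := Complex.norm_exp_I_mul_ofReal _
    rw [norm_mul, he, mul_one]
    by_cases hx : x ∈ K
    · rw [Set.indicator_of_mem hx]
      exact hB x hx
    · rw [Set.indicator_of_notMem hx, hf x hx, norm_zero]
  have hi : Integrable (K.indicator (fun _ => B)) (volume : Measure (E 2)) := by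
    rw [integrable_indicator_iff hK.measurableSet]
    exact integrableOn_const hK.measure_lt_top.ne
  refine (norm_integral_le_of_norm_le hi (Filter.Eventually.of_forall h1)).trans (le_of_eq ?_)
  rw [integral_indicator hK.measurableSet, setIntegral_const, smul_eq_mul, mul_comm]
  rfl

theorem np_iter (K : Set (E 2)) (hK : IsCompact K) (φ : E 2 → ℝ) (hφ : ContDiff ℝ ∞ φ) (δ : ℝ)
    (hδ : 0 < δ) (a : E 2 × (ℝ × E 2) → ℂ) (ha : ContDiff ℝ ∞ a)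
    (ha' : ∀ x q, x ∉ K → a (x, q) = 0) (N : ℕ) :
    ∃ a' : E 2 × (ℝ × E 2) → ℂ, ContDiff ℝ ∞ a' ∧ (∀ x q, x ∉ K → a' (x, q) = 0) ∧
      ∀ (q : ℝ × E 2) (L : ℝ), 0 < L → (∀ x ∈ K, δ ≤ ‖q.2 - q.1 • gradient φ x‖) →
        ∫ x, a (x, q) * Complex.exp (Complex.I * ((L * (q.1 * φ x - inner ℝ q.2 x) : ℝ) : ℂ)) =
        ((L : ℂ)⁻¹) ^ N *
          ∫ x, a' (x, q) * Complex.exp (Complex.I * ((L * (q.1 * φ x - inner ℝ q.2 x) : ℝ) : ℂ)) := by
  induction N with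
  | zero => exact ⟨a, ha, ha', fun q L _ _ => by rw [pow_zero, one_mul]⟩
  | succ N ih =>
    obtain ⟨b, hb, hb', h1⟩ := ih
    obtain ⟨c, hc, hc', h2⟩ := np_step K hK φ hφ δ hδ b hb hb'
    refine ⟨c, hc, hc', fun q L hL hq => ?_⟩
    rw [h1 q L hL hq, h2 q L hL hq, pow_succ, mul_assoc]

theorem np_cb (K : Set (E 2)) (hK : IsCompact K) (a : E 2 × (ℝ × E 2) → ℂ) (ha : Continuous a) :
    ∃ B : ℝ, 0 ≤ B ∧ ∀ x ∈ K, ∀ q : ℝ × E 2, q.1 ∈ Icc (0:ℝ) 1 → ‖q.2‖ ≤ 1 → ‖a (x, q)‖ ≤ B := by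
  obtain ⟨B, hB⟩ := (hK.prod ((isCompact_Icc (a := (0:ℝ)) (b := 1)).prod
    (isCompact_closedBall (0 : E 2) 1))).exists_bound_of_continuousOn ha.continuousOn
  refine ⟨max B 0, le_max_right _ _, fun x hx q h1 h2 => ?_⟩
  refine (hB (x, q) ⟨hx, h1, ?_⟩).trans (le_max_left _ _)
  rw [mem_closedBall_zero_iff]
  exact h2

theorem np (a : E 2 → ℂ) (ha : IsTest a) (φ : E 2 → ℝ) (hφ : ContDiff ℝ ∞ φ) (δ : ℝ) (hδ : 0 < δ) (N : ℕ) :
    ∃ C : ℝ, ∀ (m : ℝ) (ξ : E 2), 0 ≤ m → (∀ x ∈ tsupport a, δ * (m + ‖ξ‖) ≤ ‖ξ - m • gradient φ x‖) →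
      ‖∫ x, a x * Complex.exp (Complex.I * ((m * φ x - inner ℝ ξ x : ℝ) : ℂ))‖ * (1 + m + ‖ξ‖) ^ N ≤ C := by
  have hK : IsCompact (tsupport a) := ha.2
  have hsm : ContDiff ℝ ∞ a := ha.1
  have ha0 : ContDiff ℝ ∞ (fun p : E 2 × (ℝ × E 2) => a p.1) := hsm.comp contDiff_fst
  have ha0' : ∀ (x : E 2) (q : ℝ × E 2), x ∉ tsupport a →
      (fun p : E 2 × (ℝ × E 2) => a p.1) (x, q) = 0 := fun x q hx =>
    image_eq_zero_of_notMem_tsupport hx
  obtain ⟨a', hs', hz', hi'⟩ := np_iter (tsupport a) hK φ hφ δ hδ _ ha0 ha0' N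
  obtain ⟨B0, hB0, hB0'⟩ := np_cb (tsupport a) hK _ ha0.continuous
  obtain ⟨B1, hB1, hB1'⟩ := np_cb (tsupport a) hK a' hs'.continuous
  obtain ⟨V, hV⟩ : ∃ V : ℝ, V = (volume (tsupport a)).toReal := ⟨_, rfl⟩
  have hV0 : 0 ≤ V := by rw [hV]; exact ENNReal.toReal_nonneg
  refine ⟨2 ^ N * (B0 * V + B1 * V), fun m ξ hm hξ => ?_⟩
  obtain ⟨L, hL⟩ : ∃ L : ℝ, L = m + ‖ξ‖ := ⟨_, rfl⟩
  have hL0 : 0 ≤ L := by rw [hL]; positivity
  rw [show 1 + m + ‖ξ‖ = 1 + L by rw [hL]; ring]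
  rcases lt_or_ge L 1 with hL1 | hL1
  · have h1 := np_bd (tsupport a) hK a B0
      (fun x hx => hB0' x hx (0, 0) ⟨le_rfl, zero_le_one⟩ (by simp))
      (fun x hx => image_eq_zero_of_notMem_tsupport hx) (fun x => m * φ x - inner ℝ ξ x)
    rw [← hV] at h1
    have h2 : (1 + L) ^ N ≤ 2 ^ N := pow_le_pow_left₀ (by linarith) (by linarith) N
    calc _ ≤ (B0 * V) * 2 ^ N := mul_le_mul h1 h2 (by positivity) (by positivity)
      _ ≤ 2 ^ N * (B0 * V + B1 * V) := by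
        have : 0 ≤ (2:ℝ) ^ N * (B1 * V) := by positivity
        linarith
  · have hLp : 0 < L := by linarith
    have hq1 : ((m / L, L⁻¹ • ξ) : ℝ × E 2).1 ∈ Icc (0:ℝ) 1 := by
      refine ⟨by positivity, ?_⟩
      show m / L ≤ 1
      rw [div_le_one hLp, hL]
      linarith [norm_nonneg ξ]
    have hq2 : ‖((m / L, L⁻¹ • ξ) : ℝ × E 2).2‖ ≤ 1 := by
      show ‖L⁻¹ • ξ‖ ≤ 1
      rw [norm_smul, norm_inv, Real.norm_eq_abs, abs_of_pos hLp, inv_mul_le_iff₀ hLp, mul_one, hL]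
      linarith
    have hcond : ∀ x ∈ tsupport a, δ ≤ ‖((m / L, L⁻¹ • ξ) : ℝ × E 2).2 -
        ((m / L, L⁻¹ • ξ) : ℝ × E 2).1 • gradient φ x‖ := by
      intro x hx
      have h1 := hξ x hx
      rw [← hL] at h1
      show δ ≤ ‖L⁻¹ • ξ - (m / L) • gradient φ x‖
      have e : L⁻¹ • ξ - (m / L) • gradient φ x = L⁻¹ • (ξ - m • gradient φ x) := by
        rw [smul_sub, smul_smul, div_eq_inv_mul]
      rw [e, norm_smul, norm_inv, Real.norm_eq_abs, abs_of_pos hLp, le_inv_mul_iff₀ hLp]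
      linarith
    have h2 := hi' (m / L, L⁻¹ • ξ) L hLp hcond
    have h3 := np_bd (tsupport a) hK (fun x => a' (x, (m / L, L⁻¹ • ξ))) B1
      (fun x hx => hB1' x hx _ hq1 hq2) (fun x hx => hz' x _ hx)
      (fun x => L * ((m / L) * φ x - inner ℝ (L⁻¹ • ξ) x))
    have e : ∀ x : E 2, L * ((m / L) * φ x - inner ℝ (L⁻¹ • ξ) x) = m * φ x - inner ℝ ξ x := by
      intro x
      rw [inner_smul_left]
      simp only [RCLike.conj_to_real]
      field_simp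
    simp only [e] at h2 h3
    rw [h2, norm_mul, norm_pow, norm_inv, Complex.norm_real, Real.norm_eq_abs, abs_of_pos hLp]
    rw [← hV] at h3
    have h4 : (L⁻¹) ^ N * (1 + L) ^ N ≤ 2 ^ N := by
      rw [← mul_pow]
      refine pow_le_pow_left₀ (by positivity) ?_ N
      rw [inv_mul_le_iff₀ hLp]
      linarith
    calc _ = ‖∫ x, a' (x, (m / L, L⁻¹ • ξ)) *
          Complex.exp (Complex.I * ((m * φ x - inner ℝ ξ x : ℝ) : ℂ))‖ *
          ((L⁻¹) ^ N * (1 + L) ^ N) := by ring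
      _ ≤ (B1 * V) * 2 ^ N := mul_le_mul h3 h4 (by positivity) (by positivity)
      _ ≤ 2 ^ N * (B0 * V + B1 * V) := by
        have : 0 ≤ (2:ℝ) ^ N * (B0 * V) := by positivity
        linarith

end N_np

end Pool.Agent.Helper459.SK
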