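import Mathlib
import Pool.Agent.Helper459.SK.Defs
import Pool.Agent.Helper459.SK.L_four_rep

set_option autoImplicit false

noncomputable section

open MeasureTheory Set Filter Topology
open scoped ContDiff ComplexConjugate

namespace Pool.Agent.Helper459.SK
open N_four_rep

namespace N_pair_rep

theorem aux_pair {H X : Type} [NormedAddCommGroup H] [InnerProductSpace ℂ H] [CompleteSpace H]
    [MeasurableSpace X] (μ : Measure X) [SFinite μ] (S : H →L[ℂ] H) (c1 c2 : X → ℂ)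
    (W1 W2 : X → H) (hF1 : Integrable (fun ξ => c1 ξ • W1 ξ) μ)
    (hF2 : Integrable (fun ξ => c2 ξ • W2 ξ) μ) (Bd : X × X → ℝ) (hB : Integrable Bd (μ.prod μ))
    (hb : ∀ p : X × X, ‖c1 p.1‖ * ‖c2 p.2‖ * ‖inner ℂ (W1 p.1) (S (W2 p.2))‖ ≤ Bd p) :
    ‖inner ℂ (∫ ξ, c1 ξ • W1 ξ ∂μ) (S (∫ ξ, c2 ξ • W2 ξ ∂μ))‖ ≤ ∫ p, Bd p ∂(μ.prod μ) := by
  have hSF2 : Integrable (fun η => S (c2 η • W2 η)) μ := S.integrable_comp hF2
  let Φ : X × X → ℂ := fun p => inner ℂ (c1 p.1 • W1 p.1) (S (c2 p.2 • W2 p.2))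
  have hΦb : ∀ p, ‖Φ p‖ ≤ Bd p := by
    intro p
    refine le_trans (le_of_eq ?_) (hb p)
    show ‖inner ℂ (c1 p.1 • W1 p.1) (S (c2 p.2 • W2 p.2))‖ = _
    rw [map_smul, inner_smul_left, inner_smul_right, norm_mul, norm_mul, RCLike.norm_conj, mul_assoc]
  have hm1 : AEStronglyMeasurable (fun p : X × X => c1 p.1 • W1 p.1) (μ.prod μ) :=
    hF1.aestronglyMeasurable.comp_fst
  have hm2 : AEStronglyMeasurable (fun p : X × X => S (c2 p.2 • W2 p.2)) (μ.prod μ) :=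
    hSF2.aestronglyMeasurable.comp_snd
  have hΦi : Integrable Φ (μ.prod μ) :=
    Integrable.mono' hB (hm1.inner hm2) (Eventually.of_forall hΦb)
  have key : inner ℂ (∫ ξ, c1 ξ • W1 ξ ∂μ) (S (∫ η, c2 η • W2 η ∂μ)) = ∫ p, Φ p ∂(μ.prod μ) := by
    have e1 : ∫ p, Φ p ∂(μ.prod μ) = ∫ ξ, ∫ η, Φ (ξ, η) ∂μ ∂μ := integral_prod Φ hΦi
    have e2 : ∀ ξ, ∫ η, Φ (ξ, η) ∂μ = inner ℂ (c1 ξ • W1 ξ) (S (∫ η, c2 η • W2 η ∂μ)) := by
      intro ξ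
      rw [← S.integral_comp_comm hF2]
      exact integral_inner hSF2 (c1 ξ • W1 ξ)
    have e3 : ∫ ξ, inner ℂ (c1 ξ • W1 ξ) (S (∫ η, c2 η • W2 η ∂μ)) ∂μ =
        inner ℂ (∫ ξ, c1 ξ • W1 ξ ∂μ) (S (∫ η, c2 η • W2 η ∂μ)) := by
      have h := integral_inner (𝕜 := ℂ) hF1 (S (∫ η, c2 η • W2 η ∂μ))
      have h' := congrArg (starRingEnd ℂ) h
      rw [inner_conj_symm, ← integral_conj] at h'
      rw [← h']
      refine integral_congr_ae (Eventually.of_forall fun ξ => ?_)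
      exact (inner_conj_symm _ _).symm
    rw [e1, ← e3]
    exact (integral_congr_ae (Eventually.of_forall fun ξ => e2 ξ)).symm
  rw [key]
  exact norm_integral_le_of_norm_le hB (Eventually.of_forall hΦb)

theorem aux_int {H X : Type} [NormedAddCommGroup H] [InnerProductSpace ℂ H]
    [MeasurableSpace X] [TopologicalSpace X] [OpensMeasurableSpace X] [SecondCountableTopology X]
    (μ : Measure X)
    (c : X → ℂ) (W : X → H) (hc : Integrable c μ) (hW : Continuous W) (C : ℝ)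
    (hC : ∀ ξ, ‖W ξ‖ ≤ C) : Integrable (fun ξ => c ξ • W ξ) μ := by
  refine Integrable.mono' (hc.norm.mul_const C)
    (hc.aestronglyMeasurable.smul hW.aestronglyMeasurable) (Eventually.of_forall fun ξ => ?_)
  rw [norm_smul]
  exact mul_le_mul_of_nonneg_left (hC ξ) (norm_nonneg _)

theorem pair_rep (S : L2 2 →L[ℂ] L2 2) (φ₁ φ₂ g₁ g₂ : E 2 → ℂ) (h1 : IsTest φ₁) (h2 : IsTest φ₂)
    (h3 : IsTest g₁) (h4 : IsTest g₂) (Bd : E 2 × E 2 → ℝ) (hB : Integrable Bd)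
    (hb : ∀ p : E 2 × E 2,
      ‖∫ x, g₁ x * Complex.exp (-(Complex.I * ((inner ℝ ((2 * Real.pi) • p.1) x : ℝ) : ℂ)))‖ *
      ‖∫ x, g₂ x * Complex.exp (-(Complex.I * ((inner ℝ ((2 * Real.pi) • p.2) x : ℝ) : ℂ)))‖ *
      ‖inner ℂ (toL2 (wpk φ₁ ((2 * Real.pi) • p.1))) (S (toL2 (wpk φ₂ ((2 * Real.pi) • p.2))))‖ ≤ Bd p) :
    ‖inner ℂ (toL2 (fun x => φ₁ x * g₁ x)) (S (toL2 (fun x => φ₂ x * g₂ x)))‖ ≤ ∫ p, Bd p := by
  obtain ⟨hI1, hc1, ⟨C1, hC1⟩, hr1⟩ := four_rep φ₁ g₁ h1 h3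
  obtain ⟨hI2, hc2, ⟨C2, hC2⟩, hr2⟩ := four_rep φ₂ g₂ h2 h4
  have hW1 : Continuous (fun ξ : E 2 => toL2 (wpk φ₁ ((2 * Real.pi) • ξ))) :=
    hc1.comp (continuous_const_smul (2 * Real.pi))
  have hW2 : Continuous (fun ξ : E 2 => toL2 (wpk φ₂ ((2 * Real.pi) • ξ))) :=
    hc2.comp (continuous_const_smul (2 * Real.pi))
  have hF1 := aux_int (volume : Measure (E 2)) _ _ hI1 hW1 C1 (fun ξ => hC1 _)
  have hF2 := aux_int (volume : Measure (E 2)) _ _ hI2 hW2 C2 (fun ξ => hC2 _)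
  rw [hr1, hr2]
  exact aux_pair (volume : Measure (E 2)) S _ _ _ _ hF1 hF2 Bd hB hb

end N_pair_rep

end Pool.Agent.Helper459.SK
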