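import Mathlib
import Pool.Agent.Helper459.SK.Defs
import Pool.Agent.Helper459.SK.L_np
import Pool.Agent.Helper459.SK.L_cone_dist
import Pool.Agent.Helper459.SK.L_pair_rep
import Pool.Agent.Helper459.SK.L_bd_int

set_option autoImplicit false

noncomputable section

open MeasureTheory Set Filter Topology
open scoped ContDiff ComplexConjugate

namespace Pool.Agent.Helper459.SK
open N_np
open N_cone_dist
open N_pair_rep
open N_bd_int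

namespace N_local_pair

theorem test_memLp (u : E 2 → ℂ) (hu : IsTest u) : MemLp u 2 (volume : Measure (E 2)) :=
  hu.smooth.continuous.memLp_of_hasCompactSupport hu.cpt

theorem test_exp (a : E 2 → ℂ) (ha : IsTest a) (φ : E 2 → ℝ) (hφ : ContDiff ℝ ∞ φ) (m : ℝ) :
    IsTest (fun x => a x * Complex.exp (Complex.I * ((m * φ x : ℝ) : ℂ))) := by
  constructor
  · have h : ContDiff ℝ ∞ (fun x => ((m * φ x : ℝ) : ℂ)) :=
      Complex.ofRealCLM.contDiff.comp (contDiff_const.mul hφ)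
    exact ha.smooth.mul (contDiff_const.mul h).cexp
  · exact ha.cpt.mul_right

theorem wpk_test (u : E 2 → ℂ) (hu : IsTest u) (ξ : E 2) : IsTest (wpk u ξ) := by
  have h := test_exp u hu (fun x => inner ℝ ξ x) (contDiff_const.inner ℝ contDiff_id) 1
  have e : wpk u ξ = fun x => u x * Complex.exp (Complex.I * ((1 * inner ℝ ξ x : ℝ) : ℂ)) := by
    funext x
    simp only [wpk, one_mul]
  rw [e]
  exact h

theorem norm_e (r : ℝ) : ‖Complex.exp (Complex.I * (r : ℂ))‖ = 1 := by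
  rw [mul_comm]; exact Complex.norm_exp_ofReal_mul_I r

theorem wpk_norm (u : E 2 → ℂ) (hu : IsTest u) (ξ : E 2) : ‖toL2 (wpk u ξ)‖ = ‖toL2 u‖ := by
  have h1 := test_memLp u hu
  have h2 := test_memLp _ (wpk_test u hu ξ)
  unfold toL2
  rw [dif_pos h1, dif_pos h2, Lp.norm_toLp, Lp.norm_toLp]
  congr 1
  apply eLpNorm_congr_norm_ae
  filter_upwards with x
  simp only [wpk, norm_mul]
  rw [norm_e]
  ring

theorem pair_bd (S : L2 2 →L[ℂ] L2 2) (φ₁ φ₂ : E 2 → ℂ) (h1 : IsTest φ₁) (h2 : IsTest φ₂) (ξ η : E 2) :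
    ‖inner ℂ (toL2 (wpk φ₁ ξ)) (S (toL2 (wpk φ₂ η)))‖ ≤ ‖toL2 φ₁‖ * (‖S‖ * ‖toL2 φ₂‖) := by
  refine (norm_inner_le_norm _ _).trans ?_
  rw [wpk_norm φ₁ h1]
  apply mul_le_mul_of_nonneg_left _ (norm_nonneg _)
  refine (S.le_opNorm _).trans ?_
  rw [wpk_norm φ₂ h2]

theorem ft_bd (a : E 2 → ℂ) (f : E 2 → ℝ) :
    ‖∫ x, a x * Complex.exp (Complex.I * ((f x : ℝ) : ℂ))‖ ≤ ∫ x, ‖a x‖ := by
  refine (norm_integral_le_integral_norm _).trans (le_of_eq ?_)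
  congr 1
  ext x
  rw [norm_mul, norm_e, mul_one]

theorem grad_cont (φ : E 2 → ℝ) (hφ : ContDiff ℝ ∞ φ) : Continuous (fun x => gradient φ x) := by
  unfold gradient
  have h : Continuous (fderiv ℝ φ) := hφ.continuous_fderiv (by simp)
  exact (InnerProductSpace.toDual ℝ (E 2)).symm.continuous.comp h

/-- three bounded factors, one of them decaying -/
theorem three (X Y Z L Q D : ℝ) (hX : 0 ≤ X) (hY : 0 ≤ Y) (hZ : 0 ≤ Z) (hXQ : X ≤ Q) (hYQ : Y ≤ Q)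
    (hZQ : Z ≤ Q) (hL : 0 < L) (hD : 0 ≤ D)
    (h : X * L ≤ D ∨ Y * L ≤ D ∨ Z * L ≤ D) : X * Y * Z ≤ (D * Q ^ 2) * L⁻¹ := by
  rw [← div_eq_mul_inv, le_div_iff₀ hL]
  have hQ : 0 ≤ Q := hX.trans hXQ
  rcases h with h | h | h
  · calc X * Y * Z * L = (X * L) * (Y * Z) := by ring
      _ ≤ D * (Q * Q) := by
        apply mul_le_mul h (mul_le_mul hYQ hZQ hZ hQ) (by positivity) hD
      _ = D * Q ^ 2 := by ring
  · calc X * Y * Z * L = (Y * L) * (X * Z) := by ring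
      _ ≤ D * (Q * Q) := by
        apply mul_le_mul h (mul_le_mul hXQ hZQ hZ hQ) (by positivity) hD
      _ = D * Q ^ 2 := by ring
  · calc X * Y * Z * L = (Z * L) * (X * Y) := by ring
      _ ≤ D * (Q * Q) := by
        apply mul_le_mul h (mul_le_mul hXQ hYQ hY hQ) (by positivity) hD
      _ = D * Q ^ 2 := by ring

/-- compare `X s^6 ≤ C` and `l ≤ k s` -/
theorem cmp6 (X s l k C D : ℝ) (hX : 0 ≤ X) (hl : 0 ≤ l) (hs : 0 ≤ s) (hk : 0 ≤ k) (h : X * s ^ 6 ≤ C)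
    (hls : l ≤ k * s) (hD : k ^ 6 * C ≤ D) : X * l ^ 6 ≤ D := by
  have h1 : l ^ 6 ≤ (k * s) ^ 6 := pow_le_pow_left₀ hl hls 6
  calc X * l ^ 6 ≤ X * (k * s) ^ 6 := mul_le_mul_of_nonneg_left h1 hX
    _ = k ^ 6 * (X * s ^ 6) := by ring
    _ ≤ k ^ 6 * C := mul_le_mul_of_nonneg_left h (by positivity)
    _ ≤ D := hD

theorem main_bd (S : L2 2 →L[ℂ] L2 2) (φ₁ φ₂ a b : E 2 → ℂ) (h1 : IsTest φ₁) (h2 : IsTest φ₂)
    (ha : IsTest a) (hb : IsTest b) (φ ψ : E 2 → ℝ) (hφ : ContDiff ℝ ∞ φ) (hψ : ContDiff ℝ ∞ ψ)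
    (Γ : Set (E 2 × E 2)) (hΓ : IsOpen Γ) (hc : ∀ p ∈ Γ, ∀ r : ℝ, 0 < r → r • p ∈ Γ)
    (hdec : ∀ N : ℕ, ∃ C : ℝ, ∀ p ∈ Γ,
        ‖inner ℂ (toL2 (wpk φ₁ p.1)) (S (toL2 (wpk φ₂ p.2)))‖ * (1 + ‖p.1‖ + ‖p.2‖) ^ N ≤ C)
    (hin : ∀ x ∈ tsupport a, ∀ y ∈ tsupport b, (gradient φ x, gradient ψ y) ∈ Γ)
    (hnz : ∀ x ∈ tsupport a, gradient φ x ≠ 0) :
    ∃ C : ℝ, ∀ m : ℝ, 1 ≤ m → ∀ ξ η : E 2,
      ‖∫ x, a x * Complex.exp (Complex.I * ((m * φ x - inner ℝ ξ x : ℝ) : ℂ))‖ *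
      ‖∫ x, b x * Complex.exp (Complex.I * ((m * ψ x - inner ℝ η x : ℝ) : ℂ))‖ *
      ‖inner ℂ (toL2 (wpk φ₁ ξ)) (S (toL2 (wpk φ₂ η)))‖ ≤
        C * ((1 + m + ‖ξ‖ + ‖η‖) ^ 6)⁻¹ := by
  have cφ := grad_cont φ hφ
  have cψ := grad_cont ψ hψ
  -- the compact set
  set K : Set (E 2 × E 2) := ((fun x => gradient φ x) '' tsupport a) ×ˢ ((fun y => gradient ψ y) '' tsupport b) with hKdef
  have hK : IsCompact K := (ha.cpt.isCompact.image cφ).prod (hb.cpt.isCompact.image cψ)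
  have hKΓ : K ⊆ Γ := by
    rintro ⟨k1, k2⟩ ⟨⟨x, hx, rfl⟩, ⟨y, hy, rfl⟩⟩
    exact hin x hx y hy
  obtain ⟨δ, hδ, hcd⟩ := cone_dist Γ hΓ hc K hK hKΓ
  obtain ⟨M1, hM1⟩ := ha.cpt.isCompact.exists_bound_of_continuousOn cφ.continuousOn
  obtain ⟨M2, hM2⟩ := hb.cpt.isCompact.exists_bound_of_continuousOn cψ.continuousOn
  obtain ⟨c0, hc0, hc0'⟩ : ∃ c : ℝ, 0 < c ∧ ∀ x ∈ tsupport a, c ≤ ‖gradient φ x‖ :=
    ha.cpt.isCompact.exists_forall_le' cφ.norm.continuousOn (fun x hx => norm_pos_iff.2 (hnz x hx))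
  obtain ⟨CΓ, hCΓ⟩ := hdec 6
  obtain ⟨M, hM0, hMa, hMb⟩ : ∃ M : ℝ, 0 ≤ M ∧ (∀ x ∈ tsupport a, ‖gradient φ x‖ ≤ M) ∧
      (∀ x ∈ tsupport b, ‖gradient ψ x‖ ≤ M) :=
    ⟨max 0 (max M1 M2), le_max_left _ _, fun x hx => (hM1 x hx).trans (by simp),
      fun x hx => (hM2 x hx).trans (by simp)⟩
  obtain ⟨c, hc1, hc2, hc3⟩ : ∃ c : ℝ, 0 < c ∧ c ≤ 1 ∧ ∀ x ∈ tsupport a, 2 * c ≤ ‖gradient φ x‖ := by
    refine ⟨min 1 (c0 / 2), by positivity, min_le_left _ _, fun x hx => ?_⟩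
    have := hc0' x hx
    have h2 : min 1 (c0 / 2) ≤ c0 / 2 := min_le_right _ _
    linarith
  -- the nonstationary constant
  set d : ℝ := min (1 / 4) (min (δ / 2) (c / 2)) with hd
  have hd0 : 0 < d := by positivity
  have hd1 : d ≤ 1 / 4 := min_le_left _ _
  have hd2 : d ≤ δ / 2 := (min_le_right _ _).trans (min_le_left _ _)
  have hd3 : d ≤ c / 2 := (min_le_right _ _).trans (min_le_right _ _)
  obtain ⟨C1, hC1⟩ := np a ha φ hφ d hd0 6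
  obtain ⟨C2, hC2⟩ := np b hb ψ hψ d hd0 6
  -- constants
  set R : ℝ := 2 * M + 2 with hR
  set k : ℝ := 2 + 2 * R + c⁻¹ with hk
  have hci : 0 < c⁻¹ := inv_pos.2 hc1
  have hk0 : 0 ≤ k := by rw [hk, hR]; positivity
  set C3 : ℝ := max 0 (max C1 (max C2 CΓ)) with hC3
  have e0 : 0 ≤ C3 := le_max_left _ _
  have e1 : C1 ≤ C3 := (le_max_left _ _).trans (le_max_right _ _)
  have e2 : C2 ≤ C3 := (le_max_left _ _).trans ((le_max_right _ _).trans (le_max_right _ _))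
  have e3 : CΓ ≤ C3 := (le_max_right _ _).trans ((le_max_right _ _).trans (le_max_right _ _))
  set Q : ℝ := max (∫ x, ‖a x‖) (max (∫ x, ‖b x‖) (‖toL2 φ₁‖ * (‖S‖ * ‖toL2 φ₂‖))) with hQ
  refine ⟨(k ^ 6 * C3) * Q ^ 2, fun m hm ξ η => ?_⟩
  have n1 : 0 ≤ ‖ξ‖ := norm_nonneg _
  have n2 : 0 ≤ ‖η‖ := norm_nonneg _
  have hm0 : (0 : ℝ) ≤ m := by linarith
  have hR2 : 2 ≤ R := by rw [hR]; linarith
  have hkR : 2 + 2 * R ≤ k := by rw [hk]; linarith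
  apply three _ _ _ _ Q _ (norm_nonneg _) (norm_nonneg _) (norm_nonneg _)
  · exact (ft_bd a _).trans (le_max_left _ _)
  · exact (ft_bd b _).trans ((le_max_left _ _).trans (le_max_right _ _))
  · exact (pair_bd S φ₁ φ₂ h1 h2 ξ η).trans ((le_max_right _ _).trans (le_max_right _ _))
  · positivity
  · positivity
  -- nonstationary in the first variable
  have st1 : (∀ x ∈ tsupport a, d * (m + ‖ξ‖) ≤ ‖ξ - m • gradient φ x‖) →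
      1 + m + ‖ξ‖ + ‖η‖ ≤ k * (1 + m + ‖ξ‖) →
      ‖∫ x, a x * Complex.exp (Complex.I * ((m * φ x - inner ℝ ξ x : ℝ) : ℂ))‖ *
        (1 + m + ‖ξ‖ + ‖η‖) ^ 6 ≤ k ^ 6 * C3 := by
    intro hx hl
    exact cmp6 _ (1 + m + ‖ξ‖) _ k C1 _ (norm_nonneg _) (by positivity) (by positivity) hk0
      (hC1 m ξ hm0 hx) hl (mul_le_mul_of_nonneg_left e1 (by positivity))
  have st2 : (∀ x ∈ tsupport b, d * (m + ‖η‖) ≤ ‖η - m • gradient ψ x‖) →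
      1 + m + ‖ξ‖ + ‖η‖ ≤ k * (1 + m + ‖η‖) →
      ‖∫ x, b x * Complex.exp (Complex.I * ((m * ψ x - inner ℝ η x : ℝ) : ℂ))‖ *
        (1 + m + ‖ξ‖ + ‖η‖) ^ 6 ≤ k ^ 6 * C3 := by
    intro hx hl
    exact cmp6 _ (1 + m + ‖η‖) _ k C2 _ (norm_nonneg _) (by positivity) (by positivity) hk0
      (hC2 m η hm0 hx) hl (mul_le_mul_of_nonneg_left e2 (by positivity))
  -- large frequencies are nonstationary
  have big : ∀ (ζ g : E 2), ‖g‖ ≤ M → R * m ≤ ‖ζ‖ → d * (m + ‖ζ‖) ≤ ‖ζ - m • g‖ := by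
    intro ζ g hg hζ
    have t1 : ‖ζ‖ - ‖m • g‖ ≤ ‖ζ - m • g‖ := norm_sub_norm_le _ _
    have t2 : ‖m • g‖ = m * ‖g‖ := by rw [norm_smul, Real.norm_of_nonneg hm0]
    have t3 : m * ‖g‖ ≤ m * M := mul_le_mul_of_nonneg_left hg hm0
    have t4 : d * (m + ‖ζ‖) ≤ 1 / 4 * (m + ‖ζ‖) := mul_le_mul_of_nonneg_right hd1 (by positivity)
    have t5 : (2 * M + 2) * m ≤ ‖ζ‖ := hζ
    have t6 : 0 ≤ m * M := mul_nonneg hm0 hM0
    linarith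
  by_cases hbig1 : R * m ≤ ‖ξ‖ ∧ ‖η‖ ≤ ‖ξ‖
  · left
    apply st1
    · intro x hx
      exact big ξ _ (hMa x hx) hbig1.1
    · have : 2 * (1 + m + ‖ξ‖) ≤ k * (1 + m + ‖ξ‖) :=
        mul_le_mul_of_nonneg_right (by linarith) (by positivity)
      linarith [hbig1.2]
  by_cases hbig2 : R * m ≤ ‖η‖ ∧ ‖ξ‖ ≤ ‖η‖
  · right; left
    apply st2
    · intro x hx
      exact big η _ (hMb x hx) hbig2.1
    · have : 2 * (1 + m + ‖η‖) ≤ k * (1 + m + ‖η‖) :=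
        mul_le_mul_of_nonneg_right (by linarith) (by positivity)
      linarith [hbig2.2]
  have hs : ‖ξ‖ < R * m ∧ ‖η‖ < R * m := by
    rcases le_total ‖η‖ ‖ξ‖ with h | h
    · have : ‖ξ‖ < R * m := by
        by_contra h'
        exact hbig1 ⟨not_lt.1 h', h⟩
      exact ⟨this, lt_of_le_of_lt h this⟩
    · have : ‖η‖ < R * m := by
        by_contra h'
        exact hbig2 ⟨not_lt.1 h', h⟩
      exact ⟨lt_of_le_of_lt h this, this⟩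
  have hl : 1 + m + ‖ξ‖ + ‖η‖ ≤ (2 + 2 * R) * m := by nlinarith [hs.1, hs.2]
  have hl1 : 1 + m + ‖ξ‖ + ‖η‖ ≤ k * (1 + m + ‖ξ‖) := by
    calc 1 + m + ‖ξ‖ + ‖η‖ ≤ (2 + 2 * R) * m := hl
      _ ≤ k * (1 + m + ‖ξ‖) := mul_le_mul hkR (by linarith) hm0 hk0
  have hl2 : 1 + m + ‖ξ‖ + ‖η‖ ≤ k * (1 + m + ‖η‖) := by
    calc 1 + m + ‖ξ‖ + ‖η‖ ≤ (2 + 2 * R) * m := hl
      _ ≤ k * (1 + m + ‖η‖) := mul_le_mul hkR (by linarith) hm0 hk0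
  by_cases hG : (ξ, η) ∈ Γ
  · by_cases hcm : c * m ≤ ‖ξ‖
    · right; right
      have hls : 1 + m + ‖ξ‖ + ‖η‖ ≤ k * (1 + ‖ξ‖ + ‖η‖) := by
        have t1 : m ≤ c⁻¹ * ‖ξ‖ := by
          rw [inv_mul_eq_div, le_div_iff₀ hc1]; linarith
        have t2 : c⁻¹ * ‖ξ‖ ≤ c⁻¹ * (1 + ‖ξ‖ + ‖η‖) :=
          mul_le_mul_of_nonneg_left (by linarith) hci.le
        have t3 : (1 + c⁻¹) * (1 + ‖ξ‖ + ‖η‖) ≤ k * (1 + ‖ξ‖ + ‖η‖) :=
          mul_le_mul_of_nonneg_right (by rw [hk]; linarith) (by positivity)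
        nlinarith
      exact cmp6 _ (1 + ‖ξ‖ + ‖η‖) _ k CΓ _ (norm_nonneg _) (by positivity) (by positivity) hk0
        (hCΓ (ξ, η) hG) hls (mul_le_mul_of_nonneg_left e3 (by positivity))
    · left
      apply st1 _ hl1
      intro x hx
      push Not at hcm
      have t1 : ‖m • gradient φ x‖ - ‖ξ‖ ≤ ‖ξ - m • gradient φ x‖ := by
        rw [norm_sub_rev]; exact norm_sub_norm_le _ _
      have t2 : ‖m • gradient φ x‖ = m * ‖gradient φ x‖ := by rw [norm_smul, Real.norm_of_nonneg hm0]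
      have t3 : m * (2 * c) ≤ m * ‖gradient φ x‖ := mul_le_mul_of_nonneg_left (hc3 x hx) hm0
      have t4 : d * (m + ‖ξ‖) ≤ c / 2 * (m + ‖ξ‖) := mul_le_mul_of_nonneg_right hd3 (by positivity)
      have t5 : c / 2 * (m + ‖ξ‖) ≤ c / 2 * (2 * m) := by
        apply mul_le_mul_of_nonneg_left _ (by positivity)
        have : c * m ≤ 1 * m := mul_le_mul_of_nonneg_right hc2 hm0
        linarith
      linarith
  · by_cases hall : ∀ x ∈ tsupport a, d * (m + ‖ξ‖) ≤ ‖ξ - m • gradient φ x‖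
    · left
      exact st1 hall hl1
    · right; left
      apply st2 _ hl2
      intro y hy
      push Not at hall
      obtain ⟨x, hx, hx'⟩ := hall
      have t1 : δ * (‖ξ‖ + ‖η‖ + m) ≤ ‖ξ - m • gradient φ x‖ + ‖η - m • gradient ψ y‖ :=
        hcd (ξ, η) hG m hm0 (gradient φ x, gradient ψ y) ⟨⟨x, hx, rfl⟩, ⟨y, hy, rfl⟩⟩
      have t2 : d * (m + ‖ξ‖) ≤ δ / 2 * (m + ‖ξ‖) := mul_le_mul_of_nonneg_right hd2 (by positivity)
      have t3 : d * (m + ‖η‖) ≤ δ / 2 * (m + ‖η‖) := mul_le_mul_of_nonneg_right hd2 (by positivity)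
      have u1 := mul_nonneg hδ.le n1
      have u2 := mul_nonneg hδ.le n2
      have u3 : δ / 2 * (m + ‖ξ‖) + δ / 2 * (m + ‖η‖) ≤ δ * (‖ξ‖ + ‖η‖ + m) := by
        have : δ * (‖ξ‖ + ‖η‖ + m) - (δ / 2 * (m + ‖ξ‖) + δ / 2 * (m + ‖η‖)) = δ * ‖ξ‖ / 2 + δ * ‖η‖ / 2 := by ring
        linarith
      linarith

theorem local_pair (S : L2 2 →L[ℂ] L2 2) (φ₁ φ₂ a b : E 2 → ℂ) (h1 : IsTest φ₁) (h2 : IsTest φ₂)
    (ha : IsTest a) (hb : IsTest b) (φ ψ : E 2 → ℝ) (hφ : ContDiff ℝ ∞ φ) (hψ : ContDiff ℝ ∞ ψ)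
    (Γ : Set (E 2 × E 2)) (hΓ : IsOpen Γ) (hc : ∀ p ∈ Γ, ∀ r : ℝ, 0 < r → r • p ∈ Γ)
    (hdec : ∀ N : ℕ, ∃ C : ℝ, ∀ p ∈ Γ,
        ‖inner ℂ (toL2 (wpk φ₁ p.1)) (S (toL2 (wpk φ₂ p.2)))‖ * (1 + ‖p.1‖ + ‖p.2‖) ^ N ≤ C)
    (hin : ∀ x ∈ tsupport a, ∀ y ∈ tsupport b, (gradient φ x, gradient ψ y) ∈ Γ)
    (hnz : ∀ x ∈ tsupport a, gradient φ x ≠ 0) :
    ∃ C : ℝ, ∀ m : ℕ, 1 ≤ m →
      ‖inner ℂ (toL2 (fun x => φ₁ x * (a x * Complex.exp (Complex.I * ((m * φ x : ℝ) : ℂ)))))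
        (S (toL2 (fun x => φ₂ x * (b x * Complex.exp (Complex.I * ((m * ψ x : ℝ) : ℂ))))))‖ ≤ C / m := by
  obtain ⟨C1, hC1⟩ := main_bd S φ₁ φ₂ a b h1 h2 ha hb φ ψ hφ hψ Γ hΓ hc hdec hin hnz
  obtain ⟨C2, hC2⟩ := bd_int
  have hC1' : ∀ m : ℝ, 1 ≤ m → ∀ ξ η : E 2,
      ‖∫ x, a x * Complex.exp (Complex.I * ((m * φ x - inner ℝ ξ x : ℝ) : ℂ))‖ *
      ‖∫ x, b x * Complex.exp (Complex.I * ((m * ψ x - inner ℝ η x : ℝ) : ℂ))‖ *
      ‖inner ℂ (toL2 (wpk φ₁ ξ)) (S (toL2 (wpk φ₂ η)))‖ ≤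
        |C1| * ((1 + m + ‖ξ‖ + ‖η‖) ^ 6)⁻¹ := by
    intro m hm ξ η
    refine (hC1 m hm ξ η).trans ?_
    apply mul_le_mul_of_nonneg_right (le_abs_self _)
    have : (0 : ℝ) ≤ m := by linarith
    positivity
  refine ⟨|C1| * C2, fun m hm => ?_⟩
  have hm1 : (1 : ℝ) ≤ (m : ℝ) := by exact_mod_cast hm
  obtain ⟨i1, i2⟩ := hC2 (m : ℝ) hm1
  have key := pair_rep S φ₁ φ₂ (fun x => a x * Complex.exp (Complex.I * ((m * φ x : ℝ) : ℂ)))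
    (fun x => b x * Complex.exp (Complex.I * ((m * ψ x : ℝ) : ℂ))) h1 h2
    (test_exp a ha φ hφ m) (test_exp b hb ψ hψ m)
    (fun p => |C1| * ((1 + (m : ℝ) + ‖(2 * Real.pi) • p.1‖ + ‖(2 * Real.pi) • p.2‖) ^ 6)⁻¹)
    (i1.const_mul _) (by
      intro p
      have e1 : ∀ (u : E 2 → ℂ) (f : E 2 → ℝ) (ζ : E 2),
          (∫ x, u x * Complex.exp (Complex.I * ((m * f x : ℝ) : ℂ)) *
            Complex.exp (-(Complex.I * ((inner ℝ ζ x : ℝ) : ℂ)))) =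
          ∫ x, u x * Complex.exp (Complex.I * (((m : ℝ) * f x - inner ℝ ζ x : ℝ) : ℂ)) := by
        intro u f ζ
        congr 1
        ext x
        rw [mul_assoc, ← Complex.exp_add]
        congr 2
        push_cast
        ring
      simp only [e1]
      exact hC1' m hm1 _ _)
  refine key.trans ?_
  rw [integral_const_mul, mul_div_assoc]
  exact mul_le_mul_of_nonneg_left i2 (abs_nonneg _)


end N_local_pair

end Pool.Agent.Helper459.SK
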