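import Mathlib
import Pool.Agent.Helper459.SK.NDefs

set_option autoImplicit false

noncomputable section

open MeasureTheory Set Filter Topology
open scoped ContDiff ComplexConjugate

namespace Pool.Agent.Helper459.SK

namespace N_npsn

def nF {n : ℕ} (φ : E n → ℂ) (j : Fin n) (p : E n × (ℝ × E n)) : ℂ :=
  (p.2.1 : ℂ) * fderiv ℝ φ p.1 (EuclideanSpace.single j 1) - ((p.2.2 j : ℝ) : ℂ)

def nh (δ r : ℝ) : ℝ := Real.smoothTransition (2 * r / δ ^ 2 - 1) * r⁻¹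

def nS {n : ℕ} (φ : E n → ℂ) (p : E n × (ℝ × E n)) : ℝ :=
  ∑ j, ((nF φ j p).re ^ 2 + (nF φ j p).im ^ 2)

def nb {n : ℕ} (φ : E n → ℂ) (δ : ℝ) (a : E n × (ℝ × E n) → ℂ) (j : Fin n)
    (p : E n × (ℝ × E n)) : ℂ :=
  a p * (conj (nF φ j p) * ((nh δ (nS φ p) : ℝ) : ℂ))

def na {n : ℕ} (φ : E n → ℂ) (δ : ℝ) (a : E n × (ℝ × E n) → ℂ) (p : E n × (ℝ × E n)) : ℂ :=
  Complex.I * ∑ j, fderiv ℝ (nb φ δ a j) p (EuclideanSpace.single j 1, 0)

theorem nh_eq (δ : ℝ) (hδ : 0 < δ) (r : ℝ) (hr : δ ^ 2 ≤ r) : nh δ r = r⁻¹ := by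
  unfold nh
  rw [Real.smoothTransition.one_of_one_le, one_mul]
  have : 0 < δ ^ 2 := by positivity
  have h2 : 2 ≤ 2 * r / δ ^ 2 := by
    rw [le_div_iff₀ this]; linarith
  linarith

theorem nh_smooth (δ : ℝ) (hδ : 0 < δ) : ContDiff ℝ ∞ (nh δ) := by
  have hd : 0 < δ ^ 2 := by positivity
  rw [contDiff_iff_contDiffAt]
  intro r
  rcases lt_or_ge r (δ ^ 2 / 2) with h | h
  · have : nh δ =ᶠ[𝓝 r] fun _ => 0 := by
      filter_upwards [Iio_mem_nhds h] with s hs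
      unfold nh
      rw [Real.smoothTransition.zero_of_nonpos, zero_mul]
      have hs' : s < δ ^ 2 / 2 := hs
      have : 2 * s / δ ^ 2 ≤ 1 := by
        rw [div_le_one hd]; linarith
      linarith
    exact contDiffAt_const.congr_of_eventuallyEq this
  · have hr : r ≠ 0 := by
      have : 0 < r := lt_of_lt_of_le (by positivity) h
      exact this.ne'
    have h1 : ContDiff ℝ ∞ (fun s : ℝ => Real.smoothTransition (2 * s / δ ^ 2 - 1)) :=
      Real.smoothTransition.contDiff.comp (by fun_prop)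
    exact h1.contDiffAt.mul (contDiffAt_inv ℝ hr)

theorem nF_smooth {n : ℕ} (φ : E n → ℂ) (hφ : ContDiff ℝ ∞ φ) (j : Fin n) :
    ContDiff ℝ ∞ (nF φ j) := by
  have h1 : ContDiff ℝ ∞ (fun p : E n × (ℝ × E n) => fderiv ℝ φ p.1 (EuclideanSpace.single j 1)) :=
    ((hφ.fderiv_right (m := ∞) (by simp)).comp contDiff_fst).clm_apply contDiff_const
  have h2 : ContDiff ℝ ∞ (fun p : E n × (ℝ × E n) => (p.2.1 : ℂ)) :=
    Complex.ofRealCLM.contDiff.comp (contDiff_fst.comp contDiff_snd)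
  have h3 : ContDiff ℝ ∞ (fun p : E n × (ℝ × E n) => ((p.2.2 j : ℝ) : ℂ)) :=
    Complex.ofRealCLM.contDiff.comp
      ((EuclideanSpace.proj (𝕜 := ℝ) j).contDiff.comp (contDiff_snd.comp contDiff_snd))
  exact (h2.mul h1).sub h3

theorem nS_smooth {n : ℕ} (φ : E n → ℂ) (hφ : ContDiff ℝ ∞ φ) : ContDiff ℝ ∞ (nS φ) := by
  unfold nS
  exact ContDiff.sum fun j _ =>
    ((Complex.reCLM.contDiff.comp (nF_smooth φ hφ j)).pow 2).add
      ((Complex.imCLM.contDiff.comp (nF_smooth φ hφ j)).pow 2)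

theorem nb_smooth {n : ℕ} (φ : E n → ℂ) (hφ : ContDiff ℝ ∞ φ) (δ : ℝ) (hδ : 0 < δ)
    (a : E n × (ℝ × E n) → ℂ) (ha : ContDiff ℝ ∞ a) (j : Fin n) :
    ContDiff ℝ ∞ (nb φ δ a j) := by
  have h1 : ContDiff ℝ ∞ (fun p => conj (nF φ j p)) :=
    Complex.conjCLE.contDiff.comp (nF_smooth φ hφ j)
  exact ha.mul (h1.mul (Complex.ofRealCLM.contDiff.comp
    ((nh_smooth δ hδ).comp (nS_smooth φ hφ))))

theorem na_smooth {n : ℕ} (φ : E n → ℂ) (hφ : ContDiff ℝ ∞ φ) (δ : ℝ) (hδ : 0 < δ)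
    (a : E n × (ℝ × E n) → ℂ) (ha : ContDiff ℝ ∞ a) :
    ContDiff ℝ ∞ (na φ δ a) :=
  contDiff_const.mul (ContDiff.sum fun j _ =>
    ((nb_smooth φ hφ δ hδ a ha j).fderiv_right (m := ∞) (by simp)).clm_apply contDiff_const)

theorem nb_zero {n : ℕ} (K : Set (E n)) (φ : E n → ℂ) (δ : ℝ)
    (a : E n × (ℝ × E n) → ℂ) (ha' : ∀ x q, x ∉ K → a (x, q) = 0) (j : Fin n) (x : E n)
    (q : ℝ × E n) (hx : x ∉ K) : nb φ δ a j (x, q) = 0 := by
  unfold nb
  rw [ha' x q hx, zero_mul]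

theorem ndb_zero {n : ℕ} (K : Set (E n)) (hK : IsCompact K) (φ : E n → ℂ) (δ : ℝ)
    (a : E n × (ℝ × E n) → ℂ) (ha' : ∀ x q, x ∉ K → a (x, q) = 0) (j : Fin n) (x : E n)
    (q : ℝ × E n) (hx : x ∉ K) : fderiv ℝ (nb φ δ a j) (x, q) = 0 := by
  have h : nb φ δ a j =ᶠ[𝓝 (x, q)] fun _ => 0 := by
    have ho : IsOpen ((Prod.fst : E n × (ℝ × E n) → E n) ⁻¹' Kᶜ) :=
      hK.isClosed.isOpen_compl.preimage continuous_fst
    filter_upwards [ho.mem_nhds (show (x, q) ∈ Prod.fst ⁻¹' Kᶜ from hx)] with p hp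
    exact nb_zero K φ δ a ha' j p.1 p.2 hp
  rw [h.fderiv_eq]
  simp

theorem ndb {n : ℕ} (φ : E n → ℂ) (hφ : ContDiff ℝ ∞ φ) (δ : ℝ) (hδ : 0 < δ)
    (a : E n × (ℝ × E n) → ℂ) (ha : ContDiff ℝ ∞ a) (j : Fin n) (q : ℝ × E n) (x v : E n) :
    fderiv ℝ (fun y => nb φ δ a j (y, q)) x v
      = fderiv ℝ (nb φ δ a j) (x, q) (v, 0) := by
  have h1 : HasFDerivAt (nb φ δ a j) (fderiv ℝ (nb φ δ a j) (x, q)) (x, q) :=
    (((nb_smooth φ hφ δ hδ a ha j).differentiable (by simp)) (x, q)).hasFDerivAt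
  have h2 : HasFDerivAt (fun y : E n => (y, q)) (ContinuousLinearMap.inl ℝ (E n) (ℝ × E n)) x :=
    hasFDerivAt_prodMk_left x q
  have h3 := h1.comp x h2
  have h4 : fderiv ℝ (fun y => nb φ δ a j (y, q)) x
      = (fderiv ℝ (nb φ δ a j) (x, q)).comp (ContinuousLinearMap.inl ℝ (E n) (ℝ × E n)) :=
    h3.fderiv
  rw [h4]
  simp

theorem nu {n : ℕ} (φ : E n → ℂ) (hφ : ContDiff ℝ ∞ φ) (q : ℝ × E n) (L : ℝ) (x : E n)
    (j : Fin n) :
    fderiv ℝ (fun x => Complex.exp (Complex.I * ((L : ℂ) * ((q.1 : ℂ) * φ x - ((inner ℝ q.2 x : ℝ) : ℂ))))) x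
      (EuclideanSpace.single j 1)
      = Complex.exp (Complex.I * ((L : ℂ) * ((q.1 : ℂ) * φ x - ((inner ℝ q.2 x : ℝ) : ℂ)))) *
        (Complex.I * ((L : ℂ) * nF φ j (x, q))) := by
  have h1 : HasFDerivAt φ (fderiv ℝ φ x) x := ((hφ.differentiable (by simp)) x).hasFDerivAt
  have h2 : HasFDerivAt (fun x : E n => inner ℝ q.2 x) (innerSL ℝ q.2) x :=
    (innerSL ℝ q.2).hasFDerivAt
  have h2' : HasFDerivAt (fun x : E n => ((inner ℝ q.2 x : ℝ) : ℂ))
      (Complex.ofRealCLM.comp (innerSL ℝ q.2)) x :=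
    (Complex.ofRealCLM.hasFDerivAt (x := inner ℝ q.2 x)).comp x h2
  have h3 : HasFDerivAt (fun x : E n => (L : ℂ) * ((q.1 : ℂ) * φ x - ((inner ℝ q.2 x : ℝ) : ℂ)))
      ((L : ℂ) • ((q.1 : ℂ) • fderiv ℝ φ x - Complex.ofRealCLM.comp (innerSL ℝ q.2))) x :=
    ((h1.const_mul (q.1 : ℂ)).sub h2').const_mul (L : ℂ)
  have h4 := (h3.const_mul Complex.I).cexp
  rw [h4.fderiv]
  simp only [ContinuousLinearMap.smul_apply, ContinuousLinearMap.comp_apply, smul_eq_mul,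
    ContinuousLinearMap.sub_apply, Complex.ofRealCLM_apply, innerSL_apply_apply]
  unfold nF
  rw [EuclideanSpace.inner_single_right]
  simp

theorem nS_ge {n : ℕ} (φ : E n → ℂ) (hφ : ContDiff ℝ ∞ φ) (q : ℝ × E n) (x : E n) :
    ‖q.2 - q.1 • gradient (fun y => (φ y).re) x‖ ^ 2 ≤ nS φ (x, q) := by
  rw [EuclideanSpace.real_norm_sq_eq]
  unfold nS
  apply Finset.sum_le_sum
  intro j _
  have h1 : HasFDerivAt φ (fderiv ℝ φ x) x := ((hφ.differentiable (by simp)) x).hasFDerivAt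
  have h2 : HasFDerivAt (fun y => (φ y).re) (Complex.reCLM.comp (fderiv ℝ φ x)) x :=
    (Complex.reCLM.hasFDerivAt (x := φ x)).comp x h1
  have h : (gradient (fun y => (φ y).re) x) j = (fderiv ℝ φ x (EuclideanSpace.single j 1)).re := by
    have e : (gradient (fun y => (φ y).re) x) j
        = fderiv ℝ (fun y => (φ y).re) x (EuclideanSpace.single j 1) := by
      rw [← inner_gradient_left, EuclideanSpace.inner_single_right]
      simp
    rw [e, h2.fderiv]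
    simp
  simp only [PiLp.sub_apply, PiLp.smul_apply, smul_eq_mul]
  rw [h]
  have e2 : (nF φ j (x, q)).re = q.1 * (fderiv ℝ φ x (EuclideanSpace.single j 1)).re - q.2 j := by
    unfold nF
    simp
  rw [e2]
  nlinarith [sq_nonneg (nF φ j (x, q)).im]

theorem npsn {n : ℕ} (K : Set (E n)) (hK : IsCompact K) (φ : E n → ℂ) (hφ : ContDiff ℝ ∞ φ) (δ : ℝ) (hδ : 0 < δ)
    (a : E n × (ℝ × E n) → ℂ) (ha : ContDiff ℝ ∞ a) (ha' : ∀ x q, x ∉ K → a (x, q) = 0) :
    ∃ a' : E n × (ℝ × E n) → ℂ, ContDiff ℝ ∞ a' ∧ (∀ x q, x ∉ K → a' (x, q) = 0) ∧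
      ∀ (q : ℝ × E n) (L : ℝ), 0 < L → (∀ x ∈ K, δ ≤ ‖q.2 - q.1 • gradient (fun y => (φ y).re) x‖) →
        ∫ x, a (x, q) * Complex.exp (Complex.I * ((L : ℂ) * ((q.1 : ℂ) * φ x - ((inner ℝ q.2 x : ℝ) : ℂ)))) =
        (L : ℂ)⁻¹ * ∫ x, a' (x, q) * Complex.exp (Complex.I * ((L : ℂ) * ((q.1 : ℂ) * φ x - ((inner ℝ q.2 x : ℝ) : ℂ)))) := by
  refine ⟨na φ δ a, na_smooth φ hφ δ hδ a ha, ?_, ?_⟩
  · intro x q hx
    unfold na
    simp [ndb_zero K hK φ δ a ha' _ x q hx]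
  intro q L hL H
  set u : E n → ℂ := fun x =>
    Complex.exp (Complex.I * ((L : ℂ) * ((q.1 : ℂ) * φ x - ((inner ℝ q.2 x : ℝ) : ℂ)))) with hu
  have hus : ContDiff ℝ ∞ u := by
    have h1 : ContDiff ℝ ∞ (fun x : E n => ((inner ℝ q.2 x : ℝ) : ℂ)) :=
      Complex.ofRealCLM.contDiff.comp (innerSL ℝ q.2).contDiff
    have h2 : ContDiff ℝ ∞ (fun x : E n => (L : ℂ) * ((q.1 : ℂ) * φ x - ((inner ℝ q.2 x : ℝ) : ℂ))) :=
      contDiff_const.mul ((contDiff_const.mul hφ).sub h1)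
    exact (contDiff_const.mul h2).cexp
  have hbs : ∀ j, ContDiff ℝ ∞ (fun y => nb φ δ a j (y, q)) := fun j =>
    (nb_smooth φ hφ δ hδ a ha j).comp (contDiff_id.prodMk contDiff_const)
  have hbz : ∀ j x, x ∉ K → nb φ δ a j (x, q) = 0 := fun j x hx =>
    nb_zero K φ δ a ha' j x q hx
  have hdz : ∀ j x, x ∉ K → fderiv ℝ (fun y => nb φ δ a j (y, q)) x
      (EuclideanSpace.single j 1) = 0 := fun j x hx => by
    rw [ndb φ hφ δ hδ a ha, ndb_zero K hK φ δ a ha' j x q hx]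
    simp
  have hdu : Continuous (fun x => fderiv ℝ u x) := hus.continuous_fderiv (by simp)
  have hdb : ∀ j, Continuous (fun x => fderiv ℝ (fun y => nb φ δ a j (y, q)) x) :=
    fun j => (hbs j).continuous_fderiv (by simp)
  have hcu : Continuous u := hus.continuous
  have i1 : ∀ j, Integrable (fun x => fderiv ℝ (fun y => nb φ δ a j (y, q)) x
      (EuclideanSpace.single j 1) * u x) := fun j => by
    apply Continuous.integrable_of_hasCompactSupport
    · exact ((hdb j).clm_apply continuous_const).mul hcu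
    · exact HasCompactSupport.intro hK (fun x hx => by rw [hdz j x hx, zero_mul])
  have i2 : ∀ j, Integrable (fun x => nb φ δ a j (x, q) *
      fderiv ℝ u x (EuclideanSpace.single j 1)) := fun j => by
    apply Continuous.integrable_of_hasCompactSupport
    · exact (hbs j).continuous.mul (hdu.clm_apply continuous_const)
    · exact HasCompactSupport.intro hK (fun x hx => by rw [hbz j x hx, zero_mul])
  have i3 : ∀ j, Integrable (fun x => nb φ δ a j (x, q) * u x) := fun j => by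
    apply Continuous.integrable_of_hasCompactSupport
    · exact (hbs j).continuous.mul hcu
    · exact HasCompactSupport.intro hK (fun x hx => by rw [hbz j x hx, zero_mul])
  have hparts : ∀ j, ∫ x, nb φ δ a j (x, q) * fderiv ℝ u x (EuclideanSpace.single j 1)
      = - ∫ x, fderiv ℝ (fun y => nb φ δ a j (y, q)) x (EuclideanSpace.single j 1) * u x :=
    fun j => integral_mul_fderiv_eq_neg_fderiv_mul_of_integrable (i1 j) (i2 j) (i3 j)
      (fun x _ => ((hbs j).differentiable (by simp)) x)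
      (fun x _ => (hus.differentiable (by simp)) x)
  have hpt : ∀ x, ∑ j, nb φ δ a j (x, q) * fderiv ℝ u x (EuclideanSpace.single j 1)
      = Complex.I * (L : ℂ) * (a (x, q) * u x) := by
    intro x
    by_cases hx : x ∈ K
    · have h1 : δ ^ 2 ≤ nS φ (x, q) :=
        (pow_le_pow_left₀ hδ.le (H x hx) 2).trans (nS_ge φ hφ q x)
      have h2 : nh δ (nS φ (x, q)) = (nS φ (x, q))⁻¹ :=
        nh_eq δ hδ _ h1
      have h3 : nS φ (x, q) ≠ 0 := by
        have : 0 < δ ^ 2 := by positivity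
        exact (lt_of_lt_of_le this h1).ne'
      have h4 : ∀ j : Fin n, nb φ δ a j (x, q) * fderiv ℝ u x (EuclideanSpace.single j 1)
          = Complex.I * (L : ℂ) * (a (x, q) * u x) *
            ((((nF φ j (x, q)).re ^ 2 + (nF φ j (x, q)).im ^ 2) * (nS φ (x, q))⁻¹ : ℝ) : ℂ) := by
        intro j
        rw [hu, nu φ hφ q L x j]
        unfold nb
        rw [h2]
        have hc : conj (nF φ j (x, q)) * nF φ j (x, q)
            = (((nF φ j (x, q)).re ^ 2 + (nF φ j (x, q)).im ^ 2 : ℝ) : ℂ) := by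
          rw [mul_comm, Complex.mul_conj, Complex.normSq_apply]
          push_cast
          ring
        push_cast at hc ⊢
        linear_combination (a (x, q) * (nS φ (x, q) : ℂ)⁻¹ *
          Complex.exp (Complex.I * ((L : ℂ) * ((q.1 : ℂ) * φ x - ((inner ℝ q.2 x : ℝ) : ℂ)))) *
          Complex.I * (L : ℂ)) * hc
      rw [Finset.sum_congr rfl (fun j _ => h4 j), ← Finset.mul_sum, ← Complex.ofReal_sum,
        ← Finset.sum_mul]
      have h5 : (∑ i, ((nF φ i (x, q)).re ^ 2 + (nF φ i (x, q)).im ^ 2)) * (nS φ (x, q))⁻¹ = 1 := by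
        change nS φ (x, q) * (nS φ (x, q))⁻¹ = 1
        exact mul_inv_cancel₀ h3
      rw [h5]
      simp
    · simp [hbz _ x hx, ha' x q hx]
  have hL' : (L : ℂ) ≠ 0 := by exact_mod_cast hL.ne'
  have hmain : ∫ x, na φ δ a (x, q) * u x = (L : ℂ) * ∫ x, a (x, q) * u x := by
    have e1 : ∀ x, na φ δ a (x, q) * u x = Complex.I *
        ∑ j, fderiv ℝ (fun y => nb φ δ a j (y, q)) x (EuclideanSpace.single j 1) * u x := by
      intro x
      unfold na
      rw [mul_assoc, Finset.sum_mul]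
      congr 1
      apply Finset.sum_congr rfl
      intro j _
      rw [ndb φ hφ δ hδ a ha]
    simp_rw [e1]
    rw [integral_const_mul, integral_finsetSum _ (fun j _ => i1 j)]
    have e2 : ∀ j, ∫ x, fderiv ℝ (fun y => nb φ δ a j (y, q)) x
        (EuclideanSpace.single j 1) * u x
        = - ∫ x, nb φ δ a j (x, q) * fderiv ℝ u x (EuclideanSpace.single j 1) := fun j => by
      rw [hparts j, neg_neg]
    simp_rw [e2]
    rw [Finset.sum_neg_distrib, ← integral_finsetSum _ (fun j _ => i2 j)]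
    simp_rw [hpt]
    rw [integral_const_mul]
    linear_combination (-(L : ℂ) * ∫ x, a (x, q) * u x) * Complex.I_mul_I
  rw [hmain, ← mul_assoc, inv_mul_cancel₀ hL', one_mul]

end N_npsn

end Pool.Agent.Helper459.SK
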