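import Mathlib
import Pool.Agent.Helper459.SK.NDefs
import Pool.Agent.Helper459.SK.L_npsn

set_option autoImplicit false

noncomputable section

open MeasureTheory Set Filter Topology
open scoped ContDiff ComplexConjugate

namespace Pool.Agent.Helper459.SK
open N_npsn

namespace N_npn

theorem npn_bd {n : ℕ} (K : Set (E n)) (hK : IsCompact K) (f : E n → ℂ) (B : ℝ) (hB : ∀ x ∈ K, ‖f x‖ ≤ B)
    (hf : ∀ x, x ∉ K → f x = 0) (θ : E n → ℂ) (hθ : ∀ x ∈ K, 0 ≤ (θ x).im) :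
    ‖∫ x, f x * Complex.exp (Complex.I * θ x)‖ ≤ B * (volume K).toReal := by
  have h1 : ∀ x, ‖f x * Complex.exp (Complex.I * θ x)‖ ≤ K.indicator (fun _ => B) x := by
    intro x
    rw [norm_mul]
    by_cases hx : x ∈ K
    · rw [Set.indicator_of_mem hx]
      have he : ‖Complex.exp (Complex.I * θ x)‖ ≤ 1 := by
        rw [Complex.norm_exp]
        apply Real.exp_le_one_iff.2
        have := hθ x hx
        simp only [Complex.mul_re, Complex.I_re, Complex.I_im, zero_mul, one_mul, zero_sub]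
        linarith
      calc ‖f x‖ * ‖Complex.exp (Complex.I * θ x)‖ ≤ ‖f x‖ * 1 :=
            mul_le_mul_of_nonneg_left he (norm_nonneg _)
        _ ≤ B := by rw [mul_one]; exact hB x hx
    · rw [Set.indicator_of_notMem hx, hf x hx, norm_zero, zero_mul]
  have hi : Integrable (K.indicator (fun _ => B)) (volume : Measure (E n)) := by
    rw [integrable_indicator_iff hK.measurableSet]
    exact integrableOn_const hK.measure_lt_top.ne
  refine (norm_integral_le_of_norm_le hi (Filter.Eventually.of_forall h1)).trans (le_of_eq ?_)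
  rw [integral_indicator hK.measurableSet, setIntegral_const, smul_eq_mul, mul_comm]
  rfl

theorem npn_iter {n : ℕ} (K : Set (E n)) (hK : IsCompact K) (φ : E n → ℂ) (hφ : ContDiff ℝ ∞ φ) (δ : ℝ)
    (hδ : 0 < δ) (a : E n × (ℝ × E n) → ℂ) (ha : ContDiff ℝ ∞ a)
    (ha' : ∀ x q, x ∉ K → a (x, q) = 0) (N : ℕ) :
    ∃ a' : E n × (ℝ × E n) → ℂ, ContDiff ℝ ∞ a' ∧ (∀ x q, x ∉ K → a' (x, q) = 0) ∧
      ∀ (q : ℝ × E n) (L : ℝ), 0 < L → (∀ x ∈ K, δ ≤ ‖q.2 - q.1 • gradient (fun y => (φ y).re) x‖) →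
        ∫ x, a (x, q) * Complex.exp (Complex.I * ((L : ℂ) * ((q.1 : ℂ) * φ x - ((inner ℝ q.2 x : ℝ) : ℂ)))) =
        ((L : ℂ)⁻¹) ^ N *
          ∫ x, a' (x, q) * Complex.exp (Complex.I * ((L : ℂ) * ((q.1 : ℂ) * φ x - ((inner ℝ q.2 x : ℝ) : ℂ)))) := by
  induction N with
  | zero => exact ⟨a, ha, ha', fun q L _ _ => by rw [pow_zero, one_mul]⟩
  | succ N ih =>
    obtain ⟨b, hb, hb', h1⟩ := ih
    obtain ⟨c, hc, hc', h2⟩ := npsn K hK φ hφ δ hδ b hb hb'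
    refine ⟨c, hc, hc', fun q L hL hq => ?_⟩
    rw [h1 q L hL hq, h2 q L hL hq, pow_succ, mul_assoc]

theorem npn_cb {n : ℕ} (K : Set (E n)) (hK : IsCompact K) (a : E n × (ℝ × E n) → ℂ) (ha : Continuous a) :
    ∃ B : ℝ, 0 ≤ B ∧ ∀ x ∈ K, ∀ q : ℝ × E n, q.1 ∈ Icc (0:ℝ) 1 → ‖q.2‖ ≤ 1 → ‖a (x, q)‖ ≤ B := by
  obtain ⟨B, hB⟩ := (hK.prod ((isCompact_Icc (a := (0:ℝ)) (b := 1)).prod
    (isCompact_closedBall (0 : E n) 1))).exists_bound_of_continuousOn ha.continuousOn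
  refine ⟨max B 0, le_max_right _ _, fun x hx q h1 h2 => ?_⟩
  refine (hB (x, q) ⟨hx, h1, ?_⟩).trans (le_max_left _ _)
  rw [mem_closedBall_zero_iff]
  exact h2

theorem npn {n : ℕ} (a : E n → ℂ) (ha : IsTest a) (φ : E n → ℂ) (hφ : ContDiff ℝ ∞ φ)
    (him : ∀ x ∈ tsupport a, 0 ≤ (φ x).im) (δ : ℝ) (hδ : 0 < δ) (N : ℕ) :
    ∃ C : ℝ, ∀ (m : ℝ) (ξ : E n), 0 ≤ m →
      (∀ x ∈ tsupport a, δ * (m + ‖ξ‖) ≤ ‖ξ - m • gradient (fun y => (φ y).re) x‖) →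
      ‖∫ x, a x * Complex.exp (Complex.I * ((m : ℂ) * φ x - ((inner ℝ ξ x : ℝ) : ℂ)))‖ * (1 + m + ‖ξ‖) ^ N ≤ C := by
  have hK : IsCompact (tsupport a) := ha.2
  have hsm : ContDiff ℝ ∞ a := ha.1
  have ha0 : ContDiff ℝ ∞ (fun p : E n × (ℝ × E n) => a p.1) := hsm.comp contDiff_fst
  have ha0' : ∀ (x : E n) (q : ℝ × E n), x ∉ tsupport a →
      (fun p : E n × (ℝ × E n) => a p.1) (x, q) = 0 := fun x q hx =>
    image_eq_zero_of_notMem_tsupport hx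
  obtain ⟨a', hs', hz', hi'⟩ := npn_iter (tsupport a) hK φ hφ δ hδ _ ha0 ha0' N
  obtain ⟨B0, hB0, hB0'⟩ := npn_cb (tsupport a) hK _ ha0.continuous
  obtain ⟨B1, hB1, hB1'⟩ := npn_cb (tsupport a) hK a' hs'.continuous
  obtain ⟨V, hV⟩ : ∃ V : ℝ, V = (volume (tsupport a)).toReal := ⟨_, rfl⟩
  have hV0 : 0 ≤ V := by rw [hV]; exact ENNReal.toReal_nonneg
  refine ⟨2 ^ N * (B0 * V + B1 * V), fun m ξ hm hξ => ?_⟩
  obtain ⟨L, hL⟩ : ∃ L : ℝ, L = m + ‖ξ‖ := ⟨_, rfl⟩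
  have hL0 : 0 ≤ L := by rw [hL]; positivity
  have him' : ∀ x ∈ tsupport a, 0 ≤ ((m : ℂ) * φ x - ((inner ℝ ξ x : ℝ) : ℂ)).im := by
    intro x hx
    have h1 := mul_nonneg hm (him x hx)
    simpa using h1
  rw [show 1 + m + ‖ξ‖ = 1 + L by rw [hL]; ring]
  rcases lt_or_ge L 1 with hL1 | hL1
  · have h1 := npn_bd (tsupport a) hK a B0
      (fun x hx => hB0' x hx (0, 0) ⟨le_rfl, zero_le_one⟩ (by simp))
      (fun x hx => image_eq_zero_of_notMem_tsupport hx)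
      (fun x => (m : ℂ) * φ x - ((inner ℝ ξ x : ℝ) : ℂ)) him'
    rw [← hV] at h1
    have h2 : (1 + L) ^ N ≤ 2 ^ N := pow_le_pow_left₀ (by linarith) (by linarith) N
    calc _ ≤ (B0 * V) * 2 ^ N := mul_le_mul h1 h2 (by positivity) (by positivity)
      _ ≤ 2 ^ N * (B0 * V + B1 * V) := by
        have : 0 ≤ (2:ℝ) ^ N * (B1 * V) := by positivity
        linarith
  · have hLp : 0 < L := by linarith
    have hLc : (L : ℂ) ≠ 0 := by exact_mod_cast hLp.ne'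
    have hq1 : ((m / L, L⁻¹ • ξ) : ℝ × E n).1 ∈ Icc (0:ℝ) 1 := by
      refine ⟨by positivity, ?_⟩
      show m / L ≤ 1
      rw [div_le_one hLp, hL]
      linarith [norm_nonneg ξ]
    have hq2 : ‖((m / L, L⁻¹ • ξ) : ℝ × E n).2‖ ≤ 1 := by
      show ‖L⁻¹ • ξ‖ ≤ 1
      rw [norm_smul, norm_inv, Real.norm_eq_abs, abs_of_pos hLp, inv_mul_le_iff₀ hLp, mul_one, hL]
      linarith
    have hcond : ∀ x ∈ tsupport a, δ ≤ ‖((m / L, L⁻¹ • ξ) : ℝ × E n).2 -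
        ((m / L, L⁻¹ • ξ) : ℝ × E n).1 • gradient (fun y => (φ y).re) x‖ := by
      intro x hx
      have h1 := hξ x hx
      rw [← hL] at h1
      show δ ≤ ‖L⁻¹ • ξ - (m / L) • gradient (fun y => (φ y).re) x‖
      have e : L⁻¹ • ξ - (m / L) • gradient (fun y => (φ y).re) x =
          L⁻¹ • (ξ - m • gradient (fun y => (φ y).re) x) := by
        rw [smul_sub, smul_smul, div_eq_inv_mul]
      rw [e, norm_smul, norm_inv, Real.norm_eq_abs, abs_of_pos hLp, le_inv_mul_iff₀ hLp]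
      linarith
    have h2 := hi' (m / L, L⁻¹ • ξ) L hLp hcond
    have h3 := npn_bd (tsupport a) hK (fun x => a' (x, (m / L, L⁻¹ • ξ))) B1
      (fun x hx => hB1' x hx _ hq1 hq2) (fun x hx => hz' x _ hx)
      (fun x => (m : ℂ) * φ x - ((inner ℝ ξ x : ℝ) : ℂ)) him'
    have e : ∀ x : E n, (L : ℂ) * (((m / L : ℝ) : ℂ) * φ x - ((inner ℝ (L⁻¹ • ξ) x : ℝ) : ℂ)) =
        (m : ℂ) * φ x - ((inner ℝ ξ x : ℝ) : ℂ) := by
      intro x
      rw [inner_smul_left]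
      simp only [RCLike.conj_to_real]
      push_cast
      field_simp
    simp only [e] at h2
    rw [h2, norm_mul, norm_pow, norm_inv, Complex.norm_real, Real.norm_eq_abs, abs_of_pos hLp]
    rw [← hV] at h3
    have h4 : (L⁻¹) ^ N * (1 + L) ^ N ≤ 2 ^ N := by
      rw [← mul_pow]
      refine pow_le_pow_left₀ (by positivity) ?_ N
      rw [inv_mul_le_iff₀ hLp]
      linarith
    calc _ = ‖∫ x, a' (x, (m / L, L⁻¹ • ξ)) *
          Complex.exp (Complex.I * ((m : ℂ) * φ x - ((inner ℝ ξ x : ℝ) : ℂ)))‖ *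
          ((L⁻¹) ^ N * (1 + L) ^ N) := by ring
      _ ≤ (B1 * V) * 2 ^ N := mul_le_mul h3 h4 (by positivity) (by positivity)
      _ ≤ 2 ^ N * (B0 * V + B1 * V) := by
        have : 0 ≤ (2:ℝ) ^ N * (B0 * V) := by positivity
        linarith

end N_npn

end Pool.Agent.Helper459.SK
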