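import Mathlib
import Pool.Agent.Helper459.SK.Defs

set_option autoImplicit false

noncomputable section

open MeasureTheory Set Filter Topology
open scoped ContDiff ComplexConjugate

namespace Pool.Agent.Helper459.SK

namespace N_reg1

/-- test functions with support in `Ioo a b` -/
structure TF (a b : ℝ) (χ : ℝ → ℝ) : Prop where
  sm : ContDiff ℝ ∞ χ
  cs : HasCompactSupport χ
  ts : tsupport χ ⊆ Ioo a b

theorem TF.sub {a b : ℝ} {χ ψ : ℝ → ℝ} (h : TF a b χ) (h' : TF a b ψ) :
    TF a b (fun z => χ z - ψ z) :=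
  ⟨h.sm.sub h'.sm, h.cs.sub h'.cs, (tsupport_sub χ ψ).trans (union_subset h.ts h'.ts)⟩

theorem TF.const_mul {a b : ℝ} {χ : ℝ → ℝ} (h : TF a b χ) (r : ℝ) :
    TF a b (fun z => r * χ z) := by
  refine ⟨contDiff_const.mul h.sm, h.cs.mul_left, ?_⟩
  exact (tsupport_mul_subset_right (f := fun _ => r) (g := χ)).trans h.ts

theorem TF.dv {a b : ℝ} {χ : ℝ → ℝ} (h : TF a b χ) : TF a b (deriv χ) := by
  refine ⟨?_, h.cs.deriv, ?_⟩
  · exact ((contDiff_infty_iff_deriv (𝕜 := ℝ)).1 h.sm).2
  · exact (tsupport_deriv_subset (𝕜 := ℝ) (f := χ)).trans h.ts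

theorem int_mul {a b : ℝ} {k : ℝ → ℂ} (hk : LocallyIntegrableOn k (Ioo a b)) {χ : ℝ → ℝ}
    (h : TF a b χ) : Integrable (fun z => k z * (χ z : ℂ)) := by
  have h1 : IntegrableOn k (tsupport χ) := hk.integrableOn_compact_subset h.ts h.cs
  have hc : Continuous χ := h.sm.continuous
  have h2 : IntegrableOn (fun z => k z * (χ z : ℂ)) (tsupport χ) :=
    h1.mul_continuousOn (Complex.continuous_ofReal.comp hc).continuousOn h.cs
  rwa [integrableOn_iff_integrable_of_support_subset] at h2
  intro z hz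
  apply subset_tsupport χ
  rw [Function.mem_support] at hz ⊢
  intro h0
  apply hz
  simp [h0]

theorem setInt_eq {a b : ℝ} (k : ℝ → ℂ) {χ : ℝ → ℝ} (h : TF a b χ) :
    ∫ z in Ioo a b, k z * (χ z : ℂ) = ∫ z, k z * (χ z : ℂ) := by
  apply setIntegral_eq_integral_of_forall_compl_eq_zero
  intro z hz
  have : χ z = 0 := by
    by_contra hne
    exact hz (h.ts (subset_tsupport χ hne))
  simp [this]

theorem TF.icc {a b : ℝ} (hab : a < b) {χ : ℝ → ℝ} (h : TF a b χ) :
    ∃ α β : ℝ, a < α ∧ α ≤ β ∧ β < b ∧ ∀ z, z ∉ Icc α β → χ z = 0 := by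
  rcases (tsupport χ).eq_empty_or_nonempty with he | hne
  · refine ⟨(a + b) / 2, (a + b) / 2, by linarith, le_refl _, by linarith, fun z _ => ?_⟩
    by_contra hz
    have := subset_tsupport χ hz
    rw [he] at this
    exact this
  · have hK : IsCompact (tsupport χ) := h.cs
    have h1 := hK.sInf_mem hne
    have h2 := hK.sSup_mem hne
    refine ⟨sInf (tsupport χ), sSup (tsupport χ), (h.ts h1).1,
      csInf_le hK.bddBelow h2, (h.ts h2).2, fun z hz => ?_⟩
    by_contra hz'
    have hm := subset_tsupport χ hz'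
    exact hz ⟨csInf_le hK.bddBelow hm, le_csSup hK.bddAbove hm⟩

theorem TF.prim {a b : ℝ} (hab : a < b) {ψ : ℝ → ℝ} (h : TF a b ψ) (h0 : ∫ z, ψ z = 0) :
    ∃ η : ℝ → ℝ, TF a b η ∧ ∀ z, HasDerivAt η (ψ z) z := by
  obtain ⟨α, β, h1, h2, h3, hz⟩ := h.icc hab
  have hc : Continuous ψ := h.sm.continuous
  have hd : ∀ z, HasDerivAt (fun x => ∫ t in a..x, ψ t) (ψ z) z := fun z =>
    hc.integral_hasStrictDerivAt a z |>.hasDerivAt
  have hη0 : ∀ z, z ∉ Icc α β → (∫ t in a..z, ψ t) = 0 := by
    intro z hzI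
    rcases lt_or_ge z α with hlt | hge
    · apply intervalIntegral.integral_zero_ae
      refine Filter.Eventually.of_forall fun t ht => hz t fun ht' => ?_
      have : t ≤ max a z := (Set.uIoc_subset_uIcc ht).2
      have h4 : max a z < α := max_lt h1 hlt
      linarith [ht'.1]
    · have hzb : β < z := by
        by_contra hcon
        exact hzI ⟨hge, not_lt.1 hcon⟩
      have haz : a ≤ z := by linarith
      rw [intervalIntegral.integral_of_le haz, setIntegral_eq_integral_of_forall_compl_eq_zero, h0]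
      intro t ht
      apply hz
      intro ht'
      exact ht ⟨by linarith [ht'.1], by linarith [ht'.2]⟩
  have hderiv : deriv (fun x => ∫ t in a..x, ψ t) = ψ := funext fun z => (hd z).deriv
  refine ⟨fun x => ∫ t in a..x, ψ t, ⟨?_, ?_, ?_⟩, hd⟩
  · rw [contDiff_infty_iff_deriv]
    refine ⟨fun z => (hd z).differentiableAt, ?_⟩
    rw [hderiv]
    exact h.sm
  · refine HasCompactSupport.intro (K := Icc α β) isCompact_Icc ?_
    exact hη0
  · have hsub : tsupport (fun x => ∫ t in a..x, ψ t) ⊆ Icc α β := by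
      apply closure_minimal _ isClosed_Icc
      intro z hz'
      by_contra hcon
      exact hz' (hη0 z hcon)
    exact hsub.trans fun z hz' => ⟨lt_of_lt_of_le h1 hz'.1, lt_of_le_of_lt hz'.2 h3⟩

theorem exists_phi {a b : ℝ} (hab : a < b) : ∃ φ : ℝ → ℝ, TF a b φ ∧ ∫ z, φ z = 1 := by
  have hmem : Ioo a b ∈ 𝓝 ((a + b) / 2) := Ioo_mem_nhds (by linarith) (by linarith)
  obtain ⟨f, hf1, hf2, hf3, hf4, hf5⟩ :=
    exists_contDiff_tsupport_subset (n := ⊤) hmem
  have hpos : 0 < ∫ z, f z := by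
    apply Continuous.integral_pos_of_hasCompactSupport_nonneg_nonzero (hf3.continuous) hf2
    · intro z
      exact (hf4 ⟨z, rfl⟩).1
    · rw [hf5]
      exact one_ne_zero
  refine ⟨fun z => (∫ z, f z)⁻¹ * f z, TF.const_mul ⟨hf3, hf2, hf1⟩ _, ?_⟩
  rw [integral_const_mul]
  exact inv_mul_cancel₀ hpos.ne'

theorem TF.integrable {a b : ℝ} {χ : ℝ → ℝ} (h : TF a b χ) : Integrable χ :=
  h.sm.continuous.integrable_of_hasCompactSupport h.cs

/-- the first-order statement -/
theorem first_order {a b : ℝ} (hab : a < b) {k : ℝ → ℂ} (hk : LocallyIntegrableOn k (Ioo a b))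
    (h : ∀ χ : ℝ → ℝ, TF a b χ → ∫ z, k z * ((deriv χ z : ℝ) : ℂ) = 0) :
    ∃ c : ℂ, ∀ᵐ z, z ∈ Ioo a b → k z = c := by
  obtain ⟨φ, hφ, hφ1⟩ := exists_phi hab
  refine ⟨∫ z, k z * (φ z : ℂ), ?_⟩
  set c := ∫ z, k z * (φ z : ℂ) with hc
  have hlc : LocallyIntegrableOn (fun z => k z - c) (Ioo a b) :=
    hk.sub ((locallyIntegrable_const c).locallyIntegrableOn _)
  have key := IsOpen.ae_eq_zero_of_integral_contDiff_smul_eq_zero (μ := volume)
    (isOpen_Ioo : IsOpen (Ioo a b)) hlc ?_
  · filter_upwards [key] with z hz hzI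
    exact sub_eq_zero.1 (hz hzI)
  · intro ψ h1 h2 h3
    have hψ : TF a b ψ := ⟨h1, h2, h3⟩
    set A := ∫ z, ψ z with hA
    have hψ' : TF a b (fun z => ψ z - A * φ z) := hψ.sub (hφ.const_mul A)
    have hint : ∫ z, (ψ z - A * φ z) = 0 := by
      rw [integral_sub hψ.integrable (hφ.integrable.const_mul A), integral_const_mul, hφ1]
      simp [hA]
    obtain ⟨η, hη, hd⟩ := hψ'.prim hab hint
    have h4 := h η hη
    have h5 : ∀ z, deriv η z = ψ z - A * φ z := fun z => (hd z).deriv
    simp only [h5] at h4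
    have h6 : ∀ z, k z * ((ψ z - A * φ z : ℝ) : ℂ) = k z * (ψ z : ℂ) - (A : ℂ) * (k z * (φ z : ℂ)) := by
      intro z
      push_cast
      ring
    simp only [h6] at h4
    rw [integral_sub (int_mul hk hψ) ((int_mul hk hφ).const_mul _), integral_const_mul, ← hc] at h4
    have h7 : ∀ z, ψ z • (k z - c) = k z * (ψ z : ℂ) - c * (ψ z : ℂ) := by
      intro z
      rw [Complex.real_smul]
      ring
    simp only [h7]
    have hcl : LocallyIntegrableOn (fun _ : ℝ => c) (Ioo a b) :=
      (locallyIntegrable_const c).locallyIntegrableOn _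
    rw [integral_sub (int_mul hk hψ) (int_mul hcl hψ), integral_const_mul,
      integral_complex_ofReal, ← hA]
    linear_combination h4

theorem reg1 (a b : ℝ) (hab : a < b) (k : ℝ → ℂ) (hk : LocallyIntegrableOn k (Ioo a b))
    (h : ∀ χ : ℝ → ℝ, ContDiff ℝ ∞ χ → HasCompactSupport χ → tsupport χ ⊆ Ioo a b →
      ∫ z in Ioo a b, k z * ((deriv (deriv χ) z : ℝ) : ℂ) = 0) :
    ∃ c d : ℂ, k =ᵐ[volume.restrict (Ioo a b)] fun z => c + d * (z : ℂ) := by
  obtain ⟨φ, hφ, hφ1⟩ := exists_phi hab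
  set ell := ∫ z, k z * ((deriv φ z : ℝ) : ℂ) with hell
  have hlin : LocallyIntegrableOn (fun z : ℝ => ell * (z : ℂ)) (Ioo a b) := by
    have : Continuous (fun z : ℝ => ell * (z : ℂ)) := by fun_prop
    exact this.locallyIntegrable.locallyIntegrableOn _
  have hk' : LocallyIntegrableOn (fun z : ℝ => k z + ell * (z : ℂ)) (Ioo a b) := hk.add hlin
  obtain ⟨c, hcc⟩ := first_order hab hk' (by
    intro χ hχ
    set A := ∫ z, χ z with hA
    have hψ' : TF a b (fun z => χ z - A * φ z) := hχ.sub (hφ.const_mul A)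
    have hint : ∫ z, (χ z - A * φ z) = 0 := by
      rw [integral_sub hχ.integrable (hφ.integrable.const_mul A), integral_const_mul, hφ1]
      simp [hA]
    obtain ⟨η, hη, hd⟩ := hψ'.prim hab hint
    have h4 := h η hη.sm hη.cs hη.ts
    have h5 : deriv η = fun z => χ z - A * φ z := funext fun z => (hd z).deriv
    rw [setInt_eq k hη.dv.dv, h5] at h4
    have h5' : ∀ z, deriv (fun z => χ z - A * φ z) z = deriv χ z - A * deriv φ z := by
      intro z
      have d1 : HasDerivAt χ (deriv χ z) z :=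
        (hχ.sm.differentiable (by simp)).differentiableAt.hasDerivAt
      have d2 : HasDerivAt φ (deriv φ z) z :=
        (hφ.sm.differentiable (by simp)).differentiableAt.hasDerivAt
      exact (d1.sub (d2.const_mul A)).deriv
    simp only [h5'] at h4
    have h6 : ∀ z, k z * ((deriv χ z - A * deriv φ z : ℝ) : ℂ) =
        k z * ((deriv χ z : ℝ) : ℂ) - (A : ℂ) * (k z * ((deriv φ z : ℝ) : ℂ)) := by
      intro z
      push_cast
      ring
    simp only [h6] at h4
    rw [integral_sub (int_mul hk hχ.dv) ((int_mul hk hφ.dv).const_mul _),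
      integral_const_mul, ← hell] at h4
    -- the linear part: `∫ z χ' = -∫ χ`
    have hlin2 : ∫ z : ℝ, ell * (z : ℂ) * ((deriv χ z : ℝ) : ℂ) = - (ell * (A : ℂ)) := by
      have e1 : ∫ z : ℝ, z * deriv χ z = - ∫ z : ℝ, 1 * χ z := by
        apply integral_mul_deriv_eq_deriv_mul_of_integrable
        · intro z _
          exact hasDerivAt_id z
        · intro z _
          exact (hχ.sm.differentiable (by simp)).differentiableAt.hasDerivAt
        · exact (continuous_id.mul hχ.dv.sm.continuous).integrable_of_hasCompactSupport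
            hχ.dv.cs.mul_left
        · exact (continuous_const.mul hχ.sm.continuous).integrable_of_hasCompactSupport
            hχ.cs.mul_left
        · exact (continuous_id.mul hχ.sm.continuous).integrable_of_hasCompactSupport
            hχ.cs.mul_left
      have e2 : ∀ z : ℝ, ell * (z : ℂ) * ((deriv χ z : ℝ) : ℂ) =
          ell * ((z * deriv χ z : ℝ) : ℂ) := by
        intro z
        push_cast
        ring
      simp only [e2]
      rw [integral_const_mul, integral_complex_ofReal, e1]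
      simp [hA]
    have h8 : ∀ z, (k z + ell * (z : ℂ)) * ((deriv χ z : ℝ) : ℂ) =
        k z * ((deriv χ z : ℝ) : ℂ) + ell * (z : ℂ) * ((deriv χ z : ℝ) : ℂ) := fun z => by ring
    simp only [h8]
    rw [integral_add (int_mul hk hχ.dv) (int_mul hlin hχ.dv), hlin2]
    linear_combination h4)
  refine ⟨c, -ell, ?_⟩
  rw [Filter.EventuallyEq, ae_restrict_iff' measurableSet_Ioo]
  filter_upwards [hcc] with z hz hzI
  have := hz hzI
  linear_combination this

end N_reg1

end Pool.Agent.Helper459.SK
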