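import Mathlib
import Pool.Agent.Helper459.SK.Defs
import Pool.Agent.Helper459.SK.L_reg1

set_option autoImplicit false

noncomputable section

open MeasureTheory Set Filter Topology
open scoped ContDiff ComplexConjugate

namespace Pool.Agent.Helper459.SK
open N_reg1

namespace N_reg

lemma chi_zero {a b : ℝ} {χ : ℝ → ℝ} (hs : tsupport χ ⊆ Ioo a b) {x : ℝ} (hx : x ∉ Ioo a b) :
    χ x = 0 := image_eq_zero_of_notMem_tsupport fun h => hx (hs h)

lemma dchi_zero {a b : ℝ} {χ : ℝ → ℝ} (hs : tsupport χ ⊆ Ioo a b) {x : ℝ} (hx : x ∉ Ioo a b) :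
    deriv χ x = 0 := by
  have h1 : tsupport (deriv χ) ⊆ tsupport χ := by
    have := support_deriv_subset (𝕜 := ℝ) (f := χ)
    exact closure_minimal this (isClosed_tsupport χ)
  exact image_eq_zero_of_notMem_tsupport fun h => hx (hs (h1 h))

lemma int_dchi {a b : ℝ} {χ : ℝ → ℝ} (hχ : ContDiff ℝ ∞ χ) (x y : ℝ) :
    ∫ z in x..y, ((deriv χ z : ℝ) : ℂ) = ((χ y : ℝ) : ℂ) - ((χ x : ℝ) : ℂ) := by
  have hd : Continuous (deriv χ) := hχ.continuous_deriv (by simp)
  refine intervalIntegral.integral_eq_sub_of_hasDerivAt (f := fun z => ((χ z : ℝ) : ℂ)) ?_ ?_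
  · intro z _
    exact ((hχ.differentiable (by simp)) z).hasDerivAt.ofReal_comp
  · exact (Complex.continuous_ofReal.comp hd).intervalIntegrable _ _

lemma ibpQ {a b : ℝ} (hab : a < b) {q : ℝ → ℂ} (hq : IntegrableOn q (Ioo a b)) {χ : ℝ → ℝ}
    (hχ : ContDiff ℝ ∞ χ) (hs : tsupport χ ⊆ Ioo a b) {c0 : ℝ} (hc0 : c0 ∈ Ioo a b) :
    ∫ x in Ioo a b, (∫ z in c0..x, (Ioo a b).indicator q z) * ((deriv χ x : ℝ) : ℂ) =
      - ∫ x in Ioo a b, q x * ((χ x : ℝ) : ℂ) := by
  have hd : Continuous (deriv χ) := hχ.continuous_deriv (by simp)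
  have hdc : Continuous (fun x => ((deriv χ x : ℝ) : ℂ)) := Complex.continuous_ofReal.comp hd
  have hdi : IntegrableOn (fun x => ((deriv χ x : ℝ) : ℂ)) (Ioo a b) :=
    (hdc.continuousOn.integrableOn_compact (isCompact_Icc (a := a) (b := b))).mono_set Ioo_subset_Icc_self
  have hχa : χ a = 0 := chi_zero hs (by simp)
  have hχb : χ b = 0 := chi_zero hs (by simp)
  have hq1 : Integrable ((Ioo a b).indicator q) := hq.integrable_indicator measurableSet_Ioo
  have hqi : ∀ x y, IntervalIntegrable ((Ioo a b).indicator q) volume x y := fun x y =>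
    hq1.intervalIntegrable
  -- the primitive as an integral over the restricted measure
  have hP : ∀ x ∈ Ioo a b, (∫ z in c0..x, (Ioo a b).indicator q z) =
      (∫ z in Ioo a b, (Iic x).indicator q z) - ∫ z in a..c0, (Ioo a b).indicator q z := by
    intro x hx
    have e1 : ∫ z in a..x, (Ioo a b).indicator q z = ∫ z in Ioo a b, (Iic x).indicator q z := by
      rw [intervalIntegral.integral_of_le hx.1.le, setIntegral_indicator measurableSet_Ioo,
        setIntegral_indicator measurableSet_Iic]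
      congr 2
      ext z
      simp only [mem_inter_iff, mem_Ioc, mem_Ioo, mem_Iic]
      constructor
      · rintro ⟨⟨h1, h2⟩, h3, h4⟩; exact ⟨⟨h3, h4⟩, h2⟩
      · rintro ⟨⟨h1, h2⟩, h3⟩; exact ⟨⟨h1, h3⟩, h1, h2⟩
    rw [← e1, ← intervalIntegral.integral_add_adjacent_intervals (hqi a c0) (hqi c0 x)]
    ring
  obtain ⟨k, hk⟩ : ∃ k : ℂ, k = ∫ z in a..c0, (Ioo a b).indicator q z := ⟨_, rfl⟩
  rw [← hk] at hP
  have e2 : ∫ x in Ioo a b, (∫ z in c0..x, (Ioo a b).indicator q z) * ((deriv χ x : ℝ) : ℂ) =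
      ∫ x in Ioo a b, ((∫ z in Ioo a b, (Iic x).indicator q z * ((deriv χ x : ℝ) : ℂ)) -
        k * ((deriv χ x : ℝ) : ℂ)) := by
    refine setIntegral_congr_fun measurableSet_Ioo fun x hx => ?_
    rw [hP x hx, integral_mul_const]
    ring
  rw [e2]
  have hint : Integrable (Function.uncurry fun (x z : ℝ) => (Iic x).indicator q z * ((deriv χ x : ℝ) : ℂ))
      ((volume.restrict (Ioo a b)).prod (volume.restrict (Ioo a b))) := by
    have h1 : Integrable (fun p : ℝ × ℝ => ((deriv χ p.1 : ℝ) : ℂ) * q p.2)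
        ((volume.restrict (Ioo a b)).prod (volume.restrict (Ioo a b))) := Integrable.mul_prod hdi hq
    have h2 : MeasurableSet {p : ℝ × ℝ | p.2 ≤ p.1} := measurableSet_le measurable_snd measurable_fst
    have h3 := h1.indicator h2
    refine h3.congr (Eventually.of_forall fun p => ?_)
    by_cases hp : p.2 ≤ p.1
    · rw [indicator_of_mem (show p ∈ {p : ℝ × ℝ | p.2 ≤ p.1} from hp)]
      simp only [Function.uncurry]
      rw [indicator_of_mem (show p.2 ∈ Iic p.1 from hp)]
      ring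
    · rw [indicator_of_notMem (show p ∉ {p : ℝ × ℝ | p.2 ≤ p.1} from hp)]
      simp only [Function.uncurry]
      rw [indicator_of_notMem (show p.2 ∉ Iic p.1 from hp), zero_mul]
  have hil : Integrable (fun x => ∫ z in Ioo a b, (Iic x).indicator q z * ((deriv χ x : ℝ) : ℂ))
      (volume.restrict (Ioo a b)) := hint.integral_prod_left
  rw [integral_sub hil (hdi.const_mul k), integral_const_mul,
    integral_integral_swap hint]
  have e3 : ∫ x in Ioo a b, ((deriv χ x : ℝ) : ℂ) = 0 := by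
    rw [← integral_Ioc_eq_integral_Ioo, ← intervalIntegral.integral_of_le hab.le,
      int_dchi (a := a) (b := b) hχ, hχa, hχb]
    simp
  rw [e3, mul_zero, sub_zero, ← integral_neg]
  refine setIntegral_congr_fun measurableSet_Ioo fun z hz => ?_
  have e4 : ∀ x, (Iic x).indicator q z * ((deriv χ x : ℝ) : ℂ) =
      q z * (Ici z).indicator (fun x => ((deriv χ x : ℝ) : ℂ)) x := by
    intro x
    by_cases hx : z ≤ x
    · rw [indicator_of_mem (show z ∈ Iic x from hx), indicator_of_mem (show x ∈ Ici z from hx)]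
    · rw [indicator_of_notMem (show z ∉ Iic x from hx), indicator_of_notMem (show x ∉ Ici z from hx)]
      simp
  simp only [e4]
  rw [integral_const_mul, setIntegral_indicator measurableSet_Ici]
  have e5 : Ioo a b ∩ Ici z = Ico z b := by
    ext x
    simp only [mem_inter_iff, mem_Ioo, mem_Ici, mem_Ico]
    constructor
    · rintro ⟨⟨h1, h2⟩, h3⟩; exact ⟨h3, h2⟩
    · rintro ⟨h1, h2⟩; exact ⟨⟨hz.1.trans_le h1, h2⟩, h1⟩
  rw [e5, integral_Ico_eq_integral_Ioo, ← integral_Ioc_eq_integral_Ioo,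
    ← intervalIntegral.integral_of_le hz.2.le, int_dchi (a := a) (b := b) hχ, hχb]
  simp

theorem reg (w : ℝ → ℝ) (hw : WP w) (m : ℕ) (g h : ℝ → ℂ)
    (hg : MemLp g 2 (volume.restrict (Ioo (3 / 2 : ℝ) (9 / 2))))
    (hh : MemLp h 2 (volume.restrict (Ioo (3 / 2 : ℝ) (9 / 2))))
    (weak : ∀ χ : ℝ → ℝ, ContDiff ℝ ∞ χ → HasCompactSupport χ → tsupport χ ⊆ Ioo (3 / 2 : ℝ) (9 / 2) →
      ∫ z in Ioo (3 / 2 : ℝ) (9 / 2), g z * ((deriv (deriv χ) z : ℝ) : ℂ) =
      ∫ z in Ioo (3 / 2 : ℝ) (9 / 2), (-((m : ℂ) ^ 2 * (w z : ℂ)) * g z - 2 * h z) * (χ z : ℂ)) :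
    ∃ G G1 : ℝ → ℂ, g =ᵐ[volume.restrict (Ioo (3 / 2 : ℝ) (9 / 2))] G ∧
      (∀ z ∈ Ioo (3 / 2 : ℝ) (9 / 2), HasDerivAt G (G1 z) z) ∧
      ContinuousOn G1 (Ioo (3 / 2 : ℝ) (9 / 2)) ∧
      ∀ x ∈ Ioo (3 / 2 : ℝ) (9 / 2), ∀ y ∈ Ioo (3 / 2 : ℝ) (9 / 2),
        G1 y - G1 x = ∫ z in x..y, (-((m : ℂ) ^ 2 * (w z : ℂ)) * G z - 2 * h z) := by
  have hab : (3 / 2 : ℝ) < 9 / 2 := by norm_num
  have hgi : IntegrableOn g (Ioo (3 / 2 : ℝ) (9 / 2)) := hg.integrable one_le_two
  have hhi : IntegrableOn h (Ioo (3 / 2 : ℝ) (9 / 2)) := hh.integrable one_le_two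
  have hwc : ContinuousOn w (Icc (3 / 2 : ℝ) (9 / 2)) := fun z hz =>
    (hw.smooth z (by have := hz.1; linarith)).continuousAt.continuousWithinAt
  obtain ⟨W, hW⟩ := isCompact_Icc.exists_bound_of_continuousOn hwc
  obtain ⟨q, hq⟩ : ∃ q : ℝ → ℂ, q = fun z => -((m : ℂ) ^ 2 * (w z : ℂ)) * g z - 2 * h z := ⟨_, rfl⟩
  have hqi : IntegrableOn q (Ioo (3 / 2 : ℝ) (9 / 2)) := by
    rw [hq]
    refine Integrable.sub ?_ (hhi.const_mul 2)
    refine Integrable.bdd_mul (c := (m : ℝ) ^ 2 * W) hgi ?_ ?_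
    · refine ContinuousOn.aestronglyMeasurable ?_ measurableSet_Ioo
      refine ContinuousOn.neg (ContinuousOn.mul continuousOn_const ?_)
      exact Complex.continuous_ofReal.comp_continuousOn (hwc.mono Ioo_subset_Icc_self)
    · rw [ae_restrict_iff' measurableSet_Ioo]
      refine Eventually.of_forall fun z hz => ?_
      rw [norm_neg, norm_mul, norm_pow, Complex.norm_natCast, Complex.norm_real]
      exact mul_le_mul_of_nonneg_left (hW z (Ioo_subset_Icc_self hz)) (by positivity)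
  have hq1 : Integrable ((Ioo (3 / 2 : ℝ) (9 / 2)).indicator q) := hqi.integrable_indicator measurableSet_Ioo
  have hqii : ∀ x y, IntervalIntegrable ((Ioo (3 / 2 : ℝ) (9 / 2)).indicator q) volume x y := fun x y =>
    hq1.intervalIntegrable
  obtain ⟨Q, hQ⟩ : ∃ Q : ℝ → ℂ, Q = fun x => ∫ z in (3 : ℝ)..x, (Ioo (3 / 2 : ℝ) (9 / 2)).indicator q z :=
    ⟨_, rfl⟩
  have hQc : Continuous Q := by
    rw [hQ]; exact intervalIntegral.continuous_primitive hqii 3
  obtain ⟨F, hF⟩ : ∃ F : ℝ → ℂ, F = fun x => ∫ z in (3 : ℝ)..x, Q z := ⟨_, rfl⟩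
  have hFd : ∀ x, HasDerivAt F (Q x) x := by
    intro x
    rw [hF]
    exact (hQc.integral_hasStrictDerivAt 3 x).hasDerivAt
  have hFc : Continuous F := continuous_iff_continuousAt.2 fun x => (hFd x).continuousAt
  have hFi : IntegrableOn F (Ioo (3 / 2 : ℝ) (9 / 2)) :=
    (hFc.continuousOn.integrableOn_compact (isCompact_Icc (a := (3 / 2 : ℝ)) (b := 9 / 2))).mono_set
      Ioo_subset_Icc_self
  obtain ⟨c, d, hcd⟩ := reg1 (3 / 2) (9 / 2) hab (fun z => g z - F z)
    (IntegrableOn.locallyIntegrableOn (hgi.sub hFi)) (by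
      intro χ hχ hcs hs
      have hd1 : ContDiff ℝ ∞ (deriv χ) := by
        rw [show (∞ : WithTop ℕ∞) = ∞ + 1 by rfl] at hχ
        exact (contDiff_succ_iff_deriv.1 hχ).2.2
      have hd2 : Continuous (deriv (deriv χ)) := hd1.continuous_deriv (by simp)
      have hdc2 : Continuous (fun x => ((deriv (deriv χ) x : ℝ) : ℂ)) := Complex.continuous_ofReal.comp hd2
      have i1 : IntegrableOn (fun z => g z * ((deriv (deriv χ) z : ℝ) : ℂ)) (Ioo (3 / 2 : ℝ) (9 / 2)) := by
        obtain ⟨M, hM⟩ := isCompact_Icc.exists_bound_of_continuousOn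
          (hdc2.continuousOn (s := Icc (3 / 2 : ℝ) (9 / 2)))
        have := Integrable.bdd_mul (c := M) hgi
          (hdc2.continuousOn.aestronglyMeasurable measurableSet_Ioo) (by
            rw [ae_restrict_iff' measurableSet_Ioo]
            exact Eventually.of_forall fun z hz => hM z (Ioo_subset_Icc_self hz))
        refine this.congr (Eventually.of_forall fun z => mul_comm _ _)
      have i2 : IntegrableOn (fun z => F z * ((deriv (deriv χ) z : ℝ) : ℂ)) (Ioo (3 / 2 : ℝ) (9 / 2)) :=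
        ((hFc.mul hdc2).continuousOn.integrableOn_compact
          (isCompact_Icc (a := (3 / 2 : ℝ)) (b := 9 / 2))).mono_set Ioo_subset_Icc_self
      simp only [sub_mul]
      rw [integral_sub i1 i2, weak χ hχ hcs hs]
      have e1 : ∫ z in Ioo (3 / 2 : ℝ) (9 / 2), F z * ((deriv (deriv χ) z : ℝ) : ℂ) =
          - ∫ z in Ioo (3 / 2 : ℝ) (9 / 2), Q z * ((deriv χ z : ℝ) : ℂ) := by
        rw [← integral_Ioc_eq_integral_Ioo, ← integral_Ioc_eq_integral_Ioo,
          ← intervalIntegral.integral_of_le hab.le, ← intervalIntegral.integral_of_le hab.le]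
        rw [intervalIntegral.integral_mul_deriv_eq_deriv_mul (u := F) (u' := Q)
          (v := fun z => ((deriv χ z : ℝ) : ℂ)) (v' := fun z => ((deriv (deriv χ) z : ℝ) : ℂ))
          (fun x _ => hFd x)
          (fun x _ => ((hd1.differentiable (by simp)) x).hasDerivAt.ofReal_comp)
          (hQc.intervalIntegrable _ _) (hdc2.intervalIntegrable _ _)]
        rw [dchi_zero hs (x := 9 / 2) (by simp), dchi_zero hs (x := 3 / 2) (by simp)]
        simp
      have e2 := ibpQ hab hqi hχ hs (c0 := 3) (by constructor <;> norm_num)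
      rw [e1, hQ]
      simp only
      rw [e2, neg_neg, hq, sub_self])
  refine ⟨fun z => F z + (c + d * (z : ℂ)), fun z => Q z + d, ?_, ?_, ?_, ?_⟩
  · filter_upwards [hcd] with z hz
    rw [← hz]; ring
  · intro z _
    have h1 : HasDerivAt (fun z : ℝ => c + d * (z : ℂ)) d z := by
      have h2 : HasDerivAt (fun z : ℝ => (z : ℂ)) 1 z := (hasDerivAt_id z).ofReal_comp
      have h3 := (h2.const_mul d).const_add c
      simpa using h3
    exact (hFd z).add h1
  · exact (hQc.add continuous_const).continuousOn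
  · intro x hx y hy
    have e1 : Q y + d - (Q x + d) = ∫ z in x..y, (Ioo (3 / 2 : ℝ) (9 / 2)).indicator q z := by
      rw [hQ]
      have := intervalIntegral.integral_interval_sub_left (hqii 3 y) (hqii 3 x)
      rw [← this]
      ring
    rw [e1]
    refine intervalIntegral.integral_congr_ae ?_
    rw [Filter.EventuallyEq, ae_restrict_iff' measurableSet_Ioo] at hcd
    filter_upwards [hcd] with z hz hzxy
    have hzI : z ∈ Ioo (3 / 2 : ℝ) (9 / 2) := by
      rw [uIoc, mem_Ioc] at hzxy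
      constructor
      · exact (lt_min hx.1 hy.1).trans hzxy.1
      · exact hzxy.2.trans_lt (max_lt hx.2 hy.2)
    rw [indicator_of_mem hzI, hq]
    simp only
    rw [← hz hzI]
    ring

end N_reg

end Pool.Agent.Helper459.SK
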