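import Mathlib
import Pool.Agent.Helper459.SK.Defs
import Pool.Agent.Helper459.SK.L_rep
import Pool.Agent.Helper459.SK.L_cms

set_option autoImplicit false

noncomputable section

open MeasureTheory Set Filter Topology
open scoped ContDiff ComplexConjugate

namespace Pool.Agent.Helper459.SK
open N_rep
open N_cms

namespace N_main1D

theorem main1D_bd (G : ℝ → ℂ) (K : ℝ) (hG : ContinuousOn G (Icc (2 : ℝ) 3)) (hK : L2b K G)
    (φ : ℝ → ℝ) (hφ : Continuous φ) (δ : ℝ) (hδ : 0 ≤ δ) (hφδ : ∀ z ∈ Icc (2 : ℝ) 3, |φ z| ≤ δ) :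
    ‖∫ z in (2 : ℝ)..3, (φ z : ℂ) * G z‖ ≤ δ * (1 + K ^ 2) := by
  have h23 : (2 : ℝ) ≤ 3 := by norm_num
  have hu : uIcc (2 : ℝ) 3 = Icc 2 3 := uIcc_of_le h23
  have hGn : ContinuousOn (fun z => 1 + ‖G z‖ ^ 2) (Icc (2 : ℝ) 3) :=
    continuousOn_const.add (hG.norm.pow 2)
  have i1 : IntervalIntegrable (fun z => δ * (1 + ‖G z‖ ^ 2)) volume 2 3 := by
    apply ContinuousOn.intervalIntegrable
    rw [hu]
    exact continuousOn_const.mul hGn
  have h1 : ‖∫ z in (2 : ℝ)..3, (φ z : ℂ) * G z‖ ≤ ∫ z in (2 : ℝ)..3, δ * (1 + ‖G z‖ ^ 2) := by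
    refine intervalIntegral.norm_integral_le_of_norm_le h23 ?_ i1
    refine Filter.Eventually.of_forall fun z hz => ?_
    rw [norm_mul, Complex.norm_real, Real.norm_eq_abs]
    have hz' : z ∈ Icc (2 : ℝ) 3 := Ioc_subset_Icc_self hz
    have h2 : ‖G z‖ ≤ 1 + ‖G z‖ ^ 2 := by nlinarith [sq_nonneg (‖G z‖ - 1), norm_nonneg (G z)]
    exact mul_le_mul (hφδ z hz') h2 (norm_nonneg _) hδ
  refine h1.trans ?_
  rw [intervalIntegral.integral_const_mul]
  refine mul_le_mul_of_nonneg_left ?_ hδ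
  have i2 : IntervalIntegrable (fun z => ‖G z‖ ^ 2) volume 2 3 := by
    apply ContinuousOn.intervalIntegrable
    rw [hu]
    exact hG.norm.pow 2
  rw [intervalIntegral.integral_add intervalIntegrable_const i2, intervalIntegral.integral_const]
  have h3 : ∫ z in (2 : ℝ)..3, ‖G z‖ ^ 2 ≤ K ^ 2 := by
    rw [intervalIntegral.integral_of_le h23]
    refine (setIntegral_mono_set hK.1 (Filter.Eventually.of_forall fun z => sq_nonneg _) ?_).trans
      hK.2
    refine LE.le.eventuallyLE ?_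
    intro z hz
    exact ⟨by linarith [hz.1], by linarith [hz.2]⟩
  have h4 : (3 - 2 : ℝ) • (1 : ℝ) = 1 := by norm_num
  rw [h4]
  linarith

theorem main1D (w f : ℝ → ℝ) (hw : WP w) (hf : FP f) (χ : ℝ → ℝ) (hχ : Chi χ) (g : ℕ → ℕ → ℝ → L2z)
    (Kc : ℕ → ℝ) (hs : Sys w f g Kc) (ho : Osc χ g) : False := by
  obtain ⟨G, G1, hr⟩ := rep w f hw g Kc hs
  set K : ℝ := Kc 0 with hKdef
  have hGc : ∀ m t, ContinuousOn (G m 0 t) (Icc (2 : ℝ) 3) := by
    intro m t z hz
    exact ((hr.sol m 0 t).d0 z ⟨by linarith [hz.1], by linarith [hz.2]⟩).continuousAt.continuousWithinAt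
  set cr : ℝ → ℝ := fun om => ∫ z in (2 : ℝ)..3, Real.sin (om * (z - 2)) * f z with hcr
  have hcc : ∀ om : ℝ, ∫ z in (2 : ℝ)..3, (Real.sin (om * (z - 2)) : ℂ) * (f z : ℂ) =
      ((cr om : ℝ) : ℂ) := by
    intro om
    rw [hcr]
    simp only
    rw [← intervalIntegral.integral_ofReal]
    congr 1
    funext z
    push_cast
    ring
  have hfc : Continuous f := hf.smooth.continuous
  -- main inequality
  have key : ∀ t : ℝ, 0 < t → ∀ om om' : ℝ,
      ‖Complex.exp (-(Complex.I * ((om ^ 2 * t / 2 : ℝ) : ℂ))) * ((cr om : ℝ) : ℂ) -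
        Complex.exp (-(Complex.I * ((om' ^ 2 * t / 2 : ℝ) : ℂ))) * ((cr om' : ℝ) : ℂ)‖ ≤
      |om - om'| * (1 + K ^ 2) := by
    intro t ht om om'
    have l1 := cms w f hw hf χ hχ g Kc hs ho G G1 hr t ht om
    have l2 := cms w f hw hf χ hχ g Kc hs ho G G1 hr t ht om'
    rw [hcc] at l1 l2
    have l3 := (l1.sub l2).norm
    refine le_of_tendsto' l3 fun m => ?_
    have ii : ∀ om : ℝ, IntervalIntegrable
        (fun z => (Real.sin (om * (z - 2)) : ℂ) * G m 0 t z) volume 2 3 := by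
      intro om
      apply ContinuousOn.intervalIntegrable
      rw [uIcc_of_le (by norm_num : (2 : ℝ) ≤ 3)]
      refine ContinuousOn.mul ?_ (hGc m t)
      exact (Continuous.continuousOn (by fun_prop))
    rw [← intervalIntegral.integral_sub (ii om) (ii om')]
    have e1 : (fun z => (Real.sin (om * (z - 2)) : ℂ) * G m 0 t z -
        (Real.sin (om' * (z - 2)) : ℂ) * G m 0 t z) =
        fun z => ((Real.sin (om * (z - 2)) - Real.sin (om' * (z - 2)) : ℝ) : ℂ) * G m 0 t z := by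
      funext z
      push_cast
      ring
    rw [e1]
    refine main1D_bd (G m 0 t) K (hGc m t) (hr.bd m 0 t)
      (fun z => Real.sin (om * (z - 2)) - Real.sin (om' * (z - 2))) (by fun_prop) _ (abs_nonneg _) ?_
    intro z hz
    have h1 : |Real.sin (om * (z - 2)) - Real.sin (om' * (z - 2))| ≤
        |om * (z - 2) - om' * (z - 2)| := by
      have := Real.lipschitzWith_sin.dist_le_mul (om * (z - 2)) (om' * (z - 2))
      rw [Real.dist_eq, Real.dist_eq] at this
      simpa using this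
    refine h1.trans ?_
    rw [← sub_mul, abs_mul]
    have h2 : |z - 2| ≤ 1 := by
      rw [abs_le]
      exact ⟨by linarith [hz.1], by linarith [hz.2]⟩
    exact mul_le_of_le_one_right (abs_nonneg _) h2
  -- positivity
  have hsin : ∀ om : ℝ, 0 < om → om < 3 → ∀ z ∈ Ioc (2 : ℝ) 3, 0 < Real.sin (om * (z - 2)) := by
    intro om h0 h3 z hz
    have h4 : 0 < z - 2 := by linarith [hz.1]
    have h5 : z - 2 ≤ 1 := by linarith [hz.2]
    apply Real.sin_pos_of_pos_of_lt_pi
    · positivity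
    · have := Real.pi_gt_three
      nlinarith
  have hnn : ∀ om : ℝ, 0 < om → om < 3 → 0 ≤ cr om := by
    intro om h0 h3
    rw [hcr]
    simp only
    rw [intervalIntegral.integral_of_le (by norm_num : (2 : ℝ) ≤ 3)]
    refine setIntegral_nonneg measurableSet_Ioc fun z hz => ?_
    exact mul_nonneg (hsin om h0 h3 z hz).le (hf.nonneg z)
  have hpos : 0 < cr 1 := by
    obtain ⟨z0, hz0⟩ := hf.pos
    have hz0' : z0 ∈ Ioo (2 : ℝ) 3 := by
      apply hf.supp
      apply subset_tsupport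
      rw [Function.mem_support]
      exact hz0.ne'
    rw [hcr]
    simp only
    refine intervalIntegral.integral_pos (by norm_num) ?_ ?_ ⟨z0, Ioo_subset_Icc_self hz0', ?_⟩
    · exact (Continuous.continuousOn (by fun_prop))
    · intro z hz
      exact mul_nonneg (hsin 1 one_pos (by norm_num) z hz).le (hf.nonneg z)
    · exact mul_pos (hsin 1 one_pos (by norm_num) z0 (Ioo_subset_Ioc_self hz0')) hz0
  have fin : ∀ h : ℝ, 0 < h → h < 1 → cr 1 ≤ h * (1 + K ^ 2) := by
    intro h h0 h1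
    have hden : 0 < h * (2 + h) := by positivity
    have ht : 0 < 2 * Real.pi / (h * (2 + h)) := by positivity
    have hk := key _ ht 1 (1 + h)
    have e1 : (1 + h) ^ 2 * (2 * Real.pi / (h * (2 + h))) / 2 =
        1 ^ 2 * (2 * Real.pi / (h * (2 + h))) / 2 + Real.pi := by
      field_simp
      ring
    have e2 : Complex.exp (-(Complex.I * (((1 + h) ^ 2 * (2 * Real.pi / (h * (2 + h))) / 2 : ℝ) : ℂ)))
        = - Complex.exp (-(Complex.I * ((1 ^ 2 * (2 * Real.pi / (h * (2 + h))) / 2 : ℝ) : ℂ))) := by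
      rw [e1]
      have : -(Complex.I * (((1 ^ 2 * (2 * Real.pi / (h * (2 + h))) / 2 + Real.pi : ℝ) : ℂ))) =
          -(Complex.I * ((1 ^ 2 * (2 * Real.pi / (h * (2 + h))) / 2 : ℝ) : ℂ)) +
            -(Real.pi * Complex.I) := by
        push_cast
        ring
      rw [this, Complex.exp_add, Complex.exp_neg (Real.pi * Complex.I), Complex.exp_pi_mul_I]
      norm_num
    rw [e2] at hk
    have e3 : ∀ (E : ℂ) (a b : ℝ), E * (a : ℂ) - -E * (b : ℂ) = E * ((a + b : ℝ) : ℂ) := by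
      intro E a b
      push_cast
      ring
    rw [e3, norm_mul, Complex.norm_real] at hk
    have e4' : ∀ x : ℝ, ‖Complex.exp (-(Complex.I * (x : ℂ)))‖ = 1 := by
      intro x
      rw [Complex.norm_exp]
      simp
    have e4 := e4' (1 ^ 2 * (2 * Real.pi / (h * (2 + h))) / 2)
    have h5 := hnn (1 + h) (by linarith) (by linarith)
    rw [e4, one_mul, Real.norm_of_nonneg (add_nonneg hpos.le h5)] at hk
    have e5 : |1 - (1 + h)| = h := by
      rw [show (1 : ℝ) - (1 + h) = -h by ring, abs_neg, abs_of_pos h0]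
    rw [e5] at hk
    linarith
  have hK0 : 0 < 1 + K ^ 2 := by positivity
  have h1 := fin (min (1 / 2) (cr 1 / (2 * (1 + K ^ 2)))) (by positivity)
    (lt_of_le_of_lt (min_le_left _ _) (by norm_num))
  have h2 : min (1 / 2) (cr 1 / (2 * (1 + K ^ 2))) * (1 + K ^ 2) ≤
      cr 1 / (2 * (1 + K ^ 2)) * (1 + K ^ 2) :=
    mul_le_mul_of_nonneg_right (min_le_right _ _) hK0.le
  have h3 : cr 1 / (2 * (1 + K ^ 2)) * (1 + K ^ 2) = cr 1 / 2 := by
    field_simp
  linarith

end N_main1D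

end Pool.Agent.Helper459.SK
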