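import Mathlib
import Pool.Agent.Helper459.SK.NDefs
import Pool.Agent.Helper459.SK.L_reg

set_option autoImplicit false

noncomputable section

open MeasureTheory Set Filter Topology
open scoped ContDiff ComplexConjugate

namespace Pool.Agent.Helper459.SK
open N_reg

namespace N_rep2

theorem aux_sub : Ioo (3 / 2 : ℝ) (9 / 2) ⊆ Ioi (0 : ℝ) := by
  intro x hx
  have := hx.1
  simp only [mem_Ioi]
  linarith

theorem aux_memLp (g : L2z) :
    MemLp (g : ℝ → ℂ) 2 (volume.restrict (Ioo (3 / 2 : ℝ) (9 / 2))) :=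
  (Lp.memLp g).mono_measure (Measure.restrict_mono aux_sub le_rfl)

theorem aux_norm (g : L2z) : ∫ z in Ioi (0 : ℝ), ‖(g : ℝ → ℂ) z‖ ^ 2 = ‖g‖ ^ 2 := by
  have h1 : (inner ℂ g g : ℂ) = ((‖g‖ : ℝ) : ℂ) ^ 2 := inner_self_eq_norm_sq_to_K g
  rw [MeasureTheory.L2.inner_def] at h1
  have h2 : ∀ z, (inner ℂ ((g : ℝ → ℂ) z) ((g : ℝ → ℂ) z) : ℂ) =
      (((‖(g : ℝ → ℂ) z‖ ^ 2 : ℝ)) : ℂ) := by
    intro z
    have := inner_self_eq_norm_sq_to_K (𝕜 := ℂ) ((g : ℝ → ℂ) z)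
    rw [this]
    push_cast
    rfl
  simp only [h2] at h1
  rw [integral_complex_ofReal] at h1
  exact_mod_cast h1

theorem aux_L2b (g : L2z) (K : ℝ) (hK : ‖g‖ ≤ K) (G : ℝ → ℂ)
    (hae : (g : ℝ → ℂ) =ᵐ[volume.restrict (Ioo (3 / 2 : ℝ) (9 / 2))] G) : L2b K G := by
  have hm : MemLp G 2 (volume.restrict (Ioo (3 / 2 : ℝ) (9 / 2))) :=
    (memLp_congr_ae hae).mp (aux_memLp g)
  have hi : Integrable (fun z => ‖G z‖ ^ 2) (volume.restrict (Ioo (3 / 2 : ℝ) (9 / 2))) :=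
    (memLp_two_iff_integrable_sq_norm hm.1).mp hm
  refine ⟨hi, ?_⟩
  have e1 : ∫ z in Ioo (3 / 2 : ℝ) (9 / 2), ‖G z‖ ^ 2 =
      ∫ z in Ioo (3 / 2 : ℝ) (9 / 2), ‖(g : ℝ → ℂ) z‖ ^ 2 := by
    apply integral_congr_ae
    filter_upwards [hae] with z hz
    rw [hz]
  have hgi : Integrable (fun z => ‖(g : ℝ → ℂ) z‖ ^ 2) (volume.restrict (Ioi (0 : ℝ))) :=
    (memLp_two_iff_integrable_sq_norm (Lp.memLp g).1).mp (Lp.memLp g)
  have e2 : ∫ z in Ioo (3 / 2 : ℝ) (9 / 2), ‖(g : ℝ → ℂ) z‖ ^ 2 ≤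
      ∫ z in Ioi (0 : ℝ), ‖(g : ℝ → ℂ) z‖ ^ 2 := by
    apply setIntegral_mono_set hgi
    · exact Filter.Eventually.of_forall fun z => by positivity
    · exact aux_sub.eventuallyLE
  rw [e1]
  refine e2.trans ?_
  rw [aux_norm]
  exact pow_le_pow_left₀ (norm_nonneg _) hK 2

theorem aux_memLp_h (w : ℝ → ℝ) (hw : WP w) (q : ℝ) (g1 g0 : L2z) :
    MemLp (fun z => (g1 : ℝ → ℂ) z - (q : ℂ) * (w z : ℂ) * (g0 : ℝ → ℂ) z) 2
      (volume.restrict (Ioo (3 / 2 : ℝ) (9 / 2))) := by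
  have hcI : ContinuousOn w (Icc (3 / 2 : ℝ) (9 / 2)) := by
    intro x hx
    have hx0 : 0 < x := by
      have := hx.1
      linarith
    exact (hw.smooth x hx0).continuousAt.continuousWithinAt
  obtain ⟨M, hM⟩ := isCompact_Icc.exists_bound_of_continuousOn hcI
  have hwc : ContinuousOn (fun z => ((w z : ℝ) : ℂ)) (Ioo (3 / 2 : ℝ) (9 / 2)) :=
    (Complex.continuous_ofReal.comp_continuousOn hcI).mono Ioo_subset_Icc_self
  have hwm : AEStronglyMeasurable (fun z => ((w z : ℝ) : ℂ))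
      (volume.restrict (Ioo (3 / 2 : ℝ) (9 / 2))) :=
    hwc.aestronglyMeasurable measurableSet_Ioo
  have h0 := aux_memLp g0
  refine (aux_memLp g1).sub ?_
  refine h0.of_le_mul (c := |q| * M) ?_ ?_
  · exact (aestronglyMeasurable_const.mul hwm).mul h0.1
  · refine (ae_restrict_iff' measurableSet_Ioo).mpr (Filter.Eventually.of_forall fun z hz => ?_)
    have h1 := hM z (Ioo_subset_Icc_self hz)
    rw [norm_mul, norm_mul, Complex.norm_real, Complex.norm_real, Real.norm_eq_abs]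
    exact mul_le_mul_of_nonneg_right (mul_le_mul_of_nonneg_left h1 (abs_nonneg q)) (norm_nonneg _)

theorem rep2 (w f : ℝ → ℝ) (hw : WP w) (ν : ℕ → ℕ) (q : ℝ) (g : ℕ → ℕ → ℝ → L2z) (Kc : ℕ → ℝ) (hs : Sys2 w f ν q g Kc) :
    ∃ G G1 : ℕ → ℕ → ℝ → ℝ → ℂ, Rep2 w ν q g G G1 Kc := by
  have key := fun l j t => reg w hw (ν l) (g l j t)
    (fun z => (g l (j + 1) t : ℝ → ℂ) z - (q : ℂ) * (w z : ℂ) * (g l j t : ℝ → ℂ) z)
    (aux_memLp _) (aux_memLp_h w hw q _ _) (hs.weak l j t)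
  choose G G1 hae hder hcont hftc using key
  have hGc : ∀ m j t, ContinuousOn (G m j t) (Ioo (3 / 2 : ℝ) (9 / 2)) := fun m j t z hz =>
    (hder m j t z hz).continuousAt.continuousWithinAt
  have hwc : ContinuousOn (fun z => ((w z : ℝ) : ℂ)) (Ioo (3 / 2 : ℝ) (9 / 2)) := by
    intro x hx
    have hx0 : 0 < x := aux_sub hx
    exact (Complex.continuous_ofReal.continuousAt.comp
      (hw.smooth x hx0).continuousAt).continuousWithinAt
  refine ⟨G, G1, hae, ?_, ?_⟩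
  · intro l j t
    have hKc : ContinuousOn (fun z => G l (j + 1) t z - (q : ℂ) * (w z : ℂ) * G l j t z)
        (Ioo (3 / 2 : ℝ) (9 / 2)) :=
      (hGc l (j + 1) t).sub ((continuousOn_const.mul hwc).mul (hGc l j t))
    refine ⟨hder l j t, ?_, hKc⟩
    intro z hz
    set F : ℝ → ℂ := fun z => -((ν l : ℂ) ^ 2 * (w z : ℂ)) * G l j t z -
      2 * (G l (j + 1) t z - (q : ℂ) * (w z : ℂ) * G l j t z) with hF
    have hFc : ContinuousOn F (Ioo (3 / 2 : ℝ) (9 / 2)) := by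
      apply ContinuousOn.sub
      · exact ((continuousOn_const.mul hwc).neg).mul (hGc l j t)
      · exact continuousOn_const.mul hKc
    have h3 : (3 : ℝ) ∈ Ioo (3 / 2 : ℝ) (9 / 2) := by constructor <;> norm_num
    have hsub : ∀ y ∈ Ioo (3 / 2 : ℝ) (9 / 2), uIcc (3 : ℝ) y ⊆ Ioo (3 / 2 : ℝ) (9 / 2) := by
      intro y hy
      exact (Set.ordConnected_Ioo.uIcc_subset h3 hy)
    have hval : ∀ y ∈ Ioo (3 / 2 : ℝ) (9 / 2), G1 l j t y = G1 l j t 3 + ∫ x in (3 : ℝ)..y, F x := by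
      intro y hy
      have h1 := hftc l j t 3 h3 y hy
      have h2 : ∫ z in (3 : ℝ)..y, (-((ν l : ℂ) ^ 2 * (w z : ℂ)) * G l j t z -
          2 * ((g l (j + 1) t : ℝ → ℂ) z - (q : ℂ) * (w z : ℂ) * (g l j t : ℝ → ℂ) z)) =
          ∫ x in (3 : ℝ)..y, F x := by
        apply intervalIntegral.integral_congr_ae
        have h4 := (ae_restrict_iff' measurableSet_Ioo).mp (hae l (j + 1) t)
        have h5 := (ae_restrict_iff' measurableSet_Ioo).mp (hae l j t)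
        filter_upwards [h4, h5] with x hx hx0 hx'
        have hx2 : x ∈ Ioo (3 / 2 : ℝ) (9 / 2) := hsub y hy (uIoc_subset_uIcc hx')
        simp only [hF]
        rw [hx hx2, hx0 hx2]
      rw [← h2, ← h1]
      ring
    have hd : HasDerivAt (fun y => ∫ x in (3 : ℝ)..y, F x) (F z) z := by
      apply intervalIntegral.integral_hasDerivAt_right
      · exact (hFc.mono (hsub z hz)).intervalIntegrable
      · exact hFc.stronglyMeasurableAtFilter isOpen_Ioo z hz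
      · exact hFc.continuousAt (isOpen_Ioo.mem_nhds hz)
    have hd2 := hd.const_add (G1 l j t 3)
    refine hd2.congr_of_eventuallyEq ?_
    filter_upwards [isOpen_Ioo.mem_nhds hz] with y hy
    exact hval y hy
  · intro m j t
    exact aux_L2b (g m j t) (Kc j) (hs.bd m j t) _ (hae m j t)

end N_rep2

end Pool.Agent.Helper459.SK
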