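import Mathlib
import Pool.Agent.Helper459.SK.Defs

set_option autoImplicit false

noncomputable section

open MeasureTheory Set Filter Topology
open scoped ContDiff ComplexConjugate

namespace Pool.Agent.Helper459.SK

namespace N_md_test

theorem ze_smooth (x : E 2) (hx : x ≠ 0) : ContDiffAt ℝ ∞ ze x := by
  have hc : ∀ i : Fin 2, ContDiffAt ℝ ∞ (fun y : E 2 => ((y i : ℝ) : ℂ)) x := by
    intro i
    have h1 : ContDiff ℝ ∞ (fun y : E 2 => y i) :=
      (EuclideanSpace.proj (𝕜 := ℝ) i : E 2 →L[ℝ] ℝ).contDiff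
    exact (Complex.ofRealCLM.contDiff.comp h1).contDiffAt
  have hn : ContDiffAt ℝ ∞ (fun y : E 2 => ((‖y‖ : ℝ) : ℂ)) x :=
    Complex.ofRealCLM.contDiff.contDiffAt.comp x (contDiffAt_norm ℝ hx)
  have hne : ((‖x‖ : ℝ) : ℂ) ≠ 0 := by
    simpa using hx
  have h3 : ContDiffAt ℝ ∞ (fun y : E 2 => ((y 0 : ℂ) + Complex.I * (y 1 : ℂ))) x :=
    (hc 0).add (contDiffAt_const.mul (hc 1))
  have h4 : ContDiffAt ℝ ∞ (fun y : E 2 => (((‖y‖ : ℝ) : ℂ))⁻¹) x := hn.inv hne
  have h5 := h3.mul h4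
  refine h5.congr_of_eventuallyEq (Eventually.of_forall fun y => ?_)
  simp only [ze, div_eq_mul_inv]

theorem sq_smooth : ContDiff ℝ ∞ (fun x : E 2 => ‖x‖ ^ 2 / 2) :=
  (contDiff_norm_sq ℝ).div_const 2

theorem md_test (m : ℕ) (h : ℝ → ℂ) (hh : ContDiff ℝ ∞ h) (hc : HasCompactSupport h) (hs : tsupport h ⊆ Ioi 0) :
    IsTest (md m h) := by
  constructor
  · rw [contDiff_iff_contDiffAt]
    intro x
    by_cases hx : x = 0
    · have h0 : (0 : ℝ) ∉ tsupport h := fun h0 => lt_irrefl (0 : ℝ) (hs h0)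
      have hopen : IsOpen (tsupport h)ᶜ := (isClosed_tsupport h).isOpen_compl
      have hcont : Continuous (fun x : E 2 => ‖x‖ ^ 2 / 2) := sq_smooth.continuous
      have hmem : (fun x : E 2 => ‖x‖ ^ 2 / 2) ⁻¹' (tsupport h)ᶜ ∈ 𝓝 x := by
        apply (hopen.preimage hcont).mem_nhds
        rw [hx]
        show ‖(0 : E 2)‖ ^ 2 / 2 ∈ (tsupport h)ᶜ
        simpa using h0
      have heq : md m h =ᶠ[𝓝 x] fun _ => 0 := by
        filter_upwards [hmem] with y hy
        have : h (‖y‖ ^ 2 / 2) = 0 := image_eq_zero_of_notMem_tsupport hy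
        simp only [md, this, mul_zero]
      exact contDiffAt_const.congr_of_eventuallyEq heq
    · have h1 := (ze_smooth x hx).pow m
      have h2 : ContDiffAt ℝ ∞ (fun y : E 2 => h (‖y‖ ^ 2 / 2)) x :=
        (hh.comp sq_smooth).contDiffAt
      exact h1.mul h2
  · obtain ⟨R, hR⟩ := hc.isBounded.subset_closedBall (0 : ℝ)
    have hK : IsCompact (Metric.closedBall (0 : E 2) (Real.sqrt (2 * |R|))) :=
      isCompact_closedBall _ _
    refine HasCompactSupport.of_support_subset_isCompact hK ?_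
    intro x hx
    have hne : h (‖x‖ ^ 2 / 2) ≠ 0 := by
      intro h0
      apply hx
      simp only [md, h0, mul_zero]
    have h1 : ‖x‖ ^ 2 / 2 ∈ tsupport h := subset_tsupport h hne
    have h2 := hR h1
    rw [Metric.mem_closedBall, Real.dist_eq, sub_zero] at h2
    rw [Metric.mem_closedBall, dist_zero_right]
    apply Real.le_sqrt_of_sq_le
    have h3 := le_abs_self (‖x‖ ^ 2 / 2)
    have h4 := le_abs_self R
    linarith

end N_md_test

end Pool.Agent.Helper459.SK
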