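import Mathlib
import Pool.Agent.Helper459.SK.Defs
import Pool.Agent.Helper459.SK.L_local_pair
import Pool.Agent.Helper459.SK.L_pou
import Pool.Agent.Helper459.SK.L_div_cut
import Pool.Agent.Helper459.SK.L_test_l2

set_option autoImplicit false

noncomputable section

open MeasureTheory Set Filter Topology
open scoped ContDiff ComplexConjugate

namespace Pool.Agent.Helper459.SK
open N_local_pair
open N_pou
open N_div_cut
open N_test_l2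

namespace N_mlm


theorem w481_add {n : ℕ} (u v : E n → ℂ) (hu : MemLp u 2 (volume : Measure (E n)))
    (hv : MemLp v 2 (volume : Measure (E n))) : toL2 (u + v) = toL2 u + toL2 v := by
  unfold toL2
  rw [dif_pos (hu.add hv), dif_pos hu, dif_pos hv]
  rfl

theorem w481_zero {n : ℕ} : toL2 (fun _ : E n => (0 : ℂ)) = 0 := by
  unfold toL2
  have h0 : MemLp (fun _ : E n => (0 : ℂ)) 2 (volume : Measure (E n)) := MemLp.zero'
  rw [dif_pos h0]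
  rfl

theorem w481_sum {n : ℕ} {ι : Type*} (s : Finset ι) (u : ι → E n → ℂ)
    (hu : ∀ i, MemLp (u i) 2 (volume : Measure (E n))) :
    toL2 (fun x => ∑ i ∈ s, u i x) = ∑ i ∈ s, toL2 (u i) := by
  classical
  induction s using Finset.induction_on with
  | empty =>
    simp only [Finset.sum_empty]
    exact w481_zero
  | insert i s hi ih =>
    rw [Finset.sum_insert hi, ← ih]
    have e : (fun x => ∑ j ∈ insert i s, u j x) = u i + fun x => ∑ j ∈ s, u j x := by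
      funext x
      rw [Finset.sum_insert hi]
      rfl
    rw [e]
    exact w481_add _ _ (hu i) (memLp_finsetSum s fun j _ => hu j)

theorem w481_fun (a ζ : E 2 → ℂ) (φ : E 2 → ℝ)
    (hz : ∀ x ∈ tsupport a, ζ x = Complex.exp (Complex.I * (φ x : ℂ))) (m : ℕ) :
    (fun x => a x * Complex.exp (Complex.I * ((m * φ x : ℝ) : ℂ))) = fun x => a x * ζ x ^ m := by
  funext x
  by_cases hx : x ∈ tsupport a
  · rw [hz x hx, ← Complex.exp_nat_mul]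
    congr 2
    push_cast
    ring
  · rw [image_eq_zero_of_notMem_tsupport hx]
    simp

theorem w481_test (a : E 2 → ℂ) (ha : IsTest a) (φ : E 2 → ℝ) (hφ : ContDiff ℝ ∞ φ) (m : ℕ) :
    IsTest (fun x => a x * Complex.exp (Complex.I * ((m * φ x : ℝ) : ℂ))) := by
  refine ⟨?_, ha.cpt.mul_right⟩
  apply ha.smooth.mul
  apply Complex.contDiff_exp.comp
  apply contDiff_const.mul
  exact Complex.ofRealCLM.contDiff.comp (contDiff_const.mul hφ)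

theorem w481_memLp (a ζ : E 2 → ℂ) (ha : IsTest a) (φ : E 2 → ℝ) (hφ : ContDiff ℝ ∞ φ)
    (hz : ∀ x ∈ tsupport a, ζ x = Complex.exp (Complex.I * (φ x : ℂ))) (m : ℕ) :
    MemLp (fun x => a x * ζ x ^ m) 2 (volume : Measure (E 2)) := by
  rw [← w481_fun a ζ φ hz m]
  exact (test_l2 _ (w481_test a ha φ hφ m)).1

/-- local data -/
def mlm_D (S : L2 2 →L[ℂ] L2 2) (ζ κ : E 2 → ℂ) (x y : E 2) (s : ℝ) : Prop :=
  ∃ φ ψ : E 2 → ℝ, ContDiff ℝ ∞ φ ∧ ContDiff ℝ ∞ ψ ∧ ∃ φ₁ φ₂ : E 2 → ℂ, IsTest φ₁ ∧ IsTest φ₂ ∧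
    ∃ Γ : Set (E 2 × E 2), IsOpen Γ ∧ (∀ p ∈ Γ, ∀ r : ℝ, 0 < r → r • p ∈ Γ) ∧
      (∀ N : ℕ, ∃ C : ℝ, ∀ p ∈ Γ,
        ‖inner ℂ (toL2 (wpk φ₁ p.1)) (S (toL2 (wpk φ₂ p.2)))‖ * (1 + ‖p.1‖ + ‖p.2‖) ^ N ≤ C) ∧
      ∀ x' ∈ Metric.ball x s, ∀ y' ∈ Metric.ball y s,
        ζ x' = Complex.exp (Complex.I * (φ x' : ℂ)) ∧ κ y' = Complex.exp (Complex.I * (ψ y' : ℂ)) ∧
        φ₁ x' ≠ 0 ∧ φ₂ y' ≠ 0 ∧ gradient φ x' ≠ 0 ∧ (gradient φ x', gradient ψ y') ∈ Γ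

theorem w481_grad (φ : E 2 → ℝ) (hφ : ContDiff ℝ ∞ φ) : Continuous (gradient φ) := by
  have h1 : Continuous (fderiv ℝ φ) := hφ.continuous_fderiv (by simp)
  exact (InnerProductSpace.toDual ℝ (E 2)).symm.continuous.comp h1

theorem w481_D (S : L2 2 →L[ℂ] L2 2) (ζ κ : E 2 → ℂ) (x y : E 2)
    (h : ∃ φ ψ : E 2 → ℝ, ContDiff ℝ ∞ φ ∧ ContDiff ℝ ∞ ψ ∧
      (∃ r : ℝ, 0 < r ∧ (∀ x' ∈ Metric.ball x r, ζ x' = Complex.exp (Complex.I * (φ x' : ℂ))) ∧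
        (∀ y' ∈ Metric.ball y r, κ y' = Complex.exp (Complex.I * (ψ y' : ℂ)))) ∧
      gradient φ x ≠ 0 ∧ RegPt S x (gradient φ x) y (gradient ψ y)) :
    ∃ s : ℝ, 0 < s ∧ mlm_D S ζ κ x y s := by
  obtain ⟨φ, ψ, hφ, hψ, ⟨r, hr, hz, hk⟩, hg, φ₁, φ₂, h1, h2, n1, n2, Γ, hΓ, hc, hin, hdec⟩ := h
  have cφ := w481_grad φ hφ
  have cψ := w481_grad ψ hψ
  have o1 : IsOpen {p : E 2 × E 2 | φ₁ p.1 ≠ 0} :=
    isOpen_ne_fun (h1.smooth.continuous.comp continuous_fst) continuous_const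
  have o2 : IsOpen {p : E 2 × E 2 | φ₂ p.2 ≠ 0} :=
    isOpen_ne_fun (h2.smooth.continuous.comp continuous_snd) continuous_const
  have o3 : IsOpen {p : E 2 × E 2 | gradient φ p.1 ≠ 0} :=
    isOpen_ne_fun (cφ.comp continuous_fst) continuous_const
  have o4 : IsOpen {p : E 2 × E 2 | (gradient φ p.1, gradient ψ p.2) ∈ Γ} :=
    hΓ.preimage ((cφ.comp continuous_fst).prodMk (cψ.comp continuous_snd))
  have o5 : IsOpen (Metric.ball x r ×ˢ Metric.ball y r) := Metric.isOpen_ball.prod Metric.isOpen_ball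
  have oo := o1.inter (o2.inter (o3.inter (o4.inter o5)))
  obtain ⟨s, hs, hsub⟩ := Metric.isOpen_iff.1 oo (x, y)
    ⟨n1, n2, hg, hin, Metric.mem_ball_self hr, Metric.mem_ball_self hr⟩
  refine ⟨s, hs, φ, ψ, hφ, hψ, φ₁, φ₂, h1, h2, Γ, hΓ, hc, hdec, ?_⟩
  intro x' hx' y' hy'
  have hm : (x', y') ∈ Metric.ball (x, y) s := by
    rw [Metric.mem_ball, Prod.dist_eq]
    exact max_lt hx' hy'
  obtain ⟨m1, m2, m3, m4, m5, m6⟩ := hsub hm
  exact ⟨hz x' m5, hk y' m6, m1, m2, m3, m4⟩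

theorem w481_Dmono (S : L2 2 →L[ℂ] L2 2) (ζ κ : E 2 → ℂ) (x y x0 y0 : E 2) (s δ : ℝ) (hδ : 0 < δ)
    (hsub : Metric.ball (x0, y0) δ ⊆ Metric.ball (x, y) s) (h : mlm_D S ζ κ x y s) :
    mlm_D S ζ κ x0 y0 δ := by
  obtain ⟨φ, ψ, hφ, hψ, φ₁, φ₂, h1, h2, Γ, hΓ, hc, hdec, hh⟩ := h
  refine ⟨φ, ψ, hφ, hψ, φ₁, φ₂, h1, h2, Γ, hΓ, hc, hdec, ?_⟩
  intro x' hx' y' hy'
  have hm : (x', y') ∈ Metric.ball (x0, y0) δ := by
    rw [Metric.mem_ball, Prod.dist_eq]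
    exact max_lt hx' hy'
  have hm' := hsub hm
  rw [Metric.mem_ball, Prod.dist_eq] at hm'
  exact hh x' (lt_of_le_of_lt (le_max_left _ _) hm') y' (lt_of_le_of_lt (le_max_right _ _) hm')

theorem w481_piece (S : L2 2 →L[ℂ] L2 2) (a b ζ κ : E 2 → ℂ) (ha : IsTest a) (hb : IsTest b)
    (x y : E 2) (s : ℝ) (hs : 0 < s) (h : mlm_D S ζ κ x y s) (hax : tsupport a ⊆ Metric.ball x s)
    (hby : tsupport b ⊆ Metric.ball y s) :
    (∀ m : ℕ, MemLp (fun x => a x * ζ x ^ m) 2 (volume : Measure (E 2))) ∧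
    (∀ m : ℕ, MemLp (fun x => b x * κ x ^ m) 2 (volume : Measure (E 2))) ∧
    ∃ C : ℝ, ∀ m : ℕ, 1 ≤ m →
      ‖inner ℂ (toL2 (fun x => a x * ζ x ^ m)) (S (toL2 (fun x => b x * κ x ^ m)))‖ ≤ C / m := by
  obtain ⟨φ, ψ, hφ, hψ, φ₁, φ₂, h1, h2, Γ, hΓ, hc, hdec, hh⟩ := h
  have hxx := Metric.mem_ball_self (x := x) hs
  have hyy := Metric.mem_ball_self (x := y) hs
  have hz : ∀ x' ∈ tsupport a, ζ x' = Complex.exp (Complex.I * (φ x' : ℂ)) :=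
    fun x' hx' => (hh x' (hax hx') y hyy).1
  have hk : ∀ y' ∈ tsupport b, κ y' = Complex.exp (Complex.I * (ψ y' : ℂ)) :=
    fun y' hy' => (hh x hxx y' (hby hy')).2.1
  obtain ⟨a', ha', hsa, hea⟩ := div_cut a φ₁ ha h1 (fun x' hx' => (hh x' (hax hx') y hyy).2.2.1)
  obtain ⟨b', hb', hsb, heb⟩ := div_cut b φ₂ hb h2 (fun y' hy' => (hh x hxx y' (hby hy')).2.2.2.1)
  obtain ⟨C, hC⟩ := local_pair S φ₁ φ₂ a' b' h1 h2 ha' hb' φ ψ hφ hψ Γ hΓ hc hdec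
    (fun x' hx' y' hy' => (hh x' (hax (hsa hx')) y' (hby (hsb hy'))).2.2.2.2.2)
    (fun x' hx' => (hh x' (hax (hsa hx')) y hyy).2.2.2.2.1)
  refine ⟨w481_memLp a ζ ha φ hφ hz, w481_memLp b κ hb ψ hψ hk, C, ?_⟩
  intro m hm
  have h3 := hC m hm
  have e1 : (fun x => φ₁ x * (a' x * Complex.exp (Complex.I * ((m * φ x : ℝ) : ℂ)))) =
      fun x => a x * ζ x ^ m := by
    rw [← w481_fun a ζ φ hz m]
    funext x'
    rw [← mul_assoc, hea x']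
  have e2 : (fun x => φ₂ x * (b' x * Complex.exp (Complex.I * ((m * ψ x : ℝ) : ℂ)))) =
      fun x => b x * κ x ^ m := by
    rw [← w481_fun b κ ψ hk m]
    funext x'
    rw [← mul_assoc, heb x']
  rw [e1, e2] at h3
  exact h3

theorem w481_cut (a : E 2 → ℂ) (ha : IsTest a) (ρ : E 2 → ℝ) (hρ : ContDiff ℝ ∞ ρ) :
    IsTest (fun x => ((ρ x : ℝ) : ℂ) * a x) ∧ tsupport (fun x => ((ρ x : ℝ) : ℂ) * a x) ⊆ tsupport ρ := by
  refine ⟨⟨?_, ha.cpt.mul_left⟩, ?_⟩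
  · exact (Complex.ofRealCLM.contDiff.comp hρ).mul ha.smooth
  · refine (tsupport_mul_subset_left (f := fun x => ((ρ x : ℝ) : ℂ)) (g := a)).trans ?_
    exact tsupport_comp_subset Complex.ofReal_zero ρ

theorem w481_split (a ζ : E 2 → ℂ) {k : ℕ} (ρ : Fin k → E 2 → ℝ)
    (hρ : ∀ x ∈ tsupport a, ∑ i, ρ i x = 1) (m : ℕ) :
    (fun x => a x * ζ x ^ m) = fun x => ∑ i, (((ρ i x : ℝ) : ℂ) * a x) * ζ x ^ m := by
  funext x
  by_cases hx : x ∈ tsupport a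
  · rw [← Finset.sum_mul, ← Finset.sum_mul, ← Complex.ofReal_sum, hρ x hx, Complex.ofReal_one,
      one_mul]
  · rw [image_eq_zero_of_notMem_tsupport hx]
    simp

theorem mlm (S : L2 2 →L[ℂ] L2 2) (a b ζ κ : E 2 → ℂ) (ha : IsTest a) (hb : IsTest b)
    (h : ∀ x ∈ tsupport a, ∀ y ∈ tsupport b, ∃ φ ψ : E 2 → ℝ, ContDiff ℝ ∞ φ ∧ ContDiff ℝ ∞ ψ ∧
      (∃ r : ℝ, 0 < r ∧ (∀ x' ∈ Metric.ball x r, ζ x' = Complex.exp (Complex.I * (φ x' : ℂ))) ∧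
        (∀ y' ∈ Metric.ball y r, κ y' = Complex.exp (Complex.I * (ψ y' : ℂ)))) ∧
      gradient φ x ≠ 0 ∧ RegPt S x (gradient φ x) y (gradient ψ y)) :
    ∃ C : ℝ, ∀ m : ℕ, 1 ≤ m →
      ‖inner ℂ (toL2 (fun x => a x * ζ x ^ m)) (S (toL2 (fun x => b x * κ x ^ m)))‖ ≤ C / m := by
  rcases (tsupport a).eq_empty_or_nonempty with hKa | ⟨x0, hx0⟩
  · refine ⟨0, fun m _ => ?_⟩
    have e : (fun x => a x * ζ x ^ m) = fun _ => (0 : ℂ) := by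
      funext x
      have e0 : a x = 0 := image_eq_zero_of_notMem_tsupport (by rw [hKa]; exact notMem_empty x)
      rw [e0, zero_mul]
    rw [e, w481_zero, inner_zero_left, norm_zero, zero_div]
  rcases (tsupport b).eq_empty_or_nonempty with hKb | ⟨y0, hy0⟩
  · refine ⟨0, fun m _ => ?_⟩
    have e : (fun x => b x * κ x ^ m) = fun _ => (0 : ℂ) := by
      funext x
      have e0 : b x = 0 := image_eq_zero_of_notMem_tsupport (by rw [hKb]; exact notMem_empty x)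
      rw [e0, zero_mul]
    rw [e, w481_zero, map_zero, inner_zero_right, norm_zero, zero_div]
  have hcomp : IsCompact (tsupport a ×ˢ tsupport b) := IsCompact.prod ha.cpt hb.cpt
  obtain ⟨δ, hδ, hleb⟩ := lebesgue_number_lemma_of_metric (s := tsupport a ×ˢ tsupport b)
    (ι := {q : (E 2 × E 2) × ℝ // mlm_D S ζ κ q.1.1 q.1.2 q.2})
    (c := fun q => Metric.ball q.1.1 q.1.2) hcomp (fun _ => Metric.isOpen_ball) (by
      rintro ⟨x, y⟩ ⟨hx, hy⟩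
      obtain ⟨s, hs, hD⟩ := w481_D S ζ κ x y (h x hx y hy)
      exact mem_iUnion.2 ⟨⟨((x, y), s), hD⟩, Metric.mem_ball_self hs⟩)
  have hDD : ∀ x ∈ tsupport a, ∀ y ∈ tsupport b, mlm_D S ζ κ x y δ := by
    intro x hx y hy
    obtain ⟨⟨⟨⟨x1, y1⟩, s⟩, hD⟩, hsub⟩ := hleb (x, y) ⟨hx, hy⟩
    exact w481_Dmono S ζ κ x1 y1 x y s δ hδ hsub hD
  obtain ⟨k, c, ρ, hcK, hρs, _, hρt, hρ1⟩ := pou (tsupport a) ha.cpt δ hδ
  obtain ⟨k', c', ρ', hcK', hρs', _, hρt', hρ1'⟩ := pou (tsupport b) hb.cpt δ hδ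
  have P : ∀ i j, _ := fun (i : Fin k) (j : Fin k') =>
    w481_piece S (fun x => ((ρ i x : ℝ) : ℂ) * a x) (fun x => ((ρ' j x : ℝ) : ℂ) * b x) ζ κ
      (w481_cut a ha (ρ i) (hρs i)).1 (w481_cut b hb (ρ' j) (hρs' j)).1 (c i) (c' j) δ hδ
      (hDD _ (hcK i) _ (hcK' j)) ((w481_cut a ha (ρ i) (hρs i)).2.trans (hρt i))
      ((w481_cut b hb (ρ' j) (hρs' j)).2.trans (hρt' j))
  have hk : 0 < k := by
    rcases Nat.eq_zero_or_pos k with hk | hk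
    · subst hk
      have := hρ1 x0 hx0
      simp at this
    · exact hk
  have hk' : 0 < k' := by
    rcases Nat.eq_zero_or_pos k' with hk | hk
    · subst hk
      have := hρ1' y0 hy0
      simp at this
    · exact hk
  choose C hC using fun i j => (P i j).2.2
  refine ⟨∑ i, ∑ j, C i j, fun m hm => ?_⟩
  have e1 : toL2 (fun x => a x * ζ x ^ m) =
      ∑ i, toL2 (fun x => (((ρ i x : ℝ) : ℂ) * a x) * ζ x ^ m) := by
    rw [w481_split a ζ ρ hρ1 m]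
    exact w481_sum Finset.univ (fun i x => (((ρ i x : ℝ) : ℂ) * a x) * ζ x ^ m)
      (fun i => (P i ⟨0, hk'⟩).1 m)
  have e2 : toL2 (fun x => b x * κ x ^ m) =
      ∑ j, toL2 (fun x => (((ρ' j x : ℝ) : ℂ) * b x) * κ x ^ m) := by
    rw [w481_split b κ ρ' hρ1' m]
    exact w481_sum Finset.univ (fun i x => (((ρ' i x : ℝ) : ℂ) * b x) * κ x ^ m)
      (fun j => (P ⟨0, hk⟩ j).2.1 m)
  rw [e1, e2, map_sum, sum_inner]
  calc ‖∑ i, inner ℂ (toL2 (fun x => (((ρ i x : ℝ) : ℂ) * a x) * ζ x ^ m))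
        (∑ j, S (toL2 (fun x => (((ρ' j x : ℝ) : ℂ) * b x) * κ x ^ m)))‖
      ≤ ∑ i, ‖inner ℂ (toL2 (fun x => (((ρ i x : ℝ) : ℂ) * a x) * ζ x ^ m))
        (∑ j, S (toL2 (fun x => (((ρ' j x : ℝ) : ℂ) * b x) * κ x ^ m)))‖ := norm_sum_le _ _
    _ ≤ ∑ i, ∑ j, C i j / m := by
        refine Finset.sum_le_sum fun i _ => ?_
        rw [inner_sum]
        refine (norm_sum_le _ _).trans (Finset.sum_le_sum fun j _ => ?_)
        exact hC i j m hm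
    _ = (∑ i, ∑ j, C i j) / m := by
        rw [Finset.sum_div]
        refine Finset.sum_congr rfl fun i _ => ?_
        rw [Finset.sum_div]


end N_mlm

end Pool.Agent.Helper459.SK
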