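import Mathlib
import Pool.Agent.Helper459.SK.Defs

set_option autoImplicit false

noncomputable section

open MeasureTheory Set Filter Topology
open scoped ContDiff ComplexConjugate

namespace Pool.Agent.Helper459.SK

namespace N_phase

def lin2 : E 2 →L[ℝ] ℂ :=
  Complex.ofRealCLM ∘L (EuclideanSpace.proj (0 : Fin 2) : E 2 →L[ℝ] ℝ) +
    (Complex.I • Complex.ofRealCLM) ∘L (EuclideanSpace.proj (1 : Fin 2) : E 2 →L[ℝ] ℝ)

theorem lin2_apply (x : E 2) : lin2 x = (x 0 : ℂ) + Complex.I * (x 1 : ℂ) := by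
  simp [lin2]

theorem lin2_re (x : E 2) : (lin2 x).re = x 0 := by
  rw [lin2_apply]
  simp

theorem lin2_im (x : E 2) : (lin2 x).im = x 1 := by
  rw [lin2_apply]
  simp

theorem lin2_norm (x : E 2) : ‖lin2 x‖ = ‖x‖ := by
  have h1 : ‖lin2 x‖ ^ 2 = ‖x‖ ^ 2 := by
    rw [Complex.sq_norm, Complex.normSq_apply, lin2_re, lin2_im, EuclideanSpace.norm_sq_eq,
      Fin.sum_univ_two, Real.norm_eq_abs, Real.norm_eq_abs, sq_abs, sq_abs]
    ring
  exact (pow_left_inj₀ (norm_nonneg _) (norm_nonneg _) (by norm_num)).1 h1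

def psi (c : ℂ) (x : E 2) : ℝ := (Complex.log (lin2 x * conj c)).im + Complex.arg c

theorem psi_deriv (c : ℂ) (x : E 2) (h : lin2 x * conj c ∈ Complex.slitPlane) (hc : c ≠ 0) :
    ∃ D : E 2 →L[ℝ] ℝ, HasFDerivAt (psi c) D x ∧ ∀ v, D v = (lin2 v / lin2 x).im := by
  have h1 : HasFDerivAt (fun y : E 2 => lin2 y * conj c) (lin2.smulRight (conj c)) x := by
    have h0 := (lin2.hasFDerivAt (x := x)).mul_const (conj c)
    refine h0.congr_fderiv ?_
    ext v
    simp [mul_comm]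
  have h2 : HasFDerivAt Complex.log (((1 : ℂ →L[ℂ] ℂ).smulRight (lin2 x * conj c)⁻¹).restrictScalars ℝ)
      (lin2 x * conj c) := (Complex.hasDerivAt_log h).hasFDerivAt.restrictScalars ℝ
  have h3 := (Complex.imCLM.hasFDerivAt).comp x (h2.comp x h1)
  have h4 := h3.add_const (Complex.arg c)
  refine ⟨_, h4, ?_⟩
  intro v
  have hc' : conj c ≠ 0 := by
    intro h
    apply hc
    have := congrArg conj h
    simpa using this
  simp only [ContinuousLinearMap.comp_apply, ContinuousLinearMap.smulRight_apply,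
    ContinuousLinearMap.coe_restrictScalars', ContinuousLinearMap.one_apply, Complex.imCLM_apply,
    smul_eq_mul]
  congr 1
  rw [mul_inv, mul_comm (lin2 v) (conj c), mul_assoc, mul_left_comm, ← mul_assoc (conj c)]
  field_simp

theorem psi_exp (c : ℂ) (hc : c ≠ 0) (x : E 2) (hx : x ≠ 0) :
    ze x = Complex.exp (Complex.I * (psi c x : ℂ)) := by
  have h1 : (psi c x : ℂ) = (Complex.arg (lin2 x * conj c) : ℂ) + (Complex.arg c : ℂ) := by
    unfold psi
    rw [Complex.log_im]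
    push_cast
    ring
  have h2 : Complex.exp (Complex.I * (psi c x : ℂ)) =
      Complex.exp ((Complex.arg (lin2 x * conj c) : ℂ) * Complex.I) *
        Complex.exp ((Complex.arg c : ℂ) * Complex.I) := by
    rw [← Complex.exp_add, h1]
    congr 1
    ring
  have h3 := Complex.norm_mul_exp_arg_mul_I (lin2 x * conj c)
  have h4 := Complex.norm_mul_exp_arg_mul_I c
  rw [norm_mul, lin2_norm, RCLike.norm_conj] at h3
  have hcn : (‖c‖ : ℂ) ≠ 0 := by
    rw [Ne, Complex.ofReal_eq_zero]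
    exact norm_ne_zero_iff.2 hc
  have hxn : (‖x‖ : ℂ) ≠ 0 := by
    rw [Ne, Complex.ofReal_eq_zero]
    exact norm_ne_zero_iff.2 hx
  have h5 : conj c * c = (‖c‖ : ℂ) ^ 2 := by
    rw [Complex.conj_mul']
  have hze : ze x = lin2 x / (‖x‖ : ℂ) := by
    unfold ze
    rw [lin2_apply]
  rw [h2, hze, div_eq_iff hxn]
  push_cast at h3
  obtain ⟨a, ha⟩ : ∃ a, a = Complex.exp ((Complex.arg (lin2 x * conj c) : ℂ) * Complex.I) := ⟨_, rfl⟩
  obtain ⟨b, hb⟩ : ∃ b, b = Complex.exp ((Complex.arg c : ℂ) * Complex.I) := ⟨_, rfl⟩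
  rw [← ha] at h3 ⊢
  rw [← hb] at h4 ⊢
  have h6 : (‖c‖ : ℂ) ^ 2 * lin2 x = (‖c‖ : ℂ) ^ 2 * (a * b * (‖x‖ : ℂ)) := by
    calc (‖c‖ : ℂ) ^ 2 * lin2 x = (lin2 x * conj c) * c := by rw [← h5]; ring
      _ = ((‖x‖ : ℂ) * (‖c‖ : ℂ) * a) * ((‖c‖ : ℂ) * b) := by rw [h3, h4]
      _ = _ := by ring
  exact mul_left_cancel₀ (pow_ne_zero 2 hcn) h6

theorem grad_apply (φ : E 2 → ℝ) (x : E 2) (i : Fin 2) :
    gradient φ x i = fderiv ℝ φ x (EuclideanSpace.single i 1) := by
  have h := InnerProductSpace.toDual_symm_apply (𝕜 := ℝ) (E := E 2)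
    (x := EuclideanSpace.single i (1 : ℝ)) (y := fderiv ℝ φ x)
  rw [← h]
  rw [EuclideanSpace.inner_single_right]
  simp [gradient]


theorem phase (x₀ : E 2) (h : x₀ ≠ 0) : ∃ φ : E 2 → ℝ, ContDiff ℝ ∞ φ ∧ ∃ r : ℝ, 0 < r ∧
    (∀ x ∈ Metric.ball x₀ r, ze x = Complex.exp (Complex.I * (φ x : ℂ))) ∧
    (∀ x ∈ Metric.ball x₀ r, gradient φ x 0 = -(x 1) / ‖x‖ ^ 2 ∧ gradient φ x 1 = x 0 / ‖x‖ ^ 2) := by
  obtain ⟨c, hcdef⟩ : ∃ c : ℂ, c = lin2 x₀ := ⟨_, rfl⟩
  have hc : c ≠ 0 := by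
    rw [hcdef, ← norm_ne_zero_iff, lin2_norm]
    exact norm_ne_zero_iff.2 h
  have hU : IsOpen {x : E 2 | 0 < (lin2 x * conj c).re} := by
    refine isOpen_lt continuous_const ?_
    exact Complex.continuous_re.comp (lin2.continuous.mul continuous_const)
  have hx₀U : x₀ ∈ {x : E 2 | 0 < (lin2 x * conj c).re} := by
    change 0 < (lin2 x₀ * conj c).re
    rw [← hcdef, Complex.mul_conj, Complex.ofReal_re]
    exact Complex.normSq_pos.2 hc
  obtain ⟨r0, hr0, hball⟩ := Metric.isOpen_iff.1 hU x₀ hx₀U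
  have hslit : ∀ x ∈ Metric.ball x₀ r0, lin2 x * conj c ∈ Complex.slitPlane :=
    fun x hx => Or.inl (hball hx)
  have hne : ∀ x ∈ Metric.ball x₀ r0, x ≠ 0 := by
    intro x hx h0
    have h1 : 0 < (lin2 x * conj c).re := hball hx
    rw [h0, map_zero, zero_mul, Complex.zero_re] at h1
    exact lt_irrefl _ h1
  let χ : ContDiffBump x₀ := ⟨r0 / 3, r0 / 2, by linarith, by linarith⟩
  have hψ : ∀ x ∈ Metric.ball x₀ r0, ContDiffAt ℝ ∞ (psi c) x := by
    intro x hx
    unfold psi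
    refine ContDiffAt.add ?_ contDiffAt_const
    have h1 : ContDiffAt ℝ ∞ Complex.log (lin2 x * conj c) :=
      (Complex.contDiffAt_log (hslit x hx)).restrict_scalars ℝ
    have h2 : ContDiffAt ℝ ∞ (fun y : E 2 => lin2 y * conj c) x :=
      (lin2.contDiff.mul contDiff_const).contDiffAt
    exact Complex.imCLM.contDiff.contDiffAt.comp x (h1.comp x h2)
  refine ⟨fun x => χ x * psi c x, ?_, r0 / 3, by linarith, ?_, ?_⟩
  · rw [contDiff_iff_contDiffAt]
    intro x
    by_cases hx : x ∈ Metric.ball x₀ r0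
    · exact χ.contDiff.contDiffAt.mul (hψ x hx)
    · have hx' : x ∉ tsupport χ := by
        rw [χ.tsupport_eq, Metric.mem_closedBall]
        rw [Metric.mem_ball] at hx
        push Not at hx ⊢
        change r0 / 2 < dist x x₀
        linarith
      have h0 := notMem_tsupport_iff_eventuallyEq.1 hx'
      have h1 : (fun x => χ x * psi c x) =ᶠ[𝓝 x] fun _ => 0 := by
        filter_upwards [h0] with y hy
        rw [hy]
        simp
      exact contDiffAt_const.congr_of_eventuallyEq h1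
  · intro x hx
    have hx0 : x ∈ Metric.ball x₀ r0 := Metric.ball_subset_ball (by linarith) hx
    have h1 : χ x = 1 := χ.one_of_mem_closedBall (Metric.ball_subset_closedBall hx)
    beta_reduce
    rw [h1, one_mul]
    exact psi_exp c hc x (hne x hx0)
  · intro x hx
    have hx0 : x ∈ Metric.ball x₀ r0 := Metric.ball_subset_ball (by linarith) hx
    have hev : (fun x => χ x * psi c x) =ᶠ[𝓝 x] psi c := by
      filter_upwards [Metric.isOpen_ball.mem_nhds hx] with y hy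
      have h1 : χ y = 1 := χ.one_of_mem_closedBall (Metric.ball_subset_closedBall hy)
      rw [h1, one_mul]
    obtain ⟨D, hD, hDv⟩ := psi_deriv c x (hslit x hx0) hc
    have hfd : fderiv ℝ (fun x => χ x * psi c x) x = D := (hD.congr_of_eventuallyEq hev).fderiv
    have hxn : ‖x‖ ^ 2 ≠ 0 := pow_ne_zero 2 (norm_ne_zero_iff.2 (hne x hx0))
    have hsq : ‖x‖ ^ 2 = x 0 ^ 2 + x 1 ^ 2 := by
      rw [EuclideanSpace.norm_sq_eq, Fin.sum_univ_two, Real.norm_eq_abs, Real.norm_eq_abs, sq_abs,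
        sq_abs]
    have hdiv : ∀ v : E 2, (lin2 v / lin2 x).im = (v 1 * x 0 - v 0 * x 1) / ‖x‖ ^ 2 := by
      intro v
      rw [Complex.div_im, lin2_re, lin2_im, lin2_re, lin2_im, ← Complex.sq_norm, lin2_norm]
      ring
    constructor
    · rw [grad_apply, hfd, hDv, hdiv]
      simp
    · rw [grad_apply, hfd, hDv, hdiv]
      simp

end N_phase

end Pool.Agent.Helper459.SK
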