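import Mathlib
import Pool.Agent.Helper459.SK.Defs
import Pool.Agent.Helper459.SK.L_mlm
import Pool.Agent.Helper459.SK.L_phase
import Pool.Agent.Helper459.SK.L_md_test
import Pool.Agent.Helper459.SK.L_fj_facts

set_option autoImplicit false

noncomputable section

open MeasureTheory Set Filter Topology
open scoped ContDiff ComplexConjugate

namespace Pool.Agent.Helper459.SK
open N_mlm
open N_phase
open N_md_test
open N_fj_facts

namespace N_oscg

theorem oscg_h1 (φ : E 2 → ℝ) (x : E 2) : inner ℝ x (gradient φ x) = fderiv ℝ φ x x := by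
  rw [real_inner_comm]
  exact InnerProductSpace.toDual_symm_apply

theorem oscg_h2 (h : ℝ → ℂ) (x : E 2) (hx : x ∈ tsupport (fun x : E 2 => h (‖x‖ ^ 2 / 2))) :
    ‖x‖ ^ 2 / 2 ∈ tsupport h :=
  tsupport_comp_subset_preimage h (f := fun x : E 2 => ‖x‖ ^ 2 / 2) (by fun_prop) hx

theorem oscg_h3 (a : ℝ → ℝ) (z : ℝ) (hz : z ∈ tsupport (fun z => (a z : ℂ))) : z ∈ tsupport a := by
  have h1 : Function.support (fun z => (a z : ℂ)) = Function.support a := by
    ext z; simp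
  rw [tsupport, h1] at hz
  exact hz

theorem oscg_h4 (h : ℝ → ℂ) (hh : ContDiff ℝ ∞ h) (hc : HasCompactSupport h)
    (hs : tsupport h ⊆ Ioi 0) : IsTest (fun x : E 2 => h (‖x‖ ^ 2 / 2)) := by
  have h1 := md_test 0 h hh hc hs
  have h2 : md 0 h = fun x : E 2 => h (‖x‖ ^ 2 / 2) := by
    funext x
    simp [md]
  rwa [h2] at h1

theorem oscg_h5 (a : ℝ → ℝ) (ha : ContDiff ℝ ∞ a) (hac : HasCompactSupport a) :
    ContDiff ℝ ∞ (fun z => (a z : ℂ)) ∧ HasCompactSupport (fun z => (a z : ℂ)) :=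
  ⟨Complex.ofRealCLM.contDiff.comp ha, hac.comp_left (g := fun x : ℝ => (x : ℂ)) (by simp)⟩

theorem oscg (U : ℝ → (L2 2 →L[ℂ] L2 2)) (f : ℝ → ℝ) (hf : FP f)
    (g : ℕ → ℕ → ℝ → L2z) (hr : Red U f g)
    (hreg : ∀ t, 0 < t → ∀ p ∈ VV, ∀ q ∈ WW, RegPt (U t) p.1 p.2 q.1 q.2)
    (τ : ℝ → ℝ) (hτ : ContDiff ℝ ∞ τ) (a : ℝ → ℝ) (ha : ContDiff ℝ ∞ a) (hac : HasCompactSupport a)
    (has : tsupport a ⊆ Ioi 3) (hd : ∀ z ∈ tsupport a, 0 < deriv τ z) (t : ℝ) (ht : 0 < t) (j : ℕ) :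
    ∃ C : ℝ, ∀ m : ℕ, 1 ≤ m →
      ‖∫ z in Ioi (0 : ℝ), (a z : ℂ) * Complex.exp (Complex.I * ((m * τ z : ℝ) : ℂ)) * (g m j t : ℝ → ℂ) z‖ ≤ C / m := by
  
  obtain ⟨hB1, hB2, hB3⟩ := fj_facts.2.2 f hf j
  have hA := oscg_h5 a ha hac
  have hB := oscg_h5 (fj f j) hB1 hB2
  have hAs : tsupport (fun z => (a z : ℂ)) ⊆ Ioi 0 := fun z hz =>
    lt_trans (by norm_num) (mem_Ioi.1 (has (oscg_h3 a z hz)))
  have hBs : tsupport (fun z => (fj f j z : ℂ)) ⊆ Ioi 0 := fun z hz =>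
    lt_trans (by norm_num) (hB3 (oscg_h3 _ z hz)).1
  have hTA := oscg_h4 _ hA.1 hA.2 hAs
  have hTB := oscg_h4 _ hB.1 hB.2 hBs
  have hdτ : ∀ z, HasDerivAt τ (deriv τ z) z := fun z =>
    ((hτ.differentiable (by simp)) z).hasDerivAt
  obtain ⟨C, hC⟩ := mlm (U t) (fun x : E 2 => (a (‖x‖ ^ 2 / 2) : ℂ))
    (fun x : E 2 => (fj f j (‖x‖ ^ 2 / 2) : ℂ))
    (fun x => ze x * Complex.exp (-(Complex.I * ((τ (‖x‖ ^ 2 / 2) : ℝ) : ℂ)))) ze hTA hTB (by
      intro x hx y hy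
      have hx1 : ‖x‖ ^ 2 / 2 ∈ tsupport a := oscg_h3 a _ (oscg_h2 (fun z => (a z : ℂ)) x hx)
      have hy1 : ‖y‖ ^ 2 / 2 ∈ Ioo (2 : ℝ) 3 :=
        hB3 (oscg_h3 _ _ (oscg_h2 (fun z => (fj f j z : ℂ)) y hy))
      have hx3 : 3 < ‖x‖ ^ 2 / 2 := has hx1
      have hx0 : x ≠ 0 := by
        rintro rfl
        norm_num at hx3
      have hy0 : y ≠ 0 := by
        rintro rfl
        have := hy1.1
        norm_num at this
      obtain ⟨φ0, hφ0, r1, hr1, hφ1, hφ2⟩ := phase x hx0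
      obtain ⟨ψ, hψ, r2, hr2, hψ1, hψ2⟩ := phase y hy0
      have hq : ContDiff ℝ ∞ (fun x : E 2 => τ (‖x‖ ^ 2 / 2)) :=
        hτ.comp ((contDiff_norm_sq ℝ).div_const 2)
      have hinner : inner ℝ x (gradient (fun x' : E 2 => φ0 x' - τ (‖x'‖ ^ 2 / 2)) x) < (0 : ℝ) := by
        rw [oscg_h1]
        have d1 : HasFDerivAt φ0 (fderiv ℝ φ0 x) x :=
          ((hφ0.differentiable (by simp)) x).hasFDerivAt
        have d2 : HasFDerivAt (fun x : E 2 => ‖x‖ ^ 2 / 2) ((1 / 2 : ℝ) • (2 • innerSL ℝ x)) x := by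
          have := (hasStrictFDerivAt_norm_sq x).hasFDerivAt.const_mul (1 / 2 : ℝ)
          refine this.congr_of_eventuallyEq (Eventually.of_forall fun y => ?_)
          simp only
          ring
        have d3 := d1.sub ((hdτ (‖x‖ ^ 2 / 2)).comp_hasFDerivAt x d2)
        have d4 : fderiv ℝ (fun x' : E 2 => φ0 x' - τ (‖x'‖ ^ 2 / 2)) x =
            fderiv ℝ φ0 x - deriv τ (‖x‖ ^ 2 / 2) • ((1 / 2 : ℝ) • (2 • innerSL ℝ x)) := d3.fderiv
        rw [d4]
        have e1 : fderiv ℝ φ0 x x = 0 := by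
          rw [← oscg_h1, PiLp.inner_apply, Fin.sum_univ_two]
          obtain ⟨g0, g1⟩ := hφ2 x (Metric.mem_ball_self hr1)
          rw [g0, g1]
          simp only [RCLike.inner_apply, conj_trivial]
          ring
        have e2 : (deriv τ (‖x‖ ^ 2 / 2) • ((1 / 2 : ℝ) • (2 • innerSL ℝ x))) x =
            deriv τ (‖x‖ ^ 2 / 2) * ‖x‖ ^ 2 := by
          simp
        rw [sub_apply, e1, e2, zero_sub]
        have h1 := hd _ hx1
        have h2 : 0 < ‖x‖ ^ 2 := by linarith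
        have := mul_pos h1 h2
        linarith
      refine ⟨fun x' : E 2 => φ0 x' - τ (‖x'‖ ^ 2 / 2), ψ, hφ0.sub hq, hψ,
        ⟨min r1 r2, lt_min hr1 hr2, ?_, ?_⟩, ?_, ?_⟩
      · intro x' hx'
        have h1 := hφ1 x' (Metric.ball_subset_ball (min_le_left _ _) hx')
        rw [h1, ← Complex.exp_add]
        congr 1
        push_cast
        ring
      · intro y' hy'
        exact hψ1 y' (Metric.ball_subset_ball (min_le_right _ _) hy')
      · intro h0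
        rw [h0, inner_zero_right] at hinner
        exact lt_irrefl _ hinner
      · refine hreg t ht (x, _) ⟨hx3, hinner⟩ (y, gradient ψ y) ⟨hy1.1, hy1.2, ?_⟩
        obtain ⟨g0, g1⟩ := hψ2 y (Metric.mem_ball_self hr2)
        show y 0 * (gradient ψ y) 1 - y 1 * (gradient ψ y) 0 ≠ 0
        rw [g0, g1]
        have h1 : ‖y‖ ^ 2 = y 0 ^ 2 + y 1 ^ 2 := by
          rw [EuclideanSpace.real_norm_sq_eq, Fin.sum_univ_two]
        have h2 : ‖y‖ ^ 2 ≠ 0 := by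
          have := hy1.1
          intro h0
          rw [h0] at this
          norm_num at this
        have h3 : y 0 * (y 0 / ‖y‖ ^ 2) - y 1 * (-(y 1) / ‖y‖ ^ 2) = 1 := by
          field_simp
          rw [h1]; ring
        rw [h3]
        exact one_ne_zero)
  refine ⟨1 / (2 * Real.pi) * C, fun m hm => ?_⟩
  have hpair := hr.pair m j t (fun z => (a z : ℂ) * Complex.exp (-(Complex.I * ((m * τ z : ℝ) : ℂ))))
    (by
      have h1 : Continuous (fun z => (a z : ℂ)) := hA.1.continuous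
      have h2 : Continuous τ := hτ.continuous
      fun_prop)
    (hA.2.mul_right)
    ((tsupport_mul_subset_left).trans hAs)
  have e1 : ∀ z, conj ((a z : ℂ) * Complex.exp (-(Complex.I * ((m * τ z : ℝ) : ℂ)))) =
      (a z : ℂ) * Complex.exp (Complex.I * ((m * τ z : ℝ) : ℂ)) := by
    intro z
    rw [map_mul, Complex.conj_ofReal, ← Complex.exp_conj, map_neg, map_mul, Complex.conj_I,
      Complex.conj_ofReal]
    congr 2
    ring
  simp only [e1] at hpair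
  rw [hpair]
  have e2 : md m (fun z => (a z : ℂ) * Complex.exp (-(Complex.I * ((m * τ z : ℝ) : ℂ)))) =
      fun x : E 2 => (a (‖x‖ ^ 2 / 2) : ℂ) *
        (ze x * Complex.exp (-(Complex.I * ((τ (‖x‖ ^ 2 / 2) : ℝ) : ℂ)))) ^ m := by
    funext x
    simp only [md]
    rw [mul_pow, ← Complex.exp_nat_mul]
    have : (m : ℂ) * -(Complex.I * ((τ (‖x‖ ^ 2 / 2) : ℝ) : ℂ)) =
        -(Complex.I * ((m * τ (‖x‖ ^ 2 / 2) : ℝ) : ℂ)) := by push_cast; ring
    rw [this]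
    ring
  have e3 : md m (fun z => (fj f j z : ℂ)) =
      fun x : E 2 => (fj f j (‖x‖ ^ 2 / 2) : ℂ) * ze x ^ m := by
    funext x
    simp only [md]
    ring
  rw [e2, e3, norm_mul, norm_mul]
  have n1 : ‖(((1 / (2 * Real.pi) : ℝ)) : ℂ)‖ = 1 / (2 * Real.pi) := by
    rw [Complex.norm_real, Real.norm_eq_abs, abs_of_pos (by positivity)]
  have n2 : ‖Complex.exp (Complex.I * ((t * (m : ℝ) ^ 2 / 16 : ℝ) : ℂ))‖ = 1 := by
    rw [mul_comm, Complex.norm_exp_ofReal_mul_I]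
  rw [n1, n2, mul_one, mul_div_assoc]
  exact mul_le_mul_of_nonneg_left (hC m hm) (by positivity)


end N_oscg

end Pool.Agent.Helper459.SK
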