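import Mathlib
import Pool.Agent.Helper459.SK.Defs

set_option autoImplicit false

noncomputable section

open MeasureTheory Set Filter Topology
open scoped ContDiff ComplexConjugate

namespace Pool.Agent.Helper459.SK

namespace N_pd_md

theorem normsq_two (x : E 2) : ‖x‖ ^ 2 = x 0 ^ 2 + x 1 ^ 2 := by
  rw [EuclideanSpace.norm_sq_eq, Fin.sum_univ_two, Real.norm_eq_abs, Real.norm_eq_abs, sq_abs, sq_abs]

theorem hasN (x : E 2) : HasFDerivAt (fun y : E 2 => ‖y‖ ^ 2 / 2) (innerSL ℝ x) x := by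
  have h1 := (hasStrictFDerivAt_norm_sq x).hasFDerivAt
  have h2 := h1.mul_const (1 / 2 : ℝ)
  have e1 : (fun y : E 2 => ‖y‖ ^ 2 * (1 / 2)) = fun y : E 2 => ‖y‖ ^ 2 / 2 := by
    funext y; ring
  rw [e1] at h2
  refine h2.congr_fderiv ?_
  ext v
  show (1 / 2 : ℝ) * ((2 : ℕ) • (inner ℝ x v : ℝ)) = inner ℝ x v
  rw [nsmul_eq_mul]
  push_cast
  ring

theorem hasInvN (x : E 2) (hx : x ≠ 0) :
    HasFDerivAt (fun y : E 2 => (‖y‖)⁻¹) ((-(‖x‖ ^ 3)⁻¹) • innerSL ℝ x) x := by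
  have hn : ‖x‖ ≠ 0 := norm_ne_zero_iff.2 hx
  have h1 := (hasStrictFDerivAt_norm_sq x).hasFDerivAt
  have h2 := h1.sqrt (pow_ne_zero 2 hn)
  have e1 : (fun y : E 2 => Real.sqrt (‖y‖ ^ 2)) = fun y : E 2 => ‖y‖ := by
    funext y; exact Real.sqrt_sq (norm_nonneg y)
  rw [e1] at h2
  have h3 := (hasDerivAt_inv hn).comp_hasFDerivAt x h2
  have e2 : (fun y : ℝ => y⁻¹) ∘ (fun y : E 2 => ‖y‖) = fun y : E 2 => (‖y‖)⁻¹ := rfl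
  refine (h3.congr_fderiv ?_)
  ext v
  simp only [ContinuousLinearMap.smul_apply, innerSL_apply_apply, smul_eq_mul, Real.sqrt_sq (norm_nonneg x)]
  field_simp
  try ring

theorem pd_md (m : ℕ) (h h' : ℝ → ℂ) (x : E 2) (hx : x ≠ 0)
    (hh : HasDerivAt h (h' (‖x‖ ^ 2 / 2)) (‖x‖ ^ 2 / 2)) :
    DifferentiableAt ℝ (md m h) x ∧
    pd 0 (md m h) x = -(Complex.I * m * (x 1 : ℂ) / ((‖x‖ ^ 2 : ℝ) : ℂ)) * md m h x + (x 0 : ℂ) * md m h' x ∧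
    pd 1 (md m h) x = (Complex.I * m * (x 0 : ℂ) / ((‖x‖ ^ 2 : ℝ) : ℂ)) * md m h x + (x 1 : ℂ) * md m h' x := by
  have hn : ‖x‖ ≠ 0 := norm_ne_zero_iff.2 hx
  have hnC : ((‖x‖ : ℝ) : ℂ) ≠ 0 := by exact_mod_cast hn
  have hsq : ((‖x‖ : ℝ) : ℂ) ^ 2 = (x 0 : ℂ) ^ 2 + (x 1 : ℂ) ^ 2 := by
    have h := normsq_two x
    exact_mod_cast congrArg (fun r : ℝ => (r : ℂ)) h
  -- the linear part
  let L0 : E 2 →L[ℝ] ℂ := Complex.ofRealCLM.comp (EuclideanSpace.proj (0 : Fin 2))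
  let L1 : E 2 →L[ℝ] ℂ := Complex.ofRealCLM.comp (EuclideanSpace.proj (1 : Fin 2))
  let LZ : E 2 →L[ℝ] ℂ := L0 + Complex.I • L1
  have hLZ : ∀ v : E 2, LZ v = (v 0 : ℂ) + Complex.I * (v 1 : ℂ) := fun v => rfl
  have hZ : HasFDerivAt (fun y : E 2 => (y 0 : ℂ) + Complex.I * (y 1 : ℂ)) LZ x := LZ.hasFDerivAt
  have hI : HasFDerivAt (fun y : E 2 => (((‖y‖)⁻¹ : ℝ) : ℂ))
      (Complex.ofRealCLM.comp ((-(‖x‖ ^ 3)⁻¹) • innerSL ℝ x)) x :=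
    Complex.ofRealCLM.hasFDerivAt.comp x (hasInvN x hx)
  have hze := hZ.mul hI
  have eze : (fun y : E 2 => ((y 0 : ℂ) + Complex.I * (y 1 : ℂ)) * (((‖y‖)⁻¹ : ℝ) : ℂ)) = ze := by
    funext y
    rw [ze, Complex.ofReal_inv, div_eq_mul_inv]
  have hzeF : HasFDerivAt ze (((x 0 : ℂ) + Complex.I * (x 1 : ℂ)) •
      (Complex.ofRealCLM.comp ((-(‖x‖ ^ 3)⁻¹) • innerSL ℝ x)) + (((‖x‖)⁻¹ : ℝ) : ℂ) • LZ) x := by
    rw [← eze]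
    exact hze
  have hzem := hzeF.pow m
  have hhN : HasFDerivAt (fun y : E 2 => h (‖y‖ ^ 2 / 2))
      ((ContinuousLinearMap.toSpanSingleton ℝ (h' (‖x‖ ^ 2 / 2))).comp (innerSL ℝ x)) x := by
    have h1 := hh.hasFDerivAt
    have h2 := HasFDerivAt.comp x (f := fun y : E 2 => ‖y‖ ^ 2 / 2) h1 (hasN x)
    exact h2
  have hmd := hzem.mul hhN
  have hpow : (m : ℂ) * ze x ^ (m - 1) * ze x = m * ze x ^ m := by
    cases m with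
    | zero => simp
    | succ k =>
      rw [Nat.add_sub_cancel, pow_succ]
      ring
  have hzx : ze x = ((x 0 : ℂ) + Complex.I * (x 1 : ℂ)) / ((‖x‖ : ℝ) : ℂ) := rfl
  have hI2 : Complex.I ^ 2 = -1 := Complex.I_sq
  have in0 : inner ℝ x (EuclideanSpace.single (0 : Fin 2) (1 : ℝ)) = x 0 := by
    rw [EuclideanSpace.inner_single_right]; simp
  have in1 : inner ℝ x (EuclideanSpace.single (1 : Fin 2) (1 : ℝ)) = x 1 := by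
    rw [EuclideanSpace.inner_single_right]; simp
  have hfd := hmd.fderiv
  have hmdf : (fun y : E 2 => ze y ^ m * h (‖y‖ ^ 2 / 2)) = md m h := rfl
  have hval : ∀ v : E 2, fderiv ℝ (md m h) x v =
      ze x ^ m * (((inner ℝ x v : ℝ) : ℂ) * h' (‖x‖ ^ 2 / 2)) + h (‖x‖ ^ 2 / 2) *
        (((m : ℂ) * ze x ^ (m - 1)) * (((x 0 : ℂ) + Complex.I * (x 1 : ℂ)) *
          ((-(((‖x‖ : ℝ) : ℂ) ^ 3)⁻¹) * ((inner ℝ x v : ℝ) : ℂ)) +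
          (((‖x‖ : ℝ) : ℂ))⁻¹ * ((v 0 : ℂ) + Complex.I * (v 1 : ℂ)))) := by
    intro v
    have e : fderiv ℝ (md m h) x v = ze x ^ m * ((inner ℝ x v : ℝ) • h' (‖x‖ ^ 2 / 2)) + h (‖x‖ ^ 2 / 2) *
        ((m • ze x ^ (m - 1)) * (((x 0 : ℂ) + Complex.I * (x 1 : ℂ)) *
          (((-(‖x‖ ^ 3)⁻¹) * (inner ℝ x v : ℝ) : ℝ) : ℂ) +
          (((‖x‖)⁻¹ : ℝ) : ℂ) * ((v 0 : ℂ) + Complex.I * (v 1 : ℂ)))) :=
      congrArg (fun L : E 2 →L[ℝ] ℂ => L v) hfd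
    rw [e, nsmul_eq_mul, Complex.real_smul]
    push_cast
    ring
  have hze1 : ((x 0 : ℂ) + Complex.I * (x 1 : ℂ)) = ze x * ((‖x‖ : ℝ) : ℂ) := by
    rw [hzx, div_mul_cancel₀ _ hnC]
  refine ⟨hmd.differentiableAt, ?_, ?_⟩
  · show fderiv ℝ (md m h) x (EuclideanSpace.single 0 1) = _
    rw [hval, in0]
    have v0 : ((EuclideanSpace.single (0 : Fin 2) (1 : ℝ) : E 2) 0 : ℝ) = 1 := by simp
    have v1 : ((EuclideanSpace.single (0 : Fin 2) (1 : ℝ) : E 2) 1 : ℝ) = 0 := by simp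
    rw [v0, v1]
    have key : (((x 0 : ℂ) + Complex.I * (x 1 : ℂ)) *
          ((-(((‖x‖ : ℝ) : ℂ) ^ 3)⁻¹) * (x 0 : ℂ)) +
          (((‖x‖ : ℝ) : ℂ))⁻¹ * (((1 : ℝ) : ℂ) + Complex.I * ((0 : ℝ) : ℂ))) =
          -(Complex.I * (x 1 : ℂ) / ((‖x‖ ^ 2 : ℝ) : ℂ)) * ze x := by
      rw [hzx]
      push_cast
      field_simp
      rw [hsq]
      ring_nf
      rw [hI2]
      ring
    rw [key, md, md]
    linear_combination (-(Complex.I * (x 1 : ℂ) / ((‖x‖ ^ 2 : ℝ) : ℂ)) * h (‖x‖ ^ 2 / 2)) * hpow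
  · show fderiv ℝ (md m h) x (EuclideanSpace.single 1 1) = _
    rw [hval, in1]
    have v0 : ((EuclideanSpace.single (1 : Fin 2) (1 : ℝ) : E 2) 0 : ℝ) = 0 := by simp
    have v1 : ((EuclideanSpace.single (1 : Fin 2) (1 : ℝ) : E 2) 1 : ℝ) = 1 := by simp
    rw [v0, v1]
    have key : (((x 0 : ℂ) + Complex.I * (x 1 : ℂ)) *
          ((-(((‖x‖ : ℝ) : ℂ) ^ 3)⁻¹) * (x 1 : ℂ)) +
          (((‖x‖ : ℝ) : ℂ))⁻¹ * (((0 : ℝ) : ℂ) + Complex.I * ((1 : ℝ) : ℂ))) =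
          (Complex.I * (x 0 : ℂ) / ((‖x‖ ^ 2 : ℝ) : ℂ)) * ze x := by
      rw [hzx]
      push_cast
      field_simp
      rw [hsq]
      ring_nf
      rw [hI2]
      ring
    rw [key, md, md]
    linear_combination ((Complex.I * (x 0 : ℂ) / ((‖x‖ ^ 2 : ℝ) : ℂ)) * h (‖x‖ ^ 2 / 2)) * hpow

end N_pd_md

end Pool.Agent.Helper459.SK
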