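import Mathlib
import Pool.Agent.Helper459.SK.Defs
import Pool.Agent.Helper459.SK.L_pd_md
import Pool.Agent.Helper459.SK.L_a0_formula
import Pool.Agent.Helper459.SK.L_w_pos
import Pool.Agent.Helper459.SK.L_a0_smooth

set_option autoImplicit false

noncomputable section

open MeasureTheory Set Filter Topology
open scoped ContDiff ComplexConjugate

namespace Pool.Agent.Helper459.SK
open N_pd_md
open N_a0_formula
open N_w_pos
open N_a0_smooth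

namespace N_p_md

theorem pm_pd_congr {u v : E 2 → ℂ} {x : E 2} (j : Fin 2) (h : u =ᶠ[𝓝 x] v) : pd j u x = pd j v x := by
  unfold pd
  rw [h.fderiv_eq]

theorem pm_pd_mul {u v : E 2 → ℂ} {x : E 2} (j : Fin 2) (hu : DifferentiableAt ℝ u x) (hv : DifferentiableAt ℝ v x) :
    pd j (fun y => u y * v y) x = pd j u x * v x + u x * pd j v x := by
  unfold pd
  have := (hu.hasFDerivAt.mul hv.hasFDerivAt).fderiv
  have h2 : fderiv ℝ (fun y => u y * v y) x = u x • fderiv ℝ v x + v x • fderiv ℝ u x := this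
  rw [h2]
  simp only [_root_.add_apply, _root_.smul_apply, smul_eq_mul]
  ring

theorem pm_pd_add {u v : E 2 → ℂ} {x : E 2} (j : Fin 2) (hu : DifferentiableAt ℝ u x) (hv : DifferentiableAt ℝ v x) :
    pd j (fun y => u y + v y) x = pd j u x + pd j v x := by
  unfold pd
  have := (hu.hasFDerivAt.add hv.hasFDerivAt).fderiv
  have h2 : fderiv ℝ (fun y => u y + v y) x = fderiv ℝ u x + fderiv ℝ v x := this
  rw [h2]
  simp only [_root_.add_apply]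

def pm_cl (i : Fin 2) : E 2 →L[ℝ] ℂ := Complex.ofRealCLM.comp (EuclideanSpace.proj i)

theorem pm_cl_apply (i : Fin 2) (y : E 2) : pm_cl i y = (y i : ℂ) := rfl

theorem pm_coord_diff (i : Fin 2) (x : E 2) : DifferentiableAt ℝ (fun y : E 2 => (y i : ℂ)) x :=
  (pm_cl i).differentiableAt

theorem pm_pd_coord (i j : Fin 2) (x : E 2) : pd j (fun y : E 2 => (y i : ℂ)) x = if i = j then 1 else 0 := by
  unfold pd
  have : fderiv ℝ (fun y : E 2 => (y i : ℂ)) x = pm_cl i := (pm_cl i).fderiv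
  rw [this, pm_cl_apply]
  by_cases h : i = j
  · subst h
    simp
  · rw [if_neg h]
    simp [h]

theorem pm_pd_const (j : Fin 2) (c : ℂ) (x : E 2) : pd j (fun _ : E 2 => c) x = 0 := by
  unfold pd
  simp

theorem pm_nsq_diff (x : E 2) : DifferentiableAt ℝ (fun y : E 2 => ((‖y‖ ^ 2 : ℝ) : ℂ)) x := by
  have h : DifferentiableAt ℝ (fun y : E 2 => ‖y‖ ^ 2) x := (contDiff_norm_sq ℝ (n := 1)).differentiable one_ne_zero x
  exact Complex.ofRealCLM.differentiableAt.comp x h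

theorem pm_off (m : ℕ) (h : ℝ → ℝ) (x : E 2) (hx : ‖x‖ ^ 2 / 2 ∉ tsupport h) :
    Pop A0 (md m (fun z => (h z : ℂ))) x =
      md m (fun z => ((-(1 / 2) * deriv (deriv h) z + (1 / 2) * (m : ℝ) ^ 2 * v0 z * h z : ℝ) : ℂ)) x := by
  have hcont : Continuous (fun y : E 2 => ‖y‖ ^ 2 / 2) := by fun_prop
  have hopen : IsOpen {y : E 2 | ‖y‖ ^ 2 / 2 ∉ tsupport h} :=
    (isClosed_tsupport h).isOpen_compl.preimage hcont
  have hmem : {y : E 2 | ‖y‖ ^ 2 / 2 ∉ tsupport h} ∈ 𝓝 x := hopen.mem_nhds hx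
  have hz : h =ᶠ[𝓝 (‖x‖ ^ 2 / 2)] fun _ => 0 := by
    have := notMem_tsupport_iff_eventuallyEq.1 hx
    exact this
  have hu : ∀ y ∈ {y : E 2 | ‖y‖ ^ 2 / 2 ∉ tsupport h}, md m (fun z => (h z : ℂ)) y = 0 := by
    intro y hy
    unfold md
    have : h (‖y‖ ^ 2 / 2) = 0 := image_eq_zero_of_notMem_tsupport hy
    simp [this]
  have hpd : ∀ l : Fin 2, ∀ y ∈ {y : E 2 | ‖y‖ ^ 2 / 2 ∉ tsupport h}, pd l (md m (fun z => (h z : ℂ))) y = 0 := by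
    intro l y hy
    rw [pm_pd_congr l (v := fun _ => 0) (Filter.eventually_of_mem (hopen.mem_nhds hy) hu)]
    exact pm_pd_const l 0 y
  have hL : Pop A0 (md m (fun z => (h z : ℂ))) x = 0 := by
    unfold Pop
    rw [Finset.sum_eq_zero, mul_zero]
    intro j _
    apply Finset.sum_eq_zero
    intro l _
    rw [pm_pd_congr j (v := fun _ => 0) (Filter.eventually_of_mem hmem (fun y hy => by rw [hpd l y hy, mul_zero]))]
    exact pm_pd_const j 0 x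
  rw [hL]
  have h1 : h (‖x‖ ^ 2 / 2) = 0 := hz.eq_of_nhds
  have h2 : deriv h =ᶠ[𝓝 (‖x‖ ^ 2 / 2)] fun _ => 0 := by
    have := hz.deriv
    simpa using this
  have h3 : deriv (deriv h) (‖x‖ ^ 2 / 2) = 0 := by
    rw [h2.deriv_eq]
    simp
  unfold md
  simp [h1, h3]


theorem pm_nsq (y : E 2) : ‖y‖ ^ 2 = y 0 ^ 2 + y 1 ^ 2 := by
  rw [EuclideanSpace.norm_sq_eq, Fin.sum_univ_two, Real.norm_eq_abs, Real.norm_eq_abs, sq_abs, sq_abs]

theorem pm_alg0 (r ri v D Im y0 y1 u g : ℂ) (hri : r * ri = 1) (hr : y0 ^ 2 + y1 ^ 2 = r) (hD : D * r = ri - r * v) :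
    (r * v + D * y0 * y0) * (-(Im * y1 * ri) * u + y0 * g) + (D * y0 * y1) * ((Im * y0 * ri) * u + y1 * g) =
      -Im * (y1 * (v * u)) + y0 * (g * ri) := by
  linear_combination (-v * Im * y1 * u) * hri + (D * y0 * g) * hr + (y0 * g) * hD

theorem pm_alg1 (r ri v D Im y0 y1 u g : ℂ) (hri : r * ri = 1) (hr : y0 ^ 2 + y1 ^ 2 = r) (hD : D * r = ri - r * v) :
    (D * y1 * y0) * (-(Im * y1 * ri) * u + y0 * g) + (r * v + D * y1 * y1) * ((Im * y0 * ri) * u + y1 * g) =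
      Im * (y0 * (v * u)) + y1 * (g * ri) := by
  linear_combination (v * Im * y0 * u) * hri + (D * y1 * g) * hr + (y1 * g) * hD

theorem pm_mul_diff (u v : E 2 → ℂ) (x : E 2) (hu : DifferentiableAt ℝ u x) (hv : DifferentiableAt ℝ v x) :
    DifferentiableAt ℝ (fun y => u y * v y) x := hu.mul hv

theorem pm_div_diff (c d : E 2 → ℂ) (x : E 2) (hc : DifferentiableAt ℝ c x) (hd : DifferentiableAt ℝ d x)
    (h : d x ≠ 0) : DifferentiableAt ℝ (fun y => c y / d y) x := by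
  simp only [div_eq_mul_inv]
  exact hc.mul (hd.inv h)

/-- the function `v0 h` -/
def pmF (h : ℝ → ℝ) (z : ℝ) : ℂ := ((v0 z * h z : ℝ) : ℂ)
/-- the function `h' / (2 z)` -/
def pmK (h : ℝ → ℝ) (z : ℝ) : ℂ := ((deriv h z / (2 * z) : ℝ) : ℂ)

def pmW (m : ℕ) (h : ℝ → ℝ) (j : Fin 2) (y : E 2) : ℂ :=
  if j = 0 then (-(Complex.I * m)) * ((y 1 : ℂ) * md m (pmF h) y) + (y 0 : ℂ) * md m (pmK h) y
  else (Complex.I * m) * ((y 0 : ℂ) * md m (pmF h) y) + (y 1 : ℂ) * md m (pmK h) y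

theorem pm_hasDeriv (h : ℝ → ℝ) (hh : ContDiff ℝ ∞ h) (z : ℝ) :
    HasDerivAt (fun z => (h z : ℂ)) ((deriv h z : ℝ) : ℂ) z :=
  ((hh.differentiable (by simp)) z).hasDerivAt.ofReal_comp

theorem pm_deriv_smooth (h : ℝ → ℝ) (hh : ContDiff ℝ ∞ h) : ContDiff ℝ ∞ (deriv h) :=
  (contDiff_infty_iff_deriv.1 hh).2

theorem pm_F_deriv (h : ℝ → ℝ) (hh : ContDiff ℝ ∞ h) (z : ℝ) (hz : 0 < z) :
    HasDerivAt (pmF h) (((deriv v0 z * h z + v0 z * deriv h z : ℝ)) : ℂ) z := by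
  have h1 : HasDerivAt v0 (deriv v0 z) z :=
    ((w_pos.2.2.2.2.2.2.2.1 z hz).differentiableAt (by simp)).hasDerivAt
  have h2 : HasDerivAt h (deriv h z) z := ((hh.differentiable (by simp)) z).hasDerivAt
  exact (h1.mul h2).ofReal_comp

theorem pm_K_deriv (h : ℝ → ℝ) (hh : ContDiff ℝ ∞ h) (z : ℝ) (hz : 0 < z) :
    HasDerivAt (pmK h) (((deriv (deriv h) z / (2 * z) - deriv h z / (2 * z ^ 2) : ℝ)) : ℂ) z := by
  have h2 : HasDerivAt (deriv h) (deriv (deriv h) z) z :=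
    (((pm_deriv_smooth h hh).differentiable (by simp)) z).hasDerivAt
  have h3 : HasDerivAt (fun z : ℝ => 2 * z) 2 z := by
    simpa using (hasDerivAt_id z).const_mul 2
  have h4 := (h2.div h3 (by positivity)).ofReal_comp
  have e : (deriv (deriv h) z * (2 * z) - deriv h z * 2) / (2 * z) ^ 2 =
      deriv (deriv h) z / (2 * z) - deriv h z / (2 * z ^ 2) := by
    field_simp
  rw [e] at h4
  exact h4

theorem pm_W (m : ℕ) (h : ℝ → ℝ) (hh : ContDiff ℝ ∞ h) (y : E 2) (hy : ‖y‖ ^ 2 / 2 ∈ Ioo (3 / 2 : ℝ) (9 / 2)) (j : Fin 2) :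
    ∑ l, (A0 y j l : ℂ) * pd l (md m (fun z => (h z : ℂ))) y = pmW m h j y := by
  have hz0 : 0 < ‖y‖ ^ 2 / 2 := by linarith [hy.1]
  have hy0 : y ≠ 0 := by
    rintro rfl
    simp at hz0
  obtain ⟨-, p0, p1⟩ := pd_md m (fun z => (h z : ℂ)) (fun z => ((deriv h z : ℝ) : ℂ)) y hy0 (pm_hasDeriv h hh _)
  have hr0 : 0 < ‖y‖ ^ 2 := by linarith
  set z := ‖y‖ ^ 2 / 2 with hzd
  have hal : al z = 1 := w_pos.2.2.2.1 z ⟨hy.1.le, hy.2.le⟩
  have hri : (((‖y‖ ^ 2 : ℝ)) : ℂ) * ((((‖y‖ ^ 2 : ℝ)) : ℂ))⁻¹ = 1 := by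
    apply mul_inv_cancel₀
    exact_mod_cast hr0.ne'
  have hr : ((y 0 : ℝ) : ℂ) ^ 2 + ((y 1 : ℝ) : ℂ) ^ 2 = (((‖y‖ ^ 2 : ℝ)) : ℂ) := by
    rw [pm_nsq]
    push_cast
    ring
  have hD : (Dz z : ℂ) * (((‖y‖ ^ 2 : ℝ)) : ℂ) = ((((‖y‖ ^ 2 : ℝ)) : ℂ))⁻¹ - (((‖y‖ ^ 2 : ℝ)) : ℂ) * (v0 z : ℂ) := by
    have : Dz z * ‖y‖ ^ 2 = (‖y‖ ^ 2)⁻¹ - ‖y‖ ^ 2 * v0 z := by
      unfold Dz
      rw [hal]
      have e : ‖y‖ ^ 2 = 2 * z := by rw [hzd]; ring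
      rw [e]
      field_simp
      ring
    have h2 := congrArg (fun t : ℝ => (t : ℂ)) this
    push_cast at h2 ⊢
    exact h2
  have hF : md m (pmF h) y = (v0 z : ℂ) * md m (fun z => (h z : ℂ)) y := by
    unfold md pmF
    push_cast
    ring
  have hK : md m (pmK h) y = md m (fun z => ((deriv h z : ℝ) : ℂ)) y * ((((‖y‖ ^ 2 : ℝ)) : ℂ))⁻¹ := by
    unfold md pmK
    have e : 2 * (‖y‖ ^ 2 / 2) = ‖y‖ ^ 2 := by ring
    rw [e]
    push_cast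
    ring
  rw [Fin.sum_univ_two, p0, p1]
  have e2 : 2 * z = ‖y‖ ^ 2 := by rw [hzd]; ring
  fin_cases j
  · simp only [Fin.zero_eta, Fin.isValue, pmW, if_true]
    rw [a0_formula y hy0, a0_formula y hy0, hF, hK]
    have := pm_alg0 _ _ (v0 z : ℂ) (Dz z : ℂ) (Complex.I * m) (y 0 : ℂ) (y 1 : ℂ) (md m (fun z => (h z : ℂ)) y)
      (md m (fun z => ((deriv h z : ℝ) : ℂ)) y) hri hr hD
    rw [← this, ← hzd, e2]
    push_cast
    simp
    ring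
  · simp only [Fin.mk_one, Fin.isValue, pmW, one_ne_zero, if_false]
    rw [a0_formula y hy0, a0_formula y hy0, hF, hK]
    have := pm_alg1 _ _ (v0 z : ℂ) (Dz z : ℂ) (Complex.I * m) (y 0 : ℂ) (y 1 : ℂ) (md m (fun z => (h z : ℂ)) y)
      (md m (fun z => ((deriv h z : ℝ) : ℂ)) y) hri hr hD
    rw [← this, ← hzd, e2]
    push_cast
    simp
    ring

theorem pm_region_open : IsOpen {y : E 2 | ‖y‖ ^ 2 / 2 ∈ Ioo (3 / 2 : ℝ) (9 / 2)} := by
  have hcont : Continuous (fun y : E 2 => ‖y‖ ^ 2 / 2) := by fun_prop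
  exact isOpen_Ioo.preimage hcont

theorem pm_pd_diff (m : ℕ) (h : ℝ → ℝ) (hh : ContDiff ℝ ∞ h) (x : E 2) (hx : ‖x‖ ^ 2 / 2 ∈ Ioo (3 / 2 : ℝ) (9 / 2)) (l : Fin 2) :
    DifferentiableAt ℝ (fun y => pd l (md m (fun z => (h z : ℂ))) y) x := by
  have hmem := pm_region_open.mem_nhds hx
  have hne : ∀ y : E 2, ‖y‖ ^ 2 / 2 ∈ Ioo (3 / 2 : ℝ) (9 / 2) → y ≠ 0 := by
    rintro y hy rfl
    have := hy.1
    simp at this
    linarith
  have d1 := (pd_md m (fun z => (h z : ℂ)) (fun z => ((deriv h z : ℝ) : ℂ)) x (hne x hx) (pm_hasDeriv h hh _)).1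
  have d2 := (pd_md m (fun z => ((deriv h z : ℝ) : ℂ)) (fun z => ((deriv (deriv h) z : ℝ) : ℂ)) x (hne x hx)
    (pm_hasDeriv _ (pm_deriv_smooth h hh) _)).1
  have hx0 : (((‖x‖ ^ 2 : ℝ)) : ℂ) ≠ 0 := by
    have : ‖x‖ ^ 2 ≠ 0 := by
      have := hx.1
      intro h0
      rw [h0] at this
      norm_num at this
    exact_mod_cast this
  fin_cases l
  · have e : (fun y => pd 0 (md m (fun z => (h z : ℂ))) y) =ᶠ[𝓝 x]
        fun y => -(Complex.I * m * (y 1 : ℂ) / ((‖y‖ ^ 2 : ℝ) : ℂ)) * md m (fun z => (h z : ℂ)) y +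
          (y 0 : ℂ) * md m (fun z => ((deriv h z : ℝ) : ℂ)) y := by
      filter_upwards [hmem] with y hy
      exact (pd_md m (fun z => (h z : ℂ)) (fun z => ((deriv h z : ℝ) : ℂ)) y (hne y hy) (pm_hasDeriv h hh _)).2.1
    refine DifferentiableAt.congr_of_eventuallyEq ?_ e
    have a1 : DifferentiableAt ℝ (fun y : E 2 => -(Complex.I * m * (y 1 : ℂ) / ((‖y‖ ^ 2 : ℝ) : ℂ))) x :=
      (pm_div_diff (fun y : E 2 => Complex.I * m * (y 1 : ℂ)) (fun y : E 2 => ((‖y‖ ^ 2 : ℝ) : ℂ)) x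
        ((pm_coord_diff 1 x).const_mul (Complex.I * m)) (pm_nsq_diff x) hx0).neg
    exact (a1.mul d1).add ((pm_coord_diff 0 x).mul d2)
  · have e : (fun y => pd 1 (md m (fun z => (h z : ℂ))) y) =ᶠ[𝓝 x]
        fun y => (Complex.I * m * (y 0 : ℂ) / ((‖y‖ ^ 2 : ℝ) : ℂ)) * md m (fun z => (h z : ℂ)) y +
          (y 1 : ℂ) * md m (fun z => ((deriv h z : ℝ) : ℂ)) y := by
      filter_upwards [hmem] with y hy
      exact (pd_md m (fun z => (h z : ℂ)) (fun z => ((deriv h z : ℝ) : ℂ)) y (hne y hy) (pm_hasDeriv h hh _)).2.2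
    refine DifferentiableAt.congr_of_eventuallyEq ?_ e
    have a1 : DifferentiableAt ℝ (fun y : E 2 => (Complex.I * m * (y 0 : ℂ) / ((‖y‖ ^ 2 : ℝ) : ℂ))) x :=
      (pm_div_diff (fun y : E 2 => Complex.I * m * (y 0 : ℂ)) (fun y : E 2 => ((‖y‖ ^ 2 : ℝ) : ℂ)) x
        ((pm_coord_diff 0 x).const_mul (Complex.I * m)) (pm_nsq_diff x) hx0)
    exact (a1.mul d1).add ((pm_coord_diff 1 x).mul d2)

theorem pm_A_diff (j l : Fin 2) (x : E 2) : DifferentiableAt ℝ (fun y : E 2 => (A0 y j l : ℂ)) x := by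
  have h := ((a0_smooth.1 j l).differentiable (by simp)) x
  exact Complex.ofRealCLM.differentiableAt.comp x h

theorem pm_sum (m : ℕ) (h : ℝ → ℝ) (hh : ContDiff ℝ ∞ h) (x : E 2) (hx : ‖x‖ ^ 2 / 2 ∈ Ioo (3 / 2 : ℝ) (9 / 2)) (j : Fin 2) :
    ∑ l, pd j (fun y => (A0 y j l : ℂ) * pd l (md m (fun z => (h z : ℂ))) y) x = pd j (pmW m h j) x := by
  have hmem := pm_region_open.mem_nhds hx
  have e : pmW m h j =ᶠ[𝓝 x] fun y => (A0 y j 0 : ℂ) * pd 0 (md m (fun z => (h z : ℂ))) y +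
      (A0 y j 1 : ℂ) * pd 1 (md m (fun z => (h z : ℂ))) y := by
    filter_upwards [hmem] with y hy
    rw [← pm_W m h hh y hy j, Fin.sum_univ_two]
  rw [pm_pd_congr j e, pm_pd_add j (pm_mul_diff _ _ x (pm_A_diff j 0 x) (pm_pd_diff m h hh x hx 0))
    (pm_mul_diff _ _ x (pm_A_diff j 1 x) (pm_pd_diff m h hh x hx 1)), Fin.sum_univ_two]

theorem pm_div (m : ℕ) (h : ℝ → ℝ) (hh : ContDiff ℝ ∞ h) (x : E 2) (hx : ‖x‖ ^ 2 / 2 ∈ Ioo (3 / 2 : ℝ) (9 / 2)) :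
    pd 0 (pmW m h 0) x + pd 1 (pmW m h 1) x =
      -((m : ℂ) ^ 2) * md m (pmF h) x + md m (fun z => ((deriv (deriv h) z : ℝ) : ℂ)) x := by
  have hz0 : 0 < ‖x‖ ^ 2 / 2 := by linarith [hx.1]
  have hx0 : x ≠ 0 := by
    rintro rfl
    simp at hz0
  have hr0 : 0 < ‖x‖ ^ 2 := by linarith
  obtain ⟨dF, F0, F1⟩ := pd_md m (pmF h) (fun z => ((deriv v0 z * h z + v0 z * deriv h z : ℝ) : ℂ)) x hx0
    (pm_F_deriv h hh _ hz0)
  obtain ⟨dK, K0, K1⟩ := pd_md m (pmK h) (fun z => ((deriv (deriv h) z / (2 * z) - deriv h z / (2 * z ^ 2) : ℝ) : ℂ)) x hx0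
    (pm_K_deriv h hh _ hz0)
  set MF := md m (pmF h) x
  set MF' := md m (fun z => ((deriv v0 z * h z + v0 z * deriv h z : ℝ) : ℂ)) x
  have hri : (((‖x‖ ^ 2 : ℝ)) : ℂ) * ((((‖x‖ ^ 2 : ℝ)) : ℂ))⁻¹ = 1 := by
    apply mul_inv_cancel₀
    exact_mod_cast hr0.ne'
  have hr : ((x 0 : ℝ) : ℂ) ^ 2 + ((x 1 : ℝ) : ℂ) ^ 2 = (((‖x‖ ^ 2 : ℝ)) : ℂ) := by
    rw [pm_nsq]
    push_cast
    ring
  have hKK : 2 * md m (pmK h) x + (((‖x‖ ^ 2 : ℝ)) : ℂ) *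
      md m (fun z => ((deriv (deriv h) z / (2 * z) - deriv h z / (2 * z ^ 2) : ℝ) : ℂ)) x =
      md m (fun z => ((deriv (deriv h) z : ℝ) : ℂ)) x := by
    unfold md pmK
    have e : 2 * (deriv h (‖x‖ ^ 2 / 2) / (2 * (‖x‖ ^ 2 / 2))) + ‖x‖ ^ 2 * (deriv (deriv h) (‖x‖ ^ 2 / 2) / (2 * (‖x‖ ^ 2 / 2)) -
        deriv h (‖x‖ ^ 2 / 2) / (2 * (‖x‖ ^ 2 / 2) ^ 2)) = deriv (deriv h) (‖x‖ ^ 2 / 2) := by
      field_simp
      ring
    have e' := congrArg (fun t : ℝ => (t : ℂ)) e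
    simp only [] at e' ⊢
    rw [Complex.ofReal_add, Complex.ofReal_mul, Complex.ofReal_mul] at e'
    rw [← e']
    push_cast
    ring
  have w0 : pd 0 (pmW m h 0) x = (-(Complex.I * m)) * ((x 1 : ℂ) * pd 0 (md m (pmF h)) x) +
      (md m (pmK h) x + (x 0 : ℂ) * pd 0 (md m (pmK h)) x) := by
    have e : pmW m h 0 = fun y => (fun _ : E 2 => (-(Complex.I * (m : ℂ)))) y * ((y 1 : ℂ) * md m (pmF h) y) +
        (y 0 : ℂ) * md m (pmK h) y := by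
      funext y
      simp [pmW]
    have d1 : DifferentiableAt ℝ (fun y : E 2 => (y 1 : ℂ) * md m (pmF h) y) x := pm_mul_diff _ _ x (pm_coord_diff 1 x) dF
    have d2 : DifferentiableAt ℝ (fun y : E 2 => (y 0 : ℂ) * md m (pmK h) y) x := pm_mul_diff _ _ x (pm_coord_diff 0 x) dK
    have dc : DifferentiableAt ℝ (fun _ : E 2 => (-(Complex.I * (m : ℂ)))) x := differentiableAt_const _
    have d3 := pm_mul_diff _ _ x dc d1
    rw [e, pm_pd_add 0 d3 d2, pm_pd_mul 0 dc d1, pm_pd_mul 0 (pm_coord_diff 1 x) dF,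
      pm_pd_mul 0 (pm_coord_diff 0 x) dK, pm_pd_coord, pm_pd_coord, pm_pd_const]
    simp
  have w1 : pd 1 (pmW m h 1) x = ((Complex.I * m)) * ((x 0 : ℂ) * pd 1 (md m (pmF h)) x) +
      (md m (pmK h) x + (x 1 : ℂ) * pd 1 (md m (pmK h)) x) := by
    have e : pmW m h 1 = fun y => (fun _ : E 2 => ((Complex.I * (m : ℂ)))) y * ((y 0 : ℂ) * md m (pmF h) y) +
        (y 1 : ℂ) * md m (pmK h) y := by
      funext y
      simp [pmW]
    have d1 : DifferentiableAt ℝ (fun y : E 2 => (y 0 : ℂ) * md m (pmF h) y) x := pm_mul_diff _ _ x (pm_coord_diff 0 x) dF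
    have d2 : DifferentiableAt ℝ (fun y : E 2 => (y 1 : ℂ) * md m (pmK h) y) x := pm_mul_diff _ _ x (pm_coord_diff 1 x) dK
    have dc : DifferentiableAt ℝ (fun _ : E 2 => ((Complex.I * (m : ℂ)))) x := differentiableAt_const _
    have d3 := pm_mul_diff _ _ x dc d1
    rw [e, pm_pd_add 1 d3 d2, pm_pd_mul 1 dc d1, pm_pd_mul 1 (pm_coord_diff 0 x) dF,
      pm_pd_mul 1 (pm_coord_diff 1 x) dK, pm_pd_coord, pm_pd_coord, pm_pd_const]
    simp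
  rw [w0, w1, F0, F1, K0, K1, ← hKK]
  set r := (((‖x‖ ^ 2 : ℝ)) : ℂ) with hrd
  simp only [div_eq_mul_inv]
  have hI := Complex.I_sq
  set I := Complex.I
  linear_combination (((m : ℂ) ^ 2 * I ^ 2 * MF * r⁻¹) +
    md m (fun z => ((deriv (deriv h) z * (2 * z)⁻¹ - deriv h z * (2 * z ^ 2)⁻¹ : ℝ) : ℂ)) x) * hr +
    ((m : ℂ) ^ 2 * I ^ 2 * MF) * hri + ((m : ℂ) ^ 2 * MF) * hI

theorem p_md (m : ℕ) (h : ℝ → ℝ) (hh : ContDiff ℝ ∞ h) (hc : HasCompactSupport h)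
    (hs : tsupport h ⊆ Ioo (3 / 2 : ℝ) (9 / 2)) (x : E 2) :
    Pop A0 (md m (fun z => (h z : ℂ))) x =
      md m (fun z => ((-(1 / 2) * deriv (deriv h) z + (1 / 2) * (m : ℝ) ^ 2 * v0 z * h z : ℝ) : ℂ)) x := by
  by_cases hx : ‖x‖ ^ 2 / 2 ∈ tsupport h
  · have hx' := hs hx
    unfold Pop
    rw [Fin.sum_univ_two, pm_sum m h hh x hx' 0, pm_sum m h hh x hx' 1, pm_div m h hh x hx']
    unfold md pmF
    push_cast
    ring
  · exact pm_off m h x hx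

end N_p_md

end Pool.Agent.Helper459.SK
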