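import Mathlib
import Pool.Agent.Helper459.SK.Defs

set_option autoImplicit false

noncomputable section

open MeasureTheory Set Filter Topology
open scoped ContDiff ComplexConjugate

namespace Pool.Agent.Helper459.SK

namespace N_z_map

theorem z_map : Measure.map (fun x : E 2 => ‖x‖ ^ 2 / 2) volume =
    ENNReal.ofReal (2 * Real.pi) • (volume.restrict (Ioi (0 : ℝ))) := by
  have hm : Measurable (fun x : E 2 => ‖x‖ ^ 2 / 2) := by fun_prop
  have hF : ∀ c : ℝ, volume {x : E 2 | ‖x‖ ^ 2 / 2 ≤ c} =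
      ENNReal.ofReal (2 * Real.pi * max c 0) := by
    intro c
    rcases lt_or_ge c 0 with h | h
    · have h1 : {x : E 2 | ‖x‖ ^ 2 / 2 ≤ c} = ∅ := by
        rw [eq_empty_iff_forall_notMem]
        intro x hx
        have h2 : ‖x‖ ^ 2 / 2 ≤ c := hx
        have h3 : 0 ≤ ‖x‖ ^ 2 / 2 := by positivity
        linarith
      rw [h1, measure_empty, max_eq_right h.le, mul_zero, ENNReal.ofReal_zero]
    · have h1 : {x : E 2 | ‖x‖ ^ 2 / 2 ≤ c} = Metric.closedBall 0 (Real.sqrt (2 * c)) := by
        ext x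
        rw [mem_setOf_eq, Metric.mem_closedBall, dist_zero_right,
          Real.le_sqrt (norm_nonneg _) (by positivity)]
        constructor <;> intro h2 <;> linarith
      rw [h1, EuclideanSpace.volume_closedBall_fin_two, max_eq_left h,
        ← ENNReal.ofReal_pow (Real.sqrt_nonneg _), Real.sq_sqrt (by positivity),
        ← ENNReal.ofReal_mul (by positivity)]
      congr 1
      ring
  have hIoc : ∀ a b : ℝ, a < b → Measure.map (fun x : E 2 => ‖x‖ ^ 2 / 2) volume (Ioc a b) =
      ENNReal.ofReal (2 * Real.pi * max b 0) - ENNReal.ofReal (2 * Real.pi * max a 0) := by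
    intro a b hab
    rw [Measure.map_apply hm measurableSet_Ioc]
    have h1 : (fun x : E 2 => ‖x‖ ^ 2 / 2) ⁻¹' Ioc a b =
        {x : E 2 | ‖x‖ ^ 2 / 2 ≤ b} \ {x : E 2 | ‖x‖ ^ 2 / 2 ≤ a} := by
      ext x
      simp only [mem_preimage, mem_Ioc, mem_diff, mem_setOf_eq, not_le]
      exact and_comm
    have h2 : {x : E 2 | ‖x‖ ^ 2 / 2 ≤ a} ⊆ {x : E 2 | ‖x‖ ^ 2 / 2 ≤ b} :=
      fun x hx => le_trans (show ‖x‖ ^ 2 / 2 ≤ a from hx) hab.le
    have h3 : MeasurableSet {x : E 2 | ‖x‖ ^ 2 / 2 ≤ a} := measurableSet_le hm measurable_const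
    rw [h1, measure_diff h2 h3.nullMeasurableSet (by rw [hF]; exact ENNReal.ofReal_ne_top), hF, hF]
  refine Measure.ext_of_Ioc' _ _ ?_ ?_
  · intro a b hab
    rw [hIoc a b hab]
    exact ne_top_of_le_ne_top ENNReal.ofReal_ne_top tsub_le_self
  · intro a b hab
    rw [hIoc a b hab, Measure.smul_apply, Measure.restrict_apply measurableSet_Ioc, smul_eq_mul]
    have h1 : Ioc a b ∩ Ioi 0 = Ioc (max a 0) b := by
      ext x
      simp only [mem_inter_iff, mem_Ioc, mem_Ioi, max_lt_iff]
      tauto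
    rw [h1, Real.volume_Ioc, ← ENNReal.ofReal_mul (by positivity),
      ← ENNReal.ofReal_sub _ (by positivity), ← mul_sub]
    rcases le_total b 0 with h | h
    · rw [max_eq_right h, max_eq_right (hab.le.trans h), sub_self, mul_zero, ENNReal.ofReal_zero]
      symm
      rw [ENNReal.ofReal_eq_zero]
      have : 0 ≤ 2 * Real.pi := by positivity
      nlinarith
    · rw [max_eq_left h]

end N_z_map

end Pool.Agent.Helper459.SK
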