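import Mathlib
import Pool.Agent.Helper459.SK.Defs
import Pool.Agent.Helper459.SK.L_z_map

set_option autoImplicit false

noncomputable section

open MeasureTheory Set Filter Topology
open scoped ContDiff ComplexConjugate

namespace Pool.Agent.Helper459.SK
open N_z_map

namespace N_tm

def q (x : E 2) : ℝ := ‖x‖ ^ 2 / 2

lemma q_cont : Continuous q := by unfold q; fun_prop
lemma q_meas : Measurable q := q_cont.measurable

lemma map_q : Measure.map q volume = ENNReal.ofReal (2 * Real.pi) • (volume.restrict (Ioi (0 : ℝ))) := z_map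

lemma qmp : Measure.QuasiMeasurePreserving q volume (volume.restrict (Ioi (0:ℝ))) := by
  refine ⟨q_meas, ?_⟩
  rw [map_q]; exact Measure.smul_absolutelyContinuous

lemma ze_meas : Measurable ze := by
  have h0 : Measurable (fun x : E 2 => x 0) := (by fun_prop : Continuous (fun x : E 2 => x 0)).measurable
  have h1 : Measurable (fun x : E 2 => x 1) := (by fun_prop : Continuous (fun x : E 2 => x 1)).measurable
  unfold ze
  exact ((Complex.measurable_ofReal.comp h0).add ((Complex.measurable_ofReal.comp h1).const_mul _)).div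
    (Complex.measurable_ofReal.comp measurable_norm)

lemma ze_norm (x : E 2) (hx : x ≠ 0) : ‖ze x‖ = 1 := by
  have h : ‖(x 0 : ℂ) + Complex.I * (x 1 : ℂ)‖ = ‖x‖ := by
    rw [mul_comm, Complex.norm_add_mul_I, EuclideanSpace.norm_eq]
    simp [Fin.sum_univ_two]
  unfold ze
  rw [norm_div, h, Complex.norm_real, norm_norm]
  exact div_self (norm_ne_zero_iff.2 hx)

lemma ze_ae : ∀ᵐ x : E 2, ‖ze x‖ = 1 := by
  have : ∀ᵐ x : E 2, x ≠ 0 := by
    have := (measure_singleton (μ := (volume : Measure (E 2))) 0)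
    rw [ae_iff]; simpa using this
  filter_upwards [this] with x hx using ze_norm x hx

def cc : ℂ := ((1 / Real.sqrt (2 * Real.pi) : ℝ) : ℂ)

def FF (m : ℕ) (χ : ℝ → ℂ) (x : E 2) : ℂ := cc * md m χ x

lemma FF_aesm (m : ℕ) (χ : L2z) : AEStronglyMeasurable (FF m χ) (volume : Measure (E 2)) := by
  have h1 : AEStronglyMeasurable (fun x : E 2 => (χ : ℝ → ℂ) (q x)) (volume : Measure (E 2)) :=
    (Lp.aestronglyMeasurable χ).comp_quasiMeasurePreserving qmp
  have h2 : AEStronglyMeasurable (fun x : E 2 => ze x ^ m) (volume : Measure (E 2)) :=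
    (ze_meas.pow_const m).aestronglyMeasurable
  exact (h2.mul h1).const_mul cc

lemma const_id : ‖cc‖ₑ * (ENNReal.ofReal (2 * Real.pi)) ^ (1 / (2 : ENNReal)).toReal = 1 := by
  have hp : 0 < 2 * Real.pi := by positivity
  have hs : 0 < Real.sqrt (2 * Real.pi) := Real.sqrt_pos.2 hp
  have h1 : ‖cc‖ₑ = ENNReal.ofReal (1 / Real.sqrt (2 * Real.pi)) := by
    rw [← ofReal_norm_eq_enorm, cc, Complex.norm_real, Real.norm_of_nonneg (by positivity)]
  have h2 : (1 / (2 : ENNReal)).toReal = 1 / 2 := by simp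
  rw [h1, h2, ENNReal.ofReal_rpow_of_pos hp, ← Real.sqrt_eq_rpow, ← ENNReal.ofReal_mul (by positivity),
    one_div_mul_cancel hs.ne']
  simp

lemma FF_norm (m : ℕ) (χ : L2z) : eLpNorm (FF m χ) 2 (volume : Measure (E 2)) =
    eLpNorm (χ : ℝ → ℂ) 2 (volume.restrict (Ioi (0:ℝ))) := by
  have h1 : eLpNorm (FF m χ) 2 (volume : Measure (E 2)) =
      eLpNorm (cc • fun x : E 2 => (χ : ℝ → ℂ) (q x)) 2 (volume : Measure (E 2)) := by
    apply eLpNorm_congr_norm_ae
    filter_upwards [ze_ae] with x hx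
    simp only [FF, md, norm_mul, norm_pow, hx, one_pow, one_mul, Pi.smul_apply, norm_smul, q]
  have hm : AEStronglyMeasurable (χ : ℝ → ℂ) (Measure.map q volume) := by
    rw [map_q]; exact (Lp.aestronglyMeasurable χ).smul_measure _
  have h2 : eLpNorm (fun x : E 2 => (χ : ℝ → ℂ) (q x)) 2 (volume : Measure (E 2)) =
      eLpNorm (χ : ℝ → ℂ) 2 (Measure.map q volume) := by
    rw [eLpNorm_map_measure hm q_meas.aemeasurable]; rfl
  rw [h1, eLpNorm_const_smul, h2, map_q, eLpNorm_smul_measure_of_ne_top (by simp), smul_eq_mul,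
    ← mul_assoc, const_id, one_mul]

lemma FF_mem (m : ℕ) (χ : L2z) : MemLp (FF m χ) 2 (volume : Measure (E 2)) :=
  ⟨FF_aesm m χ, by rw [FF_norm]; exact Lp.eLpNorm_lt_top χ⟩

def TT (m : ℕ) : L2z →ₗᵢ[ℂ] L2 2 where
  toFun χ := (FF_mem m χ).toLp _
  map_add' χ₁ χ₂ := by
    rw [← MemLp.toLp_add]
    apply MemLp.toLp_congr
    have h := qmp.ae_eq_comp (Lp.coeFn_add χ₁ χ₂)
    filter_upwards [h] with x hx
    simp only [Function.comp_apply, Pi.add_apply] at hx
    have hx' : ((χ₁ + χ₂ : L2z) : ℝ → ℂ) (‖x‖ ^ 2 / 2) = χ₁ (‖x‖ ^ 2 / 2) + χ₂ (‖x‖ ^ 2 / 2) := hx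
    simp only [FF, md, Pi.add_apply]
    rw [hx']; ring
  map_smul' a χ := by
    rw [RingHom.id_apply, ← MemLp.toLp_const_smul]
    apply MemLp.toLp_congr
    have h := qmp.ae_eq_comp (Lp.coeFn_smul a χ)
    filter_upwards [h] with x hx
    have hx' : ((a • χ : L2z) : ℝ → ℂ) (‖x‖ ^ 2 / 2) = a • χ (‖x‖ ^ 2 / 2) := hx
    simp only [FF, md, Pi.smul_apply, smul_eq_mul]
    rw [hx', smul_eq_mul]; ring
  norm_map' χ := by
    show ‖(FF_mem m χ).toLp _‖ = ‖χ‖
    rw [Lp.norm_toLp, FF_norm, Lp.norm_def]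

theorem tm (m : ℕ) : ∃ Tm : L2z →ₗᵢ[ℂ] L2 2, ∀ χ : L2z,
    (Tm χ : E 2 → ℂ) =ᵐ[volume] fun x => ((1 / Real.sqrt (2 * Real.pi) : ℝ) : ℂ) * md m (χ : ℝ → ℂ) x :=
  ⟨TT m, fun χ => (FF_mem m χ).coeFn_toLp⟩

end N_tm

end Pool.Agent.Helper459.SK
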