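import Mathlib
import Pool.Agent.Helper459.SK.Defs
import Pool.Agent.Helper459.SK.L_tm
import Pool.Agent.Helper459.SK.L_md_test
import Pool.Agent.Helper459.SK.L_p_md
import Pool.Agent.Helper459.SK.L_u_deriv
import Pool.Agent.Helper459.SK.L_fj_facts
import Pool.Agent.Helper459.SK.L_test_l2
import Pool.Agent.Helper459.SK.L_w_pos
import Pool.Agent.Helper459.SK.L_w_facts

set_option autoImplicit false

noncomputable section

open MeasureTheory Set Filter Topology
open scoped ContDiff ComplexConjugate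

namespace Pool.Agent.Helper459.SK
open N_tm
open N_md_test
open N_p_md
open N_u_deriv
open N_fj_facts
open N_test_l2
open N_w_pos
open N_w_facts

namespace N_red

theorem red_null (N : Set ℝ) (hN : volume N = 0) : ∀ᵐ x : E 2, x ≠ 0 → ‖x‖ ^ 2 / 2 ∉ N := by
  obtain ⟨R, hR⟩ : ∃ R : Set ℝ, R = {r | 0 < r ∧ r ^ 2 / 2 ∈ N} := ⟨_, rfl⟩
  have hR0 : volume R = 0 := by
    have h1 : R ⊆ (fun z => √(2 * z)) '' (N ∩ Ioi 0) := by
      rw [hR]
      rintro r ⟨hr, hrN⟩
      have hr2 : 0 < r ^ 2 / 2 := by positivity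
      refine ⟨r ^ 2 / 2, ⟨hrN, hr2⟩, ?_⟩
      change √(2 * (r ^ 2 / 2)) = r
      have e : 2 * (r ^ 2 / 2) = r ^ 2 := by ring
      rw [e]
      exact Real.sqrt_sq hr.le
    refine measure_mono_null h1 ?_
    apply addHaar_image_eq_zero_of_differentiableOn_of_addHaar_eq_zero
    · intro z hz
      have hz0 : 0 < z := hz.2
      apply DifferentiableAt.differentiableWithinAt
      apply DifferentiableAt.sqrt
      · fun_prop
      · positivity
    · exact measure_mono_null inter_subset_left hN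
  obtain ⟨R', hRR', hR'm, hR'0⟩ := exists_measurable_superset_of_null hR0
  have hf0 : ∀ᵐ y : ℝ, R'.indicator (fun _ => (1 : ℝ)) y = 0 := by
    have : ∀ᵐ y : ℝ, y ∉ R' := measure_eq_zero_iff_ae_notMem.1 hR'0
    filter_upwards [this] with y hy
    exact indicator_of_notMem hy _
  have hz : (fun y : ℝ => y ^ (Module.finrank ℝ (E 2) - 1) • R'.indicator (fun _ => (1 : ℝ)) y)
      =ᵐ[volume.restrict (Ioi 0)] fun _ => 0 := by
    filter_upwards [ae_restrict_of_ae hf0] with y hy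
    rw [hy, smul_zero]
  have hint : Integrable (fun x : E 2 => R'.indicator (fun _ => (1 : ℝ)) ‖x‖) volume := by
    rw [integrable_fun_norm_addHaar (volume : Measure (E 2))
      (f := R'.indicator (fun _ => (1 : ℝ)))]
    exact (integrable_zero ℝ ℝ _).congr hz.symm
  have hi0 : ∫ x : E 2, R'.indicator (fun _ => (1 : ℝ)) ‖x‖ = 0 := by
    rw [integral_fun_norm_addHaar (volume : Measure (E 2)) (R'.indicator (fun _ => (1 : ℝ))),
      integral_congr_ae hz, integral_zero, smul_zero, smul_zero]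
  have hae := (integral_eq_zero_iff_of_nonneg
    (fun x => indicator_nonneg (fun _ _ => zero_le_one) _) hint).1 hi0
  filter_upwards [hae] with x hx hx0 hxN
  have hxR : ‖x‖ ∈ R' := by
    apply hRR'
    rw [hR]
    exact ⟨norm_pos_iff.2 hx0, hxN⟩
  have hx' : R'.indicator (fun _ => (1 : ℝ)) ‖x‖ = 0 := hx
  rw [indicator_of_mem hxR] at hx'
  exact one_ne_zero hx'

theorem red_md_congr (m : ℕ) (h h' : ℝ → ℂ) (hh : h =ᵐ[volume.restrict (Ioi (0 : ℝ))] h') :
    md m h =ᵐ[volume] md m h' := by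
  have h1 : ∀ᵐ z : ℝ, z ∈ Ioi (0 : ℝ) → h z = h' z := (ae_restrict_iff' measurableSet_Ioi).1 hh
  have h2 : volume {z : ℝ | ¬ (z ∈ Ioi (0 : ℝ) → h z = h' z)} = 0 := h1
  have h3 : ∀ᵐ x : E 2, x ≠ 0 := by
    have : volume ({0} : Set (E 2)) = 0 := measure_singleton 0
    exact (measure_eq_zero_iff_ae_notMem.1 this).mono fun x hx => hx
  filter_upwards [red_null _ h2, h3] with x hx hx0
  have h4 := hx hx0
  have h4 : ‖x‖ ^ 2 / 2 ∈ Ioi (0 : ℝ) → h (‖x‖ ^ 2 / 2) = h' (‖x‖ ^ 2 / 2) := not_not.1 h4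
  unfold md
  have h5 : 0 < ‖x‖ ^ 2 / 2 := by
    have := norm_pos_iff.2 hx0
    positivity
  rw [h4 h5]

theorem red_toL2 {u : E 2 → ℂ} (h : MemLp u 2 (volume : Measure (E 2))) :
    toL2 u = h.toLp u := by
  unfold toL2
  exact dif_pos h

theorem red_A (m : ℕ) (Tm : L2z →ₗᵢ[ℂ] L2 2) (hT : ∀ χ : L2z,
    (Tm χ : E 2 → ℂ) =ᵐ[volume]
      fun x => ((1 / Real.sqrt (2 * Real.pi) : ℝ) : ℂ) * md m (χ : ℝ → ℂ) x)
    (χ : ℝ → ℂ) (hχ : MemLp χ 2 (volume.restrict (Ioi (0 : ℝ)))) :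
    Tm (hχ.toLp χ) = ((1 / Real.sqrt (2 * Real.pi) : ℝ) : ℂ) • toL2 (md m χ) := by
  have hc : ((1 / Real.sqrt (2 * Real.pi) : ℝ) : ℂ) ≠ 0 := by
    rw [Complex.ofReal_ne_zero]
    have := Real.pi_pos
    positivity
  generalize ((1 / Real.sqrt (2 * Real.pi) : ℝ) : ℂ) = c at *
  have h1 : (Tm (hχ.toLp χ) : E 2 → ℂ) =ᵐ[volume] fun x => c * md m χ x := by
    filter_upwards [hT (hχ.toLp χ), red_md_congr m _ _ hχ.coeFn_toLp] with x hx hx2
    rw [hx, hx2]
  have h2 : MemLp (md m χ) 2 (volume : Measure (E 2)) := by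
    have h3 := (Lp.memLp (Tm (hχ.toLp χ))).ae_eq h1
    have h4 := h3.const_mul c⁻¹
    refine h4.ae_eq (Filter.Eventually.of_forall fun x => ?_)
    change c⁻¹ * (c * md m χ x) = md m χ x
    rw [inv_mul_cancel_left₀ hc]
  rw [red_toL2 h2]
  apply Lp.ext
  filter_upwards [h1, Lp.coeFn_smul c (h2.toLp (md m χ)), h2.coeFn_toLp] with x hx hx2 hx3
  rw [hx, hx2, Pi.smul_apply, hx3, smul_eq_mul]

theorem red_test (f : ℝ → ℝ) (hf : FP f) (m j : ℕ) :
    IsTest (md m (fun z => ((fj f j z : ℝ) : ℂ))) := by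
  obtain ⟨h1, h2, h3⟩ := fj_facts.2.2 f hf j
  have hs : tsupport (fun z => ((fj f j z : ℝ) : ℂ)) ⊆ tsupport (fj f j) := by
    apply closure_mono
    intro z hz
    rw [Function.mem_support] at hz ⊢
    exact fun h => hz (by rw [h, Complex.ofReal_zero])
  apply md_test
  · exact Complex.ofRealCLM.contDiff.comp h1
  · exact h2.comp_left (g := fun r : ℝ => (r : ℂ)) Complex.ofReal_zero
  · exact fun z hz => lt_trans (by norm_num) (h3 (hs hz)).1

theorem red_memLp (f : ℝ → ℝ) (hf : FP f) (j : ℕ) :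
    MemLp (fun z => ((fj f j z : ℝ) : ℂ)) 2 (volume.restrict (Ioi (0 : ℝ))) := by
  obtain ⟨h1, h2, h3⟩ := fj_facts.2.2 f hf j
  have hc : Continuous (fun z => ((fj f j z : ℝ) : ℂ)) :=
    Complex.continuous_ofReal.comp h1.continuous
  have hs : HasCompactSupport (fun z => ((fj f j z : ℝ) : ℂ)) :=
    h2.comp_left (g := fun r : ℝ => (r : ℂ)) Complex.ofReal_zero
  exact (hc.memLp_of_hasCompactSupport hs).restrict _

theorem red_P (f : ℝ → ℝ) (hf : FP f) (m j : ℕ) :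
    toL2 (Pop A0 (md m (fun z => ((fj f j z : ℝ) : ℂ)))) =
      toL2 (md m (fun z => ((fj f (j + 1) z : ℝ) : ℂ))) +
        (((m : ℝ) ^ 2 / 16 : ℝ) : ℂ) • toL2 (md m (fun z => ((fj f j z : ℝ) : ℂ))) := by
  obtain ⟨h1, h2, h3⟩ := fj_facts.2.2 f hf j
  have hP : Pop A0 (md m (fun z => ((fj f j z : ℝ) : ℂ))) = fun x =>
      md m (fun z => ((fj f (j + 1) z : ℝ) : ℂ)) x +
        (((m : ℝ) ^ 2 / 16 : ℝ) : ℂ) * md m (fun z => ((fj f j z : ℝ) : ℂ)) x := by
    funext x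
    rw [p_md m (fj f j) h1 h2 (fun z hz => ⟨lt_trans (by norm_num) (h3 hz).1,
      lt_trans (h3 hz).2 (by norm_num)⟩) x]
    unfold md
    have key : ∀ z : ℝ, -(1 / 2) * deriv (deriv (fj f j)) z +
        (1 / 2) * (m : ℝ) ^ 2 * v0 z * fj f j z = fj f (j + 1) z + (m : ℝ) ^ 2 / 16 * fj f j z := by
      intro z
      have e1 : fj f (j + 1) z = -(1 / 2) * deriv (deriv (fj f j)) z := rfl
      rw [e1]
      by_cases hz : z ∈ tsupport (fj f j)
      · have hz2 := h3 hz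
        have e2 : w0 z = 0 := w_facts.flat1 z ⟨hz2.1.le, hz2.2.le⟩
        unfold v0
        rw [e2]
        ring
      · rw [image_eq_zero_of_notMem_tsupport hz]
        ring
    beta_reduce
    rw [key]
    push_cast
    ring
  have t1 := (test_l2 _ (red_test f hf m (j + 1))).1
  have t2 := (test_l2 _ (red_test f hf m j)).1
  have t3 : MemLp (Pop A0 (md m (fun z => ((fj f j z : ℝ) : ℂ)))) 2
      (volume : Measure (E 2)) := by
    rw [hP]
    exact t1.add (t2.const_mul _)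
  rw [red_toL2 t1, red_toL2 t2, red_toL2 t3]
  apply Lp.ext
  filter_upwards [t3.coeFn_toLp, t1.coeFn_toLp, t2.coeFn_toLp,
    Lp.coeFn_add (t1.toLp _) ((((m : ℝ) ^ 2 / 16 : ℝ) : ℂ) • t2.toLp _),
    Lp.coeFn_smul (((m : ℝ) ^ 2 / 16 : ℝ) : ℂ) (t2.toLp _)] with x e1 e2 e3 e4 e5
  rw [e1, e4, Pi.add_apply, e5, Pi.smul_apply, e2, e3, hP, smul_eq_mul]

theorem red_c : (starRingEnd ℂ) ((1 / Real.sqrt (2 * Real.pi) : ℝ) : ℂ) *
    ((1 / Real.sqrt (2 * Real.pi) : ℝ) : ℂ) = ((1 / (2 * Real.pi) : ℝ) : ℂ) := by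
  rw [Complex.conj_ofReal, ← Complex.ofReal_mul, div_mul_div_comm, one_mul,
    Real.mul_self_sqrt (by have := Real.pi_pos; positivity)]

theorem red_dE (M t : ℝ) : HasDerivAt (fun t : ℝ => Complex.exp (Complex.I * ((t * M / 16 : ℝ) : ℂ)))
    (Complex.exp (Complex.I * ((t * M / 16 : ℝ) : ℂ)) * (Complex.I * ((M / 16 : ℝ) : ℂ))) t := by
  have h1 : HasDerivAt (fun t : ℝ => t * M / 16) (M / 16) t := by
    have := ((hasDerivAt_id t).mul_const M).div_const 16
    simpa using this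
  exact (h1.ofReal_comp.const_mul Complex.I).cexp

theorem red_nE (r : ℝ) : ‖Complex.exp (Complex.I * (r : ℂ))‖ = 1 :=
  Complex.norm_exp_I_mul_ofReal r

theorem red (U : ℝ → (L2 2 →L[ℂ] L2 2)) (hU : IsPropagator A0 U) (f : ℝ → ℝ) (hf : FP f) :
    ∃ g : ℕ → ℕ → ℝ → L2z, Red U f g := by
  choose Tm hT using tm
  obtain ⟨c, hc⟩ : ∃ c : ℂ, c = ((1 / Real.sqrt (2 * Real.pi) : ℝ) : ℂ) := ⟨_, rfl⟩
  obtain ⟨F, hF⟩ : ∃ F : ℕ → L2z, ∀ j, F j = (red_memLp f hf j).toLp _ := ⟨_, fun _ => rfl⟩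
  obtain ⟨u, hu⟩ : ∃ u : ℕ → ℕ → E 2 → ℂ, ∀ m j, u m j = md m (fun z => ((fj f j z : ℝ) : ℂ)) :=
    ⟨_, fun _ _ => rfl⟩
  have hA : ∀ m j, Tm m (F j) = c • toL2 (u m j) := fun m j => by
    rw [hF, hc, hu]
    exact red_A m (Tm m) (hT m) _ (red_memLp f hf j)
  obtain ⟨S, hS⟩ : ∃ S : ℕ → L2 2 →L[ℂ] L2z,
    ∀ m, S m = ContinuousLinearMap.adjoint (Tm m).toContinuousLinearMap := ⟨_, fun _ => rfl⟩
  have hSn : ∀ m (y : L2 2), ‖S m y‖ ≤ ‖y‖ := by
    intro m y
    refine ((S m).le_opNorm y).trans (mul_le_of_le_one_left (norm_nonneg _) ?_)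
    rw [hS, LinearIsometryEquiv.norm_map]
    exact (Tm m).norm_toContinuousLinearMap_le
  have hST : ∀ m (x : L2z), S m (Tm m x) = x := by
    intro m x
    have h1 := (ContinuousLinearMap.norm_map_iff_adjoint_comp_self
      (Tm m).toContinuousLinearMap).1 (Tm m).norm_map
    have h2 := congrArg (fun L : L2z →L[ℂ] L2z => L x) h1
    rw [hS]
    exact h2
  have hSi : ∀ m (x : L2z) (y : L2 2), (inner ℂ x (S m y) : ℂ) = inner ℂ (Tm m x) y := by
    intro m x y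
    rw [hS, ContinuousLinearMap.adjoint_inner_right]
    rfl
  refine ⟨fun m j t => Complex.exp (Complex.I * ((t * (m : ℝ) ^ 2 / 16 : ℝ) : ℂ)) •
    S m (U t (Tm m (F j))), ?_, ?_, ?_, ?_⟩
  · intro m j t χ hχ1 hχ2 _
    have hχ : MemLp χ 2 (volume.restrict (Ioi (0 : ℝ))) :=
      (hχ1.memLp_of_hasCompactSupport hχ2).restrict _
    have e1 : (inner ℂ (hχ.toLp χ) (Complex.exp (Complex.I * ((t * (m : ℝ) ^ 2 / 16 : ℝ) : ℂ)) •
        S m (U t (Tm m (F j)))) : ℂ) = ∫ z in Ioi (0 : ℝ), conj (χ z) *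
        ((Complex.exp (Complex.I * ((t * (m : ℝ) ^ 2 / 16 : ℝ) : ℂ)) •
        S m (U t (Tm m (F j))) : L2z) : ℝ → ℂ) z := by
      rw [MeasureTheory.L2.inner_def]
      apply integral_congr_ae
      filter_upwards [hχ.coeFn_toLp] with z hz
      rw [hz, RCLike.inner_apply']
    rw [← e1, inner_smul_right, hSi, red_A m (Tm m) (hT m) χ hχ, hA, ← hc, map_smul,
      inner_smul_left, inner_smul_right, ← hu, ← red_c, ← hc]
    ring
  · refine ⟨fun j => ‖F j‖, fun m j t => ?_⟩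
    rw [norm_smul, red_nE, one_mul]
    refine (hSn m _).trans ?_
    rw [hU.isom, LinearIsometry.norm_map]
  · intro m j
    have e1 : Complex.exp (Complex.I * (((0 : ℝ) * (m : ℝ) ^ 2 / 16 : ℝ) : ℂ)) •
      S m (U 0 (Tm m (F j))) = F j := by
      rw [hU.zero, hST, zero_mul, zero_div, Complex.ofReal_zero, mul_zero, Complex.exp_zero,
        one_smul]
    rw [e1, hF]
    exact (red_memLp f hf j).coeFn_toLp
  · intro m j t
    have d1 := u_deriv A0 U hU (u m j) (by rw [hu]; exact red_test f hf m j) t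
    have d2 : HasDerivAt (fun t => S m (U t (Tm m (F j))))
        (c • S m (-Complex.I • U t (toL2 (Pop A0 (u m j))))) t := by
      have d3 := ((S m).restrictScalars ℝ).hasFDerivAt.comp_hasDerivAt t d1
      have d4 := d3.const_smul c
      refine d4.congr_of_eventuallyEq (Filter.Eventually.of_forall fun s => ?_)
      change S m (U s (Tm m (F j))) = c • S m (U s (toL2 (u m j)))
      rw [hA, map_smul, map_smul]
    have d5 := (red_dE ((m : ℝ) ^ 2) t).smul d2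
    have hP : toL2 (Pop A0 (u m j)) = toL2 (u m (j + 1)) +
        (((m : ℝ) ^ 2 / 16 : ℝ) : ℂ) • toL2 (u m j) := by
      rw [hu, hu]
      exact red_P f hf m j
    have d6 : (Complex.exp (Complex.I * ((t * (m : ℝ) ^ 2 / 16 : ℝ) : ℂ)) •
        (c • S m (-Complex.I • U t (toL2 (Pop A0 (u m j))))) +
        (Complex.exp (Complex.I * ((t * (m : ℝ) ^ 2 / 16 : ℝ) : ℂ)) *
          (Complex.I * (((m : ℝ) ^ 2 / 16 : ℝ) : ℂ))) • S m (U t (Tm m (F j)))) =
        -Complex.I • (Complex.exp (Complex.I * ((t * (m : ℝ) ^ 2 / 16 : ℝ) : ℂ)) •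
          S m (U t (Tm m (F (j + 1))))) := by
      rw [hP, hA, hA]
      simp only [map_add, map_smul]
      generalize S m (U t (toL2 (u m j))) = A
      generalize S m (U t (toL2 (u m (j + 1)))) = B
      module
    rw [← d6]
    exact d5

end N_red

end Pool.Agent.Helper459.SK
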