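import Mathlib
import Pool.Agent.Helper459.SK.Defs
import Pool.Agent.Helper459.SK.L_u_deriv

set_option autoImplicit false

noncomputable section

open MeasureTheory Set Filter Topology
open scoped ContDiff ComplexConjugate

namespace Pool.Agent.Helper459.SK
open N_u_deriv

namespace N_u_weak

theorem u_weak (A : E 2 → Matrix (Fin 2) (Fin 2) ℝ) (U : ℝ → (L2 2 →L[ℂ] L2 2)) (hU : IsPropagator A U)
    (X u : E 2 → ℂ) (hX : IsTest X) (hu : IsTest u) (t : ℝ) :
    inner ℂ (toL2 X) (U t (toL2 (Pop A u))) = inner ℂ (toL2 (Pop A X)) (U t (toL2 u)) := by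
  have hinner : ∀ (s : ℝ) (a b : L2 2), inner ℂ (U s a) (U s b) = (inner ℂ a b : ℂ) := by
    intro s a b
    let L : L2 2 →ₗᵢ[ℂ] L2 2 := ⟨(U s).toLinearMap, fun f => hU.isom s f⟩
    exact L.inner_map_map a b
  have hfun : ∀ s : ℝ, (inner ℂ (toL2 X) (U (t + s) (toL2 u)) : ℂ) = inner ℂ (U (-s) (toL2 X)) (U t (toL2 u)) := by
    intro s
    have h1 : U s (U (-s) (toL2 X)) = toL2 X := by
      rw [← hU.add, add_neg_cancel, hU.zero]
    have h2 : U (t + s) (toL2 u) = U s (U t (toL2 u)) := by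
      rw [← hU.add, add_comm]
    rw [h2]
    conv_lhs => rw [← h1]
    exact hinner s _ _
  have h2 : HasDerivAt (fun s => U (t + s) (toL2 u)) (-Complex.I • U t (toL2 (Pop A u))) 0 := by
    have h := N_u_deriv.u_deriv A U hU u hu (t + 0)
    have h' := HasDerivAt.comp_const_add t 0 h
    simpa using h'
  have h3 : HasDerivAt (fun s : ℝ => U (-s) (toL2 X)) ((-1 : ℝ) • (-Complex.I • toL2 (Pop A X))) 0 := by
    have h := hU.gen X hX
    have hn : HasDerivAt (fun s : ℝ => -s) (-1) 0 := hasDerivAt_neg 0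
    have h0 : HasDerivAt (fun t => U t (toL2 X)) (-Complex.I • toL2 (Pop A X)) (-(0 : ℝ)) := by
      rw [neg_zero]; exact h
    exact h0.scomp (0 : ℝ) hn
  have h4 := HasDerivAt.inner ℂ (hasDerivAt_const (0 : ℝ) (toL2 X)) h2
  have h5 := HasDerivAt.inner ℂ h3 (hasDerivAt_const (0 : ℝ) (U t (toL2 u)))
  have h6 : (fun s : ℝ => (inner ℂ (toL2 X) (U (t + s) (toL2 u)) : ℂ)) =
      fun s => inner ℂ (U (-s) (toL2 X)) (U t (toL2 u)) := funext hfun
  rw [h6] at h4
  have h7 := h4.unique h5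
  simp only [inner_zero_left, inner_zero_right, add_zero, zero_add] at h7
  rw [inner_smul_right, RCLike.real_smul_eq_coe_smul (K := ℂ), smul_smul, inner_smul_left] at h7
  have h8 : (starRingEnd ℂ) (((-1 : ℝ) : ℂ) * -Complex.I) = -Complex.I := by
    simp
  have h9 : -Complex.I * inner ℂ (toL2 X) (U t (toL2 (Pop A u))) =
      -Complex.I * inner ℂ (toL2 (Pop A X)) (U t (toL2 u)) := by
    rw [h7]
    congr 1
  exact mul_left_cancel₀ (neg_ne_zero.2 Complex.I_ne_zero) h9

end N_u_weak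

end Pool.Agent.Helper459.SK
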