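import Mathlib
import Pool.Agent.Helper459.SK.Defs
import Pool.Agent.Helper459.SK.L_u_weak
import Pool.Agent.Helper459.SK.L_p_md
import Pool.Agent.Helper459.SK.L_md_test
import Pool.Agent.Helper459.SK.L_fj_facts
import Pool.Agent.Helper459.SK.L_w_facts
import Pool.Agent.Helper459.SK.L_w_pos

set_option autoImplicit false

noncomputable section

open MeasureTheory Set Filter Topology
open scoped ContDiff ComplexConjugate

namespace Pool.Agent.Helper459.SK
open N_u_weak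
open N_p_md
open N_md_test
open N_fj_facts
open N_w_facts
open N_w_pos

namespace N_sysr

theorem toL2_lin (u v : E 2 → ℂ) (hu : IsTest u) (hv : IsTest v) (c : ℂ) :
    toL2 (fun x => u x + c * v x) = toL2 u + c • toL2 v := by
  have mu : MemLp u 2 (volume : Measure (E 2)) := hu.smooth.continuous.memLp_of_hasCompactSupport hu.cpt
  have mv : MemLp v 2 (volume : Measure (E 2)) := hv.smooth.continuous.memLp_of_hasCompactSupport hv.cpt
  have mcv : MemLp (c • v) 2 (volume : Measure (E 2)) := mv.const_smul c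
  have ms : MemLp (fun x => u x + c * v x) 2 (volume : Measure (E 2)) := mu.add mcv
  unfold toL2
  rw [dif_pos mu, dif_pos mv, dif_pos ms, ← MemLp.toLp_const_smul c mv, ← MemLp.toLp_add]
  rfl

theorem supp_facts (χ : ℝ → ℝ) (h1 : ContDiff ℝ ∞ χ) (h2 : HasCompactSupport χ)
    (h3 : tsupport χ ⊆ Ioo (3 / 2 : ℝ) (9 / 2)) :
    Continuous (deriv (deriv χ)) ∧ HasCompactSupport (deriv (deriv χ)) ∧
    (∀ z, z ∉ Ioo (3 / 2 : ℝ) (9 / 2) → χ z = 0 ∧ deriv (deriv χ) z = 0) := by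
  have c1 : ContDiff ℝ ∞ (deriv χ) := h1.iterate_deriv 1
  have c2 : ContDiff ℝ ∞ (deriv (deriv χ)) := h1.iterate_deriv 2
  refine ⟨c2.continuous, h2.deriv.deriv, fun z hz => ⟨?_, ?_⟩⟩
  · by_contra h
    exact hz (h3 (subset_tsupport _ h))
  · by_contra h
    have := subset_tsupport _ (Function.mem_support.mpr h)
    have h4 := (tsupport_deriv_subset (f := deriv χ)) this
    have h5 := (tsupport_deriv_subset (f := χ)) h4
    exact hz (h3 h5)

theorem sysr (U : ℝ → (L2 2 →L[ℂ] L2 2)) (hU : IsPropagator A0 U) (f : ℝ → ℝ) (hf : FP f)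
    (g : ℕ → ℕ → ℝ → L2z) (hr : Red U f g) : ∃ Kc : ℕ → ℝ, Sys w0 f g Kc := by
  obtain ⟨Kc, hKc⟩ := hr.bd
  refine ⟨Kc, hKc, hr.init, hr.der, ?_⟩
  intro m j t χ h1 h2 h3
  obtain ⟨hc2, hs2, hz⟩ := supp_facts χ h1 h2 h3
  obtain ⟨hF, hFc, hFs⟩ := fj_facts.2.2 f hf j
  obtain ⟨hF1, hF1c, hF1s⟩ := fj_facts.2.2 f hf (j + 1)
  obtain ⟨-, -, -, -, -, -, -, hv0, -, -, -⟩ := w_pos
  have hW := w_facts
  -- the action of P on the data
  have hPu : Pop A0 (md m (fun z => (fj f j z : ℂ))) =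
      fun x => md m (fun z => (fj f (j + 1) z : ℂ)) x +
        ((m : ℂ) ^ 2 / 16) * md m (fun z => (fj f j z : ℂ)) x := by
    funext x
    rw [p_md m (fj f j) hF hFc (hFs.trans (Ioo_subset_Ioo (by norm_num) (by norm_num)))]
    unfold md
    have key : v0 (‖x‖ ^ 2 / 2) * fj f j (‖x‖ ^ 2 / 2) = 1 / 8 * fj f j (‖x‖ ^ 2 / 2) := by
      by_cases h : fj f j (‖x‖ ^ 2 / 2) = 0
      · rw [h]; ring
      · have := hFs (subset_tsupport _ (Function.mem_support.mpr h))
        have hw : w0 (‖x‖ ^ 2 / 2) = 0 := hW.flat1 _ ⟨this.1.le, this.2.le⟩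
        unfold v0; rw [hw]; ring
    have e2 : fj f (j + 1) (‖x‖ ^ 2 / 2) = -(1 / 2) * deriv (deriv (fj f j)) (‖x‖ ^ 2 / 2) := rfl
    have e3 : (-(1 / 2) * deriv (deriv (fj f j)) (‖x‖ ^ 2 / 2) +
        (1 / 2) * (m : ℝ) ^ 2 * v0 (‖x‖ ^ 2 / 2) * fj f j (‖x‖ ^ 2 / 2)) =
        fj f (j + 1) (‖x‖ ^ 2 / 2) + (m : ℝ) ^ 2 / 16 * fj f j (‖x‖ ^ 2 / 2) := by
      rw [e2]
      have : (1 / 2) * (m : ℝ) ^ 2 * v0 (‖x‖ ^ 2 / 2) * fj f j (‖x‖ ^ 2 / 2) =
        (1 / 2) * (m : ℝ) ^ 2 * (v0 (‖x‖ ^ 2 / 2) * fj f j (‖x‖ ^ 2 / 2)) := by ring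
      rw [this, key]; ring
    simp only []
    rw [e3]
    push_cast
    ring
  have hI0 : Ioo (2 : ℝ) 3 ⊆ Ioi 0 := fun z hz => lt_trans (by norm_num) hz.1
  have hI1 : Ioo (3 / 2 : ℝ) (9 / 2) ⊆ Ioi 0 := fun z hz => lt_trans (by norm_num) hz.1
  have sm : ∀ h : ℝ → ℝ, ContDiff ℝ ∞ h → ContDiff ℝ ∞ (fun z => (h z : ℂ)) := fun h hh =>
    Complex.ofRealCLM.contDiff.comp hh
  have cs : ∀ h : ℝ → ℝ, HasCompactSupport h → HasCompactSupport (fun z => (h z : ℂ)) := fun h hh =>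
    hh.comp_left (g := fun y : ℝ => (y : ℂ)) (by simp)
  have ts : ∀ h : ℝ → ℝ, tsupport (fun z => (h z : ℂ)) ⊆ tsupport h := by
    intro h
    apply closure_mono
    intro z hz hz'
    apply hz
    simp [hz']
  have tF : IsTest (md m (fun z => (fj f j z : ℂ))) :=
    md_test m _ (sm _ hF) (cs _ hFc) ((ts _).trans (hFs.trans hI0))
  have tF1 : IsTest (md m (fun z => (fj f (j + 1) z : ℂ))) :=
    md_test m _ (sm _ hF1) (cs _ hF1c) ((ts _).trans (hF1s.trans hI0))
  have tX : IsTest (md m (fun z => (χ z : ℂ))) :=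
    md_test m _ (sm _ h1) (cs _ h2) ((ts _).trans (h3.trans hI1))
  set ψ : ℝ → ℝ := fun z => -(1 / 2) * deriv (deriv χ) z + (1 / 2) * (m : ℝ) ^ 2 * v0 z * χ z with hψ
  have hPX : Pop A0 (md m (fun z => (χ z : ℂ))) = md m (fun z => (ψ z : ℂ)) := by
    funext x
    exact p_md m χ h1 h2 h3 x
  have huw := u_weak A0 U hU _ _ tX tF t
  rw [hPu, hPX, toL2_lin _ _ tF1 tF, map_add, map_smul, inner_add_right, inner_smul_right] at huw
  -- pairings
  have hvχ : Continuous (fun z => v0 z * χ z) := by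
    rw [continuous_iff_continuousAt]
    intro z
    by_cases hz0 : 0 < z
    · exact (hv0 z hz0).continuousAt.mul h1.continuous.continuousAt
    · have hev : (fun z => v0 z * χ z) =ᶠ[𝓝 z] fun _ => (0 : ℝ) := by
        have : z < 1 := by linarith
        filter_upwards [eventually_lt_nhds this] with y hy
        have := (hz y (fun h => by linarith [h.1])).1
        rw [this, mul_zero]
      exact (continuousAt_const : ContinuousAt (fun _ : ℝ => (0:ℝ)) z).congr hev.symm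
  have hψc : Continuous ψ := by
    have : ψ = fun z => -(1 / 2) * deriv (deriv χ) z + (1 / 2) * (m : ℝ) ^ 2 * (v0 z * χ z) := by
      funext z; simp only [hψ]; ring
    rw [this]
    exact (continuous_const.mul hc2).add (continuous_const.mul hvχ)
  have hψ0 : ∀ z, z ∉ tsupport χ → ψ z = 0 := by
    intro z hz'
    have e1 : χ z = 0 := image_eq_zero_of_notMem_tsupport hz'
    have e2 : deriv (deriv χ) z = 0 := by
      by_contra h
      have := subset_tsupport _ (Function.mem_support.mpr h)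
      have h4 := (tsupport_deriv_subset (f := deriv χ)) this
      exact hz' ((tsupport_deriv_subset (f := χ)) h4)
    simp only [hψ]; rw [e1, e2]; ring
  have hψs : HasCompactSupport ψ := HasCompactSupport.intro h2 hψ0
  have hψt : tsupport ψ ⊆ tsupport χ := by
    apply closure_minimal _ (isClosed_tsupport _)
    intro z hz'
    by_contra h
    exact hz' (hψ0 z h)
  have p1 := hr.pair m (j + 1) t (fun z => (χ z : ℂ)) (Complex.continuous_ofReal.comp h1.continuous)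
    (cs _ h2) ((ts _).trans (h3.trans hI1))
  have p2 := hr.pair m j t (fun z => (χ z : ℂ)) (Complex.continuous_ofReal.comp h1.continuous)
    (cs _ h2) ((ts _).trans (h3.trans hI1))
  have p3 := hr.pair m j t (fun z => (ψ z : ℂ)) (Complex.continuous_ofReal.comp hψc)
    (cs _ hψs) ((ts _).trans (hψt.trans (h3.trans hI1)))
  set c : ℂ := ((1 / (2 * Real.pi) : ℝ) : ℂ) * Complex.exp (Complex.I * ((t * (m : ℝ) ^ 2 / 16 : ℝ) : ℂ)) with hc
  have key : (∫ z in Ioi (0 : ℝ), conj (χ z : ℂ) * (g m (j + 1) t : ℝ → ℂ) z) +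
      ((m : ℂ) ^ 2 / 16) * (∫ z in Ioi (0 : ℝ), conj (χ z : ℂ) * (g m j t : ℝ → ℂ) z) =
      ∫ z in Ioi (0 : ℝ), conj (ψ z : ℂ) * (g m j t : ℝ → ℂ) z := by
    rw [p1, p2, p3, ← huw]; ring
  simp only [Complex.conj_ofReal] at key
  -- integrability
  have hG : MemLp (g m j t : ℝ → ℂ) 2 (volume.restrict (Ioi (0:ℝ))) := Lp.memLp _
  have hG1 : MemLp (g m (j + 1) t : ℝ → ℂ) 2 (volume.restrict (Ioi (0:ℝ))) := Lp.memLp _
  have integ : ∀ h : ℝ → ℝ, Continuous h → HasCompactSupport h → ∀ G : ℝ → ℂ,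
      MemLp G 2 (volume.restrict (Ioi (0:ℝ))) →
      IntegrableOn (fun z => (h z : ℂ) * G z) (Ioi 0) := by
    intro h hh hhs G hG
    have : MemLp (fun z => (h z : ℂ)) 2 (volume.restrict (Ioi (0:ℝ))) :=
      (Complex.continuous_ofReal.comp hh).memLp_of_hasCompactSupport (cs _ hhs)
    exact this.integrable_mul hG
  have conv : ∀ F : ℝ → ℂ, (∀ z, z ∉ Ioo (3 / 2 : ℝ) (9 / 2) → F z = 0) →
      ∫ z in Ioo (3 / 2 : ℝ) (9 / 2), F z = ∫ z in Ioi (0 : ℝ), F z := by
    intro F hF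
    symm
    apply setIntegral_eq_of_subset_of_forall_sdiff_eq_zero measurableSet_Ioi hI1
    intro x hx
    exact hF x hx.2
  rw [conv _ (fun z hz' => by rw [(hz z hz').2]; simp), conv _ (fun z hz' => by rw [(hz z hz').1]; simp)]
  have i1 := integ _ h1.continuous h2 _ hG1
  have i2 := integ _ h1.continuous h2 _ hG
  have i3 := integ _ hψc hψs _ hG
  have i4 := integ _ hc2 hs2 _ hG
  have e1 : ∫ z in Ioi (0 : ℝ), (g m j t : ℝ → ℂ) z * ((deriv (deriv χ) z : ℝ) : ℂ) =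
      ∫ z in Ioi (0 : ℝ), ((m : ℂ) ^ 2 * ((v0 z * χ z : ℝ) : ℂ) * (g m j t : ℝ → ℂ) z
        - 2 * ((ψ z : ℂ) * (g m j t : ℝ → ℂ) z)) := by
    apply integral_congr_ae
    filter_upwards with z
    simp only [hψ]
    push_cast
    ring
  have hvs : HasCompactSupport (fun z => v0 z * χ z) := HasCompactSupport.mul_left h2
  have i5 := integ _ hvχ hvs _ hG
  have i5' : IntegrableOn (fun z => (m : ℂ) ^ 2 * ((v0 z * χ z : ℝ) : ℂ) * (g m j t : ℝ → ℂ) z) (Ioi 0) := by
    have := i5.const_mul ((m : ℂ) ^ 2)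
    refine this.congr ?_
    filter_upwards with z
    ring
  have i6 : IntegrableOn (fun z => 2 * ((χ z : ℂ) * (g m (j + 1) t : ℝ → ℂ) z) +
      2 * (((m : ℂ) ^ 2 / 16) * ((χ z : ℂ) * (g m j t : ℝ → ℂ) z))) (Ioi 0) :=
    (i1.const_mul 2).add ((i2.const_mul _).const_mul 2)
  rw [e1, integral_sub i5' (i3.const_mul 2), integral_const_mul, ← key, mul_add, ← integral_const_mul,
    ← integral_const_mul, ← integral_const_mul, ← integral_add (i1.const_mul 2) ((i2.const_mul _).const_mul 2),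
    ← integral_sub i5' i6]
  apply integral_congr_ae
  filter_upwards with z
  have : v0 z = 1 / 8 - w0 z := rfl
  rw [this]
  push_cast
  ring

end N_sysr

end Pool.Agent.Helper459.SK
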