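import Mathlib
import Pool.Agent.Helper459.SK.Defs
import Pool.Agent.Helper459.SK.L_main1D
import Pool.Agent.Helper459.SK.L_w_facts
import Pool.Agent.Helper459.SK.L_red
import Pool.Agent.Helper459.SK.L_sysr
import Pool.Agent.Helper459.SK.L_oscr
import Pool.Agent.Helper459.SK.L_fj_facts

set_option autoImplicit false

noncomputable section

open MeasureTheory Set Filter Topology
open scoped ContDiff ComplexConjugate

namespace Pool.Agent.Helper459.SK
open N_main1D
open N_w_facts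
open N_red
open N_sysr
open N_oscr
open N_fj_facts

namespace N_main2

theorem main2 (U : ℝ → (L2 2 →L[ℂ] L2 2)) (hU : IsPropagator A0 U) :
    ∃ t : ℝ, 0 < t ∧ ∃ p ∈ VV, ∃ q ∈ WW, ¬ RegPt (U t) p.1 p.2 q.1 q.2 := by
  by_contra hcon
  push Not at hcon
  obtain ⟨f, hf⟩ := fj_facts.1
  obtain ⟨χ, hχ⟩ := fj_facts.2.1
  obtain ⟨g, hr⟩ := red U hU f hf
  obtain ⟨Kc, hs⟩ := sysr U hU f hf g hr
  exact main1D w0 f w_facts hf χ hχ g Kc hs (oscr U f hf g hr hcon χ hχ)

end N_main2

end Pool.Agent.Helper459.SK
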