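import Mathlib
import Pool.Agent.Helper459.SK.NDefs

set_option autoImplicit false

noncomputable section

open MeasureTheory Set Filter Topology
open scoped ContDiff ComplexConjugate

namespace Pool.Agent.Helper459.SK

namespace N_poun



theorem poun {n : ℕ} (K : Set (E n)) (hK : IsCompact K) (r : ℝ) (hr : 0 < r) :
    ∃ (k : ℕ) (c : Fin k → E n) (ρ : Fin k → E n → ℝ), (∀ i, c i ∈ K) ∧ (∀ i, ContDiff ℝ ∞ (ρ i)) ∧
      (∀ i, HasCompactSupport (ρ i)) ∧ (∀ i, tsupport (ρ i) ⊆ Metric.ball (c i) r) ∧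
      ∀ x ∈ K, ∑ i, ρ i x = 1 := by
  classical
  obtain ⟨t, htK, htf, hcov⟩ := hK.finite_cover_balls (e := r / 4) (by positivity)
  obtain ⟨k, ⟨e⟩⟩ : ∃ k : ℕ, Nonempty (htf.toFinset ≃ Fin k) := ⟨_, ⟨htf.toFinset.equivFin⟩⟩
  let c : Fin k → E n := fun i => (e.symm i : E n)
  have hc : ∀ i, c i ∈ t := fun i => by
    have := (e.symm i).2
    exact htf.mem_toFinset.1 this
  let b : ∀ i, ContDiffBump (c i) := fun i =>
    { rIn := r / 4, rOut := r / 2, rIn_pos := by positivity, rIn_lt_rOut := by linarith }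
  let ρ : Fin k → E n → ℝ := fun i x => b i x * ∏ j ∈ Finset.univ.filter (· < i), (1 - b j x)
  refine ⟨k, c, ρ, fun i => htK (hc i), fun i => ?_, fun i => ?_, fun i => ?_, fun x hx => ?_⟩
  · refine (b i).contDiff.mul ?_
    exact contDiff_prod (fun j _ => contDiff_const.sub (b j).contDiff)
  · exact (b i).hasCompactSupport.mul_right
  · refine (tsupport_mul_subset_left).trans ?_
    rw [(b i).tsupport_eq]
    refine Metric.closedBall_subset_ball ?_
    show r / 2 < r
    linarith
  · have h1 := Finset.prod_one_sub_ordered (Finset.univ : Finset (Fin k)) (fun i => b i x)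
    have h2 : ∏ i ∈ (Finset.univ : Finset (Fin k)), (1 - b i x) = 0 := by
      obtain ⟨y, hy⟩ := Set.mem_iUnion.1 (hcov hx)
      obtain ⟨hyt, hxy⟩ := Set.mem_iUnion.1 hy
      refine Finset.prod_eq_zero (Finset.mem_univ (e ⟨y, htf.mem_toFinset.2 hyt⟩)) ?_
      have : c (e ⟨y, htf.mem_toFinset.2 hyt⟩) = y := by
        simp [c]
      rw [(b _).one_of_mem_closedBall]
      · ring
      · show x ∈ Metric.closedBall (c (e ⟨y, htf.mem_toFinset.2 hyt⟩)) (r / 4)
        rw [this]
        exact Metric.ball_subset_closedBall hxy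
    show ∑ i, b i x * ∏ j ∈ Finset.univ.filter (· < i), (1 - b j x) = 1
    linarith

end N_poun

end Pool.Agent.Helper459.SK
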