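import Mathlib
import Pool.Agent.Helper459.SK.NDefs
import Pool.Agent.Helper459.SK.L_lpn
import Pool.Agent.Helper459.SK.L_poun
import Pool.Agent.Helper459.SK.L_dcn
import Pool.Agent.Helper459.SK.L_test_l2

set_option autoImplicit false

noncomputable section

open MeasureTheory Set Filter Topology
open scoped ContDiff ComplexConjugate

namespace Pool.Agent.Helper459.SK
open N_lpn
open N_poun
open N_dcn
open N_test_l2

namespace N_mln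


theorem w778_add {n : ℕ} (u v : E n → ℂ) (hu : MemLp u 2 (volume : Measure (E n)))
    (hv : MemLp v 2 (volume : Measure (E n))) : toL2 (u + v) = toL2 u + toL2 v := by
  unfold toL2
  rw [dif_pos (hu.add hv), dif_pos hu, dif_pos hv]
  rfl

theorem w778_zero {n : ℕ} : toL2 (fun _ : E n => (0 : ℂ)) = 0 := by
  unfold toL2
  have h0 : MemLp (fun _ : E n => (0 : ℂ)) 2 (volume : Measure (E n)) := MemLp.zero'
  rw [dif_pos h0]
  rfl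

theorem w778_sum {n : ℕ} {ι : Type*} (s : Finset ι) (u : ι → E n → ℂ)
    (hu : ∀ i, MemLp (u i) 2 (volume : Measure (E n))) :
    toL2 (fun x => ∑ i ∈ s, u i x) = ∑ i ∈ s, toL2 (u i) := by
  classical
  induction s using Finset.induction_on with
  | empty =>
    simp only [Finset.sum_empty]
    exact w778_zero
  | insert i s hi ih =>
    rw [Finset.sum_insert hi, ← ih]
    have e : (fun x => ∑ j ∈ insert i s, u j x) = u i + fun x => ∑ j ∈ s, u j x := by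
      funext x
      rw [Finset.sum_insert hi]
      rfl
    rw [e]
    exact w778_add _ _ (hu i) (memLp_finsetSum s fun j _ => hu j)

theorem w778_coe {n : ℕ} (u : E n → ℂ) (hu : MemLp u 2 (volume : Measure (E n))) :
    (toL2 u : E n → ℂ) =ᵐ[volume] u := by
  unfold toL2
  rw [dif_pos hu]
  exact hu.coeFn_toLp

theorem w778_memLp {n : ℕ} (a ζ : E n → ℂ) (ha : IsTest a) (hc : ContinuousOn ζ (tsupport a))
    (h1 : ∀ x ∈ tsupport a, ‖ζ x‖ ≤ 1) (m : ℕ) :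
    MemLp (fun x => a x * ζ x ^ m) 2 (volume : Measure (E n)) := by
  have hcl : MeasurableSet (tsupport a) := (isClosed_tsupport a).measurableSet
  have hz : AEStronglyMeasurable ((tsupport a).indicator fun x => ζ x ^ m)
      (volume : Measure (E n)) := by
    rw [aestronglyMeasurable_indicator_iff hcl]
    exact (hc.pow m).aestronglyMeasurable hcl
  have e : (fun x => a x * ζ x ^ m) = fun x => a x * (tsupport a).indicator (fun x => ζ x ^ m) x := by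
    funext x
    by_cases hx : x ∈ tsupport a
    · rw [Set.indicator_of_mem hx]
    · rw [image_eq_zero_of_notMem_tsupport hx, zero_mul, zero_mul]
  have hmeas : AEStronglyMeasurable (fun x => a x * ζ x ^ m) (volume : Measure (E n)) := by
    rw [e]
    exact ha.smooth.continuous.aestronglyMeasurable.mul hz
  refine (test_l2 a ha).1.of_le hmeas (Filter.Eventually.of_forall fun x => ?_)
  by_cases hx : x ∈ tsupport a
  · rw [norm_mul, norm_pow]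
    have h2 : ‖ζ x‖ ^ m ≤ 1 := pow_le_one₀ (norm_nonneg _) (h1 x hx)
    calc ‖a x‖ * ‖ζ x‖ ^ m ≤ ‖a x‖ * 1 := mul_le_mul_of_nonneg_left h2 (norm_nonneg _)
      _ = ‖a x‖ := mul_one _
  · rw [image_eq_zero_of_notMem_tsupport hx, zero_mul]

theorem w778_norm {n : ℕ} (a ζ : E n → ℂ) (ha : IsTest a) (hc : ContinuousOn ζ (tsupport a))
    (h1 : ∀ x ∈ tsupport a, ‖ζ x‖ ≤ 1) (ρ : ℝ) (hρ : ∀ x ∈ tsupport a, ‖ζ x‖ ≤ ρ)
    (m : ℕ) : ‖toL2 (fun x => a x * ζ x ^ m)‖ ≤ ρ ^ m * ‖toL2 a‖ := by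
  apply Lp.norm_le_mul_norm_of_ae_le_mul
  filter_upwards [w778_coe _ (w778_memLp a ζ ha hc h1 m), w778_coe a (test_l2 a ha).1] with x e1 e2
  rw [e1, e2]
  by_cases hx : x ∈ tsupport a
  · rw [norm_mul, norm_pow, mul_comm]
    exact mul_le_mul_of_nonneg_right (pow_le_pow_left₀ (norm_nonneg _) (hρ x hx) m) (norm_nonneg _)
  · rw [image_eq_zero_of_notMem_tsupport hx]
    simp

theorem w778_decay (ρ : ℝ) (h0 : 0 ≤ ρ) (h1 : ρ < 1) (N : ℕ) :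
    ∃ C : ℝ, 0 ≤ C ∧ ∀ m : ℕ, 1 ≤ m → ρ ^ m ≤ C / (m : ℝ) ^ N := by
  obtain ⟨C, hC⟩ := (tendsto_pow_const_mul_const_pow_of_lt_one N h0 h1).bddAbove_range
  have hC' : ∀ m : ℕ, (m : ℝ) ^ N * ρ ^ m ≤ C := fun m => hC ⟨m, rfl⟩
  refine ⟨|C|, abs_nonneg _, fun m hm => ?_⟩
  have hm' : (0 : ℝ) < (m : ℝ) ^ N := by
    have : (0 : ℝ) < m := by exact_mod_cast hm
    positivity
  rw [le_div_iff₀ hm', mul_comm]
  exact (hC' m).trans (le_abs_self C)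

theorem w778_inner {n : ℕ} (S : L2 n →L[ℂ] L2 n) (u v : L2 n) (A B r : ℝ) (hr : 0 ≤ r)
    (hA : 0 ≤ A) (h : ‖u‖ * ‖v‖ ≤ r * (A * B)) :
    ‖inner ℂ u (S v)‖ ≤ ‖S‖ * (A * B) * r := by
  have h1 : ‖inner ℂ u (S v)‖ ≤ ‖u‖ * ‖S v‖ := norm_inner_le_norm _ _
  have h2 : ‖S v‖ ≤ ‖S‖ * ‖v‖ := S.le_opNorm v
  calc ‖inner ℂ u (S v)‖ ≤ ‖u‖ * (‖S‖ * ‖v‖) :=
        h1.trans (mul_le_mul_of_nonneg_left h2 (norm_nonneg _))
    _ = ‖S‖ * (‖u‖ * ‖v‖) := by ring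
    _ ≤ ‖S‖ * (r * (A * B)) := mul_le_mul_of_nonneg_left h (norm_nonneg _)
    _ = ‖S‖ * (A * B) * r := by ring

theorem w778_fun {n : ℕ} (a ζ : E n → ℂ) (φ : E n → ℂ)
    (hz : ∀ x ∈ tsupport a, ζ x = Complex.exp (Complex.I * φ x)) (m : ℕ) :
    (fun x => a x * Complex.exp (Complex.I * ((m : ℂ) * φ x))) = fun x => a x * ζ x ^ m := by
  funext x
  by_cases hx : x ∈ tsupport a
  · rw [hz x hx, ← Complex.exp_nat_mul]
    congr 2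
    ring
  · rw [image_eq_zero_of_notMem_tsupport hx]
    simp

/-- local data -/
def mln_D {n : ℕ} (S : L2 n →L[ℂ] L2 n) (a b ζ κ : E n → ℂ) (x y : E n) (s : ℝ) : Prop :=
  (∃ ρ : ℝ, 0 ≤ ρ ∧ ρ < 1 ∧ ∀ x' ∈ Metric.ball x s, x' ∈ tsupport a → ‖ζ x'‖ ≤ ρ) ∨
  (∃ ρ : ℝ, 0 ≤ ρ ∧ ρ < 1 ∧ ∀ y' ∈ Metric.ball y s, y' ∈ tsupport b → ‖κ y'‖ ≤ ρ) ∨
  ∃ φ ψ : E n → ℂ, ContDiff ℝ ∞ φ ∧ ContDiff ℝ ∞ ψ ∧ ∃ φ₁ φ₂ : E n → ℂ, IsTest φ₁ ∧ IsTest φ₂ ∧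
    ∃ Γ : Set (E n × E n), IsOpen Γ ∧ (∀ p ∈ Γ, ∀ r : ℝ, 0 < r → r • p ∈ Γ) ∧
      (∀ N : ℕ, ∃ C : ℝ, ∀ p ∈ Γ,
        ‖inner ℂ (toL2 (wpk φ₁ p.1)) (S (toL2 (wpk φ₂ p.2)))‖ * (1 + ‖p.1‖ + ‖p.2‖) ^ N ≤ C) ∧
      ∀ x' ∈ Metric.ball x s, ∀ y' ∈ Metric.ball y s,
        (ζ x' = Complex.exp (Complex.I * φ x') ∧ 0 ≤ (φ x').im) ∧
        (κ y' = Complex.exp (Complex.I * ψ y') ∧ 0 ≤ (ψ y').im) ∧
        φ₁ x' ≠ 0 ∧ φ₂ y' ≠ 0 ∧ gradient (fun x => (φ x).re) x' ≠ 0 ∧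
        (gradient (fun x => (φ x).re) x', gradient (fun x => (ψ x).re) y') ∈ Γ

theorem w778_grad {n : ℕ} (φ : E n → ℂ) (hφ : ContDiff ℝ ∞ φ) :
    Continuous (gradient (fun x => (φ x).re)) := by
  have h0 : ContDiff ℝ ∞ (fun x => (φ x).re) := Complex.reCLM.contDiff.comp hφ
  have h1 : Continuous (fderiv ℝ (fun x => (φ x).re)) := h0.continuous_fderiv (by simp)
  exact (InnerProductSpace.toDual ℝ (E n)).symm.continuous.comp h1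

theorem w778_small {n : ℕ} (K : Set (E n)) (ζ : E n → ℂ) (hc : ContinuousOn ζ K) (x : E n)
    (hx : x ∈ K) (h : ‖ζ x‖ < 1) :
    ∃ s : ℝ, 0 < s ∧ ∃ ρ : ℝ, 0 ≤ ρ ∧ ρ < 1 ∧ ∀ x' ∈ Metric.ball x s, x' ∈ K → ‖ζ x'‖ ≤ ρ := by
  have hn := norm_nonneg (ζ x)
  obtain ⟨s, hs, hh⟩ := Metric.continuousOn_iff.1 hc x hx ((1 - ‖ζ x‖) / 2) (by linarith)
  refine ⟨s, hs, (1 + ‖ζ x‖) / 2, by linarith, by linarith, fun x' hx' hK => ?_⟩
  have h1 := hh x' hK hx'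
  rw [dist_eq_norm] at h1
  have h2 := norm_sub_norm_le (ζ x') (ζ x)
  linarith

theorem w778_D {n : ℕ} (S : L2 n →L[ℂ] L2 n) (a b ζ κ : E n → ℂ) (x y : E n)
    (hx : x ∈ tsupport a) (hy : y ∈ tsupport b)
    (hζc : ContinuousOn ζ (tsupport a)) (hκc : ContinuousOn κ (tsupport b))
    (h : ‖ζ x‖ < 1 ∨ ‖κ y‖ < 1 ∨
      ∃ φ ψ : E n → ℂ, ContDiff ℝ ∞ φ ∧ ContDiff ℝ ∞ ψ ∧
      (∃ r : ℝ, 0 < r ∧ (∀ x' ∈ Metric.ball x r, ζ x' = Complex.exp (Complex.I * φ x') ∧ 0 ≤ (φ x').im) ∧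
        (∀ y' ∈ Metric.ball y r, κ y' = Complex.exp (Complex.I * ψ y') ∧ 0 ≤ (ψ y').im)) ∧
      gradient (fun x => (φ x).re) x ≠ 0 ∧
      RegPt S x (gradient (fun x => (φ x).re) x) y (gradient (fun x => (ψ x).re) y)) :
    ∃ s : ℝ, 0 < s ∧ mln_D S a b ζ κ x y s := by
  rcases h with h | h | h
  · obtain ⟨s, hs, hh⟩ := w778_small _ ζ hζc x hx h
    exact ⟨s, hs, Or.inl hh⟩
  · obtain ⟨s, hs, hh⟩ := w778_small _ κ hκc y hy h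
    exact ⟨s, hs, Or.inr (Or.inl hh)⟩
  obtain ⟨φ, ψ, hφ, hψ, ⟨r, hr, hz, hk⟩, hg, φ₁, φ₂, h1, h2, n1, n2, Γ, hΓ, hc, hin, hdec⟩ := h
  have cφ := w778_grad φ hφ
  have cψ := w778_grad ψ hψ
  have o1 : IsOpen {p : E n × E n | φ₁ p.1 ≠ 0} :=
    isOpen_ne_fun (h1.smooth.continuous.comp continuous_fst) continuous_const
  have o2 : IsOpen {p : E n × E n | φ₂ p.2 ≠ 0} :=
    isOpen_ne_fun (h2.smooth.continuous.comp continuous_snd) continuous_const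
  have o3 : IsOpen {p : E n × E n | gradient (fun x => (φ x).re) p.1 ≠ 0} :=
    isOpen_ne_fun (cφ.comp continuous_fst) continuous_const
  have o4 : IsOpen {p : E n × E n |
      (gradient (fun x => (φ x).re) p.1, gradient (fun x => (ψ x).re) p.2) ∈ Γ} :=
    hΓ.preimage ((cφ.comp continuous_fst).prodMk (cψ.comp continuous_snd))
  have o5 : IsOpen (Metric.ball x r ×ˢ Metric.ball y r) := Metric.isOpen_ball.prod Metric.isOpen_ball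
  have oo := o1.inter (o2.inter (o3.inter (o4.inter o5)))
  obtain ⟨s, hs, hsub⟩ := Metric.isOpen_iff.1 oo (x, y)
    ⟨n1, n2, hg, hin, Metric.mem_ball_self hr, Metric.mem_ball_self hr⟩
  refine ⟨s, hs, Or.inr (Or.inr ⟨φ, ψ, hφ, hψ, φ₁, φ₂, h1, h2, Γ, hΓ, hc, hdec, ?_⟩)⟩
  intro x' hx' y' hy'
  have hm : (x', y') ∈ Metric.ball (x, y) s := by
    rw [Metric.mem_ball, Prod.dist_eq]
    exact max_lt hx' hy'
  obtain ⟨m1, m2, m3, m4, m5, m6⟩ := hsub hm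
  exact ⟨hz x' m5, hk y' m6, m1, m2, m3, m4⟩

theorem w778_Dmono {n : ℕ} (S : L2 n →L[ℂ] L2 n) (a b ζ κ : E n → ℂ) (x y x0 y0 : E n) (s δ : ℝ)
    (hδ : 0 < δ)
    (hsub : Metric.ball (x0, y0) δ ⊆ Metric.ball (x, y) s) (h : mln_D S a b ζ κ x y s) :
    mln_D S a b ζ κ x0 y0 δ := by
  have key : ∀ x' ∈ Metric.ball x0 δ, ∀ y' ∈ Metric.ball y0 δ,
      x' ∈ Metric.ball x s ∧ y' ∈ Metric.ball y s := by
    intro x' hx' y' hy'
    have hm : (x', y') ∈ Metric.ball (x0, y0) δ := by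
      rw [Metric.mem_ball, Prod.dist_eq]
      exact max_lt hx' hy'
    have hm' := hsub hm
    rw [Metric.mem_ball, Prod.dist_eq] at hm'
    exact ⟨lt_of_le_of_lt (le_max_left _ _) hm', lt_of_le_of_lt (le_max_right _ _) hm'⟩
  have hx0 := Metric.mem_ball_self (x := x0) hδ
  have hy0 := Metric.mem_ball_self (x := y0) hδ
  rcases h with ⟨ρ, h0, h1, hh⟩ | ⟨ρ, h0, h1, hh⟩ | h
  · exact Or.inl ⟨ρ, h0, h1, fun x' hx' hK => hh x' (key x' hx' y0 hy0).1 hK⟩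
  · exact Or.inr (Or.inl ⟨ρ, h0, h1, fun y' hy' hK => hh y' (key x0 hx0 y' hy').2 hK⟩)
  obtain ⟨φ, ψ, hφ, hψ, φ₁, φ₂, h1, h2, Γ, hΓ, hc, hdec, hh⟩ := h
  refine Or.inr (Or.inr ⟨φ, ψ, hφ, hψ, φ₁, φ₂, h1, h2, Γ, hΓ, hc, hdec, ?_⟩)
  intro x' hx' y' hy'
  exact hh x' (key x' hx' y' hy').1 y' (key x' hx' y' hy').2

theorem w778_piece {n : ℕ} (S : L2 n →L[ℂ] L2 n) (a0 b0 a b ζ κ : E n → ℂ) (ha : IsTest a)
    (hb : IsTest b) (hsa0 : tsupport a ⊆ tsupport a0) (hsb0 : tsupport b ⊆ tsupport b0)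
    (hζc : ContinuousOn ζ (tsupport a)) (hκc : ContinuousOn κ (tsupport b))
    (hζ1 : ∀ x ∈ tsupport a, ‖ζ x‖ ≤ 1) (hκ1 : ∀ x ∈ tsupport b, ‖κ x‖ ≤ 1)
    (x y : E n) (s : ℝ) (hs : 0 < s) (h : mln_D S a0 b0 ζ κ x y s) (hax : tsupport a ⊆ Metric.ball x s)
    (hby : tsupport b ⊆ Metric.ball y s) (N : ℕ) :
    ∃ C : ℝ, ∀ m : ℕ, 1 ≤ m →
      ‖inner ℂ (toL2 (fun x => a x * ζ x ^ m)) (S (toL2 (fun x => b x * κ x ^ m)))‖ ≤
        C / (m : ℝ) ^ N := by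
  have hS0 : 0 ≤ ‖S‖ := norm_nonneg _
  have hA0 : 0 ≤ ‖toL2 a‖ := norm_nonneg _
  have hB0 : 0 ≤ ‖toL2 b‖ := norm_nonneg _
  rcases h with ⟨ρ, h0, h1, hh⟩ | ⟨ρ, h0, h1, hh⟩ | h
  · obtain ⟨C, hC0, hC⟩ := w778_decay ρ h0 h1 N
    refine ⟨‖S‖ * (‖toL2 a‖ * ‖toL2 b‖) * C, fun m hm => ?_⟩
    have n1 := w778_norm a ζ ha hζc hζ1 ρ (fun x' hx' => hh x' (hax hx') (hsa0 hx')) m
    have n2 := w778_norm b κ hb hκc hκ1 1 hκ1 m
    rw [one_pow, one_mul] at n2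
    have n3 := w778_inner S _ _ ‖toL2 a‖ ‖toL2 b‖ (ρ ^ m) (by positivity) hA0
      ((mul_le_mul n1 n2 (norm_nonneg _) (by positivity)).trans (by rw [mul_assoc]))
    refine n3.trans ?_
    rw [mul_div_assoc]
    exact mul_le_mul_of_nonneg_left (hC m hm) (by positivity)
  · obtain ⟨C, hC0, hC⟩ := w778_decay ρ h0 h1 N
    refine ⟨‖S‖ * (‖toL2 a‖ * ‖toL2 b‖) * C, fun m hm => ?_⟩
    have n1 := w778_norm a ζ ha hζc hζ1 1 hζ1 m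
    rw [one_pow, one_mul] at n1
    have n2 := w778_norm b κ hb hκc hκ1 ρ (fun y' hy' => hh y' (hby hy') (hsb0 hy')) m
    have n3 := w778_inner S _ _ ‖toL2 a‖ ‖toL2 b‖ (ρ ^ m) (by positivity) hA0
      ((mul_le_mul n1 n2 (norm_nonneg _) (by positivity)).trans (le_of_eq (by ring)))
    refine n3.trans ?_
    rw [mul_div_assoc]
    exact mul_le_mul_of_nonneg_left (hC m hm) (by positivity)
  obtain ⟨φ, ψ, hφ, hψ, φ₁, φ₂, h1, h2, Γ, hΓ, hc, hdec, hh⟩ := h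
  have hxx := Metric.mem_ball_self (x := x) hs
  have hyy := Metric.mem_ball_self (x := y) hs
  have hz : ∀ x' ∈ tsupport a, ζ x' = Complex.exp (Complex.I * φ x') :=
    fun x' hx' => (hh x' (hax hx') y hyy).1.1
  have hk : ∀ y' ∈ tsupport b, κ y' = Complex.exp (Complex.I * ψ y') :=
    fun y' hy' => (hh x hxx y' (hby hy')).2.1.1
  obtain ⟨a', ha', hsa, hea⟩ := dcn a φ₁ ha h1 (fun x' hx' => (hh x' (hax hx') y hyy).2.2.1)
  obtain ⟨b', hb', hsb, heb⟩ := dcn b φ₂ hb h2 (fun y' hy' => (hh x hxx y' (hby hy')).2.2.2.1)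
  obtain ⟨C, hC⟩ := lpn S φ₁ φ₂ a' b' h1 h2 ha' hb' φ ψ hφ hψ
    (fun x' hx' => (hh x' (hax (hsa hx')) y hyy).1.2)
    (fun y' hy' => (hh x hxx y' (hby (hsb hy'))).2.1.2) Γ hΓ hc hdec
    (fun x' hx' y' hy' => (hh x' (hax (hsa hx')) y' (hby (hsb hy'))).2.2.2.2.2)
    (fun x' hx' => (hh x' (hax (hsa hx')) y hyy).2.2.2.2.1) N
  refine ⟨C, ?_⟩
  intro m hm
  have h3 := hC m hm
  have e1 : (fun x => φ₁ x * (a' x * Complex.exp (Complex.I * ((m : ℂ) * φ x)))) =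
      fun x => a x * ζ x ^ m := by
    rw [← w778_fun a ζ φ hz m]
    funext x'
    rw [← mul_assoc, hea x']
  have e2 : (fun x => φ₂ x * (b' x * Complex.exp (Complex.I * ((m : ℂ) * ψ x)))) =
      fun x => b x * κ x ^ m := by
    rw [← w778_fun b κ ψ hk m]
    funext x'
    rw [← mul_assoc, heb x']
  rw [e1, e2] at h3
  exact h3

theorem w778_cut {n : ℕ} (a : E n → ℂ) (ha : IsTest a) (ρ : E n → ℝ) (hρ : ContDiff ℝ ∞ ρ) :
    IsTest (fun x => ((ρ x : ℝ) : ℂ) * a x) ∧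
    tsupport (fun x => ((ρ x : ℝ) : ℂ) * a x) ⊆ tsupport ρ ∧
    tsupport (fun x => ((ρ x : ℝ) : ℂ) * a x) ⊆ tsupport a := by
  refine ⟨⟨?_, ha.cpt.mul_left⟩, ?_, ?_⟩
  · exact (Complex.ofRealCLM.contDiff.comp hρ).mul ha.smooth
  · refine (tsupport_mul_subset_left (f := fun x => ((ρ x : ℝ) : ℂ)) (g := a)).trans ?_
    exact tsupport_comp_subset Complex.ofReal_zero ρ
  · exact tsupport_mul_subset_right (f := fun x => ((ρ x : ℝ) : ℂ)) (g := a)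

theorem w778_split {n : ℕ} (a ζ : E n → ℂ) {k : ℕ} (ρ : Fin k → E n → ℝ)
    (hρ : ∀ x ∈ tsupport a, ∑ i, ρ i x = 1) (m : ℕ) :
    (fun x => a x * ζ x ^ m) = fun x => ∑ i, (((ρ i x : ℝ) : ℂ) * a x) * ζ x ^ m := by
  funext x
  by_cases hx : x ∈ tsupport a
  · rw [← Finset.sum_mul, ← Finset.sum_mul, ← Complex.ofReal_sum, hρ x hx, Complex.ofReal_one,
      one_mul]
  · rw [image_eq_zero_of_notMem_tsupport hx]
    simp

theorem mln {n : ℕ} (S : L2 n →L[ℂ] L2 n) (a b ζ κ : E n → ℂ) (ha : IsTest a) (hb : IsTest b)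
    (hζc : ContinuousOn ζ (tsupport a)) (hκc : ContinuousOn κ (tsupport b))
    (hζ1 : ∀ x ∈ tsupport a, ‖ζ x‖ ≤ 1) (hκ1 : ∀ x ∈ tsupport b, ‖κ x‖ ≤ 1)
    (h : ∀ x ∈ tsupport a, ∀ y ∈ tsupport b, ‖ζ x‖ < 1 ∨ ‖κ y‖ < 1 ∨
      ∃ φ ψ : E n → ℂ, ContDiff ℝ ∞ φ ∧ ContDiff ℝ ∞ ψ ∧
      (∃ r : ℝ, 0 < r ∧ (∀ x' ∈ Metric.ball x r, ζ x' = Complex.exp (Complex.I * φ x') ∧ 0 ≤ (φ x').im) ∧
        (∀ y' ∈ Metric.ball y r, κ y' = Complex.exp (Complex.I * ψ y') ∧ 0 ≤ (ψ y').im)) ∧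
      gradient (fun x => (φ x).re) x ≠ 0 ∧
      RegPt S x (gradient (fun x => (φ x).re) x) y (gradient (fun x => (ψ x).re) y)) (N : ℕ) :
    ∃ C : ℝ, ∀ m : ℕ, 1 ≤ m →
      ‖inner ℂ (toL2 (fun x => a x * ζ x ^ m)) (S (toL2 (fun x => b x * κ x ^ m)))‖ ≤ C / (m : ℝ) ^ N := by
  have hcomp : IsCompact (tsupport a ×ˢ tsupport b) := IsCompact.prod ha.cpt hb.cpt
  obtain ⟨δ, hδ, hleb⟩ := lebesgue_number_lemma_of_metric (s := tsupport a ×ˢ tsupport b)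
    (ι := {q : (E n × E n) × ℝ // mln_D S a b ζ κ q.1.1 q.1.2 q.2})
    (c := fun q => Metric.ball q.1.1 q.1.2) hcomp (fun _ => Metric.isOpen_ball) (by
      rintro ⟨x, y⟩ ⟨hx, hy⟩
      obtain ⟨s, hs, hD⟩ := w778_D S a b ζ κ x y hx hy hζc hκc (h x hx y hy)
      exact mem_iUnion.2 ⟨⟨((x, y), s), hD⟩, Metric.mem_ball_self hs⟩)
  have hDD : ∀ x ∈ tsupport a, ∀ y ∈ tsupport b, mln_D S a b ζ κ x y δ := by
    intro x hx y hy
    obtain ⟨⟨⟨⟨x1, y1⟩, s⟩, hD⟩, hsub⟩ := hleb (x, y) ⟨hx, hy⟩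
    exact w778_Dmono S a b ζ κ x1 y1 x y s δ hδ hsub hD
  obtain ⟨k, c, ρ, hcK, hρs, _, hρt, hρ1⟩ := poun (tsupport a) ha.cpt δ hδ
  obtain ⟨k', c', ρ', hcK', hρs', _, hρt', hρ1'⟩ := poun (tsupport b) hb.cpt δ hδ
  have ca := fun i => w778_cut a ha (ρ i) (hρs i)
  have cb := fun j => w778_cut b hb (ρ' j) (hρs' j)
  have P : ∀ i j, _ := fun (i : Fin k) (j : Fin k') =>
    w778_piece S a b (fun x => ((ρ i x : ℝ) : ℂ) * a x) (fun x => ((ρ' j x : ℝ) : ℂ) * b x) ζ κ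
      (ca i).1 (cb j).1 (ca i).2.2 (cb j).2.2 (hζc.mono (ca i).2.2) (hκc.mono (cb j).2.2)
      (fun x hx => hζ1 x ((ca i).2.2 hx)) (fun x hx => hκ1 x ((cb j).2.2 hx)) (c i) (c' j) δ hδ
      (hDD _ (hcK i) _ (hcK' j)) ((ca i).2.1.trans (hρt i))
      ((cb j).2.1.trans (hρt' j)) N
  choose C hC using P
  refine ⟨∑ i, ∑ j, C i j, fun m hm => ?_⟩
  have e1 : toL2 (fun x => a x * ζ x ^ m) =
      ∑ i, toL2 (fun x => (((ρ i x : ℝ) : ℂ) * a x) * ζ x ^ m) := by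
    rw [w778_split a ζ ρ hρ1 m]
    exact w778_sum Finset.univ (fun i x => (((ρ i x : ℝ) : ℂ) * a x) * ζ x ^ m)
      (fun i => w778_memLp _ ζ (ca i).1 (hζc.mono (ca i).2.2)
        (fun x hx => hζ1 x ((ca i).2.2 hx)) m)
  have e2 : toL2 (fun x => b x * κ x ^ m) =
      ∑ j, toL2 (fun x => (((ρ' j x : ℝ) : ℂ) * b x) * κ x ^ m) := by
    rw [w778_split b κ ρ' hρ1' m]
    exact w778_sum Finset.univ (fun i x => (((ρ' i x : ℝ) : ℂ) * b x) * κ x ^ m)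
      (fun j => w778_memLp _ κ (cb j).1 (hκc.mono (cb j).2.2)
        (fun x hx => hκ1 x ((cb j).2.2 hx)) m)
  rw [e1, e2, map_sum, sum_inner]
  calc ‖∑ i, inner ℂ (toL2 (fun x => (((ρ i x : ℝ) : ℂ) * a x) * ζ x ^ m))
        (∑ j, S (toL2 (fun x => (((ρ' j x : ℝ) : ℂ) * b x) * κ x ^ m)))‖
      ≤ ∑ i, ‖inner ℂ (toL2 (fun x => (((ρ i x : ℝ) : ℂ) * a x) * ζ x ^ m))
        (∑ j, S (toL2 (fun x => (((ρ' j x : ℝ) : ℂ) * b x) * κ x ^ m)))‖ := norm_sum_le _ _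
    _ ≤ ∑ i, ∑ j, C i j / (m : ℝ) ^ N := by
        refine Finset.sum_le_sum fun i _ => ?_
        rw [inner_sum]
        refine (norm_sum_le _ _).trans (Finset.sum_le_sum fun j _ => ?_)
        exact hC i j m hm
    _ = (∑ i, ∑ j, C i j) / (m : ℝ) ^ N := by
        rw [Finset.sum_div]
        refine Finset.sum_congr rfl fun i _ => ?_
        rw [Finset.sum_div]


end N_mln

end Pool.Agent.Helper459.SK
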