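import Mathlib
import Pool.Agent.Helper459.SK.NDefs

set_option autoImplicit false

noncomputable section

open MeasureTheory Set Filter Topology
open scoped ContDiff ComplexConjugate

namespace Pool.Agent.Helper459.SK

namespace N_mtn

theorem mtn_zen {k : ℕ} (x : E (k + 2)) (hx : x ≠ 0) : ContDiffAt ℝ ∞ (zen (k := k)) x := by
  have hc : ∀ i : Fin (k + 2), ContDiffAt ℝ ∞ (fun y : E (k + 2) => ((y i : ℝ) : ℂ)) x := by
    intro i
    have h1 : ContDiff ℝ ∞ (fun y : E (k + 2) => y i) :=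
      (EuclideanSpace.proj (𝕜 := ℝ) i : E (k + 2) →L[ℝ] ℝ).contDiff
    exact (Complex.ofRealCLM.contDiff.comp h1).contDiffAt
  have hn : ContDiffAt ℝ ∞ (fun y : E (k + 2) => ((‖y‖ : ℝ) : ℂ)) x :=
    Complex.ofRealCLM.contDiff.contDiffAt.comp x (contDiffAt_norm ℝ hx)
  have hne : ((‖x‖ : ℝ) : ℂ) ≠ 0 := by
    simpa using hx
  have h3 : ContDiffAt ℝ ∞ (fun y : E (k + 2) => ((y 0 : ℂ) + Complex.I * (y 1 : ℂ))) x :=
    (hc 0).add (contDiffAt_const.mul (hc 1))
  have h4 : ContDiffAt ℝ ∞ (fun y : E (k + 2) => (((‖y‖ : ℝ) : ℂ))⁻¹) x := hn.inv hne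
  have h5 := h3.mul h4
  refine h5.congr_of_eventuallyEq (Eventually.of_forall fun y => ?_)
  simp only [zen, div_eq_mul_inv]

theorem mtn_zf {n : ℕ} (x : E n) (hx : x ≠ 0) : ContDiffAt ℝ ∞ (zf (n := n)) x :=
  ((contDiffAt_norm ℝ hx).pow n).div_const (n : ℝ)

theorem mtn_zfc {n : ℕ} : Continuous (zf (n := n)) :=
  (continuous_norm.pow n).div_const (n : ℝ)

theorem mtn {k : ℕ} (l : ℕ) (h : ℝ → ℂ) (hh : ContDiff ℝ ∞ h) (hc : HasCompactSupport h) (hs : tsupport h ⊆ Ioi 0) :
    IsTest (mdn (k := k) l h) := by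
  constructor
  · rw [contDiff_iff_contDiffAt]
    intro x
    by_cases hx : x = 0
    · have h0 : (0 : ℝ) ∉ tsupport h := fun h0 => lt_irrefl (0 : ℝ) (hs h0)
      have hopen : IsOpen (tsupport h)ᶜ := (isClosed_tsupport h).isOpen_compl
      have hmem : (zf (n := k + 2)) ⁻¹' (tsupport h)ᶜ ∈ 𝓝 x := by
        apply (hopen.preimage mtn_zfc).mem_nhds
        rw [hx]
        show zf (0 : E (k + 2)) ∈ (tsupport h)ᶜ
        have : zf (0 : E (k + 2)) = 0 := by simp [zf]
        rw [this]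
        exact h0
      have heq : mdn l h =ᶠ[𝓝 x] fun _ => 0 := by
        filter_upwards [hmem] with y hy
        have : h (zf y) = 0 := image_eq_zero_of_notMem_tsupport hy
        simp only [mdn, this, mul_zero]
      exact contDiffAt_const.congr_of_eventuallyEq heq
    · have h1 := (mtn_zen x hx).pow l
      have h2 : ContDiffAt ℝ ∞ (fun y : E (k + 2) => h (zf y)) x :=
        hh.contDiffAt.comp x (mtn_zf x hx)
      exact h1.mul h2
  · obtain ⟨R, hR⟩ := hc.isBounded.subset_closedBall (0 : ℝ)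
    have hK : IsCompact (Metric.closedBall (0 : E (k + 2)) (1 + ((k : ℝ) + 2) * |R|)) :=
      isCompact_closedBall _ _
    refine HasCompactSupport.of_support_subset_isCompact hK ?_
    intro x hx
    have hne : h (zf x) ≠ 0 := by
      intro h0
      apply hx
      simp only [mdn, h0, mul_zero]
    have h1 : zf x ∈ tsupport h := subset_tsupport h hne
    have h2 := hR h1
    rw [Metric.mem_closedBall, Real.dist_eq, sub_zero] at h2
    rw [Metric.mem_closedBall, dist_zero_right]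
    have h3 := le_abs_self (zf x)
    have h4 := le_abs_self R
    have hk : (0 : ℝ) < (k : ℝ) + 2 := by positivity
    have h5 : ‖x‖ ^ (k + 2) ≤ ((k : ℝ) + 2) * |R| := by
      have h6 : zf x = ‖x‖ ^ (k + 2) / ((k : ℝ) + 2) := by
        simp [zf]
      have h7 : ‖x‖ ^ (k + 2) / ((k : ℝ) + 2) ≤ |R| := by
        rw [← h6]
        linarith
      rw [div_le_iff₀ hk] at h7
      linarith
    by_cases h8 : 1 ≤ ‖x‖
    · have h9 : ‖x‖ ≤ ‖x‖ ^ (k + 2) := le_self_pow₀ h8 (by omega)
      linarith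
    · push Not at h8
      have : 0 ≤ ((k : ℝ) + 2) * |R| := by positivity
      linarith

end N_mtn

end Pool.Agent.Helper459.SK
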