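import Mathlib
import Pool.Agent.Helper459.SK.NDefs

set_option autoImplicit false

noncomputable section

open MeasureTheory Set Filter Topology
open scoped ContDiff ComplexConjugate

namespace Pool.Agent.Helper459.SK

namespace N_phn

def lin2 (k : ℕ) : E (k + 2) →L[ℝ] ℂ :=
  Complex.ofRealCLM ∘L (EuclideanSpace.proj (0 : Fin (k + 2)) : E (k + 2) →L[ℝ] ℝ) +
    (Complex.I • Complex.ofRealCLM) ∘L (EuclideanSpace.proj (1 : Fin (k + 2)) : E (k + 2) →L[ℝ] ℝ)

theorem lin2_apply {k : ℕ} (x : E (k + 2)) : lin2 k x = (x 0 : ℂ) + Complex.I * (x 1 : ℂ) := by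
  simp [lin2]

theorem lin2_re {k : ℕ} (x : E (k + 2)) : (lin2 k x).re = x 0 := by
  rw [lin2_apply]
  simp

theorem lin2_im {k : ℕ} (x : E (k + 2)) : (lin2 k x).im = x 1 := by
  rw [lin2_apply]
  simp

theorem lin2_norm_le {k : ℕ} (x : E (k + 2)) : ‖lin2 k x‖ ≤ ‖x‖ := by
  have h1 : ‖lin2 k x‖ ^ 2 ≤ ‖x‖ ^ 2 := by
    rw [Complex.sq_norm, Complex.normSq_apply, lin2_re, lin2_im, EuclideanSpace.norm_sq_eq,
      Fin.sum_univ_succ, Fin.sum_univ_succ, Real.norm_eq_abs, Real.norm_eq_abs, sq_abs, sq_abs]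
    have h3 : 0 ≤ ∑ i : Fin k, ‖x i.succ.succ‖ ^ 2 := Finset.sum_nonneg fun i _ => sq_nonneg _
    have h4 : x (Fin.succ (0 : Fin (k + 1))) = x 1 := rfl
    rw [h4]
    nlinarith
  exact (pow_le_pow_iff_left₀ (norm_nonneg _) (norm_nonneg _) (by norm_num)).1 h1

theorem zen_eq {k : ℕ} (x : E (k + 2)) : zen x = lin2 k x / ((‖x‖ : ℝ) : ℂ) := by
  unfold zen
  rw [lin2_apply]

theorem zen_norm_le {k : ℕ} (x : E (k + 2)) : ‖zen x‖ ≤ 1 := by
  rw [zen_eq, norm_div, Complex.norm_real, Real.norm_eq_abs, abs_norm]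
  exact div_le_one_of_le₀ (lin2_norm_le x) (norm_nonneg x)

/-- the complex phase -/
def psi (k : ℕ) (c : ℂ) (x : E (k + 2)) : ℂ :=
  -Complex.I * (Complex.log (lin2 k x * conj c) - Complex.log (conj c) - (Real.log ‖x‖ : ℂ))

theorem psi_exp {k : ℕ} (c : ℂ) (hc : c ≠ 0) (x : E (k + 2)) (hx : x ≠ 0)
    (h : lin2 k x * conj c ∈ Complex.slitPlane) :
    zen x = Complex.exp (Complex.I * psi k c x) := by
  have hc' : conj c ≠ 0 := (map_ne_zero _).2 hc
  have hxn : (‖x‖ : ℂ) ≠ 0 := by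
    rw [Ne, Complex.ofReal_eq_zero]
    exact norm_ne_zero_iff.2 hx
  have h1 : Complex.I * psi k c x =
      Complex.log (lin2 k x * conj c) - Complex.log (conj c) - (Real.log ‖x‖ : ℂ) := by
    unfold psi
    rw [← mul_assoc, mul_neg, Complex.I_mul_I]
    ring
  rw [h1, Complex.exp_sub, Complex.exp_sub, Complex.exp_log (Complex.slitPlane_ne_zero h),
    Complex.exp_log hc', ← Complex.ofReal_exp, Real.exp_log (norm_pos_iff.2 hx), zen_eq,
    mul_div_cancel_right₀ _ hc']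

theorem psi_re {k : ℕ} (c : ℂ) (x : E (k + 2)) :
    (psi k c x).re = (Complex.log (lin2 k x * conj c)).im - (Complex.log (conj c)).im := by
  unfold psi
  simp [Complex.sub_re, Complex.sub_im]

theorem psi_deriv {k : ℕ} (c : ℂ) (x : E (k + 2)) (h : lin2 k x * conj c ∈ Complex.slitPlane)
    (hc : c ≠ 0) :
    ∃ D : E (k + 2) →L[ℝ] ℝ, HasFDerivAt (fun y => (psi k c y).re) D x ∧
      ∀ v, D v = (lin2 k v / lin2 k x).im := by
  have h1 : HasFDerivAt (fun y : E (k + 2) => lin2 k y * conj c) ((lin2 k).smulRight (conj c)) x := by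
    have h0 := ((lin2 k).hasFDerivAt (x := x)).mul_const (conj c)
    refine h0.congr_fderiv ?_
    ext v
    simp [mul_comm]
  have h2 : HasFDerivAt Complex.log (((1 : ℂ →L[ℂ] ℂ).smulRight (lin2 k x * conj c)⁻¹).restrictScalars ℝ)
      (lin2 k x * conj c) := (Complex.hasDerivAt_log h).hasFDerivAt.restrictScalars ℝ
  have h3 := (Complex.imCLM.hasFDerivAt).comp x (h2.comp x h1)
  have h4 := h3.sub_const (Complex.log (conj c)).im
  have hfun : (fun y => (psi k c y).re) =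
      fun y => (Complex.imCLM ∘ Complex.log ∘ fun y => lin2 k y * conj c) y - (Complex.log (conj c)).im := by
    funext y
    rw [psi_re]
    rfl
  rw [hfun]
  refine ⟨_, h4, ?_⟩
  intro v
  have hc' : conj c ≠ 0 := (map_ne_zero _).2 hc
  simp only [ContinuousLinearMap.comp_apply, ContinuousLinearMap.smulRight_apply,
    ContinuousLinearMap.coe_restrictScalars', ContinuousLinearMap.one_apply, Complex.imCLM_apply,
    smul_eq_mul]
  congr 1
  rw [mul_inv, mul_comm (lin2 k v) (conj c), mul_assoc, mul_left_comm, ← mul_assoc (conj c)]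
  field_simp

theorem grad_apply {n : ℕ} (φ : E n → ℝ) (x : E n) (i : Fin n) :
    gradient φ x i = fderiv ℝ φ x (EuclideanSpace.single i 1) := by
  have h := InnerProductSpace.toDual_symm_apply (𝕜 := ℝ) (E := E n)
    (x := EuclideanSpace.single i (1 : ℝ)) (y := fderiv ℝ φ x)
  rw [← h]
  rw [EuclideanSpace.inner_single_right]
  simp [gradient]


theorem phn {k : ℕ} (x₀ : E (k + 2)) (h : x₀ ≠ 0) (h1 : ‖zen x₀‖ = 1) : ∃ φ : E (k + 2) → ℂ, ContDiff ℝ ∞ φ ∧
    (∃ r : ℝ, 0 < r ∧ ∀ x ∈ Metric.ball x₀ r, zen x = Complex.exp (Complex.I * φ x) ∧ 0 ≤ (φ x).im) ∧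
    (∀ i, gradient (fun x => (φ x).re) x₀ i = if i = 0 then -(x₀ 1) / ‖x₀‖ ^ 2 else if i = 1 then x₀ 0 / ‖x₀‖ ^ 2 else 0) := by
  obtain ⟨c, hcdef⟩ : ∃ c : ℂ, c = lin2 k x₀ := ⟨_, rfl⟩
  have hxn0 : ‖x₀‖ ≠ 0 := norm_ne_zero_iff.2 h
  have hcn : ‖c‖ = ‖x₀‖ := by
    rw [zen_eq, norm_div, Complex.norm_real, Real.norm_eq_abs, abs_norm, div_eq_one_iff_eq hxn0] at h1
    rw [hcdef, h1]
  have hc : c ≠ 0 := by
    rw [← norm_ne_zero_iff, hcn]
    exact hxn0
  have hU : IsOpen {x : E (k + 2) | 0 < (lin2 k x * conj c).re} := by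
    refine isOpen_lt continuous_const ?_
    exact Complex.continuous_re.comp ((lin2 k).continuous.mul continuous_const)
  have hx₀U : x₀ ∈ {x : E (k + 2) | 0 < (lin2 k x * conj c).re} := by
    change 0 < (lin2 k x₀ * conj c).re
    rw [← hcdef, Complex.mul_conj, Complex.ofReal_re]
    exact Complex.normSq_pos.2 hc
  obtain ⟨r0, hr0, hball⟩ := Metric.isOpen_iff.1 hU x₀ hx₀U
  have hslit : ∀ x ∈ Metric.ball x₀ r0, lin2 k x * conj c ∈ Complex.slitPlane :=
    fun x hx => Or.inl (hball hx)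
  have hne : ∀ x ∈ Metric.ball x₀ r0, x ≠ 0 := by
    intro x hx h0
    have h1 : 0 < (lin2 k x * conj c).re := hball hx
    rw [h0, map_zero, zero_mul, Complex.zero_re] at h1
    exact lt_irrefl _ h1
  let χ : ContDiffBump x₀ := ⟨r0 / 3, r0 / 2, by linarith, by linarith⟩
  have hψ : ∀ x ∈ Metric.ball x₀ r0, ContDiffAt ℝ ∞ (psi k c) x := by
    intro x hx
    unfold psi
    refine ContDiffAt.mul contDiffAt_const ?_
    have h1 : ContDiffAt ℝ ∞ Complex.log (lin2 k x * conj c) :=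
      (Complex.contDiffAt_log (hslit x hx)).restrict_scalars ℝ
    have h2 : ContDiffAt ℝ ∞ (fun y : E (k + 2) => lin2 k y * conj c) x :=
      ((lin2 k).contDiff.mul contDiff_const).contDiffAt
    have h3 : ContDiffAt ℝ ∞ (fun y : E (k + 2) => Real.log ‖y‖) x :=
      (contDiffAt_norm ℝ (hne x hx)).log (norm_ne_zero_iff.2 (hne x hx))
    exact ((h1.comp x h2).sub contDiffAt_const).sub (Complex.ofRealCLM.contDiff.contDiffAt.comp x h3)
  refine ⟨fun x => (χ x : ℂ) * psi k c x, ?_, ⟨r0 / 3, by linarith, ?_⟩, ?_⟩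
  · rw [contDiff_iff_contDiffAt]
    intro x
    by_cases hx : x ∈ Metric.ball x₀ r0
    · exact (Complex.ofRealCLM.contDiff.contDiffAt.comp x χ.contDiff.contDiffAt).mul (hψ x hx)
    · have hx' : x ∉ tsupport χ := by
        rw [χ.tsupport_eq, Metric.mem_closedBall]
        rw [Metric.mem_ball] at hx
        push Not at hx ⊢
        change r0 / 2 < dist x x₀
        linarith
      have h0 := notMem_tsupport_iff_eventuallyEq.1 hx'
      have h1 : (fun x => (χ x : ℂ) * psi k c x) =ᶠ[𝓝 x] fun _ => 0 := by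
        filter_upwards [h0] with y hy
        rw [hy]
        simp
      exact contDiffAt_const.congr_of_eventuallyEq h1
  · intro x hx
    have hx0 : x ∈ Metric.ball x₀ r0 := Metric.ball_subset_ball (by linarith) hx
    have h1 : χ x = 1 := χ.one_of_mem_closedBall (Metric.ball_subset_closedBall hx)
    beta_reduce
    rw [h1, Complex.ofReal_one, one_mul]
    have hz := psi_exp c hc x (hne x hx0) (hslit x hx0)
    refine ⟨hz, ?_⟩
    have hn := zen_norm_le x
    rw [hz, Complex.norm_exp] at hn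
    have h2 : (Complex.I * psi k c x).re ≤ 0 := by
      rw [← Real.exp_zero] at hn
      exact Real.exp_le_exp.1 hn
    rw [Complex.I_mul_re] at h2
    linarith
  · intro i
    have hx0 : x₀ ∈ Metric.ball x₀ r0 := Metric.mem_ball_self hr0
    have hev : (fun x => ((χ x : ℂ) * psi k c x).re) =ᶠ[𝓝 x₀] fun x => (psi k c x).re := by
      filter_upwards [Metric.isOpen_ball.mem_nhds (Metric.mem_ball_self (by linarith : 0 < r0 / 3))] with y hy
      have h1 : χ y = 1 := χ.one_of_mem_closedBall (Metric.ball_subset_closedBall hy)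
      rw [h1, Complex.ofReal_one, one_mul]
    obtain ⟨D, hD, hDv⟩ := psi_deriv c x₀ (hslit x₀ hx0) hc
    have hfd : fderiv ℝ (fun x => ((χ x : ℂ) * psi k c x).re) x₀ = D :=
      (hD.congr_of_eventuallyEq hev).fderiv
    have hdiv : ∀ v : E (k + 2), (lin2 k v / lin2 k x₀).im = (v 1 * x₀ 0 - v 0 * x₀ 1) / ‖x₀‖ ^ 2 := by
      intro v
      rw [Complex.div_im, lin2_re, lin2_im, lin2_re, lin2_im, ← Complex.sq_norm, ← hcdef, hcn]
      ring
    rw [grad_apply, hfd, hDv, hdiv]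
    by_cases hi0 : i = 0
    · subst hi0
      simp
    · by_cases hi1 : i = 1
      · subst hi1
        simp
      · simp [hi0, hi1, Ne.symm hi0, Ne.symm hi1]

end N_phn

end Pool.Agent.Helper459.SK
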