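import Mathlib
import Pool.Agent.Helper459.SK.NDefs
import Pool.Agent.Helper459.SK.L_mln
import Pool.Agent.Helper459.SK.L_phn
import Pool.Agent.Helper459.SK.L_mtn
import Pool.Agent.Helper459.SK.L_fj_facts

set_option autoImplicit false

noncomputable section

open MeasureTheory Set Filter Topology
open scoped ContDiff ComplexConjugate

namespace Pool.Agent.Helper459.SK
open N_mln
open N_phn
open N_mtn
open N_fj_facts

namespace N_ogn

theorem ogn_h1 {n : ℕ} (φ : E n → ℝ) (x : E n) : inner ℝ x (gradient φ x) = fderiv ℝ φ x x := by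
  rw [real_inner_comm]
  exact InnerProductSpace.toDual_symm_apply

theorem zf_cont {n : ℕ} : Continuous (zf : E n → ℝ) := by
  unfold zf; fun_prop

theorem ogn_h2 {n : ℕ} (h : ℝ → ℂ) (x : E n) (hx : x ∈ tsupport (fun x : E n => h (zf x))) :
    zf x ∈ tsupport h :=
  tsupport_comp_subset_preimage h (f := fun x : E n => zf x) zf_cont hx

theorem ogn_h3 (a : ℝ → ℝ) (z : ℝ) (hz : z ∈ tsupport (fun z => (a z : ℂ))) : z ∈ tsupport a := by
  have h1 : Function.support (fun z => (a z : ℂ)) = Function.support a := by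
    ext z; simp
  rw [tsupport, h1] at hz
  exact hz

theorem ogn_h4 {k : ℕ} (h : ℝ → ℂ) (hh : ContDiff ℝ ∞ h) (hc : HasCompactSupport h)
    (hs : tsupport h ⊆ Ioi 0) : IsTest (fun x : E (k + 2) => h (zf x)) := by
  have h1 := mtn (k := k) 0 h hh hc hs
  have h2 : mdn (k := k) 0 h = fun x : E (k + 2) => h (zf x) := by
    funext x
    simp [mdn]
  rwa [h2] at h1

theorem ogn_h5 (a : ℝ → ℝ) (ha : ContDiff ℝ ∞ a) (hac : HasCompactSupport a) :
    ContDiff ℝ ∞ (fun z => (a z : ℂ)) ∧ HasCompactSupport (fun z => (a z : ℂ)) :=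
  ⟨Complex.ofRealCLM.contDiff.comp ha, hac.comp_left (g := fun x : ℝ => (x : ℂ)) (by simp)⟩

theorem zen_sq {k : ℕ} (x : E (k + 2)) : x 0 ^ 2 + x 1 ^ 2 ≤ ‖x‖ ^ 2 := by
  rw [EuclideanSpace.real_norm_sq_eq, Fin.sum_univ_succ, Fin.sum_univ_succ]
  have : 0 ≤ ∑ i : Fin k, x i.succ.succ ^ 2 := Finset.sum_nonneg (fun i _ => sq_nonneg _)
  have e : x (Fin.succ 0) = x 1 := rfl
  rw [e]
  linarith

theorem norm_num_sq {k : ℕ} (x : E (k + 2)) :
    ‖((x 0 : ℂ) + Complex.I * (x 1 : ℂ))‖ ^ 2 = x 0 ^ 2 + x 1 ^ 2 := by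
  rw [Complex.sq_norm, Complex.normSq_apply]
  simp
  ring

theorem zen_le {k : ℕ} (x : E (k + 2)) : ‖zen x‖ ≤ 1 := by
  unfold zen
  rw [norm_div, Complex.norm_real, Real.norm_eq_abs, abs_of_nonneg (norm_nonneg x)]
  rcases (norm_nonneg x).eq_or_lt with h | h
  · rw [← h]; simp
  · rw [div_le_one h]
    have h1 := norm_num_sq x
    have h2 := zen_sq x
    nlinarith [norm_nonneg ((x 0 : ℂ) + Complex.I * (x 1 : ℂ))]

theorem zen_one {k : ℕ} (x : E (k + 2)) (hx : x ≠ 0) (h : ‖zen x‖ = 1) :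
    x 0 ^ 2 + x 1 ^ 2 = ‖x‖ ^ 2 := by
  unfold zen at h
  have hpos : 0 < ‖x‖ := norm_pos_iff.2 hx
  rw [norm_div, Complex.norm_real, Real.norm_eq_abs, abs_of_nonneg (norm_nonneg x),
    div_eq_one_iff_eq hpos.ne'] at h
  rw [← norm_num_sq, h]

theorem zen_cont {k : ℕ} (s : Set (E (k + 2))) (hs : ∀ x ∈ s, x ≠ 0) :
    ContinuousOn (zen : E (k + 2) → ℂ) s := by
  unfold zen
  refine ContinuousOn.div (by fun_prop) (by fun_prop) ?_
  intro x hx h0
  have : ‖x‖ = 0 := by exact_mod_cast h0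
  exact hs x hx (norm_eq_zero.1 this)

/-- the inner product of a point with the rotational gradient -/
theorem rot_sum {k : ℕ} (x G : E (k + 2)) (hG : ∀ i, G i = if i = 0 then -(x 1) / ‖x‖ ^ 2 else
    if i = 1 then x 0 / ‖x‖ ^ 2 else 0) : inner ℝ x G = (0 : ℝ) ∧
      ‖G‖ ^ 2 = (x 0 ^ 2 + x 1 ^ 2) / (‖x‖ ^ 2) ^ 2 := by
  have g0 : G 0 = -(x 1) / ‖x‖ ^ 2 := by rw [hG]; simp
  have g1 : G (Fin.succ 0) = x 0 / ‖x‖ ^ 2 := by
    rw [hG]
    have h1 : (Fin.succ 0 : Fin (k + 2)) = 1 := rfl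
    rw [h1]; simp
  have g2 : ∀ i : Fin k, G i.succ.succ = 0 := by
    intro i
    rw [hG]
    have h1 : (i.succ.succ : Fin (k + 2)) ≠ 0 := Fin.succ_ne_zero _
    have h2 : (i.succ.succ : Fin (k + 2)) ≠ 1 := by
      intro h
      have : (Fin.succ 0 : Fin (k + 2)) = 1 := rfl
      rw [← this] at h
      exact Fin.succ_ne_zero i (Fin.succ_injective _ h)
    rw [if_neg h1, if_neg h2]
  have e1 : x (Fin.succ 0) = x 1 := rfl
  constructor
  · rw [PiLp.inner_apply, Fin.sum_univ_succ, Fin.sum_univ_succ]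
    simp only [g0, g1, g2, e1, RCLike.inner_apply, conj_trivial]
    simp
    ring
  · rw [EuclideanSpace.real_norm_sq_eq, Fin.sum_univ_succ, Fin.sum_univ_succ]
    simp only [g0, g1, g2]
    simp
    ring

theorem zf_smooth {n : ℕ} (y : E n) (hy : y ≠ 0) : ContDiffAt ℝ ∞ (zf : E n → ℝ) y := by
  unfold zf
  exact ((contDiffAt_norm ℝ hy).pow n).div_const _

/-- a global smooth function that agrees with `2 τ (zf x)` near `x₀` -/
theorem ext_smooth {k : ℕ} (τ : ℝ → ℝ) (hτ : ContDiff ℝ ∞ τ) (x₀ : E (k + 2)) (h : x₀ ≠ 0) :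
    ∃ G : E (k + 2) → ℝ, ContDiff ℝ ∞ G ∧ ∃ r : ℝ, 0 < r ∧ ∀ x ∈ Metric.ball x₀ r, G x = 2 * τ (zf x) := by
  have hpos : 0 < ‖x₀‖ := norm_pos_iff.2 h
  let b : ContDiffBump x₀ := ⟨‖x₀‖ / 4, ‖x₀‖ / 2, by linarith, by linarith⟩
  refine ⟨fun x => b x * (2 * τ (zf x)), ?_, ‖x₀‖ / 4, by linarith, ?_⟩
  · rw [contDiff_iff_contDiffAt]
    intro y
    by_cases hy : y = 0
    · have h1 : (fun x => b x * (2 * τ (zf x))) =ᶠ[𝓝 y] fun _ => 0 := by
        have h2 : y ∉ tsupport (b : E (k + 2) → ℝ) := by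
          rw [b.tsupport_eq, hy]
          intro h3
          rw [Metric.mem_closedBall, dist_comm, dist_zero_right] at h3
          have : b.rOut = ‖x₀‖ / 2 := rfl
          rw [this] at h3
          linarith
        have h3 := notMem_tsupport_iff_eventuallyEq.1 h2
        filter_upwards [h3] with z hz
        rw [hz]; simp
      exact (contDiffAt_const).congr_of_eventuallyEq h1
    · exact (b.contDiff.contDiffAt).mul (contDiffAt_const.mul
        ((hτ.contDiffAt).comp y (zf_smooth y hy)))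
  · intro x hx
    have h1 : b x = 1 := b.one_of_mem_closedBall (by
      have : b.rIn = ‖x₀‖ / 4 := rfl
      rw [this]
      exact Metric.ball_subset_closedBall hx)
    simp only [h1, one_mul]

theorem zf_smul {n : ℕ} (x : E n) (c : ℝ) (hc : 0 ≤ c) : zf (c • x) = c ^ n * zf x := by
  unfold zf
  rw [norm_smul, Real.norm_eq_abs, abs_of_nonneg hc, mul_pow]
  ring

theorem ext_deriv {k : ℕ} (τ : ℝ → ℝ) (hτ : ContDiff ℝ ∞ τ) (x₀ : E (k + 2)) (G : E (k + 2) → ℝ)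
    (hG : ContDiff ℝ ∞ G) (r : ℝ) (hr : 0 < r) (he : ∀ x ∈ Metric.ball x₀ r, G x = 2 * τ (zf x)) :
    fderiv ℝ G x₀ x₀ = 2 * (deriv τ (zf x₀) * (((k + 2 : ℕ) : ℝ) * zf x₀)) := by
  have hcurve : HasDerivAt (fun s : ℝ => (1 + s) • x₀) x₀ 0 := by
    have h1 : HasDerivAt (fun s : ℝ => 1 + s) 1 0 := (hasDerivAt_id (0 : ℝ)).const_add 1
    have := h1.smul_const x₀
    simpa using this
  have hGd : HasFDerivAt G (fderiv ℝ G x₀) ((fun s : ℝ => (1 + s) • x₀) 0) := by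
    simp only [add_zero, one_smul]
    exact ((hG.differentiable (by simp)) x₀).hasFDerivAt
  have h1 : HasDerivAt (fun s : ℝ => G ((1 + s) • x₀)) (fderiv ℝ G x₀ x₀) 0 :=
    hGd.comp_hasDerivAt 0 hcurve
  have hpow : HasDerivAt (fun s : ℝ => (1 + s) ^ (k + 2) * zf x₀) (((k + 2 : ℕ) : ℝ) * zf x₀) 0 := by
    have h2 : HasDerivAt (fun s : ℝ => 1 + s) 1 0 := (hasDerivAt_id (0 : ℝ)).const_add 1
    have h3 := (h2.pow (k + 2)).mul_const (zf x₀)
    simpa using h3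
  have hτd : HasDerivAt τ (deriv τ (zf x₀)) ((fun s : ℝ => (1 + s) ^ (k + 2) * zf x₀) 0) := by
    simp only [add_zero, one_pow, one_mul]
    exact ((hτ.differentiable (by simp)) _).hasDerivAt
  have h4 : HasDerivAt (fun s : ℝ => 2 * τ ((1 + s) ^ (k + 2) * zf x₀))
      (2 * (deriv τ (zf x₀) * (((k + 2 : ℕ) : ℝ) * zf x₀))) 0 :=
    (hτd.comp (0 : ℝ) hpow).const_mul 2
  have hev : (fun s : ℝ => G ((1 + s) • x₀)) =ᶠ[𝓝 0] fun s : ℝ => 2 * τ ((1 + s) ^ (k + 2) * zf x₀) := by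
    have hc : Tendsto (fun s : ℝ => (1 + s) • x₀) (𝓝 0) (𝓝 x₀) := by
      have := hcurve.continuousAt.tendsto
      simpa using this
    have h5 := hc.eventually (Metric.ball_mem_nhds x₀ hr)
    have h6 : ∀ᶠ s : ℝ in 𝓝 0, -1 < s := lt_mem_nhds (by norm_num)
    filter_upwards [h5, h6] with s hs hs1
    rw [he _ hs, zf_smul _ _ (by linarith)]
  exact h1.unique (h4.congr_of_eventuallyEq hev)

theorem ogn (k : ℕ) (U : ℝ → (L2 (k + 2) →L[ℂ] L2 (k + 2))) (f : ℝ → ℝ) (hf : FP f)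
    (g : ℕ → ℕ → ℝ → L2z) (s : ℕ → ℝ) (hr : Redn k U f g s)
    (hreg : ∀ t, 0 < t → ∀ p ∈ VVn (k + 2), ∀ q ∈ WWn (k + 2), RegPt (U t) p.1 p.2 q.1 q.2)
    (τ : ℝ → ℝ) (hτ : ContDiff ℝ ∞ τ) (a : ℝ → ℝ) (ha : ContDiff ℝ ∞ a) (hac : HasCompactSupport a)
    (has : tsupport a ⊆ Ioi 3) (hd : ∀ z ∈ tsupport a, 0 < deriv τ z) (t : ℝ) (ht : 0 < t) (j : ℕ) :
    ∃ C : ℝ, ∀ l : ℕ, 1 ≤ l →
      ‖∫ z in Ioi (0 : ℝ), (a z : ℂ) * Complex.exp (Complex.I * (((2 * l + k : ℕ) * τ z : ℝ) : ℂ)) * (g l j t : ℝ → ℂ) z‖ ≤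
        C / (2 * l + k : ℕ) := by
  obtain ⟨hB1, hB2, hB3⟩ := fj_facts.2.2 f hf j
  have hA := ogn_h5 a ha hac
  have hB := ogn_h5 (fj f j) hB1 hB2
  have hAs : tsupport (fun z => (a z : ℂ)) ⊆ Ioi 0 := fun z hz =>
    lt_trans (by norm_num) (mem_Ioi.1 (has (ogn_h3 a z hz)))
  have hBs : tsupport (fun z => (fj f j z : ℂ)) ⊆ Ioi 0 := fun z hz =>
    lt_trans (by norm_num) (hB3 (ogn_h3 _ z hz)).1
  have hexpS : ContDiff ℝ ∞ (fun z : ℝ => Complex.exp (-(Complex.I * (((k : ℝ) * τ z : ℝ) : ℂ)))) := by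
    have h1 : ContDiff ℝ ∞ (fun z : ℝ => (((k : ℝ) * τ z : ℝ) : ℂ)) :=
      Complex.ofRealCLM.contDiff.comp (contDiff_const.mul hτ)
    exact (contDiff_const.mul h1).neg.cexp
  have hA' : ContDiff ℝ ∞ (fun z : ℝ => (a z : ℂ) * Complex.exp (-(Complex.I * (((k : ℝ) * τ z : ℝ) : ℂ)))) :=
    hA.1.mul hexpS
  have hAc' : HasCompactSupport (fun z : ℝ => (a z : ℂ) * Complex.exp (-(Complex.I * (((k : ℝ) * τ z : ℝ) : ℂ)))) :=
    hA.2.mul_right
  have hAt : tsupport (fun z : ℝ => (a z : ℂ) * Complex.exp (-(Complex.I * (((k : ℝ) * τ z : ℝ) : ℂ)))) ⊆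
      tsupport (fun z => (a z : ℂ)) := tsupport_mul_subset_left
  have hTA := ogn_h4 (k := k) _ hA' hAc' (hAt.trans hAs)
  have hTB := ogn_h4 (k := k) _ hB.1 hB.2 hBs
  have hxa : ∀ x ∈ tsupport (fun x : E (k + 2) => (fun z : ℝ => (a z : ℂ) *
      Complex.exp (-(Complex.I * (((k : ℝ) * τ z : ℝ) : ℂ)))) (zf x)), zf x ∈ tsupport a := fun x hx =>
    ogn_h3 a _ (hAt (ogn_h2 _ x hx))
  have hyb : ∀ y ∈ tsupport (fun y : E (k + 2) => (fun z : ℝ => (fj f j z : ℂ)) (zf y)),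
      zf y ∈ Ioo (2 : ℝ) 3 := fun y hy => hB3 (ogn_h3 _ _ (ogn_h2 _ y hy))
  have hz0 : zf (0 : E (k + 2)) = 0 := by
    unfold zf
    simp
  have hxne : ∀ x ∈ tsupport (fun x : E (k + 2) => (fun z : ℝ => (a z : ℂ) *
      Complex.exp (-(Complex.I * (((k : ℝ) * τ z : ℝ) : ℂ)))) (zf x)), x ≠ 0 := by
    rintro x hx rfl
    have h1 : (3 : ℝ) < zf (0 : E (k + 2)) := has (hxa _ hx)
    rw [hz0] at h1
    norm_num at h1
  have hyne : ∀ y ∈ tsupport (fun y : E (k + 2) => (fun z : ℝ => (fj f j z : ℂ)) (zf y)), y ≠ 0 := by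
    rintro y hy rfl
    have h1 := (hyb _ hy).1
    rw [hz0] at h1
    norm_num at h1
  have hen : ∀ x : E (k + 2), ‖Complex.exp (-(Complex.I * ((2 * τ (zf x) : ℝ) : ℂ)))‖ = 1 := by
    intro x
    have : -(Complex.I * ((2 * τ (zf x) : ℝ) : ℂ)) = ((-(2 * τ (zf x)) : ℝ) : ℂ) * Complex.I := by
      push_cast; ring
    rw [this, Complex.norm_exp_ofReal_mul_I]
  obtain ⟨c0, p, hc0, hsl⟩ := hr.s_low
  obtain ⟨C, hC⟩ := mln (U t) (fun x : E (k + 2) => (fun z : ℝ => (a z : ℂ) *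
      Complex.exp (-(Complex.I * (((k : ℝ) * τ z : ℝ) : ℂ)))) (zf x))
    (fun y : E (k + 2) => (fun z : ℝ => (fj f j z : ℂ)) (zf y))
    (fun x => zen x * Complex.exp (-(Complex.I * ((2 * τ (zf x) : ℝ) : ℂ)))) zen hTA hTB
    (by
      refine (zen_cont _ hxne).mul (Continuous.continuousOn ?_)
      have h1 : Continuous τ := hτ.continuous
      have h2 : Continuous (zf : E (k + 2) → ℝ) := zf_cont
      fun_prop)
    (zen_cont _ hyne)
    (by
      intro x _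
      rw [norm_mul, hen, mul_one]
      exact zen_le x)
    (fun y _ => zen_le y)
    (by
      intro x hx y hy
      have hx1 := hxa x hx
      have hy1 := hyb y hy
      have hx3 : 3 < zf x := has hx1
      have hx0 := hxne x hx
      have hy0 := hyne y hy
      rcases (zen_le x).lt_or_eq with hzx | hzx
      · left
        rw [norm_mul, hen, mul_one]
        exact hzx
      rcases (zen_le y).lt_or_eq with hzy | hzy
      · right; left; exact hzy
      right; right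
      obtain ⟨φ0, hφ0, ⟨r1, hr1, hφ1⟩, hφ2⟩ := phn x hx0 hzx
      obtain ⟨ψ, hψ, ⟨r2, hr2, hψ1⟩, hψ2⟩ := phn y hy0 hzy
      obtain ⟨G, hG, r3, hr3, hG3⟩ := ext_smooth τ hτ x hx0
      have hGC : ContDiff ℝ ∞ (fun x : E (k + 2) => (G x : ℂ)) := Complex.ofRealCLM.contDiff.comp hG
      obtain ⟨rs1, _⟩ := rot_sum x _ hφ2
      obtain ⟨rs2, rs3⟩ := rot_sum y _ hψ2
      have hφre : ContDiff ℝ ∞ (fun x' : E (k + 2) => (φ0 x').re) := Complex.reCLM.contDiff.comp hφ0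
      have hinner : inner ℝ x (gradient (fun x' : E (k + 2) => (φ0 x' - (G x' : ℂ)).re) x) < (0 : ℝ) := by
        rw [ogn_h1]
        have e0 : (fun x' : E (k + 2) => (φ0 x' - (G x' : ℂ)).re) = fun x' => (φ0 x').re - G x' := by
          funext x'
          simp
        have d1 : HasFDerivAt (fun x' : E (k + 2) => (φ0 x').re) (fderiv ℝ (fun x' : E (k + 2) => (φ0 x').re) x) x :=
          ((hφre.differentiable (by simp)) x).hasFDerivAt
        have d2 : HasFDerivAt G (fderiv ℝ G x) x := ((hG.differentiable (by simp)) x).hasFDerivAt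
        have d4 : fderiv ℝ (fun x' : E (k + 2) => (φ0 x').re - G x') x =
            fderiv ℝ (fun x' : E (k + 2) => (φ0 x').re) x - fderiv ℝ G x := (d1.sub d2).fderiv
        rw [e0, d4, sub_apply, ← ogn_h1, rs1, ext_deriv τ hτ x G hG r3 hr3 hG3, zero_sub]
        have h1 := hd _ hx1
        have h2 : (0 : ℝ) < ((k + 2 : ℕ) : ℝ) := by positivity
        have h3 : 0 < zf x := by linarith
        have := mul_pos h1 (mul_pos h2 h3)
        linarith
      refine ⟨fun x' : E (k + 2) => φ0 x' - (G x' : ℂ), ψ, hφ0.sub hGC, hψ,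
        ⟨min (min r1 r3) r2, lt_min (lt_min hr1 hr3) hr2, ?_, ?_⟩, ?_, ?_⟩
      · intro x' hx'
        have hxa1 : x' ∈ Metric.ball x r1 :=
          Metric.ball_subset_ball ((min_le_left _ _).trans (min_le_left _ _)) hx'
        have hxa3 : x' ∈ Metric.ball x r3 :=
          Metric.ball_subset_ball ((min_le_left _ _).trans (min_le_right _ _)) hx'
        obtain ⟨h1, h2⟩ := hφ1 x' hxa1
        refine ⟨?_, ?_⟩
        · beta_reduce
          rw [h1, ← Complex.exp_add, hG3 x' hxa3]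
          congr 1
          push_cast
          ring
        · simpa using h2
      · intro y' hy'
        exact hψ1 y' (Metric.ball_subset_ball (min_le_right _ _) hy')
      · intro h0
        rw [h0, inner_zero_right] at hinner
        exact lt_irrefl _ hinner
      · refine hreg t ht (x, _) ⟨hx3, hinner⟩ (y, gradient (fun x => (ψ x).re) y) ⟨hy1.1, hy1.2, ?_⟩
        show 0 < ‖y‖ ^ 2 * ‖gradient (fun x => (ψ x).re) y‖ ^ 2 -
          (inner ℝ y (gradient (fun x => (ψ x).re) y) : ℝ) ^ 2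
        rw [rs2, rs3, zen_one y hy0 hzy]
        have : 0 < ‖y‖ := norm_pos_iff.2 hy0
        have h3 : ‖y‖ ^ 2 * (‖y‖ ^ 2 / (‖y‖ ^ 2) ^ 2) - 0 ^ 2 = 1 := by
          field_simp
          ring
        rw [h3]
        exact one_pos) (p + 1)
  have hC0 : 0 ≤ C := by
    have := hC 1 le_rfl
    simp only [Nat.cast_one, one_pow, div_one] at this
    exact (norm_nonneg _).trans this
  refine ⟨(2 + k : ℝ) * (2 ^ p / c0) * C, fun l hl => ?_⟩
  have hl0 : (0 : ℝ) < l := by exact_mod_cast hl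
  have hl1 : (1 : ℝ) ≤ l := by exact_mod_cast hl
  have hpair := hr.pair l j t (fun z => (a z : ℂ) * Complex.exp (-(Complex.I * (((2 * l + k : ℕ) * τ z : ℝ) : ℂ))))
    (by
      have h1 : Continuous (fun z => (a z : ℂ)) := hA.1.continuous
      have h2 : Continuous τ := hτ.continuous
      fun_prop)
    (hA.2.mul_right)
    ((tsupport_mul_subset_left).trans hAs)
  have e1 : ∀ z, conj ((a z : ℂ) * Complex.exp (-(Complex.I * (((2 * l + k : ℕ) * τ z : ℝ) : ℂ)))) =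
      (a z : ℂ) * Complex.exp (Complex.I * (((2 * l + k : ℕ) * τ z : ℝ) : ℂ)) := by
    intro z
    rw [map_mul, Complex.conj_ofReal, ← Complex.exp_conj, map_neg, map_mul, Complex.conj_I,
      Complex.conj_ofReal]
    congr 2
    ring
  simp only [e1] at hpair
  rw [hpair]
  have e2 : mdn (k := k) l (fun z => (a z : ℂ) * Complex.exp (-(Complex.I * (((2 * l + k : ℕ) * τ z : ℝ) : ℂ)))) =
      fun x : E (k + 2) => (fun z : ℝ => (a z : ℂ) *
      Complex.exp (-(Complex.I * (((k : ℝ) * τ z : ℝ) : ℂ)))) (zf x) *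
        (zen x * Complex.exp (-(Complex.I * ((2 * τ (zf x) : ℝ) : ℂ)))) ^ l := by
    funext x
    simp only [mdn]
    rw [mul_pow, ← Complex.exp_nat_mul]
    have : Complex.exp (-(Complex.I * (((2 * l + k : ℕ) * τ (zf x) : ℝ) : ℂ))) =
        Complex.exp (-(Complex.I * (((k : ℝ) * τ (zf x) : ℝ) : ℂ))) *
          Complex.exp ((l : ℂ) * -(Complex.I * ((2 * τ (zf x) : ℝ) : ℂ))) := by
      rw [← Complex.exp_add]
      congr 1
      push_cast
      ring
    rw [this]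
    ring
  have e3 : mdn (k := k) l (fun z => (fj f j z : ℂ)) =
      fun x : E (k + 2) => (fun z : ℝ => (fj f j z : ℂ)) (zf x) * zen x ^ l := by
    funext x
    simp only [mdn]
    ring
  rw [e2, e3, norm_mul, norm_mul]
  have n1 : ‖(((1 / s l : ℝ)) : ℂ)‖ = 1 / s l := by
    rw [Complex.norm_real, Real.norm_eq_abs, abs_of_pos (one_div_pos.2 (hr.s_pos l))]
  have n2 : ‖Complex.exp (Complex.I * ((t * ((l : ℝ) * (l + k)) / 16 : ℝ) : ℂ))‖ = 1 := by
    rw [mul_comm, Complex.norm_exp_ofReal_mul_I]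
  rw [n1, n2, mul_one]
  have hs1 : 1 / s l ≤ (2 * (l : ℝ)) ^ p / c0 := by
    have h1 := hsl l
    have h2 : 0 < (1 + (l : ℝ)) ^ p := by positivity
    have h3 : 1 / s l ≤ (1 + (l : ℝ)) ^ p / c0 := by
      rw [div_le_div_iff₀ (hr.s_pos l) hc0]
      rw [div_le_iff₀ h2] at h1
      linarith
    refine h3.trans ?_
    gcongr
    linarith
  have hC2 := hC l hl
  have hden : (0 : ℝ) < ((2 * l + k : ℕ) : ℝ) := by
    have : 0 < 2 * l + k := by omega
    exact_mod_cast this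
  rw [le_div_iff₀ hden]
  have hkl : (((2 * l + k : ℕ) : ℝ)) ≤ (2 + k : ℝ) * l := by
    push_cast
    have : (0 : ℝ) ≤ k := Nat.cast_nonneg k
    nlinarith
  calc 1 / s l * ‖inner ℂ (toL2 fun x : E (k + 2) => (fun z : ℝ => (a z : ℂ) *
      Complex.exp (-(Complex.I * (((k : ℝ) * τ z : ℝ) : ℂ)))) (zf x) *
        (zen x * Complex.exp (-(Complex.I * ((2 * τ (zf x) : ℝ) : ℂ)))) ^ l)
        (U t (toL2 fun x : E (k + 2) => (fun z : ℝ => (fj f j z : ℂ)) (zf x) * zen x ^ l))‖ *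
          ((2 * l + k : ℕ) : ℝ)
      ≤ ((2 * (l : ℝ)) ^ p / c0) * (C / (l : ℝ) ^ (p + 1)) * ((2 + k : ℝ) * l) := by
        refine mul_le_mul (mul_le_mul hs1 hC2 (norm_nonneg _) (by positivity)) hkl hden.le (by positivity)
    _ = (2 + k : ℝ) * (2 ^ p / c0) * C := by
        rw [mul_pow]
        field_simp
        ring

end N_ogn

end Pool.Agent.Helper459.SK
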