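import Mathlib
import Pool.Agent.Helper459.SK.NDefs
import Pool.Agent.Helper459.SK.L_ogn

set_option autoImplicit false

noncomputable section

open MeasureTheory Set Filter Topology
open scoped ContDiff ComplexConjugate

namespace Pool.Agent.Helper459.SK
open N_ogn

namespace N_orn

theorem orn_T (s : ℝ) (hs : 0 < s) : ∃ d : ℝ, 0 < d ∧ HasDerivAt T d s := by
  have h1 : HasDerivAt (fun x : ℝ => Real.exp (-x⁻¹))
      (Real.exp (-s⁻¹) * (-(-(s ^ 2)⁻¹))) s := ((hasDerivAt_inv hs.ne').neg).exp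
  refine ⟨_, ?_, h1.congr_of_eventuallyEq ?_⟩
  · rw [neg_neg]
    positivity
  · filter_upwards [Ioi_mem_nhds hs] with x hx
    unfold T expNegInvGlue
    rw [if_neg (not_le.mpr hx)]

theorem orn_main (k : ℕ) (U : ℝ → (L2 (k + 2) →L[ℂ] L2 (k + 2))) (f : ℝ → ℝ) (hf : FP f)
    (g : ℕ → ℕ → ℝ → L2z) (s : ℕ → ℝ) (hr : Redn k U f g s)
    (hreg : ∀ t, 0 < t → ∀ p ∈ VVn (k + 2), ∀ q ∈ WWn (k + 2), RegPt (U t) p.1 p.2 q.1 q.2)
    (τ : ℝ → ℝ) (hτ : ContDiff ℝ ∞ τ) (a : ℝ → ℝ) (ha : ContDiff ℝ ∞ a)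
    (lo r L R : ℝ) (hl : 3 < lo) (h1 : L ≤ lo) (h2 : r ≤ R) (h0 : 0 ≤ L) (hLR : L ≤ R)
    (hsupp : ∀ z, z ∉ Ioo lo r → a z = 0) (hd : ∀ z ∈ Icc lo r, 0 < deriv τ z)
    (t : ℝ) (ht : 0 < t) (j : ℕ) :
    ∃ C : ℝ, ∀ l : ℕ, 1 ≤ l →
      ‖∫ z in L..R, (a z : ℂ) * Complex.exp (Complex.I * (((2 * l + k : ℕ) * τ z : ℝ) : ℂ)) *
        (g l j t : ℝ → ℂ) z‖ ≤ C / (2 * l + k : ℕ) := by
  have hts : tsupport a ⊆ Icc lo r := by
    refine closure_minimal ?_ isClosed_Icc
    intro z hz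
    by_contra h
    exact hz (hsupp z (fun h2 => h (Ioo_subset_Icc_self h2)))
  have hcs : HasCompactSupport a := HasCompactSupport.intro (isCompact_Icc (a := lo) (b := r))
    (fun z hz => hsupp z (fun h2 => hz (Ioo_subset_Icc_self h2)))
  obtain ⟨C, hC⟩ := ogn k U f hf g s hr hreg τ hτ a ha hcs
    (fun z hz => lt_of_lt_of_le hl (hts hz).1) (fun z hz => hd z (hts hz)) t ht j
  refine ⟨C, fun m hm => ?_⟩
  have h := hC m hm
  rw [intervalIntegral.integral_of_le hLR]
  rwa [MeasureTheory.setIntegral_eq_of_subset_of_forall_sdiff_eq_zero (s := Ioc L R)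
    measurableSet_Ioi ?_ ?_] at h
  · intro z hz
    exact lt_of_le_of_lt h0 hz.1
  · intro z hz
    have hz' : z ∉ Ioo lo r := by
      intro hz2
      exact hz.2 ⟨lt_of_le_of_lt h1 hz2.1, hz2.2.le.trans h2⟩
    rw [hsupp z hz']
    simp

theorem orn (k : ℕ) (U : ℝ → (L2 (k + 2) →L[ℂ] L2 (k + 2))) (f : ℝ → ℝ) (hf : FP f)
    (g : ℕ → ℕ → ℝ → L2z) (s : ℕ → ℝ) (hr : Redn k U f g s)
    (hreg : ∀ t, 0 < t → ∀ p ∈ VVn (k + 2), ∀ q ∈ WWn (k + 2), RegPt (U t) p.1 p.2 q.1 q.2)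
    (χ : ℝ → ℝ) (hχ : Chi χ) : Osc2 χ (fun l => 2 * l + k) g := by
  have hel : el = 1 / 16 := rfl
  have hχ0 : ∀ x, x ∉ Ioo (el / 2) el → χ x = 0 := by
    intro x hx
    by_contra h
    exact hx (hχ.supp (subset_tsupport _ h))
  have hT : ContDiff ℝ ∞ T := expNegInvGlue.contDiff
  have hder : ∀ c z : ℝ, 0 < z - c → 0 < deriv (fun z => T (z - c)) z := by
    intro c z hz
    obtain ⟨d, hd, hTd⟩ := orn_T (z - c) hz
    have h1 : HasDerivAt (fun z => T (z - c)) (d * 1) z :=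
      HasDerivAt.comp z hTd ((hasDerivAt_id z).sub_const c)
    rw [h1.deriv, mul_one]
    exact hd
  have hder2 : ∀ c z : ℝ, 0 < c - z → 0 < deriv (fun z => -T (c - z)) z := by
    intro c z hz
    obtain ⟨d, hd, hTd⟩ := orn_T (c - z) hz
    have h1 : HasDerivAt (fun z => T (c - z)) (d * (-1)) z :=
      HasDerivAt.comp z hTd ((hasDerivAt_id z).const_sub c)
    have h2 : HasDerivAt (fun z => -T (c - z)) (-(d * (-1))) z := h1.neg
    rw [h2.deriv]
    linarith
  refine ⟨?_, ?_, ?_⟩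
  · intro t ht j
    refine orn_main k U f hf g s hr hreg (fun z => T (z - 3))
      (hT.comp (contDiff_id.sub contDiff_const)) (fun z => χ (z - 3))
      (hχ.smooth.comp (contDiff_id.sub contDiff_const)) (3 + el / 2) (3 + el) 3 (3 + el)
      (by rw [hel]; norm_num) (by rw [hel]; norm_num) le_rfl (by norm_num)
      (by rw [hel]; norm_num) ?_ ?_ t ht j
    · intro z hz
      refine hχ0 _ ?_
      intro h
      exact hz ⟨by linarith [h.1], by linarith [h.2]⟩
    · intro z hz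
      refine hder 3 z ?_
      have := hz.1
      rw [hel] at this
      linarith
  · intro t ht j
    have hA : ∀ z, z ∉ Ioo (13 / 4 - el) (13 / 4 - el / 2) → χ (13 / 4 - z) = 0 := by
      intro z hz
      refine hχ0 _ ?_
      intro h
      exact hz ⟨by linarith [h.2], by linarith [h.1]⟩
    have hB : ∀ z ∈ Icc (13 / 4 - el) (13 / 4 - el / 2),
        0 < deriv (fun z => -T (13 / 4 - z)) z := by
      intro z hz
      refine hder2 (13 / 4) z ?_
      have := hz.2
      rw [hel] at this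
      linarith
    obtain ⟨C, hC⟩ := orn_main k U f hf g s hr hreg (fun z => -T (13 / 4 - z))
      (hT.comp (contDiff_const.sub contDiff_id)).neg (fun z => χ (13 / 4 - z))
      (hχ.smooth.comp (contDiff_const.sub contDiff_id)) (13 / 4 - el) (13 / 4 - el / 2)
      (13 / 4 - el) (13 / 4)
      (by rw [hel]; norm_num) le_rfl (by rw [hel]; norm_num) (by rw [hel]; norm_num)
      (by rw [hel]; norm_num) hA hB t ht j
    refine ⟨C, fun m hm => ?_⟩
    have h := hC m hm
    have he : ∀ z : ℝ, Complex.exp (Complex.I * (((2 * m + k : ℕ) * -T (13 / 4 - z) : ℝ) : ℂ)) =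
        Complex.exp (-(Complex.I * (((2 * m + k : ℕ) * T (13 / 4 - z) : ℝ) : ℂ))) := by
      intro z
      congr 1
      push_cast
      ring
    simp_rw [he] at h
    exact h
  · intro t ht j
    refine orn_main k U f hf g s hr hreg (fun z => T (z - 17 / 4))
      (hT.comp (contDiff_id.sub contDiff_const)) (fun z => χ (z - 17 / 4))
      (hχ.smooth.comp (contDiff_id.sub contDiff_const)) (17 / 4 + el / 2) (17 / 4 + el) (17 / 4)
      (17 / 4 + el)
      (by rw [hel]; norm_num) (by rw [hel]; norm_num) le_rfl (by norm_num)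
      (by rw [hel]; norm_num) ?_ ?_ t ht j
    · intro z hz
      refine hχ0 _ ?_
      intro h
      exact hz ⟨by linarith [h.1], by linarith [h.2]⟩
    · intro z hz
      refine hder (17 / 4) z ?_
      have := hz.1
      rw [hel] at this
      linarith

end N_orn

end Pool.Agent.Helper459.SK
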