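import Mathlib
import Pool.Agent.Helper459.SK.NDefs

set_option autoImplicit false

noncomputable section

open MeasureTheory Set Filter Topology
open scoped ContDiff ComplexConjugate

namespace Pool.Agent.Helper459.SK

namespace N_pmn

def iN {n : ℕ} (y : E n) : ℂ := (((‖y‖)⁻¹ : ℝ) : ℂ)
def ZZ {k : ℕ} (y : E (k + 2)) : ℂ := (y 0 : ℂ) + Complex.I * (y 1 : ℂ)
def ee {k : ℕ} (j : Fin (k + 2)) : ℂ := ZZ (EuclideanSpace.single j (1 : ℝ))

theorem hasInvN {n : ℕ} (x : E n) (hx : x ≠ 0) :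
    HasFDerivAt (fun y : E n => (‖y‖)⁻¹) ((-(‖x‖ ^ 3)⁻¹) • innerSL ℝ x) x := by
  have hn : ‖x‖ ≠ 0 := norm_ne_zero_iff.2 hx
  have h1 := (hasStrictFDerivAt_norm_sq x).hasFDerivAt
  have h2 := h1.sqrt (pow_ne_zero 2 hn)
  have e1 : (fun y : E n => Real.sqrt (‖y‖ ^ 2)) = fun y : E n => ‖y‖ := by
    funext y; exact Real.sqrt_sq (norm_nonneg y)
  rw [e1] at h2
  have h3 := (hasDerivAt_inv hn).comp_hasFDerivAt x h2
  have e2 : (fun y : ℝ => y⁻¹) ∘ (fun y : E n => ‖y‖) = fun y : E n => (‖y‖)⁻¹ := rfl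
  refine (h3.congr_fderiv ?_)
  ext v
  simp only [ContinuousLinearMap.smul_apply, innerSL_apply_apply, smul_eq_mul, Real.sqrt_sq (norm_nonneg x)]
  field_simp
  try ring

theorem d_line {n : ℕ} (x v : E n) : HasDerivAt (fun t : ℝ => x + t • v) v 0 := by
  simpa using ((hasDerivAt_id (0 : ℝ)).smul_const v).const_add x

theorem d_iN {n : ℕ} (x : E n) (hx : x ≠ 0) (j : Fin n) :
    HasDerivAt (fun t : ℝ => iN (x + t • (EuclideanSpace.single j (1 : ℝ) : E n)))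
      (-(iN x) ^ 3 * (x j : ℂ)) 0 := by
  have hl := d_line x (EuclideanSpace.single j (1 : ℝ))
  have h1 : HasFDerivAt (fun y : E n => (‖y‖)⁻¹) ((-(‖x‖ ^ 3)⁻¹) • innerSL ℝ x)
      (x + (0 : ℝ) • (EuclideanSpace.single j (1 : ℝ) : E n)) := by simpa using hasInvN x hx
  have h2 := h1.comp_hasDerivAt (0 : ℝ) hl
  have h3 := h2.ofReal_comp
  have e : (((((-(‖x‖ ^ 3)⁻¹) • innerSL ℝ x) (EuclideanSpace.single j (1 : ℝ) : E n)) : ℝ) : ℂ) =
      -(iN x) ^ 3 * (x j : ℂ) := by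
    simp only [ContinuousLinearMap.smul_apply, innerSL_apply_apply, smul_eq_mul, iN,
      EuclideanSpace.inner_single_right]
    push_cast
    simp
  rw [← e]
  exact h3

theorem d_ZZ {k : ℕ} (x : E (k + 2)) (j : Fin (k + 2)) :
    HasDerivAt (fun t : ℝ => ZZ (x + t • (EuclideanSpace.single j (1 : ℝ) : E (k + 2)))) (ee j) 0 := by
  have e : (fun t : ℝ => ZZ (x + t • (EuclideanSpace.single j (1 : ℝ) : E (k + 2)))) =
      fun t : ℝ => ZZ x + (t : ℂ) * ee j := by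
    funext t
    simp only [ZZ, ee, PiLp.add_apply, PiLp.smul_apply, smul_eq_mul]
    push_cast
    ring
  rw [e]
  simpa using (((hasDerivAt_id (0 : ℝ)).ofReal_comp).mul_const (ee j)).const_add (ZZ x)

theorem d_co {n : ℕ} (x : E n) (j : Fin n) :
    HasDerivAt (fun t : ℝ => (((x + t • (EuclideanSpace.single j (1 : ℝ) : E n)) j : ℝ) : ℂ)) 1 0 := by
  have e : (fun t : ℝ => (((x + t • (EuclideanSpace.single j (1 : ℝ) : E n)) j : ℝ) : ℂ)) =
      fun t : ℝ => (x j : ℂ) + (t : ℂ) := by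
    funext t
    simp
  rw [e]
  simpa using ((hasDerivAt_id (0 : ℝ)).ofReal_comp).const_add (x j : ℂ)

theorem pd_of_line {n : ℕ} {u : E n → ℂ} {x : E n} (hu : DifferentiableAt ℝ u x) {j : Fin n} {d : ℂ}
    (h : HasDerivAt (fun t : ℝ => u (x + t • (EuclideanSpace.single j (1 : ℝ) : E n))) d 0) :
    pd j u x = d := by
  have hl := d_line x (EuclideanSpace.single j (1 : ℝ))
  have h1 : HasFDerivAt u (fderiv ℝ u x) (x + (0 : ℝ) • (EuclideanSpace.single j (1 : ℝ) : E n)) := by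
    simpa using hu.hasFDerivAt
  exact (h1.comp_hasDerivAt (0 : ℝ) hl).unique h

theorem cd_ZZ {k : ℕ} : ContDiff ℝ ∞ (fun y : E (k + 2) => ZZ y) := by
  let L0 : E (k + 2) →L[ℝ] ℂ := Complex.ofRealCLM.comp (EuclideanSpace.proj (0 : Fin (k + 2)))
  let L1 : E (k + 2) →L[ℝ] ℂ := Complex.ofRealCLM.comp (EuclideanSpace.proj (1 : Fin (k + 2)))
  let LZ : E (k + 2) →L[ℝ] ℂ := L0 + Complex.I • L1
  have : (fun y : E (k + 2) => ZZ y) = fun y => LZ y := rfl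
  rw [this]
  exact LZ.contDiff

theorem cd_co {n : ℕ} (j : Fin n) : ContDiff ℝ ∞ (fun y : E n => ((y j : ℝ) : ℂ)) := by
  let L0 : E n →L[ℝ] ℂ := Complex.ofRealCLM.comp (EuclideanSpace.proj j)
  have : (fun y : E n => ((y j : ℝ) : ℂ)) = fun y => L0 y := rfl
  rw [this]
  exact L0.contDiff

theorem cd_iN {n : ℕ} (x : E n) (hx : x ≠ 0) : ContDiffAt ℝ ∞ (fun y : E n => iN y) x := by
  have h1 : ContDiffAt ℝ ∞ (fun y : E n => ‖y‖) x := contDiffAt_norm ℝ hx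
  have h2 : ContDiffAt ℝ ∞ (fun y : E n => (‖y‖)⁻¹) x := h1.inv (norm_ne_zero_iff.2 hx)
  exact Complex.ofRealCLM.contDiff.contDiffAt.comp x h2

theorem zen_eq {k : ℕ} (y : E (k + 2)) : zen y = ZZ y * iN y := by
  rw [zen, iN, ZZ, Complex.ofReal_inv, div_eq_mul_inv]

def u1 {k : ℕ} (l : ℕ) (j : Fin (k + 2)) (y : E (k + 2)) : ℂ :=
  (l : ℂ) * (ZZ y * iN y) ^ (l - 1) * (ee j * iN y - ZZ y * (y j : ℂ) * iN y ^ 3)

theorem cd_zen {k : ℕ} (l : ℕ) (x : E (k + 2)) (hx : x ≠ 0) :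
    ContDiffAt ℝ ∞ (fun y : E (k + 2) => zen y ^ l) x := by
  simp only [zen_eq]
  exact (cd_ZZ.contDiffAt.mul (cd_iN x hx)).pow l

theorem d_zl {k : ℕ} (l : ℕ) (x : E (k + 2)) (hx : x ≠ 0) (j : Fin (k + 2)) :
    HasDerivAt (fun t : ℝ => (ZZ (x + t • (EuclideanSpace.single j (1 : ℝ) : E (k + 2))) *
      iN (x + t • (EuclideanSpace.single j (1 : ℝ) : E (k + 2)))) ^ l) (u1 l j x) 0 := by
  have h1 := ((d_ZZ x j).mul (d_iN x hx j)).pow l
  refine h1.congr_deriv ?_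
  simp only [Pi.mul_apply, zero_smul, add_zero, u1]
  ring

theorem pd1 {k : ℕ} (l : ℕ) (x : E (k + 2)) (hx : x ≠ 0) (j : Fin (k + 2)) :
    pd j (fun y : E (k + 2) => zen y ^ l) x = u1 l j x := by
  refine pd_of_line ((cd_zen l x hx).differentiableAt (by simp)) ?_
  simp only [zen_eq]
  exact d_zl l x hx j

def u2 {k : ℕ} (l : ℕ) (j : Fin (k + 2)) (x : E (k + 2)) : ℂ :=
  (l : ℂ) * (((l - 1 : ℕ) : ℂ) * (ZZ x * iN x) ^ (l - 1 - 1) *
    (ee j * iN x - ZZ x * (x j : ℂ) * iN x ^ 3)) * (ee j * iN x - ZZ x * (x j : ℂ) * iN x ^ 3) +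
  (l : ℂ) * (ZZ x * iN x) ^ (l - 1) *
    (-2 * (ee j * (x j : ℂ)) * iN x ^ 3 - ZZ x * iN x ^ 3 + 3 * ZZ x * (x j : ℂ) ^ 2 * iN x ^ 5)

theorem pd2 {k : ℕ} (l : ℕ) (x : E (k + 2)) (hx : x ≠ 0) (j : Fin (k + 2)) :
    pd j (u1 (k := k) l j) x = u2 l j x := by
  have hd : DifferentiableAt ℝ (u1 (k := k) l j) x := by
    have hZ : DifferentiableAt ℝ (fun y : E (k + 2) => ZZ y) x :=
      cd_ZZ.contDiffAt.differentiableAt (by simp)
    have hI : DifferentiableAt ℝ (fun y : E (k + 2) => iN y) x :=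
      (cd_iN x hx).differentiableAt (by simp)
    have hc : DifferentiableAt ℝ (fun y : E (k + 2) => ((y j : ℝ) : ℂ)) x :=
      (cd_co j).contDiffAt.differentiableAt (by simp)
    unfold u1
    exact (((hZ.mul hI).pow (l - 1)).const_mul (l : ℂ)).mul
      ((hI.const_mul (ee j)).sub ((hZ.mul hc).mul (hI.pow 3)))
  refine pd_of_line hd ?_
  have hz := (d_zl (l - 1) x hx j).const_mul (l : ℂ)
  have hI := d_iN x hx j
  have hZ := d_ZZ x j
  have hc := d_co x j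
  have h := hz.mul ((hI.const_mul (ee j)).sub ((hZ.mul hc).mul (hI.pow 3)))
  refine h.congr_deriv ?_
  simp only [Pi.mul_apply, Pi.sub_apply, Pi.pow_apply, zero_smul, add_zero, u1, u2]
  push_cast
  ring

theorem ee_eq {k : ℕ} (j : Fin (k + 2)) : ee j = (if (0 : Fin (k + 2)) = j then (1 : ℂ) else 0) +
    Complex.I * (if (1 : Fin (k + 2)) = j then (1 : ℂ) else 0) := by
  simp only [ee, ZZ, EuclideanSpace.single_apply]
  split_ifs <;> simp

theorem sum_ee2 {k : ℕ} : ∑ j : Fin (k + 2), ee j ^ 2 = 0 := by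
  have h01 : (0 : Fin (k + 2)) ≠ 1 := by
    intro h
    have := congrArg Fin.val h
    simp at this
  have h : ∀ j : Fin (k + 2), ee j ^ 2 = (if (0 : Fin (k + 2)) = j then (1 : ℂ) else 0) -
      (if (1 : Fin (k + 2)) = j then (1 : ℂ) else 0) := by
    intro j
    rw [ee_eq]
    by_cases h0 : (0 : Fin (k + 2)) = j
    · have h1 : (1 : Fin (k + 2)) ≠ j := by rintro rfl; exact h01 h0
      simp [h0, h1]
    · by_cases h1 : (1 : Fin (k + 2)) = j
      · simp [h0, h1]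
      · simp [h0, h1]
  rw [Finset.sum_congr rfl fun j _ => h j, Finset.sum_sub_distrib]
  simp

theorem sum_eex {k : ℕ} (x : E (k + 2)) : ∑ j, ee j * (x j : ℂ) = ZZ x := by
  have h : ∀ j : Fin (k + 2), ee j * (x j : ℂ) = (if (0 : Fin (k + 2)) = j then (x j : ℂ) else 0) +
      (if (1 : Fin (k + 2)) = j then Complex.I * (x j : ℂ) else 0) := by
    intro j
    rw [ee_eq]
    split_ifs <;> ring
  rw [Finset.sum_congr rfl fun j _ => h j, Finset.sum_add_distrib]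
  simp [ZZ]

theorem sum_xx {n : ℕ} (x : E n) (hx : x ≠ 0) : (∑ j, (x j : ℂ) ^ 2) * iN x ^ 2 = 1 := by
  have hn : ((‖x‖ : ℝ) : ℂ) ≠ 0 := by exact_mod_cast norm_ne_zero_iff.2 hx
  have h1 : ∑ j, (x j : ℂ) ^ 2 = ((‖x‖ : ℝ) : ℂ) ^ 2 := by
    have h := EuclideanSpace.norm_sq_eq x
    have h2 : ‖x‖ ^ 2 = ∑ j, x j ^ 2 := by
      rw [h]
      exact Finset.sum_congr rfl fun j _ => by rw [Real.norm_eq_abs, sq_abs]
    have h3 := congrArg (fun r : ℝ => (r : ℂ)) h2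
    simp only [Complex.ofReal_pow, Complex.ofReal_sum] at h3
    exact h3.symm
  rw [h1, iN, Complex.ofReal_inv]
  field_simp

theorem pmn {k : ℕ} (l : ℕ) (x : E (k + 2)) (hx : x ≠ 0) :
    ContDiffAt ℝ ∞ (fun y : E (k + 2) => zen y ^ l) x ∧
    ∑ j, (x j : ℂ) * pd j (fun y : E (k + 2) => zen y ^ l) x = 0 ∧
    ∑ j, pd j (fun y => pd j (fun y : E (k + 2) => zen y ^ l) y) x =
      -((l : ℂ) * (l + k)) / ((‖x‖ ^ 2 : ℝ) : ℂ) * zen x ^ l := by
  have hb := sum_xx x hx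
  set a := ZZ x with ha
  set b := iN x with hb'
  refine ⟨cd_zen l x hx, ?_, ?_⟩
  · have h1 : ∀ j, (x j : ℂ) * pd j (fun y : E (k + 2) => zen y ^ l) x =
        (l : ℂ) * (a * b) ^ (l - 1) * b * (ee j * (x j : ℂ)) -
          (l : ℂ) * (a * b) ^ (l - 1) * a * b ^ 3 * (x j : ℂ) ^ 2 := by
      intro j
      rw [pd1 l x hx j, u1]
      ring
    rw [Finset.sum_congr rfl fun j _ => h1 j, Finset.sum_sub_distrib, ← Finset.mul_sum,
      ← Finset.mul_sum, sum_eex]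
    linear_combination (-(l : ℂ) * (a * b) ^ (l - 1) * a * b) * hb
  · have h1 : ∀ j, pd j (fun y => pd j (fun y : E (k + 2) => zen y ^ l) y) x = u2 l j x := by
      intro j
      rw [← pd2 l x hx j]
      unfold pd
      refine congrArg (fun L : E (k + 2) →L[ℝ] ℂ => L (EuclideanSpace.single j 1)) ?_
      refine Filter.EventuallyEq.fderiv_eq ?_
      filter_upwards [isOpen_ne.mem_nhds hx] with y hy
      exact pd1 l y hy j
    have h2 : ∀ j, u2 l j x = ((l : ℂ) * (((l - 1 : ℕ) : ℂ) * (a * b) ^ (l - 1 - 1))) * b ^ 2 * ee j ^ 2 -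
        2 * ((l : ℂ) * (((l - 1 : ℕ) : ℂ) * (a * b) ^ (l - 1 - 1))) * a * b ^ 4 * (ee j * (x j : ℂ)) +
        ((l : ℂ) * (((l - 1 : ℕ) : ℂ) * (a * b) ^ (l - 1 - 1))) * a ^ 2 * b ^ 6 * (x j : ℂ) ^ 2 -
        2 * (l : ℂ) * (a * b) ^ (l - 1) * b ^ 3 * (ee j * (x j : ℂ)) -
        (l : ℂ) * (a * b) ^ (l - 1) * a * b ^ 3 +
        3 * (l : ℂ) * (a * b) ^ (l - 1) * a * b ^ 5 * (x j : ℂ) ^ 2 := by
      intro j
      rw [u2]
      ring
    rw [Finset.sum_congr rfl fun j _ => (h1 j).trans (h2 j)]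
    simp only [Finset.sum_add_distrib, Finset.sum_sub_distrib, ← Finset.mul_sum, Finset.sum_const,
      sum_ee2, sum_eex, Finset.card_univ, Fintype.card_fin, nsmul_eq_mul]
    have hz : zen x ^ l = (a * b) ^ l := by rw [zen_eq]
    have hn : (((‖x‖ ^ 2 : ℝ) : ℂ))⁻¹ = b ^ 2 := by
      rw [hb', iN]; push_cast; rw [inv_pow]
    rw [hz, div_eq_mul_inv, hn]
    rcases l with _ | _ | l
    · simp
    · simp only [Nat.cast_one, zero_add, Nat.sub_self, pow_zero, Nat.cast_zero, pow_one]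
      push_cast
      linear_combination (3 * a * b ^ 3) * hb
    · have e1 : l + 1 + 1 - 1 = l + 1 := by omega
      have e2 : l + 1 - 1 = l := by omega
      rw [e1, e2]
      push_cast
      linear_combination (((l : ℂ) + 1 + 1) * (((l : ℂ) + 1) * (a * b) ^ l) * a ^ 2 * b ^ 4 +
        3 * ((l : ℂ) + 1 + 1) * (a * b) ^ (l + 1) * a * b ^ 3) * hb

end N_pmn

end Pool.Agent.Helper459.SK
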