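import Mathlib
import Pool.Agent.Helper459.SK.NDefs
import Pool.Agent.Helper459.SK.L_pmn
import Pool.Agent.Helper459.SK.L_an_formula
import Pool.Agent.Helper459.SK.L_wn_pos
import Pool.Agent.Helper459.SK.L_an_smooth

set_option autoImplicit false

noncomputable section

open MeasureTheory Set Filter Topology
open scoped ContDiff ComplexConjugate

namespace Pool.Agent.Helper459.SK
open N_pmn
open N_an_formula
open N_wn_pos
open N_an_smooth

namespace N_pon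


theorem pm_pd_congr {n : ℕ} {u v : E n → ℂ} {x : E n} (j : Fin n) (h : u =ᶠ[𝓝 x] v) : pd j u x = pd j v x := by
  unfold pd
  rw [h.fderiv_eq]

theorem pm_pd_mul {n : ℕ} {u v : E n → ℂ} {x : E n} (j : Fin n) (hu : DifferentiableAt ℝ u x) (hv : DifferentiableAt ℝ v x) :
    pd j (fun y => u y * v y) x = pd j u x * v x + u x * pd j v x := by
  unfold pd
  have := (hu.hasFDerivAt.mul hv.hasFDerivAt).fderiv
  have h2 : fderiv ℝ (fun y => u y * v y) x = u x • fderiv ℝ v x + v x • fderiv ℝ u x := this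
  rw [h2]
  simp only [_root_.add_apply, _root_.smul_apply, smul_eq_mul]
  ring

theorem pm_pd_add {n : ℕ} {u v : E n → ℂ} {x : E n} (j : Fin n) (hu : DifferentiableAt ℝ u x) (hv : DifferentiableAt ℝ v x) :
    pd j (fun y => u y + v y) x = pd j u x + pd j v x := by
  unfold pd
  have := (hu.hasFDerivAt.add hv.hasFDerivAt).fderiv
  have h2 : fderiv ℝ (fun y => u y + v y) x = fderiv ℝ u x + fderiv ℝ v x := this
  rw [h2]
  simp only [_root_.add_apply]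

theorem pm_pd_const {n : ℕ} (j : Fin n) (c : ℂ) (x : E n) : pd j (fun _ : E n => c) x = 0 := by
  unfold pd
  simp

theorem pm_pd_sum {n : ℕ} {u : Fin n → E n → ℂ} {x : E n} (j : Fin n) (hu : ∀ i, DifferentiableAt ℝ (u i) x) :
    pd j (fun y => ∑ i, u i y) x = ∑ i, pd j (u i) x := by
  unfold pd
  have h := (HasFDerivAt.fun_sum (u := Finset.univ) (fun i _ => (hu i).hasFDerivAt)).fderiv
  rw [h]
  simp

def pm_cl {n : ℕ} (i : Fin n) : E n →L[ℝ] ℂ := Complex.ofRealCLM.comp (EuclideanSpace.proj i)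

theorem pm_cl_apply {n : ℕ} (i : Fin n) (y : E n) : pm_cl i y = (y i : ℂ) := rfl

theorem pm_coord_diff {n : ℕ} (i : Fin n) (x : E n) : DifferentiableAt ℝ (fun y : E n => (y i : ℂ)) x :=
  (pm_cl i).differentiableAt

theorem pm_pd_coord {n : ℕ} (i j : Fin n) (x : E n) : pd j (fun y : E n => (y i : ℂ)) x = if i = j then 1 else 0 := by
  unfold pd
  have : fderiv ℝ (fun y : E n => (y i : ℂ)) x = pm_cl i := (pm_cl i).fderiv
  rw [this, pm_cl_apply]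
  by_cases h : i = j
  · subst h
    simp
  · rw [if_neg h]
    simp [h]

theorem pm_smooth_pd {n : ℕ} {u : E n → ℂ} {x : E n} (j : Fin n) (hu : ContDiffAt ℝ ∞ u x) :
    ContDiffAt ℝ ∞ (fun y => pd j u y) x := by
  unfold pd
  exact (hu.fderiv_right (m := ∞) (by simp)).clm_apply contDiffAt_const

/-- radial derivative -/
theorem pm_pd_rad {n : ℕ} {f : E n → ℝ} {x : E n} {c : ℝ} (hf : HasFDerivAt f (c • innerSL ℝ x) x) (j : Fin n) :
    pd j (fun y => (f y : ℂ)) x = ((c * x j : ℝ) : ℂ) := by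
  unfold pd
  have h1 : HasFDerivAt (fun y => (f y : ℂ)) (Complex.ofRealCLM.comp (c • innerSL ℝ x)) x :=
    Complex.ofRealCLM.hasFDerivAt.comp x hf
  rw [h1.fderiv]
  simp [EuclideanSpace.inner_single_right]

theorem zf_rad {k : ℕ} (x : E (k + 2)) : HasFDerivAt (zf : E (k + 2) → ℝ) (‖x‖ ^ k • innerSL ℝ x) x := by
  have h1 := hasFDerivAt_norm_rpow x (p := ((k + 2 : ℕ) : ℝ)) (by push_cast; have : (0:ℝ) ≤ k := Nat.cast_nonneg k; linarith)
  have h2 := h1.mul_const ((((k + 2 : ℕ) : ℝ))⁻¹)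
  have e1 : (fun y : E (k + 2) => ‖y‖ ^ (((k + 2 : ℕ) : ℝ)) * (((k + 2 : ℕ) : ℝ))⁻¹) = (zf : E (k + 2) → ℝ) := by
    funext y
    unfold zf
    rw [Real.rpow_natCast, div_eq_mul_inv]
  rw [e1] at h2
  refine h2.congr_fderiv ?_
  rw [smul_smul]
  congr 1
  have e2 : (((k + 2 : ℕ) : ℝ)) - 2 = ((k : ℕ) : ℝ) := by push_cast; ring
  rw [e2, Real.rpow_natCast]
  have : (((k + 2 : ℕ) : ℝ)) ≠ 0 := by positivity
  field_simp

theorem nsq_rad {n : ℕ} (x : E n) : HasFDerivAt (fun y : E n => ‖y‖ ^ 2) ((2 : ℝ) • innerSL ℝ x) x :=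
  by
  have h := (hasStrictFDerivAt_norm_sq x).hasFDerivAt
  refine h.congr_fderiv ?_
  rw [← Nat.cast_smul_eq_nsmul ℝ]
  norm_num

theorem comp_rad {k : ℕ} {g : ℝ → ℝ} {g' : ℝ} {x : E (k + 2)} (hg : HasDerivAt g g' (zf x)) :
    HasFDerivAt (fun y : E (k + 2) => g (zf y)) ((g' * ‖x‖ ^ k) • innerSL ℝ x) x := by
  have h1 := hg.comp_hasFDerivAt x (zf_rad x)
  rw [smul_smul] at h1
  exact h1

theorem mul_rad {n : ℕ} {f g : E n → ℝ} {x : E n} {c d : ℝ} (hf : HasFDerivAt f (c • innerSL ℝ x) x)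
    (hg : HasFDerivAt g (d • innerSL ℝ x) x) :
    HasFDerivAt (fun y => f y * g y) ((f x * d + g x * c) • innerSL ℝ x) x := by
  have h1 := hf.mul hg
  rw [smul_smul, smul_smul, ← add_smul] at h1
  exact h1

theorem zf_cont {k : ℕ} : Continuous (zf : E (k + 2) → ℝ) := by
  unfold zf
  fun_prop

theorem pm_region_open {k : ℕ} : IsOpen {y : E (k + 2) | zf y ∈ Ioo (3 / 2 : ℝ) (9 / 2)} :=
  isOpen_Ioo.preimage zf_cont

theorem pm_ne {k : ℕ} {y : E (k + 2)} (hy : zf y ∈ Ioo (3 / 2 : ℝ) (9 / 2)) : y ≠ 0 := by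
  rintro rfl
  have := hy.1
  unfold zf at this
  simp at this
  linarith

theorem pm_nsq {n : ℕ} (y : E n) : ∑ l, ((y l : ℝ) : ℂ) * ((y l : ℝ) : ℂ) = ((‖y‖ ^ 2 : ℝ) : ℂ) := by
  rw [EuclideanSpace.norm_sq_eq]
  push_cast
  apply Finset.sum_congr rfl
  intro l _
  rw [Real.norm_eq_abs]
  rw [← pow_two]
  norm_cast
  rw [sq_abs]

def Pc {k : ℕ} (h : ℝ → ℝ) (y : E (k + 2)) : ℝ := ‖y‖ ^ 2 * (vn (k + 2) (zf y) * h (zf y))
def Qg (k : ℕ) (h : ℝ → ℝ) (z : ℝ) : ℝ := deriv h z / (((k + 2 : ℕ) : ℝ) * z)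
def Ww {k : ℕ} (l : ℕ) (h : ℝ → ℝ) (j : Fin (k + 2)) (y : E (k + 2)) : ℂ :=
  ((Pc h y : ℝ) : ℂ) * pd j (fun y : E (k + 2) => zen y ^ l) y +
    ((Qg k h (zf y) : ℝ) : ℂ) * (zen y ^ l * (y j : ℂ))

theorem pm_deriv_smooth (h : ℝ → ℝ) (hh : ContDiff ℝ ∞ h) : ContDiff ℝ ∞ (deriv h) :=
  (contDiff_infty_iff_deriv.1 hh).2

theorem pm_hd (h : ℝ → ℝ) (hh : ContDiff ℝ ∞ h) (z : ℝ) : HasDerivAt h (deriv h z) z :=
  ((hh.differentiable (by simp)) z).hasDerivAt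

theorem pm_cdiff {n : ℕ} {f : E n → ℝ} {x : E n} (hf : DifferentiableAt ℝ f x) :
    DifferentiableAt ℝ (fun y => (f y : ℂ)) x :=
  Complex.ofRealCLM.differentiableAt.comp x hf

theorem pm_pdu {k : ℕ} (l : ℕ) (h : ℝ → ℝ) (hh : ContDiff ℝ ∞ h) (y : E (k + 2)) (hy : y ≠ 0)
    (i : Fin (k + 2)) :
    pd i (mdn l (fun z => (h z : ℂ))) y = pd i (fun y : E (k + 2) => zen y ^ l) y * (h (zf y) : ℂ) +
      zen y ^ l * (((deriv h (zf y) * ‖y‖ ^ k) * y i : ℝ) : ℂ) := by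
  have h1 : DifferentiableAt ℝ (fun y : E (k + 2) => zen y ^ l) y :=
    (pmn l y hy).1.differentiableAt (by simp)
  have h2 := comp_rad (x := y) (pm_hd h hh (zf y))
  have h3 := pm_cdiff h2.differentiableAt
  have h4 := pm_pd_mul i h1 h3
  rw [pm_pd_rad h2 i] at h4
  exact h4

theorem pm_coef {k : ℕ} (y : E (k + 2)) (hy : zf y ∈ Ioo (3 / 2 : ℝ) (9 / 2)) :
    (Bn y + Dn y * ‖y‖ ^ 2) * ‖y‖ ^ k = 1 / (((k + 2 : ℕ) : ℝ) * zf y) := by
  have hy0 : 0 < ‖y‖ := norm_pos_iff.mpr (pm_ne hy)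
  have hal : aln (k + 2) (zf y) = 1 := (wn_pos (k + 2) (by omega)).2.2.2.1 _ ⟨hy.1.le, hy.2.le⟩
  unfold Bn Dn
  rw [hal]
  have e1 : ((k + 2 : ℕ) : ℝ) * zf y = ‖y‖ ^ (k + 2) := by
    unfold zf
    have : (((k + 2 : ℕ) : ℝ)) ≠ 0 := by positivity
    field_simp
  rw [e1]
  have e2 : 2 * (k + 2) - 2 = k + (k + 2) := by omega
  rw [e2, pow_add]
  have h2 : ‖y‖ ^ 2 ≠ 0 := by positivity
  have h3 : ‖y‖ ^ k ≠ 0 := by positivity
  have h4 : ‖y‖ ^ (k + 2) ≠ 0 := by positivity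
  rw [div_mul_cancel₀ _ h2]
  field_simp
  ring

theorem pm_W {k : ℕ} (l : ℕ) (h : ℝ → ℝ) (hh : ContDiff ℝ ∞ h) (y : E (k + 2))
    (hy : zf y ∈ Ioo (3 / 2 : ℝ) (9 / 2)) (j : Fin (k + 2)) :
    ∑ i, (An (k + 2) y j i : ℂ) * pd i (mdn l (fun z => (h z : ℂ))) y = Ww l h j y := by
  have hy0 := pm_ne hy
  obtain ⟨-, hxY, -⟩ := pmn l y hy0
  have e1 : ∀ i, (An (k + 2) y j i : ℂ) * pd i (mdn l (fun z => (h z : ℂ))) y =
      (if j = i then (Bn y : ℂ) * pd i (mdn l (fun z => (h z : ℂ))) y else 0) +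
      (((Dn y * y j : ℝ) : ℂ) * (h (zf y) : ℂ)) * ((y i : ℂ) * pd i (fun y : E (k + 2) => zen y ^ l) y) +
      (((Dn y * y j : ℝ) : ℂ) * zen y ^ l * ((deriv h (zf y) * ‖y‖ ^ k : ℝ) : ℂ)) * ((y i : ℂ) * (y i : ℂ)) := by
    intro i
    rw [(an_formula (k + 2) (by omega) y hy0 j i).1, pm_pdu l h hh y hy0 i]
    by_cases hji : j = i
    · subst hji
      rw [if_pos rfl, if_pos rfl]
      push_cast
      ring
    · rw [if_neg hji, if_neg hji]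
      push_cast
      ring
  rw [Finset.sum_congr rfl (fun i _ => e1 i), Finset.sum_add_distrib, Finset.sum_add_distrib,
    Finset.sum_ite_eq, if_pos (Finset.mem_univ _), ← Finset.mul_sum, ← Finset.mul_sum, hxY, pm_nsq,
    pm_pdu l h hh y hy0 j]
  have hc := pm_coef y hy
  unfold Ww Pc Qg
  have hQ : ((deriv h (zf y) / (((k + 2 : ℕ) : ℝ) * zf y) : ℝ) : ℂ) =
      (((Bn y + Dn y * ‖y‖ ^ 2) * ‖y‖ ^ k * deriv h (zf y) : ℝ) : ℂ) := by
    rw [hc]; congr 1; ring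
  rw [hQ]
  have hB : Bn y = ‖y‖ ^ 2 * vn (k + 2) (zf y) := rfl
  rw [show ‖y‖ ^ 2 * (vn (k + 2) (zf y) * h (zf y)) = Bn y * h (zf y) by rw [hB]; ring]
  push_cast
  ring

theorem zf_smooth {k : ℕ} (x : E (k + 2)) (hx : x ≠ 0) : ContDiffAt ℝ ∞ (zf : E (k + 2) → ℝ) x := by
  unfold zf
  exact ((contDiffAt_norm ℝ hx).pow (k + 2)).div_const _

theorem pm_usmooth {k : ℕ} (l : ℕ) (h : ℝ → ℝ) (hh : ContDiff ℝ ∞ h) (x : E (k + 2)) (hx : x ≠ 0) :
    ContDiffAt ℝ ∞ (mdn (k := k) l (fun z => (h z : ℂ))) x := by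
  have h1 : ContDiffAt ℝ ∞ (fun y : E (k + 2) => h (zf y)) x := hh.contDiffAt.comp x (zf_smooth x hx)
  have h2 : ContDiffAt ℝ ∞ (fun y : E (k + 2) => (h (zf y) : ℂ)) x :=
    Complex.ofRealCLM.contDiff.contDiffAt.comp x h1
  exact (pmn l x hx).1.mul h2

theorem pm_A_diff {k : ℕ} (j i : Fin (k + 2)) (x : E (k + 2)) :
    DifferentiableAt ℝ (fun y : E (k + 2) => (An (k + 2) y j i : ℂ)) x := by
  have h := (((an_smooth (k + 2) (by omega)).1 j i).differentiable (by simp)) x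
  exact Complex.ofRealCLM.differentiableAt.comp x h

theorem pm_sum {k : ℕ} (l : ℕ) (h : ℝ → ℝ) (hh : ContDiff ℝ ∞ h) (x : E (k + 2))
    (hx : zf x ∈ Ioo (3 / 2 : ℝ) (9 / 2)) (j : Fin (k + 2)) :
    ∑ i, pd j (fun y => (An (k + 2) y j i : ℂ) * pd i (mdn l (fun z => (h z : ℂ))) y) x = pd j (Ww l h j) x := by
  have hmem := pm_region_open.mem_nhds hx
  have e : Ww l h j =ᶠ[𝓝 x] fun y => ∑ i, (An (k + 2) y j i : ℂ) * pd i (mdn l (fun z => (h z : ℂ))) y := by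
    filter_upwards [hmem] with y hy
    rw [← pm_W l h hh y hy j]
  rw [pm_pd_congr j e, pm_pd_sum j]
  intro i
  exact (pm_A_diff j i x).mul ((pm_smooth_pd i (pm_usmooth l h hh x (pm_ne hx))).differentiableAt (by simp))

theorem pm_Qd (k : ℕ) (h : ℝ → ℝ) (hh : ContDiff ℝ ∞ h) (z : ℝ) (hz : 0 < z) :
    HasDerivAt (Qg k h) ((deriv (deriv h) z - deriv h z / z) / (((k + 2 : ℕ) : ℝ) * z)) z := by
  have h2 := pm_hd (deriv h) (pm_deriv_smooth h hh) z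
  have h3 : HasDerivAt (fun z : ℝ => ((k + 2 : ℕ) : ℝ) * z) ((k + 2 : ℕ) : ℝ) z := by
    simpa using (hasDerivAt_id z).const_mul ((k + 2 : ℕ) : ℝ)
  have hn : (((k + 2 : ℕ) : ℝ)) ≠ 0 := by positivity
  have h4 := h2.div h3 (mul_ne_zero hn hz.ne')
  refine h4.congr_deriv ?_
  field_simp

theorem pm_div {k : ℕ} (l : ℕ) (h : ℝ → ℝ) (hh : ContDiff ℝ ∞ h) (x : E (k + 2))
    (hx : zf x ∈ Ioo (3 / 2 : ℝ) (9 / 2)) :
    ∑ j, pd j (Ww l h j) x = -((l : ℂ) * (l + k)) * ((vn (k + 2) (zf x) * h (zf x) : ℝ) : ℂ) * zen x ^ l +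
      ((deriv (deriv h) (zf x) : ℝ) : ℂ) * zen x ^ l := by
  have hx0 := pm_ne hx
  have hz0 : 0 < zf x := by linarith [hx.1]
  have hr0 : 0 < ‖x‖ := norm_pos_iff.mpr hx0
  obtain ⟨hYs, hxY, hYY⟩ := pmn l x hx0
  obtain ⟨hv1, hv⟩ : True ∧ ContDiffAt ℝ ∞ (vn (k + 2)) (zf x) :=
    ⟨trivial, (wn_pos (k + 2) (by omega)).2.2.2.2.2.2.2.1 _ hz0⟩
  have hvd : HasDerivAt (vn (k + 2)) (deriv (vn (k + 2)) (zf x)) (zf x) :=
    (hv.differentiableAt (by simp)).hasDerivAt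
  have hg := hvd.mul (pm_hd h hh (zf x))
  have hP := mul_rad (nsq_rad x) (comp_rad (x := x) hg)
  have hQ := comp_rad (x := x) (pm_Qd k h hh (zf x) hz0)
  obtain ⟨cP, hcP⟩ : ∃ cP : ℝ, HasFDerivAt (Pc h : E (k + 2) → ℝ) (cP • innerSL ℝ x) x := ⟨_, hP⟩
  have dP : DifferentiableAt ℝ (fun y : E (k + 2) => ((Pc h y : ℝ) : ℂ)) x := pm_cdiff hcP.differentiableAt
  have dQ : DifferentiableAt ℝ (fun y : E (k + 2) => ((Qg k h (zf y) : ℝ) : ℂ)) x := pm_cdiff hQ.differentiableAt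
  have dY : DifferentiableAt ℝ (fun y : E (k + 2) => zen y ^ l) x := hYs.differentiableAt (by simp)
  have e1 : ∀ j, pd j (Ww l h j) x = (cP : ℂ) * ((x j : ℂ) * pd j (fun y : E (k + 2) => zen y ^ l) x) +
      ((Pc h x : ℝ) : ℂ) * pd j (fun y => pd j (fun y : E (k + 2) => zen y ^ l) y) x +
      (((((deriv (deriv h) (zf x) - deriv h (zf x) / zf x) / (((k + 2 : ℕ) : ℝ) * zf x)) * ‖x‖ ^ k : ℝ) : ℂ) *
        zen x ^ l) * ((x j : ℂ) * (x j : ℂ)) +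
      ((Qg k h (zf x) : ℝ) : ℂ) * ((x j : ℂ) * pd j (fun y : E (k + 2) => zen y ^ l) x) +
      ((Qg k h (zf x) : ℝ) : ℂ) * zen x ^ l := by
    intro j
    have dYj : DifferentiableAt ℝ (fun y => pd j (fun y : E (k + 2) => zen y ^ l) y) x :=
      (pm_smooth_pd j hYs).differentiableAt (by simp)
    have dYx : DifferentiableAt ℝ (fun y : E (k + 2) => zen y ^ l * (y j : ℂ)) x :=
      dY.mul (pm_coord_diff j x)
    have e2 : pd j (Ww l h j) x = pd j (fun y => ((Pc h y : ℝ) : ℂ) * pd j (fun y : E (k + 2) => zen y ^ l) y +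
      ((Qg k h (zf y) : ℝ) : ℂ) * (zen y ^ l * (y j : ℂ))) x := rfl
    have dPY : DifferentiableAt ℝ (fun y => ((Pc h y : ℝ) : ℂ) * pd j (fun y : E (k + 2) => zen y ^ l) y) x :=
      dP.mul dYj
    have dQY : DifferentiableAt ℝ (fun y => ((Qg k h (zf y) : ℝ) : ℂ) * (zen y ^ l * (y j : ℂ))) x :=
      dQ.mul dYx
    rw [e2, pm_pd_add j dPY dQY, pm_pd_mul j dP dYj, pm_pd_mul j dQ dYx,
      pm_pd_mul j dY (pm_coord_diff j x), pm_pd_rad hcP j, pm_pd_rad hQ j, pm_pd_coord, if_pos rfl]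
    push_cast
    ring
  rw [Finset.sum_congr rfl (fun j _ => e1 j)]
  rw [Finset.sum_add_distrib, Finset.sum_add_distrib, Finset.sum_add_distrib, Finset.sum_add_distrib,
    ← Finset.mul_sum, ← Finset.mul_sum, ← Finset.mul_sum, ← Finset.mul_sum, hxY, hYY, pm_nsq,
    Finset.sum_const, Finset.card_univ, Fintype.card_fin, nsmul_eq_mul]
  have hnz : ((k + 2 : ℕ) : ℝ) * zf x = ‖x‖ ^ k * ‖x‖ ^ 2 := by
    unfold zf
    have : (((k + 2 : ℕ) : ℝ)) ≠ 0 := by positivity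
    rw [← pow_add]
    field_simp
  have r1 : Pc h x * (‖x‖ ^ 2)⁻¹ = vn (k + 2) (zf x) * h (zf x) := by
    unfold Pc
    field_simp
  have r2 : ((deriv (deriv h) (zf x) - deriv h (zf x) / zf x) / (((k + 2 : ℕ) : ℝ) * zf x)) * ‖x‖ ^ k * ‖x‖ ^ 2 +
      ((k + 2 : ℕ) : ℝ) * Qg k h (zf x) = deriv (deriv h) (zf x) := by
    have hn : (((k + 2 : ℕ) : ℝ)) ≠ 0 := by positivity
    rw [mul_assoc, ← hnz]
    unfold Qg
    field_simp
    ring
  have c1 : ((Pc h x * (‖x‖ ^ 2)⁻¹ : ℝ) : ℂ) = ((vn (k + 2) (zf x) * h (zf x) : ℝ) : ℂ) := by rw [r1]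
  have c2 : ((((deriv (deriv h) (zf x) - deriv h (zf x) / zf x) / (((k + 2 : ℕ) : ℝ) * zf x)) * ‖x‖ ^ k * ‖x‖ ^ 2 +
      ((k + 2 : ℕ) : ℝ) * Qg k h (zf x) : ℝ) : ℂ) = ((deriv (deriv h) (zf x) : ℝ) : ℂ) := by rw [r2]
  rw [← c1, ← c2]
  generalize ((deriv (deriv h) (zf x) - deriv h (zf x) / zf x) / (((k + 2 : ℕ) : ℝ) * zf x)) = q
  generalize Qg k h (zf x) = Q0
  generalize Pc h x = P0
  generalize zen x ^ l = Y0
  push_cast
  ring

theorem pm_off {k : ℕ} (l : ℕ) (h : ℝ → ℝ) (x : E (k + 2)) (hx : zf x ∉ tsupport h) :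
    Pop (An (k + 2)) (mdn l (fun z => (h z : ℂ))) x =
      mdn l (fun z => ((-(1 / 2) * deriv (deriv h) z + (1 / 2) * ((l : ℝ) * (l + k)) * vn (k + 2) z * h z : ℝ) : ℂ)) x := by
  have hopen : IsOpen {y : E (k + 2) | zf y ∉ tsupport h} :=
    (isClosed_tsupport h).isOpen_compl.preimage zf_cont
  have hmem : {y : E (k + 2) | zf y ∉ tsupport h} ∈ 𝓝 x := hopen.mem_nhds hx
  have hz : h =ᶠ[𝓝 (zf x)] fun _ => 0 := by
    have := notMem_tsupport_iff_eventuallyEq.1 hx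
    exact this
  have hu : ∀ y ∈ {y : E (k + 2) | zf y ∉ tsupport h}, mdn l (fun z => (h z : ℂ)) y = 0 := by
    intro y hy
    unfold mdn
    have : h (zf y) = 0 := image_eq_zero_of_notMem_tsupport hy
    simp [this]
  have hpd : ∀ i : Fin (k + 2), ∀ y ∈ {y : E (k + 2) | zf y ∉ tsupport h}, pd i (mdn l (fun z => (h z : ℂ))) y = 0 := by
    intro i y hy
    rw [pm_pd_congr i (v := fun _ => 0) (Filter.eventually_of_mem (hopen.mem_nhds hy) hu)]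
    exact pm_pd_const i 0 y
  have hL : Pop (An (k + 2)) (mdn l (fun z => (h z : ℂ))) x = 0 := by
    unfold Pop
    rw [Finset.sum_eq_zero, mul_zero]
    intro j _
    apply Finset.sum_eq_zero
    intro i _
    rw [pm_pd_congr j (v := fun _ => 0) (Filter.eventually_of_mem hmem (fun y hy => by rw [hpd i y hy, mul_zero]))]
    exact pm_pd_const j 0 x
  rw [hL]
  have h1 : h (zf x) = 0 := hz.eq_of_nhds
  have h2 : deriv h =ᶠ[𝓝 (zf x)] fun _ => 0 := by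
    have := hz.deriv
    simpa using this
  have h3 : deriv (deriv h) (zf x) = 0 := by
    rw [h2.deriv_eq]
    simp
  unfold mdn
  simp [h1, h3]

theorem pon {k : ℕ} (l : ℕ) (h : ℝ → ℝ) (hh : ContDiff ℝ ∞ h) (hc : HasCompactSupport h)
    (hs : tsupport h ⊆ Ioo (3 / 2 : ℝ) (9 / 2)) (x : E (k + 2)) :
    Pop (An (k + 2)) (mdn l (fun z => (h z : ℂ))) x =
      mdn l (fun z => ((-(1 / 2) * deriv (deriv h) z + (1 / 2) * ((l : ℝ) * (l + k)) * vn (k + 2) z * h z : ℝ) : ℂ)) x := by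
  by_cases hx : zf x ∈ tsupport h
  · have hx' := hs hx
    unfold Pop
    rw [Finset.sum_congr rfl (fun j _ => pm_sum l h hh x hx' j), pm_div l h hh x hx']
    unfold mdn
    push_cast
    ring
  · exact pm_off l h x hx

end N_pon

end Pool.Agent.Helper459.SK
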