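import Mathlib
import Pool.Agent.Helper459.SK.NDefs

set_option autoImplicit false

noncomputable section

open MeasureTheory Set Filter Topology
open scoped ContDiff ComplexConjugate

namespace Pool.Agent.Helper459.SK

namespace N_tmn

lemma zf_cont {n : ℕ} : Continuous (zf (n := n)) := by unfold zf; fun_prop
lemma zf_meas {n : ℕ} : Measurable (zf (n := n)) := zf_cont.measurable

lemma zen_meas {k : ℕ} : Measurable (zen (k := k)) := by
  have h0 : Measurable (fun x : E (k + 2) => x 0) :=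
    (by fun_prop : Continuous (fun x : E (k + 2) => x 0)).measurable
  have h1 : Measurable (fun x : E (k + 2) => x 1) :=
    (by fun_prop : Continuous (fun x : E (k + 2) => x 1)).measurable
  unfold zen
  exact ((Complex.measurable_ofReal.comp h0).add ((Complex.measurable_ofReal.comp h1).const_mul _)).div
    (Complex.measurable_ofReal.comp measurable_norm)

def HS (k : ℕ) (s : ℕ → ℝ) : Prop := ∀ (l : ℕ) (F : ℝ → ENNReal), Measurable F →
      ∫⁻ x : E (k + 2), ENNReal.ofReal (‖zen x‖ ^ (2 * l)) * F (zf x) = ENNReal.ofReal (s l) * ∫⁻ z in Ioi (0 : ℝ), F z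

lemma map_zf {k : ℕ} {s : ℕ → ℝ} (hs : HS k s) : Measure.map (zf (n := k + 2)) volume =
    ENNReal.ofReal (s 0) • (volume.restrict (Ioi (0:ℝ))) := by
  ext t ht
  have h := hs 0 (t.indicator 1) (measurable_one.indicator ht)
  simp only [mul_zero, pow_zero, ENNReal.ofReal_one, one_mul] at h
  rw [Measure.map_apply zf_meas ht, Measure.smul_apply, smul_eq_mul]
  rw [lintegral_indicator_one ht] at h
  rw [← h, ← lintegral_indicator_one (zf_meas ht)]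
  rfl

lemma qmp {k : ℕ} {s : ℕ → ℝ} (hs : HS k s) :
    Measure.QuasiMeasurePreserving (zf (n := k + 2)) volume (volume.restrict (Ioi (0:ℝ))) := by
  refine ⟨zf_meas, ?_⟩
  rw [map_zf hs]; exact Measure.smul_absolutelyContinuous

def FF {k : ℕ} (s : ℕ → ℝ) (l : ℕ) (χ : ℝ → ℂ) (x : E (k + 2)) : ℂ :=
  ((1 / Real.sqrt (s l) : ℝ) : ℂ) * mdn l χ x

lemma FF_aesm {k : ℕ} {s : ℕ → ℝ} (hs : HS k s) (l : ℕ) (χ : L2z) :
    AEStronglyMeasurable (FF (k := k) s l χ) (volume : Measure (E (k + 2))) := by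
  have h1 : AEStronglyMeasurable (fun x : E (k + 2) => (χ : ℝ → ℂ) (zf x)) (volume : Measure (E (k + 2))) :=
    (Lp.aestronglyMeasurable χ).comp_quasiMeasurePreserving (qmp hs)
  have h2 : AEStronglyMeasurable (fun x : E (k + 2) => zen x ^ l) (volume : Measure (E (k + 2))) :=
    (zen_meas.pow_const l).aestronglyMeasurable
  exact (h2.mul h1).const_mul _

lemma FF_int {k : ℕ} {s : ℕ → ℝ} (hp : ∀ l, 0 < s l) (hs : HS k s) (l : ℕ) (χ : L2z) :
    ∫⁻ x : E (k + 2), ‖FF (k := k) s l χ x‖ₑ ^ (2 : ℝ) =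
      ∫⁻ z in Ioi (0 : ℝ), ‖(χ : ℝ → ℂ) z‖ₑ ^ (2 : ℝ) := by
  have hsm := (Lp.aestronglyMeasurable χ)
  set χ' : ℝ → ℂ := hsm.mk χ with hχ'
  have hχm : StronglyMeasurable χ' := hsm.stronglyMeasurable_mk
  have hae : (χ : ℝ → ℂ) =ᵐ[volume.restrict (Ioi (0:ℝ))] χ' := hsm.ae_eq_mk
  have hF : Measurable (fun z => ‖χ' z‖ₑ ^ (2 : ℝ)) := (StronglyMeasurable.enorm hχm).pow_const _
  have h := hs l _ hF
  have h1 : ∫⁻ z in Ioi (0 : ℝ), ‖(χ : ℝ → ℂ) z‖ₑ ^ (2 : ℝ) = ∫⁻ z in Ioi (0 : ℝ), ‖χ' z‖ₑ ^ (2 : ℝ) := by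
    apply lintegral_congr_ae
    filter_upwards [hae] with z hz
    rw [hz]
  have hsl := hp l
  have h2 : ∫⁻ x : E (k + 2), ‖FF (k := k) s l χ x‖ₑ ^ (2 : ℝ) =
      ∫⁻ x : E (k + 2), ENNReal.ofReal (1 / s l) *
        (ENNReal.ofReal (‖zen x‖ ^ (2 * l)) * ‖χ' (zf x)‖ₑ ^ (2 : ℝ)) := by
    apply lintegral_congr_ae
    filter_upwards [(qmp hs).ae_eq_comp hae] with x hx
    have hx' : (χ : ℝ → ℂ) (zf x) = χ' (zf x) := hx
    simp only [FF, mdn]
    rw [hx']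
    rw [enorm_mul, enorm_mul, ENNReal.mul_rpow_of_nonneg _ _ (by norm_num), ENNReal.mul_rpow_of_nonneg _ _ (by norm_num)]
    congr 1
    · rw [← ofReal_norm_eq_enorm, Complex.norm_real, Real.norm_of_nonneg (by positivity),
        ENNReal.ofReal_rpow_of_nonneg (by positivity) (by norm_num)]
      congr 1
      rw [Real.rpow_two, div_pow, one_pow, Real.sq_sqrt hsl.le]
    · congr 1
      rw [← ofReal_norm_eq_enorm, norm_pow,
        ENNReal.ofReal_rpow_of_nonneg (by positivity) (by norm_num)]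
      congr 1
      rw [Real.rpow_two, ← pow_mul, mul_comm]
  have hm2 : Measurable (fun x : E (k + 2) => ENNReal.ofReal (‖zen x‖ ^ (2 * l)) * ‖χ' (zf x)‖ₑ ^ (2 : ℝ)) :=
    ((zen_meas.norm.pow_const _).ennreal_ofReal).mul (hF.comp zf_meas)
  rw [h2, lintegral_const_mul _ hm2, h, h1, ← mul_assoc, ← ENNReal.ofReal_mul (by positivity),
    one_div_mul_cancel hsl.ne', ENNReal.ofReal_one, one_mul]

lemma FF_norm {k : ℕ} {s : ℕ → ℝ} (hp : ∀ l, 0 < s l) (hs : HS k s) (l : ℕ) (χ : L2z) :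
    eLpNorm (FF (k := k) s l χ) 2 (volume : Measure (E (k + 2))) =
    eLpNorm (χ : ℝ → ℂ) 2 (volume.restrict (Ioi (0:ℝ))) := by
  rw [eLpNorm_eq_lintegral_rpow_enorm_toReal (by simp) (by simp),
    eLpNorm_eq_lintegral_rpow_enorm_toReal (by simp) (by simp)]
  simp only [ENNReal.toReal_ofNat]
  rw [FF_int hp hs l χ]

lemma FF_mem {k : ℕ} {s : ℕ → ℝ} (hp : ∀ l, 0 < s l) (hs : HS k s) (l : ℕ) (χ : L2z) :
    MemLp (FF (k := k) s l χ) 2 (volume : Measure (E (k + 2))) :=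
  ⟨FF_aesm hs l χ, by rw [FF_norm hp hs]; exact Lp.eLpNorm_lt_top χ⟩

def TT {k : ℕ} {s : ℕ → ℝ} (hp : ∀ l, 0 < s l) (hs : HS k s) (l : ℕ) : L2z →ₗᵢ[ℂ] L2 (k + 2) where
  toFun χ := (FF_mem hp hs l χ).toLp _
  map_add' χ₁ χ₂ := by
    rw [← MemLp.toLp_add]
    apply MemLp.toLp_congr
    have h := (qmp hs).ae_eq_comp (Lp.coeFn_add χ₁ χ₂)
    filter_upwards [h] with x hx
    have hx' : ((χ₁ + χ₂ : L2z) : ℝ → ℂ) (zf x) = χ₁ (zf x) + χ₂ (zf x) := hx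
    simp only [FF, mdn, Pi.add_apply]
    rw [hx']; ring
  map_smul' a χ := by
    rw [RingHom.id_apply, ← MemLp.toLp_const_smul]
    apply MemLp.toLp_congr
    have h := (qmp hs).ae_eq_comp (Lp.coeFn_smul a χ)
    filter_upwards [h] with x hx
    have hx' : ((a • χ : L2z) : ℝ → ℂ) (zf x) = a • χ (zf x) := hx
    simp only [FF, mdn, Pi.smul_apply, smul_eq_mul]
    rw [hx', smul_eq_mul]; ring
  norm_map' χ := by
    show ‖(FF_mem hp hs l χ).toLp _‖ = ‖χ‖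
    rw [Lp.norm_toLp, FF_norm hp hs, Lp.norm_def]

theorem tmn (k : ℕ) (s : ℕ → ℝ) (hp : ∀ l, 0 < s l)
    (hs : ∀ (l : ℕ) (F : ℝ → ENNReal), Measurable F →
      ∫⁻ x : E (k + 2), ENNReal.ofReal (‖zen x‖ ^ (2 * l)) * F (zf x) = ENNReal.ofReal (s l) * ∫⁻ z in Ioi (0 : ℝ), F z)
    (l : ℕ) : ∃ Tm : L2z →ₗᵢ[ℂ] L2 (k + 2), ∀ χ : L2z,
    (Tm χ : E (k + 2) → ℂ) =ᵐ[volume] fun x => ((1 / Real.sqrt (s l) : ℝ) : ℂ) * mdn l (χ : ℝ → ℂ) x :=
  ⟨TT hp hs l, fun χ => (FF_mem hp hs l χ).coeFn_toLp⟩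

end N_tmn

end Pool.Agent.Helper459.SK
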