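import Mathlib
import Pool.Agent.Helper459.SK.NDefs

set_option autoImplicit false

noncomputable section

open MeasureTheory Set Filter Topology
open scoped ContDiff ComplexConjugate

namespace Pool.Agent.Helper459.SK

namespace N_udn

theorem udn {n : ℕ} (A : E n → Matrix (Fin n) (Fin n) ℝ) (U : ℝ → (L2 n →L[ℂ] L2 n)) (hU : IsPropagator A U)
    (u : E n → ℂ) (hu : IsTest u) (t : ℝ) :
    HasDerivAt (fun t => U t (toL2 u)) (-Complex.I • U t (toL2 (Pop A u))) t := by
  have h0 := hU.gen u hu
  have h1 : HasDerivAt (fun s => U (s - t) (toL2 u)) (-Complex.I • toL2 (Pop A u)) t := by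
    have h : HasDerivAt (fun s => U s (toL2 u)) (-Complex.I • toL2 (Pop A u)) (t - t) := by
      rw [sub_self]; exact h0
    exact h.comp_sub_const t t
  have h2 := ((U t).restrictScalars ℝ).hasFDerivAt.comp_hasDerivAt t h1
  have e : (fun s => U s (toL2 u)) =
      (fun s => (U t).restrictScalars ℝ (U (s - t) (toL2 u))) := by
    funext s
    show U s _ = U t (U (s - t) _)
    rw [← hU.add, add_sub_cancel]
  rw [e]
  refine h2.congr_deriv ?_
  show U t (-Complex.I • _) = _
  rw [map_smul]

end N_udn

end Pool.Agent.Helper459.SK
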