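import Mathlib
import Pool.Agent.Helper459.SK.NDefs

set_option autoImplicit false

noncomputable section

open MeasureTheory Set Filter Topology
open scoped ContDiff ComplexConjugate

namespace Pool.Agent.Helper459.SK

namespace N_zmn

lemma zen_meas (k : ℕ) : Measurable (fun x : E (k + 2) => zen x) := by
  unfold zen
  fun_prop

lemma zen_smul {k : ℕ} (x : E (k + 2)) (hx : x ≠ 0) : zen (‖x‖⁻¹ • x) = zen x := by
  have h0 : ‖x‖ ≠ 0 := norm_ne_zero_iff.2 hx
  have h1 : ‖(‖x‖⁻¹ • x : E (k + 2))‖ = 1 := by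
    rw [norm_smul, norm_inv, norm_norm, inv_mul_cancel₀ h0]
  have h0c : ((‖x‖ : ℝ) : ℂ) ≠ 0 := by exact_mod_cast h0
  unfold zen
  rw [h1]
  simp only [PiLp.smul_apply, smul_eq_mul, Complex.ofReal_mul, Complex.ofReal_inv, Complex.ofReal_one,
    div_one]
  field_simp

lemma cov (k : ℕ) (F : ℝ → ENNReal) :
    ∫⁻ z in Ioi (0 : ℝ), F z =
      ∫⁻ r in Ioi (0 : ℝ), ENNReal.ofReal (r ^ (k + 1)) * F (r ^ (k + 2) / ((k + 2 : ℕ) : ℝ)) := by
  have hk : (0 : ℝ) < ((k + 2 : ℕ) : ℝ) := by positivity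
  have himg : (fun r : ℝ => r ^ (k + 2) / ((k + 2 : ℕ) : ℝ)) '' Ioi 0 = Ioi 0 := by
    ext y
    constructor
    · rintro ⟨r, hr, rfl⟩
      have : (0 : ℝ) < r := hr
      show (0 : ℝ) < r ^ (k + 2) / ((k + 2 : ℕ) : ℝ)
      positivity
    · intro hy
      have hy' : (0 : ℝ) < y := hy
      refine ⟨(y * ((k + 2 : ℕ) : ℝ)) ^ ((1 : ℝ) / ((k + 2 : ℕ) : ℝ)), ?_, ?_⟩
      · show (0 : ℝ) < _
        positivity
      · show ((y * ((k + 2 : ℕ) : ℝ)) ^ ((1 : ℝ) / ((k + 2 : ℕ) : ℝ))) ^ (k + 2) / ((k + 2 : ℕ) : ℝ) = y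
        rw [← Real.rpow_natCast, ← Real.rpow_mul (by positivity), one_div, inv_mul_cancel₀ hk.ne',
          Real.rpow_one]
        field_simp
  have hder : ∀ x ∈ Ioi (0 : ℝ), HasDerivWithinAt (fun r : ℝ => r ^ (k + 2) / ((k + 2 : ℕ) : ℝ))
      (x ^ (k + 1)) (Ioi 0) x := by
    intro x _
    have h := ((hasDerivAt_pow (k + 2) x).div_const ((k + 2 : ℕ) : ℝ)).hasDerivWithinAt (s := Ioi 0)
    have h3 : ((k + 2 : ℕ) : ℝ) * x ^ (k + 2 - 1) / ((k + 2 : ℕ) : ℝ) = x ^ (k + 1) := by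
      have : k + 2 - 1 = k + 1 := by omega
      rw [this]
      field_simp
    rw [h3] at h
    exact h
  have hinj : InjOn (fun r : ℝ => r ^ (k + 2) / ((k + 2 : ℕ) : ℝ)) (Ioi 0) := by
    intro a ha b hb hab
    have ha' : (0 : ℝ) < a := ha
    have hb' : (0 : ℝ) < b := hb
    have h1 : a ^ (k + 2) = b ^ (k + 2) := by
      have h2 : a ^ (k + 2) / ((k + 2 : ℕ) : ℝ) = b ^ (k + 2) / ((k + 2 : ℕ) : ℝ) := hab
      field_simp at h2
      exact h2
    exact (pow_left_inj₀ ha'.le hb'.le (by omega)).1 h1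
  have := lintegral_image_eq_lintegral_abs_deriv_mul measurableSet_Ioi hder hinj F
  rw [himg] at this
  rw [this]
  refine setLIntegral_congr_fun measurableSet_Ioi ?_
  intro r hr
  have hr' : (0 : ℝ) < r := hr
  show ENNReal.ofReal |r ^ (k + 1)| * _ = _
  rw [abs_of_pos (by positivity)]

theorem polar (k l : ℕ) (F : ℝ → ENNReal) (hF : Measurable F) :
    ∫⁻ x : E (k + 2), ENNReal.ofReal (‖zen x‖ ^ (2 * l)) * F (zf x) =
      (∫⁻ y : Metric.sphere (0 : E (k + 2)) 1, ENNReal.ofReal (‖zen (y : E (k + 2))‖ ^ (2 * l))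
        ∂((volume : Measure (E (k + 2))).toSphere)) * ∫⁻ z in Ioi (0 : ℝ), F z := by
  have hdim : Module.finrank ℝ (E (k + 2)) - 1 = k + 1 := by simp
  have hMP := (volume : Measure (E (k + 2))).measurePreserving_homeomorphUnitSphereProd
  rw [hdim] at hMP
  have hmz : Measurable (fun y : Metric.sphere (0 : E (k + 2)) 1 =>
      ENNReal.ofReal (‖zen (y : E (k + 2))‖ ^ (2 * l))) := by
    have := (zen_meas k).comp (measurable_subtype_coe (p := fun x => x ∈ Metric.sphere (0 : E (k + 2)) 1))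
    exact (this.norm.pow_const _).ennreal_ofReal
  have hmF : Measurable (fun r : Ioi (0 : ℝ) => F ((r : ℝ) ^ (k + 2) / ((k + 2 : ℕ) : ℝ))) := by
    refine hF.comp ?_
    fun_prop
  calc ∫⁻ x : E (k + 2), ENNReal.ofReal (‖zen x‖ ^ (2 * l)) * F (zf x)
      = ∫⁻ x : ({(0 : E (k + 2))}ᶜ : Set (E (k + 2))),
          ENNReal.ofReal (‖zen (x : E (k + 2))‖ ^ (2 * l)) * F (zf (x : E (k + 2)))
            ∂((volume : Measure (E (k + 2))).comap (↑)) := by
        rw [lintegral_subtype_comap (measurableSet_singleton _).compl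
          (fun x : E (k + 2) => ENNReal.ofReal (‖zen x‖ ^ (2 * l)) * F (zf x)),
          restrict_compl_singleton]
    _ = ∫⁻ p : Metric.sphere (0 : E (k + 2)) 1 × Ioi (0 : ℝ),
          ENNReal.ofReal (‖zen (p.1 : E (k + 2))‖ ^ (2 * l)) *
            F ((p.2 : ℝ) ^ (k + 2) / ((k + 2 : ℕ) : ℝ))
            ∂((volume : Measure (E (k + 2))).toSphere.prod (.volumeIoiPow (k + 1))) := by
        rw [← hMP.lintegral_comp_emb (Homeomorph.measurableEmbedding _)]
        refine lintegral_congr ?_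
        intro x
        have hx : (x : E (k + 2)) ≠ 0 := x.2
        have h1 : zen (((homeomorphUnitSphereProd (E (k + 2))) x).1 : E (k + 2)) = zen (x : E (k + 2)) := by
          rw [homeomorphUnitSphereProd_apply_fst_coe]
          exact zen_smul _ hx
        rw [h1, homeomorphUnitSphereProd_apply_snd_coe]
        rfl
    _ = (∫⁻ y : Metric.sphere (0 : E (k + 2)) 1, ENNReal.ofReal (‖zen (y : E (k + 2))‖ ^ (2 * l))
        ∂((volume : Measure (E (k + 2))).toSphere)) *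
          ∫⁻ r : Ioi (0 : ℝ), F ((r : ℝ) ^ (k + 2) / ((k + 2 : ℕ) : ℝ)) ∂(.volumeIoiPow (k + 1)) :=
        lintegral_prod_mul hmz.aemeasurable hmF.aemeasurable
    _ = _ := by
        congr 1
        rw [cov, Measure.volumeIoiPow, lintegral_withDensity_eq_lintegral_mul _ (by fun_prop) hmF,
          ← lintegral_subtype_comap measurableSet_Ioi
            (fun r : ℝ => ENNReal.ofReal (r ^ (k + 1)) * F (r ^ (k + 2) / ((k + 2 : ℕ) : ℝ)))]
        rfl

lemma zen_sq {k : ℕ} (x : E (k + 2)) : ‖zen x‖ ^ 2 = (x 0 ^ 2 + x 1 ^ 2) / ‖x‖ ^ 2 := by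
  unfold zen
  rw [norm_div, div_pow, Complex.norm_real, norm_norm, Complex.sq_norm, Complex.normSq_apply]
  congr 1
  simp
  ring

lemma norm_split {k : ℕ} (x : E (k + 2)) :
    ‖x‖ ^ 2 = x 0 ^ 2 + x 1 ^ 2 + ∑ j : Fin k, x j.succ.succ ^ 2 := by
  rw [EuclideanSpace.norm_sq_eq, Fin.sum_univ_succ, Fin.sum_univ_succ]
  simp only [Real.norm_eq_abs, sq_abs]
  have : (Fin.succ 0 : Fin (k + 2)) = 1 := rfl
  rw [this]
  ring

lemma zen_le {k : ℕ} (x : E (k + 2)) : ‖zen x‖ ≤ 1 := by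
  have h1 := zen_sq x
  have h2 := norm_split x
  have h3 : 0 ≤ ∑ j : Fin k, x j.succ.succ ^ 2 := Finset.sum_nonneg (fun _ _ => sq_nonneg _)
  have h4 : ‖zen x‖ ^ 2 ≤ 1 := by
    rw [h1]
    refine div_le_one_of_le₀ ?_ (sq_nonneg _)
    rw [h2]
    linarith
  nlinarith [norm_nonneg (zen x)]

/-- the box -/
def Box (k l : ℕ) : Set (E (k + 2)) :=
  (fun x : E (k + 2) => x.ofLp) ⁻¹' Icc (fun i => if i = 0 then 1 else 0)
    (fun i => if i = 0 then 2 else 1 / (1 + (l : ℝ)))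

lemma box_vol (k l : ℕ) : volume (Box k l) = ENNReal.ofReal ((1 / (1 + (l : ℝ))) ^ (k + 1)) := by
  have h := (PiLp.volume_preserving_ofLp (Fin (k + 2))).measure_preimage
    (s := Icc (fun i : Fin (k + 2) => if i = 0 then (1 : ℝ) else 0)
      (fun i => if i = 0 then 2 else 1 / (1 + (l : ℝ)))) measurableSet_Icc.nullMeasurableSet
  rw [Box]
  rw [h, Real.volume_Icc_pi, Fin.prod_univ_succ]
  have h1 : ∀ i : Fin (k + 1), (i.succ : Fin (k + 2)) ≠ 0 := fun i => Fin.succ_ne_zero i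
  simp only [h1, if_false, if_true, sub_zero, Finset.prod_const, Finset.card_univ, Fintype.card_fin]
  rw [ENNReal.ofReal_pow (by positivity)]
  norm_num

lemma box_meas (k l : ℕ) : MeasurableSet (Box k l) :=
  (PiLp.volume_preserving_ofLp (Fin (k + 2))).measurable measurableSet_Icc

lemma box_prop {k l : ℕ} {x : E (k + 2)} (hx : x ∈ Box k l) :
    Real.exp (-k) ≤ ‖zen x‖ ^ (2 * l) ∧ zf x < ((k : ℝ) + 5) ^ (k + 2) + 1 := by
  have hx1 : ∀ i, (if i = 0 then (1 : ℝ) else 0) ≤ x i := fun i => hx.1 i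
  have hx2 : ∀ i, x i ≤ (if i = 0 then 2 else 1 / (1 + (l : ℝ))) := fun i => hx.2 i
  have hl : (0 : ℝ) ≤ l := Nat.cast_nonneg l
  set δ : ℝ := 1 / (1 + (l : ℝ)) with hδ
  have hδ0 : 0 < δ := by positivity
  have hδ1 : δ ≤ 1 := by
    rw [hδ, div_le_one (by positivity)]; linarith
  have hδl : δ * l ≤ 1 := by
    rw [hδ, one_div, inv_mul_le_iff₀ (by positivity)]; linarith
  have h00 : 1 ≤ x 0 := by simpa using hx1 0
  have h01 : x 0 ≤ 2 := by simpa using hx2 0
  have hne : (1 : Fin (k + 2)) ≠ 0 := by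
    intro h; simpa using congrArg Fin.val h
  have h10 : 0 ≤ x 1 := by simpa [hne] using hx1 1
  have h11 : x 1 ≤ δ := by simpa [hne] using hx2 1
  have hS0 : 0 ≤ ∑ j : Fin k, x j.succ.succ ^ 2 := Finset.sum_nonneg (fun _ _ => sq_nonneg _)
  have hS : ∑ j : Fin k, x j.succ.succ ^ 2 ≤ k * δ ^ 2 := by
    calc ∑ j : Fin k, x j.succ.succ ^ 2 ≤ ∑ j : Fin k, δ ^ 2 := by
          refine Finset.sum_le_sum (fun j _ => ?_)
          have hj : (j.succ.succ : Fin (k + 2)) ≠ 0 := Fin.succ_ne_zero _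
          have a1 : 0 ≤ x j.succ.succ := by simpa [hj] using hx1 j.succ.succ
          have a2 : x j.succ.succ ≤ δ := by simpa [hj] using hx2 j.succ.succ
          exact pow_le_pow_left₀ a1 a2 2
      _ = k * δ ^ 2 := by simp
  set A : ℝ := x 0 ^ 2 + x 1 ^ 2 with hA
  set B : ℝ := ∑ j : Fin k, x j.succ.succ ^ 2 with hB
  have hA1 : 1 ≤ A := by nlinarith [sq_nonneg (x 1)]
  have hA2 : A ≤ 5 := by nlinarith
  have hk : (0 : ℝ) ≤ k := Nat.cast_nonneg k
  constructor
  · rw [pow_mul, zen_sq, norm_split, ← hA, ← hB]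
    have h1 : Real.exp (-(k * δ ^ 2)) ≤ A / (A + B) := by
      rw [Real.exp_neg, le_div_iff₀ (by linarith), inv_mul_le_iff₀ (Real.exp_pos _)]
      have h2 : (k : ℝ) * δ ^ 2 + 1 ≤ Real.exp (k * δ ^ 2) := Real.add_one_le_exp _
      have h3 : 0 ≤ (k : ℝ) * δ ^ 2 := by positivity
      nlinarith
    calc Real.exp (-k) ≤ Real.exp (-(k * δ ^ 2)) ^ l := by
          rw [← Real.exp_nat_mul]
          apply Real.exp_le_exp.2
          have : (l : ℝ) * δ ^ 2 ≤ 1 := by nlinarith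
          nlinarith
      _ ≤ (A / (A + B)) ^ l := pow_le_pow_left₀ (Real.exp_pos _).le h1 l
  · have h1 : ‖x‖ ^ 2 ≤ k + 5 := by
      rw [norm_split, ← hA, ← hB]
      have : (k : ℝ) * δ ^ 2 ≤ k := by
        have : δ ^ 2 ≤ 1 := by nlinarith
        nlinarith
      linarith
    have h2 : ‖x‖ ≤ (k : ℝ) + 5 := by
      by_contra hc
      push Not at hc
      nlinarith [norm_nonneg x]
    have h3 : ‖x‖ ^ (k + 2) ≤ ((k : ℝ) + 5) ^ (k + 2) := pow_le_pow_left₀ (norm_nonneg x) h2 _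
    have h4 : zf x ≤ ‖x‖ ^ (k + 2) := by
      unfold zf
      refine div_le_self (by positivity) ?_
      push_cast
      linarith
    linarith

theorem zmn (k : ℕ) : ∃ (s : ℕ → ℝ), (∀ l, 0 < s l) ∧ (∃ (c : ℝ) (p : ℕ), 0 < c ∧ ∀ l : ℕ, c / (1 + (l : ℝ)) ^ p ≤ s l) ∧
    ∀ (l : ℕ) (F : ℝ → ENNReal), Measurable F →
      ∫⁻ x : E (k + 2), ENNReal.ofReal (‖zen x‖ ^ (2 * l)) * F (zf x) = ENNReal.ofReal (s l) * ∫⁻ z in Ioi (0 : ℝ), F z := by
  set S : ℕ → ENNReal := fun l =>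
    ∫⁻ y : Metric.sphere (0 : E (k + 2)) 1, ENNReal.ofReal (‖zen (y : E (k + 2))‖ ^ (2 * l))
        ∂((volume : Measure (E (k + 2))).toSphere) with hS
  have hfin : ∀ l, S l ≠ ⊤ := by
    intro l
    refine ne_top_of_le_ne_top (measure_ne_top ((volume : Measure (E (k + 2))).toSphere) univ) ?_
    calc S l ≤ ∫⁻ y : Metric.sphere (0 : E (k + 2)) 1, 1 ∂((volume : Measure (E (k + 2))).toSphere) := by
          refine lintegral_mono (fun y => ?_)
          have : ‖zen (y : E (k + 2))‖ ^ (2 * l) ≤ 1 := pow_le_one₀ (norm_nonneg _) (zen_le _)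
          calc ENNReal.ofReal (‖zen (y : E (k + 2))‖ ^ (2 * l)) ≤ ENNReal.ofReal 1 :=
                ENNReal.ofReal_le_ofReal this
            _ = 1 := ENNReal.ofReal_one
      _ = _ := by simp
  set M : ℝ := ((k : ℝ) + 5) ^ (k + 2) + 1 with hM
  have hM0 : 0 < M := by positivity
  have hlow : ∀ l : ℕ, (Real.exp (-k) / M) / (1 + (l : ℝ)) ^ (k + 1) ≤ (S l).toReal := by
    intro l
    have hF : Measurable ((Iio M).indicator (fun _ : ℝ => (1 : ENNReal))) :=
      measurable_const.indicator measurableSet_Iio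
    have h1 := polar k l _ hF
    have h2 : ∫⁻ z in Ioi (0 : ℝ), (Iio M).indicator (fun _ : ℝ => (1 : ENNReal)) z = ENNReal.ofReal M := by
      rw [lintegral_indicator measurableSet_Iio, setLIntegral_const, one_mul,
        Measure.restrict_apply measurableSet_Iio, Iio_inter_Ioi, Real.volume_Ioo, sub_zero]
    rw [h2] at h1
    have h3 : ENNReal.ofReal (Real.exp (-k)) * volume (Box k l) ≤
        ∫⁻ x : E (k + 2), ENNReal.ofReal (‖zen x‖ ^ (2 * l)) *
          (Iio M).indicator (fun _ : ℝ => (1 : ENNReal)) (zf x) := by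
      rw [← setLIntegral_const, ← lintegral_indicator (box_meas k l)]
      refine lintegral_mono (fun x => ?_)
      by_cases hx : x ∈ Box k l
      · obtain ⟨p1, p2⟩ := box_prop hx
        rw [indicator_of_mem hx]
        have : zf x ∈ Iio M := p2
        rw [indicator_of_mem this, mul_one]
        exact ENNReal.ofReal_le_ofReal p1
      · rw [indicator_of_notMem hx]
        exact zero_le
    rw [h1, box_vol, ← ENNReal.ofReal_mul (Real.exp_pos _).le] at h3
    have h4 : S l * ENNReal.ofReal M = ENNReal.ofReal ((S l).toReal * M) := by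
      rw [ENNReal.ofReal_mul ENNReal.toReal_nonneg, ENNReal.ofReal_toReal (hfin l)]
    have h5 : ENNReal.ofReal (Real.exp (-k) * (1 / (1 + (l : ℝ))) ^ (k + 1)) ≤
        ENNReal.ofReal ((S l).toReal * M) := by
      rw [← h4]; exact h3
    rw [ENNReal.ofReal_le_ofReal_iff (by positivity)] at h5
    have h6 : (Real.exp (-k) / M) / (1 + (l : ℝ)) ^ (k + 1) =
        (Real.exp (-k) * (1 / (1 + (l : ℝ))) ^ (k + 1)) / M := by
      rw [one_div, inv_pow]
      field_simp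
    rw [h6, div_le_iff₀ hM0]
    exact h5
  refine ⟨fun l => (S l).toReal, ?_, ⟨Real.exp (-k) / M, k + 1, by positivity, hlow⟩, ?_⟩
  · intro l
    exact lt_of_lt_of_le (by positivity) (hlow l)
  · intro l F hF
    show _ = ENNReal.ofReal ((S l).toReal) * _
    rw [ENNReal.ofReal_toReal (hfin l)]
    exact polar k l F hF

end N_zmn

end Pool.Agent.Helper459.SK
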