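import Mathlib
import Pool.Agent.Helper459.SK.NDefs
import Pool.Agent.Helper459.SK.L_zmn
import Pool.Agent.Helper459.SK.L_tmn
import Pool.Agent.Helper459.SK.L_mtn
import Pool.Agent.Helper459.SK.L_pon
import Pool.Agent.Helper459.SK.L_udn
import Pool.Agent.Helper459.SK.L_fj_facts
import Pool.Agent.Helper459.SK.L_test_l2
import Pool.Agent.Helper459.SK.L_wn_pos
import Pool.Agent.Helper459.SK.L_wn_facts

set_option autoImplicit false

noncomputable section

open MeasureTheory Set Filter Topology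
open scoped ContDiff ComplexConjugate

namespace Pool.Agent.Helper459.SK
open N_zmn
open N_tmn
open N_mtn
open N_pon
open N_udn
open N_fj_facts
open N_test_l2
open N_wn_pos
open N_wn_facts

namespace N_redn

theorem redn_null (k : ℕ) (s : ℕ → ℝ)
    (hs : ∀ (l : ℕ) (F : ℝ → ENNReal), Measurable F →
      ∫⁻ x : E (k + 2), ENNReal.ofReal (‖zen x‖ ^ (2 * l)) * F (zf x) =
        ENNReal.ofReal (s l) * ∫⁻ z in Ioi (0 : ℝ), F z)
    (N : Set ℝ) (hN : volume N = 0) : ∀ᵐ x : E (k + 2), zf x ∉ N := by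
  obtain ⟨N', hNN', hN'm, hN'0⟩ := exists_measurable_superset_of_null hN
  have h1 := hs 0 (N'.indicator (fun _ => (1 : ENNReal))) (measurable_const.indicator hN'm)
  have h2 : ∫⁻ z in Ioi (0 : ℝ), N'.indicator (fun _ => (1 : ENNReal)) z = 0 := by
    rw [lintegral_indicator hN'm, lintegral_const, one_mul, Measure.restrict_apply_univ]
    exact Measure.absolutelyContinuous_of_le Measure.restrict_le_self hN'0
  rw [h2, mul_zero (ENNReal.ofReal (s 0))] at h1
  have hzf : Measurable (fun x : E (k + 2) => zf x) := by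
    unfold zf
    exact ((measurable_norm).pow_const _).div_const _
  have h3 : (fun x : E (k + 2) => ENNReal.ofReal (‖zen x‖ ^ (2 * 0)) *
      N'.indicator (fun _ => (1 : ENNReal)) (zf x)) =
      fun x => N'.indicator (fun _ => (1 : ENNReal)) (zf x) := by
    funext x
    rw [mul_zero, pow_zero, ENNReal.ofReal_one, one_mul]
  have h5 : Measurable (fun x : E (k + 2) => N'.indicator (fun _ => (1 : ENNReal)) (zf x)) :=
    (measurable_const.indicator hN'm).comp hzf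
  rw [h3, lintegral_eq_zero_iff h5] at h1
  filter_upwards [h1] with x hx hxN
  have h4 : N'.indicator (fun _ => (1 : ENNReal)) (zf x) = 0 := hx
  rw [indicator_of_mem (hNN' hxN)] at h4
  exact one_ne_zero h4

theorem redn_md_congr (k : ℕ) (s : ℕ → ℝ)
    (hs : ∀ (l : ℕ) (F : ℝ → ENNReal), Measurable F →
      ∫⁻ x : E (k + 2), ENNReal.ofReal (‖zen x‖ ^ (2 * l)) * F (zf x) =
        ENNReal.ofReal (s l) * ∫⁻ z in Ioi (0 : ℝ), F z)
    (m : ℕ) (h h' : ℝ → ℂ) (hh : h =ᵐ[volume.restrict (Ioi (0 : ℝ))] h') :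
    mdn (k := k) m h =ᵐ[volume] mdn m h' := by
  have h1 : ∀ᵐ z : ℝ, z ∈ Ioi (0 : ℝ) → h z = h' z := (ae_restrict_iff' measurableSet_Ioi).1 hh
  have h2 : volume {z : ℝ | ¬ (z ∈ Ioi (0 : ℝ) → h z = h' z)} = 0 := h1
  have h3 : ∀ᵐ x : E (k + 2), x ≠ 0 := by
    have : volume ({0} : Set (E (k + 2))) = 0 := measure_singleton 0
    exact (measure_eq_zero_iff_ae_notMem.1 this).mono fun x hx => hx
  filter_upwards [redn_null k s hs _ h2, h3] with x hx hx0
  have h4 : zf x ∈ Ioi (0 : ℝ) → h (zf x) = h' (zf x) := not_not.1 hx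
  unfold mdn
  have h5 : 0 < zf x := by
    unfold zf
    have := norm_pos_iff.2 hx0
    positivity
  rw [h4 h5]

theorem redn_toL2 {n : ℕ} {u : E n → ℂ} (h : MemLp u 2 (volume : Measure (E n))) :
    toL2 u = h.toLp u := by
  unfold toL2
  exact dif_pos h

theorem redn_A (k : ℕ) (s : ℕ → ℝ) (hp : ∀ l, 0 < s l)
    (hs : ∀ (l : ℕ) (F : ℝ → ENNReal), Measurable F →
      ∫⁻ x : E (k + 2), ENNReal.ofReal (‖zen x‖ ^ (2 * l)) * F (zf x) =
        ENNReal.ofReal (s l) * ∫⁻ z in Ioi (0 : ℝ), F z)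
    (m : ℕ) (Tm : L2z →ₗᵢ[ℂ] L2 (k + 2)) (hT : ∀ χ : L2z,
    (Tm χ : E (k + 2) → ℂ) =ᵐ[volume]
      fun x => ((1 / Real.sqrt (s m) : ℝ) : ℂ) * mdn m (χ : ℝ → ℂ) x)
    (χ : ℝ → ℂ) (hχ : MemLp χ 2 (volume.restrict (Ioi (0 : ℝ)))) :
    Tm (hχ.toLp χ) = ((1 / Real.sqrt (s m) : ℝ) : ℂ) • toL2 (mdn m χ) := by
  have hc : ((1 / Real.sqrt (s m) : ℝ) : ℂ) ≠ 0 := by
    rw [Complex.ofReal_ne_zero]
    have := Real.sqrt_pos.2 (hp m)
    positivity
  generalize ((1 / Real.sqrt (s m) : ℝ) : ℂ) = c at *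
  have h1 : (Tm (hχ.toLp χ) : E (k + 2) → ℂ) =ᵐ[volume] fun x => c * mdn m χ x := by
    filter_upwards [hT (hχ.toLp χ), redn_md_congr k s hs m _ _ hχ.coeFn_toLp] with x hx hx2
    rw [hx, hx2]
  have h2 : MemLp (mdn (k := k) m χ) 2 (volume : Measure (E (k + 2))) := by
    have h3 := (Lp.memLp (Tm (hχ.toLp χ))).ae_eq h1
    have h4 := h3.const_mul c⁻¹
    refine h4.ae_eq (Filter.Eventually.of_forall fun x => ?_)
    change c⁻¹ * (c * mdn m χ x) = mdn m χ x
    rw [inv_mul_cancel_left₀ hc]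
  rw [redn_toL2 h2]
  apply Lp.ext
  filter_upwards [h1, Lp.coeFn_smul c (h2.toLp (mdn m χ)), h2.coeFn_toLp] with x hx hx2 hx3
  rw [hx, hx2, Pi.smul_apply, hx3, smul_eq_mul]

theorem redn_test (k : ℕ) (f : ℝ → ℝ) (hf : FP f) (m j : ℕ) :
    IsTest (mdn (k := k) m (fun z => ((fj f j z : ℝ) : ℂ))) := by
  obtain ⟨h1, h2, h3⟩ := fj_facts.2.2 f hf j
  have hs : tsupport (fun z => ((fj f j z : ℝ) : ℂ)) ⊆ tsupport (fj f j) := by
    apply closure_mono
    intro z hz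
    rw [Function.mem_support] at hz ⊢
    exact fun h => hz (by rw [h, Complex.ofReal_zero])
  apply mtn
  · exact Complex.ofRealCLM.contDiff.comp h1
  · exact h2.comp_left (g := fun r : ℝ => (r : ℂ)) Complex.ofReal_zero
  · exact fun z hz => lt_trans (by norm_num) (h3 (hs hz)).1

theorem redn_memLp (f : ℝ → ℝ) (hf : FP f) (j : ℕ) :
    MemLp (fun z => ((fj f j z : ℝ) : ℂ)) 2 (volume.restrict (Ioi (0 : ℝ))) := by
  obtain ⟨h1, h2, h3⟩ := fj_facts.2.2 f hf j
  have hc : Continuous (fun z => ((fj f j z : ℝ) : ℂ)) :=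
    Complex.continuous_ofReal.comp h1.continuous
  have hs : HasCompactSupport (fun z => ((fj f j z : ℝ) : ℂ)) :=
    h2.comp_left (g := fun r : ℝ => (r : ℂ)) Complex.ofReal_zero
  exact (hc.memLp_of_hasCompactSupport hs).restrict _

theorem redn_P (k : ℕ) (f : ℝ → ℝ) (hf : FP f) (m j : ℕ) :
    toL2 (Pop (An (k + 2)) (mdn m (fun z => ((fj f j z : ℝ) : ℂ)))) =
      toL2 (mdn m (fun z => ((fj f (j + 1) z : ℝ) : ℂ))) +
        (((m : ℝ) * (m + k) / 16 : ℝ) : ℂ) • toL2 (mdn m (fun z => ((fj f j z : ℝ) : ℂ))) := by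
  obtain ⟨h1, h2, h3⟩ := fj_facts.2.2 f hf j
  have hP : Pop (An (k + 2)) (mdn m (fun z => ((fj f j z : ℝ) : ℂ))) = fun x =>
      mdn m (fun z => ((fj f (j + 1) z : ℝ) : ℂ)) x +
        (((m : ℝ) * (m + k) / 16 : ℝ) : ℂ) * mdn m (fun z => ((fj f j z : ℝ) : ℂ)) x := by
    funext x
    rw [pon m (fj f j) h1 h2 (fun z hz => ⟨lt_trans (by norm_num) (h3 hz).1,
      lt_trans (h3 hz).2 (by norm_num)⟩) x]
    unfold mdn
    have key : ∀ z : ℝ, -(1 / 2) * deriv (deriv (fj f j)) z +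
        (1 / 2) * ((m : ℝ) * (m + k)) * vn (k + 2) z * fj f j z =
          fj f (j + 1) z + (m : ℝ) * (m + k) / 16 * fj f j z := by
      intro z
      have e1 : fj f (j + 1) z = -(1 / 2) * deriv (deriv (fj f j)) z := rfl
      rw [e1]
      by_cases hz : z ∈ tsupport (fj f j)
      · have hz2 := h3 hz
        have e2 : wn (k + 2) z = 0 :=
          (wn_facts (k + 2) (by omega)).1.flat1 z ⟨hz2.1.le, hz2.2.le⟩
        unfold vn
        rw [e2]
        ring
      · rw [image_eq_zero_of_notMem_tsupport hz]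
        ring
    beta_reduce
    rw [key]
    push_cast
    ring
  have t1 := (test_l2 _ (redn_test k f hf m (j + 1))).1
  have t2 := (test_l2 _ (redn_test k f hf m j)).1
  have t3 : MemLp (Pop (An (k + 2)) (mdn m (fun z => ((fj f j z : ℝ) : ℂ)))) 2
      (volume : Measure (E (k + 2))) := by
    rw [hP]
    exact t1.add (t2.const_mul _)
  rw [redn_toL2 t1, redn_toL2 t2, redn_toL2 t3]
  apply Lp.ext
  filter_upwards [t3.coeFn_toLp, t1.coeFn_toLp, t2.coeFn_toLp,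
    Lp.coeFn_add (t1.toLp _) ((((m : ℝ) * (m + k) / 16 : ℝ) : ℂ) • t2.toLp _),
    Lp.coeFn_smul (((m : ℝ) * (m + k) / 16 : ℝ) : ℂ) (t2.toLp _)] with x e1 e2 e3 e4 e5
  rw [e1, e4, Pi.add_apply, e5, Pi.smul_apply, e2, e3, hP, smul_eq_mul]

theorem redn_c (r : ℝ) (hr : 0 < r) : (starRingEnd ℂ) ((1 / Real.sqrt r : ℝ) : ℂ) *
    ((1 / Real.sqrt r : ℝ) : ℂ) = ((1 / r : ℝ) : ℂ) := by
  rw [Complex.conj_ofReal, ← Complex.ofReal_mul, div_mul_div_comm, one_mul,
    Real.mul_self_sqrt hr.le]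

theorem redn_dE (M t : ℝ) : HasDerivAt (fun t : ℝ => Complex.exp (Complex.I * ((t * M / 16 : ℝ) : ℂ)))
    (Complex.exp (Complex.I * ((t * M / 16 : ℝ) : ℂ)) * (Complex.I * ((M / 16 : ℝ) : ℂ))) t := by
  have h1 : HasDerivAt (fun t : ℝ => t * M / 16) (M / 16) t := by
    have := ((hasDerivAt_id t).mul_const M).div_const 16
    simpa using this
  exact (h1.ofReal_comp.const_mul Complex.I).cexp

theorem redn_nE (r : ℝ) : ‖Complex.exp (Complex.I * (r : ℂ))‖ = 1 :=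
  Complex.norm_exp_I_mul_ofReal r

theorem redn (k : ℕ) (U : ℝ → (L2 (k + 2) →L[ℂ] L2 (k + 2))) (hU : IsPropagator (An (k + 2)) U) (f : ℝ → ℝ) (hf : FP f) :
    ∃ (g : ℕ → ℕ → ℝ → L2z) (s : ℕ → ℝ), Redn k U f g s := by
  obtain ⟨s, hs0, hslow, hs⟩ := zmn k
  choose Tm hT using tmn k s hs0 hs
  obtain ⟨c, hc⟩ : ∃ c : ℕ → ℂ, ∀ l, c l = ((1 / Real.sqrt (s l) : ℝ) : ℂ) := ⟨_, fun _ => rfl⟩
  obtain ⟨F, hF⟩ : ∃ F : ℕ → L2z, ∀ j, F j = (redn_memLp f hf j).toLp _ := ⟨_, fun _ => rfl⟩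
  obtain ⟨u, hu⟩ : ∃ u : ℕ → ℕ → E (k + 2) → ℂ,
    ∀ m j, u m j = mdn m (fun z => ((fj f j z : ℝ) : ℂ)) := ⟨_, fun _ _ => rfl⟩
  have hA : ∀ m j, Tm m (F j) = c m • toL2 (u m j) := fun m j => by
    rw [hF, hc, hu]
    exact redn_A k s hs0 hs m (Tm m) (hT m) _ (redn_memLp f hf j)
  obtain ⟨S, hS⟩ : ∃ S : ℕ → L2 (k + 2) →L[ℂ] L2z,
    ∀ m, S m = ContinuousLinearMap.adjoint (Tm m).toContinuousLinearMap := ⟨_, fun _ => rfl⟩
  have hSn : ∀ m (y : L2 (k + 2)), ‖S m y‖ ≤ ‖y‖ := by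
    intro m y
    refine ((S m).le_opNorm y).trans (mul_le_of_le_one_left (norm_nonneg _) ?_)
    rw [hS, LinearIsometryEquiv.norm_map]
    exact (Tm m).norm_toContinuousLinearMap_le
  have hST : ∀ m (x : L2z), S m (Tm m x) = x := by
    intro m x
    have h1 := (ContinuousLinearMap.norm_map_iff_adjoint_comp_self
      (Tm m).toContinuousLinearMap).1 (Tm m).norm_map
    have h2 := congrArg (fun L : L2z →L[ℂ] L2z => L x) h1
    rw [hS]
    exact h2
  have hSi : ∀ m (x : L2z) (y : L2 (k + 2)), (inner ℂ x (S m y) : ℂ) = inner ℂ (Tm m x) y := by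
    intro m x y
    rw [hS, ContinuousLinearMap.adjoint_inner_right]
    rfl
  refine ⟨fun m j t => Complex.exp (Complex.I * ((t * ((m : ℝ) * (m + k)) / 16 : ℝ) : ℂ)) •
    S m (U t (Tm m (F j))), s, hs0, hslow, ?_, ?_, ?_, ?_⟩
  · intro m j t χ hχ1 hχ2 _
    have hχ : MemLp χ 2 (volume.restrict (Ioi (0 : ℝ))) :=
      (hχ1.memLp_of_hasCompactSupport hχ2).restrict _
    have e1 : (inner ℂ (hχ.toLp χ)
        (Complex.exp (Complex.I * ((t * ((m : ℝ) * (m + k)) / 16 : ℝ) : ℂ)) •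
        S m (U t (Tm m (F j)))) : ℂ) = ∫ z in Ioi (0 : ℝ), conj (χ z) *
        ((Complex.exp (Complex.I * ((t * ((m : ℝ) * (m + k)) / 16 : ℝ) : ℂ)) •
        S m (U t (Tm m (F j))) : L2z) : ℝ → ℂ) z := by
      rw [MeasureTheory.L2.inner_def]
      apply integral_congr_ae
      filter_upwards [hχ.coeFn_toLp] with z hz
      rw [hz, RCLike.inner_apply']
    rw [← e1, inner_smul_right, hSi, redn_A k s hs0 hs m (Tm m) (hT m) χ hχ, hA, ← hc, map_smul,
      inner_smul_left, inner_smul_right, ← hu, ← redn_c (s m) (hs0 m), ← hc]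
    ring
  · refine ⟨fun j => ‖F j‖, fun m j t => ?_⟩
    rw [norm_smul, redn_nE, one_mul]
    refine (hSn m _).trans ?_
    rw [hU.isom, LinearIsometry.norm_map]
  · intro m j
    have e1 : Complex.exp (Complex.I * (((0 : ℝ) * ((m : ℝ) * (m + k)) / 16 : ℝ) : ℂ)) •
      S m (U 0 (Tm m (F j))) = F j := by
      rw [hU.zero, hST, zero_mul, zero_div, Complex.ofReal_zero, mul_zero, Complex.exp_zero,
        one_smul]
    rw [e1, hF]
    exact (redn_memLp f hf j).coeFn_toLp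
  · intro m j t
    have d1 := udn (An (k + 2)) U hU (u m j) (by rw [hu]; exact redn_test k f hf m j) t
    have d2 : HasDerivAt (fun t => S m (U t (Tm m (F j))))
        (c m • S m (-Complex.I • U t (toL2 (Pop (An (k + 2)) (u m j))))) t := by
      have d3 := ((S m).restrictScalars ℝ).hasFDerivAt.comp_hasDerivAt t d1
      have d4 := d3.const_smul (c m)
      refine d4.congr_of_eventuallyEq (Filter.Eventually.of_forall fun s => ?_)
      change S m (U s (Tm m (F j))) = c m • S m (U s (toL2 (u m j)))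
      rw [hA, map_smul, map_smul]
    have d5 := (redn_dE ((m : ℝ) * (m + k)) t).smul d2
    have hP : toL2 (Pop (An (k + 2)) (u m j)) = toL2 (u m (j + 1)) +
        (((m : ℝ) * (m + k) / 16 : ℝ) : ℂ) • toL2 (u m j) := by
      rw [hu, hu]
      exact redn_P k f hf m j
    have d6 : (Complex.exp (Complex.I * ((t * ((m : ℝ) * (m + k)) / 16 : ℝ) : ℂ)) •
        (c m • S m (-Complex.I • U t (toL2 (Pop (An (k + 2)) (u m j))))) +
        (Complex.exp (Complex.I * ((t * ((m : ℝ) * (m + k)) / 16 : ℝ) : ℂ)) *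
          (Complex.I * (((m : ℝ) * (m + k) / 16 : ℝ) : ℂ))) • S m (U t (Tm m (F j)))) =
        -Complex.I • (Complex.exp (Complex.I * ((t * ((m : ℝ) * (m + k)) / 16 : ℝ) : ℂ)) •
          S m (U t (Tm m (F (j + 1))))) := by
      rw [hP, hA, hA]
      simp only [map_add, map_smul]
      generalize S m (U t (toL2 (u m j))) = A
      generalize S m (U t (toL2 (u m (j + 1)))) = B
      module
    rw [← d6]
    exact d5

end N_redn

end Pool.Agent.Helper459.SK
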