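import Mathlib
import Pool.Agent.Helper459.SK.NDefs
import Pool.Agent.Helper459.SK.L_main1D2
import Pool.Agent.Helper459.SK.L_wn_facts
import Pool.Agent.Helper459.SK.L_redn
import Pool.Agent.Helper459.SK.L_sysn
import Pool.Agent.Helper459.SK.L_orn
import Pool.Agent.Helper459.SK.L_fj_facts

set_option autoImplicit false

noncomputable section

open MeasureTheory Set Filter Topology
open scoped ContDiff ComplexConjugate

namespace Pool.Agent.Helper459.SK
open N_main1D2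
open N_wn_facts
open N_redn
open N_sysn
open N_orn
open N_fj_facts

namespace N_mainn

theorem mainn (k : ℕ) (U : ℝ → (L2 (k + 2) →L[ℂ] L2 (k + 2))) (hU : IsPropagator (An (k + 2)) U) :
    ∃ t : ℝ, 0 < t ∧ ∃ p ∈ VVn (k + 2), ∃ q ∈ WWn (k + 2), ¬ RegPt (U t) p.1 p.2 q.1 q.2 := by
  by_contra hcon
  have hreg : ∀ t, 0 < t → ∀ p ∈ VVn (k + 2), ∀ q ∈ WWn (k + 2),
      RegPt (U t) p.1 p.2 q.1 q.2 := by
    intro t ht p hp q hq
    by_contra h
    exact hcon ⟨t, ht, p, hp, q, hq, h⟩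
  obtain ⟨⟨f, hf⟩, ⟨χ, hχ⟩, _⟩ := fj_facts
  obtain ⟨g, s, hr⟩ := redn k U hU f hf
  obtain ⟨Kc, hs⟩ := sysn k U hU f hf g s hr
  have ho := orn k U f hf g s hr hreg χ hχ
  have hν : Tendsto (fun l : ℕ => 2 * l + k) atTop atTop := by
    refine tendsto_atTop_mono (fun l => ?_) tendsto_id
    show l ≤ 2 * l + k
    omega
  exact main1D2 (wn (k + 2)) f (wn_facts (k + 2) (by omega)).1 hf χ hχ (fun l => 2 * l + k) hν
    ((k : ℝ) ^ 2 / 2) g Kc hs ho

end N_mainn

end Pool.Agent.Helper459.SK
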