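import Mathlib
import Pool.Agent.Helper459.SK.PDefs
import Pool.Agent.Helper459.SK.FDefs

set_option autoImplicit false

noncomputable section

open MeasureTheory Set Filter Topology
open scoped ContDiff ComplexConjugate

namespace Pool.Agent.Helper459.SK

namespace N_ofopn

theorem ofop_pd {n : ℕ} (j : Fin n) (u : E n → ℂ) (h1 : ContDiff ℝ ∞ u)
    (h2 : HasCompactSupport u) : ContDiff ℝ ∞ (pd j u) ∧ HasCompactSupport (pd j u) := by
  constructor
  · unfold pd
    exact (h1.fderiv_right (m := ∞) (by norm_num)).clm_apply contDiff_const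
  · exact h2.fderiv_apply ℝ _

theorem ofop_pop {n : ℕ} (A : E n → Matrix (Fin n) (Fin n) ℝ)
    (hA : ∀ j l, ContDiff ℝ ∞ (fun x => A x j l)) (u : E n → ℂ) (h1 : ContDiff ℝ ∞ u)
    (h2 : HasCompactSupport u) : MemLp (Pop A u) 2 (volume : Measure (E n)) := by
  have h3 : ∀ j l, ContDiff ℝ ∞ (pd j (fun y => (A y j l : ℂ) * pd l u y)) ∧
      HasCompactSupport (pd j (fun y => (A y j l : ℂ) * pd l u y)) := by
    intro j l
    obtain ⟨h4, h5⟩ := ofop_pd l u h1 h2
    refine ofop_pd j _ ?_ ?_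
    · exact (Complex.ofRealCLM.contDiff.comp (hA j l)).mul h4
    · exact h5.mul_left
  have h6 : ∀ j l, MemLp (pd j (fun y => (A y j l : ℂ) * pd l u y)) 2
      (volume : Measure (E n)) := fun j l =>
    (h3 j l).1.continuous.memLp_of_hasCompactSupport (h3 j l).2
  have h7 : MemLp (fun x => ∑ j, ∑ l, pd j (fun y => (A y j l : ℂ) * pd l u y) x) 2
      (volume : Measure (E n)) :=
    memLp_finsetSum _ fun j _ => memLp_finsetSum _ fun l _ => h6 j l
  exact h7.const_mul _

theorem toL2_of {n : ℕ} (u : E n → ℂ) (h : MemLp u 2 (volume : Measure (E n))) :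
    toL2 u = h.toLp u := by
  unfold toL2
  rw [dif_pos h]

theorem toL2_coe {n : ℕ} (g : L2 n) : toL2 (g : E n → ℂ) = g := by
  rw [toL2_of _ (Lp.memLp g)]
  exact Lp.toLp_coeFn g (Lp.memLp g)

theorem toL2_ae {n : ℕ} (u : E n → ℂ) (h : MemLp u 2 (volume : Measure (E n))) :
    (toL2 u : E n → ℂ) =ᵐ[volume] u := by
  rw [toL2_of u h]
  exact h.coeFn_toLp

theorem ofopn {n : ℕ} (A : E n → Matrix (Fin n) (Fin n) ℝ) (hA : Admissible A) (U' : ℝ → (L2 n →L[ℂ] L2 n)) (hU : IsPropagator A U') :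
    ∃ U : ℝ → (E n → ℂ) → (E n → ℂ), Schr.IsPropagator A U := by
  refine ⟨fun t f => (U' t (toL2 f) : E n → ℂ), ?_, ?_, ?_, ?_, ?_, ?_, ?_⟩
  · intro t f _
    exact Lp.memLp _
  · intro t c f g hf hg
    have hf' : MemLp f 2 (volume : Measure (E n)) := hf
    have hg' : MemLp g 2 (volume : Measure (E n)) := hg
    have h1 : toL2 (fun x => c * f x + g x) = c • toL2 f + toL2 g := by
      have hsum : MemLp (fun x => c * f x + g x) 2 (volume : Measure (E n)) :=
        (hf'.const_mul c).add hg'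
      rw [toL2_of f hf', toL2_of g hg', toL2_of _ hsum,
        ← MemLp.toLp_const_smul, ← MemLp.toLp_add]
      rfl
    show ((U' t (toL2 (fun x => c * f x + g x)) : L2 n) : E n → ℂ) =ᵐ[volume] _
    rw [h1, map_add, map_smul]
    have h2 := Lp.coeFn_add (c • U' t (toL2 f)) (U' t (toL2 g))
    have h3 := Lp.coeFn_smul c (U' t (toL2 f))
    filter_upwards [h2, h3] with x h4 h5
    rw [h4, Pi.add_apply, h5]
    rfl
  · intro t f hf
    have hf' : MemLp f 2 (volume : Measure (E n)) := hf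
    show eLpNorm (U' t (toL2 f) : E n → ℂ) 2 volume = eLpNorm f 2 volume
    rw [← Lp.enorm_def, ← eLpNorm_congr_ae (toL2_ae f hf'), ← Lp.enorm_def,
      ← ofReal_norm, ← ofReal_norm, hU.isom]
  · intro f hf
    show ((U' 0 (toL2 f) : L2 n) : E n → ℂ) =ᵐ[volume] f
    rw [hU.zero]
    exact toL2_ae f hf
  · intro s t f _
    show ((U' (s + t) (toL2 f) : L2 n) : E n → ℂ) =ᵐ[volume]
      (U' s (toL2 ((U' t (toL2 f) : L2 n) : E n → ℂ)) : E n → ℂ)
    rw [toL2_coe, hU.add]
  · intro f hf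
    have hf' : MemLp f 2 (volume : Measure (E n)) := hf
    have h1 : ∀ t : ℝ, eLpNorm (fun x => (U' t (toL2 f) : E n → ℂ) x - f x) 2 volume =
        ENNReal.ofReal ‖U' t (toL2 f) - toL2 f‖ := by
      intro t
      rw [ofReal_norm, Lp.enorm_def]
      refine eLpNorm_congr_ae ?_
      filter_upwards [Lp.coeFn_sub (U' t (toL2 f)) (toL2 f), toL2_ae f hf'] with x h2 h3
      rw [h2, Pi.sub_apply, h3]
    show Tendsto (fun t : ℝ => eLpNorm (fun x => (U' t (toL2 f) : E n → ℂ) x - f x) 2 volume)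
      (𝓝 0) (𝓝 0)
    simp only [h1]
    have h4 : Tendsto (fun t : ℝ => ‖U' t (toL2 f) - toL2 f‖) (𝓝 0) (𝓝 0) := by
      have h5 := (((hU.cont (toL2 f)).sub continuous_const).norm).tendsto (x := 0)
        (f := fun t : ℝ => ‖U' t (toL2 f) - toL2 f‖)
      rw [hU.zero, sub_self, norm_zero] at h5
      exact h5
    have h6 := ENNReal.tendsto_ofReal h4
    rwa [ENNReal.ofReal_zero] at h6
  · intro u hu
    have hu' : MemLp u 2 (volume : Measure (E n)) :=
      hu.1.continuous.memLp_of_hasCompactSupport hu.2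
    have hP : MemLp (Pop A u) 2 (volume : Measure (E n)) := ofop_pop A hA.smooth u hu.1 hu.2
    have h1 : ∀ t : ℝ, eLpNorm (fun x => ((U' t (toL2 u) : E n → ℂ) x - u x) / (t : ℂ) +
        Complex.I * Pop A u x) 2 volume =
        ENNReal.ofReal ‖t⁻¹ • (U' t (toL2 u) - toL2 u) - (-Complex.I • toL2 (Pop A u))‖ := by
      intro t
      rw [ofReal_norm, Lp.enorm_def]
      refine eLpNorm_congr_ae ?_
      filter_upwards [Lp.coeFn_sub (U' t (toL2 u)) (toL2 u), toL2_ae u hu', toL2_ae _ hP,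
        Lp.coeFn_sub (t⁻¹ • (U' t (toL2 u) - toL2 u)) (-Complex.I • toL2 (Pop A u)),
        Lp.coeFn_smul (t⁻¹) (U' t (toL2 u) - toL2 u),
        Lp.coeFn_smul (-Complex.I) (toL2 (Pop A u))] with x h2 h3 h4 h5 h6 h7
      rw [h5, Pi.sub_apply, h6, h7, Pi.smul_apply, Pi.smul_apply, h2, Pi.sub_apply, h3, h4,
        Complex.real_smul, smul_eq_mul, Complex.ofReal_inv]
      ring
    show Tendsto (fun t : ℝ => eLpNorm (fun x => ((U' t (toL2 u) : E n → ℂ) x - u x) / (t : ℂ) +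
        Complex.I * Pop A u x) 2 volume) (𝓝[≠] 0) (𝓝 0)
    simp only [h1]
    have h8 := hasDerivAt_iff_tendsto_slope_zero.1 (hU.gen u ⟨hu.1, hu.2⟩)
    simp only [zero_add, hU.zero] at h8
    have h9 : Tendsto (fun t : ℝ => ‖t⁻¹ • (U' t (toL2 u) - toL2 u) -
        (-Complex.I • toL2 (Pop A u))‖) (𝓝[≠] 0) (𝓝 0) := by
      have h10 := (h8.sub_const (-Complex.I • toL2 (Pop A u))).norm
      rw [sub_self, norm_zero] at h10
      exact h10
    have h11 := ENNReal.tendsto_ofReal h9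
    rwa [ENNReal.ofReal_zero] at h11

end N_ofopn

end Pool.Agent.Helper459.SK
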