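import Mathlib
import Pool.Agent.Helper459.SK.PDefs
import Pool.Agent.Helper459.SK.FDefs

set_option autoImplicit false

noncomputable section

open MeasureTheory Set Filter Topology
open scoped ContDiff ComplexConjugate

namespace Pool.Agent.Helper459.SK

namespace N_toopn

theorem toopn_pd_smooth {n : ℕ} (l : Fin n) (g : E n → ℂ) (hg : ContDiff ℝ ∞ g) :
    ContDiff ℝ ∞ (fun x => pd l g x) := by
  unfold pd
  exact (hg.fderiv_right (m := ∞) (by simp)).clm_apply contDiff_const

theorem toopn_pd_supp {n : ℕ} (l : Fin n) (g : E n → ℂ) : tsupport (fun x => pd l g x) ⊆ tsupport g := by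
  refine closure_minimal (fun x hx => ?_) (isClosed_tsupport g)
  by_contra hx'
  apply hx
  have h1 : x ∉ Function.support (fderiv ℝ g) := fun h => hx' (support_fderiv_subset ℝ h)
  have h2 : fderiv ℝ g x = 0 := by simpa using h1
  show fderiv ℝ g x _ = 0
  rw [h2]
  rfl

theorem toopn_memPop {n : ℕ} (A : E n → Matrix (Fin n) (Fin n) ℝ) (hA : Admissible A) (u : E n → ℂ)
    (hu : IsTest u) : MemLp (Pop A u) 2 (volume : Measure (E n)) := by
  have hsm : ∀ j l : Fin n, ContDiff ℝ ∞ (fun y => (A y j l : ℂ) * pd l u y) := by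
    intro j l
    have h1 : ContDiff ℝ ∞ (fun y => (A y j l : ℂ)) :=
      Complex.ofRealCLM.contDiff.comp (hA.smooth j l)
    exact h1.mul (toopn_pd_smooth l u hu.smooth)
  have hcont : Continuous (Pop A u) := by
    unfold Pop
    refine continuous_const.mul ?_
    refine continuous_finsetSum _ fun j _ => continuous_finsetSum _ fun l _ => ?_
    exact (toopn_pd_smooth j _ (hsm j l)).continuous
  refine hcont.memLp_of_hasCompactSupport ?_
  refine HasCompactSupport.intro hu.cpt fun x hx => ?_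
  unfold Pop
  have h1 : ∀ j l : Fin n, pd j (fun y => (A y j l : ℂ) * pd l u y) x = 0 := by
    intro j l
    have h2 : tsupport (fun y => (A y j l : ℂ) * pd l u y) ⊆ tsupport u :=
      (tsupport_mul_subset_right).trans (toopn_pd_supp l u)
    have h3 : x ∉ tsupport (fun x => pd j (fun y => (A y j l : ℂ) * pd l u y) x) :=
      fun h => hx (h2 (toopn_pd_supp j _ h))
    exact image_eq_zero_of_notMem_tsupport h3
  simp [h1]

theorem toopn_Pop {n : ℕ} (A : E n → Matrix (Fin n) (Fin n) ℝ) (u : E n → ℂ) : Schr.Pop A u = Pop A u := rfl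

theorem toopn {n : ℕ} (A : E n → Matrix (Fin n) (Fin n) ℝ) (hA : Admissible A) (U : ℝ → (E n → ℂ) → (E n → ℂ)) (hU : Schr.IsPropagator A U) :
    ∃ U' : ℝ → (L2 n →L[ℂ] L2 n), IsPropagator A U' ∧
      ∀ t (f : E n → ℂ), MemLp f 2 (volume : Measure (E n)) → (U' t (toL2 f) : E n → ℂ) =ᵐ[volume] U t f := by
  have h0 : ∀ t (f : E n → ℂ), MemLp f 2 (volume : Measure (E n)) → f =ᵐ[volume] 0 →
      U t f =ᵐ[volume] 0 := by
    intro t f hf hf0
    have h1 := hU.isom t f hf
    unfold Schr.nrm at h1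
    rw [eLpNorm_congr_ae hf0, eLpNorm_zero] at h1
    exact (eLpNorm_eq_zero_iff (hU.mem t f hf).1 (by norm_num)).mp h1
  have hwd : ∀ t (f g : E n → ℂ), MemLp f 2 (volume : Measure (E n)) →
      MemLp g 2 (volume : Measure (E n)) → f =ᵐ[volume] g → U t f =ᵐ[volume] U t g := by
    intro t f g hf hg hfg
    have h1 : U t (fun x => (-1 : ℂ) * f x + g x) =ᵐ[volume] fun x => (-1 : ℂ) * U t f x + U t g x :=
      hU.lin t (-1) f g hf hg
    have h2 : MemLp (fun x => (-1 : ℂ) * f x + g x) 2 (volume : Measure (E n)) :=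
      (hf.const_mul (-1 : ℂ)).add hg
    have h3 := h0 t _ h2 (by
      filter_upwards [hfg] with x hx
      simp [hx])
    filter_upwards [h1, h3] with x hx1 hx3
    rw [hx1] at hx3
    simp only [Pi.zero_apply] at hx3
    linear_combination - hx3
  let L : ℝ → L2 n → L2 n := fun t F => (hU.mem t F (Lp.memLp F)).toLp (U t F)
  have hL : ∀ t (F : L2 n), (L t F : E n → ℂ) =ᵐ[volume] U t F := fun t F =>
    MemLp.coeFn_toLp (hU.mem t F (Lp.memLp F))
  have Ladd : ∀ t (F G : L2 n), L t (F + G) = L t F + L t G := by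
    intro t F G
    apply Lp.ext
    have h1 : (fun x => (1 : ℂ) * F x + G x) =ᵐ[volume] (⇑(F + G) : E n → ℂ) := by
      filter_upwards [Lp.coeFn_add F G] with x hx
      rw [hx]
      simp
    have h2 := hwd t _ _ (((Lp.memLp F).const_mul (1 : ℂ)).add (Lp.memLp G)) (Lp.memLp (F + G)) h1
    have h3 : U t (fun x => (1 : ℂ) * F x + G x) =ᵐ[volume] fun x => (1 : ℂ) * U t F x + U t G x :=
      hU.lin t 1 F G (Lp.memLp F) (Lp.memLp G)
    have h2' : U t (fun x => (1 : ℂ) * F x + G x) =ᵐ[volume] U t (⇑(F + G)) := h2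
    filter_upwards [hL t (F + G), h2', h3, hL t F, hL t G, Lp.coeFn_add (L t F) (L t G)]
      with x a1 a2 a3 a4 a5 a6
    rw [a1, ← a2, a3, a6, Pi.add_apply, a4, a5, one_mul]
  have Lsmul : ∀ t (c : ℂ) (F : L2 n), L t (c • F) = c • L t F := by
    intro t c F
    apply Lp.ext
    have hz : MemLp (fun _ : E n => (0 : ℂ)) 2 (volume : Measure (E n)) := MemLp.zero'
    have h1 : (fun x => c * F x + 0) =ᵐ[volume] (⇑(c • F) : E n → ℂ) := by
      filter_upwards [Lp.coeFn_smul c F] with x hx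
      rw [hx]
      simp
    have h2 : U t (fun x => c * F x + 0) =ᵐ[volume] U t (⇑(c • F)) :=
      hwd t _ _ (((Lp.memLp F).const_mul c).add hz) (Lp.memLp (c • F)) h1
    have h3 : U t (fun x => c * F x + 0) =ᵐ[volume] fun x => c * U t F x + U t (fun _ => 0) x :=
      hU.lin t c F (fun _ => 0) (Lp.memLp F) hz
    have h4 : U t (fun _ => 0) =ᵐ[volume] 0 := h0 t _ hz (Filter.EventuallyEq.refl _ _)
    filter_upwards [hL t (c • F), h2, h3, hL t F, h4, Lp.coeFn_smul c (L t F)]
      with x a1 a2 a3 a4 a5 a6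
    rw [a1, ← a2, a3, a6, Pi.smul_apply, a4, a5, Pi.zero_apply, add_zero, smul_eq_mul]
  have Lnorm : ∀ t (F : L2 n), ‖L t F‖ = ‖F‖ := by
    intro t F
    have h1 := hU.isom t F (Lp.memLp F)
    unfold Schr.nrm at h1
    have hm : MemLp (U t F) 2 (volume : Measure (E n)) := hU.mem t F (Lp.memLp F)
    have h2 : L t F = hm.toLp (U t F) := rfl
    rw [h2, Lp.norm_toLp, h1, Lp.norm_def]
  let U' : ℝ → (L2 n →L[ℂ] L2 n) := fun t =>
    LinearMap.mkContinuous
      { toFun := L t
        map_add' := Ladd t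
        map_smul' := Lsmul t } 1 (by
        intro x
        show ‖L t x‖ ≤ 1 * ‖x‖
        rw [Lnorm, one_mul])
  have hU'L : ∀ t F, U' t F = L t F := fun t F => rfl
  have htoL2 : ∀ (f : E n → ℂ), MemLp f 2 (volume : Measure (E n)) →
      (toL2 f : E n → ℂ) =ᵐ[volume] f := by
    intro f hf
    unfold toL2
    rw [dif_pos hf]
    exact MemLp.coeFn_toLp hf
  have hkey : ∀ t (f : E n → ℂ), MemLp f 2 (volume : Measure (E n)) →
      (U' t (toL2 f) : E n → ℂ) =ᵐ[volume] U t f := by
    intro t f hf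
    rw [hU'L]
    exact (hL t (toL2 f)).trans (hwd t _ _ (Lp.memLp _) hf (htoL2 f hf))
  have U0 : ∀ F, U' 0 F = F := by
    intro F
    rw [hU'L]
    apply Lp.ext
    exact (hL 0 F).trans (hU.zero F (Lp.memLp F))
  have Uadd : ∀ s t F, U' (s + t) F = U' s (U' t F) := by
    intro s t F
    rw [hU'L, hU'L, hU'L]
    apply Lp.ext
    have h1 : U (s + t) F =ᵐ[volume] U s (U t F) := hU.add s t F (Lp.memLp F)
    have h2 : U s (⇑(L t F)) =ᵐ[volume] U s (U t F) :=
      hwd s _ _ (Lp.memLp _) (hU.mem t F (Lp.memLp F)) (hL t F)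
    exact (hL (s + t) F).trans (h1.trans (h2.symm.trans (hL s (L t F)).symm))
  have Unorm : ∀ t F, ‖U' t F‖ = ‖F‖ := fun t F => Lnorm t F
  refine ⟨U', ⟨U0, Uadd, Unorm, ?_, ?_⟩, hkey⟩
  · intro F
    have c0 : Tendsto (fun t => U' t F) (𝓝 0) (𝓝 F) := by
      rw [tendsto_iff_norm_sub_tendsto_zero]
      have h1 := (ENNReal.tendsto_toReal ENNReal.zero_ne_top).comp (hU.cont F (Lp.memLp F))
      rw [ENNReal.toReal_zero] at h1
      refine h1.congr fun t => ?_
      show (Schr.nrm (fun x => U t F x - F x)).toReal = ‖L t F - F‖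
      unfold Schr.nrm
      rw [Lp.norm_def]
      congr 1
      apply eLpNorm_congr_ae
      filter_upwards [hL t F, Lp.coeFn_sub (L t F) F] with x a1 a2
      rw [a2, Pi.sub_apply, a1]
    rw [continuous_iff_continuousAt]
    intro s
    have e2 : (fun t => U' t F) = fun t => U' s (U' (t - s) F) := by
      funext t
      rw [← Uadd]
      congr 2
      ring
    unfold ContinuousAt
    rw [e2]
    have h1 : Tendsto (fun t : ℝ => t - s) (𝓝 s) (𝓝 0) := by
      have : Tendsto (fun t : ℝ => t - s) (𝓝 s) (𝓝 (s - s)) :=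
        (continuous_id.sub continuous_const).tendsto s
      rwa [sub_self] at this
    have h2 := ((U' s).continuous.tendsto F).comp (c0.comp h1)
    have h3 : U' s (U' (s - s) F) = U' s F := by rw [sub_self, U0]
    show Tendsto (fun t => (U' s) ((U' (t - s)) F)) (𝓝 s) (𝓝 (U' s (U' (s - s) F)))
    rw [h3]
    exact h2
  · intro u hu
    have hmu : MemLp u 2 (volume : Measure (E n)) :=
      hu.smooth.continuous.memLp_of_hasCompactSupport hu.cpt
    have hmP := toopn_memPop A hA u hu
    have hgen := hU.gen u ⟨hu.smooth, hu.cpt⟩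
    rw [hasDerivAt_iff_tendsto_slope_zero, tendsto_iff_norm_sub_tendsto_zero]
    have h1 := (ENNReal.tendsto_toReal ENNReal.zero_ne_top).comp hgen
    rw [ENNReal.toReal_zero] at h1
    refine h1.congr fun t => ?_
    simp only [zero_add]
    rw [U0]
    have hmU : MemLp (U t u) 2 (volume : Measure (E n)) := hU.mem t u hmu
    have e1 : U' t (toL2 u) = hmU.toLp (U t u) := by
      apply Lp.ext
      exact (hkey t u hmu).trans (MemLp.coeFn_toLp hmU).symm
    have e2 : toL2 u = hmu.toLp u := by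
      unfold toL2; rw [dif_pos hmu]
    have e3 : toL2 (Pop A u) = hmP.toLp (Pop A u) := by
      unfold toL2; rw [dif_pos hmP]
    rw [e1, e2, e3, ← MemLp.toLp_sub, ← MemLp.toLp_const_smul, ← MemLp.toLp_const_smul,
      ← MemLp.toLp_sub, Lp.norm_toLp]
    show (Schr.nrm (fun x => (U t u x - u x) / (t : ℂ) + Complex.I * Schr.Pop A u x)).toReal = _
    unfold Schr.nrm
    congr 2
    funext x
    rw [toopn_Pop]
    simp only [Pi.sub_apply, Pi.smul_apply, smul_eq_mul, Complex.real_smul, Complex.ofReal_inv]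
    rw [div_eq_mul_inv]
    ring

end N_toopn

end Pool.Agent.Helper459.SK
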