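import Mathlib
import Pool.Agent.Helper459.SK.PDefs
import Pool.Agent.Helper459.SK.FDefs

set_option autoImplicit false

noncomputable section

open MeasureTheory Set Filter Topology
open scoped ContDiff ComplexConjugate

namespace Pool.Agent.Helper459.SK

namespace N_wfopn

theorem wfop_wpk {n : ℕ} (φ : E n → ℂ) (ξ : E n) : wpk φ ξ = Schr.wpk φ ξ := by
  funext x
  have e : (inner ℝ ξ x : ℝ) = ∑ j, ξ j * x j := by
    rw [PiLp.inner_apply]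
    refine Finset.sum_congr rfl fun j _ => ?_
    simp [mul_comm]
  unfold wpk Schr.wpk
  rw [e]

theorem wfop_memLp {n : ℕ} (φ : E n → ℂ) (hφ : Schr.Test φ) (ξ : E n) :
    MemLp (Schr.wpk φ ξ) 2 (volume : Measure (E n)) := by
  have hc1 : Continuous (fun x : E n => (∑ j, ξ j * x j : ℝ)) := by fun_prop
  have hc2 : Continuous (fun x : E n => Complex.exp (Complex.I * ((∑ j, ξ j * x j : ℝ) : ℂ))) :=
    Complex.continuous_exp.comp (continuous_const.mul (Complex.continuous_ofReal.comp hc1))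
  have hc : Continuous (Schr.wpk φ ξ) := hφ.1.continuous.mul hc2
  refine hc.memLp_of_hasCompactSupport ?_
  refine hφ.2.mono (fun x hx => ?_)
  rw [Function.mem_support] at hx ⊢
  intro h0
  apply hx
  unfold Schr.wpk
  rw [h0, zero_mul]

theorem wfopn {n : ℕ} (S' : L2 n →L[ℂ] L2 n) (S : (E n → ℂ) → (E n → ℂ))
    (h : ∀ f : E n → ℂ, MemLp f 2 (volume : Measure (E n)) → (S' (toL2 f) : E n → ℂ) =ᵐ[volume] S f)
    (x₀ ξ₀ y₀ η₀ : E n) (hξ : ξ₀ ≠ 0) (hn : ¬ RegPt S' x₀ ξ₀ y₀ η₀) : Schr.InWF S x₀ ξ₀ y₀ η₀ := by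
  refine ⟨Or.inl hξ, ?_⟩
  rintro ⟨φ₁, φ₂, ht1, ht2, h1, h2, Γ, hΓ, hR⟩
  refine hn ⟨φ₁, φ₂, ⟨ht1.1, ht1.2⟩, ⟨ht2.1, ht2.2⟩, h1, h2, Γ, hΓ.1, ?_, hΓ.2.1, ?_⟩
  · rintro ⟨a, b⟩ hp r hr
    exact hΓ.2.2 a b hp r hr
  · intro N
    obtain ⟨C, hC⟩ := hR N
    refine ⟨C, ?_⟩
    rintro ⟨ξ, η⟩ hp
    have hC' := hC ξ η hp
    have e : inner ℂ (toL2 (wpk φ₁ ξ)) (S' (toL2 (wpk φ₂ η))) =
        Schr.pairing (Schr.wpk φ₁ ξ) (S (Schr.wpk φ₂ η)) := by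
      rw [wfop_wpk, wfop_wpk]
      have hm1 := wfop_memLp φ₁ ht1 ξ
      have hm2 := wfop_memLp φ₂ ht2 η
      have e1 : toL2 (Schr.wpk φ₁ ξ) = hm1.toLp _ := by
        unfold toL2
        rw [dif_pos hm1]
      rw [L2.inner_def, e1]
      unfold Schr.pairing
      refine integral_congr_ae ?_
      filter_upwards [hm1.coeFn_toLp, h _ hm2] with x hx1 hx2
      rw [hx1, hx2, RCLike.inner_apply, mul_comm]
    show ‖inner ℂ (toL2 (wpk φ₁ ξ)) (S' (toL2 (wpk φ₂ η)))‖ * (1 + ‖ξ‖ + ‖η‖) ^ N ≤ C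
    rw [e]
    exact hC'

end N_wfopn

end Pool.Agent.Helper459.SK
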